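import Pool.Agent.Helper94.AXG.Defs

/-! # AXG-C10: counting zeros -/

namespace Pool.Agent.Helper94.AXG

open Complex Filter Topology

/-- AXG-C10a: `ξ' ≠ 0` near `0`. Proof. Near `s₁`, `ξ = h/s^K`, `ξ'(s₁) = (s₁ h'(s₁) - K h(s₁)) / s₁^{K+1}` and
`s h' - K h → -K h(0) ≠ 0`. -/
theorem deriv_pole {K : ℕ} (hK : 1 ≤ K) {ξ h : ℂ → ℂ} (hξ : Pl K ξ h) :
    ∀ᶠ s in 𝓝[≠] (0 : ℂ), deriv ξ s ≠ 0 := by
  obtain ⟨ha, h0, he⟩ := hξ
  have h1 : ∀ᶠ y in 𝓝[≠] (0 : ℂ), ∀ᶠ x in 𝓝 y, ξ x = h x / x ^ K := by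
    have h2 := eventually_eventually_nhdsWithin.2 he
    filter_upwards [h2, self_mem_nhdsWithin] with y hy hy0
    have h3 : 𝓝[≠] (0 : ℂ) = 𝓝[{(0 : ℂ)}ᶜ] 0 := rfl
    rwa [isOpen_compl_singleton.nhdsWithin_eq hy0] at hy
  have h2 : ∀ᶠ y in 𝓝[≠] (0 : ℂ), AnalyticAt ℂ h y :=
    (ha.eventually_analyticAt).filter_mono nhdsWithin_le_nhds
  have h3 : ContinuousAt (fun s => s * deriv h s - K * h s) 0 :=
    (continuousAt_id.mul ha.deriv.continuousAt).sub (continuousAt_const.mul ha.continuousAt)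
  have h4 : ∀ᶠ y in 𝓝[≠] (0 : ℂ), y * deriv h y - K * h y ≠ 0 := by
    refine (h3.eventually_ne ?_).filter_mono nhdsWithin_le_nhds
    have hK0 : (K : ℂ) ≠ 0 := by exact_mod_cast (by omega : K ≠ 0)
    show (0 : ℂ) * deriv h 0 - K * h 0 ≠ 0
    rw [zero_mul, zero_sub]
    exact neg_ne_zero.2 (mul_ne_zero hK0 h0)
  filter_upwards [h1, h2, h4, self_mem_nhdsWithin] with s e1 e2 e4 hs0
  have hs : s ≠ 0 := hs0
  have hd : HasDerivAt (fun x => h x / x ^ K)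
      ((deriv h s * s ^ K - h s * (K * s ^ (K - 1))) / (s ^ K) ^ 2) s :=
    e2.differentiableAt.hasDerivAt.div (hasDerivAt_pow K s) (pow_ne_zero _ hs)
  have e5 : deriv ξ s = (deriv h s * s ^ K - h s * (K * s ^ (K - 1))) / (s ^ K) ^ 2 := by
    rw [Filter.EventuallyEq.deriv_eq e1]
    exact hd.deriv
  rw [e5]
  refine div_ne_zero ?_ (pow_ne_zero _ (pow_ne_zero _ hs))
  obtain ⟨m, rfl⟩ : ∃ m, K = m + 1 := ⟨K - 1, by omega⟩
  have e6 : deriv h s * s ^ (m + 1) - h s * (((m + 1 : ℕ) : ℂ) * s ^ (m + 1 - 1)) =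
      s ^ m * (s * deriv h s - ((m + 1 : ℕ) : ℂ) * h s) := by
    rw [Nat.add_sub_cancel]
    ring
  rw [e6]
  exact mul_ne_zero (pow_ne_zero _ hs) e4

private lemma c10_an {K : ℕ} {ξ h : ℂ → ℂ} (hξ : Pl K ξ h) :
    ∀ᶠ s in 𝓝[≠] (0 : ℂ), AnalyticAt ℂ ξ s := by
  obtain ⟨ha, h0, he⟩ := hξ
  have h1 : ∀ᶠ y in 𝓝[≠] (0 : ℂ), ∀ᶠ x in 𝓝 y, ξ x = h x / x ^ K := by
    have h2 := eventually_eventually_nhdsWithin.2 he
    filter_upwards [h2, self_mem_nhdsWithin] with y hy hy0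
    have h3 : 𝓝[≠] (0 : ℂ) = 𝓝[{(0 : ℂ)}ᶜ] 0 := rfl
    rwa [isOpen_compl_singleton.nhdsWithin_eq hy0] at hy
  have h2 : ∀ᶠ y in 𝓝[≠] (0 : ℂ), AnalyticAt ℂ h y :=
    (ha.eventually_analyticAt).filter_mono nhdsWithin_le_nhds
  filter_upwards [h1, h2, self_mem_nhdsWithin] with s e1 e2 hs0
  have hs : s ≠ 0 := hs0
  have e3 : AnalyticAt ℂ (fun x => h x / x ^ K) s :=
    e2.div (analyticAt_id.pow K) (pow_ne_zero _ hs)
  exact e3.congr (Filter.EventuallyEq.symm e1)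

private lemma c10_pre {ξ : ℂ → ℂ} {s₁ : ℂ} (hξ : AnalyticAt ℂ ξ s₁) (σ : ℤ) :
    AnalyticAt ℂ (fun s => 1 - exp (2 * Real.pi * I * (σ : ℂ) * ξ s)) s₁ :=
  analyticAt_const.sub ((analyticAt_const.mul hξ).cexp)

open scoped Classical in
/-- AXG-C10b. Proof. `f(s) = 1 - e^{2πiσξ(s)}`, `σ = ±1`, is analytic at `s₁`; it vanishes iff `ξ(s₁)` is an
integer, and then `f'(s₁) = -2πiσξ'(s₁) ≠ 0`, so the order is `1`. -/
theorem order_one_sub {ξ : ℂ → ℂ} {s₁ : ℂ} (hξ : AnalyticAt ℂ ξ s₁) (hd : deriv ξ s₁ ≠ 0) {σ : ℤ}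
    (hσ : σ = 1 ∨ σ = -1) :
    analyticOrderAt (fun s => 1 - exp (2 * Real.pi * I * (σ : ℂ) * ξ s)) s₁ =
      if (∃ n : ℤ, ξ s₁ = n) then 1 else 0 := by
  have hf := c10_pre hξ σ
  have hσ0 : (σ : ℂ) ≠ 0 := by
    rcases hσ with h | h <;> rw [h] <;> norm_num
  have hpi : (2 * Real.pi * I : ℂ) ≠ 0 := Complex.two_pi_I_ne_zero
  have hiff : (∃ n : ℤ, ξ s₁ = n) ↔ exp (2 * Real.pi * I * (σ : ℂ) * ξ s₁) = 1 := by
    rw [Complex.exp_eq_one_iff]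
    constructor
    · rintro ⟨n, hn⟩
      refine ⟨σ * n, ?_⟩
      rw [hn]
      push_cast
      ring
    · rintro ⟨n, hn⟩
      have h1 : (σ : ℂ) * ξ s₁ = n := by
        have h2 : (2 * Real.pi * I : ℂ) * ((σ : ℂ) * ξ s₁) = (2 * Real.pi * I : ℂ) * n := by
          rw [← mul_assoc, hn]
          ring
        exact mul_left_cancel₀ hpi h2
      refine ⟨σ * n, ?_⟩
      rcases hσ with h | h
      · rw [h] at h1 ⊢
        push_cast at h1 ⊢
        rw [one_mul] at h1 ⊢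
        exact h1
      · rw [h] at h1 ⊢
        push_cast at h1 ⊢
        rw [← h1]
        ring
  split_ifs with hn
  · refine hf.analyticOrderAt_eq_one_of_zero_deriv_ne_zero ?_ ?_
    · rw [hiff.1 hn, sub_self]
    · have h1 : HasDerivAt ξ (deriv ξ s₁) s₁ := hξ.differentiableAt.hasDerivAt
      have h2 : HasDerivAt (fun s => 1 - exp (2 * Real.pi * I * (σ : ℂ) * ξ s))
          (-(exp (2 * Real.pi * I * (σ : ℂ) * ξ s₁) *
            (2 * Real.pi * I * (σ : ℂ) * deriv ξ s₁))) s₁ :=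
        ((h1.const_mul (2 * Real.pi * I * (σ : ℂ))).cexp).const_sub 1
      rw [h2.deriv, hiff.1 hn, one_mul]
      exact neg_ne_zero.2 (mul_ne_zero (mul_ne_zero hpi hσ0) hd)
  · rw [hf.analyticOrderAt_eq_zero]
    intro h
    exact hn (hiff.2 (sub_eq_zero.1 h).symm)

private lemma c10_prod {T : Type} (S : Finset T) (F : T → ℂ → ℂ) (s₁ : ℂ)
    (hF : ∀ i, AnalyticAt ℂ (F i) s₁) (e c : T → ℕ)
    (hc : ∀ i, e i • analyticOrderAt (F i) s₁ = ((e i * c i : ℕ) : ℕ∞)) :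
    analyticOrderAt (fun s => ∏ i ∈ S, F i s ^ e i) s₁ = ((∑ i ∈ S, e i * c i : ℕ) : ℕ∞) := by
  classical
  induction S using Finset.induction_on with
  | empty =>
    simp only [Finset.prod_empty, Finset.sum_empty]
    rw [(analyticAt_const).analyticOrderAt_eq_zero.2 one_ne_zero]
    rfl
  | insert a S ha ih =>
    have h1 : (fun s => ∏ i ∈ insert a S, F i s ^ e i) =
        (F a ^ e a) * (fun s => ∏ i ∈ S, F i s ^ e i) := by
      funext s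
      rw [Finset.prod_insert ha]
      rfl
    have h2 : AnalyticAt ℂ (fun s => ∏ i ∈ S, F i s ^ e i) s₁ :=
      Finset.analyticAt_fun_prod S (fun i _ => (hF i).pow (e i))
    rw [h1, analyticOrderAt_mul ((hF a).pow (e a)) h2, analyticOrderAt_pow (hF a), ih, hc a,
      Finset.sum_insert ha]
    push_cast
    rfl

open scoped Classical in
/-- AXG-C10c. Proof. For small `s₁ ≠ 0` all `ξ_i` are analytic at `s₁` with nonzero derivative and the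
equality holds near `s₁`. Compare the orders at `s₁` (`analyticOrderAt_mul`, `analyticOrderAt_pow`): the
order of the left side is `∑_i e i * [ξ_i(s₁) ∈ ℤ]` over the `i` with `σ_i ≠ 0` (for `σ_i = 0` the
exponent is `0` and the factor is `1`), all orders are finite. -/
theorem zero_count {T : Type} [Fintype T] {K : ℕ} (hK : 1 ≤ K) (ξ h : T → ℂ → ℂ)
    (hξ : ∀ i, Pl K (ξ i) (h i)) (σ : T → ℤ) (hσ : ∀ i, σ i = 0 ∨ σ i = 1 ∨ σ i = -1) (e e' : T → ℕ)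
    (he : ∀ i, σ i = 0 → e i = 0 ∧ e' i = 0)
    (h : ∀ᶠ s in 𝓝[≠] (0 : ℂ), ∏ i, (1 - exp (2 * Real.pi * I * (σ i : ℂ) * ξ i s)) ^ e i =
      ∏ i, (1 - exp (2 * Real.pi * I * (σ i : ℂ) * ξ i s)) ^ e' i) :
    ∀ᶠ s in 𝓝[≠] (0 : ℂ), ∑ i, (if (∃ n : ℤ, ξ i s = n) then (e i : ℤ) - e' i else 0) = 0 := by
  have h1 : ∀ᶠ s in 𝓝[≠] (0 : ℂ), ∀ i, AnalyticAt ℂ (ξ i) s :=
    eventually_all.2 fun i => c10_an (hξ i)
  have h2 : ∀ᶠ s in 𝓝[≠] (0 : ℂ), ∀ i, deriv (ξ i) s ≠ 0 :=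
    eventually_all.2 fun i => deriv_pole hK (hξ i)
  have h3 := eventually_eventually_nhdsWithin.2 h
  filter_upwards [h1, h2, h3, self_mem_nhdsWithin] with s e1 e2 e3 hs0
  rw [isOpen_compl_singleton.nhdsWithin_eq hs0] at e3
  have key : ∀ f : T → ℕ, (∀ i, σ i = 0 → f i = 0) →
      ∀ i, f i • analyticOrderAt (fun s => 1 - exp (2 * Real.pi * I * (σ i : ℂ) * ξ i s)) s =
        ((f i * (if (∃ n : ℤ, ξ i s = n) then 1 else 0) : ℕ) : ℕ∞) := by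
    intro f hf i
    rcases hσ i with h0 | h0
    · rw [hf i h0, zero_smul, zero_mul]
      rfl
    · rw [order_one_sub (e1 i) (e2 i) h0]
      split_ifs
      · rw [mul_one, nsmul_one]
      · rw [mul_zero, smul_zero]
        rfl
  have hA : ∀ i, AnalyticAt ℂ (fun s => 1 - exp (2 * Real.pi * I * (σ i : ℂ) * ξ i s)) s :=
    fun i => c10_pre (e1 i) (σ i)
  have o1 := c10_prod Finset.univ _ s hA e _ (key e fun i hi => (he i hi).1)
  have o2 := c10_prod Finset.univ _ s hA e' _ (key e' fun i hi => (he i hi).2)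
  rw [analyticOrderAt_congr e3, o2] at o1
  have o3 : ∑ i, e' i * (if (∃ n : ℤ, ξ i s = n) then 1 else 0) =
      ∑ i, e i * (if (∃ n : ℤ, ξ i s = n) then 1 else 0) := by
    exact_mod_cast o1
  have o4 : ∑ i, (if (∃ n : ℤ, ξ i s = n) then (e i : ℤ) - e' i else 0) =
      ((∑ i, e i * (if (∃ n : ℤ, ξ i s = n) then 1 else 0) : ℕ) : ℤ) -
      ((∑ i, e' i * (if (∃ n : ℤ, ξ i s = n) then 1 else 0) : ℕ) : ℤ) := by
    push_cast
    rw [← Finset.sum_sub_distrib]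
    refine Finset.sum_congr rfl fun i _ => ?_
    split_ifs <;> ring
  rw [o4, o3, sub_self]

end Pool.Agent.Helper94.AXG
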