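import Pool.Agent.Helper94.AXG.Defs

/-! # AXG-B3 -/

namespace Pool.Agent.Helper94.AXG

open Complex

private theorem b3_re {Z : ℂ} {t : ℝ} (h : |arg Z - t| ≤ Real.pi / 2) :
    0 ≤ (Z * exp (-(t : ℂ) * I)).re := by
  have h1 : Z * exp (-(t : ℂ) * I) = (‖Z‖ : ℂ) * exp (((arg Z - t : ℝ) : ℂ) * I) := by
    conv_lhs => rw [← norm_mul_exp_arg_mul_I Z]
    rw [mul_assoc, ← exp_add]
    push_cast
    ring_nf
  rw [h1, re_ofReal_mul, exp_ofReal_mul_I_re]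
  exact mul_nonneg (norm_nonneg _) (Real.cos_nonneg_of_mem_Icc (abs_le.1 h))

private theorem b3_aux {R t Y₁ : ℝ} (ht : |t| < Real.pi / 2) (hY : 0 < Y₁)
    (hR : R < Y₁ * Real.cos t) {Z : ℂ} (h : |arg Z - t| ≤ Real.pi / 2) :
    R < ‖(Y₁ : ℂ) + Z‖ ∧ |arg ((Y₁ : ℂ) + Z)| < Real.pi / 2 + |t| := by
  have hc : 0 < Real.cos t := Real.cos_pos_of_mem_Ioo (abs_lt.1 ht)
  set W : ℂ := ((Y₁ : ℂ) + Z) * exp (-(t : ℂ) * I) with hW
  have h1 : (((Y₁ : ℂ)) * exp (-(t : ℂ) * I)).re = Y₁ * Real.cos t := by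
    rw [re_ofReal_mul, ← ofReal_neg, exp_ofReal_mul_I_re, Real.cos_neg]
  have h2 : Y₁ * Real.cos t ≤ W.re := by
    rw [hW, add_mul, add_re, h1]
    linarith [b3_re h]
  have hn : ‖W‖ = ‖(Y₁ : ℂ) + Z‖ := by
    rw [hW, norm_mul, ← ofReal_neg, norm_exp_ofReal_mul_I, mul_one]
  have hp : 0 < W.re := (mul_pos hY hc).trans_le h2
  refine ⟨?_, ?_⟩
  · rw [← hn]
    exact hR.trans_le (h2.trans (re_le_norm W))
  · have hW0 : W ≠ 0 := by
      rintro h0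
      rw [h0, zero_re] at hp
      exact lt_irrefl _ hp
    have ha : |arg W| < Real.pi / 2 := abs_arg_lt_pi_div_two_iff.2 (Or.inl hp)
    have he : (Y₁ : ℂ) + Z = W * exp ((t : ℂ) * I) := by
      rw [hW, mul_assoc, ← exp_add]
      simp
    have ht2 := abs_lt.1 ht
    have ha2 := abs_lt.1 ha
    have ht3 : arg (exp ((t : ℂ) * I)) = t := by
      rw [arg_exp_mul_I, toIocMod_eq_self]
      constructor
      · linarith [Real.pi_pos]
      · linarith [Real.pi_pos]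
    have h3 : arg ((Y₁ : ℂ) + Z) = arg W + t := by
      rw [he, arg_mul hW0 (exp_ne_zero _), ht3]
      rw [ht3]
      exact ⟨by linarith, by linarith⟩
    rw [h3]
    exact (abs_add_le _ _).trans_lt (by linarith)

/-- AXG-B3a: a translated closed sector inside `Sec δ R`. Proof. `β = π/2 + δ/2 < π`. For
`Z = r e^{iφ}`, `|φ| ≤ β`, and `Y₁ > 0` real, `arg (Y₁ + Z)` lies between `0` and `φ`, and
`‖Y₁ + Z‖ ≥ Y₁ cos (δ/2)` (the distance of `0` to the ray from `Y₁` in the direction `φ`; for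
`|φ| ≤ π/2` even `≥ Y₁`). Take `Y₁ > R / cos (δ/2)`, `Y₁ ≥ 1`. -/
theorem sec_shift {δ R : ℝ} (hδ : 0 < δ) (hδ2 : δ < Real.pi / 2) : ∃ Y₁ : ℝ, 1 ≤ Y₁ ∧
    ∀ Z : ℂ, |arg Z| ≤ Real.pi / 2 + δ / 2 → (Y₁ : ℂ) + Z ∈ Sec δ R := by
  have hpi := Real.pi_pos
  have ht : |δ / 2| < Real.pi / 2 := by
    rw [abs_of_pos (by linarith)]
    linarith
  have hc : 0 < Real.cos (δ / 2) := Real.cos_pos_of_mem_Ioo (abs_lt.1 ht)
  refine ⟨max 1 ((|R| + 1) / Real.cos (δ / 2)), le_max_left _ _, fun Z hZ => ?_⟩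
  set Y₁ : ℝ := max 1 ((|R| + 1) / Real.cos (δ / 2)) with hY₁
  have hY0 : 0 < Y₁ := lt_of_lt_of_le one_pos (le_max_left _ _)
  have hY2 : R < Y₁ * Real.cos (δ / 2) := by
    have h1 : |R| + 1 ≤ Y₁ * Real.cos (δ / 2) := by
      rw [← div_le_iff₀ hc]
      exact le_max_right _ _
    linarith [le_abs_self R]
  have hZ2 := abs_le.1 hZ
  rcases le_total 0 (arg Z) with h | h
  · have h1 : |arg Z - δ / 2| ≤ Real.pi / 2 := by
      rw [abs_le]
      constructor <;> linarith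
    obtain ⟨h2, h3⟩ := b3_aux ht hY0 hY2 h1
    refine ⟨h2, h3.trans ?_⟩
    rw [abs_of_pos (by linarith)]
    linarith
  · have h1 : |arg Z - (-(δ / 2))| ≤ Real.pi / 2 := by
      rw [abs_le]
      constructor <;> linarith
    obtain ⟨h2, h3⟩ := b3_aux (t := -(δ / 2)) (by rwa [abs_neg]) hY0
      (by rwa [Real.cos_neg]) h1
    refine ⟨h2, h3.trans ?_⟩
    rw [abs_neg, abs_of_pos (by linarith)]
    linarith

/-- AXG-B3b: `Sec δ R` is open (`R ≥ 0`, `δ < π/2`: its points are in the slit plane, where `arg` is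
continuous) -/
theorem isOpen_Sec {δ R : ℝ} (hδ2 : δ < Real.pi / 2) (hR : 0 ≤ R) : IsOpen (Sec δ R) := by
  rw [isOpen_iff_mem_nhds]
  rintro Y ⟨h1, h2⟩
  have h3 : Y ∈ slitPlane := by
    rw [mem_slitPlane_iff_arg]
    constructor
    · intro h
      rw [h, abs_of_pos Real.pi_pos] at h2
      linarith
    · rintro rfl
      rw [norm_zero] at h1
      linarith
  have h4 : ∀ᶠ Z in nhds Y, R < ‖Z‖ :=
    continuousAt_const.eventually_lt continuous_norm.continuousAt h1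
  have h5 : ∀ᶠ Z in nhds Y, |arg Z| < Real.pi / 2 + δ :=
    (continuousAt_arg h3).abs.eventually_lt continuousAt_const h2
  filter_upwards [h4, h5] with Z h6 h7
  exact ⟨h6, h7⟩

/-- AXG-B3c: `Sec δ R` is connected (image of a product of intervals under `(r, φ) ↦ r e^{iφ}`) -/
theorem isPreconnected_Sec {δ R : ℝ} (hδ : 0 < δ) (hδ2 : δ < Real.pi / 2) (hR : 0 ≤ R) :
    IsPreconnected (Sec δ R) := by
  have h1 : Sec δ R = (fun x : ℝ × ℝ => (x.1 : ℂ) * exp ((x.2 : ℂ) * I)) ''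
      (Set.Ioi R ×ˢ Set.Ioo (-(Real.pi / 2 + δ)) (Real.pi / 2 + δ)) := by
    ext Y
    constructor
    · rintro ⟨h1, h2⟩
      exact ⟨(‖Y‖, arg Y), ⟨h1, abs_lt.1 h2⟩, norm_mul_exp_arg_mul_I Y⟩
    · rintro ⟨⟨r, φ⟩, ⟨h1, h2⟩, rfl⟩
      have h1' : R < r := h1
      have h2' : -(Real.pi / 2 + δ) < φ ∧ φ < Real.pi / 2 + δ := h2
      have hr : 0 < r := lt_of_le_of_lt hR h1'
      have h3 : arg ((r : ℂ) * exp ((φ : ℂ) * I)) = φ := by
        rw [arg_real_mul _ hr, arg_exp_mul_I, toIocMod_eq_self]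
        constructor
        · linarith [Real.pi_pos, h2'.1]
        · linarith [Real.pi_pos, h2'.2]
      refine ⟨?_, ?_⟩
      · show R < ‖(r : ℂ) * exp ((φ : ℂ) * I)‖
        rw [norm_mul, norm_exp_ofReal_mul_I, mul_one, norm_real, Real.norm_of_nonneg hr.le]
        exact h1'
      · show |arg ((r : ℂ) * exp ((φ : ℂ) * I))| < Real.pi / 2 + δ
        rw [h3]
        exact abs_lt.2 h2'
  rw [h1]
  refine IsPreconnected.image ?_ _ (by fun_prop)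
  exact (isPreconnected_Ioi).prod isPreconnected_Ioo

/-- AXG-B3d: identity theorem: a differentiable function on `Sec δ R` which vanishes on a translated
right half plane `Y₁ + {Re ≥ 0} ⊆ Sec δ R` vanishes on `Sec δ R`
(`AnalyticOnNhd.eqOn_zero_of_preconnected_of_eventuallyEq_zero`, `DifferentiableOn.analyticOnNhd`). -/
theorem sec_identity {δ R Y₁ : ℝ} {f : ℂ → ℂ} (hδ : 0 < δ) (hδ2 : δ < Real.pi / 2) (hR : 0 ≤ R)
    (hf : DifferentiableOn ℂ f (Sec δ R)) (hY : ∀ Z : ℂ, 0 ≤ Z.re → (Y₁ : ℂ) + Z ∈ Sec δ R)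
    (h0 : ∀ Z : ℂ, 0 ≤ Z.re → f ((Y₁ : ℂ) + Z) = 0) : ∀ Y ∈ Sec δ R, f Y = 0 := by
  have ha : AnalyticOnNhd ℂ f (Sec δ R) := hf.analyticOnNhd (isOpen_Sec hδ2 hR)
  have h1 : (Y₁ : ℂ) + 1 ∈ Sec δ R := hY 1 (by simp)
  have h2 : f =ᶠ[nhds ((Y₁ : ℂ) + 1)] 0 := by
    have h3 : ∀ᶠ z in nhds ((Y₁ : ℂ) + 1), 0 < (z - (Y₁ : ℂ)).re := by
      refine ContinuousAt.eventually_lt continuousAt_const (by fun_prop) ?_
      simp
    filter_upwards [h3] with z hz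
    have h4 := h0 (z - Y₁) hz.le
    rw [add_sub_cancel] at h4
    exact h4
  intro Y hYS
  exact ha.eqOn_zero_of_preconnected_of_eventuallyEq_zero (isPreconnected_Sec hδ hδ2 hR) h1 h2 hYS

end Pool.Agent.Helper94.AXG
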