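import Pool.Agent.Helper94.AXG.Defs

/-! # AXG-B3E -/

namespace Pool.Agent.Helper94.AXG

open Complex

/-- the directions in which a nonzero complex number becomes purely imaginary are countably many -/
private theorem dir_countable (z : ℂ) (hz : z ≠ 0) :
    {θ : ℝ | (z * exp (θ * I)).re = 0}.Countable := by
  refine (Set.countable_range (fun k : ℤ => (2 * (k : ℝ) + 1) * Real.pi / 2 - arg z)).mono ?_
  intro θ h
  have h0 : (z * exp (θ * I)).re = 0 := h
  have h1 : z * exp (θ * I) = (‖z‖ : ℂ) * exp (((θ + arg z : ℝ) : ℂ) * I) := by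
    conv_lhs => rw [← Complex.norm_mul_exp_arg_mul_I z]
    rw [mul_assoc, ← Complex.exp_add]
    congr 2
    push_cast
    ring
  rw [h1, Complex.re_ofReal_mul, Complex.exp_ofReal_mul_I_re] at h0
  have h2 : Real.cos (θ + arg z) = 0 := by
    rcases mul_eq_zero.1 h0 with h3 | h3
    · exact absurd (norm_eq_zero.1 h3) hz
    · exact h3
  obtain ⟨k, hk⟩ := Real.cos_eq_zero_iff.1 h2
  exact ⟨k, by simp only; linarith⟩

/-- AXG-B3e: a generic direction has a strictly dominating element. Proof. For `i ≠ j` the function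
`θ ↦ Re ((A_i - A_j) e^{iθ}) = ‖A_i - A_j‖ cos (θ + arg (A_i - A_j))` has finitely many zeros in
`(-b, b)`; choose `θ` outside of these finitely many angles and let `i` be the index with the largest
`Re (A_i e^{iθ})`. -/
theorem exists_dir {ι : Type} [Fintype ι] [Nonempty ι] (A : ι → ℂ) (hA : Function.Injective A)
    {b : ℝ} (hb : 0 < b) : ∃ θ : ℝ, |θ| < b ∧ ∃ i : ι, ∃ c : ℝ, 0 < c ∧ ∀ j : ι, j ≠ i →
      (A j * exp (θ * I)).re + c ≤ (A i * exp (θ * I)).re := by
  classical
  have hbad : (⋃ p : {p : ι × ι // p.1 ≠ p.2},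
      {θ : ℝ | ((A p.1.1 - A p.1.2) * exp (θ * I)).re = 0}).Countable := by
    refine Set.countable_iUnion (fun p => dir_countable _ ?_)
    exact sub_ne_zero.2 (fun h => p.2 (hA h))
  obtain ⟨θ, hθ1, hθ2⟩ := (hbad.dense_compl ℝ).exists_mem_open (isOpen_Ioo (a := -b) (b := b))
    ⟨0, by constructor <;> linarith⟩
  have hinj : ∀ i j : ι, i ≠ j → (A i * exp (θ * I)).re ≠ (A j * exp (θ * I)).re := by
    intro i j hij h
    apply hθ1
    refine Set.mem_iUnion.2 ⟨⟨(i, j), hij⟩, ?_⟩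
    show ((A i - A j) * exp (θ * I)).re = 0
    rw [sub_mul, Complex.sub_re, h, sub_self]
  refine ⟨θ, abs_lt.2 ⟨hθ2.1, hθ2.2⟩, ?_⟩
  obtain ⟨i, hi⟩ := Finite.exists_max (fun i : ι => (A i * exp (θ * I)).re)
  refine ⟨i, ?_⟩
  obtain ⟨j0, hj0⟩ := Finite.exists_min (fun j : ι =>
    if j = i then (1 : ℝ) else (A i * exp (θ * I)).re - (A j * exp (θ * I)).re)
  refine ⟨if j0 = i then (1 : ℝ) else (A i * exp (θ * I)).re - (A j0 * exp (θ * I)).re, ?_, ?_⟩
  · split_ifs with h
    · exact one_pos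
    · exact sub_pos.2 (lt_of_le_of_ne (hi j0) (hinj j0 i h))
  · intro j hj
    have h1 := hj0 j
    simp only [if_neg hj] at h1
    linarith

end Pool.Agent.Helper94.AXG
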