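import Pool.Agent.Helper94.AXG.B2
import Pool.Agent.Helper94.AXG.B3
import Pool.Agent.Helper94.AXG.B3E

/-! # AXG-B5: separation of the exponentials `exp (q Y)` -/

namespace Pool.Agent.Helper94.AXG

open Complex

private theorem B5_step {ι : Type} {δ R : ℝ} (hδ : 0 < δ) (hδ2 : δ < Real.pi / 2)
    (hR : 0 ≤ R) (q : ι → ℂ) (F : ι → ℂ → ℂ)
    (hd : ∀ i, DifferentiableOn ℂ (F i) (Sec δ R)) (hz : ∀ i, ZTy (Sec δ R) (F i))
    (t : Finset ι) {i : ι}
    (hs : ∀ Y ∈ Sec δ R, exp (q i * Y) * F i Y + ∑ j ∈ t, exp (q j * Y) * F j Y = 0)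
    {θ c : ℝ} (hθ : |θ| < Real.pi / 2 + δ / 2) (hc : 0 < c)
    (hdom : ∀ j ∈ t, (q j * exp (θ * I)).re + c ≤ (q i * exp (θ * I)).re) :
    ∀ Y ∈ Sec δ R, F i Y = 0 := by
  obtain ⟨Y₁, hY₁, hsec⟩ := sec_shift (R := R) hδ hδ2
  have hpi := Real.pi_pos
  have hopen := isOpen_Sec (δ := δ) hδ2 hR
  have hnorm : ∀ Z : ℂ, ‖(Y₁ : ℂ) + Z‖ ≤ Y₁ + ‖Z‖ := by
    intro Z
    refine (norm_add_le _ _).trans (le_of_eq ?_)
    rw [Complex.norm_real, Real.norm_of_nonneg (by linarith)]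
  have hz' : ∀ j, ∀ ε : ℝ, 0 < ε → ∃ C : ℝ, 0 ≤ C ∧ ∀ Z : ℂ, |arg Z| ≤ Real.pi / 2 + δ / 2 →
      ‖F j ((Y₁ : ℂ) + Z)‖ ≤ C * Real.exp (ε * ‖Z‖) := by
    intro j ε hε
    obtain ⟨C, hC⟩ := hz j ε hε
    refine ⟨|C| * Real.exp (ε * Y₁), by positivity, fun Z hZ => ?_⟩
    calc ‖F j ((Y₁ : ℂ) + Z)‖ ≤ C * Real.exp (ε * ‖(Y₁ : ℂ) + Z‖) := hC _ (hsec Z hZ)
      _ ≤ |C| * Real.exp (ε * ‖(Y₁ : ℂ) + Z‖) :=
          mul_le_mul_of_nonneg_right (le_abs_self C) (Real.exp_pos _).le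
      _ ≤ |C| * Real.exp (ε * (Y₁ + ‖Z‖)) := by
          refine mul_le_mul_of_nonneg_left (Real.exp_le_exp.2 ?_) (abs_nonneg C)
          exact mul_le_mul_of_nonneg_left (hnorm Z) hε.le
      _ = |C| * Real.exp (ε * Y₁) * Real.exp (ε * ‖Z‖) := by
          rw [mul_assoc, ← Real.exp_add, mul_add]
  choose Cz hCz0 hCz using fun j => hz' j (c / 2) (by linarith)
  have harg : ∀ r : ℝ, 0 ≤ r → |arg (r * exp (θ * I))| ≤ Real.pi / 2 + δ / 2 := by
    intro r hr
    rcases hr.eq_or_lt with h | h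
    · rw [← h, Complex.ofReal_zero, zero_mul, arg_zero, abs_zero]
      linarith
    · have h1 := abs_lt.1 hθ
      rw [Complex.exp_mul_I, Complex.arg_mul_cos_add_sin_mul_I h
        ⟨by linarith [h1.1], by linarith [h1.2]⟩]
      exact hθ.le
  have hnr : ∀ r : ℝ, 0 ≤ r → ‖(r : ℂ) * exp (θ * I)‖ = r := by
    intro r hr
    rw [norm_mul, Complex.norm_exp_ofReal_mul_I, mul_one, Complex.norm_real,
      Real.norm_of_nonneg hr]
  have h0 : ∀ Z : ℂ, 0 ≤ Z.re → F i ((Y₁ : ℂ) + Z) = 0 := by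
    refine pl_zero_type (f := fun Z => F i ((Y₁ : ℂ) + Z)) (β := Real.pi / 2 + δ / 2) (θ := θ)
      (c := c / 2)
      (M := ∑ j ∈ t, Real.exp ((q j - q i).re * Y₁) * Cz j) (by linarith) (by linarith) ?_ ?_ hθ
      (by linarith) ?_
    · intro Z hZ
      have h1 : DifferentiableAt ℂ (F i) ((Y₁ : ℂ) + Z) :=
        (hd i).differentiableAt (hopen.mem_nhds (hsec Z hZ))
      exact h1.comp Z ((differentiableAt_const _).add differentiableAt_id)
    · intro ε hε
      obtain ⟨C, _, hC⟩ := hz' i ε hε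
      exact ⟨C, hC⟩
    · intro r hr
      have hYm := hsec _ (harg r hr)
      have h1 := hs _ hYm
      set Y : ℂ := (Y₁ : ℂ) + r * exp (θ * I) with hY
      have h2 : F i Y = -∑ j ∈ t, exp ((q j - q i) * Y) * F j Y := by
        have h3 : exp (q i * Y) * F i Y = -∑ j ∈ t, exp (q j * Y) * F j Y :=
          eq_neg_of_add_eq_zero_left h1
        have h4 : F i Y = exp (-(q i * Y)) * (exp (q i * Y) * F i Y) := by
          rw [← mul_assoc, ← Complex.exp_add, neg_add_cancel, Complex.exp_zero, one_mul]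
        rw [h4, h3, mul_neg, Finset.mul_sum]
        congr 1
        refine Finset.sum_congr rfl fun j _ => ?_
        rw [← mul_assoc, ← Complex.exp_add]
        congr 2
        ring
      change ‖F i Y‖ ≤ _
      rw [h2, norm_neg, Finset.sum_mul]
      refine (norm_sum_le _ _).trans (Finset.sum_le_sum fun j hj => ?_)
      rw [norm_mul, Complex.norm_exp]
      have h5 : ((q j - q i) * Y).re ≤ (q j - q i).re * Y₁ - c * r := by
        have h6 : ((q j - q i) * Y).re = (q j - q i).re * Y₁ +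
            r * ((q j * exp (θ * I)).re - (q i * exp (θ * I)).re) := by
          rw [hY]
          simp only [Complex.mul_re, Complex.add_re, Complex.sub_re, Complex.ofReal_re,
            Complex.add_im, Complex.mul_im, Complex.ofReal_im, Complex.sub_im]
          ring
        rw [h6]
        have h7 := hdom j hj
        have h8 : r * ((q j * exp (θ * I)).re - (q i * exp (θ * I)).re) ≤ r * (-c) :=
          mul_le_mul_of_nonneg_left (by linarith) hr
        linarith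
      have h9 := hCz j _ (harg r hr)
      rw [hnr r hr] at h9
      calc Real.exp ((q j - q i) * Y).re * ‖F j Y‖
          ≤ Real.exp ((q j - q i).re * Y₁ - c * r) * (Cz j * Real.exp (c / 2 * r)) :=
            mul_le_mul (Real.exp_le_exp.2 h5) h9 (norm_nonneg _) (Real.exp_pos _).le
        _ = Real.exp ((q j - q i).re * Y₁) * Cz j * Real.exp (-(c / 2) * r) := by
            have h10 : (q j - q i).re * Y₁ - c * r =
                (q j - q i).re * Y₁ + (-(c / 2) * r + -(c / 2 * r)) := by ring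
            rw [h10, Real.exp_add, Real.exp_add, Real.exp_neg (c / 2 * r)]
            field_simp
  refine sec_identity hδ hδ2 hR (hd i) (fun Z hZ => hsec Z ?_) h0
  have := Complex.abs_arg_le_pi_div_two_iff.2 hZ
  linarith

private theorem B5_all {ι : Type} {δ R : ℝ} (hδ : 0 < δ) (hδ2 : δ < Real.pi / 2)
    (hR : 0 ≤ R) (q : ι → ℂ) (hq : Function.Injective q) (F : ι → ℂ → ℂ)
    (hd : ∀ i, DifferentiableOn ℂ (F i) (Sec δ R)) (hz : ∀ i, ZTy (Sec δ R) (F i)) (n : ℕ) :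
    ∀ t : Finset ι, t.card = n → (∀ Y ∈ Sec δ R, ∑ j ∈ t, exp (q j * Y) * F j Y = 0) →
      ∀ i ∈ t, ∀ Y ∈ Sec δ R, F i Y = 0 := by
  classical
  induction n with
  | zero =>
    intro t ht _ i hi
    rw [Finset.card_eq_zero.1 ht] at hi
    exact absurd hi (Finset.notMem_empty i)
  | succ n ih =>
    intro t ht hs
    have hne : t.Nonempty := by
      rw [← Finset.card_pos]
      omega
    have : Nonempty t := hne.to_subtype
    obtain ⟨θ, hθ, i, c, hc, hdom⟩ := exists_dir (fun j : t => q j)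
      (fun a b h => Subtype.ext (hq h)) (b := Real.pi / 2 + δ / 2)
      (by have := Real.pi_pos; linarith)
    have hsum : ∀ Y, ∑ j ∈ t, exp (q j * Y) * F j Y =
        exp (q i * Y) * F i Y + ∑ j ∈ t.erase i, exp (q j * Y) * F j Y := fun Y =>
      (Finset.add_sum_erase t (fun j => exp (q j * Y) * F j Y) i.2).symm
    have hi0 : ∀ Y ∈ Sec δ R, F i Y = 0 := by
      refine B5_step hδ hδ2 hR q F hd hz (t.erase i)
        (fun Y hY => ?_) hθ hc (fun j hj => ?_)
      · rw [← hsum, hs Y hY]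
      · have h1 := Finset.mem_erase.1 hj
        exact hdom ⟨j, h1.2⟩ (fun h => h1.1 (congrArg Subtype.val h))
    have hrest := ih (t.erase i) (by rw [Finset.card_erase_of_mem i.2, ht]; rfl)
      (fun Y hY => by
        have h1 := hs Y hY
        rw [hsum, hi0 Y hY, mul_zero, zero_add] at h1
        exact h1)
    intro j hj
    by_cases h : j = i
    · rw [h]
      exact hi0
    · exact hrest j (Finset.mem_erase.2 ⟨h, hj⟩)

/-- AXG-B5. Proof. Induction on `Fintype.card ι` as in B4b. Take `θ`, `i`, `c` from `exists_dir` (for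
`q`, `b = π/2 + δ/2`), `Y₁` from `sec_shift`. On the ray `Y = Y₁ + r e^{iθ}`:
`F_i(Y) = -∑_{j ≠ i} exp ((q_j - q_i) Y) F_j(Y)` is `≤ C e^{-cr} e^{(c/2) r}` because the `F_j` are of
zero type. So `Z ↦ F_i(Y₁ + Z)` decays exponentially on this ray, and it is of zero type;
`pl_zero_type` and `sec_identity` give `F_i = 0`. -/
theorem sep_q {ι : Type} [Fintype ι] {δ R : ℝ} (hδ : 0 < δ) (hδ2 : δ < Real.pi / 2) (hR : 0 ≤ R)
    (q : ι → ℂ) (hq : Function.Injective q) (F : ι → ℂ → ℂ)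
    (hd : ∀ i, DifferentiableOn ℂ (F i) (Sec δ R)) (hz : ∀ i, ZTy (Sec δ R) (F i))
    (hs : ∀ Y ∈ Sec δ R, ∑ i, exp (q i * Y) * F i Y = 0) :
    ∀ i, ∀ Y ∈ Sec δ R, F i Y = 0 := fun i =>
  B5_all hδ hδ2 hR q hq F hd hz _ Finset.univ rfl hs i (Finset.mem_univ i)

end Pool.Agent.Helper94.AXG
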