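import Pool.Agent.Helper94.AXG.B4
import Pool.Agent.Helper94.AXG.B5

/-! # AXG-B6: the separation lemma -/

namespace Pool.Agent.Helper94.AXG

open Complex

private theorem b6_group {ι : Type} [Fintype ι] [DecidableEq ℂ] (A : ι → ℂ) (f : ι → ℂ)
    (g : ℂ → ℂ) :
    ∑ x : {x : ℂ // x ∈ Finset.univ.image A}, g x * ∑ i, (if A i = (x : ℂ) then f i else 0) =
      ∑ i, g (A i) * f i := by
  simp_rw [Finset.mul_sum]
  rw [Finset.sum_comm]
  refine Finset.sum_congr rfl fun i _ => ?_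
  have hi : A i ∈ Finset.univ.image A := Finset.mem_image_of_mem A (Finset.mem_univ i)
  rw [Finset.sum_eq_single (⟨A i, hi⟩ : {x : ℂ // x ∈ Finset.univ.image A})]
  · rw [if_pos rfl]
  · intro x _ hx
    rw [if_neg, mul_zero]
    intro h1
    exact hx (Subtype.ext h1.symm)
  · intro h1
    exact absurd (Finset.mem_univ _) h1

private theorem b6_diff {ι : Type} [Fintype ι] {S : Set ℂ} (P : ι → Prop) [DecidablePred P]
    (F : ι → ℂ → ℂ) (hd : ∀ i, DifferentiableOn ℂ (F i) S) :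
    DifferentiableOn ℂ (fun Y => ∑ i, (if P i then F i Y else 0)) S := by
  refine DifferentiableOn.fun_sum fun i _ => ?_
  by_cases h : P i
  · simp only [h, if_true]
    exact hd i
  · simp only [h, if_false]
    exact differentiableOn_const 0

private theorem b6_le {ι : Type} [Fintype ι] {S : Set ℂ} (P : ι → Prop) [DecidablePred P]
    (F : ι → ℂ → ℂ) (C : ι → ℝ) (e : ℂ → ℝ) (he : ∀ Y, 0 ≤ e Y)
    (hC : ∀ i, ∀ Y ∈ S, ‖F i Y‖ ≤ C i * e Y) :
    ∀ Y ∈ S, ‖∑ i, (if P i then F i Y else 0)‖ ≤ (∑ i, |C i|) * e Y := by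
  intro Y hY
  rw [Finset.sum_mul]
  refine norm_sum_le_of_le _ fun i _ => ?_
  have h1 : 0 ≤ |C i| * e Y := mul_nonneg (abs_nonneg _) (he Y)
  by_cases h : P i
  · rw [if_pos h]
    exact (hC i Y hY).trans (mul_le_mul_of_nonneg_right (le_abs_self _) (he Y))
  · rw [if_neg h, norm_zero]
    exact h1

private theorem b6_ztype {ι : Type} [Fintype ι] {S : Set ℂ} (P : ι → Prop) [DecidablePred P]
    (F : ι → ℂ → ℂ) (hz : ∀ i, ZTy S (F i)) :
    ZTy S (fun Y => ∑ i, (if P i then F i Y else 0)) := by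
  intro ε hε
  choose C hC using fun i => hz i ε hε
  exact ⟨∑ i, |C i|, b6_le P F C (fun Y => Real.exp (ε * ‖Y‖)) (fun Y => (Real.exp_pos _).le) hC⟩

private theorem b6_etype {ι : Type} [Fintype ι] {S : Set ℂ} (P : ι → Prop) [DecidablePred P]
    (q : ι → ℂ) (F : ι → ℂ → ℂ) (hz : ∀ i, ZTy S (F i)) :
    ∃ C : ℝ, ∀ Y ∈ S, ‖∑ i, (if P i then exp (q i * Y) * F i Y else 0)‖ ≤
      Real.exp (C * (1 + ‖Y‖)) := by
  choose C hC using fun i => hz i 1 one_pos
  have hQ : ∀ i, ‖q i‖ ≤ ∑ j, ‖q j‖ := fun i =>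
    Finset.single_le_sum (f := fun j => ‖q j‖) (fun j _ => norm_nonneg _) (Finset.mem_univ i)
  have h1 := b6_le (S := S) P (fun i Y => exp (q i * Y) * F i Y) (fun i => |C i|)
    (fun Y => Real.exp ((∑ j, ‖q j‖ + 1) * ‖Y‖)) (fun Y => (Real.exp_pos _).le) (by
      intro i Y hY
      have h2 := hC i Y hY
      have h3 : ‖exp (q i * Y)‖ ≤ Real.exp ((∑ j, ‖q j‖) * ‖Y‖) := by
        rw [Complex.norm_exp]
        refine Real.exp_le_exp.2 ?_
        calc (q i * Y).re ≤ ‖q i * Y‖ := Complex.re_le_norm _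
          _ = ‖q i‖ * ‖Y‖ := norm_mul _ _
          _ ≤ (∑ j, ‖q j‖) * ‖Y‖ := mul_le_mul_of_nonneg_right (hQ i) (norm_nonneg _)
      have h4 : ‖F i Y‖ ≤ |C i| * Real.exp (1 * ‖Y‖) :=
        h2.trans (mul_le_mul_of_nonneg_right (le_abs_self _) (Real.exp_pos _).le)
      calc ‖exp (q i * Y) * F i Y‖ = ‖exp (q i * Y)‖ * ‖F i Y‖ := norm_mul _ _
        _ ≤ Real.exp ((∑ j, ‖q j‖) * ‖Y‖) * (|C i| * Real.exp (1 * ‖Y‖)) :=
          mul_le_mul h3 h4 (norm_nonneg _) (Real.exp_pos _).le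
        _ = |C i| * Real.exp ((∑ j, ‖q j‖ + 1) * ‖Y‖) := by
          rw [add_mul, Real.exp_add]
          ring)
  have hS : 0 ≤ ∑ i, |(|C i|)| := Finset.sum_nonneg fun i _ => abs_nonneg _
  have hQ0 : 0 ≤ ∑ j, ‖q j‖ := Finset.sum_nonneg fun j _ => norm_nonneg _
  refine ⟨(∑ i, |(|C i|)|) + (∑ j, ‖q j‖ + 1), fun Y hY => (h1 Y hY).trans ?_⟩
  have h5 : ∑ i, |(|C i|)| ≤ Real.exp (∑ i, |(|C i|)|) :=
    (by linarith : ∑ i, |(|C i|)| ≤ ∑ i, |(|C i|)| + 1).trans (Real.add_one_le_exp _)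
  calc (∑ i, |(|C i|)|) * Real.exp ((∑ j, ‖q j‖ + 1) * ‖Y‖)
      ≤ Real.exp (∑ i, |(|C i|)|) * Real.exp ((∑ j, ‖q j‖ + 1) * ‖Y‖) :=
        mul_le_mul_of_nonneg_right h5 (Real.exp_pos _).le
    _ = Real.exp (∑ i, |(|C i|)| + (∑ j, ‖q j‖ + 1) * ‖Y‖) := (Real.exp_add _ _).symm
    _ ≤ _ := by
      refine Real.exp_le_exp.2 ?_
      have h6 := mul_nonneg hS (norm_nonneg Y)
      nlinarith [norm_nonneg Y]

/-- AXG-B6. Proof. Group the sum by the values of `A` (index type: the subtype of the `Finset` image of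
`A`): `G_a(Y) = ∑_{i : A i = a} exp (q_i Y) F_i(Y)` is differentiable and of exponential type
(`ZTy` with `ε = 1`); `sep_A` gives `G_a = 0`. Then group `G_a` by the values of `q`: the functions
`∑_{i : A i = a, q i = b} F_i` are of zero type, `sep_q`. If `(a, b)` is not a value of `(A, q)` the sum
is empty. -/
theorem sep {ι : Type} [Fintype ι] {δ R : ℝ} (hδ : 0 < δ) (hδ2 : δ < Real.pi / 2) (hR : 0 ≤ R)
    (A q : ι → ℂ) (F : ι → ℂ → ℂ)
    (hd : ∀ i, DifferentiableOn ℂ (F i) (Sec δ R)) (hz : ∀ i, ZTy (Sec δ R) (F i))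
    (hs : ∀ Y ∈ Sec δ R, ∑ i, exp (A i * (Y * log Y) + q i * Y) * F i Y = 0) (a b : ℂ) :
    ∀ Y ∈ Sec δ R, ∑ i, (if A i = a ∧ q i = b then F i Y else 0) = 0 := by
  intro Y hY
  have hG : ∀ Y ∈ Sec δ R, ∑ i, (if A i = a then exp (q i * Y) * F i Y else 0) = 0 := by
    by_cases ha : a ∈ Finset.univ.image A
    · intro Y hY
      refine sep_A hδ hδ2 hR (fun x : {x : ℂ // x ∈ Finset.univ.image A} => (x : ℂ))
        Subtype.val_injective
        (fun x Y => ∑ i, (if A i = (x : ℂ) then exp (q i * Y) * F i Y else 0)) ?_ ?_ ?_ ⟨a, ha⟩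
        Y hY
      · intro x
        refine b6_diff (fun i => A i = (x : ℂ)) (fun i Y => exp (q i * Y) * F i Y) fun i => ?_
        refine DifferentiableOn.mul ?_ (hd i)
        exact (Differentiable.cexp (differentiable_id.const_mul (q i))).differentiableOn
      · intro x
        exact b6_etype (fun i => A i = (x : ℂ)) q F hz
      · intro Y hY
        rw [b6_group A (fun i => exp (q i * Y) * F i Y) (fun z => exp (z * (Y * log Y)))]
        refine Eq.trans ?_ (hs Y hY)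
        refine Finset.sum_congr rfl fun i _ => ?_
        rw [← mul_assoc, ← Complex.exp_add]
    · intro Y _
      refine Finset.sum_eq_zero fun i _ => if_neg fun h1 => ha ?_
      rw [← h1]
      exact Finset.mem_image_of_mem A (Finset.mem_univ i)
  by_cases hb : b ∈ Finset.univ.image q
  · refine sep_q hδ hδ2 hR (fun x : {x : ℂ // x ∈ Finset.univ.image q} => (x : ℂ))
      Subtype.val_injective
      (fun x Y => ∑ i, (if A i = a ∧ q i = (x : ℂ) then F i Y else 0)) ?_ ?_ ?_ ⟨b, hb⟩ Y hY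
    · intro x
      exact b6_diff (fun i => A i = a ∧ q i = (x : ℂ)) F hd
    · intro x
      exact b6_ztype (fun i => A i = a ∧ q i = (x : ℂ)) F hz
    · intro Y hY
      have h1 := b6_group q (fun i => if A i = a then F i Y else 0) (fun z => exp (z * Y))
      have h2 : ∑ i, exp (q i * Y) * (if A i = a then F i Y else 0) = 0 := by
        refine Eq.trans ?_ (hG Y hY)
        refine Finset.sum_congr rfl fun i _ => ?_
        by_cases h : A i = a
        · rw [if_pos h, if_pos h]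
        · rw [if_neg h, if_neg h, mul_zero]
      rw [h2] at h1
      refine Eq.trans ?_ h1
      refine Finset.sum_congr rfl fun x _ => ?_
      congr 1
      refine Finset.sum_congr rfl fun i _ => ?_
      by_cases h3 : A i = a <;> by_cases h4 : q i = (x : ℂ) <;> simp [h3, h4]
  · refine Finset.sum_eq_zero fun i _ => if_neg fun h1 => hb ?_
    rw [← h1.2]
    exact Finset.mem_image_of_mem q (Finset.mem_univ i)

end Pool.Agent.Helper94.AXG
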