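import Pool.Agent.Helper94.AXG.Defs

/-! # AXG-C1 -/

namespace Pool.Agent.Helper94.AXG

open Complex Filter Topology

/-- AXG-C1 (all parts are routine; `K` arbitrary). `An` depends only on the values on a small punctured
disc: if `f = g` eventually then eventually `f = g` in a neighbourhood of `s`
(`eventually_eventually_nhdsWithin`). -/
theorem An_congr {f g : ℂ → ℂ} (hg : An g) (h : ∀ᶠ s in 𝓝[≠] (0 : ℂ), f s = g s) : An f := by
  unfold An at *
  have h1 := eventually_eventually_nhdsWithin.2 h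
  filter_upwards [hg, h1, self_mem_nhdsWithin] with s hs hs' hne
  rw [IsOpen.nhdsWithin_eq isOpen_compl_singleton hne] at hs'
  exact hs.congr (hs'.mono fun x hx => hx.symm)

theorem An_add {f g : ℂ → ℂ} (hf : An f) (hg : An g) : An (fun s => f s + g s) := by
  unfold An at *
  filter_upwards [hf, hg] with s h1 h2
  exact h1.fun_add h2

theorem An_mul {f g : ℂ → ℂ} (hf : An f) (hg : An g) : An (fun s => f s * g s) := by
  unfold An at *
  filter_upwards [hf, hg] with s h1 h2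
  exact h1.fun_mul h2

theorem Zt_congr {K : ℕ} {f g : ℂ → ℂ} (hg : Zt K g) (h : ∀ᶠ s in 𝓝[≠] (0 : ℂ), f s = g s) :
    Zt K f := by
  refine ⟨An_congr hg.1 h, fun ε hε => ?_⟩
  filter_upwards [h, hg.2 ε hε] with s h1 h2
  rw [h1]
  exact h2

private theorem C1_big {K : ℕ} (hK : 1 ≤ K) (C : ℝ) {ε : ℝ} (hε : 0 < ε) :
    ∀ᶠ s in 𝓝[≠] (0 : ℂ), C ≤ Real.exp (ε / ‖s‖ ^ K) := by
  have h0 : Tendsto (fun s : ℂ => ‖s‖) (𝓝[≠] 0) (𝓝 0) :=
    tendsto_norm_zero.mono_left nhdsWithin_le_nhds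
  have hC : 0 < ε / (|C| + 1) := by positivity
  have h1 := h0.eventually (gt_mem_nhds (lt_min one_pos hC))
  filter_upwards [h1, self_mem_nhdsWithin] with s hs hne
  have hs0 : 0 < ‖s‖ := norm_pos_iff.2 hne
  have hs1 : ‖s‖ < 1 := hs.trans_le (min_le_left _ _)
  have hs2 : ‖s‖ < ε / (|C| + 1) := hs.trans_le (min_le_right _ _)
  have hs3 : ‖s‖ ^ K ≤ ‖s‖ := by
    have h2 := pow_le_pow_of_le_one hs0.le hs1.le hK
    rwa [pow_one] at h2
  have hs4 : 0 < ‖s‖ ^ K := pow_pos hs0 K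
  have h3 : |C| ≤ ε / ‖s‖ ^ K := by
    rw [le_div_iff₀ hs4]
    rw [lt_div_iff₀ (by positivity)] at hs2
    nlinarith [abs_nonneg C]
  have h4 := Real.add_one_le_exp (ε / ‖s‖ ^ K)
  linarith [le_abs_self C]

/-- `‖c‖ ≤ exp (ε / ‖s‖^K)` for small `s`; this needs `K ≥ 1` -/
theorem Zt_const {K : ℕ} (hK : 1 ≤ K) (c : ℂ) : Zt K (fun _ => c) := by
  refine ⟨?_, fun ε hε => C1_big hK ‖c‖ hε⟩
  unfold An
  exact Eventually.of_forall fun s => analyticAt_const

/-- use `ε/2` and `2 ≤ exp (ε / 2 / ‖s‖^K)` for small `s` -/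
theorem Zt_add {K : ℕ} (hK : 1 ≤ K) {f g : ℂ → ℂ} (hf : Zt K f) (hg : Zt K g) :
    Zt K (fun s => f s + g s) := by
  refine ⟨An_add hf.1 hg.1, fun ε hε => ?_⟩
  filter_upwards [hf.2 (ε / 2) (by positivity), hg.2 (ε / 2) (by positivity),
    C1_big hK 2 (show 0 < ε / 2 by positivity)] with s h1 h2 h3
  have h4 : Real.exp (ε / ‖s‖ ^ K) =
      Real.exp (ε / 2 / ‖s‖ ^ K) * Real.exp (ε / 2 / ‖s‖ ^ K) := by
    rw [← Real.exp_add]
    congr 1
    ring
  rw [h4]
  have h5 := norm_add_le (f s) (g s)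
  nlinarith [Real.exp_pos (ε / 2 / ‖s‖ ^ K)]

theorem Zt_mul {K : ℕ} {f g : ℂ → ℂ} (hf : Zt K f) (hg : Zt K g) : Zt K (fun s => f s * g s) := by
  refine ⟨An_mul hf.1 hg.1, fun ε hε => ?_⟩
  filter_upwards [hf.2 (ε / 2) (by positivity), hg.2 (ε / 2) (by positivity)] with s h1 h2
  have h4 : Real.exp (ε / ‖s‖ ^ K) =
      Real.exp (ε / 2 / ‖s‖ ^ K) * Real.exp (ε / 2 / ‖s‖ ^ K) := by
    rw [← Real.exp_add]
    congr 1
    ring
  rw [h4, norm_mul]
  exact mul_le_mul h1 h2 (norm_nonneg _) (Real.exp_pos _).le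

theorem Zt_sum {K : ℕ} (hK : 1 ≤ K) {ι : Type} (s : Finset ι) {f : ι → ℂ → ℂ}
    (hf : ∀ i ∈ s, Zt K (f i)) : Zt K (fun z => ∑ i ∈ s, f i z) := by
  classical
  induction s using Finset.induction_on with
  | empty =>
    simp only [Finset.sum_empty]
    exact Zt_const hK 0
  | insert i s hi ih =>
    simp only [Finset.sum_insert hi]
    exact Zt_add hK (hf i (Finset.mem_insert_self _ _))
      (ih fun j hj => hf j (Finset.mem_insert_of_mem hj))

theorem Zt_prod {K : ℕ} (hK : 1 ≤ K) {ι : Type} (s : Finset ι) {f : ι → ℂ → ℂ}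
    (hf : ∀ i ∈ s, Zt K (f i)) : Zt K (fun z => ∏ i ∈ s, f i z) := by
  classical
  induction s using Finset.induction_on with
  | empty =>
    simp only [Finset.prod_empty]
    exact Zt_const hK 1
  | insert i s hi ih =>
    simp only [Finset.prod_insert hi]
    exact Zt_mul (hf i (Finset.mem_insert_self _ _))
      (ih fun j hj => hf j (Finset.mem_insert_of_mem hj))

theorem Zt_pow {K : ℕ} (hK : 1 ≤ K) {f : ℂ → ℂ} (hf : Zt K f) (n : ℕ) :
    Zt K (fun z => f z ^ n) := by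
  induction n with
  | zero =>
    simp only [pow_zero]
    exact Zt_const hK 1
  | succ n ih =>
    simp only [pow_succ]
    exact Zt_mul ih hf

end Pool.Agent.Helper94.AXG
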