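import Pool.Agent.Helper94.AXG.Defs
import Pool.Agent.Helper94.AXG.C1

/-! # AXG-C1D -/

namespace Pool.Agent.Helper94.AXG

open Complex Filter Topology

/-- a punctured disc -/
private def pdisc (r : ℝ) : Set ℂ := {s : ℂ | s ≠ 0 ∧ ‖s‖ < r}

private theorem pdisc_pre {r : ℝ} (hr : 0 < r) : IsPreconnected (pdisc r) := by
  have h1 : pdisc r = exp '' {w : ℂ | w.re < Real.log r} := by
    ext s
    constructor
    · rintro ⟨h2, h3⟩
      refine ⟨log s, ?_, exp_log h2⟩
      show (log s).re < Real.log r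
      rw [log_re]
      exact Real.log_lt_log (norm_pos_iff.2 h2) h3
    · rintro ⟨w, hw, rfl⟩
      refine ⟨exp_ne_zero w, ?_⟩
      rw [norm_exp]
      have h4 : w.re < Real.log r := hw
      calc Real.exp w.re < Real.exp (Real.log r) := Real.exp_lt_exp.2 h4
        _ = r := Real.exp_log hr
  rw [h1]
  have h5 : Convex ℝ {w : ℂ | w.re < Real.log r} := convex_halfSpace_re_lt _
  exact h5.isPreconnected.image _ continuous_exp.continuousOn

/-- `An` is a domain. Proof. Choose `r` such that `f`, `g` are analytic and `f g = 0` on the punctured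
disc `0 < ‖s‖ < r`, which is connected. If `f` is not identically zero near `0` there is a point `s₀` of
the disc with `f s₀ ≠ 0`; then `g = 0` near `s₀`, and the identity theorem
(`AnalyticOnNhd.eqOn_zero_of_preconnected_of_eventuallyEq_zero`) gives `g = 0` on the punctured disc. -/
theorem An_mul_zero {f g : ℂ → ℂ} (hf : An f) (hg : An g) (h : Ze (fun s => f s * g s)) :
    Ze f ∨ Ze g := by
  have h1 := (hf.and (hg.and h))
  rw [eventually_nhdsWithin_iff, Metric.eventually_nhds_iff] at h1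
  obtain ⟨r, hr, h2⟩ := h1
  have h3 : ∀ s ∈ pdisc r, AnalyticAt ℂ f s ∧ AnalyticAt ℂ g s ∧ f s * g s = 0 := by
    intro s hs
    have h4 : dist s 0 < r := by
      rw [dist_zero_right]
      exact hs.2
    have h5 : s ≠ 0 := hs.1
    exact h2 h4 h5
  have h6 : ∀ F : ℂ → ℂ, (∀ s ∈ pdisc r, F s = 0) → Ze F := by
    intro F hF
    show ∀ᶠ s in 𝓝[≠] (0 : ℂ), F s = 0
    rw [eventually_nhdsWithin_iff, Metric.eventually_nhds_iff]
    refine ⟨r, hr, fun s hs hs0 => hF s ⟨hs0, ?_⟩⟩
    rwa [dist_zero_right] at hs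
  rcases AnalyticOnNhd.eq_zero_or_eq_zero_of_mul_eq_zero (U := pdisc r) (f := f) (g := g)
    (fun s hs => (h3 s hs).1) (fun s hs => (h3 s hs).2.1) (fun s hs => (h3 s hs).2.2)
    (pdisc_pre hr) with h7 | h7
  · exact Or.inl (h6 f h7)
  · exact Or.inr (h6 g h7)

/-- product version of `An_mul_zero` -/
theorem An_prod_zero {ι : Type} (s : Finset ι) {f : ι → ℂ → ℂ} (hf : ∀ i ∈ s, An (f i))
    (h : Ze (fun z => ∏ i ∈ s, f i z)) : ∃ i ∈ s, Ze (f i) := by
  classical
  induction s using Finset.induction_on with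
  | empty =>
    exfalso
    have h1 : ∀ᶠ z in 𝓝[≠] (0 : ℂ), ∏ i ∈ (∅ : Finset ι), f i z = 0 := h
    obtain ⟨z, hz⟩ := h1.exists
    rw [Finset.prod_empty] at hz
    exact one_ne_zero hz
  | insert a t hat ih =>
    have hp : An (fun z => ∏ i ∈ t, f i z) := by
      have h1 : ∀ᶠ z in 𝓝[≠] (0 : ℂ), ∀ i ∈ t, AnalyticAt ℂ (f i) z := by
        rw [Filter.eventually_all_finset]
        exact fun i hi => hf i (Finset.mem_insert_of_mem hi)
      have h2 : ∀ᶠ z in 𝓝[≠] (0 : ℂ), AnalyticAt ℂ (fun z => ∏ i ∈ t, f i z) z := by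
        filter_upwards [h1] with z hz
        exact Finset.analyticAt_fun_prod t hz
      exact h2
    have h3 : Ze (fun z => f a z * ∏ i ∈ t, f i z) := by
      have h4 : ∀ᶠ z in 𝓝[≠] (0 : ℂ), ∏ i ∈ insert a t, f i z = 0 := h
      have h5 : ∀ᶠ z in 𝓝[≠] (0 : ℂ), f a z * ∏ i ∈ t, f i z = 0 := by
        filter_upwards [h4] with z hz
        rwa [Finset.prod_insert hat] at hz
      exact h5
    rcases An_mul_zero (hf a (Finset.mem_insert_self a t)) hp h3 with h6 | h6
    · exact ⟨a, Finset.mem_insert_self a t, h6⟩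
    · obtain ⟨i, hi, h7⟩ := ih (fun i hi => hf i (Finset.mem_insert_of_mem hi)) h6
      exact ⟨i, Finset.mem_insert_of_mem hi, h7⟩

end Pool.Agent.Helper94.AXG
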