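import Pool.Agent.Helper94.AXG.C3

/-! # AXG-C3B -/

namespace Pool.Agent.Helper94.AXG

open Complex Filter Topology

private lemma c3b_tends {K : ℕ} (hK : 1 ≤ K) {ξ h : ℂ → ℂ} (hξ : Pl K ξ h) :
    Tendsto (fun s => ‖ξ s‖) (𝓝[≠] (0 : ℂ)) atTop := by
  obtain ⟨h1, h2, h3⟩ := hξ
  have e1 : Tendsto (fun s : ℂ => ‖h s‖) (𝓝[≠] (0 : ℂ)) (𝓝 ‖h 0‖) :=
    (h1.continuousAt.norm).tendsto.mono_left nhdsWithin_le_nhds
  have e2 : Tendsto (fun s : ℂ => ‖s‖ ^ K) (𝓝[≠] (0 : ℂ)) (𝓝[>] (0 : ℝ)) := by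
    rw [tendsto_nhdsWithin_iff]
    refine ⟨?_, ?_⟩
    · have e3 : Tendsto (fun s : ℂ => ‖s‖ ^ K) (𝓝 (0 : ℂ)) (𝓝 (‖(0 : ℂ)‖ ^ K)) :=
        (continuous_norm.pow K).tendsto 0
      rw [norm_zero, zero_pow (by omega)] at e3
      exact e3.mono_left nhdsWithin_le_nhds
    · filter_upwards [self_mem_nhdsWithin] with s hs
      exact pow_pos (norm_pos_iff.mpr hs) K
  have e4 : Tendsto (fun s : ℂ => (‖s‖ ^ K)⁻¹) (𝓝[≠] (0 : ℂ)) atTop :=
    tendsto_inv_nhdsGT_zero.comp e2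
  have e5 := e1.pos_mul_atTop (norm_pos_iff.mpr h2) e4
  refine e5.congr' ?_
  filter_upwards [h3] with s hs
  rw [hs, norm_div, norm_pow, div_eq_mul_inv]

private lemma c3b_aux {K : ℕ} (hK : 1 ≤ K) {ξ h : ℂ → ℂ} (hξ : Pl K ξ h) {c : ℂ} (hc : c ≠ 0)
    (hn : ∀ᶠ s in 𝓝[≠] (0 : ℂ), ∃ n : ℤ, c * ξ s = n) : False := by
  have h1 : ∀ᶠ s in 𝓝[≠] (0 : ℂ), ContinuousAt ξ s ∧ ∃ n : ℤ, c * ξ s = n := by
    filter_upwards [Pl_An hξ, hn] with s h2 h3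
    exact ⟨h2.continuousAt, h3⟩
  rw [eventually_nhdsWithin_iff, Metric.eventually_nhds_iff] at h1
  obtain ⟨r, hr, H⟩ := h1
  have H' : ∀ t : ℝ, 0 < t → t < r → ContinuousAt ξ (t : ℂ) ∧ ∃ n : ℤ, c * ξ (t : ℂ) = n := by
    intro t ht htr
    refine H ?_ ?_
    · rw [dist_zero_right, norm_real, Real.norm_eq_abs, abs_of_pos ht]
      exact htr
    · change (t : ℂ) ≠ 0
      exact_mod_cast ht.ne'
  -- the norm of an integer
  have hI : ∀ n : ℤ, ‖(n : ℂ)‖ = ((n.natAbs : ℕ) : ℝ) := by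
    intro n
    rw [Complex.norm_intCast, Nat.cast_natAbs, Int.cast_abs]
  obtain ⟨n0, hn0⟩ := (H' (r / 2) (by linarith) (by linarith)).2
  have hF0 : ‖c * ξ ((r / 2 : ℝ) : ℂ)‖ = ((n0.natAbs : ℕ) : ℝ) := by rw [hn0, hI]
  -- a point with a large value
  have h4 : Tendsto (fun s => ‖c * ξ s‖) (𝓝[≠] (0 : ℂ)) atTop := by
    have := (c3b_tends hK hξ).const_mul_atTop (norm_pos_iff.mpr hc)
    refine this.congr fun s => ?_
    rw [norm_mul]
  have h5 := h4.eventually_ge_atTop (((n0.natAbs : ℕ) : ℝ) + 1)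
  rw [eventually_nhdsWithin_iff, Metric.eventually_nhds_iff] at h5
  obtain ⟨r', hr', H5⟩ := h5
  obtain ⟨t, ht0, htr, htr'⟩ : ∃ t : ℝ, 0 < t ∧ t < r / 2 ∧ t < r' :=
    ⟨min (r / 2) r' / 2, by positivity, by
      have := min_le_left (r / 2) r'
      have h6 : 0 < min (r / 2) r' := by positivity
      linarith, by
      have := min_le_right (r / 2) r'
      have h6 : 0 < min (r / 2) r' := by positivity
      linarith⟩
  have hF1 : ((n0.natAbs : ℕ) : ℝ) + 1 ≤ ‖c * ξ (t : ℂ)‖ := by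
    refine H5 ?_ ?_
    · rw [dist_zero_right, norm_real, Real.norm_eq_abs, abs_of_pos ht0]
      exact htr'
    · change (t : ℂ) ≠ 0
      exact_mod_cast ht0.ne'
  have hcont : ContinuousOn (fun x : ℝ => ‖c * ξ (x : ℂ)‖) (Set.Icc t (r / 2)) := by
    intro x hx
    have h7 := (H' x (by linarith [hx.1]) (by linarith [hx.2])).1
    have h8 : ContinuousAt (fun x : ℝ => ξ (x : ℂ)) x :=
      ContinuousAt.comp (f := fun x : ℝ => (x : ℂ)) h7 continuous_ofReal.continuousAt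
    exact (continuousAt_const.mul h8).norm.continuousWithinAt
  have h9 := intermediate_value_Icc' htr.le hcont
  obtain ⟨x, hx, hx2⟩ := h9 (show ((n0.natAbs : ℕ) : ℝ) + 1 / 2 ∈
    Set.Icc ‖c * ξ ((r / 2 : ℝ) : ℂ)‖ ‖c * ξ (t : ℂ)‖ from
    ⟨by rw [hF0]; linarith, by linarith⟩)
  obtain ⟨m, hm⟩ := (H' x (by linarith [hx.1]) (by linarith [hx.2])).2
  have h10 : ‖c * ξ (x : ℂ)‖ = ((n0.natAbs : ℕ) : ℝ) + 1 / 2 := hx2
  rw [hm, hI] at h10
  have h11 : (2 * (m.natAbs : ℕ) : ℝ) = ((2 * n0.natAbs + 1 : ℕ) : ℝ) := by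
    push_cast
    linarith
  have h12 : 2 * m.natAbs = 2 * n0.natAbs + 1 := by exact_mod_cast h11
  omega

/-- AXG-C3e. Proof. If `U(ξ s) = 0` for all small `s ≠ 0` then `ξ s ∈ {0, -1, -2, …}` there, so `ξ` is
constant on the (connected) punctured disc, but `‖ξ s‖ → ∞` (as `K ≥ 1`). -/
theorem not_Ze_U {K : ℕ} (hK : 1 ≤ K) {ξ h : ℂ → ℂ} (hξ : Pl K ξ h) :
    ¬ Ze (fun s => U (ξ s)) := by
  intro hz
  refine c3b_aux hK hξ (c := 1) one_ne_zero ?_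
  filter_upwards [hz] with s hs
  unfold U at hs
  rw [inv_eq_zero, Complex.Gamma_eq_zero_iff] at hs
  obtain ⟨m, hm⟩ := hs
  exact ⟨-(m : ℤ), by rw [hm, one_mul]; push_cast; rfl⟩

/-- AXG-C3f: `1 - e^{2πiσξ}` (`σ ≠ 0` an integer) is an exponential sum which does not vanish
identically (if `e^{2πiσξ} = 1` near `0` then `σξ` is an integer everywhere on the punctured disc, hence
constant, but it tends to infinity) -/
theorem Ex_one_sub {K : ℕ} (hK : 1 ≤ K) {ξ h : ℂ → ℂ} (hξ : Pl K ξ h) {σ : ℤ} (hσ : σ ≠ 0) :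
    Ex K (fun s => 1 - exp (2 * Real.pi * I * σ * ξ s)) ∧
      ¬ Ze (fun s => 1 - exp (2 * Real.pi * I * σ * ξ s)) := by
  constructor
  · obtain ⟨ζ, h1, -, h3⟩ := exp_pole hξ (2 * Real.pi * I * σ)
    refine Ex_sub hK (Ex_of_Zt (Zt_const hK 1)) ?_
    refine ⟨1, fun _ => ζ, fun _ => 2 * Real.pi * I * σ * h 0, fun _ => h1, ?_⟩
    filter_upwards [h3] with s hs
    rw [hs, Finset.sum_const, Finset.card_univ, Fintype.card_fin, one_smul]
  · intro hz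
    have hσ' : (σ : ℂ) ≠ 0 := by exact_mod_cast hσ
    refine c3b_aux hK hξ (c := σ) hσ' ?_
    filter_upwards [hz] with s hs
    have h4 : exp (2 * Real.pi * I * σ * ξ s) = 1 := (sub_eq_zero.mp hs).symm
    rw [Complex.exp_eq_one_iff] at h4
    obtain ⟨n, hn⟩ := h4
    refine ⟨n, ?_⟩
    have h5 : (2 * Real.pi * I : ℂ) ≠ 0 := Complex.two_pi_I_ne_zero
    apply mul_left_cancel₀ h5
    linear_combination hn

end Pool.Agent.Helper94.AXG
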