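import Pool.Agent.Helper94.AXG.C6
import Pool.Agent.Helper94.AXG.C1D
import Pool.Agent.Helper94.AXG.C3B
import Pool.Agent.Helper94.AXG.B6

/-! # AXG-C6B -/

namespace Pool.Agent.Helper94.AXG

open Complex Filter Topology

private theorem nr_uu {K : ℕ} (hK : 1 ≤ K) {ξ h : ℂ → ℂ} (hξ : Pl K ξ h) (θ : ℝ) :
    Ex K (fun s => uu (h 0) θ (ξ s)) ∧ ¬ Ze (fun s => uu (h 0) θ (ξ s)) := by
  by_cases h1 : 0 < (h 0 * exp (θ * I)).re
  · have e : (fun s => uu (h 0) θ (ξ s)) = fun _ => (1 : ℂ) := by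
      funext s
      unfold uu
      rw [if_pos h1]
    rw [e]
    refine ⟨Ex_of_Zt (Zt_const hK 1), fun hz => ?_⟩
    obtain ⟨s, hs⟩ := hz.exists
    exact one_ne_zero hs
  · have e : (fun s => uu (h 0) θ (ξ s)) =
        fun s => 1 - exp (2 * Real.pi * I * ((1 : ℤ) : ℂ) * ξ s) := by
      funext s
      unfold uu
      rw [if_neg h1, Int.cast_one, mul_one]
    rw [e]
    exact Ex_one_sub hK hξ one_ne_zero

private theorem nr_An_prod {ι : Type} [Fintype ι] {f : ι → ℂ → ℂ} (hf : ∀ i, An (f i)) :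
    An (fun s => ∏ i, f i s) := by
  have h : ∀ᶠ s in 𝓝[≠] (0 : ℂ), ∀ i, AnalyticAt ℂ (f i) s := Filter.eventually_all.2 hf
  exact h.mono fun s hs => Finset.analyticAt_fun_prod _ fun i _ => hs i

private theorem nr_An_sum {ι : Type} [Fintype ι] {f : ι → ℂ → ℂ} (hf : ∀ i, An (f i)) :
    An (fun s => ∑ i, f i s) := by
  have h : ∀ᶠ s in 𝓝[≠] (0 : ℂ), ∀ i, AnalyticAt ℂ (f i) s := Filter.eventually_all.2 hf
  exact h.mono fun s hs => Finset.analyticAt_fun_sum _ fun i _ => hs i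

private theorem nr_An_pow {f : ℂ → ℂ} (hf : An f) (n : ℕ) : An (fun s => f s ^ n) :=
  hf.mono fun _ hs => hs.fun_pow n

private theorem nr_ZTy_mul {S : Set ℂ} {f g : ℂ → ℂ} (hf : ZTy S f) (hg : ZTy S g) :
    ZTy S (fun Y => f Y * g Y) := by
  intro ε hε
  obtain ⟨C, hC⟩ := hf (ε / 2) (half_pos hε)
  obtain ⟨C', hC'⟩ := hg (ε / 2) (half_pos hε)
  refine ⟨C * C', fun Y hY => ?_⟩
  have h1 := hC Y hY
  have h2 := hC' Y hY
  calc ‖f Y * g Y‖ = ‖f Y‖ * ‖g Y‖ := norm_mul _ _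
    _ ≤ (C * Real.exp (ε / 2 * ‖Y‖)) * (C' * Real.exp (ε / 2 * ‖Y‖)) :=
        mul_le_mul h1 h2 (norm_nonneg _) ((norm_nonneg _).trans h1)
    _ = C * C' * Real.exp (ε * ‖Y‖) := by
        rw [show ε * ‖Y‖ = ε / 2 * ‖Y‖ + ε / 2 * ‖Y‖ by ring, Real.exp_add]
        ring

private theorem nr_ZTy_one (S : Set ℂ) : ZTy S (fun _ => (1 : ℂ)) := by
  intro ε hε
  refine ⟨1, fun Y _ => ?_⟩
  rw [norm_one, one_mul]
  exact Real.one_le_exp (by positivity)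

private theorem nr_ZTy_pow {S : Set ℂ} {f : ℂ → ℂ} (hf : ZTy S f) (n : ℕ) :
    ZTy S (fun Y => f Y ^ n) := by
  induction n with
  | zero =>
    simp only [pow_zero]
    exact nr_ZTy_one S
  | succ n ih =>
    simp only [pow_succ]
    exact nr_ZTy_mul ih hf

private theorem nr_ZTy_prod {S : Set ℂ} {ι : Type} (t : Finset ι) {f : ι → ℂ → ℂ}
    (hf : ∀ i, ZTy S (f i)) : ZTy S (fun Y => ∏ i ∈ t, f i Y) := by
  classical
  induction t using Finset.induction_on with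
  | empty =>
    simp only [Finset.prod_empty]
    exact nr_ZTy_one S
  | insert a t ha ih =>
    simp only [Finset.prod_insert ha]
    exact nr_ZTy_mul (hf a) ih

private theorem nr_ZTy_mono {S S' : Set ℂ} (h : S ⊆ S') {f : ℂ → ℂ} (hf : ZTy S' f) :
    ZTy S f := by
  intro ε hε
  obtain ⟨C, hC⟩ := hf ε hε
  exact ⟨C, fun Y hY => hC Y (h hY)⟩

private theorem nr_sec {δ R R' : ℝ} (h : R' ≤ R) : Sec δ R ⊆ Sec δ R' := fun _ hY =>
  ⟨lt_of_le_of_lt h hY.1, hY.2⟩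

private theorem nr_lam {K n : ℕ} {c : ℂ → ℂ} {g : Fin n → ℂ → ℂ} {l : Fin n → ℂ}
    (hc : ¬ Ze c) (he : ∀ᶠ s in 𝓝[≠] (0 : ℂ), c s = ∑ i, g i s * exp (l i / s ^ K)) :
    ∃ μ : ℂ, ¬ Ze (fun s => ∑ i, if l i = μ then g i s else 0) := by
  by_contra hcon
  simp only [not_exists, not_not] at hcon
  apply hc
  have h1 : ∀ᶠ s in 𝓝[≠] (0 : ℂ), ∀ j : Fin n, (∑ i, if l i = l j then g i s else 0) = 0 :=
    Filter.eventually_all.2 fun j => hcon (l j)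
  filter_upwards [he, h1] with s h2 h3
  have h4 : ∑ i, g i s * exp (l i / s ^ K) = ∑ μ ∈ Finset.univ.image l,
      ∑ i ∈ Finset.univ.filter (fun i => l i = μ), g i s * exp (l i / s ^ K) :=
    (Finset.sum_fiberwise_of_maps_to (fun i hi => Finset.mem_image_of_mem l hi) _).symm
  rw [h2, h4]
  refine Finset.sum_eq_zero fun μ hμ => ?_
  obtain ⟨j, -, rfl⟩ := Finset.mem_image.1 hμ
  have h5 : ∑ i ∈ Finset.univ.filter (fun i => l i = l j), g i s * exp (l i / s ^ K) =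
      (∑ i, if l i = l j then g i s else 0) * exp (l j / s ^ K) := by
    rw [← Finset.sum_filter, Finset.sum_mul]
    refine Finset.sum_congr rfl fun i hi => ?_
    rw [(Finset.mem_filter.1 hi).2]
  rw [h5, h3, zero_mul]

private theorem nr_alg1 {T : Type} [Fintype T] {D : ℕ} (γ : T → Fin (D + 1)) {b V u : T → ℂ}
    (hb : ∀ i, b i * V i = u i) :
    (∏ i, V i ^ (D - (γ i : ℕ))) * ∏ i, b i ^ D =
      (∏ i, u i ^ (D - (γ i : ℕ))) * ∏ i, b i ^ (γ i : ℕ) := by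
  rw [← Finset.prod_mul_distrib, ← Finset.prod_mul_distrib]
  refine Finset.prod_congr rfl fun i _ => ?_
  have h1 : (D - (γ i : ℕ)) + (γ i : ℕ) = D := Nat.sub_add_cancel (Nat.lt_succ_iff.1 (γ i).2)
  have h2 : b i ^ D = b i ^ (D - (γ i : ℕ)) * b i ^ (γ i : ℕ) := by rw [← pow_add, h1]
  rw [← hb i, h2, mul_pow]
  ring

private theorem nr_alg2 {T : Type} [Fintype T] {D : ℕ} (γ : T → Fin (D + 1)) {b V u : T → ℂ}
    (hb : ∀ i, b i * V i = u i) :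
    (∏ i, u i ^ (γ i : ℕ)) * ∏ i, V i ^ (D - (γ i : ℕ)) =
      (∏ i, b i ^ (γ i : ℕ)) * ∏ i, V i ^ D := by
  rw [← Finset.prod_mul_distrib, ← Finset.prod_mul_distrib]
  refine Finset.prod_congr rfl fun i _ => ?_
  have h1 : (γ i : ℕ) + (D - (γ i : ℕ)) = D := Nat.add_sub_cancel' (Nat.lt_succ_iff.1 (γ i).2)
  have h2 : V i ^ D = V i ^ (γ i : ℕ) * V i ^ (D - (γ i : ℕ)) := by rw [← pow_add, h1]
  rw [← hb i, h2, mul_pow]
  ring

private theorem nr_exp {T : Type} [Fintype T] (n : T → ℕ) (A q Z : T → ℂ) (L Y : ℂ) :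
    ∏ i, (exp (A i * L + q i * Y) * Z i) ^ n i =
      exp ((∑ i, (n i : ℂ) * A i) * L + (∑ i, (n i : ℂ) * q i) * Y) * ∏ i, Z i ^ n i := by
  have h1 : (∑ i, (n i : ℂ) * A i) * L + (∑ i, (n i : ℂ) * q i) * Y =
      ∑ i, (n i : ℂ) * (A i * L + q i * Y) := by
    rw [Finset.sum_mul, Finset.sum_mul, ← Finset.sum_add_distrib]
    exact Finset.sum_congr rfl fun i _ => by ring
  rw [h1, Complex.exp_sum, ← Finset.prod_mul_distrib]
  refine Finset.prod_congr rfl fun i _ => ?_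
  rw [mul_pow, Complex.exp_nat_mul]

/-- AXG-C6b: the key step. `X = s^{-K}`, `u_i = uu (h i 0) θ (ξ i s)`, `U_i = U(ξ_i)`.
Proof. `u_i` is `1` or `1 - e^{2πiξ_i}`, both in `Ex K` (C3f with `σ = 1`). So
`c_γ = p_γ ∏ u_i^(D - γ_i)` is in `Ex K`: `c_γ = ∑_l f_{γ,l} exp (λ_{γ,l} X)` with `f_{γ,l}` of zero type
(the empty sum if `p_γ` is `Ze`). Take the sector of `Bcommon` and
`B_i = exp (A_i Y log Y + q_i Y) Z_i`, `A_i = h i 0 e^{iθ}`, with `B_i U_i = u_i` (`R` enlarged so that all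
functions involved are differentiable resp. of zero type, C4d, C4e; `exp (λ X) = exp (λ e^{iθ} Y)` by
C4a). Multiplying the relation by `∏ B_i^D` gives `∑_γ c_γ ∏ B_i^(γ_i) = 0` on the sector, i.e.
`∑_{γ,l} exp (A_γ Y log Y + (q_γ + λ_{γ,l} e^{iθ}) Y) f_{γ,l} Z_γ = 0`, `A_γ = ∑ γ_i A_i`,
`q_γ = ∑ γ_i q_i`, `Z_γ = ∏ Z_i^(γ_i)`. As `c_{γ₁}` is not `Ze` (C1 domain property, `u_i` is not
`Ze` by C3f), there is `λ` such that `∑_{l : λ_{γ₁,l} = λ} f_{γ₁,l}` is not `Ze`. Put `a = A_{γ₁}`,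
`b = q_{γ₁} + λ e^{iθ}` and `f_γ = ∑_{l : q_γ + λ_{γ,l} e^{iθ} = b} f_{γ,l}` if `A_γ = a`, `f_γ = 0`
otherwise, and `l_γ = (b - q_γ) e^{-iθ}`. The separation lemma (`sep`) gives `∑_γ f_γ Z_γ = 0` on the
sector, hence (times `exp (a Y log Y + b Y)`) `∑_γ f_γ exp (l_γ X) ∏ B_i^(γ_i) = 0`, and, times
`∏ U_i^D`, `∑_γ f_γ exp (l_γ X) ∏ u_i^(γ_i) ∏ U_i^(D - γ_i) = 0` on the sector, hence on a punctured disc
(C4f). Note: `Bprod` is not needed if one works directly with `Bfun`. -/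
theorem newrel {T : Type} [Fintype T] [DecidableEq T] {K : ℕ} (hK : 1 ≤ K) (ξ h : T → ℂ → ℂ)
    (hξ : ∀ i, Pl K (ξ i) (h i)) (D : ℕ) (p : (T → Fin (D + 1)) → ℂ → ℂ) (hp : ∀ γ, Ex K (p γ))
    (hrel : Rl ξ D p) {θ : ℝ} (hθ : ∀ i, (h i 0 * exp (θ * I)).re ≠ 0) {γ₁ : T → Fin (D + 1)}
    (h1 : ¬ Ze (p γ₁)) :
    ∃ (f : (T → Fin (D + 1)) → ℂ → ℂ) (l : (T → Fin (D + 1)) → ℂ), (∀ γ, Zt K (f γ)) ∧
      ¬ Ze (f γ₁) ∧ (∀ γ, Ze (p γ) → Ze (f γ)) ∧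
      Rl ξ D (fun γ s => f γ s * exp (l γ / s ^ K) * ∏ i, uu (h i 0) θ (ξ i s) ^ (γ i : ℕ)) := by
  have hu : ∀ i, Ex K (fun s => uu (h i 0) θ (ξ i s)) := fun i => (nr_uu hK (hξ i) θ).1
  have hu0 : ∀ i, ¬ Ze (fun s => uu (h i 0) θ (ξ i s)) := fun i => (nr_uu hK (hξ i) θ).2
  have hv : ∀ γ : T → Fin (D + 1),
      Ex K (fun s => ∏ i, uu (h i 0) θ (ξ i s) ^ (D - (γ i : ℕ))) :=
    fun γ => Ex_prod hK Finset.univ fun i _ => Ex_pow hK (hu i) _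
  have hrep : ∀ γ : T → Fin (D + 1), ∃ (n : ℕ) (g : Fin n → ℂ → ℂ) (l : Fin n → ℂ),
      (∀ i, Zt K (g i)) ∧
      (∀ᶠ s in 𝓝[≠] (0 : ℂ), p γ s * ∏ i, uu (h i 0) θ (ξ i s) ^ (D - (γ i : ℕ)) =
        ∑ i, g i s * exp (l i / s ^ K)) ∧ (Ze (p γ) → n = 0) := by
    intro γ
    by_cases hz : Ze (p γ)
    · refine ⟨0, fun i => i.elim0, fun i => i.elim0, fun i => i.elim0, ?_, fun _ => rfl⟩
      filter_upwards [hz] with s hs
      rw [hs, zero_mul, Finset.univ_eq_empty, Finset.sum_empty]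
    · obtain ⟨n, g, l, h2, h3⟩ := Ex_mul (hp γ) (hv γ)
      exact ⟨n, g, l, h2, h3, fun h4 => absurd h4 hz⟩
  choose n g lam hg hrep hn using hrep
  have hc1 : ¬ Ze (fun s => p γ₁ s * ∏ i, uu (h i 0) θ (ξ i s) ^ (D - (γ₁ i : ℕ))) := by
    intro hz
    rcases An_mul_zero (Ex_An (hp γ₁)) (Ex_An (hv γ₁)) hz with h2 | h2
    · exact h1 h2
    · obtain ⟨i, -, h3⟩ := An_prod_zero Finset.univ
        (fun i _ => Ex_An (Ex_pow hK (hu i) (D - (γ₁ i : ℕ)))) h2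
      exact hu0 i (h3.mono fun s hs => eq_zero_of_pow_eq_zero hs)
  obtain ⟨μ, hμ⟩ := nr_lam hc1 (hrep γ₁)
  obtain ⟨δ, hδ0, hδ4, R₀, hR₀, q, Z, hZd, hZz, hB⟩ := Bcommon hK ξ h hξ hθ
  have hδ2 : δ < Real.pi / 2 := by
    have := Real.pi_pos
    linarith
  obtain ⟨R₁, hR₁, hev⟩ := ev_sg hK θ (P := fun s =>
    (∑ γ : T → Fin (D + 1), p γ s * ∏ i, U (ξ i s) ^ (D - (γ i : ℕ)) = 0) ∧
      ∀ γ : T → Fin (D + 1), p γ s * ∏ i, uu (h i 0) θ (ξ i s) ^ (D - (γ i : ℕ)) =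
        ∑ i, g γ i s * exp (lam γ i / s ^ K)) (hrel.and (Filter.eventually_all.2 hrep))
  choose Rd hRd hd using fun x : (Σ γ : T → Fin (D + 1), Fin (n γ)) =>
    An_sg hK θ (hg x.1 x.2).1 hδ2
  choose Rz hRz hz using fun x : (Σ γ : T → Fin (D + 1), Fin (n γ)) =>
    Zt_sg hK θ (hg x.1 x.2) hδ2
  obtain ⟨R, hR⟩ : ∃ R, R₀ + R₁ + ∑ x, Rd x + ∑ x, Rz x = R := ⟨_, rfl⟩
  have hsd : 0 ≤ ∑ x, Rd x := Finset.sum_nonneg fun x _ => hRd x
  have hsz : 0 ≤ ∑ x, Rz x := Finset.sum_nonneg fun x _ => hRz x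
  have hRR₀ : R₀ ≤ R := by linarith
  have hRR₁ : R₁ ≤ R := by linarith
  have hRnn : 0 ≤ R := by linarith
  have hRd' : ∀ x, Rd x ≤ R := fun x => by
    have := Finset.single_le_sum (f := Rd) (fun y _ => hRd y) (Finset.mem_univ x)
    linarith
  have hRz' : ∀ x, Rz x ≤ R := fun x => by
    have := Finset.single_le_sum (f := Rz) (fun y _ => hRz y) (Finset.mem_univ x)
    linarith
  obtain ⟨E, hE⟩ : ∃ E, exp (θ * I) = E := ⟨_, rfl⟩
  have hE0 : E ≠ 0 := by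
    rw [← hE]
    exact exp_ne_zero _
  obtain ⟨A, hA⟩ : ∃ A : (T → Fin (D + 1)) → ℂ, ∀ γ,
      ∑ i, ((γ i : ℕ) : ℂ) * (h i 0 * E) = A γ := ⟨_, fun _ => rfl⟩
  obtain ⟨Q, hQ⟩ : ∃ Q : (T → Fin (D + 1)) → ℂ, ∀ γ,
      ∑ i, ((γ i : ℕ) : ℂ) * q i = Q γ := ⟨_, fun _ => rfl⟩
  have hY0 : ∀ {Y : ℂ}, Y ∈ Sec δ R → Y ≠ 0 := fun {Y} hY => by
    have h2 : 0 < ‖Y‖ := lt_of_le_of_lt hRnn hY.1
    exact norm_pos_iff.1 h2
  have hX : ∀ {Y : ℂ}, Y ∈ Sec δ R → ∀ c : ℂ, c / (sg K θ Y) ^ K = c * (E * Y) := by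
    intro Y hY c
    rw [div_eq_mul_one_div, sg_pow hK θ (hY0 hY), hE]
  have hb : ∀ {Y : ℂ}, Y ∈ Sec δ R → ∀ i,
      (exp (h i 0 * E * (Y * log Y) + q i * Y) * Z i Y) * U (ξ i (sg K θ Y)) =
        uu (h i 0) θ (ξ i (sg K θ Y)) := by
    intro Y hY i
    rw [← hE]
    exact hB i Y (nr_sec hRR₀ hY)
  have hbp : ∀ (Y : ℂ) (γ : T → Fin (D + 1)),
      ∏ i, (exp (h i 0 * E * (Y * log Y) + q i * Y) * Z i Y) ^ (γ i : ℕ) =
        exp (A γ * (Y * log Y) + Q γ * Y) * ∏ i, Z i Y ^ (γ i : ℕ) := by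
    intro Y γ
    rw [nr_exp (fun i => (γ i : ℕ)) (fun i => h i 0 * E) q (fun i => Z i Y) (Y * log Y) Y, hA, hQ]
  have hs : ∀ Y ∈ Sec δ R, ∑ x : (Σ γ : T → Fin (D + 1), Fin (n γ)),
      exp (A x.1 * (Y * log Y) + (Q x.1 + lam x.1 x.2 * E) * Y) *
        (g x.1 x.2 (sg K θ Y) * ∏ i, Z i Y ^ (x.1 i : ℕ)) = 0 := by
    intro Y hY
    obtain ⟨h5, h6⟩ := hev Y (lt_of_le_of_lt hRR₁ hY.1)
    rw [Fintype.sum_sigma]
    have h7 : ∀ γ : T → Fin (D + 1), ∑ j : Fin (n γ),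
        exp (A γ * (Y * log Y) + (Q γ + lam γ j * E) * Y) *
          (g γ j (sg K θ Y) * ∏ i, Z i Y ^ (γ i : ℕ)) =
        (p γ (sg K θ Y) * ∏ i, U (ξ i (sg K θ Y)) ^ (D - (γ i : ℕ))) *
          ∏ i, (exp (h i 0 * E * (Y * log Y) + q i * Y) * Z i Y) ^ D := by
      intro γ
      rw [mul_assoc, nr_alg1 γ (hb hY), ← mul_assoc (p γ (sg K θ Y)), h6 γ, hbp, Finset.sum_mul]
      refine Finset.sum_congr rfl fun j _ => ?_
      rw [hX hY, show A γ * (Y * log Y) + (Q γ + lam γ j * E) * Y =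
        lam γ j * (E * Y) + (A γ * (Y * log Y) + Q γ * Y) by ring, exp_add]
      ring
    rw [Finset.sum_congr rfl fun γ _ => h7 γ, ← Finset.sum_mul, h5, zero_mul]
  have hsep := sep hδ0 hδ2 hRnn (fun x : (Σ γ : T → Fin (D + 1), Fin (n γ)) => A x.1)
    (fun x => Q x.1 + lam x.1 x.2 * E)
    (fun x Y => g x.1 x.2 (sg K θ Y) * ∏ i, Z i Y ^ (x.1 i : ℕ))
    (fun x => ((hd x).mono (nr_sec (hRd' x))).fun_mul
      (DifferentiableOn.fun_finsetProd fun i _ => ((hZd i).mono (nr_sec hRR₀)).fun_pow _))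
    (fun x => nr_ZTy_mul (nr_ZTy_mono (nr_sec (hRz' x)) (hz x))
      (nr_ZTy_prod _ fun i => nr_ZTy_pow (nr_ZTy_mono (nr_sec hRR₀) (hZz i)) _))
    hs (A γ₁) (Q γ₁ + μ * E)
  have hfZ : ∀ γ : T → Fin (D + 1), Zt K (fun s => ∑ j : Fin (n γ),
      if A γ = A γ₁ ∧ Q γ + lam γ j * E = Q γ₁ + μ * E then g γ j s else 0) := by
    intro γ
    refine Zt_sum hK Finset.univ fun j _ => ?_
    by_cases hcd : A γ = A γ₁ ∧ Q γ + lam γ j * E = Q γ₁ + μ * E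
    · simp only [if_pos hcd]
      exact hg γ j
    · simp only [if_neg hcd]
      exact Zt_const hK 0
  refine ⟨fun γ s => ∑ j : Fin (n γ),
      if A γ = A γ₁ ∧ Q γ + lam γ j * E = Q γ₁ + μ * E then g γ j s else 0,
    fun γ => (Q γ₁ + μ * E - Q γ) * E⁻¹, hfZ, ?_, ?_, ?_⟩
  · intro h2
    apply hμ
    refine h2.mono fun s hs' => ?_
    refine Eq.trans (Finset.sum_congr rfl fun j _ => if_congr ?_ rfl rfl) hs'
    rw [add_right_inj, mul_left_inj' hE0]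
    exact (and_iff_right rfl).symm
  · intro γ h2
    refine Filter.Eventually.of_forall fun s => ?_
    have h3 : IsEmpty (Fin (n γ)) := by
      rw [hn γ h2]
      infer_instance
    show (∑ j : Fin (n γ),
      if A γ = A γ₁ ∧ Q γ + lam γ j * E = Q γ₁ + μ * E then g γ j s else 0) = 0
    rw [Finset.univ_eq_empty, Finset.sum_empty]
  · refine sg_identity hK θ (R := R) ?_ hδ0 ?_
    · exact nr_An_sum fun γ => An_mul (An_mul (An_mul (hfZ γ).1 (Ex_An (Ex_exp hK _)))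
        (Ex_An (Ex_prod hK Finset.univ fun i _ => Ex_pow hK (hu i) _)))
        (nr_An_prod fun i => nr_An_pow (An_U (Pl_An (hξ i))) _)
    · intro Y hY
      have h2 := hsep Y hY
      rw [Fintype.sum_sigma] at h2
      have h3 : ∀ γ : T → Fin (D + 1), (∑ j : Fin (n γ),
          if A γ = A γ₁ ∧ Q γ + lam γ j * E = Q γ₁ + μ * E then g γ j (sg K θ Y) else 0) *
            exp ((Q γ₁ + μ * E - Q γ) * E⁻¹ / (sg K θ Y) ^ K) *
            (∏ i, uu (h i 0) θ (ξ i (sg K θ Y)) ^ (γ i : ℕ)) *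
            ∏ i, U (ξ i (sg K θ Y)) ^ (D - (γ i : ℕ)) =
          ((∏ i, U (ξ i (sg K θ Y)) ^ D) *
            exp (A γ₁ * (Y * log Y) + (Q γ₁ + μ * E) * Y)) *
            ∑ j : Fin (n γ), (if A γ = A γ₁ ∧ Q γ + lam γ j * E = Q γ₁ + μ * E then
              g γ j (sg K θ Y) * ∏ i, Z i Y ^ (γ i : ℕ) else 0) := by
        intro γ
        have h4 : (∑ j : Fin (n γ), (if A γ = A γ₁ ∧ Q γ + lam γ j * E = Q γ₁ + μ * E then
              g γ j (sg K θ Y) * ∏ i, Z i Y ^ (γ i : ℕ) else 0)) =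
            (∑ j : Fin (n γ), if A γ = A γ₁ ∧ Q γ + lam γ j * E = Q γ₁ + μ * E then
              g γ j (sg K θ Y) else 0) * ∏ i, Z i Y ^ (γ i : ℕ) := by
          rw [Finset.sum_mul]
          refine Finset.sum_congr rfl fun j _ => ?_
          rw [ite_mul, zero_mul]
        rw [h4, mul_assoc _ (∏ i, uu (h i 0) θ (ξ i (sg K θ Y)) ^ (γ i : ℕ)),
          nr_alg2 γ (hb hY), hbp, hX hY]
        by_cases h5 : A γ = A γ₁
        · have h6 : exp (A γ₁ * (Y * log Y) + (Q γ₁ + μ * E) * Y) =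
              exp ((Q γ₁ + μ * E - Q γ) * E⁻¹ * (E * Y)) *
                exp (A γ * (Y * log Y) + Q γ * Y) := by
            rw [← exp_add, h5]
            congr 1
            field_simp
            ring
          rw [h6]
          ring
        · have h6 : (∑ j : Fin (n γ), if A γ = A γ₁ ∧ Q γ + lam γ j * E = Q γ₁ + μ * E then
              g γ j (sg K θ Y) else 0) = 0 :=
            Finset.sum_eq_zero fun j _ => if_neg fun h7 => h5 h7.1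
          rw [h6]
          ring
      show (∑ γ : T → Fin (D + 1), (∑ j : Fin (n γ),
          if A γ = A γ₁ ∧ Q γ + lam γ j * E = Q γ₁ + μ * E then g γ j (sg K θ Y) else 0) *
            exp ((Q γ₁ + μ * E - Q γ) * E⁻¹ / (sg K θ Y) ^ K) *
            (∏ i, uu (h i 0) θ (ξ i (sg K θ Y)) ^ (γ i : ℕ)) *
            ∏ i, U (ξ i (sg K θ Y)) ^ (D - (γ i : ℕ))) = 0
      rw [Finset.sum_congr rfl fun γ _ => h3 γ, ← Finset.mul_sum, h2, mul_zero]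


end Pool.Agent.Helper94.AXG
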