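import Pool.Agent.Helper94.AXG.C8
import Pool.Agent.Helper94.AXG.C6B

/-! # AXG-C8B -/

namespace Pool.Agent.Helper94.AXG

open Complex Filter Topology

private lemma c8_cancel {f g₁ g₂ : ℂ → ℂ} (hf : An f) (h1 : An g₁) (h2 : An g₂) (hne : ¬ Ze f)
    (h : ∀ᶠ s in 𝓝[≠] (0 : ℂ), g₁ s * f s = g₂ s * f s) :
    ∀ᶠ s in 𝓝[≠] (0 : ℂ), g₁ s = g₂ s := by
  have hs : An (fun s => g₁ s - g₂ s) := by
    filter_upwards [h1, h2] with s a b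
    exact a.sub b
  have hz : Ze (fun s => (g₁ s - g₂ s) * f s) := by
    filter_upwards [h] with s hs
    rw [sub_mul, hs, sub_self]
  rcases An_mul_zero hs hf hz with h | h
  · filter_upwards [h] with s hs
    exact sub_eq_zero.1 hs
  · exact absurd h hne

private lemma c8_mul {f g : ℂ → ℂ} (hf : An f) (hg : An g) (h1 : ¬ Ze f) (h2 : ¬ Ze g) :
    ¬ Ze (fun s => f s * g s) := fun h => by
  rcases An_mul_zero hf hg h with h | h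
  · exact h1 h
  · exact h2 h

private lemma c8_one : ¬ Ze (fun _ => 1) := fun h => by
  obtain ⟨s, hs⟩ := h.exists
  exact one_ne_zero hs

private lemma c8_An_const (c : ℂ) : An (fun _ => c) :=
  Eventually.of_forall fun _ => analyticAt_const

private lemma c8_An_pow {f : ℂ → ℂ} (hf : An f) (n : ℕ) : An (fun s => f s ^ n) := by
  filter_upwards [hf] with s h
  exact h.pow n

private lemma c8_pow {f : ℂ → ℂ} (h : ¬ Ze f) (n : ℕ) : ¬ Ze (fun s => f s ^ n) := fun h1 => by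
  apply h
  filter_upwards [h1] with s hs
  by_contra h2
  exact pow_ne_zero n h2 hs

private lemma c8_An_exp (K : ℕ) (l : ℂ) : An (fun s => exp (l / s ^ K)) := by
  filter_upwards [self_mem_nhdsWithin] with s h0
  exact (analyticAt_const.div (analyticAt_id.pow K) (pow_ne_zero K h0)).cexp

private lemma c8_An_prod {ι : Type} (t : Finset ι) {f : ι → ℂ → ℂ} (hf : ∀ i ∈ t, An (f i)) :
    An (fun z => ∏ i ∈ t, f i z) := by
  classical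
  induction t using Finset.induction_on with
  | empty =>
    simp only [Finset.prod_empty]
    exact c8_An_const 1
  | insert i t hi ih =>
    have h1 := ih (fun j hj => hf j (Finset.mem_insert_of_mem hj))
    have h2 := hf i (Finset.mem_insert_self i t)
    simp only [Finset.prod_insert hi]
    exact An_mul h2 h1

private lemma c8_prod {ι : Type} (t : Finset ι) {f : ι → ℂ → ℂ} (hf : ∀ i ∈ t, An (f i))
    (h : ∀ i ∈ t, ¬ Ze (f i)) : ¬ Ze (fun z => ∏ i ∈ t, f i z) := fun h1 => by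
  obtain ⟨i, hi, h2⟩ := An_prod_zero t hf h1
  exact h i hi h2

private lemma c8_uu {K : ℕ} (hK : 1 ≤ K) {ξ h : ℂ → ℂ} (hξ : Pl K ξ h) (a : ℂ) (θ : ℝ) :
    Ex K (fun s => uu a θ (ξ s)) ∧ ¬ Ze (fun s => uu a θ (ξ s)) := by
  unfold uu
  by_cases h0 : 0 < (a * exp (θ * I)).re
  · simp only [if_pos h0]
    exact ⟨Ex_of_Zt (Zt_const hK 1), c8_one⟩
  · simp only [if_neg h0]
    have h1 := Ex_one_sub hK hξ (σ := 1) one_ne_zero
    simp only [Int.cast_one, mul_one] at h1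
    exact h1

private lemma c8_half {T : Type} [Fintype T] [DecidableEq T] {K : ℕ} (hK : 1 ≤ K) (ξ h : T → ℂ → ℂ)
    (hξ : ∀ i, Pl K (ξ i) (h i)) (D : ℕ) (p : (T → Fin (D + 1)) → ℂ → ℂ) (hp : ∀ γ, Ex K (p γ))
    (hrel : Rl ξ D p) {γ₀ γ₁ : T → Fin (D + 1)} (h0 : ¬ Ze (p γ₀)) (h1 : ¬ Ze (p γ₁))
    (hmin : ∀ p'' : (T → Fin (D + 1)) → ℂ → ℂ, (∀ γ, Ex K (p'' γ)) → Rl ξ D p'' →
        (∀ γ, Ze (p γ) → Ze (p'' γ)) →
        ∀ γ γ', ∀ᶠ s in 𝓝[≠] (0 : ℂ), p γ s * p'' γ' s = p'' γ s * p γ' s)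
    {θ : ℝ} (hθ : ∀ i, (h i 0 * exp (θ * I)).re ≠ 0) :
    ∃ (f₀ f₁ : ℂ → ℂ) (l₀ l₁ : ℂ), Zt K f₀ ∧ Zt K f₁ ∧ ¬ Ze f₀ ∧ ¬ Ze f₁ ∧
      ∀ᶠ s in 𝓝[≠] (0 : ℂ),
        p γ₁ s * (f₀ s * exp (l₀ / s ^ K) * ∏ i, uu (h i 0) θ (ξ i s) ^ (γ₀ i : ℕ)) =
          (f₁ s * exp (l₁ / s ^ K) * ∏ i, uu (h i 0) θ (ξ i s) ^ (γ₁ i : ℕ)) * p γ₀ s := by
  obtain ⟨f, l, hf, hf1, hsup, hR⟩ := newrel hK ξ h hξ D p hp hrel hθ h1
  have huE : ∀ i, Ex K (fun s => uu (h i 0) θ (ξ i s)) := fun i => (c8_uu hK (hξ i) _ θ).1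
  have huZ : ∀ i, ¬ Ze (fun s => uu (h i 0) θ (ξ i s)) := fun i => (c8_uu hK (hξ i) _ θ).2
  have hE : ∀ γ, Ex K (fun s => f γ s * exp (l γ / s ^ K) *
      ∏ i, uu (h i 0) θ (ξ i s) ^ (γ i : ℕ)) := fun γ =>
    Ex_mul (Ex_mul (Ex_of_Zt (hf γ)) (Ex_exp hK (l γ)))
      (Ex_prod hK Finset.univ fun i _ => Ex_pow hK (huE i) _)
  have h2 := hmin _ hE hR (fun γ hγ => by
    filter_upwards [hsup γ hγ] with s hs
    rw [hs, zero_mul, zero_mul]) γ₁ γ₀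
  refine ⟨f γ₀, f γ₁, l γ₀, l γ₁, hf γ₀, hf γ₁, fun h3 => ?_, hf1, h2⟩
  have hAu : ∀ (γ : T → Fin (D + 1)), An (fun s => ∏ i, uu (h i 0) θ (ξ i s) ^ (γ i : ℕ)) :=
    fun γ => c8_An_prod Finset.univ fun i _ => c8_An_pow (Ex_An (huE i)) _
  have hZu : ∀ (γ : T → Fin (D + 1)), ¬ Ze (fun s => ∏ i, uu (h i 0) θ (ξ i s) ^ (γ i : ℕ)) :=
    fun γ => c8_prod Finset.univ (fun i _ => c8_An_pow (Ex_An (huE i)) _)
      (fun i _ => c8_pow (huZ i) _)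
  have hexp : ¬ Ze (fun s => exp (l γ₁ / s ^ K)) := fun h4 => by
    obtain ⟨s, hs⟩ := h4.exists
    exact exp_ne_zero _ hs
  have h4 : ¬ Ze (fun s => (f γ₁ s * exp (l γ₁ / s ^ K) *
      ∏ i, uu (h i 0) θ (ξ i s) ^ (γ₁ i : ℕ)) * p γ₀ s) := by
    refine c8_mul (An_mul (An_mul (hf γ₁).1 (c8_An_exp K _)) (hAu γ₁)) (Ex_An (hp γ₀)) ?_ h0
    refine c8_mul (An_mul (hf γ₁).1 (c8_An_exp K _)) (hAu γ₁) ?_ (hZu γ₁)
    exact c8_mul (hf γ₁).1 (c8_An_exp K _) hf1 hexp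
  apply h4
  filter_upwards [h2, h3] with s h5 h6
  rw [← h5, h6]
  ring

/-- AXG-C8b. Let `p` be a relation as given by `minrel` and `γ₀, γ₁` in its support. Let
`σ_i = sgr (h i 0 / ω)`.
Proof. Take `θ₁, θ₂` from `two_dirs` (`a i = h i 0`). `newrel` (with `γ₁`) for `θ₁` and for `θ₂` gives
relations `p''_γ = f_γ E_γ u^γ`, `p'''_γ = f'_γ E'_γ u'^γ` (`E_γ = exp (l_γ/s^K)`, `u_i = uu _ θ₁ ξ_i`,
`u'_i = uu _ θ₂ ξ_i`, `u^γ = ∏ u_i^(γ_i)`), all in `Ex K`, with `f_{γ₁}`, `f'_{γ₁}` not `Ze`. By `hmin`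
`p_{γ₁} p''_{γ₀} = p''_{γ₁} p_{γ₀}` and the right side is not `Ze` (domain), so `f_{γ₀}` is not `Ze`
either; same for `f'`. From the two proportionalities (cancel `p_{γ₀} p_{γ₁}`, domain):
`f_{γ₁} E_{γ₁} u^{γ₁} f'_{γ₀} E'_{γ₀} u'^{γ₀} = f_{γ₀} E_{γ₀} u^{γ₀} f'_{γ₁} E'_{γ₁} u'^{γ₁}`. For
`σ_i = 0`: `u_i = u'_i` (not `Ze`), the factors cancel. For `σ_i = 1`: `u_i = 1`, `u'_i = 1 - z_i`,
`z_i = e^{2πiξ_i}`; for `σ_i = -1`: `u_i = 1 - z_i = -z_i (1 - z_i^{-1})`, `u'_i = 1`; the factors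
`(-z_i)^n` are `± ζ^n exp (2πi n h_i(0) / s^K)` by `exp_pole`, with `ζ` of zero type and without zeros
(for negative powers use `exp_pole` with `c = -2πi`: move such a factor to the other side, so that only
nonnegative powers occur). So `F` = `f_{γ₁} f'_{γ₀}` times zero type factors, `G` = `f_{γ₀} f'_{γ₁}` times
zero type factors, and for `σ_i = 1`: `e i = γ₀ i`, `e' i = γ₁ i`; for `σ_i = -1`: `e i = γ₁ i`,
`e' i = γ₀ i`; for `σ_i = 0`: `e i = e' i = 0`. -/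
theorem line_rel {T : Type} [Fintype T] [DecidableEq T] {K : ℕ} (hK : 1 ≤ K) (ξ h : T → ℂ → ℂ)
    (hξ : ∀ i, Pl K (ξ i) (h i)) (D : ℕ) (p : (T → Fin (D + 1)) → ℂ → ℂ) (hp : ∀ γ, Ex K (p γ))
    (hrel : Rl ξ D p) {γ₀ γ₁ : T → Fin (D + 1)} (h0 : ¬ Ze (p γ₀)) (h1 : ¬ Ze (p γ₁))
    (hmin : ∀ p'' : (T → Fin (D + 1)) → ℂ → ℂ, (∀ γ, Ex K (p'' γ)) → Rl ξ D p'' →
        (∀ γ, Ze (p γ) → Ze (p'' γ)) →
        ∀ γ γ', ∀ᶠ s in 𝓝[≠] (0 : ℂ), p γ s * p'' γ' s = p'' γ s * p γ' s)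
    {ω : ℂ} (hω : ω ≠ 0) :
    ∃ (F G : ℂ → ℂ) (l : ℂ) (e e' : T → ℕ), Zt K F ∧ Zt K G ∧ ¬ Ze F ∧ ¬ Ze G ∧
      (∀ i, (e i : ℤ) - e' i = - sgr (h i 0 / ω) * (((γ₁ i : ℕ) : ℤ) - ((γ₀ i : ℕ) : ℤ))) ∧
      (∀ i, sgr (h i 0 / ω) = 0 → e i = 0 ∧ e' i = 0) ∧
      ∀ᶠ s in 𝓝[≠] (0 : ℂ),
        F s * exp (l / s ^ K) *
            ∏ i, (1 - exp (2 * Real.pi * I * (sgr (h i 0 / ω) : ℂ) * ξ i s)) ^ e i =
          G s * ∏ i, (1 - exp (2 * Real.pi * I * (sgr (h i 0 / ω) : ℂ) * ξ i s)) ^ e' i := by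
  obtain ⟨θ₁, θ₂, hdir⟩ := two_dirs (fun i => h i 0) (fun i => (hξ i).2.1) hω
  obtain ⟨f₀, f₁, l₀, l₁, hf₀, hf₁, hz₀, hz₁, hE⟩ :=
    c8_half hK ξ h hξ D p hp hrel h0 h1 hmin (θ := θ₁) (fun i => (hdir i).1)
  obtain ⟨f₀', f₁', l₀', l₁', hf₀', hf₁', hz₀', hz₁', hE'⟩ :=
    c8_half hK ξ h hξ D p hp hrel h0 h1 hmin (θ := θ₂) (fun i => (hdir i).2.1)
  have hσ : ∀ i, sgr (h i 0 / ω) = 0 ∨ sgr (h i 0 / ω) = 1 ∨ sgr (h i 0 / ω) = -1 := by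
    intro i
    unfold sgr
    split_ifs <;> simp
  -- the exponential factors
  choose ζ hζ hζ0 hζe using fun i => exp_pole (hξ i) (2 * Real.pi * I)
  have hζe' : ∀ᶠ s in 𝓝[≠] (0 : ℂ), ∀ i,
      exp (2 * Real.pi * I * ξ i s) = ζ i s * exp (2 * Real.pi * I * h i 0 / s ^ K) :=
    eventually_all.2 hζe
  let m : (T → Fin (D + 1)) → T → ℕ := fun γ i => if sgr (h i 0 / ω) = -1 then (γ i : ℕ) else 0
  let w : T → ℕ := fun i => if sgr (h i 0 / ω) = 0 then (γ₀ i : ℕ) + (γ₁ i : ℕ) else 0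
  let e : T → ℕ := fun i => if sgr (h i 0 / ω) = 1 then (γ₀ i : ℕ) else
    if sgr (h i 0 / ω) = -1 then (γ₁ i : ℕ) else 0
  let e' : T → ℕ := fun i => if sgr (h i 0 / ω) = 1 then (γ₁ i : ℕ) else
    if sgr (h i 0 / ω) = -1 then (γ₀ i : ℕ) else 0
  let v : T → ℂ → ℂ := fun i s => 1 - exp (2 * Real.pi * I * (sgr (h i 0 / ω) : ℂ) * ξ i s)
  have hAv : ∀ i, An (v i) := by
    intro i
    filter_upwards [Pl_An (hξ i)] with s hs
    exact analyticAt_const.sub (analyticAt_const.mul hs).cexp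
  have huE : ∀ i, Ex K (fun s => uu (h i 0) θ₁ (ξ i s)) := fun i => (c8_uu hK (hξ i) _ θ₁).1
  have huZ : ∀ i, ¬ Ze (fun s => uu (h i 0) θ₁ (ξ i s)) := fun i => (c8_uu hK (hξ i) _ θ₁).2
  have huE' : ∀ i, Ex K (fun s => uu (h i 0) θ₂ (ξ i s)) := fun i => (c8_uu hK (hξ i) _ θ₂).1
  -- the factors
  have hfac : ∀ i s, exp (2 * Real.pi * I * ξ i s) =
      ζ i s * exp (2 * Real.pi * I * h i 0 / s ^ K) →
      uu (h i 0) θ₁ (ξ i s) ^ (γ₁ i : ℕ) * uu (h i 0) θ₂ (ξ i s) ^ (γ₀ i : ℕ) =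
        ((-ζ i s) ^ m γ₁ i * exp (2 * Real.pi * I * h i 0 / s ^ K) ^ m γ₁ i * v i s ^ e i) *
          uu (h i 0) θ₁ (ξ i s) ^ w i ∧
      uu (h i 0) θ₁ (ξ i s) ^ (γ₀ i : ℕ) * uu (h i 0) θ₂ (ξ i s) ^ (γ₁ i : ℕ) =
        ((-ζ i s) ^ m γ₀ i * exp (2 * Real.pi * I * h i 0 / s ^ K) ^ m γ₀ i * v i s ^ e' i) *
          uu (h i 0) θ₁ (ξ i s) ^ w i := by
    intro i s hs
    obtain ⟨-, -, hd0, hd1, hd2⟩ := hdir i
    simp only [m, w, e, e', v]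
    rcases hσ i with h3 | h3 | h3
    · have hu : uu (h i 0) θ₂ (ξ i s) = uu (h i 0) θ₁ (ξ i s) := by
        unfold uu
        exact if_congr (hd0 h3).symm rfl rfl
      rw [hu, h3]
      simp only [if_true, show (0 : ℤ) ≠ -1 by decide, show (0 : ℤ) ≠ 1 by decide, if_false,
        pow_zero, one_mul]
      exact ⟨by rw [← pow_add, add_comm], by rw [← pow_add]⟩
    · obtain ⟨hp1, hp2⟩ := hd1 h3
      have hu1 : uu (h i 0) θ₁ (ξ i s) = 1 := by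
        unfold uu
        exact if_pos hp1
      have hu2 : uu (h i 0) θ₂ (ξ i s) = 1 - exp (2 * Real.pi * I * ξ i s) := by
        unfold uu
        exact if_neg (not_lt.2 hp2.le)
      rw [hu1, hu2, h3]
      simp only [if_true, show (1 : ℤ) ≠ -1 by decide, show (1 : ℤ) ≠ 0 by decide, if_false,
        pow_zero, one_mul, one_pow, mul_one, Int.cast_one, and_self]
    · obtain ⟨hp1, hp2⟩ := hd2 h3
      have hu2 : uu (h i 0) θ₂ (ξ i s) = 1 := by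
        unfold uu
        exact if_pos hp2
      have hu1 : uu (h i 0) θ₁ (ξ i s) = 1 - exp (2 * Real.pi * I * ξ i s) := by
        unfold uu
        exact if_neg (not_lt.2 hp1.le)
      have h4 : 1 - exp (2 * Real.pi * I * ξ i s) =
          -ζ i s * exp (2 * Real.pi * I * h i 0 / s ^ K) *
            (1 - exp (2 * Real.pi * I * ((-1 : ℤ) : ℂ) * ξ i s)) := by
        rw [neg_mul, ← hs, mul_sub, mul_one, neg_mul, ← exp_add,
          show 2 * Real.pi * I * ξ i s + 2 * Real.pi * I * ((-1 : ℤ) : ℂ) * ξ i s = 0 by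
            push_cast; ring, exp_zero]
        ring
      rw [hu1, hu2, h3]
      simp only [if_true, show (-1 : ℤ) ≠ 1 by decide, show (-1 : ℤ) ≠ 0 by decide, if_false,
        pow_zero, one_pow, mul_one]
      exact ⟨by rw [h4, mul_pow, mul_pow], by rw [h4, mul_pow, mul_pow]⟩
  -- the functions
  have hAζ : ∀ (γ : T → Fin (D + 1)), Zt K (fun s => ∏ i, (-ζ i s) ^ m γ i) := by
    intro γ
    refine Zt_prod hK Finset.univ fun i _ => Zt_pow hK ?_ _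
    have h5 := Zt_mul (Zt_const hK (-1)) (hζ i)
    simp only [neg_mul, one_mul] at h5
    exact h5
  have hnζ : ∀ (γ : T → Fin (D + 1)) s, ∏ i, (-ζ i s) ^ m γ i ≠ 0 := fun γ s =>
    Finset.prod_ne_zero_iff.2 fun i _ => pow_ne_zero _ (neg_ne_zero.2 (hζ0 i s))
  have hnz : ∀ (a b c : ℂ → ℂ), An a → An b → ¬ Ze a → ¬ Ze b → (∀ s, c s ≠ 0) →
      ¬ Ze (fun s => a s * b s * c s) := by
    intro a b c ha hb h5 h6 hc h7
    refine c8_mul ha hb h5 h6 ?_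
    filter_upwards [h7] with s hs
    exact (mul_eq_zero.1 hs).resolve_right (hc s)
  let Lm : (T → Fin (D + 1)) → ℂ := fun γ => ∑ i, (m γ i : ℂ) * (2 * Real.pi * I * h i 0)
  have hLm : ∀ (γ : T → Fin (D + 1)) s,
      ∏ i, exp (2 * Real.pi * I * h i 0 / s ^ K) ^ m γ i = exp (Lm γ / s ^ K) := by
    intro γ s
    simp only [Lm, Finset.sum_div, exp_sum]
    refine Finset.prod_congr rfl fun i _ => ?_
    rw [← exp_nat_mul]
    congr 1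
    ring
  refine ⟨fun s => f₁ s * f₀' s * ∏ i, (-ζ i s) ^ m γ₁ i,
    fun s => f₀ s * f₁' s * ∏ i, (-ζ i s) ^ m γ₀ i,
    (l₁ + l₀' + Lm γ₁) - (l₀ + l₁' + Lm γ₀), e, e',
    Zt_mul (Zt_mul hf₁ hf₀') (hAζ γ₁), Zt_mul (Zt_mul hf₀ hf₁') (hAζ γ₀),
    hnz _ _ _ hf₁.1 hf₀'.1 hz₁ hz₀' (hnζ γ₁), hnz _ _ _ hf₀.1 hf₁'.1 hz₀ hz₁' (hnζ γ₀), ?_, ?_, ?_⟩
  · intro i
    simp only [e, e']
    rcases hσ i with h3 | h3 | h3
    · rw [h3]
      simp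
    · rw [h3]
      simp
    · rw [h3]
      simp
  · intro i hi
    simp only [e, e', hi]
    simp
  · have hAp : ∀ (ε : T → ℕ), An (fun s => ∏ i, v i s ^ ε i) := fun ε =>
      c8_An_prod Finset.univ fun i _ => c8_An_pow (hAv i) _
    have hAW : An (fun s => ∏ i, uu (h i 0) θ₁ (ξ i s) ^ w i) :=
      c8_An_prod Finset.univ fun i _ => c8_An_pow (Ex_An (huE i)) _
    have hZW : ¬ Ze (fun s => ∏ i, uu (h i 0) θ₁ (ξ i s) ^ w i) :=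
      c8_prod Finset.univ (fun i _ => c8_An_pow (Ex_An (huE i)) _) fun i _ => c8_pow (huZ i) _
    have hApp : An (fun s => p γ₀ s * p γ₁ s) := An_mul (Ex_An (hp γ₀)) (Ex_An (hp γ₁))
    have hZpp : ¬ Ze (fun s => p γ₀ s * p γ₁ s) := c8_mul (Ex_An (hp γ₀)) (Ex_An (hp γ₁)) h0 h1
    have hA1 : ∀ (a b : ℂ → ℂ) (γ : T → Fin (D + 1)) (l l' : ℂ) (ε : T → ℕ), An a → An b →
        An (fun s => a s * b s * (∏ i, (-ζ i s) ^ m γ i) * exp (l / s ^ K) * exp (l' / s ^ K) *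
          exp (Lm γ / s ^ K) * ∏ i, v i s ^ ε i) := fun a b γ l l' ε ha hb =>
      An_mul (An_mul (An_mul (An_mul (An_mul (An_mul ha hb) (hAζ γ).1) (c8_An_exp K _))
        (c8_An_exp K _)) (c8_An_exp K _)) (hAp ε)
    have hkey : ∀ᶠ s in 𝓝[≠] (0 : ℂ),
        f₁ s * f₀' s * (∏ i, (-ζ i s) ^ m γ₁ i) * exp (l₁ / s ^ K) * exp (l₀' / s ^ K) *
          exp (Lm γ₁ / s ^ K) * ∏ i, v i s ^ e i =
        f₀ s * f₁' s * (∏ i, (-ζ i s) ^ m γ₀ i) * exp (l₀ / s ^ K) * exp (l₁' / s ^ K) *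
          exp (Lm γ₀ / s ^ K) * ∏ i, v i s ^ e' i := by
      refine c8_cancel (An_mul hAW hApp) (hA1 _ _ _ _ _ _ hf₁.1 hf₀'.1)
        (hA1 _ _ _ _ _ _ hf₀.1 hf₁'.1) (c8_mul hAW hApp hZW hZpp) ?_
      filter_upwards [hE, hE', hζe'] with s h5 h6 h7
      have e1 : (∏ i, uu (h i 0) θ₁ (ξ i s) ^ (γ₁ i : ℕ)) *
          ∏ i, uu (h i 0) θ₂ (ξ i s) ^ (γ₀ i : ℕ) =
          (∏ i, (-ζ i s) ^ m γ₁ i) * exp (Lm γ₁ / s ^ K) * (∏ i, v i s ^ e i) *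
            ∏ i, uu (h i 0) θ₁ (ξ i s) ^ w i := by
        rw [← hLm, ← Finset.prod_mul_distrib, ← Finset.prod_mul_distrib,
          ← Finset.prod_mul_distrib, ← Finset.prod_mul_distrib]
        exact Finset.prod_congr rfl fun i _ => (hfac i s (h7 i)).1
      have e2 : (∏ i, uu (h i 0) θ₁ (ξ i s) ^ (γ₀ i : ℕ)) *
          ∏ i, uu (h i 0) θ₂ (ξ i s) ^ (γ₁ i : ℕ) =
          (∏ i, (-ζ i s) ^ m γ₀ i) * exp (Lm γ₀ / s ^ K) * (∏ i, v i s ^ e' i) *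
            ∏ i, uu (h i 0) θ₁ (ξ i s) ^ w i := by
        rw [← hLm, ← Finset.prod_mul_distrib, ← Finset.prod_mul_distrib,
          ← Finset.prod_mul_distrib, ← Finset.prod_mul_distrib]
        exact Finset.prod_congr rfl fun i _ => (hfac i s (h7 i)).2
      calc _ = (f₁ s * exp (l₁ / s ^ K)) * (f₀' s * exp (l₀' / s ^ K)) *
            ((∏ i, (-ζ i s) ^ m γ₁ i) * exp (Lm γ₁ / s ^ K) * (∏ i, v i s ^ e i) *
            ∏ i, uu (h i 0) θ₁ (ξ i s) ^ w i) * (p γ₀ s * p γ₁ s) := by ring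
        _ = ((f₁ s * exp (l₁ / s ^ K) * ∏ i, uu (h i 0) θ₁ (ξ i s) ^ (γ₁ i : ℕ)) * p γ₀ s) *
            (p γ₁ s * (f₀' s * exp (l₀' / s ^ K) *
              ∏ i, uu (h i 0) θ₂ (ξ i s) ^ (γ₀ i : ℕ))) := by
            rw [← e1]; ring
        _ = (p γ₁ s * (f₀ s * exp (l₀ / s ^ K) *
              ∏ i, uu (h i 0) θ₁ (ξ i s) ^ (γ₀ i : ℕ))) *
            ((f₁' s * exp (l₁' / s ^ K) *
              ∏ i, uu (h i 0) θ₂ (ξ i s) ^ (γ₁ i : ℕ)) * p γ₀ s) := by rw [h5, h6]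
        _ = (f₀ s * exp (l₀ / s ^ K)) * (f₁' s * exp (l₁' / s ^ K)) *
            ((∏ i, (-ζ i s) ^ m γ₀ i) * exp (Lm γ₀ / s ^ K) * (∏ i, v i s ^ e' i) *
            ∏ i, uu (h i 0) θ₁ (ξ i s) ^ w i) * (p γ₀ s * p γ₁ s) := by
            rw [← e2]; ring
        _ = _ := by ring
    filter_upwards [hkey] with s hs
    have h8 : exp ((l₁ + l₀' + Lm γ₁ - (l₀ + l₁' + Lm γ₀)) / s ^ K) *
        (exp (l₀ / s ^ K) * exp (l₁' / s ^ K) * exp (Lm γ₀ / s ^ K)) =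
        exp (l₁ / s ^ K) * exp (l₀' / s ^ K) * exp (Lm γ₁ / s ^ K) := by
      simp only [← exp_add]
      congr 1
      ring
    have h9 : exp (l₀ / s ^ K) * exp (l₁' / s ^ K) * exp (Lm γ₀ / s ^ K) ≠ 0 := by
      simp only [← exp_add]
      exact exp_ne_zero _
    refine mul_right_cancel₀ h9 ?_
    calc _ = f₁ s * f₀' s * (∏ i, (-ζ i s) ^ m γ₁ i) *
          (exp ((l₁ + l₀' + Lm γ₁ - (l₀ + l₁' + Lm γ₀)) / s ^ K) *
        (exp (l₀ / s ^ K) * exp (l₁' / s ^ K) * exp (Lm γ₀ / s ^ K))) * ∏ i, v i s ^ e i := by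
          simp only [v]
          ring
      _ = f₁ s * f₀' s * (∏ i, (-ζ i s) ^ m γ₁ i) * exp (l₁ / s ^ K) * exp (l₀' / s ^ K) *
          exp (Lm γ₁ / s ^ K) * ∏ i, v i s ^ e i := by
          rw [h8]; ring
      _ = _ := by
          rw [hs]
          simp only [v]
          ring

end Pool.Agent.Helper94.AXG
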