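import Pool.Agent.Helper94.AXG.C1

/-! # AXG-C9B -/

namespace Pool.Agent.Helper94.AXG

open Complex Filter Topology

/-- the functions `1 + ∑ g_i(s) exp (t_i ϖ / s^K)` with `t_i > 0` and `g_i` of zero type -/
def OP (K : ℕ) (ϖ : ℂ) (f : ℂ → ℂ) : Prop :=
  ∃ (n : ℕ) (g : Fin n → ℂ → ℂ) (t : Fin n → ℝ), (∀ i, Zt K (g i)) ∧ (∀ i, 0 < t i) ∧
    ∀ᶠ s in 𝓝[≠] (0 : ℂ), f s = 1 + ∑ i, g i s * exp (t i * ϖ / s ^ K)

private theorem OP_of {K : ℕ} {ϖ : ℂ} {f : ℂ → ℂ} {ι : Type} [Fintype ι] (g : ι → ℂ → ℂ)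
    (t : ι → ℝ) (hg : ∀ i, Zt K (g i)) (ht : ∀ i, 0 < t i)
    (h : ∀ᶠ s in 𝓝[≠] (0 : ℂ), f s = 1 + ∑ i, g i s * exp (t i * ϖ / s ^ K)) : OP K ϖ f := by
  refine ⟨Fintype.card ι, fun i => g ((Fintype.equivFin ι).symm i),
    fun i => t ((Fintype.equivFin ι).symm i), fun i => hg _, fun i => ht _, ?_⟩
  filter_upwards [h] with s hs
  rw [hs, (Fintype.equivFin ι).symm.sum_comp (fun i => g i s * exp (t i * ϖ / s ^ K))]

/-- AXG-C9b (routine: `(1 + A)(1 + B) = 1 + A + B + AB`) -/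
theorem OP_mul {K : ℕ} (hK : 1 ≤ K) {ϖ : ℂ} {f g : ℂ → ℂ} (hf : OP K ϖ f) (hg : OP K ϖ g) :
    OP K ϖ (fun s => f s * g s) := by
  obtain ⟨n, a, t, ha, ht, hf⟩ := hf
  obtain ⟨m, b, u, hb, hu, hg⟩ := hg
  refine OP_of (ι := Fin n ⊕ (Fin m ⊕ (Fin n × Fin m)))
    (Sum.elim a (Sum.elim b (fun p s => a p.1 s * b p.2 s)))
    (Sum.elim t (Sum.elim u (fun p => t p.1 + u p.2))) ?_ ?_ ?_
  · rintro (i | i | i)
    · exact ha i
    · exact hb i
    · exact Zt_mul (ha i.1) (hb i.2)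
  · rintro (i | i | i)
    · exact ht i
    · exact hu i
    · exact add_pos (ht i.1) (hu i.2)
  · filter_upwards [hf, hg] with s h1 h2
    rw [h1, h2, Fintype.sum_sum_type, Fintype.sum_sum_type, Fintype.sum_prod_type]
    simp only [Sum.elim_inl, Sum.elim_inr]
    have h3 : ∀ (i : Fin n) (j : Fin m), a i s * b j s * exp (((t i + u j : ℝ) : ℂ) * ϖ / s ^ K) =
        (a i s * exp (t i * ϖ / s ^ K)) * (b j s * exp (u j * ϖ / s ^ K)) := by
      intro i j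
      have h4 : ((t i + u j : ℝ) : ℂ) * ϖ / s ^ K = t i * ϖ / s ^ K + u j * ϖ / s ^ K := by
        push_cast
        ring
      rw [h4, exp_add]
      ring
    simp only [h3]
    rw [← Finset.sum_mul_sum]
    ring

private theorem OP_one (K : ℕ) (ϖ : ℂ) : OP K ϖ (fun _ => 1) :=
  ⟨0, fun _ _ => 0, fun _ => 1, fun i => i.elim0, fun i => i.elim0,
    Filter.Eventually.of_forall fun s => by simp⟩

private theorem OP_pow {K : ℕ} (hK : 1 ≤ K) {ϖ : ℂ} {f : ℂ → ℂ} (hf : OP K ϖ f) (n : ℕ) :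
    OP K ϖ (fun s => f s ^ n) := by
  induction n with
  | zero =>
    simp only [pow_zero]
    exact OP_one K ϖ
  | succ n ih =>
    simp only [pow_succ]
    exact OP_mul hK ih hf

/-- AXG-C9c -/
theorem OP_prod_pow {K : ℕ} (hK : 1 ≤ K) {ϖ : ℂ} {T : Type} (S : Finset T) {f : T → ℂ → ℂ} (e : T → ℕ)
    (hf : ∀ i ∈ S, OP K ϖ (f i)) : OP K ϖ (fun s => ∏ i ∈ S, f i s ^ e i) := by
  classical
  induction S using Finset.induction_on with
  | empty =>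
    simp only [Finset.prod_empty]
    exact OP_one K ϖ
  | insert i S hi ih =>
    simp only [Finset.prod_insert hi]
    exact OP_mul hK (OP_pow hK (hf i (Finset.mem_insert_self i S)) (e i))
      (ih fun j hj => hf j (Finset.mem_insert_of_mem hj))

end Pool.Agent.Helper94.AXG
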