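import Pool.Agent.Helper94.AXG.C9
import Pool.Agent.Helper94.AXG.C9B
import Pool.Agent.Helper94.AXG.C1D

/-! # AXG-C9C -/

namespace Pool.Agent.Helper94.AXG

open Complex Filter Topology

private theorem c9c_An_exp (K : ℕ) (l : ℂ) : An (fun s => exp (l / s ^ K)) := by
  unfold An
  filter_upwards [self_mem_nhdsWithin] with s hs
  have hs0 : s ^ K ≠ 0 := pow_ne_zero K hs
  have h1 : AnalyticAt ℂ (fun s : ℂ => l / s ^ K) s :=
    (analyticAt_const (v := l)).fun_div (analyticAt_id.fun_pow K) hs0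
  exact h1.cexp

private theorem c9c_OP_An {K : ℕ} (hK : 1 ≤ K) {ϖ : ℂ} {P : ℂ → ℂ} (hP : OP K ϖ P) : An P := by
  obtain ⟨n, g, t, hg, -, h⟩ := hP
  refine An_congr ?_ h
  refine An_add (Zt_const hK 1).1 ?_
  have h1 : ∀ᶠ s in 𝓝[≠] (0 : ℂ), ∀ i ∈ (Finset.univ : Finset (Fin n)),
      AnalyticAt ℂ (fun s => g i s * exp (t i * ϖ / s ^ K)) s := by
    rw [Filter.eventually_all_finset]
    exact fun i _ => An_mul (hg i).1 (c9c_An_exp K _)
  unfold An
  filter_upwards [h1] with s hs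
  exact Finset.analyticAt_fun_sum _ hs

private theorem c9c_neg {K : ℕ} (hK : 1 ≤ K) {G : ℂ → ℂ} (hG : Zt K G) : Zt K (fun s => -G s) := by
  have h1 := Zt_mul (Zt_const hK (-1)) hG
  refine Zt_congr h1 (Eventually.of_forall fun s => ?_)
  ring

/-- AXG-C9d. Proof. Write `P = 1 + ∑_a f_a exp (t_a ϖ X)`, `Q = 1 + ∑_b g_b exp (t'_b ϖ X)`, `X = s^{-K}`.
`F exp (l X) P - G Q = 0` expands to
`F exp(lX) + ∑ F f_a exp ((l + t_a ϖ) X) - G - ∑ G g_b exp (t'_b ϖ X) = 0`. Apply `li` with the value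
`v = 0`: `[l = 0] F + ∑_{l + t_a ϖ = 0} F f_a - G` is `Ze` (as `t'_b ϖ ≠ 0`); as `G` is not `Ze`, `l = 0`
or `l = -t_a ϖ` for some `a`. With `v = l`: `F + 0 - [l = 0] G - ∑_{t'_b ϖ = l} G g_b` is `Ze`
(`l + t_a ϖ ≠ l`); as `F` is not `Ze`, `l = 0` or `l = t'_b ϖ` for some `b`. So `l = 0` (the real number
`l/ϖ` cannot be both negative and positive) and `v = 0` gives `F = G`. Then `G (P - Q)` is `Ze`, and
`P - Q` is `Ze` by the domain property. -/
theorem unit_eq {K : ℕ} (hK : 1 ≤ K) {ϖ : ℂ} (hϖ : ϖ ≠ 0) {F G P Q : ℂ → ℂ} {l : ℂ} (hF : Zt K F)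
    (hG : Zt K G) (hF0 : ¬ Ze F) (hG0 : ¬ Ze G) (hP : OP K ϖ P) (hQ : OP K ϖ Q)
    (h : ∀ᶠ s in 𝓝[≠] (0 : ℂ), F s * exp (l / s ^ K) * P s = G s * Q s) :
    ∀ᶠ s in 𝓝[≠] (0 : ℂ), P s = Q s := by
  obtain ⟨n, f, t, hf, ht, hPe⟩ := id hP
  obtain ⟨m, g, t', hg, ht', hQe⟩ := id hQ
  -- the index type
  let γ : (Option (Fin n)) ⊕ (Option (Fin m)) → ℂ → ℂ := fun i => match i with
    | .inl none => F
    | .inl (some a) => fun s => F s * f a s
    | .inr none => fun s => -G s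
    | .inr (some b) => fun s => -(G s * g b s)
  let lam : (Option (Fin n)) ⊕ (Option (Fin m)) → ℂ := fun i => match i with
    | .inl none => l
    | .inl (some a) => l + t a * ϖ
    | .inr none => 0
    | .inr (some b) => t' b * ϖ
  have hγ : ∀ i, Zt K (γ i) := by
    rintro ((_ | a) | (_ | b))
    · exact hF
    · exact Zt_mul hF (hf a)
    · exact c9c_neg hK hG
    · exact c9c_neg hK (Zt_mul hG (hg b))
  have hsum : ∀ᶠ s in 𝓝[≠] (0 : ℂ), ∑ i, γ i s * exp (lam i / s ^ K) = 0 := by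
    filter_upwards [h, hPe, hQe] with s h1 h2 h3
    rw [Fintype.sum_sum_type, Fintype.sum_option, Fintype.sum_option]
    change F s * exp (l / s ^ K) + ∑ a, F s * f a s * exp ((l + t a * ϖ) / s ^ K) +
      (-G s * exp (0 / s ^ K) + ∑ b, -(G s * g b s) * exp (t' b * ϖ / s ^ K)) = 0
    have e1 : ∀ a, F s * f a s * exp ((l + t a * ϖ) / s ^ K) =
        F s * exp (l / s ^ K) * (f a s * exp (t a * ϖ / s ^ K)) := by
      intro a
      rw [add_div, exp_add]
      ring
    have e2 : ∀ b, -(G s * g b s) * exp (t' b * ϖ / s ^ K) =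
        -G s * (g b s * exp (t' b * ϖ / s ^ K)) := by
      intro b
      ring
    rw [Finset.sum_congr rfl (fun a _ => e1 a), Finset.sum_congr rfl (fun b _ => e2 b),
      ← Finset.mul_sum, ← Finset.mul_sum, zero_div, exp_zero]
    rw [h2, h3] at h1
    linear_combination h1
  have hli := li hK γ lam hγ hsum
  -- the sums for a value `v`
  have key : ∀ v : ℂ, ∀ᶠ s in 𝓝[≠] (0 : ℂ), (if l = v then F s else 0) +
      (∑ a, if l + t a * ϖ = v then F s * f a s else 0) +
      ((if (0 : ℂ) = v then -G s else 0) + ∑ b, if t' b * ϖ = v then -(G s * g b s) else 0) = 0 := by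
    intro v
    filter_upwards [hli v] with s hs
    rw [Fintype.sum_sum_type, Fintype.sum_option, Fintype.sum_option] at hs
    exact hs
  have hl : l = 0 := by
    by_contra hl0
    have h1 : ∃ a, l + t a * ϖ = 0 := by
      by_contra hno
      push Not at hno
      apply hG0
      show ∀ᶠ s in 𝓝[≠] (0 : ℂ), G s = 0
      filter_upwards [key 0] with s hs
      rw [if_neg hl0, if_pos rfl, Finset.sum_eq_zero (fun a _ => if_neg (hno a)),
        Finset.sum_eq_zero (fun b _ => if_neg ?_)] at hs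
      · linear_combination -hs
      · exact mul_ne_zero (by exact_mod_cast (ht' b).ne') hϖ
    have h2 : ∃ b, t' b * ϖ = l := by
      by_contra hno
      push Not at hno
      apply hF0
      show ∀ᶠ s in 𝓝[≠] (0 : ℂ), F s = 0
      filter_upwards [key l] with s hs
      rw [if_pos rfl, if_neg (Ne.symm hl0), Finset.sum_eq_zero (fun a _ => if_neg ?_),
        Finset.sum_eq_zero (fun b _ => if_neg (hno b))] at hs
      · linear_combination hs
      · intro h3
        have h4 : (t a : ℂ) * ϖ = 0 := by linear_combination h3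
        exact mul_ne_zero (by exact_mod_cast (ht a).ne') hϖ h4
    obtain ⟨a, ha⟩ := h1
    obtain ⟨b, hb⟩ := h2
    have h3 : ((t a + t' b : ℝ) : ℂ) * ϖ = 0 := by
      push_cast
      linear_combination ha + hb
    rcases mul_eq_zero.1 h3 with h4 | h4
    · have h5 : t a + t' b = 0 := by exact_mod_cast h4
      have := ht a
      have := ht' b
      linarith
    · exact hϖ h4
  subst hl
  have hFG : ∀ᶠ s in 𝓝[≠] (0 : ℂ), F s = G s := by
    filter_upwards [key 0] with s hs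
    rw [if_pos rfl, if_pos rfl, Finset.sum_eq_zero (fun a _ => if_neg ?_),
      Finset.sum_eq_zero (fun b _ => if_neg ?_)] at hs
    · linear_combination hs
    · exact mul_ne_zero (by exact_mod_cast (ht' b).ne') hϖ
    · rw [zero_add]
      exact mul_ne_zero (by exact_mod_cast (ht a).ne') hϖ
  have hA : An (fun s => P s - Q s) := by
    have h1 := An_add (c9c_OP_An hK hP) (An_mul (Zt_const hK (-1)).1 (c9c_OP_An hK hQ))
    refine An_congr h1 (Eventually.of_forall fun s => ?_)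
    ring
  have hz : Ze (fun s => G s * (P s - Q s)) := by
    show ∀ᶠ s in 𝓝[≠] (0 : ℂ), G s * (P s - Q s) = 0
    filter_upwards [h, hFG] with s h1 h2
    rw [h2, zero_div, exp_zero] at h1
    linear_combination h1
  rcases An_mul_zero hG.1 hA hz with h1 | h1
  · exact absurd h1 hG0
  · have h2 : ∀ᶠ s in 𝓝[≠] (0 : ℂ), P s - Q s = 0 := h1
    filter_upwards [h2] with s hs
    exact sub_eq_zero.1 hs

/-- AXG-C9e: `1 - e^{2πiσξ}`, `σ = sgr (h 0 / ω) ≠ 0`, is in `OP K (2πiω)`: by `exp_pole`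
`e^{2πiσξ} = ζ exp (2πiσ h(0) X)` and `σ h(0) = |h(0)/ω| ω` -/
theorem OP_one_sub {K : ℕ} (hK : 1 ≤ K) {ξ h : ℂ → ℂ} (hξ : Pl K ξ h) {ω : ℂ} (hω : ω ≠ 0)
    (hσ : sgr (h 0 / ω) ≠ 0) :
    OP K (2 * Real.pi * I * ω) (fun s => 1 - exp (2 * Real.pi * I * (sgr (h 0 / ω) : ℂ) * ξ s)) := by
  obtain ⟨ζ, hζ, -, he⟩ := exp_pole hξ (2 * Real.pi * I * (sgr (h 0 / ω) : ℂ))
  have h0 : h 0 ≠ 0 := hξ.2.1
  obtain ⟨t, ht, hteq⟩ : ∃ t : ℝ, 0 < t ∧ (t : ℂ) * ω = (sgr (h 0 / ω) : ℂ) * h 0 := by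
    obtain ⟨z, hz⟩ : ∃ z, z = h 0 / ω := ⟨_, rfl⟩
    have hh : h 0 = z * ω := by rw [hz, div_mul_cancel₀ _ hω]
    have hz0 : z ≠ 0 := by rw [hz]; exact div_ne_zero h0 hω
    rw [← hz] at hσ ⊢
    unfold sgr at hσ ⊢
    by_cases him : z.im = 0
    · have hzr : z = (z.re : ℂ) := by
        apply Complex.ext
        · rw [ofReal_re]
        · rw [ofReal_im, him]
      rw [if_pos him]
      by_cases hre : 0 < z.re
      · refine ⟨z.re, hre, ?_⟩
        rw [if_pos hre, hh, ← hzr]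
        push_cast
        ring
      · have hne : z.re ≠ 0 := by
          intro h1
          apply hz0
          rw [hzr, h1, ofReal_zero]
        refine ⟨-z.re, by
          have := lt_of_le_of_ne (not_lt.1 hre) hne
          linarith, ?_⟩
        rw [if_neg hre, hh, ofReal_neg, ← hzr]
        push_cast
        ring
    · exact absurd (if_neg him) hσ
  refine ⟨1, fun _ s => -ζ s, fun _ => t, fun _ => c9c_neg hK hζ, fun _ => ht, ?_⟩
  filter_upwards [he] with s hs
  rw [hs, Finset.sum_const, Finset.card_univ, Fintype.card_fin, one_smul]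
  have e : (2 * Real.pi * I * (sgr (h 0 / ω) : ℂ)) * h 0 = (t : ℂ) * (2 * Real.pi * I * ω) := by
    linear_combination -(2 * (Real.pi : ℂ) * I) * hteq
  rw [e]
  ring

end Pool.Agent.Helper94.AXG
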