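import Pool.Agent.Helper94.AXG.C7
import Pool.Agent.Helper94.AXG.C8B
import Pool.Agent.Helper94.AXG.C9C
import Pool.Agent.Helper94.AXG.C10

/-! # AXG-C11: the local Ax-Lindemann theorem -/

namespace Pool.Agent.Helper94.AXG

open Complex Filter Topology

private theorem c11_sgr (z : ℂ) : sgr z = 0 ∨ sgr z = 1 ∨ sgr z = -1 := by
  unfold sgr
  split_ifs
  · exact Or.inr (Or.inl rfl)
  · exact Or.inr (Or.inr rfl)
  · exact Or.inl rfl

/-- the products are in `OP` -/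
private theorem c11_OP {T : Type} [Fintype T] {K : ℕ} (hK : 1 ≤ K) (ξ h : T → ℂ → ℂ)
    (hξ : ∀ i, Pl K (ξ i) (h i)) {ω : ℂ} (hω : ω ≠ 0) (e : T → ℕ)
    (he : ∀ i, sgr (h i 0 / ω) = 0 → e i = 0) :
    OP K (2 * Real.pi * I * ω)
      (fun s => ∏ i, (1 - exp (2 * Real.pi * I * (sgr (h i 0 / ω) : ℂ) * ξ i s)) ^ e i) := by
  have h1 := OP_prod_pow hK (ϖ := 2 * Real.pi * I * ω)
    (Finset.univ.filter fun i : T => sgr (h i 0 / ω) ≠ 0)
    (f := fun i s => 1 - exp (2 * Real.pi * I * (sgr (h i 0 / ω) : ℂ) * ξ i s)) e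
    (fun i hi => OP_one_sub hK (hξ i) hω (Finset.mem_filter.1 hi).2)
  have h2 : (fun s => ∏ i, (1 - exp (2 * Real.pi * I * (sgr (h i 0 / ω) : ℂ) * ξ i s)) ^ e i) =
      fun s => ∏ i ∈ Finset.univ.filter (fun i : T => sgr (h i 0 / ω) ≠ 0),
        (1 - exp (2 * Real.pi * I * (sgr (h i 0 / ω) : ℂ) * ξ i s)) ^ e i := by
    funext s
    symm
    refine Finset.prod_subset (Finset.subset_univ _) fun i _ hi => ?_
    have h3 : sgr (h i 0 / ω) = 0 := by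
      by_contra h4
      exact hi (Finset.mem_filter.2 ⟨Finset.mem_univ i, h4⟩)
    rw [he i h3, pow_zero]
  rw [h2]
  exact h1

open scoped Classical in
/-- AXG-C11. Proof. Zero type functions are in `Ex K`; take the minimal relation `p'` and `γ₀ ≠ γ₁` of
`minrel`, `m i = γ₁ i - γ₀ i`. Given `ω ≠ 0`, `line_rel` gives `F, G, l, e, e'`; by C9e and C9c both
products are in `OP K (2πiω)` (product over the `i` with `σ_i ≠ 0`; the other factors are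
`0^0 = 1`... to be precise `(1 - 1)^0 = 1`), so `unit_eq` gives the equality of the products, `zero_count`
gives `∑_{ξ_i(s) ∈ ℤ} (e_i - e'_i) = 0`, and `e_i - e'_i = -σ_i m_i`. -/
theorem local_AL {T : Type} [Fintype T] [DecidableEq T] {K : ℕ} (hK : 1 ≤ K) (ξ h : T → ℂ → ℂ)
    (hξ : ∀ i, Pl K (ξ i) (h i)) (D : ℕ) (p : (T → Fin (D + 1)) → ℂ → ℂ) (hp : ∀ γ, Zt K (p γ))
    (hrel : Rl ξ D p) (hne : ∃ γ, ¬ Ze (p γ)) :
    ∃ m : T → ℤ, m ≠ 0 ∧ ∀ ω : ℂ, ω ≠ 0 → ∀ᶠ s in 𝓝[≠] (0 : ℂ),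
      ∑ i, (if (∃ n : ℤ, ξ i s = n) then sgr (h i 0 / ω) * m i else 0) = 0 := by
  obtain ⟨p', hp', hrel', ⟨γ₀, γ₁, hγ, h0, h1⟩, hmin⟩ :=
    minrel hK ξ h hξ D p (fun γ => Ex_of_Zt (hp γ)) hrel hne
  refine ⟨fun i => ((γ₁ i : ℕ) : ℤ) - ((γ₀ i : ℕ) : ℤ), fun hm => hγ ?_, fun ω hω => ?_⟩
  · funext i
    have h2 := congrFun hm i
    simp only [Pi.zero_apply] at h2
    exact Fin.ext (by omega)
  · obtain ⟨F, G, l, e, e', hF, hG, hF0, hG0, he, hz, heq⟩ :=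
      line_rel hK ξ h hξ D p' hp' hrel' h0 h1 hmin hω
    have hϖ : (2 * Real.pi * I * ω : ℂ) ≠ 0 := mul_ne_zero Complex.two_pi_I_ne_zero hω
    have h2 := unit_eq hK hϖ hF hG hF0 hG0
      (c11_OP hK ξ h hξ hω e fun i hi => (hz i hi).1)
      (c11_OP hK ξ h hξ hω e' fun i hi => (hz i hi).2) heq
    have h3 := zero_count hK ξ h hξ (fun i => sgr (h i 0 / ω)) (fun i => c11_sgr _) e e' hz h2
    filter_upwards [h3] with s hs
    have h4 : ∑ i, (if (∃ n : ℤ, ξ i s = n) then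
        sgr (h i 0 / ω) * (((γ₁ i : ℕ) : ℤ) - ((γ₀ i : ℕ) : ℤ)) else 0) =
        -∑ i, (if (∃ n : ℤ, ξ i s = n) then (e i : ℤ) - e' i else 0) := by
      rw [← Finset.sum_neg_distrib]
      refine Finset.sum_congr rfl fun i _ => ?_
      by_cases hn : ∃ n : ℤ, ξ i s = n
      · rw [if_pos hn, if_pos hn, he i]
        ring
      · rw [if_neg hn, if_neg hn, neg_zero]
    rw [h4, hs, neg_zero]

end Pool.Agent.Helper94.AXG
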