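import Pool.Agent.Helper94.AXG.E1

/-! # AXG-E1C -/

namespace Pool.Agent.Helper94.AXG

open Complex Filter Topology

private theorem E1C_poly (p : Polynomial ℂ) :
    ∃ (C : ℝ) (N : ℕ), 0 ≤ C ∧ ∀ t : ℂ, ‖p.eval t‖ ≤ C * (1 + ‖t‖) ^ N := by
  refine ⟨∑ i ∈ Finset.range (p.natDegree + 1), ‖p.coeff i‖, p.natDegree,
    Finset.sum_nonneg fun _ _ => norm_nonneg _, fun t => ?_⟩
  rw [Polynomial.eval_eq_sum_range, Finset.sum_mul]
  refine (norm_sum_le _ _).trans (Finset.sum_le_sum fun i hi => ?_)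
  rw [norm_mul, norm_pow]
  refine mul_le_mul_of_nonneg_left ?_ (norm_nonneg _)
  have h0 := norm_nonneg t
  calc ‖t‖ ^ i ≤ (1 + ‖t‖) ^ i := by
        exact pow_le_pow_left₀ h0 (by linarith) i
    _ ≤ (1 + ‖t‖) ^ p.natDegree := pow_le_pow_right₀ (by linarith)
        (Nat.lt_succ_iff.1 (Finset.mem_range.1 hi))

/-- AXG-E1d: the Cauchy bound: `‖y‖ ≤ 1 + ∑ ‖coefficients‖` for a root of a monic polynomial, and the
coefficients are polynomials in `t` -/
theorem root_bound {M : Polynomial (Polynomial ℂ)} (hM : M.Monic) :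
    ∃ (C : ℝ) (N : ℕ), ∀ t y, ev2 M t y = 0 → ‖y‖ ≤ C * (1 + ‖t‖) ^ N := by
  choose C N hC hN using fun i => E1C_poly (M.coeff i)
  refine ⟨1 + ∑ i ∈ Finset.range M.natDegree, C i, ∑ i ∈ Finset.range M.natDegree, N i,
    fun t y h => ?_⟩
  set p := M.map (Polynomial.evalRingHom t) with hp
  have hpm : p.Monic := hM.map _
  have hpd : p.natDegree = M.natDegree := hM.natDegree_map _
  have hroot : p.eval y = 0 := h
  set X : ℝ := 1 + ‖t‖ with hX
  have hX1 : 1 ≤ X := by
    have := norm_nonneg t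
    linarith
  set T := ∑ i ∈ Finset.range M.natDegree, N i with hT
  have hXT : 1 ≤ X ^ T := one_le_pow₀ hX1
  have hcoef : ∀ i ∈ Finset.range M.natDegree, ‖p.coeff i‖ ≤ C i * X ^ T := by
    intro i hi
    rw [hp, Polynomial.coeff_map, Polynomial.coe_evalRingHom]
    refine (hN i t).trans (mul_le_mul_of_nonneg_left ?_ (hC i))
    exact pow_le_pow_right₀ hX1 (Finset.single_le_sum (fun _ _ => Nat.zero_le _) hi)
  -- the bound
  by_cases hy : ‖y‖ ≤ 1
  · have h1 : 0 ≤ ∑ i ∈ Finset.range M.natDegree, C i := Finset.sum_nonneg fun i _ => hC i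
    nlinarith
  push Not at hy
  have hn : M.natDegree ≠ 0 := by
    intro h0
    have h1 : p = 1 := by
      apply Polynomial.eq_one_of_monic_natDegree_zero hpm
      rw [hpd, h0]
    rw [h1, Polynomial.eval_one] at hroot
    exact one_ne_zero hroot
  obtain ⟨n, hn'⟩ := Nat.exists_eq_succ_of_ne_zero hn
  have h1 : y ^ M.natDegree = -∑ i ∈ Finset.range M.natDegree, p.coeff i * y ^ i := by
    have h2 := hroot
    rw [Polynomial.eval_eq_sum_range, hpd, Finset.sum_range_succ] at h2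
    have h3 : p.coeff M.natDegree = 1 := by
      rw [← hpd]
      exact hpm
    rw [h3, one_mul] at h2
    linear_combination h2
  have h2 : ‖y‖ ^ (n + 1) ≤ (∑ i ∈ Finset.range M.natDegree, ‖p.coeff i‖) * ‖y‖ ^ n := by
    have h3 : ‖y‖ ^ (n + 1) = ‖y ^ M.natDegree‖ := by rw [norm_pow, hn']
    rw [h3, h1, norm_neg, Finset.sum_mul]
    refine (norm_sum_le _ _).trans (Finset.sum_le_sum fun i hi => ?_)
    rw [norm_mul, norm_pow]
    refine mul_le_mul_of_nonneg_left ?_ (norm_nonneg _)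
    have h4 := Finset.mem_range.1 hi
    exact pow_le_pow_right₀ hy.le (by omega)
  have h3 : 0 < ‖y‖ ^ n := by positivity
  have h4 : ‖y‖ ≤ ∑ i ∈ Finset.range M.natDegree, ‖p.coeff i‖ := by
    rw [pow_succ, mul_comm] at h2
    exact le_of_mul_le_mul_right h2 h3
  have h5 : ∑ i ∈ Finset.range M.natDegree, ‖p.coeff i‖ ≤
      (∑ i ∈ Finset.range M.natDegree, C i) * X ^ T := by
    rw [Finset.sum_mul]
    exact Finset.sum_le_sum hcoef
  nlinarith

end Pool.Agent.Helper94.AXG
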