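import Pool.Agent.Helper94.AXG.EDefs

/-! # AXG-E2B -/

namespace Pool.Agent.Helper94.AXG

open Complex Filter Topology Polynomial

private theorem iteratedDeriv_zero_of_growth {f : ℂ → ℂ} (hf : Differentiable ℂ f) {B : ℝ} {N : ℕ}
    (hg : ∀ t, ‖f t‖ ≤ B * (1 + ‖t‖) ^ N) {n : ℕ} (hn : N < n) : iteratedDeriv n f 0 = 0 := by
  have hB : 0 ≤ B := by
    have := (norm_nonneg (f 0)).trans (hg 0)
    simpa using this
  have hb : ∀ R : ℝ, 1 ≤ R → ‖iteratedDeriv n f 0‖ * R ≤ n.factorial * (B * 2 ^ N) := by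
    intro R hR
    have hR0 : 0 < R := by linarith
    have h1 := Complex.norm_iteratedDeriv_le_of_forall_mem_sphere_norm_le (c := 0) (R := R)
      (C := B * (2 * R) ^ N) (f := f) n hR0 hf.diffContOnCl (by
        intro z hz
        have hz' : ‖z‖ = R := by simpa using hz
        refine (hg z).trans ?_
        rw [hz']
        gcongr
        linarith)
    have h2 : (n.factorial : ℝ) * (B * (2 * R) ^ N) / R ^ n * R ≤ n.factorial * (B * 2 ^ N) := by
      obtain ⟨k, rfl⟩ : ∃ k, n = N + 1 + k := ⟨n - (N + 1), by omega⟩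
      have hk : (1 : ℝ) ≤ R ^ k := one_le_pow₀ hR
      have e : ((N + 1 + k).factorial : ℝ) * (B * (2 * R) ^ N) / R ^ (N + 1 + k) * R
          = ((N + 1 + k).factorial * (B * 2 ^ N)) / R ^ k := by
        field_simp
        ring
      rw [e]
      exact div_le_self (by positivity) hk
    calc ‖iteratedDeriv n f 0‖ * R ≤ (n.factorial * (B * (2 * R) ^ N) / R ^ n) * R := by
          gcongr
      _ ≤ _ := h2
  by_contra hne
  have hpos : 0 < ‖iteratedDeriv n f 0‖ := norm_pos_iff.mpr hne
  set K : ℝ := n.factorial * (B * 2 ^ N) with hK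
  have hK0 : 0 ≤ K := by positivity
  have := hb (1 + (K + 1) / ‖iteratedDeriv n f 0‖) (by
    have : 0 ≤ (K + 1) / ‖iteratedDeriv n f 0‖ := by positivity
    linarith)
  rw [mul_add, mul_one, mul_div_cancel₀ _ hpos.ne'] at this
  linarith

private theorem entire_poly {f : ℂ → ℂ} (hf : Differentiable ℂ f) {B : ℝ} {N : ℕ}
    (hg : ∀ t, ‖f t‖ ≤ B * (1 + ‖t‖) ^ N) : ∃ P : Polynomial ℂ, ∀ t, f t = P.eval t := by
  refine ⟨∑ n ∈ Finset.range (N + 1),
    Polynomial.C ((n.factorial : ℂ)⁻¹ * iteratedDeriv n f 0) * Polynomial.X ^ n, fun t => ?_⟩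
  rw [← Complex.taylorSeries_eq_of_entire' 0 t hf, tsum_eq_sum (s := Finset.range (N + 1))]
  · rw [Polynomial.eval_finset_sum]
    refine Finset.sum_congr rfl fun n _ => ?_
    simp
  · intro n hn
    rw [Finset.mem_range, not_lt] at hn
    rw [iteratedDeriv_zero_of_growth hf hg (by omega : N < n)]
    simp

/-- AXG-E2c: an analytic function on `ℂ ∖ S` of polynomial growth is a polynomial. Proof. The bound holds
near the points of `S` too, so `f` extends to an entire function (removable singularities, for instance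
`Complex.differentiableOn_update_limUnder_of_bddAbove`, one point of `S` after the other), and an entire
function with `‖f t‖ ≤ C (1 + ‖t‖)^N` is a polynomial of degree `≤ N` (Cauchy estimates for the
derivatives of order `> N`, or Liouville and induction on `N` with `(f(t) - f(0))/t`). -/
theorem poly_of_growth {S : Finset ℂ} {f : ℂ → ℂ} (hf : ∀ t, t ∉ S → AnalyticAt ℂ f t) {B : ℝ} {N : ℕ}
    (hg : ∀ t, t ∉ S → ‖f t‖ ≤ B * (1 + ‖t‖) ^ N) : ∃ P : Polynomial ℂ, ∀ t, t ∉ S → f t = P.eval t := by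
  classical
  have hB : 0 ≤ B := by
    obtain ⟨t, ht⟩ := Infinite.exists_notMem_finset S
    have h1 := (norm_nonneg (f t)).trans (hg t ht)
    have h2 : 0 < (1 + ‖t‖) ^ N := by positivity
    exact nonneg_of_mul_nonneg_left h1 h2
  set Q : Polynomial ℂ := ∏ s ∈ S, (Polynomial.X - Polynomial.C s) with hQ
  have hQe : ∀ t, Q.eval t = ∏ s ∈ S, (t - s) := by
    intro t
    rw [hQ, Polynomial.eval_prod]
    simp
  set h : ℂ → ℂ := fun t => if t ∈ S then 0 else Q.eval t * f t with hh
  have hoff : ∀ t, t ∉ S → ∀ᶠ z in 𝓝 t, z ∉ S := by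
    intro t ht
    exact (S.finite_toSet.isClosed.isOpen_compl).mem_nhds (by simpa using ht)
  have hdoff : ∀ t, t ∉ S → DifferentiableAt ℂ h t := by
    intro t ht
    have h1 : DifferentiableAt ℂ (fun z => Q.eval z * f z) t :=
      Q.differentiable.differentiableAt.mul (hf t ht).differentiableAt
    refine h1.congr_of_eventuallyEq ?_
    filter_upwards [hoff t ht] with z hz
    simp [hh, hz]
  have hbound : ∀ t, ‖h t‖ ≤ ‖Q.eval t‖ * (B * (1 + ‖t‖) ^ N) := by
    intro t
    by_cases ht : t ∈ S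
    · simp only [hh, ht, if_true, norm_zero]
      positivity
    · simp only [hh, ht, if_false, norm_mul]
      exact mul_le_mul_of_nonneg_left (hg t ht) (norm_nonneg _)
  have hdiff : Differentiable ℂ h := by
    intro t
    by_cases ht : t ∈ S
    · have hQ0 : Q.eval t = 0 := by
        rw [hQe]
        exact Finset.prod_eq_zero ht (sub_self t)
      have hev : ∀ᶠ z in 𝓝[≠] t, DifferentiableAt ℂ h z := by
        have hfin : ∀ᶠ z in 𝓝 t, z ∉ S.erase t :=
          ((S.erase t).finite_toSet.isClosed.isOpen_compl).mem_nhds (by simp)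
        have hfin' : ∀ᶠ z in 𝓝[≠] t, z ∉ S.erase t := hfin.filter_mono nhdsWithin_le_nhds
        filter_upwards [hfin', self_mem_nhdsWithin] with z hz hz'
        apply hdoff
        intro hzS
        exact hz (Finset.mem_erase.mpr ⟨hz', hzS⟩)
      have hcont : ContinuousAt h t := by
        have hht : h t = 0 := by simp [hh, ht]
        rw [ContinuousAt, hht]
        refine squeeze_zero_norm hbound ?_
        have hc : Continuous fun z : ℂ => ‖Q.eval z‖ * (B * (1 + ‖z‖) ^ N) := by
          have := Q.continuous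
          fun_prop
        have := hc.tendsto t
        simpa [hQ0] using this
      exact (Complex.analyticAt_of_differentiable_on_punctured_nhds_of_continuousAt hev hcont).differentiableAt
    · exact hdoff t ht
  have hQg : ∀ t, ‖Q.eval t‖ ≤ (∏ s ∈ S, (1 + ‖s‖)) * (1 + ‖t‖) ^ S.card := by
    intro t
    rw [hQe, norm_prod, ← Finset.prod_const, ← Finset.prod_mul_distrib]
    refine Finset.prod_le_prod (fun _ _ => norm_nonneg _) fun s _ => ?_
    refine (norm_sub_le t s).trans ?_
    nlinarith [norm_nonneg t, norm_nonneg s, mul_nonneg (norm_nonneg t) (norm_nonneg s)]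
  have hgrow : ∀ t, ‖h t‖ ≤ ((∏ s ∈ S, (1 + ‖s‖)) * B) * (1 + ‖t‖) ^ (S.card + N) := by
    intro t
    refine (hbound t).trans ?_
    calc ‖Q.eval t‖ * (B * (1 + ‖t‖) ^ N)
        ≤ ((∏ s ∈ S, (1 + ‖s‖)) * (1 + ‖t‖) ^ S.card) * (B * (1 + ‖t‖) ^ N) := by
          have := hQg t
          gcongr
      _ = _ := by rw [pow_add]; ring
  obtain ⟨H, hH⟩ := entire_poly hdiff hgrow
  have hdvd : Q ∣ H := by
    rw [hQ]
    refine Finset.prod_dvd_of_coprime ?_ ?_
    · intro a _ b _ hab
      exact Polynomial.pairwise_coprime_X_sub_C Function.injective_id hab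
    · intro s hs
      rw [Polynomial.dvd_iff_isRoot, Polynomial.IsRoot, ← hH s]
      simp [hh, hs]
  obtain ⟨P, hP⟩ := hdvd
  refine ⟨P, fun t ht => ?_⟩
  have h1 : Q.eval t ≠ 0 := by
    rw [hQe]
    refine Finset.prod_ne_zero_iff.mpr fun s hs => ?_
    intro h0
    exact ht (by rwa [sub_eq_zero.mp h0])
  have h2 := hH t
  simp only [hh, ht, if_false, hP, Polynomial.eval_mul] at h2
  exact mul_left_cancel₀ h1 h2

end Pool.Agent.Helper94.AXG
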