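import Pool.Agent.Helper94.AXG.E2
import Pool.Agent.Helper94.AXG.E2B

/-! # AXG-E2C -/

namespace Pool.Agent.Helper94.AXG

open Complex Filter Topology Polynomial

private theorem E2C_bound (s : Finset ℂ) (v : ℂ → ℂ) :
    ∀ i : ℕ, ‖(∏ y ∈ s, (X - C (v y))).coeff i‖ ≤ ∏ y ∈ s, (1 + ‖v y‖) := by
  classical
  induction s using Finset.induction_on with
  | empty =>
    intro i
    rw [Finset.prod_empty, Finset.prod_empty, coeff_one]
    split_ifs <;> simp
  | insert a s ha ih =>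
    intro i
    rw [Finset.prod_insert ha, Finset.prod_insert ha, sub_mul, coeff_sub, coeff_C_mul, add_mul,
      one_mul]
    refine (norm_sub_le _ _).trans (add_le_add ?_ ?_)
    · rcases i with _ | i
      · rw [coeff_X_mul_zero, norm_zero]
        exact Finset.prod_nonneg fun y _ => by positivity
      · rw [coeff_X_mul]
        exact ih i
    · rw [norm_mul]
      exact mul_le_mul_of_nonneg_left (ih i) (norm_nonneg _)

/-- AXG-E2d: the coefficients of the product are bounded by `(1 + max ‖v‖)^card`, `v` of polynomial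
growth; with E2a, E2c -/
theorem sym_poly {S : Finset ℂ} {W : ℂ → Finset ℂ} (hW : Loc S W) (v : ℂ × ℂ → ℂ)
    (hv : ∀ t, t ∉ S → ∀ y ∈ W t, AnalyticAt ℂ v (t, y)) {B : ℝ} {N : ℕ}
    (hg : ∀ t, t ∉ S → ∀ y ∈ W t, ‖v (t, y)‖ ≤ B * (1 + ‖t‖) ^ N) (i : ℕ) :
    ∃ P : Polynomial ℂ, ∀ t, t ∉ S → (∏ y ∈ W t, (X - C (v (t, y)))).coeff i = P.eval t := by
  obtain ⟨n, hn⟩ := card_const hW
  refine poly_of_growth (B := (1 + |B|) ^ n) (N := N * n) (sym_analytic hW v hv i) ?_
  intro t ht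
  refine (E2C_bound (W t) (fun y => v (t, y)) i).trans ?_
  have h1 : (1 : ℝ) ≤ (1 + ‖t‖) ^ N := one_le_pow₀ (by linarith [norm_nonneg t])
  have h2 : ∀ y ∈ W t, 1 + ‖v (t, y)‖ ≤ (1 + |B|) * (1 + ‖t‖) ^ N := by
    intro y hy
    have h3 : ‖v (t, y)‖ ≤ |B| * (1 + ‖t‖) ^ N :=
      (hg t ht y hy).trans (mul_le_mul_of_nonneg_right (le_abs_self B) (by positivity))
    linarith
  refine (Finset.prod_le_prod (fun y _ => by positivity) h2).trans ?_
  rw [Finset.prod_const, hn t ht, mul_pow, ← pow_mul]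

end Pool.Agent.Helper94.AXG
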