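import Pool.Agent.Helper94.AXG.E3
import Pool.Agent.Helper94.AXG.E2C
import Pool.Agent.Helper94.AXG.E1C

/-! # AXG-E3B -/

namespace Pool.Agent.Helper94.AXG

open Complex Filter Topology Polynomial

/-- AXG-E3b. Proof. Let `W` be as in E3a. `W t₂` contains `η t₂` (the points of the curve near `(t₂, η t₂)`
are the `(t, η t)`, by `implicit_root`), so `card W = n ≥ 1` is constant (E2b). By E2d with `v(t, y) = y`
(`root_bound`) there is a polynomial `P ∈ ℂ[t][Y]`, monic of degree `n`, with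
`P(t, ·) = ∏_{y ∈ W t} (Y - y)` for `t ∉ S`. Divide: `M = P Q + R₀` with `deg R₀ < n` (`P` monic). For
`t ∉ S` the polynomial `P(t, ·)` divides `M(t, ·)` (distinct roots), so `R₀(t, ·) = 0` for all `t ∉ S` and
`R₀ = 0`. As `M` is irreducible and `P` is monic of degree `≥ 1`, `Q` is a unit, and `deg P = deg M`. So
`W t` is the set of all roots of `M(t, ·)`. -/
theorem all_branches {k : ℕ} (c : Crv k) (G : ℂ × ℂ → ℂ)
    (hG : ∀ z : ℂ × ℂ, z.1 ∉ c.S → AnalyticAt ℂ G z) {t₂ : ℂ} (ht : t₂ ∉ c.S) {η : ℂ → ℂ}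
    (hη : AnalyticAt ℂ η t₂) (hM : ∀ᶠ t in 𝓝 t₂, ev2 c.M t (η t) = 0)
    (h0 : ∀ᶠ t in 𝓝 t₂, G (t, η t) = 0) : ∀ t y, c.Pt t y → G (t, y) = 0 := by
  classical
  obtain ⟨W, hWL, hW⟩ := loc_W c G hG
  -- the value at `t₂` is in `W t₂`
  have hr : ev2 c.M t₂ (η t₂) = 0 := hM.self_of_nhds
  have hmem : η t₂ ∈ W t₂ := by
    rw [hW t₂ ht]
    refine ⟨hr, ?_⟩
    obtain ⟨η', _, _, _, h4⟩ := implicit_root hr (c.hS t₂ ht _ hr)
    have hc : Tendsto (fun t => (t, η t)) (𝓝 t₂) (𝓝 (t₂, η t₂)) :=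
      continuousAt_id.prodMk hη.continuousAt
    have h5 : ∀ᶠ t in 𝓝 t₂, η t = η' t := by
      filter_upwards [hc.eventually h4, hM] with t h6 h7
      exact h6 h7
    have h6 : ∀ᶠ z : ℂ × ℂ in 𝓝 (t₂, η t₂), η z.1 = η' z.1 ∧ G (z.1, η z.1) = 0 :=
      (continuous_fst.tendsto (t₂, η t₂)).eventually (h5.and h0)
    filter_upwards [h4, h6] with z h7 h8 h9
    have h10 : z = (z.1, η z.1) := by rw [h8.1, ← h7 h9]
    rw [h10]
    exact h8.2
  obtain ⟨n, hn⟩ := card_const hWL
  have hn0 : n ≠ 0 := by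
    rw [← hn t₂ ht]
    exact Finset.card_ne_zero.2 ⟨_, hmem⟩
  obtain ⟨C₀, N, hCN⟩ := root_bound c.monic
  have hco := fun i => sym_poly hWL (fun z => z.2) (fun t _ y _ => analyticAt_snd)
    (fun t ht' y hy => hCN t y ((hW t ht' y).1 hy).1) i
  choose P hP using hco
  -- the monic polynomial with the roots `W t`
  obtain ⟨PP, hPP⟩ : ∃ PP : Polynomial (Polynomial ℂ),
      PP = (∑ i ∈ Finset.range n, C (P i) * X ^ i) + X ^ n := ⟨_, rfl⟩
  have hlow : (∑ i ∈ Finset.range n, C (P i) * X ^ i : Polynomial (Polynomial ℂ)).degree <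
      (n : WithBot ℕ) := by
    rw [degree_lt_iff_coeff_zero]
    intro m hm
    rw [finsetSum_coeff]
    refine Finset.sum_eq_zero fun i hi => ?_
    have h1 := Finset.mem_range.1 hi
    rw [coeff_C_mul, coeff_X_pow, if_neg (by omega), mul_zero]
  have hcoeff : ∀ i, PP.coeff i = if i < n then P i else if i = n then 1 else 0 := by
    intro i
    rw [hPP, coeff_add, finsetSum_coeff]
    simp only [coeff_C_mul, coeff_X_pow, mul_ite, mul_one, mul_zero]
    rw [Finset.sum_ite_eq]
    simp only [Finset.mem_range]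
    split_ifs with h1 h2 <;> first | omega | simp
  have hmon : PP.Monic := by
    rw [hPP, add_comm]
    exact monic_X_pow_add hlow
  have hdeg : PP.natDegree = n := by
    rw [hPP, add_comm]
    refine natDegree_eq_of_degree_eq_some ?_
    rw [degree_add_eq_left_of_degree_lt (by rw [degree_X_pow]; exact hlow), degree_X_pow]
  have hprod : ∀ t, t ∉ c.S → PP.map (evalRingHom t) = ∏ y ∈ W t, (X - C y) := by
    intro t ht'
    have h1 : (∏ y ∈ W t, (X - C y) : Polynomial ℂ).Monic :=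
      monic_prod_of_monic _ _ (fun y _ => monic_X_sub_C y)
    have h2 : (∏ y ∈ W t, (X - C y) : Polynomial ℂ).natDegree = n := by
      rw [natDegree_prod_of_monic _ _ (fun y _ => monic_X_sub_C y)]
      simp [hn t ht']
    ext i
    rw [coeff_map, hcoeff, coe_evalRingHom]
    split_ifs with h3 h4
    · exact (hP i t ht').symm
    · rw [eval_one, h4, ← h2]
      exact h1.symm
    · rw [eval_zero, coeff_eq_zero_of_natDegree_lt]
      rw [h2]
      omega
  have hdvd : ∀ t, t ∉ c.S → PP.map (evalRingHom t) ∣ c.M.map (evalRingHom t) := by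
    intro t ht'
    rw [hprod t ht']
    refine Finset.prod_dvd_of_coprime ?_ ?_
    · intro a _ b _ hab
      exact pairwise_coprime_X_sub_C Function.injective_id hab
    · intro y hy
      rw [dvd_iff_isRoot]
      exact ((hW t ht' y).1 hy).1
  have hR : c.M %ₘ PP = 0 := by
    ext1 i
    rw [coeff_zero]
    refine eq_zero_of_infinite_isRoot _ ?_
    refine Set.Infinite.mono ?_ (Set.Finite.infinite_compl c.S.finite_toSet)
    intro t ht'
    have ht'' : t ∉ c.S := by simpa using ht'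
    have h1 : (c.M %ₘ PP).map (evalRingHom t) = 0 := by
      rw [map_modByMonic _ hmon]
      exact (modByMonic_eq_zero_iff_dvd (hmon.map _)).2 (hdvd t ht'')
    have h2 := congrArg (fun q : Polynomial ℂ => q.coeff i) h1
    simpa [coeff_map] using h2
  have hMP : c.M = PP := by
    obtain ⟨Q, hQ⟩ := (modByMonic_eq_zero_iff_dvd hmon).1 hR
    have h1 : Q.Monic := hmon.of_mul_monic_left (by rw [← hQ]; exact c.monic)
    rcases c.irr.isUnit_or_isUnit hQ with h2 | h2
    · exact absurd (hdeg.symm.trans (natDegree_eq_zero_of_isUnit h2)) hn0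
    · rw [hQ, (h1.isUnit_iff).1 h2, mul_one]
  rintro t y ⟨ht', hy⟩
  have h1 : y ∈ W t := by
    have h2 : (PP.map (evalRingHom t)).eval y = 0 := by
      rw [← hMP]
      exact hy
    rw [hprod t ht', eval_prod, Finset.prod_eq_zero_iff] at h2
    obtain ⟨y', hy', h3⟩ := h2
    rw [eval_sub, eval_X, eval_C, sub_eq_zero] at h3
    rw [h3]
    exact hy'
  exact ((hW t ht' y).1 h1).2.self_of_nhds hy

end Pool.Agent.Helper94.AXG
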