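import Pool.Agent.Helper94.AXG.E6
import Pool.Agent.Helper94.AXG.E3B

/-! # AXG-E6C -/

namespace Pool.Agent.Helper94.AXG

open Complex Filter Topology

/-- AXG-E6c: a relation which holds along one branch at infinity holds on the whole curve. Proof. Take a
small `s₁ ≠ 0`, `t₂ = 1/s₁^e`; `t ↦ s` with `s^{-e} = t`, `s(t₂) = s₁` is an analytic local inverse
(derivative of `s ↦ 1/s^e` at `s₁` is nonzero); `η(t) = g_l(s(t))/s(t)^N`; `all_branches`. -/
theorem branch_all {k : ℕ} (c : Crv k) {e N : ℕ} {g : Fin c.M.natDegree → ℂ → ℂ} (hP : Puis c e N g)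
    (l : Fin c.M.natDegree) (G : ℂ × ℂ → ℂ) (hG : ∀ z : ℂ × ℂ, z.1 ∉ c.S → AnalyticAt ℂ G z)
    (h0 : ∀ᶠ s in 𝓝[≠] (0 : ℂ), G (1 / s ^ e, g l s / s ^ N) = 0) :
    ∀ t y, c.Pt t y → G (t, y) = 0 := by
  obtain ⟨he, hg, hev⟩ := hP
  have hg' : ∀ᶠ s in 𝓝[≠] (0 : ℂ), AnalyticAt ℂ (g l) s :=
    (hg l).eventually_analyticAt.filter_mono nhdsWithin_le_nhds
  have hne : ∀ᶠ s in 𝓝[≠] (0 : ℂ), s ≠ 0 := eventually_mem_nhdsWithin
  obtain ⟨s₁, h1, h2, h3, h4⟩ :=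
    ((eventually_eventually_nhdsWithin.2 hev).and ((eventually_eventually_nhdsWithin.2 h0).and
      (hg'.and hne))).exists
  have hopen : IsOpen ({0}ᶜ : Set ℂ) := isOpen_compl_singleton
  rw [hopen.nhdsWithin_eq h4] at h1 h2
  have hs1e : s₁ ^ e ≠ 0 := pow_ne_zero _ h4
  have hs1N : s₁ ^ N ≠ 0 := pow_ne_zero _ h4
  set t₂ : ℂ := 1 / s₁ ^ e with ht₂
  have ht0 : t₂ ≠ 0 := one_div_ne_zero hs1e
  let σ : ℂ → ℂ := fun t => s₁ * exp (-(log (t / t₂)) / e)
  have hσ2 : σ t₂ = s₁ := by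
    simp only [σ]
    rw [div_self ht0, log_one, neg_zero, zero_div, exp_zero, mul_one]
  have he0 : (e : ℂ) ≠ 0 := by
    exact_mod_cast (by omega : e ≠ 0)
  have hσe : ∀ t : ℂ, t ≠ 0 → 1 / σ t ^ e = t := by
    intro t ht
    have h5 : exp (-(log (t / t₂)) / e) ^ e = (t / t₂)⁻¹ := by
      rw [← Complex.exp_nat_mul, mul_div_cancel₀ _ he0, Complex.exp_neg, Complex.exp_log]
      exact div_ne_zero ht ht0
    simp only [σ]
    rw [mul_pow, h5, ht₂]
    field_simp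
  have hσa : AnalyticAt ℂ σ t₂ := by
    have h6 : AnalyticAt ℂ (fun t : ℂ => log (t / t₂)) t₂ := by
      apply AnalyticAt.clog
      · exact analyticAt_id.div_const
      · rw [div_self ht0]; exact one_mem_slitPlane
    have h7 : AnalyticAt ℂ (fun t : ℂ => exp (-(log (t / t₂)) / e)) t₂ :=
      (h6.neg.div_const).cexp
    exact analyticAt_const.mul h7
  have hσc : Tendsto σ (𝓝 t₂) (𝓝 s₁) := by
    have := hσa.continuousAt.tendsto
    rwa [hσ2] at this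
  have htne : ∀ᶠ t in 𝓝 t₂, t ≠ 0 := isOpen_compl_singleton.eventually_mem ht0
  refine all_branches c G hG (t₂ := t₂) (η := fun t => g l (σ t) / σ t ^ N) h1.self_of_nhds.1 ?_ ?_ ?_
  · refine AnalyticAt.div ?_ (hσa.pow N) ?_
    · exact AnalyticAt.fun_comp (by rw [hσ2]; exact h3) hσa
    · rw [hσ2]; exact hs1N
  · filter_upwards [hσc.eventually h1, htne] with t ha hb
    have hc := (ha.2.2 (g l (σ t) / σ t ^ N)).2 ⟨l, rfl⟩
    rwa [hσe t hb] at hc
  · filter_upwards [hσc.eventually h2, htne] with t ha hb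
    rwa [hσe t hb] at ha

end Pool.Agent.Helper94.AXG
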