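import Pool.Agent.Helper94.AXG.E6B
import Pool.Agent.Helper94.AXG.E6C
import Pool.Agent.Helper94.AXG.E2C
import Pool.Agent.Helper94.AXG.E1C

/-! # AXG-E6D -/

namespace Pool.Agent.Helper94.AXG

open Complex Filter Topology

private theorem E6D_X_analytic {k : ℕ} (c : Crv k) (j : Fin k) (z : ℂ × ℂ) (hz : z.1 ∉ c.S) :
    AnalyticAt ℂ (fun z : ℂ × ℂ => c.X j z.1 z.2) z := by
  have h1 : AnalyticAt ℂ (fun z : ℂ × ℂ => c.D.eval z.1) z :=
    AnalyticAt.comp (g := fun t : ℂ => c.D.eval t) (f := fun z : ℂ × ℂ => z.1)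
      (AnalyticOnNhd.eval_polynomial c.D z.1 (Set.mem_univ _)) analyticAt_fst
  exact (ev2_analytic (c.R j) z).fun_div h1 (c.hD _ hz)

private theorem E6D_bdd {k : ℕ} (c : Crv k) {e N : ℕ} {g : Fin c.M.natDegree → ℂ → ℂ}
    (hP : Puis c e N g) (j : Fin k)
    (hno : ∀ (l : Fin c.M.natDegree) (K : ℕ) (h : ℂ → ℂ), 1 ≤ K →
      ¬ Pl K (fun s => c.X j (1 / s ^ e) (g l s / s ^ N)) h) :
    ∃ B R : ℝ, ∀ t : ℂ, R < ‖t‖ → t ∉ c.S ∧ ∀ y, ev2 c.M t y = 0 → ‖c.X j t y‖ ≤ B := by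
  have h1 : ∀ l : Fin c.M.natDegree, ∃ B : ℝ, ∀ᶠ s in 𝓝[≠] (0 : ℂ),
      ‖c.X j (1 / s ^ e) (g l s / s ^ N)‖ ≤ B := by
    intro l
    rcases X_form c hP j l with ⟨K, hK, h, hh⟩ | ⟨h, hh, he⟩
    · exact absurd hh (hno l K h hK)
    · refine ⟨‖h 0‖ + 1, ?_⟩
      have h2 : ∀ᶠ s in 𝓝 (0 : ℂ), ‖h s‖ < ‖h 0‖ + 1 :=
        hh.continuousAt.norm.eventually_lt_const (lt_add_one _)
      filter_upwards [he, h2.filter_mono nhdsWithin_le_nhds] with s hs1 hs2
      rw [hs1]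
      exact hs2.le
  choose B hB using h1
  have h3 : ∀ᶠ s in 𝓝[≠] (0 : ℂ), (1 / s ^ e ∉ c.S ∧ ∀ y, ev2 c.M (1 / s ^ e) y = 0 →
      ‖c.X j (1 / s ^ e) y‖ ≤ ∑ l, |B l|) := by
    filter_upwards [hP.2.2, Filter.eventually_all.2 hB] with s hs1 hs2
    refine ⟨hs1.1, fun y hy => ?_⟩
    obtain ⟨l, rfl⟩ := (hs1.2.2 y).mp hy
    refine (hs2 l).trans ((le_abs_self _).trans ?_)
    exact Finset.single_le_sum (f := fun l => |B l|) (fun i _ => abs_nonneg _) (Finset.mem_univ l)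
  rw [eventually_nhdsWithin_iff, Metric.eventually_nhds_iff] at h3
  obtain ⟨ρ, hρ, h3⟩ := h3
  refine ⟨∑ l, |B l|, 1 / ρ ^ e, fun t ht => ?_⟩
  have ht0 : t ≠ 0 := by
    rintro rfl
    rw [norm_zero] at ht
    have : 0 < 1 / ρ ^ e := by positivity
    linarith
  obtain ⟨s, hs⟩ := IsAlgClosed.exists_pow_nat_eq (1 / t) (lt_of_lt_of_le zero_lt_one hP.1)
  have hs0 : s ≠ 0 := by
    rintro rfl
    rw [zero_pow (by have := hP.1; omega)] at hs
    exact one_div_ne_zero ht0 hs.symm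
  have hts : t = 1 / s ^ e := by
    rw [hs, one_div_one_div]
  have hsn : ‖s‖ < ρ := by
    by_contra hge
    have h4 : ρ ^ e ≤ ‖s‖ ^ e := pow_le_pow_left₀ hρ.le (not_lt.mp hge) e
    have h5 : ‖t‖ = 1 / ‖s‖ ^ e := by
      rw [hts, norm_div, norm_one, norm_pow]
    have h6 : 1 / ‖s‖ ^ e ≤ 1 / ρ ^ e := one_div_le_one_div_of_le (by positivity) h4
    linarith
  rw [hts]
  exact h3 (by rwa [dist_zero_right]) hs0

private theorem E6D_const (P : Polynomial ℂ) {B R : ℝ} (h : ∀ t : ℂ, R < ‖t‖ → ‖P.eval t‖ ≤ B) :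
    P.degree ≤ 0 := by
  by_contra hd
  have h1 := P.tendsto_norm_atTop (not_le.mp hd) (l := Filter.atTop) (z := fun n : ℕ => (n : ℂ))
    (by simpa using tendsto_natCast_atTop_atTop (R := ℝ))
  have h2 := (h1.eventually_gt_atTop B).and
    ((tendsto_natCast_atTop_atTop (R := ℝ)).eventually_gt_atTop R)
  obtain ⟨n, hn1, hn2⟩ := h2.exists
  have h3 := h (n : ℂ) (by simpa using hn2)
  linarith

private theorem E6D_main {k : ℕ} (c : Crv k) {e N : ℕ} {g : Fin c.M.natDegree → ℂ → ℂ}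
    (hP : Puis c e N g) (j : Fin k)
    (hno : ∀ (l : Fin c.M.natDegree) (K : ℕ) (h : ℂ → ℂ), 1 ≤ K →
      ¬ Pl K (fun s => c.X j (1 / s ^ e) (g l s / s ^ N)) h) :
    ∃ T : Finset ℂ, ∀ t y, c.Pt t y → c.X j t y ∈ T := by
  classical
  obtain ⟨B, R, hBR⟩ := E6D_bdd c hP j hno
  -- the roots
  have hne : ∀ t : ℂ, c.M.map (Polynomial.evalRingHom t) ≠ 0 := fun t => (c.monic.map _).ne_zero
  let W : ℂ → Finset ℂ := fun t => (c.M.map (Polynomial.evalRingHom t)).roots.toFinset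
  have hW : ∀ t y, y ∈ W t ↔ ev2 c.M t y = 0 := by
    intro t y
    change y ∈ (c.M.map (Polynomial.evalRingHom t)).roots.toFinset ↔ _
    rw [Multiset.mem_toFinset, Polynomial.mem_roots (hne t)]
    rfl
  have hcard : ∀ t, (W t).card ≤ c.M.natDegree := by
    intro t
    refine (Multiset.toFinset_card_le _).trans ((Polynomial.card_roots' _).trans ?_)
    exact Polynomial.natDegree_map_le
  have hLoc : Loc c.S W := by
    intro t₁ ht₁
    obtain ⟨ε, hε, _, φ, hφ1, hφ2, hφ3⟩ := local_branches c.monic c.S c.hS ht₁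
    refine ⟨ε, hε, c.M.natDegree, φ, hφ1, fun t ht => ⟨hφ2 t ht, ?_⟩⟩
    ext y
    rw [hW, hφ3 t ht y, Finset.mem_image]
    constructor
    · rintro ⟨l, hl⟩
      exact ⟨l, Finset.mem_univ _, hl.symm⟩
    · rintro ⟨l, _, hl⟩
      exact ⟨l, hl.symm⟩
  obtain ⟨C, N', hC⟩ := root_bound (c.hmonic j)
  have hsym := fun i => sym_poly hLoc (fun z : ℂ × ℂ => c.X j z.1 z.2)
    (fun t ht y _ => E6D_X_analytic c j (t, y) ht) (B := C) (N := N')
    (fun t ht y hy => hC t _ (c.hh j t ht y ((hW t y).mp hy))) i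
  choose P hPc using hsym
  have hmon : ∀ t, (∏ y ∈ W t, (Polynomial.X - Polynomial.C (c.X j t y))).Monic := fun t =>
    Polynomial.monic_prod_of_monic _ _ fun y _ => Polynomial.monic_X_sub_C _
  have hconst : ∀ i, (P i).degree ≤ 0 := by
    intro i
    refine E6D_const (P i) (R := R)
      (B := max B 1 ^ c.M.natDegree * c.M.natDegree.choose (c.M.natDegree / 2)) ?_
    intro t ht
    obtain ⟨htS, hb⟩ := hBR t ht
    rw [← hPc i t htS]
    have h1 := Polynomial.coeff_bdd_of_roots_le (B := B) (d := c.M.natDegree) (RingHom.id ℂ)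
      (hmon t) (IsAlgClosed.splits _) ?_ ?_ i
    · rwa [Polynomial.map_id] at h1
    · rw [Polynomial.natDegree_prod_of_monic _ _ fun y _ => Polynomial.monic_X_sub_C _]
      simpa using hcard t
    · intro z hz
      rw [Polynomial.map_id, Polynomial.mem_roots (hmon t).ne_zero, Polynomial.IsRoot.def,
        Polynomial.eval_prod, Finset.prod_eq_zero_iff] at hz
      obtain ⟨y, hy, hzy⟩ := hz
      rw [Polynomial.eval_sub, Polynomial.eval_X, Polynomial.eval_C, sub_eq_zero] at hzy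
      rw [hzy]
      exact hb y ((hW t y).mp hy)
  obtain ⟨t₀, ht₀⟩ := Infinite.exists_notMem_finset c.S
  refine ⟨(∏ y ∈ W t₀, (Polynomial.X - Polynomial.C (c.X j t₀ y))).roots.toFinset, ?_⟩
  intro t y hty
  have heq : (∏ y ∈ W t, (Polynomial.X - Polynomial.C (c.X j t y))) =
      ∏ y ∈ W t₀, (Polynomial.X - Polynomial.C (c.X j t₀ y)) := by
    ext i
    have h1 := hPc i t hty.1
    have h2 := hPc i t₀ ht₀
    rw [Polynomial.eq_C_of_degree_le_zero (hconst i), Polynomial.eval_C] at h1 h2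
    exact h1.trans h2.symm
  rw [← heq, Multiset.mem_toFinset, Polynomial.mem_roots (hmon t).ne_zero, Polynomial.IsRoot.def,
    Polynomial.eval_prod]
  refine Finset.prod_eq_zero ((hW t y).mpr hty.2) ?_
  simp

/-- AXG-E6d: a nonconstant integral function has a pole at infinity on some branch. Proof. Suppose not: by
E6b all the functions `X_j(1/s^e, g_l(s)/s^N)` are bounded near `s = 0`, so `X_j(t, y)` is bounded on the
points of the curve with `‖t‖` large. Let `W t` be the set of all roots of `M(t, ·)` (`Loc` by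
`local_branches`) and `v(t, y) = X_j(t, y)`. By `root_bound` for `h_j`, `v` has polynomial growth, so by
`sym_poly` the coefficients of `∏_y (Z - X_j(t, y))` are polynomials in `t`; they are bounded at infinity,
hence constants. So `X_j(t, y)` lies in a fixed finite set for all points. Take a local branch `φ` near some
`t₁ ∉ S`: the continuous function `X_j(t, φ t)` with values in a finite set is constant `= b` on the ball, and
`all_branches` with `G = X_j - b` shows that `X_j = b` on the whole curve. (`M.natDegree ≥ 1` because `M` is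
irreducible and monic, so there is a branch.) -/
theorem exists_pole {k : ℕ} (c : Crv k) {e N : ℕ} {g : Fin c.M.natDegree → ℂ → ℂ} (hP : Puis c e N g)
    (j : Fin k) (hnc : ¬ ∃ b : ℂ, ∀ t y, c.Pt t y → c.X j t y = b) :
    ∃ (l : Fin c.M.natDegree) (K : ℕ) (h : ℂ → ℂ), 1 ≤ K ∧
      Pl K (fun s => c.X j (1 / s ^ e) (g l s / s ^ N)) h := by
  by_contra hcon
  have hno : ∀ (l : Fin c.M.natDegree) (K : ℕ) (h : ℂ → ℂ), 1 ≤ K →
      ¬ Pl K (fun s => c.X j (1 / s ^ e) (g l s / s ^ N)) h :=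
    fun l K h hK hPl => hcon ⟨l, K, h, hK, hPl⟩
  obtain ⟨T, hT⟩ := E6D_main c hP j hno
  obtain ⟨t₁, ht₁⟩ := Infinite.exists_notMem_finset c.S
  obtain ⟨ε, hε, hεS, φ, hφ1, hφ2, hφ3⟩ := local_branches c.monic c.S c.hS ht₁
  have hdeg : 0 < c.M.natDegree := by
    rw [Nat.pos_iff_ne_zero]
    intro h0
    have h1 : c.M = 1 := c.monic.natDegree_eq_zero.mp h0
    exact c.irr.not_isUnit (h1 ▸ isUnit_one)
  let l₀ : Fin c.M.natDegree := ⟨0, hdeg⟩
  have hmem : ∀ᶠ t in 𝓝 t₁, t ∈ Metric.ball t₁ ε := Metric.ball_mem_nhds t₁ hε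
  have hpt : ∀ t ∈ Metric.ball t₁ ε, c.Pt t (φ l₀ t) := fun t ht =>
    ⟨hεS t ht, (hφ3 t ht _).mpr ⟨l₀, rfl⟩⟩
  have hcont : ContinuousAt (fun t => c.X j t (φ l₀ t)) t₁ := by
    have h1 := hφ1 l₀ t₁ (Metric.mem_ball_self hε)
    exact (AnalyticAt.comp (g := fun z : ℂ × ℂ => c.X j z.1 z.2) (f := fun t : ℂ => (t, φ l₀ t))
      (E6D_X_analytic c j (t₁, φ l₀ t₁) ht₁) (analyticAt_id.prod h1)).continuousAt
  set b := c.X j t₁ (φ l₀ t₁) with hb
  have hev : ∀ᶠ t in 𝓝 t₁, c.X j t (φ l₀ t) = b := by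
    classical
    have h1 : (((T.erase b : Finset ℂ) : Set ℂ)ᶜ) ∈ 𝓝 (c.X j t₁ (φ l₀ t₁)) := by
      refine (T.erase b).finite_toSet.isClosed.isOpen_compl.mem_nhds ?_
      simp [hb]
    filter_upwards [hcont h1, hmem] with t ht1 ht2
    by_contra hne
    exact ht1 (Finset.mem_coe.mpr (Finset.mem_erase.mpr ⟨hne, hT t _ (hpt t ht2)⟩))
  apply hnc
  refine ⟨b, fun t y hty => ?_⟩
  have h2 := all_branches c (fun z : ℂ × ℂ => c.X j z.1 z.2 - b)
    (fun z hz => (E6D_X_analytic c j z hz).fun_sub analyticAt_const) ht₁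
    (hφ1 l₀ t₁ (Metric.mem_ball_self hε))
    (by filter_upwards [hmem] with t ht using (hpt t ht).2)
    (by
      filter_upwards [hev] with t ht
      rw [ht, sub_self]) t y hty
  exact sub_eq_zero.mp h2

end Pool.Agent.Helper94.AXG
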