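import Mathlib

/-! # AXG-E7B -/

namespace Pool.Agent.Helper94.AXG

open Complex Filter Topology

private theorem E7b_prod {k : ℕ} (T : Finset (Fin k)) (m : Fin k →₀ ℕ) :
    ∏ i : T, (MvPolynomial.X (i : Fin k) : MvPolynomial (Fin k) ℂ) ^ m i =
      MvPolynomial.monomial (m.filter (· ∈ T)) 1 := by
  classical
  rw [Finset.prod_coe_sort T (fun i => (MvPolynomial.X i : MvPolynomial (Fin k) ℂ) ^ m i),
    MvPolynomial.monomial_eq, map_one, one_mul,
    Finsupp.prod_of_support_subset (s := T) _ _ _ (fun i _ => pow_zero _)]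
  · refine Finset.prod_congr rfl fun i hi => ?_
    rw [Finsupp.filter_apply_pos _ _ hi]
  · intro i hi
    rw [Finsupp.support_filter, Finset.mem_filter] at hi
    exact hi.2

private theorem E7b_mon {k : ℕ} (T : Finset (Fin k)) (m : Fin k →₀ ℕ) (c : ℂ) :
    MvPolynomial.monomial (m.filter (· ∉ T)) c *
      ∏ i : T, (MvPolynomial.X (i : Fin k) : MvPolynomial (Fin k) ℂ) ^ m i =
      MvPolynomial.monomial m c := by
  classical
  rw [E7b_prod, MvPolynomial.monomial_mul, mul_one, add_comm,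
    Finsupp.filter_add_filter_not m (· ∈ T)]

/-- AXG-E7b: decomposition of a polynomial by the exponents in `T`: for `P` with variables in `J` and
`T ⊆ J` there are `D` and `P_γ` with variables in `J ∖ T` and `P = ∑_γ P_γ ∏_{i ∈ T} X_i^(D - γ_i)`; and
if all `P_γ` vanish then `P = 0`. -/
theorem split_poly {k : ℕ} (J T : Finset (Fin k)) (hTJ : T ⊆ J) (P : MvPolynomial (Fin k) ℂ)
    (hv : (P.vars : Set (Fin k)) ⊆ J) : ∃ (D : ℕ) (Q : (T → Fin (D + 1)) → MvPolynomial (Fin k) ℂ),
      (∀ γ, ((Q γ).vars : Set (Fin k)) ⊆ J \ T) ∧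
      P = ∑ γ, Q γ * ∏ i : T, MvPolynomial.X (i : Fin k) ^ (D - (γ i : ℕ)) := by
  classical
  have hD : ∀ m ∈ P.support, ∀ i, m i ≤ P.totalDegree := fun m hm i =>
    (MvPolynomial.monomial_le_degreeOf i hm).trans (MvPolynomial.degreeOf_le_totalDegree P i)
  let g : (Fin k →₀ ℕ) → (T → Fin (P.totalDegree + 1)) := fun m i =>
    ⟨P.totalDegree - m i, by omega⟩
  let Q : (T → Fin (P.totalDegree + 1)) → MvPolynomial (Fin k) ℂ := fun γ =>
    ∑ m ∈ P.support.filter (fun m => g m = γ),
      MvPolynomial.monomial (m.filter (· ∉ T)) (MvPolynomial.coeff m P)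
  refine ⟨P.totalDegree, Q, ?_, ?_⟩
  · intro γ i hi
    have h1 := MvPolynomial.vars_sum_subset _ _ (Finset.mem_coe.1 hi)
    rw [Finset.mem_biUnion] at h1
    obtain ⟨m, hm, h2⟩ := h1
    have h3 : i ∈ (m.filter (· ∉ T)).support := by
      by_cases hc : MvPolynomial.coeff m P = 0
      · rw [hc, map_zero, MvPolynomial.vars_0] at h2
        exact absurd h2 (Finset.notMem_empty i)
      · rwa [MvPolynomial.vars_monomial hc] at h2
    rw [Finsupp.support_filter, Finset.mem_filter] at h3
    have h4 : i ∈ P.vars := (MvPolynomial.mem_vars_iff_mem_support i).2 ⟨m, (Finset.mem_filter.1 hm).1, h3.1⟩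
    exact ⟨hv (Finset.mem_coe.2 h4), fun h => h3.2 (Finset.mem_coe.1 h)⟩
  · have h1 : ∀ γ, Q γ * ∏ i : T, (MvPolynomial.X (i : Fin k) : MvPolynomial (Fin k) ℂ) ^
        (P.totalDegree - (γ i : ℕ)) = ∑ m ∈ P.support.filter (fun m => g m = γ),
          MvPolynomial.monomial m (MvPolynomial.coeff m P) := by
      intro γ
      change (∑ m ∈ P.support.filter (fun m => g m = γ),
        MvPolynomial.monomial (m.filter (· ∉ T)) (MvPolynomial.coeff m P)) * _ = _
      rw [Finset.sum_mul]
      refine Finset.sum_congr rfl fun m hm => ?_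
      rw [Finset.mem_filter] at hm
      rw [← E7b_mon T m]
      congr 1
      refine Finset.prod_congr rfl fun i _ => ?_
      have h2 : (γ i : ℕ) = P.totalDegree - m i := by
        rw [← hm.2]
      have h3 := hD m hm.1 i
      rw [h2]
      congr 1
      omega
    rw [Finset.sum_congr rfl fun γ _ => h1 γ, Finset.sum_fiberwise,
      MvPolynomial.support_sum_monomial_coeff]

end Pool.Agent.Helper94.AXG
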