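import Pool.Agent.Helper94.AXG.FDefs

/-! # AXG-F2 -/

namespace Pool.Agent.Helper94.AXG

open MvPolynomial

/-- AXG-F2a: evaluation at a point `x`: coefficients at `A x`, variable at `ψ(x)` -/
theorem eval_chi {r k : ℕ} (A : Matrix (Fin r) (Fin k) ℤ) (χ : Polynomial (MvPolynomial (Fin r) ℂ))
    (ψ : MvPolynomial (Fin k) ℂ) (x : Fin k → ℂ) :
    eval x ((χ.map (phi (R := ℂ) A).toRingHom).eval ψ) =
      (χ.map (eval (mv A x))).eval (eval x ψ) := by
  have h : (eval x).comp (phi (R := ℂ) A).toRingHom = eval (mv A x) := by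
    apply MvPolynomial.ringHom_ext
    · intro c
      simp [phi]
    · intro j
      simp [phi, mv]
  rw [Polynomial.eval_map, Polynomial.eval_map, ← h, Polynomial.hom_eval₂]

end Pool.Agent.Helper94.AXG
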