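import Pool.Agent.Helper94.AXG.FDefs

/-! # AXG-F2B -/

namespace Pool.Agent.Helper94.AXG

open MvPolynomial

/-- AXG-F2b: restriction of `χ` to the line `p + t v`: there is a monic `h ∈ ℂ[t][Y]` with
`ev2 h t y = χ(p + t v, y)` (map the coefficients by `X_l ↦ p_l + t v_l`). -/
theorem line_chi {r : ℕ} (χ : Polynomial (MvPolynomial (Fin r) ℂ)) (hχ : χ.Monic) (p v : Fin r → ℂ) :
    ∃ h : Polynomial (Polynomial ℂ), h.Monic ∧ ∀ t y : ℂ,
      ev2 h t y = (χ.map (eval (fun l => p l + t * v l))).eval y := by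
  set L : MvPolynomial (Fin r) ℂ →+* Polynomial ℂ :=
    (aeval (fun l => Polynomial.C (p l) + Polynomial.X * Polynomial.C (v l)) :
      MvPolynomial (Fin r) ℂ →ₐ[ℂ] Polynomial ℂ).toRingHom with hL
  have key : ∀ t : ℂ, (Polynomial.evalRingHom t).comp L = eval (fun l => p l + t * v l) := by
    intro t
    apply MvPolynomial.ringHom_ext
    · intro c
      simp [hL]
    · intro j
      simp [hL]
      ring
  refine ⟨χ.map L, hχ.map L, fun t y => ?_⟩
  unfold ev2
  rw [← key t, ← Polynomial.map_map]

/-- AXG-F2c: a polynomial in `t` (values of `g ∈ ℂ[z]` on a line) which vanishes for all `t` outside of a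
finite set vanishes for all `t` -/
theorem line_zero {r : ℕ} (g : MvPolynomial (Fin r) ℂ) (p v : Fin r → ℂ) (S : Finset ℂ)
    (h : ∀ t, t ∉ S → eval (fun l => p l + t * v l) g = 0) :
    ∀ t : ℂ, eval (fun l => p l + t * v l) g = 0 := by
  set L : MvPolynomial (Fin r) ℂ →+* Polynomial ℂ :=
    (aeval (fun l => Polynomial.C (p l) + Polynomial.X * Polynomial.C (v l)) :
      MvPolynomial (Fin r) ℂ →ₐ[ℂ] Polynomial ℂ).toRingHom with hL
  have key : ∀ t : ℂ, (Polynomial.evalRingHom t).comp L = eval (fun l => p l + t * v l) := by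
    intro t
    apply MvPolynomial.ringHom_ext
    · intro c
      simp [hL]
    · intro j
      simp [hL]
      ring
  have key2 : ∀ t : ℂ, (L g).eval t = eval (fun l => p l + t * v l) g := by
    intro t
    rw [← key t]
    rfl
  have h0 : L g = 0 := by
    refine Polynomial.eq_zero_of_infinite_isRoot _ ?_
    refine Set.Infinite.mono (s := ((S : Set ℂ)ᶜ)) ?_ S.finite_toSet.infinite_compl
    intro t ht
    change (L g).eval t = 0
    rw [key2]
    exact h t (by simpa using ht)
  intro t
  rw [← key2, h0, Polynomial.eval_zero]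

end Pool.Agent.Helper94.AXG
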