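import Pool.Agent.Helper94.AXG.E4D
import Pool.Agent.Helper94.AXG.E3B
import Pool.Agent.Helper94.AXG.F2
import Pool.Agent.Helper94.AXG.F2B

/-! # AXG-F3: the curve over a line -/

namespace Pool.Agent.Helper94.AXG

open MvPolynomial Filter Topology

private lemma F3_an {k : ℕ} (c : Crv k) {z : ℂ × ℂ} (hz : z.1 ∉ c.S) :
    AnalyticAt ℂ (fun z : ℂ × ℂ => (z.1, fun j => c.X j z.1 z.2)) z := by
  refine AnalyticAt.prod analyticAt_fst (AnalyticAt.pi fun j => ?_)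
  unfold Crv.X
  refine (ev2_analytic (c.R j) z).div ?_ (c.hD z.1 hz)
  have h1 : AnalyticAt ℂ (fun t : ℂ => c.D.eval t) z.1 := c.D.differentiable.analyticAt z.1
  exact h1.comp_of_eq (analyticAt_fst (𝕜 := ℂ) (p := z)) rfl

/-- AXG-F3. Proof. `h_i ∈ ℂ[t][Y]` monic from `line_chi` for the integral equation of `X_i` (`hint`). For
`t ∈ Δ₁ := {t : p + t v ∈ Δ}` (open, contains `0`) choose `x t` by `hpts`; by `eval_chi`
`ev2 (h_i) t (x t i) = 0`. `select` gives the curve `c`, `t₂`, `η`. Let `G` be as in the conclusion, i.e.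
analytic in `(t, x)` and `G(t, x) = 0` for all `(t, x)` with `A x = p + t v`, `x` a zero of `I`, and
`eval (U ∘ x) P = 0`. Then `G(t, X(t, η t)) = 0` for frequently many `t` near `t₂`, and
`t ↦ G(t, X(t, η t))` is analytic at `t₂` (`D(t₂) ≠ 0`), so it vanishes near `t₂`, and by
`all_branches` everywhere. -/
theorem line_curve {r k : ℕ} (A : Matrix (Fin r) (Fin k) ℤ) (I : Ideal (MvPolynomial (Fin k) ℂ))
    (hint : ∀ i, Intg A I (X i)) {Δ : Set (Fin r → ℂ)} (hΔ : IsOpen Δ) (P : MvPolynomial (Fin k) ℂ)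
    (hpts : ∀ z ∈ Δ, ∃ x : Fin k → ℂ, mv A x = z ∧ (∀ f ∈ I, eval x f = 0) ∧
      eval (fun i => U (x i)) P = 0)
    (p v : Fin r → ℂ) (hp : p ∈ Δ) :
    ∃ c : Crv k, ∀ G : ℂ × (Fin k → ℂ) → ℂ, (∀ w, AnalyticAt ℂ G w) →
      (∀ (t : ℂ) (x : Fin k → ℂ), mv A x = (fun l => p l + t * v l) → (∀ f ∈ I, eval x f = 0) →
        eval (fun i => U (x i)) P = 0 → G (t, x) = 0) →
      ∀ t y, c.Pt t y → G (t, fun j => c.X j t y) = 0 := by
  classical
  have hint' : ∀ i : Fin k, ∃ χ : Polynomial (MvPolynomial (Fin r) ℂ), χ.Monic ∧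
    (χ.map (phi (R := ℂ) A).toRingHom).eval (X i) ∈ I := hint
  choose χ hχ hχI using hint'
  choose h hm hh using fun i => line_chi (χ i) (hχ i) p v
  have hopen : IsOpen {t : ℂ | (fun l => p l + t * v l) ∈ Δ} := by
    refine hΔ.preimage ?_
    fun_prop
  have hne : {t : ℂ | (fun l => p l + t * v l) ∈ Δ}.Nonempty := by
    refine ⟨0, ?_⟩
    show (fun l => p l + 0 * v l) ∈ Δ
    simpa using hp
  choose! x hx1 hx2 hx3 using hpts
  have hx : ∀ t ∈ {t : ℂ | (fun l => p l + t * v l) ∈ Δ}, ∀ j,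
      ev2 (h j) t (x (fun l => p l + t * v l) j) = 0 := by
    intro t ht j
    have h1 := eval_chi A (χ j) (X j) (x (fun l => p l + t * v l))
    rw [hx2 _ ht _ (hχI j), hx1 _ ht, eval_X] at h1
    rw [hh]
    exact h1.symm
  obtain ⟨c, -, t₂, ht₂, hS, η, hη, hM, hfr⟩ :=
    select h hm (fun t => x (fun l => p l + t * v l)) hopen hne hx
  refine ⟨c, fun G hG hG0 => ?_⟩
  have hG' : ∀ z : ℂ × ℂ, z.1 ∉ c.S →
      AnalyticAt ℂ (fun z : ℂ × ℂ => G (z.1, fun j => c.X j z.1 z.2)) z := by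
    intro z hz
    exact (hG _).comp_of_eq (F3_an c hz) rfl
  refine all_branches c (fun z => G (z.1, fun j => c.X j z.1 z.2)) hG' hS hη hM ?_
  have han : AnalyticAt ℂ (fun t => G (t, fun j => c.X j t (η t))) t₂ := by
    have h1 : AnalyticAt ℂ (fun t : ℂ => (t, η t)) t₂ := AnalyticAt.prod analyticAt_id hη
    exact (hG' (t₂, η t₂) hS).comp_of_eq h1 rfl
  refine han.frequently_zero_iff_eventually_zero.1 (hfr.mono ?_)
  rintro t ⟨ht, hX⟩
  have h2 : (fun j => c.X j t (η t)) = x (fun l => p l + t * v l) := by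
    funext j
    exact (hX j).symm
  rw [h2]
  exact hG0 t _ (hx1 _ ht) (hx2 _ ht) (hx3 _ ht)

end Pool.Agent.Helper94.AXG
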