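import Pool.Agent.Helper94.AXG.Y0

/-! # AXG-Y3 -/

namespace Pool.Agent.Helper94.AXG

open MvPolynomial

private theorem Y3_rename {σ τ : Type} {d H : ℕ} (g : σ → τ) (hg : Function.Injective g)
    {R : MvPolynomial σ ℤ} (hR : Sm d H R) : Sm d H (rename g R) := by
  obtain ⟨h1, h2, h3⟩ := hR
  refine ⟨fun h => h1 (rename_injective g hg (h.trans (map_zero _).symm)),
    (totalDegree_rename_le g R).trans h2, fun ν => ?_⟩
  by_cases h : ∃ u : σ →₀ ℕ, u.mapDomain g = ν
  · obtain ⟨u, rfl⟩ := h
    rw [coeff_rename_mapDomain g hg]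
    exact h3 u
  · rw [coeff_rename_eq_zero g R ν (fun u hu => absurd ⟨u, hu⟩ h), abs_zero]
    exact Int.natCast_nonneg H

/-- AXG-Y3a. Proof. Take the polynomial `rename (Option.map (fun i => ⟨a i, ha i⟩)) R` over the variables
`Option J`; the map of the variables is injective, so it is nonzero (`rename_injective`), of total degree
`≤ d` (`totalDegree_rename_le`), its coefficients are coefficients of `R` or `0`
(`coeff_rename_mapDomain`, `coeff_rename_eq_zero`), and its value at `vals q J` is that of `R` at `vl q a`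
(`aeval_rename`). -/
theorem dep_of_inj {σ : Type} {d H q : ℕ} {J : Finset ℕ} (a : σ → ℕ) (ha : ∀ i, a i ∈ J)
    (hinj : Function.Injective a) {R : MvPolynomial (Option σ) ℤ} (hR : Sm d H R)
    (h0 : aeval (vl q a) R = 0) : Dep d H q J := by
  have hg : Function.Injective (Option.map (fun i => (⟨a i, ha i⟩ : J))) :=
    Option.map_injective (fun i j hij => hinj (congrArg Subtype.val hij))
  obtain ⟨h1, h2, h3⟩ := Y3_rename _ hg hR
  refine ⟨rename (Option.map (fun i => (⟨a i, ha i⟩ : J))) R, h1, h2, h3, ?_⟩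
  rw [aeval_rename, ← h0]
  congr 2
  funext o
  cases o <;> rfl

/-- AXG-Y3b: the same with the bijection `J ≃ Fin k` (inverse of `J.orderIsoOfFin hk`) -/
theorem dep_fin {k d H q : ℕ} {J : Finset ℕ} (hk : J.card = k) (h : Dep d H q J) :
    ∃ P : MvPolynomial (Option (Fin k)) ℤ, Sm d H P ∧
      aeval (vl q (fun i : Fin k => J.orderEmbOfFin hk i)) P = 0 := by
  obtain ⟨P, h1, h2, h3, h4⟩ := h
  have hg : Function.Injective (Option.map (J.orderIsoOfFin hk).symm) :=
    Option.map_injective (J.orderIsoOfFin hk).symm.injective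
  refine ⟨rename (Option.map (J.orderIsoOfFin hk).symm) P, Y3_rename _ hg ⟨h1, h2, h3⟩, ?_⟩
  rw [aeval_rename, ← h4]
  congr 2
  funext o
  cases o with
  | none => rfl
  | some b =>
    have hb : ((J.orderEmbOfFin hk ((J.orderIsoOfFin hk).symm b) : ℕ)) = (b : ℕ) := by
      rw [← Finset.coe_orderIsoOfFin_apply, OrderIso.apply_symm_apply]
    change Complex.Gamma (((J.orderEmbOfFin hk ((J.orderIsoOfFin hk).symm b) : ℕ) : ℂ) / (q : ℂ)) =
      Complex.Gamma (((b : ℕ) : ℂ) / (q : ℂ))
    rw [hb]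

end Pool.Agent.Helper94.AXG
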