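import Pool.Agent.Helper94.AXG.Y0

/-! # AXG-Y4 -/

namespace Pool.Agent.Helper94.AXG

open MvPolynomial

private theorem y4_inn_add_outt {σ : Type} (I : Finset σ) (ν : Option σ →₀ ℕ) :
    inn I ν + outt I ν = ν := by
  classical
  ext o
  simp only [inn, outt, Finsupp.add_apply, Finsupp.filter_apply]
  by_cases h : ∃ i ∈ I, o = some i
  · rw [if_pos h, if_neg (not_not.mpr h), Nat.add_zero]
  · rw [if_neg h, if_pos h, Nat.zero_add]

private theorem y4_coeff {σ : Type} (I : Finset σ) (μ κ : Option σ →₀ ℕ)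
    (P : MvPolynomial (Option σ) ℤ) :
    coeff κ (cpart I μ P) = 0 ∨
      (coeff κ (cpart I μ P) = coeff (μ + κ) P ∧ outt I (μ + κ) = κ) := by
  classical
  by_cases h : inn I (μ + κ) = μ ∧ outt I (μ + κ) = κ
  · right
    refine ⟨?_, h.2⟩
    rw [cpart, coeff_sum, Finset.sum_eq_single (μ + κ)]
    · rw [coeff_monomial, if_pos h.2]
    · intro ν hν hne
      rw [Finset.mem_filter] at hν
      rw [coeff_monomial, if_neg]
      intro h2
      apply hne
      rw [← y4_inn_add_outt I ν, hν.2, h2]
    · intro hν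
      rw [coeff_monomial, if_pos h.2]
      by_contra hc
      apply hν
      rw [Finset.mem_filter]
      exact ⟨mem_support_iff.mpr hc, h.1⟩
  · left
    rw [cpart, coeff_sum]
    apply Finset.sum_eq_zero
    intro ν hν
    rw [Finset.mem_filter] at hν
    rw [coeff_monomial, if_neg]
    intro h2
    apply h
    have h3 : μ + κ = ν := by rw [← y4_inn_add_outt I ν, hν.2, h2]
    rw [h3]
    exact ⟨hν.2, h2⟩

/-- AXG-Y4a: `ν = inn I ν + outt I ν` determines `ν`, so only the term of `ν` contributes -/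
theorem cpart_coeff {σ : Type} (I : Finset σ) (ν : Option σ →₀ ℕ) (P : MvPolynomial (Option σ) ℤ) :
    coeff (outt I ν) (cpart I (inn I ν) P) = coeff ν P := by
  classical
  rw [cpart, coeff_sum, Finset.sum_eq_single ν]
  · rw [coeff_monomial, if_pos rfl]
  · intro κ hκ hne
    rw [Finset.mem_filter] at hκ
    rw [coeff_monomial, if_neg]
    intro h2
    apply hne
    rw [← y4_inn_add_outt I κ, hκ.2, h2, y4_inn_add_outt]
  · intro hν
    rw [coeff_monomial, if_pos rfl]
    by_contra hc
    apply hν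
    rw [Finset.mem_filter]
    exact ⟨mem_support_iff.mpr hc, rfl⟩

/-- AXG-Y4b: the exponents `outt I ν` with `inn I ν = μ` are pairwise different, so every coefficient of
`cpart I μ P` is `0` or a coefficient of `P`; the degree of `outt I ν` is at most that of `ν` -/
theorem cpart_small {σ : Type} (I : Finset σ) (μ : Option σ →₀ ℕ) {P : MvPolynomial (Option σ) ℤ} {d H : ℕ}
    (hd : P.totalDegree ≤ d) (hH : ∀ ν, |coeff ν P| ≤ (H : ℤ)) :
    (cpart I μ P).totalDegree ≤ d ∧ ∀ ν, |coeff ν (cpart I μ P)| ≤ (H : ℤ) := by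
  classical
  constructor
  · rw [totalDegree]
    apply Finset.sup_le
    intro κ hκ
    rw [mem_support_iff] at hκ
    rcases y4_coeff I μ κ P with h | ⟨h, -⟩
    · exact absurd h hκ
    · have h1 : μ + κ ∈ P.support := by
        rw [mem_support_iff, ← h]
        exact hκ
      have h2 := le_totalDegree h1
      rw [Finsupp.sum_add_index' (fun _ => rfl) (fun _ _ _ => rfl)] at h2
      omega
  · intro κ
    rcases y4_coeff I μ κ P with h | ⟨h, -⟩
    · rw [h, abs_zero]
      exact Int.natCast_nonneg H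
    · rw [h]
      exact hH _

/-- AXG-Y4c -/
theorem cpart_free {σ : Type} (I : Finset σ) (μ : Option σ →₀ ℕ) (P : MvPolynomial (Option σ) ℤ) :
    ∀ i ∈ I, some i ∉ (cpart I μ P).vars := by
  classical
  intro i hi hv
  rw [mem_vars_iff_mem_support] at hv
  obtain ⟨κ, hκ, hiκ⟩ := hv
  rw [mem_support_iff] at hκ
  rcases y4_coeff I μ κ P with h | ⟨-, h⟩
  · exact hκ h
  · rw [Finsupp.mem_support_iff] at hiκ
    apply hiκ
    rw [← h, outt, Finsupp.filter_apply, if_neg]
    exact not_not.mpr ⟨i, hi, rfl⟩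

end Pool.Agent.Helper94.AXG
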