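import Pool.Agent.Helper94.AXG.Y0

/-! # AXG-Y5 -/

namespace Pool.Agent.Helper94.AXG

open MvPolynomial

/-- the exponent of the variables of `I` -/
private noncomputable def y5res {k : ℕ} (I : Finset (Fin k)) (ν : Option (Fin k) →₀ ℕ) :
    Fin k →₀ ℕ :=
  Finsupp.equivFunOnFinite.symm (fun i => if i ∈ I then ν (some i) else 0)

private lemma y5res_apply {k : ℕ} (I : Finset (Fin k)) (ν : Option (Fin k) →₀ ℕ) (i : Fin k) :
    y5res I ν i = if i ∈ I then ν (some i) else 0 := rfl

private lemma y5_inn_pos {σ : Type} (I : Finset σ) (ν : Option σ →₀ ℕ) (o : Option σ)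
    (ho : ∃ i ∈ I, o = some i) : inn I ν o = ν o := by
  classical
  unfold inn
  rw [Finsupp.filter_apply, if_pos ho]

private lemma y5_inn_neg {σ : Type} (I : Finset σ) (ν : Option σ →₀ ℕ) (o : Option σ)
    (ho : ¬ ∃ i ∈ I, o = some i) : inn I ν o = 0 := by
  classical
  unfold inn
  rw [Finsupp.filter_apply, if_neg ho]

private lemma y5_outt_pos {σ : Type} (I : Finset σ) (ν : Option σ →₀ ℕ) (o : Option σ)
    (ho : ¬ ∃ i ∈ I, o = some i) : outt I ν o = ν o := by
  classical
  unfold outt
  rw [Finsupp.filter_apply, if_pos ho]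

private lemma y5_outt_neg {σ : Type} (I : Finset σ) (ν : Option σ →₀ ℕ) (o : Option σ)
    (ho : ∃ i ∈ I, o = some i) : outt I ν o = 0 := by
  classical
  unfold outt
  rw [Finsupp.filter_apply, if_neg (not_not.2 ho)]

private lemma y5_iff {k : ℕ} (I : Finset (Fin k)) (ν ν' : Option (Fin k) →₀ ℕ) :
    inn I ν = inn I ν' ↔ y5res I ν = y5res I ν' := by
  constructor
  · intro h
    refine Finsupp.ext fun i => ?_
    rw [y5res_apply, y5res_apply]
    by_cases hi : i ∈ I
    · have h1 := DFunLike.congr_fun h (some i)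
      rw [y5_inn_pos I ν _ ⟨i, hi, rfl⟩, y5_inn_pos I ν' _ ⟨i, hi, rfl⟩] at h1
      rw [if_pos hi, if_pos hi, h1]
    · rw [if_neg hi, if_neg hi]
  · intro h
    refine Finsupp.ext fun o => ?_
    by_cases ho : ∃ i ∈ I, o = some i
    · rw [y5_inn_pos I ν _ ho, y5_inn_pos I ν' _ ho]
      obtain ⟨i, hi, rfl⟩ := ho
      have h1 := DFunLike.congr_fun h i
      rw [y5res_apply, y5res_apply, if_pos hi, if_pos hi] at h1
      exact h1
    · rw [y5_inn_neg I ν _ ho, y5_inn_neg I ν' _ ho]

/-- the value of the outer part of the monomial -/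
private noncomputable def y5w {k q : ℕ} (a : Fin k → ℕ) (I : Finset (Fin k))
    (ν : Option (Fin k) →₀ ℕ) : ℂ :=
  (Real.pi : ℂ) ^ ν none * ∏ i, if i ∈ I then 1 else Gv ((q, a) : Pt k) i ^ ν (some i)

private lemma y5_out {k q : ℕ} (a : Fin k → ℕ) (I : Finset (Fin k)) (ν : Option (Fin k) →₀ ℕ)
    (c : ℤ) : aeval (vl q a) (monomial (outt I ν) c) = (c : ℂ) * y5w (q := q) a I ν := by
  classical
  rw [aeval_monomial, Finsupp.prod_fintype _ _ (fun _ => pow_zero _), Fintype.prod_option]
  have h1 : outt I ν none = ν none := by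
    refine y5_outt_pos I ν none ?_
    rintro ⟨i, _, h⟩
    exact absurd h (by simp)
  have h2 : ∀ i : Fin k, vl q a (some i) ^ outt I ν (some i) =
      if i ∈ I then 1 else Gv ((q, a) : Pt k) i ^ ν (some i) := by
    intro i
    have h4 : outt I ν (some i) = if i ∈ I then 0 else ν (some i) := by
      by_cases hi : i ∈ I
      · rw [if_pos hi, y5_outt_neg I ν _ ⟨i, hi, rfl⟩]
      · have h3 : ¬ ∃ j ∈ I, (some i : Option (Fin k)) = some j := by
          rintro ⟨j, hj, h⟩
          rw [Option.some_inj] at h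
          exact hi (h ▸ hj)
        rw [if_neg hi, y5_outt_pos I ν _ h3]
    rw [h4]
    by_cases hi : i ∈ I
    · rw [if_pos hi, if_pos hi, pow_zero]
    · rw [if_neg hi, if_neg hi]
      rfl
  rw [h1, Finset.prod_congr rfl fun i _ => h2 i]
  rfl

private lemma y5_spec {k q : ℕ} (a : Fin k → ℕ) (I : Finset (Fin k))
    (P : MvPolynomial (Option (Fin k)) ℤ) :
    spec (Gv ((q, a) : Pt k)) I (piSub P) =
      ∑ ν ∈ P.support, monomial (y5res I ν) (((coeff ν P : ℤ) : ℂ) * y5w (q := q) a I ν) := by
  classical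
  have h1 : spec (Gv ((q, a) : Pt k)) I (piSub P) =
      aeval (fun o : Option (Fin k) => (o.elim (C (Real.pi : ℂ))
        (fun i => if i ∈ I then X i else C (Gv ((q, a) : Pt k) i)) : MvPolynomial (Fin k) ℂ)) P := by
    unfold spec piSub
    induction P using MvPolynomial.induction_on with
    | C c =>
      rw [aeval_C, aeval_C, eq_intCast]
      exact map_intCast (aeval fun i => if i ∈ I then (X i : MvPolynomial (Fin k) ℂ) else
        C (Gv ((q, a) : Pt k) i)) c
    | add p r hp hr => rw [map_add, map_add, map_add, hp, hr]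
    | mul_X p o hp =>
      rw [map_mul, map_mul, map_mul, hp, aeval_X, aeval_X]
      congr 1
      cases o with
      | none =>
        change aeval _ (C (Real.pi : ℂ)) = C (Real.pi : ℂ)
        rw [aeval_C]
        rfl
      | some i =>
        change aeval _ (X i) = _
        rw [aeval_X]
        rfl
  rw [h1]
  conv_lhs => rw [P.as_sum, map_sum]
  refine Finset.sum_congr rfl fun ν _ => ?_
  rw [aeval_monomial, Finsupp.prod_fintype _ _ (fun _ => pow_zero _), Fintype.prod_option,
    monomial_eq, Finsupp.prod_fintype _ _ (fun _ => pow_zero _)]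
  have h2 : ∀ i : Fin k, ((some i : Option (Fin k)).elim (C (Real.pi : ℂ))
        (fun i => if i ∈ I then X i else C (Gv ((q, a) : Pt k) i)) : MvPolynomial (Fin k) ℂ) ^
          ν (some i) =
      C (if i ∈ I then 1 else Gv ((q, a) : Pt k) i ^ ν (some i)) * X i ^ y5res I ν i := by
    intro i
    change (if i ∈ I then X i else C (Gv ((q, a) : Pt k) i) : MvPolynomial (Fin k) ℂ) ^
          ν (some i) = _
    rw [y5res_apply]
    by_cases hi : i ∈ I
    · rw [if_pos hi, if_pos hi, if_pos hi, C_1, one_mul]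
    · rw [if_neg hi, if_neg hi, if_neg hi, pow_zero, mul_one, C_pow]
  rw [Finset.prod_congr rfl fun i _ => h2 i, Finset.prod_mul_distrib]
  unfold y5w
  rw [C_mul, C_mul, C_pow, map_prod, eq_intCast, map_intCast]
  change _ * (C (Real.pi : ℂ) ^ ν none * _) = _
  ring

/-- AXG-Y5. Proof. The left side `spec (Gv (q, a)) I (piSub P)` is the image of `P` under the algebra
homomorphism `ψ` with `none ↦ C π`, `some i ↦ X i` for `i ∈ I`, `some i ↦ C (Γ(a_i/q))` for `i ∉ I`
(compare on the variables). The image of the monomial `ν` with coefficient `c` is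
`C (c * value of the monomial outt I ν at vl q a) * monomial (inn I ν restricted to the variables some i)`.
The exponents `inn I ν` are determined by this restriction. If `μ = inn I ν` for some `ν` in the support
of `P` then the coefficient of `ψ P` at the restriction of `μ` is the sum over the `ν` with `inn I ν = μ` of
`coeff ν P *` value of `outt I ν`, which is `aeval (vl q a) (cpart I μ P)`; so it is `0`. Otherwise
`cpart I μ P = 0`. -/
theorem spec_zero {k q : ℕ} (a : Fin k → ℕ) (I : Finset (Fin k)) (P : MvPolynomial (Option (Fin k)) ℤ)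
    (h : spec (Gv ((q, a) : Pt k)) I (piSub P) = 0) (μ : Option (Fin k) →₀ ℕ) :
    aeval (vl q a) (cpart I μ P) = 0 := by
  classical
  unfold cpart
  rw [map_sum]
  by_cases hμ : ∃ ν₀, inn I ν₀ = μ
  · obtain ⟨ν₀, rfl⟩ := hμ
    have h1 := congrArg (coeff (y5res I ν₀)) h
    rw [y5_spec, coeff_sum, coeff_zero] at h1
    rw [← h1, Finset.sum_filter]
    refine Finset.sum_congr rfl fun ν _ => ?_
    rw [coeff_monomial]
    by_cases hν : inn I ν = inn I ν₀
    · rw [if_pos hν, if_pos ((y5_iff I ν ν₀).1 hν), y5_out]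
    · rw [if_neg hν, if_neg fun h2 => hν ((y5_iff I ν ν₀).2 h2)]
  · refine Finset.sum_eq_zero fun ν hν => ?_
    simp only [Finset.mem_filter] at hν
    exact absurd ⟨ν, hν.2⟩ hμ

end Pool.Agent.Helper94.AXG
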