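import Pool.Agent.Helper94.AXG.Y3

/-! # AXG-Y6 -/

namespace Pool.Agent.Helper94.AXG

open MvPolynomial

/-- AXG-Y6a: `orderEmbOfFin` is injective with values in `J` -/
theorem adm_of_res {k q : ℕ} {J : Finset ℕ} (hq : 1 ≤ q) (hk : J.card = k) (h : Res q J) :
    Adm ((q, fun i : Fin k => J.orderEmbOfFin hk i) : Pt k) := by
  refine ⟨hq, fun i => h.1 _ (Finset.orderEmbOfFin_mem J hk i), fun i j hij he => hij ?_, fun i j =>
    h.2 _ (Finset.orderEmbOfFin_mem J hk i) _ (Finset.orderEmbOfFin_mem J hk j)⟩
  exact (J.orderEmbOfFin hk).injective he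

/-- AXG-Y6b. Proof. `R` involves only the variables in the range of the injective map
`Option {i // i ∉ I} → Option (Fin k)`, so `R = rename _ R'` (`exists_rename_eq_of_vars_subset_range`); `R'` is
nonzero, of total degree `≤ d` (coefficients of `R'` = coefficients of `R`, `coeff_rename_mapDomain`); apply
`dep_of_inj` with `σ = {i // i ∉ I}`. -/
theorem dep_of_free {k d H q : ℕ} {a : Fin k → ℕ} (hinj : Function.Injective a) (I : Finset (Fin k))
    {R : MvPolynomial (Option (Fin k)) ℤ} (hR : Sm d H R) (hfree : ∀ i ∈ I, some i ∉ R.vars)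
    (h0 : aeval (vl q a) R = 0) : Dep d H q ((Finset.univ.filter (fun i => i ∉ I)).image a) := by
  classical
  let f : Option {i : Fin k // i ∉ I} → Option (Fin k) := Option.map Subtype.val
  have hf : Function.Injective f := Option.map_injective Subtype.val_injective
  have hv : (↑R.vars : Set (Option (Fin k))) ⊆ Set.range f := by
    intro o ho
    cases o with
    | none => exact ⟨none, rfl⟩
    | some i => exact ⟨some ⟨i, fun hi => hfree i hi ho⟩, rfl⟩
  obtain ⟨R', hR'⟩ := exists_rename_eq_of_vars_subset_range R f hf hv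
  have hc : ∀ ν, coeff ν R' = coeff (ν.mapDomain f) R := by
    intro ν
    rw [← hR', coeff_rename_mapDomain f hf]
  refine dep_of_inj (σ := {i : Fin k // i ∉ I}) (R := R') (fun i => a i.1) (fun i => ?_)
    (fun i j hij => Subtype.ext (hinj hij)) ⟨?_, ?_, fun ν => ?_⟩ ?_
  · exact Finset.mem_image_of_mem a (Finset.mem_filter.mpr ⟨Finset.mem_univ _, i.2⟩)
  · rintro rfl
    exact hR.1 (by rw [← hR', map_zero])
  · refine le_trans (Finset.sup_le fun ν hν => ?_) hR.2.1
    have h1 : ν.mapDomain f ∈ R.support := by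
      rw [mem_support_iff, ← hc]
      exact mem_support_iff.mp hν
    have h2 := le_totalDegree h1
    rwa [Finsupp.sum_mapDomain_index (fun _ => rfl) (fun _ _ _ => rfl)] at h2
  · rw [hc]
    exact hR.2.2 _
  · rw [← hR', aeval_rename] at h0
    rw [← h0]
    congr 2
    funext o
    cases o with
    | none => rfl
    | some i => rfl

end Pool.Agent.Helper94.AXG
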