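import Pool.Agent.Helper94.AXG.Y2
import Pool.Agent.Helper94.AXG.Y4
import Pool.Agent.Helper94.AXG.Y5
import Pool.Agent.Helper94.AXG.Y6

/-! # AXG-Y6B -/

namespace Pool.Agent.Helper94.AXG

open MvPolynomial

/-- AXG-Y6c. Proof. The first part is `eval_piSub`. Let `I` be nonempty and suppose
`spec (Gv _) I (piSub P) = 0`. Choose `ν` in the support of `P`, `μ = inn I ν`, `R = cpart I μ P`: it is nonzero
(`cpart_coeff`), small (`cpart_small`), free of the variables of `I` (`cpart_free`), and vanishes at `vl q a`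
(`spec_zero`). By `dep_of_free` the set `a '' (complement of I)` is dependent; it is a proper subset of `J`
(`a` is injective with values in `J`, `I` is nonempty). -/
theorem zr_of_minimal {k d H q : ℕ} {J : Finset ℕ} (hk : J.card = k)
    {P : MvPolynomial (Option (Fin k)) ℤ} (hP : Sm d H P)
    (h0 : aeval (vl q (fun i : Fin k => J.orderEmbOfFin hk i)) P = 0)
    (hmin : ∀ J', J' ⊂ J → ¬ Dep d H q J') :
    Zr (piSub P) ((q, fun i : Fin k => J.orderEmbOfFin hk i) : Pt k) := by
  classical
  have hinj : Function.Injective (fun i : Fin k => J.orderEmbOfFin hk i) :=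
    (J.orderEmbOfFin hk).injective
  refine ⟨(eval_piSub _ P).trans h0, fun I hI hsp => ?_⟩
  obtain ⟨h1, h2, h3⟩ := hP
  obtain ⟨ν, hν⟩ := ne_zero_iff.mp h1
  have hne : cpart I (inn I ν) P ≠ 0 := by
    intro h
    have h4 := cpart_coeff I ν P
    rw [h, coeff_zero] at h4
    exact hν h4.symm
  have hsm : Sm d H (cpart I (inn I ν) P) :=
    ⟨hne, (cpart_small I (inn I ν) h2 h3).1, (cpart_small I (inn I ν) h2 h3).2⟩
  refine hmin _ ?_ (dep_of_free hinj I hsm (cpart_free I (inn I ν) P) (spec_zero _ I P hsp (inn I ν)))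
  rw [Finset.ssubset_iff_of_subset ?_]
  · obtain ⟨i, hi⟩ := hI
    refine ⟨J.orderEmbOfFin hk i, Finset.orderEmbOfFin_mem J hk i, fun h => ?_⟩
    obtain ⟨j, hj, hji⟩ := Finset.mem_image.mp h
    have hij : j = i := hinj hji
    subst hij
    exact (Finset.mem_filter.mp hj).2 hi
  · intro x hx
    obtain ⟨j, _, hj⟩ := Finset.mem_image.mp hx
    rw [← hj]
    exact Finset.orderEmbOfFin_mem J hk j

end Pool.Agent.Helper94.AXG
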