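import Pool.Agent.Helper94.AXG.Y0

/-! # AXG-Y7 -/

namespace Pool.Agent.Helper94.AXG

open MvPolynomial

/-- the coefficients with all exponents at most `d` -/
private noncomputable def Y7f (k d : ℕ) (P : MvPolynomial (Option (Fin k)) ℤ)
    (e : Option (Fin k) → Fin (d + 1)) : ℤ :=
  coeff (Finsupp.equivFunOnFinite.symm (fun o => (e o : ℕ))) P

private theorem Y7_zero {k d : ℕ} {P : MvPolynomial (Option (Fin k)) ℤ} (hP : P.totalDegree ≤ d)
    {ν : Option (Fin k) →₀ ℕ} {o : Option (Fin k)} (ho : d < ν o) : coeff ν P = 0 := by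
  apply coeff_eq_zero_of_totalDegree_lt
  refine lt_of_le_of_lt hP (lt_of_lt_of_le ho ?_)
  by_cases h : o ∈ ν.support
  · exact Finset.single_le_sum (f := fun i => ν i) (fun _ _ => Nat.zero_le _) h
  · rw [Finsupp.notMem_support_iff.1 h]
    exact Nat.zero_le _

private theorem Y7_inj (k d : ℕ) : Set.InjOn (Y7f k d)
    {P : MvPolynomial (Option (Fin k)) ℤ | P.totalDegree ≤ d} := by
  intro P hP Q hQ h
  ext ν
  by_cases hν : ∀ o, ν o ≤ d
  · have h1 := congrFun h (fun o => ⟨ν o, Nat.lt_succ_of_le (hν o)⟩)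
    have h2 : Finsupp.equivFunOnFinite.symm (fun o => ν o) = ν := by
      ext o
      rfl
    unfold Y7f at h1
    simp only [h2] at h1
    exact h1
  · push Not at hν
    obtain ⟨o, ho⟩ := hν
    rw [Y7_zero hP ho, Y7_zero hQ ho]

/-- AXG-Y7. Proof. A polynomial of total degree `≤ d` is determined by its coefficients with all
exponents `≤ d`; map `P` to the function `(Option (Fin k) → Fin (d + 1)) → Set.Icc (-H) H` of these
coefficients: an injective map to a set with `(2H+1)^((d+1)^(k+1))` elements. -/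
theorem card_polys (k d H : ℕ) :
    {P : MvPolynomial (Option (Fin k)) ℤ | P.totalDegree ≤ d ∧ ∀ ν, |coeff ν P| ≤ (H : ℤ)}.Finite ∧
    {P : MvPolynomial (Option (Fin k)) ℤ | P.totalDegree ≤ d ∧ ∀ ν, |coeff ν P| ≤ (H : ℤ)}.ncard ≤
      (2 * H + 1) ^ ((d + 1) ^ (k + 1)) := by
  classical
  obtain ⟨T, hT⟩ : ∃ T : Finset ((Option (Fin k) → Fin (d + 1)) → ℤ),
      T = Fintype.piFinset fun _ => Finset.Icc (-(H : ℤ)) H := ⟨_, rfl⟩
  have hmap : ∀ P ∈ {P : MvPolynomial (Option (Fin k)) ℤ | P.totalDegree ≤ d ∧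
      ∀ ν, |coeff ν P| ≤ (H : ℤ)}, Y7f k d P ∈ (T : Set ((Option (Fin k) → Fin (d + 1)) → ℤ)) := by
    intro P hP
    rw [hT, Finset.mem_coe, Fintype.mem_piFinset]
    intro e
    exact Finset.mem_Icc.2 (abs_le.1 (hP.2 _))
  have hinj : Set.InjOn (Y7f k d) {P : MvPolynomial (Option (Fin k)) ℤ | P.totalDegree ≤ d ∧
      ∀ ν, |coeff ν P| ≤ (H : ℤ)} := (Y7_inj k d).mono fun P hP => hP.1
  have hcard : T.card = (2 * H + 1) ^ ((d + 1) ^ (k + 1)) := by
    rw [hT, Fintype.card_piFinset, Finset.prod_const, Finset.card_univ, Int.card_Icc]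
    have h1 : ((H : ℤ) + 1 - -(H : ℤ)).toNat = 2 * H + 1 := by omega
    rw [h1, Fintype.card_fun, Fintype.card_fin, Fintype.card_option, Fintype.card_fin]
  refine ⟨Set.Finite.of_injOn hmap hinj T.finite_toSet, ?_⟩
  rw [← hcard, ← Set.ncard_coe_finset]
  exact Set.ncard_le_ncard_of_injOn _ hmap hinj T.finite_toSet

end Pool.Agent.Helper94.AXG
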