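import Pool.Agent.Helper94.AXG.Z12
import Pool.Agent.Helper94.AXG.Y6B
import Pool.Agent.Helper94.AXG.Y7

/-! # AXG-Y8 -/

namespace Pool.Agent.Helper94.AXG

open MvPolynomial

open Classical in
/-- the point of a pair (level, set) -/
private noncomputable def ptY8 (k : ℕ) (x : ℕ × Finset ℕ) : Pt k :=
  if h : x.2.card = k then (x.1, fun i : Fin k => x.2.orderEmbOfFin h i) else (0, fun _ => 0)

private theorem ptY8_eq {k : ℕ} {x : ℕ × Finset ℕ} (h : x.2.card = k) :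
    ptY8 k x = (x.1, fun i : Fin k => x.2.orderEmbOfFin h i) := dif_pos h

private theorem ptY8_inj {k : ℕ} {x y : ℕ × Finset ℕ} (hx : x.2.card = k) (hy : y.2.card = k)
    (h : ptY8 k x = ptY8 k y) : x = y := by
  rw [ptY8_eq hx, ptY8_eq hy, Prod.mk.injEq] at h
  obtain ⟨h1, h2⟩ := h
  refine Prod.ext h1 ?_
  have h3 : Set.range (x.2.orderEmbOfFin hx) = Set.range (y.2.orderEmbOfFin hy) :=
    congrArg Set.range h2
  rw [Finset.range_orderEmbOfFin, Finset.range_orderEmbOfFin] at h3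
  exact_mod_cast h3

/-- AXG-Y8a. Proof. Let `C` be the constant of `uniform_main` for `k, d, ε` (`C ≥ 0`: take `T = ∅`, `Q = 1`).
For `x = (q, J)` in `MinSet k d H Q` let `pt x = (q, orderEmbOfFin J)`; `pt` is injective
(`Finset.range_orderEmbOfFin`). By `dep_fin` there is `P` with `Sm d H P` and `P = 0` at the point, and by
`adm_of_res`, `zr_of_minimal`, `pt x` lies in the set `T_P` of the points with `Adm`, `q ≤ Q` and
`Zr (piSub P)`. `T_P` is finite (`a_i < q ≤ Q`), and by `uniform_main` (`piSub_deg`) every finite subset has at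
most `C Q^ε` elements. So `MinSet` is contained in the union of the preimages of the `T_P` over the
finitely many `P` of `card_polys`. -/
theorem count_pos {k : ℕ} (hk : 1 ≤ k) (d : ℕ) {ε : ℝ} (hε : 0 < ε) : ∃ C : ℝ, 0 ≤ C ∧ ∀ Q H : ℕ, 1 ≤ Q →
    (MinSet k d H Q).Finite ∧
    ((MinSet k d H Q).ncard : ℝ) ≤ ((2 * H + 1 : ℕ) : ℝ) ^ ((d + 1) ^ (k + 1)) * (C * (Q : ℝ) ^ ε) := by
  classical
  obtain ⟨C, hC⟩ := uniform_main hk d hε
  have hC0 : 0 ≤ C := by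
    have h := hC 1 le_rfl 0 (by simp) ∅ (by simp)
    simpa using h
  refine ⟨C, hC0, fun Q H hQ => ?_⟩
  set PS : Set (MvPolynomial (Option (Fin k)) ℤ) :=
    {P | P.totalDegree ≤ d ∧ ∀ ν, |coeff ν P| ≤ (H : ℤ)} with hPS
  obtain ⟨hfin, hcard⟩ := card_polys k d H
  have hT : ∀ P : MvPolynomial (Option (Fin k)) ℤ,
      {y : Pt k | Adm y ∧ y.1 ≤ Q ∧ Zr (piSub P) y}.Finite := by
    intro P
    have hbox : (Set.Iic Q ×ˢ (Set.univ.pi fun _ : Fin k => Set.Iic Q) :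
        Set (ℕ × (Fin k → ℕ))).Finite :=
      (Set.finite_Iic Q).prod (Set.Finite.pi fun _ => Set.finite_Iic Q)
    refine hbox.subset ?_
    rintro y ⟨hA, hyQ, -⟩
    refine ⟨hyQ, fun i _ => ?_⟩
    exact ((hA.2.1 i).2.1.le).trans hyQ
  set TT : MvPolynomial (Option (Fin k)) ℤ → Finset (Pt k) := fun P => (hT P).toFinset with hTT
  have hTcard : ∀ P ∈ hfin.toFinset, ((TT P).card : ℝ) ≤ C * (Q : ℝ) ^ ε := by
    intro P hP
    rw [Set.Finite.mem_toFinset] at hP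
    refine hC Q hQ (piSub P) ((piSub_deg P).trans hP.1) (TT P) ?_
    intro y hy
    rw [hTT, Set.Finite.mem_toFinset] at hy
    exact hy
  have hmaps : ∀ x ∈ MinSet k d H Q, ptY8 k x ∈ hfin.toFinset.biUnion TT := by
    rintro x ⟨h1, h2, h3, h4, h5, h6⟩
    obtain ⟨P, hP, hP0⟩ := dep_fin h3 h5
    rw [Finset.mem_biUnion]
    refine ⟨P, ?_, ?_⟩
    · rw [Set.Finite.mem_toFinset]
      exact ⟨hP.2.1, hP.2.2⟩
    · rw [hTT, Set.Finite.mem_toFinset, ptY8_eq h3]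
      exact ⟨adm_of_res h1 h3 h4, h2, zr_of_minimal h3 hP hP0 h6⟩
  have hinj : Set.InjOn (ptY8 k) (MinSet k d H Q) := by
    rintro x ⟨-, -, hx, -⟩ y ⟨-, -, hy, -⟩ hxy
    exact ptY8_inj hx hy hxy
  have hsub : ptY8 k '' MinSet k d H Q ⊆ (hfin.toFinset.biUnion TT : Set (Pt k)) := by
    rintro _ ⟨x, hx, rfl⟩
    exact hmaps x hx
  have hMfin : (MinSet k d H Q).Finite :=
    Set.Finite.of_finite_image ((Finset.finite_toSet _).subset hsub) hinj
  refine ⟨hMfin, ?_⟩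
  have h1 : (MinSet k d H Q).ncard ≤ (hfin.toFinset.biUnion TT).card := by
    rw [← Set.ncard_image_of_injOn hinj, ← Set.ncard_coe_finset]
    exact Set.ncard_le_ncard hsub (Finset.finite_toSet _)
  have h2 : ((hfin.toFinset.biUnion TT).card : ℝ) ≤ ∑ P ∈ hfin.toFinset, ((TT P).card : ℝ) := by
    exact_mod_cast Finset.card_biUnion_le
  have h3 : ∑ P ∈ hfin.toFinset, ((TT P).card : ℝ) ≤ hfin.toFinset.card • (C * (Q : ℝ) ^ ε) :=
    Finset.sum_le_card_nsmul _ _ _ hTcard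
  have h4 : (hfin.toFinset.card : ℝ) ≤ ((2 * H + 1 : ℕ) : ℝ) ^ ((d + 1) ^ (k + 1)) := by
    rw [← Set.ncard_eq_toFinset_card _ hfin]
    exact_mod_cast hcard
  have hCQ : 0 ≤ C * (Q : ℝ) ^ ε := mul_nonneg hC0 (Real.rpow_nonneg (Nat.cast_nonneg _) _)
  calc ((MinSet k d H Q).ncard : ℝ) ≤ ((hfin.toFinset.biUnion TT).card : ℝ) := by exact_mod_cast h1
    _ ≤ hfin.toFinset.card • (C * (Q : ℝ) ^ ε) := h2.trans h3
    _ = (hfin.toFinset.card : ℝ) * (C * (Q : ℝ) ^ ε) := nsmul_eq_mul _ _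
    _ ≤ ((2 * H + 1 : ℕ) : ℝ) ^ ((d + 1) ^ (k + 1)) * (C * (Q : ℝ) ^ ε) :=
      mul_le_mul_of_nonneg_right h4 hCQ

/-- AXG-Y8b: the set of cardinality `0` is `∅`, and `Dep d H q ∅` would be a relation for `π` alone:
`dep_fin` with `k = 0`, and `piSub_ne`, `eval_piSub` (the polynomial ring in `Fin 0` variables is `ℂ`). -/
theorem minSet_zero (d H Q : ℕ) : MinSet 0 d H Q = ∅ := by
  rw [Set.eq_empty_iff_forall_notMem]
  rintro x ⟨-, -, h3, -, h5, -⟩
  obtain ⟨P, hP, hP0⟩ := dep_fin h3 h5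
  have h1 := eval_piSub (q := x.1) (fun i : Fin 0 => x.2.orderEmbOfFin h3 i) P
  rw [hP0] at h1
  have h2 := piSub_ne hP.1
  rw [MvPolynomial.eq_C_of_isEmpty (piSub P)] at h1 h2
  rw [eval_C] at h1
  exact h2 (by rw [h1, C_0])

end Pool.Agent.Helper94.AXG
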