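import Pool.Agent.Helper94.AXG.H1C

/-! # AXG-H1e: representatives and linear substitutions -/

namespace Pool.Agent.Helper94.AXG

open MvPolynomial Filter Topology

/-- AXG-H1e: `phi A` (`Rp_aeval`; `∑ i, C (A j i) * X i` is represented by the same expression, `gm_int`) -/
theorem Rp_phi {r k : ℕ} (A : Matrix (Fin r) (Fin k) ℤ) {f : MvPolynomial (Fin r) KK}
    {F : ℕ → MvPolynomial (Fin r) ℂ} (hf : Rp f F) :
    Rp (phi (R := KK) A f) (fun n => phi (R := ℂ) A (F n)) := by
  have h : ∀ j : Fin r, Rp (∑ i, C ((A j i : ℤ) : KK) * X i : MvPolynomial (Fin k) KK)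
      (fun _ => ∑ i, C ((A j i : ℤ) : ℂ) * X i) := fun j =>
    Rp_sum Finset.univ fun i _ => (Rp_C (fun _ => ((A j i : ℤ) : ℂ))).mul (Rp_X i)
  exact Rp_aeval hf h

private theorem H1F_rename {r k : ℕ} {R : Type} [CommRing R] (e : Fin r → Fin k)
    (f : MvPolynomial (Fin r) R) :
    aeval (fun j => (X (e j) : MvPolynomial (Fin k) R)) f = rename e f := by
  have h : aeval (fun j => (X (e j) : MvPolynomial (Fin k) R)) = rename e := by
    apply MvPolynomial.algHom_ext
    intro i
    rw [aeval_X, rename_X]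
  rw [h]

/-- AXG-H1e: an injective renaming of the variables -/
theorem Rp_rename {r k : ℕ} (e : Fin r → Fin k) {f : MvPolynomial (Fin r) KK}
    {F : ℕ → MvPolynomial (Fin r) ℂ} (hf : Rp f F) :
    Rp (rename e f) (fun n => rename e (F n)) := by
  have h := Rp_aeval hf (fun j => Rp_X (e j))
  simp only [H1F_rename] at h
  exact h

/-- AXG-H1e: the linear forms -/
theorem Rp_lin2 {k : ℕ} (i j : Fin k) (M M' : ℕ → ℂ) :
    Rp (lin2 i j (gm M) (gm M') : MvPolynomial (Fin k) KK) (fun n => lin2 i j (M n) (M' n)) :=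
  ((Rp_C M).mul (Rp_X i)).sub ((Rp_C M').mul (Rp_X j))

end Pool.Agent.Helper94.AXG
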