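import Pool.Agent.Helper94.AXG.HB

/-! # AXG-H4a, H4b: linear substitutions -/

namespace Pool.Agent.Helper94.AXG

open MvPolynomial Filter Topology

private theorem h4_X {r k : ℕ} {R : Type} [CommRing R] (A : Matrix (Fin r) (Fin k) ℤ) (j : Fin r) :
    phi (R := R) A (X j) = ∑ i, C ((A j i : ℤ) : R) * X i := by
  unfold phi
  rw [aeval_X]

/-- AXG-H4a: composition: `f (E (A x)) = f ((E A) x)` -/
theorem phi_phi {r s k : ℕ} {R : Type} [CommRing R] (E : Matrix (Fin r) (Fin s) ℤ)
    (A : Matrix (Fin s) (Fin k) ℤ) (f : MvPolynomial (Fin r) R) :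
    phi (R := R) A (phi (R := R) E f) = phi (R := R) (E * A) f := by
  have h : (phi (R := R) A).comp (phi (R := R) E) = phi (R := R) (E * A) := by
    apply algHom_ext
    intro j
    rw [AlgHom.comp_apply, h4_X, h4_X, map_sum]
    calc ∑ i, phi (R := R) A (C ((E j i : ℤ) : R) * X i)
        = ∑ i, ∑ l, C ((E j i : ℤ) : R) * (C ((A i l : ℤ) : R) * X l) := by
          refine Finset.sum_congr rfl (fun i _ => ?_)
          rw [map_mul, h4_X, algHom_C, algebraMap_eq, Finset.mul_sum]
      _ = ∑ l, ∑ i, C ((E j i : ℤ) : R) * (C ((A i l : ℤ) : R) * X l) := Finset.sum_comm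
      _ = ∑ l, C (((E * A) j l : ℤ) : R) * X l := by
          refine Finset.sum_congr rfl (fun l _ => ?_)
          rw [Matrix.mul_apply, Int.cast_sum, map_sum, Finset.sum_mul]
          refine Finset.sum_congr rfl (fun i _ => ?_)
          rw [Int.cast_mul, C_mul, mul_assoc]
  exact DFunLike.congr_fun h f

/-- AXG-H4a -/
theorem phi_one {k : ℕ} {R : Type} [CommRing R] (f : MvPolynomial (Fin k) R) :
    phi (R := R) (1 : Matrix (Fin k) (Fin k) ℤ) f = f := by
  have h : phi (R := R) (1 : Matrix (Fin k) (Fin k) ℤ) = AlgHom.id R _ := by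
    apply algHom_ext
    intro j
    rw [h4_X, AlgHom.id_apply, Finset.sum_eq_single j]
    · rw [Matrix.one_apply_eq, Int.cast_one, C_1, one_mul]
    · intro i _ hij
      rw [Matrix.one_apply_ne (Ne.symm hij), Int.cast_zero, C_0, zero_mul]
    · intro h
      exact absurd (Finset.mem_univ _) h
  rw [h, AlgHom.id_apply]

/-- AXG-H4a: evaluation -/
theorem eval_phi {r k : ℕ} (A : Matrix (Fin r) (Fin k) ℤ) (f : MvPolynomial (Fin r) ℂ) (x : Fin k → ℂ) :
    eval x (phi (R := ℂ) A f) = eval (mv A x) f := by
  induction f using MvPolynomial.induction_on with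
  | C a => rw [algHom_C, algebraMap_eq, eval_C, eval_C]
  | add p q hp hq => rw [map_add, map_add, map_add, hp, hq]
  | mul_X p j hp =>
    rw [map_mul, map_mul, map_mul, hp, h4_X, eval_X, map_sum]
    congr 1
    unfold mv
    refine Finset.sum_congr rfl (fun i _ => ?_)
    rw [map_mul, eval_C, eval_X]

/-- AXG-H4a: a polynomial in the first `r` variables -/
theorem phi_rename {r k : ℕ} {R : Type} [CommRing R] (hrk : r ≤ k) (A : Matrix (Fin k) (Fin k) ℤ)
    (g : MvPolynomial (Fin r) R) :
    phi (R := R) A (rename (Fin.castLE hrk) g) = phi (R := R) (rows hrk A) g := by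
  unfold phi
  rw [aeval_rename]
  rfl

/-- AXG-H4b: linear substitutions do not raise the degree (monomials: `totalDegree_finset_prod`,
`totalDegree_pow`, linear forms have degree `≤ 1`) -/
theorem deg_phi {r k : ℕ} {R : Type} [CommRing R] (A : Matrix (Fin r) (Fin k) ℤ)
    (f : MvPolynomial (Fin r) R) : (phi (R := R) A f).totalDegree ≤ f.totalDegree := by
  rcases subsingleton_or_nontrivial R with hR | hR
  · rw [Subsingleton.elim (phi (R := R) A f) 0, totalDegree_zero]
    exact Nat.zero_le _
  · have hlin : ∀ j : Fin r, (∑ i, C ((A j i : ℤ) : R) * X i :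
        MvPolynomial (Fin k) R).totalDegree ≤ 1 := by
      intro j
      refine totalDegree_finsetSum_le (fun i _ => ?_)
      refine (totalDegree_mul _ _).trans ?_
      rw [totalDegree_C, totalDegree_X, zero_add]
    have h1 : phi (R := R) A f = ∑ d ∈ f.support, C (coeff d f) *
        ∏ j, (∑ i, C ((A j i : ℤ) : R) * X i : MvPolynomial (Fin k) R) ^ d j := by
      unfold phi
      rw [aeval_def, eval₂_eq']
      rfl
    rw [h1]
    refine totalDegree_finsetSum_le (fun d hd => ?_)
    refine (totalDegree_mul _ _).trans ?_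
    rw [totalDegree_C, zero_add]
    refine (totalDegree_finsetProd _ _).trans ?_
    refine le_trans ?_ (le_totalDegree hd)
    rw [Finsupp.sum_fintype _ _ (fun _ => rfl)]
    refine Finset.sum_le_sum (fun j _ => ?_)
    refine (totalDegree_pow _ _).trans ?_
    exact (Nat.mul_le_mul_left _ (hlin j)).trans (mul_one _).le

end Pool.Agent.Helper94.AXG
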