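import Pool.Agent.Helper94.AXG.H2
import Pool.Agent.Helper94.AXG.H1F
import Pool.Agent.Helper94.AXG.H4

/-! # AXG-H10a: no relations -/

namespace Pool.Agent.Helper94.AXG

open MvPolynomial Filter Topology

/-- AXG-H10a: Proof. Suppose that `aeval (mv (rows A) (xp P)) (G n) = 0` for all `P ∈ T n`, eventually. Let `G' n` be the image
of `G n` over `ℂ` (`MvPolynomial.map (Int.castRingHom ℂ)`), of degree `≤ D`, `≠ 0` eventually;
`exists_of_seq` gives `g` with `Rp g G'`, `g ≠ 0` by `Rp.zero_iff`. `phi (rows A) g` is represented by `phi (rows A) (G' n)`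
(`Rp_phi`), whose value at `xp P` is `eval (mv (rows A) (xp P)) (G' n) = 0` (`eval_phi`); so
`phi (rows A) g ∈ Idl T = Idl S` and `g = 0`, a contradiction. -/
theorem maxi_of {k r : ℕ} {Q : ℕ → ℕ} {S : ℕ → Finset (Pt k)} (A : Matrix (Fin r) (Fin k) ℤ)
    (hmax : ∀ T' : ℕ → Finset (Pt k), (∀ n, T' n ⊆ S n) → Large Q T' → Idl T' = Idl S)
    (hinj : ∀ g : MvPolynomial (Fin r) KK, phi (R := KK) A g ∈ Idl S → g = 0)
    (T : ℕ → Finset (Pt k)) (hT : ∀ n, T n ⊆ S n) (hL : Large Q T) (D : ℕ)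
    (G : ℕ → MvPolynomial (Fin r) ℤ)
    (hG : ∀ᶠ n in (UF : Filter ℕ), G n ≠ 0 ∧ (G n).totalDegree ≤ D) :
    ¬ ∀ᶠ n in (UF : Filter ℕ), ∀ P ∈ T n, aeval (mv A (xp P)) (G n) = 0 := by
  intro hv
  have hi : Function.Injective (Int.castRingHom ℂ) := Int.cast_injective
  have hdeg : ∀ᶠ n in (UF : Filter ℕ),
      (MvPolynomial.map (Int.castRingHom ℂ) (G n)).totalDegree ≤ D := by
    filter_upwards [hG] with n h
    exact (Finset.sup_mono (support_map_subset _ _)).trans h.2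
  obtain ⟨g, hg⟩ := exists_of_seq (fun n => MvPolynomial.map (Int.castRingHom ℂ) (G n)) hdeg
  have hmem : phi (R := KK) A g ∈ Idl S := by
    rw [← hmax T hT hL, mem_Idl (Rp_phi A hg)]
    filter_upwards [hv] with n h P hP
    rw [eval_phi, eval_map]
    exact h P hP
  have h0 := (Rp.zero_iff hg).1 (hinj g hmem)
  obtain ⟨n, h1, h2⟩ := (h0.and hG).exists
  exact h2.1 ((map_injective _ hi) (h1.trans (map_zero _).symm))

end Pool.Agent.Helper94.AXG
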