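import Pool.Agent.Helper94.AXG.HB

/-! # AXG-H2b, H2c: large families -/

namespace Pool.Agent.Helper94.AXG

open MvPolynomial Filter Topology

private theorem rpow_ge {Q : ℕ → ℕ} (hQ : Tendsto Q atTop atTop) {c : ℝ} (hc : 0 < c) (M : ℝ) :
    ∀ᶠ n in (UF : Filter ℕ), M ≤ (Q n : ℝ) ^ c := by
  have h1 : Tendsto (fun n => (Q n : ℝ) ^ c) atTop atTop :=
    (tendsto_rpow_atTop hc).comp (tendsto_natCast_atTop_atTop.comp hQ)
  exact (h1.eventually_ge_atTop M).filter_mono Nat.hyperfilter_le_atTop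

/-- AXG-H2b: large families are eventually as large as we want. Proof. `Q n ^ c → ∞` along `atTop`
(`tendsto_rpow_atTop`, `tendsto_natCast_atTop_atTop`), and `UF ≤ atTop` (`Nat.hyperfilter_le_atTop`). -/
theorem Large.card {k : ℕ} {Q : ℕ → ℕ} (hQ : Tendsto Q atTop atTop) {S : ℕ → Finset (Pt k)}
    (h : Large Q S) (N : ℕ) : ∀ᶠ n in (UF : Filter ℕ), N ≤ (S n).card := by
  obtain ⟨c, hc, hS⟩ := h
  filter_upwards [hS, rpow_ge hQ hc (N : ℝ)] with n h1 h2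
  exact_mod_cast h2.trans h1

/-- AXG-H2c: one of two parts is large. Proof. `Ultrafilter.eventually_or`: eventually `card (T₁ n) ≥ card (S n) / 2`,
or eventually the same for `T₂`; and `Q^c / 2 ≥ Q^(c/2)` as soon as `Q^(c/2) ≥ 2`. -/
theorem Large.split {k : ℕ} {Q : ℕ → ℕ} (hQ : Tendsto Q atTop atTop) {S T₁ T₂ : ℕ → Finset (Pt k)}
    (h : Large Q S) (hST : ∀ᶠ n in (UF : Filter ℕ), S n ⊆ T₁ n ∪ T₂ n) : Large Q T₁ ∨ Large Q T₂ := by
  obtain ⟨c, hc, hS⟩ := h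
  have hc2 : 0 < c / 2 := by linarith
  have key : ∀ᶠ n in (UF : Filter ℕ), (Q n : ℝ) ^ (c / 2) ≤ ((T₁ n).card : ℝ) ∨
      (Q n : ℝ) ^ (c / 2) ≤ ((T₂ n).card : ℝ) := by
    filter_upwards [hS, hST, rpow_ge hQ hc2 2] with n h1 h2 h3
    have e1 : (Q n : ℝ) ^ c = (Q n : ℝ) ^ (c / 2) * (Q n : ℝ) ^ (c / 2) := by
      rw [← Real.rpow_add' (Nat.cast_nonneg _) (by linarith)]
      congr 1
      ring
    have e2 : (S n).card ≤ (T₁ n).card + (T₂ n).card :=
      (Finset.card_le_card h2).trans (Finset.card_union_le _ _)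
    have e3 : ((S n).card : ℝ) ≤ (T₁ n).card + (T₂ n).card := by exact_mod_cast e2
    by_contra hcon
    rw [not_or, not_le, not_le] at hcon
    nlinarith [hcon.1, hcon.2]
  rcases Ultrafilter.eventually_or.1 key with h1 | h1
  · exact Or.inl ⟨c / 2, hc2, h1⟩
  · exact Or.inr ⟨c / 2, hc2, h1⟩

end Pool.Agent.Helper94.AXG
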