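import Pool.Agent.Helper94.AXG.H8A

/-! # AXG-H8b: the number of points of a tower -/

namespace Pool.Agent.Helper94.AXG

open MvPolynomial Filter Topology

/-- the restriction to the coordinates `< t` -/
private noncomputable def restr {k : ℕ} (t : ℕ) (z : Fin k → ℂ) : Fin k → ℂ :=
  fun i => if (i : ℕ) < t then z i else 0

private theorem restr_restr {k : ℕ} {t s : ℕ} (h : t ≤ s) (z : Fin k → ℂ) :
    restr t (restr s z) = restr t z := by
  funext i
  unfold restr
  by_cases hi : (i : ℕ) < t
  · simp only [hi, if_true]
    rw [if_pos (lt_of_lt_of_le hi h)]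
  · simp only [hi, if_false]

private theorem tower_aux {k : ℕ} (r : ℕ) (m : Fin k → ℕ) (f : Fin k → MvPolynomial (Fin k) ℂ)
    (hf : ∀ j : Fin k, r ≤ (j : ℕ) → LeadAt j (m j) (f j)) (w : Fin k → ℂ) (Z : Finset (Fin k → ℂ))
    (hZ : ∀ z ∈ Z, (∀ i : Fin k, (i : ℕ) < r → z i = w i) ∧
      ∀ j : Fin k, r ≤ (j : ℕ) → eval z (f j) = 0) (t : ℕ) (hrt : r ≤ t) :
    t ≤ k → (Z.image (restr t)).card ≤
      ∏ j ∈ Finset.univ.filter (fun j : Fin k => r ≤ (j : ℕ) ∧ (j : ℕ) < t), m j := by
  induction t, hrt using Nat.le_induction with
  | base =>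
    intro _
    have h1 : (Z.image (restr r)) ⊆ {restr r w} := by
      intro x hx
      obtain ⟨z, hz, rfl⟩ := Finset.mem_image.1 hx
      rw [Finset.mem_singleton]
      funext i
      unfold restr
      by_cases hi : (i : ℕ) < r
      · simp only [hi, if_true]
        exact (hZ z hz).1 i hi
      · simp only [hi, if_false]
    have h2 : Finset.univ.filter (fun j : Fin k => r ≤ (j : ℕ) ∧ (j : ℕ) < r) = ∅ := by
      apply Finset.filter_eq_empty_iff.2
      intro j _ h
      omega
    rw [h2, Finset.prod_empty]
    exact (Finset.card_le_card h1).trans (by simp)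
  | succ t hrt ih =>
    intro htk
    have ih' := ih (by omega)
    set T : Fin k := ⟨t, by omega⟩ with hT
    have h1 : Finset.univ.filter (fun j : Fin k => r ≤ (j : ℕ) ∧ (j : ℕ) < t + 1) =
        insert T (Finset.univ.filter (fun j : Fin k => r ≤ (j : ℕ) ∧ (j : ℕ) < t)) := by
      ext j
      simp only [Finset.mem_filter, Finset.mem_univ, true_and, Finset.mem_insert, hT, Fin.ext_iff]
      omega
    have h2 : T ∉ Finset.univ.filter (fun j : Fin k => r ≤ (j : ℕ) ∧ (j : ℕ) < t) := by
      simp [hT]
    rw [h1, Finset.prod_insert h2]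
    have h3 : (Z.image (restr (t + 1))).image (restr t) = Z.image (restr t) := by
      rw [Finset.image_image]
      apply Finset.image_congr
      intro z _
      exact restr_restr (Nat.le_succ t) z
    refine (Finset.card_le_mul_card_image (f := restr t) (Z.image (restr (t + 1))) (m T) ?_).trans ?_
    · intro y hy
      obtain ⟨R, hR, hR2⟩ := lead_roots (hf T (by simpa [hT] using hrt)) y
      refine le_trans ?_ hR
      apply Finset.card_le_card_of_injOn (fun x => x T)
      · intro x hx
        have hx' := Finset.mem_filter.1 hx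
        obtain ⟨z, hz, rfl⟩ := Finset.mem_image.1 hx'.1
        have h4 : restr t z = y := by
          rw [← hx'.2]
          exact (restr_restr (Nat.le_succ t) z).symm
        have h5 : (restr (t + 1) z) T = z T := by
          unfold restr
          rw [if_pos (by simp [hT])]
        simp only [h5]
        apply hR2 z
        · intro i hi
          rw [← h4]
          unfold restr
          have : (i : ℕ) < t := by simpa [hT, Fin.lt_def] using hi
          rw [if_pos this]
        · exact (hZ z hz).2 T (by simpa [hT] using hrt)
      · intro x hx x' hx' hxx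
        have hx1 := Finset.mem_filter.1 (Finset.mem_coe.1 hx)
        have hx2 := Finset.mem_filter.1 (Finset.mem_coe.1 hx')
        obtain ⟨z, hz, rfl⟩ := Finset.mem_image.1 hx1.1
        obtain ⟨z', hz', rfl⟩ := Finset.mem_image.1 hx2.1
        have h6 : restr t z = restr t z' := by
          rw [← restr_restr (Nat.le_succ t) z, ← restr_restr (Nat.le_succ t) z', hx1.2, hx2.2]
        funext i
        by_cases hi : (i : ℕ) < t
        · have := congrFun h6 i
          unfold restr at this ⊢
          rw [if_pos hi, if_pos hi] at this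
          rw [if_pos (by omega), if_pos (by omega)]
          exact this
        · by_cases hi2 : (i : ℕ) = t
          · have : i = T := by
              rw [hT, Fin.ext_iff]
              exact hi2
            rw [this]
            exact hxx
          · unfold restr
            rw [if_neg (by omega), if_neg (by omega)]
    · rw [h3]
      exact Nat.mul_le_mul_left _ ih'

/-- AXG-H8b: Proof. Induction on `t`, `r ≤ t ≤ k`: the image of `Z` under the restriction to the coordinates `< t` (e.g.
`z ↦ fun i => if i < t then z i else 0`) has at most `∏ j ∈ {r ≤ j < t}, m j` elements; the step is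
`Finset.card_le_mul_card_image` with `lead_roots`. -/
theorem tower_card {k : ℕ} (r : ℕ) (m : Fin k → ℕ) (f : Fin k → MvPolynomial (Fin k) ℂ)
    (hf : ∀ j : Fin k, r ≤ (j : ℕ) → LeadAt j (m j) (f j)) (w : Fin k → ℂ) (Z : Finset (Fin k → ℂ))
    (hZ : ∀ z ∈ Z, (∀ i : Fin k, (i : ℕ) < r → z i = w i) ∧
      ∀ j : Fin k, r ≤ (j : ℕ) → eval z (f j) = 0) :
    Z.card ≤ ∏ j ∈ Finset.univ.filter (fun j : Fin k => r ≤ (j : ℕ)), m j := by
  by_cases hrk : r ≤ k
  · have h := tower_aux r m f hf w Z hZ k hrk le_rfl
    have h1 : Finset.univ.filter (fun j : Fin k => r ≤ (j : ℕ) ∧ (j : ℕ) < k) =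
        Finset.univ.filter (fun j : Fin k => r ≤ (j : ℕ)) := by
      ext j
      simp
    have h2 : Z.image (restr k) = Z := by
      have : ∀ z ∈ Z, restr k z = z := by
        intro z _
        funext i
        unfold restr
        rw [if_pos i.isLt]
      rw [Finset.image_congr (g := id) (fun z hz => this z hz), Finset.image_id]
    rw [h1, h2] at h
    exact h
  · have h1 : Z ⊆ {w} := by
      intro z hz
      rw [Finset.mem_singleton]
      funext i
      exact (hZ z hz).1 i (by have := i.isLt; omega)
    have h2 : Finset.univ.filter (fun j : Fin k => r ≤ (j : ℕ)) = ∅ := by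
      apply Finset.filter_eq_empty_iff.2
      intro j _ h
      have := j.isLt
      omega
    rw [h2, Finset.prod_empty]
    exact (Finset.card_le_card h1).trans (by simp)

end Pool.Agent.Helper94.AXG
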