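import Pool.Agent.Helper94.AXG.H2
import Pool.Agent.Helper94.AXG.H2A
import Pool.Agent.Helper94.AXG.H1F
import Pool.Agent.Helper94.AXG.H4
import Pool.Agent.Helper94.AXG.H8

/-! # AXG-H10b, c: the dimension is positive -/

namespace Pool.Agent.Helper94.AXG

open MvPolynomial Filter Topology

/-- AXG-H10c: `B (A x) = x` -/
theorem mv_inj {k : ℕ} {A B : Matrix (Fin k) (Fin k) ℤ} (h : B * A = 1) : Function.Injective (mv A) := by
  have key : ∀ x : Fin k → ℂ, mv B (mv A x) = x := by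
    intro x
    have h1 : mv B (mv A x) = fun i => ∑ l, (((B * A) i l : ℤ) : ℂ) * x l := by
      funext i
      unfold mv
      simp only [Matrix.mul_apply, Int.cast_sum, Int.cast_mul, Finset.mul_sum, Finset.sum_mul]
      rw [Finset.sum_comm]
      refine Finset.sum_congr rfl fun l _ => Finset.sum_congr rfl fun j _ => ?_
      ring
    rw [h1, h]
    funext i
    simp [Matrix.one_apply]
  intro x y hxy
  rw [← key x, ← key y, hxy]

/-- AXG-H10b: `r ≥ 1`. Proof. Suppose `Tow (Idl S) 0 A B f F`. For every `j`: `phi A (f j) ∈ Idl S`, so eventually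
`eval (mv A (xp P)) (F j n) = 0` for all `P ∈ S n` (`mem_Idl`, `Rp_phi`, `eval_phi`), and
`LeadAt j (m j) (F j n)` (`Good`). So `tower_card` (with `r = 0`) for `Z = (S n).image (fun P => mv A (xp P))` gives
`Z.card ≤ ∏ j, m j`; and `Z.card = (S n).card` because `xp` is injective on `S n` and `x ↦ mv A x` is injective
(`B * A = 1`). This contradicts `Large.card` with `N = ∏ j, m j + 1`. -/
theorem r_pos_of {k : ℕ} {Q : ℕ → ℕ} (hQ : Tendsto Q atTop atTop) {S : ℕ → Finset (Pt k)}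
    (hS : Large Q S) (hinj : ∀ n, Set.InjOn xp (S n : Set (Pt k)))
    {A B : Matrix (Fin k) (Fin k) ℤ} {f : Fin k → MvPolynomial (Fin k) KK}
    {F : Fin k → ℕ → MvPolynomial (Fin k) ℂ} (h : Tow (Idl S) 0 A B f F) : False := by
  classical
  have hg : ∀ j : Fin k, ∃ m : ℕ, ∀ᶠ n in (UF : Filter ℕ), LeadAt j m (F j n) := by
    intro j
    obtain ⟨D, m, m', Fs, _, he, _, _⟩ := h.good j (Nat.zero_le _)
    exact ⟨m, he.mono fun n hn => hn.2.2⟩
  choose m hm using hg
  have hz : ∀ j : Fin k, ∀ᶠ n in (UF : Filter ℕ), ∀ P ∈ S n, eval (mv A (xp P)) (F j n) = 0 := by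
    intro j
    have h1 := (mem_Idl (Rp_phi A (h.rep j (Nat.zero_le _)))).1 (h.mem j (Nat.zero_le _))
    refine h1.mono fun n hn P hP => ?_
    rw [← eval_phi]
    exact hn P hP
  have h1 : ∀ᶠ n in (UF : Filter ℕ), ∀ j, LeadAt j (m j) (F j n) := Filter.eventually_all.2 hm
  have h2 : ∀ᶠ n in (UF : Filter ℕ), ∀ j, ∀ P ∈ S n, eval (mv A (xp P)) (F j n) = 0 :=
    Filter.eventually_all.2 hz
  have h3 := hS.card hQ ((∏ j ∈ Finset.univ.filter (fun j : Fin k => 0 ≤ (j : ℕ)), m j) + 1)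
  obtain ⟨n, ⟨ha, hb⟩, hc⟩ := ((h1.and h2).and h3).exists
  have hcard := tower_card 0 m (fun j => F j n) (fun j _ => ha j) 0
    ((S n).image (fun P => mv A (xp P))) (by
      intro z hz'
      obtain ⟨P, hP, rfl⟩ := Finset.mem_image.1 hz'
      exact ⟨fun i hi => absurd hi (Nat.not_lt_zero _), fun j _ => hb j P hP⟩)
  rw [Finset.card_image_of_injOn] at hcard
  · omega
  · intro P hP P' hP' heq
    exact hinj n hP hP' (mv_inj h.BA heq)

end Pool.Agent.Helper94.AXG
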