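import Pool.Agent.Helper94.AXG.H2
import Pool.Agent.Helper94.AXG.H2A

/-! # AXG-H3: the ideal is prime -/

namespace Pool.Agent.Helper94.AXG

open MvPolynomial Filter Topology

open scoped Classical in
/-- AXG-H3: the ideal is prime. Proof. `1 ∉ Idl T`: its value is `1`, and `T n` is nonempty eventually
(`Large.card` with `N = 1`; an eventual falsehood contradicts `NeBot`). Let `f * g ∈ Idl T`, `F`, `G`
representatives; `F n * G n` vanishes on `T n` eventually, so `T n ⊆ T₁ n ∪ T₂ n` with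
`T₁ n = (T n).filter (eval (xp ·) (F n) = 0)`, `T₂` the same with `G`. By `Large.split` one of them is large,
say `T₁`; then `f ∈ Idl T₁ = Idl T`. -/
theorem Idl_prime {k : ℕ} {Q : ℕ → ℕ} (hQ : Tendsto Q atTop atTop) {T : ℕ → Finset (Pt k)}
    (hT : Large Q T)
    (hmax : ∀ T' : ℕ → Finset (Pt k), (∀ n, T' n ⊆ T n) → Large Q T' → Idl T' = Idl T) :
    (Idl T).IsPrime := by
  refine ⟨?_, ?_⟩
  · rw [Ideal.ne_top_iff_one]
    intro h1
    have h2 := (mem_Idl (S := T) Rp_one).1 h1
    obtain ⟨n, hn, hn'⟩ := (h2.and (hT.card hQ 1)).exists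
    obtain ⟨P, hP⟩ := Finset.card_pos.1 (Nat.lt_of_lt_of_le Nat.zero_lt_one hn')
    have h3 := hn P hP
    rw [map_one] at h3
    exact one_ne_zero h3
  · intro f g hfg
    obtain ⟨F, hF⟩ := exists_Rp f
    obtain ⟨G, hG⟩ := exists_Rp g
    have h1 := (mem_Idl (hF.mul hG)).1 hfg
    let T₁ : ℕ → Finset (Pt k) := fun n => (T n).filter (fun P => eval (xp P) (F n) = 0)
    let T₂ : ℕ → Finset (Pt k) := fun n => (T n).filter (fun P => eval (xp P) (G n) = 0)
    have h2 : ∀ᶠ n in (UF : Filter ℕ), T n ⊆ T₁ n ∪ T₂ n := by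
      filter_upwards [h1] with n hn P hP
      have h3 := hn P hP
      rw [map_mul, mul_eq_zero] at h3
      rw [Finset.mem_union]
      rcases h3 with h3 | h3
      · exact Or.inl (Finset.mem_filter.2 ⟨hP, h3⟩)
      · exact Or.inr (Finset.mem_filter.2 ⟨hP, h3⟩)
    rcases hT.split hQ h2 with h3 | h3
    · left
      rw [← hmax T₁ (fun n => Finset.filter_subset _ _) h3]
      exact ⟨F, hF, Filter.Eventually.of_forall fun n P hP => (Finset.mem_filter.1 hP).2⟩
    · right
      rw [← hmax T₂ (fun n => Finset.filter_subset _ _) h3]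
      exact ⟨G, hG, Filter.Eventually.of_forall fun n P hP => (Finset.mem_filter.1 hP).2⟩

end Pool.Agent.Helper94.AXG
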