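import Pool.Agent.Helper94.AXG.H6B

/-! # AXG-H6c: the tower -/

namespace Pool.Agent.Helper94.AXG

open MvPolynomial Filter Topology

private theorem exists_Tow_aux {k : ℕ} (I : Ideal (MvPolynomial (Fin k) KK)) (hI : I ≠ ⊤) :
    ∀ (r : ℕ) (A B : Matrix (Fin k) (Fin k) ℤ) (f : Fin k → MvPolynomial (Fin k) KK)
      (F : Fin k → ℕ → MvPolynomial (Fin k) ℂ), Tow I r A B f F → r ≤ k →
    ∃ (r : ℕ) (hrk : r ≤ k) (A B : Matrix (Fin k) (Fin k) ℤ) (f : Fin k → MvPolynomial (Fin k) KK)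
      (F : Fin k → ℕ → MvPolynomial (Fin k) ℂ), Tow I r A B f F ∧
      ∀ g : MvPolynomial (Fin r) KK, phi (R := KK) (rows hrk A) g ∈ I → g = 0 := by
  intro r
  induction r with
  | zero =>
    intro A B f F h hrk
    refine ⟨0, hrk, A, B, f, F, h, ?_⟩
    intro g hg
    by_contra hne
    obtain ⟨c, rfl⟩ : ∃ c : KK, g = C c := ⟨_, MvPolynomial.eq_C_of_isEmpty g⟩
    have hc : c ≠ 0 := by
      rintro rfl
      exact hne (by simp)
    have h1 : phi (R := KK) (rows hrk A) (C c) = C c := by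
      unfold phi
      rw [aeval_C]
      rfl
    rw [h1] at hg
    refine hI (Ideal.eq_top_of_isUnit_mem I hg ?_)
    exact (IsUnit.mk0 c hc).map C
  | succ r ih =>
    intro A B f F h hrk
    by_cases hmax : ∀ g : MvPolynomial (Fin (r + 1)) KK, phi (R := KK) (rows hrk A) g ∈ I → g = 0
    · exact ⟨r + 1, hrk, A, B, f, F, h, hmax⟩
    · push Not at hmax
      obtain ⟨g, hgI, hg⟩ := hmax
      obtain ⟨A', B', f', F', h'⟩ := Tow.step hI h hrk hg hgI
      exact ih A' B' f' F' h' (by omega)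

/-- AXG-H6c: the tower. Proof. Descending induction (for `t = k - r`): `Tow I k 1 1 0 0` holds; if for `Tow I r A B f F` there is
`g ≠ 0` with `phi (rows A) g ∈ I`, then `r ≥ 1` (a polynomial without variables is a constant, and
`C c ∈ I`, `c ≠ 0`, contradicts `I ≠ ⊤`), and `Tow.step` gives a tower for `r - 1`. -/
theorem exists_Tow {k : ℕ} (I : Ideal (MvPolynomial (Fin k) KK)) (hI : I ≠ ⊤) :
    ∃ (r : ℕ) (hrk : r ≤ k) (A B : Matrix (Fin k) (Fin k) ℤ) (f : Fin k → MvPolynomial (Fin k) KK)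
      (F : Fin k → ℕ → MvPolynomial (Fin k) ℂ), Tow I r A B f F ∧
      ∀ g : MvPolynomial (Fin r) KK, phi (R := KK) (rows hrk A) g ∈ I → g = 0 := by
  refine exists_Tow_aux I hI k 1 1 0 (fun _ _ => 0) ?_ le_rfl
  refine ⟨by simp, by simp, ?_, ?_, ?_⟩
  · intro j hj
    exact absurd j.isLt (not_lt.2 hj)
  · intro j hj
    exact absurd j.isLt (not_lt.2 hj)
  · intro j hj
    exact absurd j.isLt (not_lt.2 hj)

end Pool.Agent.Helper94.AXG
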