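import Pool.Agent.Helper94.AXG.HB

/-! # AXG-H6d: good sequences represent polynomials with leading powers -/

namespace Pool.Agent.Helper94.AXG

open MvPolynomial Filter Topology

/-- AXG-H6d: a sequence with `Good j` represents a polynomial of the form `LeadAt j m`, `m ≥ 1`: the
coefficient of `z_j^m` is eventually `≠ 0`, and for the other exponents: if the germ of the coefficient is not zero
then the coefficient is not zero for some `n` (with `LeadAt j m (F n)`). -/
theorem Good.lead {k : ℕ} {j : Fin k} {f : MvPolynomial (Fin k) KK} {F : ℕ → MvPolynomial (Fin k) ℂ}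
    (h : Good j F) (hF : Rp f F) : ∃ m, 1 ≤ m ∧ LeadAt j m f := by
  obtain ⟨D, m, m', Fs, hm, hev, -, -⟩ := h
  refine ⟨m, hm, ?_, ?_⟩
  · rw [hF.2]
    exact gm_ne_zero.2 (hev.mono fun n hn => hn.2.2.1)
  · intro ν hν
    rw [hF.2] at hν
    have h1 := gm_ne_zero.1 hν
    obtain ⟨n, hn1, hn2⟩ := (h1.and hev).exists
    exact hn2.2.2.2 ν hn1

end Pool.Agent.Helper94.AXG
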