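import Pool.Agent.Helper94.AXG.HDefs

/-! # AXG-H7c: transitivity of integrality -/

namespace Pool.Agent.Helper94.AXG

open MvPolynomial Filter Topology

/-- AXG-H7c: a root of a monic polynomial with integral coefficients is integral (`integralClosure`, `isIntegral_trans`
for the algebra structure `RingHom.toAlgebra`, or `RingHom.IsIntegralElem`): if `z ^ m = ∑ i < m, b i * z ^ i`, all `b i`
integral for `φ`, then `z` is integral for `φ`. -/
theorem integral_root {S T : Type} [CommRing S] [CommRing T] (φ : S →+* T) {m : ℕ} {z : T}
    (b : ℕ → T) (hb : ∀ i, i < m → φ.IsIntegralElem (b i)) (hz : z ^ m = ∑ i ∈ Finset.range m, b i * z ^ i) :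
    φ.IsIntegralElem z := by
  classical
  let _ : Algebra S T := φ.toAlgebra
  have hb' : ∀ i, i < m → IsIntegral S (b i) := fun i hi => hb i hi
  have key : IsIntegral S z := by
    apply isIntegral_trans (R := S) (A := integralClosure S T) (B := T)
    let c : ℕ → integralClosure S T := fun i =>
      if h : i < m then ⟨b i, hb' i h⟩ else 0
    refine ⟨Polynomial.X ^ m - ∑ i ∈ Finset.range m, Polynomial.C (c i) * Polynomial.X ^ i, ?_, ?_⟩
    · apply Polynomial.monic_X_pow_sub
      rw [← Polynomial.mem_degreeLT]
      refine Submodule.sum_mem _ fun i hi => ?_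
      rw [Polynomial.mem_degreeLT]
      exact lt_of_le_of_lt (Polynomial.degree_C_mul_X_pow_le _ _)
        (by exact_mod_cast Finset.mem_range.mp hi)
    · rw [Polynomial.eval₂_sub, Polynomial.eval₂_pow, Polynomial.eval₂_X, Polynomial.eval₂_finsetSum, hz,
        sub_eq_zero]
      refine Finset.sum_congr rfl fun i hi => ?_
      rw [Polynomial.eval₂_mul, Polynomial.eval₂_C, Polynomial.eval₂_pow, Polynomial.eval₂_X]
      have hi' : i < m := Finset.mem_range.mp hi
      have : algebraMap (integralClosure S T) T (c i) = b i := by
        simp only [c, dif_pos hi']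
        rfl
      rw [this]
  exact key

end Pool.Agent.Helper94.AXG
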