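import Pool.Agent.Helper94.AXG.HDefs

/-! # AXG-H7d: the leading power -/

namespace Pool.Agent.Helper94.AXG

open MvPolynomial Filter Topology

/-- AXG-H7d: a polynomial of the form `LeadAt j m` over a field, written by powers of `X j`:
`C a * X j ^ m = g + ∑ i < m, b i * X j ^ i` with `g = f`, where the `b i` are polynomials in the variables with index
`< j`. Proof. Group the monomials `ν ≠ single j m` by `i = ν j < m`:
`b i = - ∑ ν ∈ f.support, ν j = i, monomial (ν.erase j) (coeff ν f)`. -/
theorem lead_expand {k : ℕ} {K : Type} [Field K] {j : Fin k} {m : ℕ} {f : MvPolynomial (Fin k) K}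
    (hf : LeadAt j m f) : ∃ (a : K) (b : ℕ → MvPolynomial (Fin k) K), a ≠ 0 ∧
      (∀ i ν, coeff ν (b i) ≠ 0 → ∀ l, j ≤ l → ν l = 0) ∧
      C a * X j ^ m = f + ∑ i ∈ Finset.range m, b i * X j ^ i := by
  classical
  obtain ⟨h1, h2⟩ := hf
  have hs : ∀ ν ∈ f.support, (∀ i, j < i → ν i = 0) ∧ ν j ≤ m ∧
      (ν j = m → ν = Finsupp.single j m) := fun ν hν => h2 ν (mem_support_iff.1 hν)
  refine ⟨coeff (Finsupp.single j m) f,
    fun i => -∑ ν ∈ f.support with ν j = i, monomial (ν.erase j) (coeff ν f), h1, ?_, ?_⟩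
  · intro i ν hν l hl
    rw [coeff_neg, coeff_sum, Ne, neg_eq_zero] at hν
    obtain ⟨μ, hμ, h3⟩ := Finset.exists_ne_zero_of_sum_ne_zero hν
    rw [coeff_monomial] at h3
    have h4 : μ.erase j = ν := by
      by_contra h
      exact h3 (if_neg h)
    rw [← h4]
    rcases eq_or_lt_of_le hl with h5 | h5
    · rw [← h5, Finsupp.erase_same]
    · rw [Finsupp.erase_ne h5.ne']
      exact (hs μ (Finset.mem_filter.1 hμ).1).1 l h5
  · have e1 : f = ∑ i ∈ Finset.range (m + 1), ∑ ν ∈ f.support with ν j = i,
        monomial ν (coeff ν f) := by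
      rw [Finset.sum_fiberwise_of_maps_to]
      · exact f.as_sum
      · intro ν hν
        exact Finset.mem_range.2 (Nat.lt_succ_of_le (hs ν hν).2.1)
    have e2 : ∑ ν ∈ f.support with ν j = m, monomial ν (coeff ν f) =
        C (coeff (Finsupp.single j m) f) * X j ^ m := by
      have e3 : (f.support.filter fun ν => ν j = m) = {Finsupp.single j m} := by
        ext ν
        rw [Finset.mem_filter, Finset.mem_singleton]
        constructor
        · rintro ⟨h3, h4⟩
          exact (hs ν h3).2.2 h4
        · rintro rfl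
          exact ⟨mem_support_iff.2 h1, Finsupp.single_eq_same⟩
      rw [e3, Finset.sum_singleton, C_mul_X_pow_eq_monomial]
    have e4 : ∀ i, ∑ ν ∈ f.support with ν j = i, monomial ν (coeff ν f) =
        (∑ ν ∈ f.support with ν j = i, monomial (ν.erase j) (coeff ν f)) * X j ^ i := by
      intro i
      rw [Finset.sum_mul]
      refine Finset.sum_congr rfl fun ν hν => ?_
      have h3 := (Finset.mem_filter.1 hν).2
      rw [X_pow_eq_monomial, monomial_mul, mul_one, ← h3, Finsupp.erase_add_single]
    rw [Finset.sum_range_succ, e2] at e1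
    have e5 : ∑ i ∈ Finset.range m, (-∑ ν ∈ f.support with ν j = i,
        monomial (ν.erase j) (coeff ν f)) * X j ^ i =
        -∑ i ∈ Finset.range m, ∑ ν ∈ f.support with ν j = i, monomial ν (coeff ν f) := by
      rw [← Finset.sum_neg_distrib]
      refine Finset.sum_congr rfl fun i _ => ?_
      rw [e4, neg_mul]
    rw [e5]
    nth_rewrite 2 [e1]
    ring

end Pool.Agent.Helper94.AXG
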