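import Pool.Agent.Helper94.AXG.H7
import Pool.Agent.Helper94.AXG.H7B
import Pool.Agent.Helper94.AXG.H7C

/-! # AXG-H7e, f: the tower is integral -/

namespace Pool.Agent.Helper94.AXG

open MvPolynomial Filter Topology

/-- the reduction map -/
private noncomputable abbrev piq {k r : ℕ} {K : Type} [Field K] (A : Matrix (Fin r) (Fin k) ℤ)
    (I : Ideal (MvPolynomial (Fin k) K)) : MvPolynomial (Fin r) K →+* (MvPolynomial (Fin k) K ⧸ I) :=
  (Ideal.Quotient.mk I).comp (phi (R := K) A).toRingHom

private theorem intg_of_C {k r : ℕ} {K : Type} [Field K] (A : Matrix (Fin r) (Fin k) ℤ)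
    (I : Ideal (MvPolynomial (Fin k) K)) (c : K) :
    (piq A I).IsIntegralElem (Ideal.Quotient.mk I (C c)) := by
  have h : piq A I (C c) = Ideal.Quotient.mk I (C c) := by
    show Ideal.Quotient.mk I ((phi (R := K) A) (C c)) = _
    rw [MvPolynomial.algHom_C]
    rfl
  rw [← h]
  exact RingHom.isIntegralElem_map _

private theorem intg_prod_pow {S T : Type} [CommRing S] [CommRing T] (φ : S →+* T) {ι : Type}
    (s : Finset ι) (z : ι → T) (e : ι → ℕ) (h : ∀ i ∈ s, e i ≠ 0 → φ.IsIntegralElem (z i)) :
    φ.IsIntegralElem (∏ i ∈ s, z i ^ e i) := by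
  classical
  let _ := φ.toAlgebra
  show IsIntegral S _
  apply IsIntegral.prod
  intro i hi
  by_cases he : e i = 0
  · rw [he, pow_zero]; exact isIntegral_one
  · exact IsIntegral.pow (h i hi he) _

private theorem intg_sum' {S T : Type} [CommRing S] [CommRing T] (φ : S →+* T) {ι : Type}
    (s : Finset ι) (z : ι → T) (h : ∀ i ∈ s, φ.IsIntegralElem (z i)) :
    φ.IsIntegralElem (∑ i ∈ s, z i) := by
  let _ := φ.toAlgebra
  show IsIntegral S _
  exact IsIntegral.sum _ h

/-- a polynomial in the variables below `j` -/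
private theorem intg_low {k r : ℕ} {K : Type} [Field K] (hrk : r ≤ k) (A : Matrix (Fin k) (Fin k) ℤ)
    (I : Ideal (MvPolynomial (Fin k) K)) {j : Fin k}
    (ih : ∀ l : Fin k, l < j → (piq (rows hrk A) I).IsIntegralElem (Ideal.Quotient.mk I (phi (R := K) A (X l))))
    (b : MvPolynomial (Fin k) K) (hb : ∀ ν, coeff ν b ≠ 0 → ∀ l, j ≤ l → ν l = 0) :
    (piq (rows hrk A) I).IsIntegralElem (Ideal.Quotient.mk I (phi (R := K) A b)) := by
  classical
  rw [b.as_sum, map_sum, map_sum]
  apply intg_sum'
  intro ν hν
  rw [mem_support_iff] at hν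
  have h1 : phi (R := K) A (monomial ν (coeff ν b)) =
      C (coeff ν b) * ∏ l, (phi (R := K) A (X l)) ^ ν l := by
    rw [monomial_eq, map_mul, MvPolynomial.algHom_C, Finsupp.prod_fintype _ _ (fun i => pow_zero _),
      map_prod]
    simp only [map_pow]
    rfl
  rw [h1, map_mul, map_prod]
  simp only [map_pow]
  apply RingHom.IsIntegralElem.mul
  · exact intg_of_C _ _ _
  · apply intg_prod_pow
    intro l _ hl
    apply ih
    by_contra hlt
    exact hl (hb ν hν l (not_lt.1 hlt))

/-- AXG-H7e: the linear forms `z_j = (A x)_j` are integral modulo `I`. Proof. Strong induction on `j`. For `j < r` the element is the image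
of `X j`. For `j ≥ r`: apply `phi A` to `lead_expand` of `f j`: modulo `I`,
`z_j ^ m = ∑ i < m, a⁻¹ (b i)(z) z_j ^ i`, and `(b i)(z)` is a polynomial in the `z_l`, `l < j`, which are
integral (sums and products of integral elements; e.g. all polynomials `b` without the variables `≥ j`, by
`MvPolynomial.induction_on` over the monomials or `aeval_mem`); `integral_root`. -/
theorem intg_z {k r : ℕ} {K : Type} [Field K] (hrk : r ≤ k) (A : Matrix (Fin k) (Fin k) ℤ)
    (I : Ideal (MvPolynomial (Fin k) K)) (f : Fin k → MvPolynomial (Fin k) K) (m : Fin k → ℕ)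
    (hf : ∀ j : Fin k, r ≤ (j : ℕ) → LeadAt j (m j) (f j))
    (hI : ∀ j : Fin k, r ≤ (j : ℕ) → phi (R := K) A (f j) ∈ I) (j : Fin k) :
    Intg (rows hrk A) I (phi (R := K) A (X j)) := by
  rw [intg_iff]
  induction j using WellFoundedLT.induction with
  | ind j ih =>
    by_cases hj : (j : ℕ) < r
    · have h : piq (rows hrk A) I (X ⟨j, hj⟩) = Ideal.Quotient.mk I (phi (R := K) A (X j)) := by
        show Ideal.Quotient.mk I ((phi (R := K) (rows hrk A)) (X ⟨j, hj⟩)) = _
        congr 1
        unfold phi
        rw [aeval_X, aeval_X]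
        rfl
      rw [← h]
      exact RingHom.isIntegralElem_map _
    · rw [not_lt] at hj
      obtain ⟨a, b, ha, hb, hexp⟩ := lead_expand (hf j hj)
      have h1 := congrArg (fun x => Ideal.Quotient.mk I (phi (R := K) A x)) hexp
      have hC : ∀ c : K, phi (R := K) A (C c) = C c := by
        intro c
        rw [MvPolynomial.algHom_C]
        rfl
      simp only [map_mul, map_add, map_sum, map_pow, hC] at h1
      rw [Ideal.Quotient.eq_zero_iff_mem.2 (hI j hj), zero_add] at h1
      have h2 : Ideal.Quotient.mk I (C a⁻¹) * Ideal.Quotient.mk I (C a) = 1 := by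
        rw [← map_mul, ← map_mul, inv_mul_cancel₀ ha, map_one, map_one]
      apply integral_root (piq (rows hrk A) I) (m := m j)
        (fun i => Ideal.Quotient.mk I (C a⁻¹) * Ideal.Quotient.mk I (phi (R := K) A (b i)))
      · intro i _
        apply RingHom.IsIntegralElem.mul
        · exact intg_of_C _ _ _
        · exact intg_low hrk A I ih (b i) (hb i)
      · calc (Ideal.Quotient.mk I (phi (R := K) A (X j))) ^ m j
            = Ideal.Quotient.mk I (C a⁻¹) *
              (Ideal.Quotient.mk I (C a) * (Ideal.Quotient.mk I (phi (R := K) A (X j))) ^ m j) := by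
              rw [← mul_assoc, h2, one_mul]
          _ = _ := by
              rw [h1, Finset.mul_sum]
              apply Finset.sum_congr rfl
              intro i _
              rw [mul_assoc]

/-- AXG-H7f: everything is integral: `X i = ∑ j, B i j z_j` (`phi_X`-computation and `B * A = 1`), integral elements are closed
under sums and integer multiples; `intg_all`. -/
theorem integral_of_tower {k r : ℕ} {K : Type} [Field K] (hrk : r ≤ k) (A B : Matrix (Fin k) (Fin k) ℤ)
    (hBA : B * A = 1) (I : Ideal (MvPolynomial (Fin k) K)) (f : Fin k → MvPolynomial (Fin k) K)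
    (m : Fin k → ℕ) (hf : ∀ j : Fin k, r ≤ (j : ℕ) → LeadAt j (m j) (f j))
    (hI : ∀ j : Fin k, r ≤ (j : ℕ) → phi (R := K) A (f j) ∈ I) (ψ : MvPolynomial (Fin k) K) :
    Intg (rows hrk A) I ψ := by
  classical
  apply intg_all
  intro i
  have hX : (X i : MvPolynomial (Fin k) K) = ∑ j, C ((B i j : ℤ) : K) * phi (R := K) A (X j) := by
    have h1 : ∀ j, phi (R := K) A (X j) = ∑ l, C ((A j l : ℤ) : K) * X l := by
      intro j
      unfold phi
      rw [aeval_X]
    simp only [h1, Finset.mul_sum]
    rw [Finset.sum_comm]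
    have h2 : ∀ l, (∑ j, C ((B i j : ℤ) : K) * (C ((A j l : ℤ) : K) * X l) : MvPolynomial (Fin k) K) =
        if i = l then X l else 0 := by
      intro l
      have h3 : (∑ j, C ((B i j : ℤ) : K) * (C ((A j l : ℤ) : K) * X l) : MvPolynomial (Fin k) K) =
          C (((B * A) i l : ℤ) : K) * X l := by
        rw [Matrix.mul_apply]
        push_cast
        rw [map_sum, Finset.sum_mul]
        apply Finset.sum_congr rfl
        intro j _
        rw [map_mul, mul_assoc]
      rw [h3, hBA, Matrix.one_apply]
      split_ifs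
      · rw [Int.cast_one, C_1, one_mul]
      · rw [Int.cast_zero, C_0, zero_mul]
    simp only [h2]
    rw [Finset.sum_ite_eq]
    simp
  rw [intg_iff, hX, map_sum]
  apply intg_sum'
  intro j _
  rw [map_mul]
  apply RingHom.IsIntegralElem.mul
  · exact intg_of_C _ _ _
  · exact (intg_iff _ _ _).1 (intg_z hrk A I f m hf hI j)

end Pool.Agent.Helper94.AXG
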