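import Pool.Agent.Helper94.AXG.H7

/-! # AXG-H7g: the dichotomy -/

namespace Pool.Agent.Helper94.AXG

open MvPolynomial Filter Topology

/-- AXG-H7g: the dichotomy. Proof. `S = MvPolynomial (Fin r) K` is a UFD, so integrally closed; `T = MvPolynomial (Fin k) K ⧸ I` is a
domain, an `S`-algebra by `(Ideal.Quotient.mk I).comp (phi A)` with injective structure map. Let `χ = minpoly S ψ̄`
(monic, irreducible as `ψ̄` is integral: `minpoly.monic`, `minpoly.irreducible`; `minpoly.aeval`). If
`χ.eval (C c) = 0` for some `c : K`, then `X - C (C c)` divides `χ`, so they are equal up to a unit, both monic: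
`χ = X - C (C c)` and `ψ - C c ∈ I`. Otherwise `χ` is as in the second alternative. -/
theorem dich_of_prime {k r : ℕ} {K : Type} [Field K] (A : Matrix (Fin r) (Fin k) ℤ)
    (I : Ideal (MvPolynomial (Fin k) K)) (hI : I.IsPrime)
    (hinj : ∀ g : MvPolynomial (Fin r) K, phi (R := K) A g ∈ I → g = 0)
    (ψ : MvPolynomial (Fin k) K) (h : Intg A I ψ) : Dich A I ψ := by
  let φ : MvPolynomial (Fin r) K →+* MvPolynomial (Fin k) K ⧸ I :=
    (Ideal.Quotient.mk I).comp (phi (R := K) A).toRingHom
  let _ : Algebra (MvPolynomial (Fin r) K) (MvPolynomial (Fin k) K ⧸ I) := φ.toAlgebra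
  have halg : ∀ x, algebraMap (MvPolynomial (Fin r) K) (MvPolynomial (Fin k) K ⧸ I) x =
      Ideal.Quotient.mk I (phi (R := K) A x) := fun x => rfl
  have hev : ∀ χ : Polynomial (MvPolynomial (Fin r) K),
      Polynomial.aeval (Ideal.Quotient.mk I ψ) χ =
        Ideal.Quotient.mk I ((χ.map (phi (R := K) A).toRingHom).eval ψ) := by
    intro χ
    rw [Polynomial.aeval_def, Polynomial.eval_map, Polynomial.hom_eval₂]
    rfl
  obtain ⟨χ₀, hm₀, h₀⟩ := h
  have hint : IsIntegral (MvPolynomial (Fin r) K) (Ideal.Quotient.mk I ψ) := by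
    refine ⟨χ₀, hm₀, ?_⟩
    have h1 := hev χ₀
    rw [Ideal.Quotient.eq_zero_iff_mem.2 h₀] at h1
    exact h1
  have hmon := minpoly.monic hint
  have hae := minpoly.aeval (MvPolynomial (Fin r) K) (Ideal.Quotient.mk I ψ)
  by_cases hc : ∃ c : K, (minpoly (MvPolynomial (Fin r) K) (Ideal.Quotient.mk I ψ)).eval (C c) = 0
  · left
    obtain ⟨c, hc⟩ := hc
    refine ⟨c, ?_⟩
    have hirr := minpoly.irreducible hint
    obtain ⟨q, hq⟩ := Polynomial.dvd_iff_isRoot.2 hc
    have hX : ¬ IsUnit (Polynomial.X - Polynomial.C (C c : MvPolynomial (Fin r) K)) :=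
      Polynomial.not_isUnit_X_sub_C _
    have hu : IsUnit q := (hirr.isUnit_or_isUnit hq).resolve_left hX
    have hqm : q.Monic := by
      rw [hq] at hmon
      exact (Polynomial.monic_X_sub_C _).of_mul_monic_left hmon
    have hq1 : q = 1 := hqm.eq_one_of_isUnit hu
    rw [hq, hq1, mul_one, Polynomial.aeval_sub, Polynomial.aeval_X, Polynomial.aeval_C, halg] at hae
    rw [← Ideal.Quotient.eq_zero_iff_mem, map_sub]
    have e : phi (R := K) A (C c) = C c := by
      unfold phi
      rw [aeval_C]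
      rfl
    rw [e] at hae
    exact hae
  · right
    refine ⟨_, hmon, ?_, fun c hc' => hc ⟨c, hc'⟩⟩
    rw [← Ideal.Quotient.eq_zero_iff_mem, ← hev]
    exact hae

end Pool.Agent.Helper94.AXG
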