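import Pool.Agent.Helper94.AXG.H5D

/-! # AXG-H9a: normalised generators -/

namespace Pool.Agent.Helper94.AXG

open MvPolynomial Filter Topology

variable {k l : ℕ}

/-- AXG-H9a: normalised generators. Proof. The ring is noetherian (`IsNoetherian.noetherian I`, `Submodule.fg_iff_...`, a finite
family of generators indexed by `Fin l`); every generator `≠ 0` is multiplied with the unit `u` of `exists_scaled`,
the generator `0` has the representative `0`. -/
theorem exists_gens (I : Ideal (MvPolynomial (Fin k) KK)) :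
    ∃ (l : ℕ) (g : Fin l → MvPolynomial (Fin k) KK) (L : Fin l → ℕ → MvPolynomial (Fin k) ℂ),
      I = Ideal.span (Set.range g) ∧ (∀ i, Rp (g i) (L i)) ∧
      ∃ D : ℕ, ∀ᶠ n in (UF : Filter ℕ), ∀ i, (L i n).totalDegree ≤ D ∧ ∀ ν, ‖coeff ν (L i n)‖ ≤ 1 := by
  classical
  obtain ⟨l, s, hs⟩ := Submodule.fg_iff_exists_fin_generating_family.1 (IsNoetherian.noetherian I)
  have key : ∀ i : Fin l, ∃ (u : KK) (F : ℕ → MvPolynomial (Fin k) ℂ), u ≠ 0 ∧ Rp (C u * s i) F ∧
      ∀ᶠ n in (UF : Filter ℕ), ∀ ν, ‖coeff ν (F n)‖ ≤ 1 := by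
    intro i
    by_cases h : s i = 0
    · refine ⟨1, fun _ => 0, one_ne_zero, ?_, Eventually.of_forall fun n ν => ?_⟩
      · rw [h, mul_zero]
        exact Rp_zero
      · rw [coeff_zero, norm_zero]
        exact zero_le_one
    · obtain ⟨u, F, _, h1, h2, h3, _⟩ := exists_scaled h
      exact ⟨u, F, h1, h2, h3⟩
  choose u L hu hL hb using key
  have hD : ∀ i, ∃ D : ℕ, ∀ᶠ n in (UF : Filter ℕ), (L i n).totalDegree ≤ D := fun i => (hL i).1
  choose D hD using hD
  refine ⟨l, fun i => C (u i) * s i, L, ?_, hL, Finset.univ.sup D, ?_⟩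
  · rw [← hs]
    apply le_antisymm
    · refine Ideal.span_le.2 ?_
      rintro _ ⟨i, rfl⟩
      have h1 : s i = C (u i)⁻¹ * (C (u i) * s i) := by
        rw [← mul_assoc, ← C_mul, inv_mul_cancel₀ (hu i), C_1, one_mul]
      rw [SetLike.mem_coe, h1]
      exact Ideal.mul_mem_left _ _ (Ideal.subset_span ⟨i, rfl⟩)
    · refine Ideal.span_le.2 ?_
      rintro _ ⟨i, rfl⟩
      exact Ideal.mul_mem_left _ _ (Ideal.subset_span ⟨i, rfl⟩)
  · rw [eventually_all]
    intro i
    filter_upwards [hD i, hb i] with n h1 h2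
    exact ⟨h1.trans (Finset.le_sup (Finset.mem_univ i)), h2⟩

end Pool.Agent.Helper94.AXG
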