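import Pool.Agent.Helper94.AXG.H9C

/-! # AXG-H9e, f: the dichotomy for all constants -/

namespace Pool.Agent.Helper94.AXG

open MvPolynomial Filter Topology

variable {k l : ℕ}

/-- AXG-H9f: an ultrafilter statement: a sequence with values in a finite type is constant -/
theorem eventually_const {α : Type} [Finite α] (x : ℕ → α) :
    ∃ a, ∀ᶠ n in (UF : Filter ℕ), x n = a := by
  obtain ⟨a, ha⟩ := (Ultrafilter.map x UF).eq_pure_of_finite
  refine ⟨a, ?_⟩
  have h : {a} ∈ Ultrafilter.map x UF := by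
    rw [ha]
    exact Set.mem_singleton a
  exact h

/-- AXG-H9e: the dichotomy for all `M`, `M'` at once. Proof. Suppose not; the filter is an ultrafilter, so eventually there are
`i n, j n, M n, M' n` with `¬ Dich A (IdL L n) (lin2 (i n) (j n) (M n) (M' n))`. `(i n, j n)` is eventually
constant `(i, j)` (finitely many values). Then `lin2 i j (gm M) (gm M')` with `Rp_lin2` contradicts `dich_transfer`. -/
theorem dich_all {r : ℕ} (A : Matrix (Fin r) (Fin k) ℤ) {g : Fin l → MvPolynomial (Fin k) KK}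
    {L : Fin l → ℕ → MvPolynomial (Fin k) ℂ} (hg : ∀ i, Rp (g i) (L i))
    (h : ∀ ψ, Dich A (Ideal.span (Set.range g)) ψ) :
    ∀ᶠ n in (UF : Filter ℕ), ∀ (i j : Fin k) (M M' : ℤ),
      Dich A (IdL L n) (lin2 i j (M : ℂ) (M' : ℂ)) := by
  by_contra hcon
  rw [← Ultrafilter.eventually_not] at hcon
  have h1 : ∀ᶠ n in (UF : Filter ℕ), ∃ w : (Fin k × Fin k) × (ℤ × ℤ),
      ¬ Dich A (IdL L n) (lin2 w.1.1 w.1.2 (w.2.1 : ℂ) (w.2.2 : ℂ)) := by
    filter_upwards [hcon] with n hn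
    push Not at hn
    obtain ⟨i, j, M, M', h⟩ := hn
    exact ⟨((i, j), (M, M')), h⟩
  obtain ⟨w, hw⟩ := h1.choice
  obtain ⟨ij, hij⟩ := eventually_const (fun n => (w n).1)
  have h2 := dich_transfer A hg (Rp_lin2 ij.1 ij.2 (fun n => ((w n).2.1 : ℂ))
    (fun n => ((w n).2.2 : ℂ))) (h _)
  obtain ⟨n, h3, h4, h5⟩ := (hw.and (hij.and h2)).exists
  apply h3
  rw [h4]
  exact h5

end Pool.Agent.Helper94.AXG
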