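import Pool.Agent.Helper94.AXG.H2B
import Pool.Agent.Helper94.AXG.H3
import Pool.Agent.Helper94.AXG.H6C
import Pool.Agent.Helper94.AXG.H6D
import Pool.Agent.Helper94.AXG.H7D
import Pool.Agent.Helper94.AXG.H7E
import Pool.Agent.Helper94.AXG.H9A
import Pool.Agent.Helper94.AXG.H9D
import Pool.Agent.Helper94.AXG.H10
import Pool.Agent.Helper94.AXG.H10B

/-! # AXG-H12: the algebraic part -/

namespace Pool.Agent.Helper94.AXG

open MvPolynomial Filter Topology

/-- AXG-H12 -/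
theorem alg_main {k : ℕ} (Q : ℕ → ℕ) (hQ : Tendsto Q atTop atTop) (S : ℕ → Finset (Pt k))
    (hS : Large Q S) (hinj : ∀ n, Set.InjOn xp (S n : Set (Pt k))) :
    ∃ (T : ℕ → Finset (Pt k)) (r : ℕ) (hrk : r ≤ k) (A B : Matrix (Fin k) (Fin k) ℤ)
      (F : Fin k → ℕ → MvPolynomial (Fin k) ℂ) (l : ℕ) (L : Fin l → ℕ → MvPolynomial (Fin k) ℂ),
      (∀ n, T n ⊆ S n) ∧ Alg Q T r hrk A B F l L := by
  obtain ⟨T, hTS, hT, hmax⟩ := exists_max Q S hS
  have hp : (Idl T).IsPrime := Idl_prime hQ hT hmax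
  obtain ⟨r, hrk, A, B, f, F, hTow, hin⟩ := exists_Tow (Idl T) hp.ne_top
  obtain ⟨l, g, L, hI, hg, D, hD⟩ := exists_gens (Idl T)
  have hinjT : ∀ n, Set.InjOn xp (T n : Set (Pt k)) := fun n =>
    (hinj n).mono (by exact_mod_cast hTS n)
  have hlead : ∀ j : Fin k, r ≤ (j : ℕ) → ∃ m, 1 ≤ m ∧ LeadAt j m (f j) := fun j hj =>
    (hTow.good j hj).lead (hTow.rep j hj)
  have hint : ∀ ψ, Intg (rows hrk A) (Idl T) ψ := by
    classical
    refine integral_of_tower hrk A B hTow.BA (Idl T) f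
      (fun j => if h : r ≤ (j : ℕ) then Classical.choose (hlead j h) else 0) (fun j hj => ?_)
      hTow.mem
    rw [dif_pos hj]
    exact (Classical.choose_spec (hlead j hj)).2
  have hdich : ∀ ψ, Dich (rows hrk A) (Idl T) ψ := fun ψ => dich_of_prime _ _ hp hin ψ (hint ψ)
  refine ⟨T, r, hrk, A, B, F, l, L, hTS, ?_⟩
  refine ⟨hT, ?_, hTow.AB, hTow.BA, hTow.good, ?_, ⟨D, hD⟩, ?_, ?_, ?_, ?_⟩
  · by_contra h0
    have h1 : r = 0 := by omega
    subst h1
    exact r_pos_of hQ hT hinjT hTow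
  · intro j hj
    exact mem_IdL hg (Rp_phi A (hTow.rep j hj)) (hI ▸ hTow.mem j hj)
  · rw [eventually_all]
    intro i
    have hi : g i ∈ Idl T := by rw [hI]; exact Ideal.subset_span ⟨i, rfl⟩
    exact (mem_Idl (hg i)).1 hi
  · rw [eventually_all]
    intro i
    exact intg_transfer (rows hrk A) hg (Rp_X i) (hI ▸ hint (X i))
  · exact dich_all (rows hrk A) hg (fun ψ => hI ▸ hdich ψ)
  · intro T' hT' hL D' G hG
    exact maxi_of (rows hrk A) hmax hin T' hT' hL D' G hG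

end Pool.Agent.Helper94.AXG
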