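import Pool.Agent.Helper94.AXG.ZDefs

/-! # AXG-Z11A -/

namespace Pool.Agent.Helper94.AXG

open MvPolynomial Filter Topology

/-- AXG-Z11a: reduced fractions -/
theorem xp_inj {k : ℕ} (hk : 1 ≤ k) {x y : Pt k} (hx : Adm x) (hy : Adm y) (h : xp x = xp y) : x = y := by
  obtain ⟨hx1, hx2, -, -⟩ := hx
  obtain ⟨hy1, hy2, -, -⟩ := hy
  have hxq : ((x.1 : ℕ) : ℂ) ≠ 0 := by
    exact_mod_cast (by omega : x.1 ≠ 0)
  have hyq : ((y.1 : ℕ) : ℂ) ≠ 0 := by
    exact_mod_cast (by omega : y.1 ≠ 0)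
  have key : ∀ i, x.2 i * y.1 = y.2 i * x.1 := by
    intro i
    have hi := congrFun h i
    simp only [xp] at hi
    rw [div_eq_div_iff hxq hyq] at hi
    exact_mod_cast hi
  have hq : x.1 = y.1 := by
    have i0 : Fin k := ⟨0, by omega⟩
    have h1 := key i0
    have hcx := (hx2 i0).2.2
    have hcy := (hy2 i0).2.2
    apply Nat.dvd_antisymm
    · have : x.1 ∣ x.2 i0 * y.1 := ⟨y.2 i0, by rw [h1, mul_comm]⟩
      exact hcx.symm.dvd_of_dvd_mul_left this
    · have : y.1 ∣ y.2 i0 * x.1 := ⟨x.2 i0, by rw [← h1, mul_comm]⟩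
      exact hcy.symm.dvd_of_dvd_mul_left this
  refine Prod.ext hq ?_
  funext i
  have h1 := key i
  rw [hq] at h1
  exact Nat.eq_of_mul_eq_mul_right (by omega) h1

/-- AXG-Z11b: scaling. Proof. Divide by the coefficient of maximal absolute value (if `P ≠ 0`). -/
theorem scale {k : ℕ} (P : MvPolynomial (Fin k) ℂ) : ∃ c : ℂ, c ≠ 0 ∧ (∀ ν, ‖coeff ν (C c * P)‖ ≤ 1) ∧
    ∀ x : Pt k, Zr P x → Zr (C c * P) x := by
  have hZ : ∀ c : ℂ, c ≠ 0 → ∀ x : Pt k, Zr P x → Zr (C c * P) x := by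
    intro c hc x hx
    refine ⟨by simp [hx.1], fun J hJ => ?_⟩
    have h1 := hx.2 J hJ
    have h2 : spec (Gv x) J (C c * P) = C c * spec (Gv x) J P := by
      unfold spec
      rw [map_mul, MvPolynomial.aeval_C]
      rfl
    rw [h2]
    exact mul_ne_zero (by simpa using hc) h1
  by_cases hP : P = 0
  · exact ⟨1, one_ne_zero, by simp [hP], hZ 1 one_ne_zero⟩
  have hs : P.support.Nonempty := by
    rw [Finset.nonempty_iff_ne_empty]
    intro h0
    exact hP (MvPolynomial.support_eq_empty.1 h0)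
  obtain ⟨ν₀, hν₀, hmax⟩ := Finset.exists_max_image P.support (fun ν => ‖coeff ν P‖) hs
  have hc : coeff ν₀ P ≠ 0 := MvPolynomial.mem_support_iff.1 hν₀
  refine ⟨(coeff ν₀ P)⁻¹, inv_ne_zero hc, fun ν => ?_, hZ _ (inv_ne_zero hc)⟩
  rw [MvPolynomial.coeff_C_mul, norm_mul, norm_inv]
  have hpos : 0 < ‖coeff ν₀ P‖ := norm_pos_iff.2 hc
  by_cases hν : ν ∈ P.support
  · have := hmax ν hν
    rw [inv_mul_le_iff₀ hpos]
    simpa using this
  · rw [MvPolynomial.notMem_support_iff.1 hν]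
    simp

end Pool.Agent.Helper94.AXG
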