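import Pool.Agent.Helper94.AXG.Defs

/-! # AXG-E5E -/

namespace Pool.Agent.Helper94.AXG

open Complex Filter Topology

/-- AXG-E5e: trichotomy for a function meromorphic at `0`. Proof. `k = 0` near `0`: third case with `h = 0`.
Otherwise `k = s^a k₁`, `k₁(0) ≠ 0`; `a < N`: pole of order `K = N - a`; `a ≥ N`: `h = s^(a-N) k₁`. -/
theorem branch_form {ξ k : ℂ → ℂ} {N : ℕ} (hk : AnalyticAt ℂ k 0)
    (h : ∀ᶠ s in 𝓝[≠] (0 : ℂ), ξ s = k s / s ^ N) :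
    (∃ K : ℕ, 1 ≤ K ∧ ∃ h : ℂ → ℂ, Pl K ξ h) ∨
      ∃ h : ℂ → ℂ, AnalyticAt ℂ h 0 ∧ ∀ᶠ s in 𝓝[≠] (0 : ℂ), ξ s = h s := by
  have hne : ∀ᶠ s in 𝓝[≠] (0 : ℂ), s ≠ 0 := self_mem_nhdsWithin
  by_cases hz : ∀ᶠ s in 𝓝 (0 : ℂ), k s = 0
  · right
    refine ⟨fun _ => 0, analyticAt_const, ?_⟩
    filter_upwards [h, hz.filter_mono nhdsWithin_le_nhds] with s h1 h2
    rw [h1, h2, zero_div]
  · obtain ⟨a, g, hg, hg0, hgk⟩ := hk.exists_eventuallyEq_pow_smul_nonzero_iff.2 hz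
    have hgk' := hgk.filter_mono (nhdsWithin_le_nhds (s := {0}ᶜ))
    rcases lt_or_ge a N with haN | haN
    · left
      obtain ⟨K, rfl⟩ : ∃ K, N = a + K := ⟨N - a, by omega⟩
      refine ⟨K, by omega, g, hg, hg0, ?_⟩
      filter_upwards [h, hgk', hne] with s h1 h2 h3
      rw [h1, h2, sub_zero, smul_eq_mul, pow_add, mul_div_mul_left _ _ (pow_ne_zero a h3)]
    · right
      obtain ⟨b, rfl⟩ : ∃ b, a = N + b := ⟨a - N, by omega⟩
      refine ⟨fun s => s ^ b * g s, (analyticAt_id.pow b).mul hg, ?_⟩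
      filter_upwards [h, hgk', hne] with s h1 h2 h3
      rw [h1, h2, sub_zero, smul_eq_mul, pow_add, mul_assoc, mul_div_cancel_left₀ _ (pow_ne_zero N h3)]

end Pool.Agent.Helper94.AXG
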