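import Pool.Agent.Helper94.AXG.E6
import Pool.Agent.Helper94.AXG.E5E

/-! # AXG-E6B -/

namespace Pool.Agent.Helper94.AXG

open Complex Filter Topology

private lemma e6b_poly {T : ℂ → ℂ} (hT : MeromorphicAt T 0) (q : Polynomial ℂ) :
    MeromorphicAt (fun s => q.eval (T s)) 0 := by
  have h1 : (fun s => q.eval (T s)) =
      fun s => ∑ i ∈ Finset.range (q.natDegree + 1), q.coeff i * T s ^ i := by
    funext s
    exact Polynomial.eval_eq_sum_range _
  rw [h1]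
  exact MeromorphicAt.fun_sum fun i _ => (MeromorphicAt.const _ _).mul (hT.pow i)

private lemma e6b_ev2 {T Y : ℂ → ℂ} (hT : MeromorphicAt T 0) (hY : MeromorphicAt Y 0)
    (P : Polynomial (Polynomial ℂ)) : MeromorphicAt (fun s => ev2 P (T s) (Y s)) 0 := by
  have h1 : (fun s => ev2 P (T s) (Y s)) =
      fun s => ∑ i ∈ Finset.range (P.natDegree + 1), (P.coeff i).eval (T s) * Y s ^ i := by
    funext s
    unfold ev2
    rw [Polynomial.eval_map, Polynomial.eval₂_eq_sum_range]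
    rfl
  rw [h1]
  exact MeromorphicAt.fun_sum fun i _ => (e6b_poly hT (P.coeff i)).mul (hY.pow i)

/-- AXG-E6b. Proof. `X_j(1/s^e, g_l(s)/s^N)` is a polynomial in `1/s`, `g_l(s)/s^N` divided by the polynomial
`D(1/s^e)`, `D(1/s^e) = s^(-e deg D) (unit)`; so it is `k(s)/s^{N'}` with `k` analytic; `branch_form`. -/
theorem X_form {k : ℕ} (c : Crv k) {e N : ℕ} {g : Fin c.M.natDegree → ℂ → ℂ} (hP : Puis c e N g)
    (j : Fin k) (l : Fin c.M.natDegree) :
    (∃ K : ℕ, 1 ≤ K ∧ ∃ h : ℂ → ℂ, Pl K (fun s => c.X j (1 / s ^ e) (g l s / s ^ N)) h) ∨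
      ∃ h : ℂ → ℂ, AnalyticAt ℂ h 0 ∧
        ∀ᶠ s in 𝓝[≠] (0 : ℂ), c.X j (1 / s ^ e) (g l s / s ^ N) = h s := by
  have hid : ∀ n : ℕ, MeromorphicAt (fun s : ℂ => s ^ n) 0 := fun n =>
    (MeromorphicAt.id (0 : ℂ)).pow n
  have hT : MeromorphicAt (fun s : ℂ => 1 / s ^ e) 0 := (MeromorphicAt.const 1 0).div (hid e)
  have hY : MeromorphicAt (fun s : ℂ => g l s / s ^ N) 0 :=
    (hP.2.1 l).meromorphicAt.div (hid N)
  have hX : MeromorphicAt (fun s => c.X j (1 / s ^ e) (g l s / s ^ N)) 0 :=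
    (e6b_ev2 hT hY (c.R j)).div (e6b_poly hT c.D)
  obtain ⟨n, hn⟩ := hX
  refine branch_form (N := n) hn ?_
  filter_upwards [self_mem_nhdsWithin] with s hs
  have hs' : s ≠ 0 := hs
  show _ = (s - 0) ^ n • c.X j (1 / s ^ e) (g l s / s ^ N) / s ^ n
  rw [sub_zero, smul_eq_mul, mul_div_cancel_left₀ _ (pow_ne_zero n hs')]

end Pool.Agent.Helper94.AXG
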