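import Pool.Agent.Helper94.AXG.G3

/-! # AXG-G3B -/

namespace Pool.Agent.Helper94.AXG

open MvPowerSeries Filter Topology

variable {ι κ : Type} [Fintype ι] [Fintype κ]

/-- AXG-G3b: functions of one variable: the Taylor series converges absolutely near `0`
(`AnalyticAt`, `HasFPowerSeriesOnBall`; coefficients `iteratedDeriv`/`coeff`) -/
theorem CA_of_analyticAt {g : ℂ → ℂ} (hg : AnalyticAt ℂ g 0) : CA (fun y : Unit → ℂ => g (y ())) := by
  obtain ⟨p, r, hp⟩ := hg
  obtain ⟨t, ht0, htr⟩ := ENNReal.lt_iff_exists_nnreal_btwn.1 hp.r_pos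
  have ht0' : 0 < t := by exact_mod_cast ht0
  have hrad : (t : ENNReal) < p.radius := lt_of_lt_of_le htr hp.r_le
  have hs := p.summable_norm_mul_pow hrad
  let e : (Unit →₀ ℕ) ≃ ℕ := Finsupp.equivFunOnFinite.trans (Equiv.funUnique Unit ℕ)
  have he : ∀ ν : Unit →₀ ℕ, e ν = ν () := fun ν => rfl
  refine ⟨fun ν => p.coeff (ν ()), t, by exact_mod_cast ht0', ?_, ?_⟩
  · unfold Cv
    have h1 : (fun ν : Unit →₀ ℕ => ‖coeff ν ((fun ν => p.coeff (ν ())) : MvPowerSeries Unit ℂ)‖ *
        mr (fun _ => (t : ℝ)) ν) = (fun n => ‖p n‖ * (t : ℝ) ^ n) ∘ e := by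
      funext ν
      simp only [Function.comp, he, mr, Finset.univ_unique, Finset.prod_singleton,
        FormalMultilinearSeries.norm_apply_eq_norm_coef]
      rfl
    rw [h1]
    exact (Equiv.summable_iff e).2 hs
  · intro y hy
    have hmem : y () ∈ Metric.eball (0 : ℂ) r := by
      rw [Metric.mem_eball, edist_zero_right]
      refine lt_of_le_of_lt ?_ htr
      have h2 : ‖y ()‖₊ ≤ t := by
        have := hy ()
        exact_mod_cast this
      rw [enorm_eq_nnnorm]
      exact_mod_cast h2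
    have h3 := hp.hasSum hmem
    rw [zero_add] at h3
    have h4 : HasSum (fun ν : Unit →₀ ℕ => coeff ν ((fun ν => p.coeff (ν ())) : MvPowerSeries Unit ℂ) *
        mo y ν) (g (y ())) := by
      have h5 : (fun ν : Unit →₀ ℕ => coeff ν ((fun ν => p.coeff (ν ())) : MvPowerSeries Unit ℂ) *
          mo y ν) = (fun n => (p n) fun _ => y ()) ∘ e := by
        funext ν
        simp only [Function.comp, he, mo, Finset.univ_unique, Finset.prod_singleton,
          FormalMultilinearSeries.apply_eq_pow_smul_coeff, smul_eq_mul]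
        rw [mul_comm]
        rfl
      rw [h5]
      exact (Equiv.hasSum_iff e).2 h3
    exact h4.tsum_eq.symm

/-- AXG-G3c: from G3a, G3b -/
theorem CA_comp_form {g : ℂ → ℂ} (hg : AnalyticAt ℂ g 0) (L : (κ → ℂ) →ₗ[ℂ] ℂ) :
    CA (fun y : κ → ℂ => g (L y)) :=
  CA_comp_linear (CA_of_analyticAt hg) (LinearMap.pi fun _ : Unit => L)

end Pool.Agent.Helper94.AXG
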