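import Mathlib

/-!
# Project AXG: convergent power series

`mr ρ ν = ∏ ρ_i^{ν_i}`, `mo y ν = ∏ y_i^{ν_i}`; `Cv ρ f`: `∑ ‖f_ν‖ ρ^ν < ∞`; `nr ρ f` the sum; `ev f y` the value.
`CA f`: the function `f` is given near `0` by a convergent power series; `CA2` for functions of two groups
of variables, `CAz` for functions of `(y, z)`, `z` a single variable.
-/

namespace Pool.Agent.Helper94.AXG

open MvPowerSeries Filter Topology

variable {ι κ : Type} [Fintype ι] [Fintype κ]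

/-- the weight of an exponent -/
noncomputable def mr (ρ : ι → ℝ) (ν : ι →₀ ℕ) : ℝ := ∏ i, ρ i ^ ν i

/-- the value of a monomial -/
noncomputable def mo (y : ι → ℂ) (ν : ι →₀ ℕ) : ℂ := ∏ i, y i ^ ν i

/-- convergence with polyradius `ρ` -/
def Cv (ρ : ι → ℝ) (f : MvPowerSeries ι ℂ) : Prop := Summable fun ν => ‖coeff ν f‖ * mr ρ ν

/-- the norm -/
noncomputable def nr (ρ : ι → ℝ) (f : MvPowerSeries ι ℂ) : ℝ := ∑' ν, ‖coeff ν f‖ * mr ρ ν

/-- the value -/
noncomputable def ev (f : MvPowerSeries ι ℂ) (y : ι → ℂ) : ℂ := ∑' ν, coeff ν f * mo y ν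

/-- functions given near `0` by a convergent power series -/
def CA (f : (ι → ℂ) → ℂ) : Prop := ∃ (P : MvPowerSeries ι ℂ) (t : ℝ), 0 < t ∧ Cv (fun _ => t) P ∧
  ∀ y : ι → ℂ, (∀ i, ‖y i‖ ≤ t) → f y = ev P y

/-- two groups of variables -/
def CA2 (f : (ι → ℂ) → (κ → ℂ) → ℂ) : Prop :=
  CA (fun w : ι ⊕ κ → ℂ => f (fun i => w (Sum.inl i)) (fun j => w (Sum.inr j)))

/-- one distinguished variable -/
def CAz (f : (ι → ℂ) → ℂ → ℂ) : Prop :=
  CA (fun w : Option ι → ℂ => f (fun i => w (some i)) (w none))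

end Pool.Agent.Helper94.AXG
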