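import Pool.Agent.Helper94.AXG.HDefs
import Pool.Agent.Helper94.AXG.GDefs

/-!
# Project AXG: points, functions with parameters
-/

namespace Pool.Agent.Helper94.AXG

open MvPolynomial Filter Topology

/-- the admissible points: `1 ≤ a_i < q` prime to `q`, distinct, and no two (equal or not) have sum `q` -/
def Adm {k : ℕ} (x : Pt k) : Prop :=
  1 ≤ x.1 ∧ (∀ i, 1 ≤ x.2 i ∧ x.2 i < x.1 ∧ Nat.Coprime (x.2 i) x.1) ∧
    (∀ i j, i ≠ j → x.2 i ≠ x.2 j) ∧ ∀ i j, x.2 i + x.2 j ≠ x.1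

/-- the values `Γ(a_i / q)` -/
noncomputable def Gv {k : ℕ} (x : Pt k) : Fin k → ℂ := fun i => Complex.Gamma ((x.2 i : ℂ) / (x.1 : ℂ))

/-- substitution of `y_i` for the variables `X_i`, `i ∉ J` -/
noncomputable def spec {k : ℕ} (y : Fin k → ℂ) (J : Finset (Fin k)) (P : MvPolynomial (Fin k) ℂ) :
    MvPolynomial (Fin k) ℂ :=
  aeval (fun i => if i ∈ J then (X i : MvPolynomial (Fin k) ℂ) else C (y i)) P

/-- `P` vanishes at `Γ(a/q)`, and no substitution of some (not all) of the `Γ(a_i/q)` gives the polynomial `0` -/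
def Zr {k : ℕ} (P : MvPolynomial (Fin k) ℂ) (x : Pt k) : Prop :=
  eval (Gv x) P = 0 ∧ ∀ J : Finset (Fin k), J.Nonempty → spec (Gv x) J P ≠ 0

/-- the exponent with entries `ν_i ≤ D` -/
noncomputable def ex {k D : ℕ} (ν : Fin k → Fin (D + 1)) : Fin k →₀ ℕ :=
  Finsupp.equivFunOnFinite.symm (fun i => (ν i : ℕ))

/-- the coefficients with exponents `≤ D` -/
noncomputable def cf {k : ℕ} (D : ℕ) (F : MvPolynomial (Fin k) ℂ) : (Fin k → Fin (D + 1)) → ℂ :=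
  fun ν => coeff (ex ν) F

/-- the polynomial function with the coefficients `u` -/
noncomputable def pol {k D : ℕ} (u : (Fin k → Fin (D + 1)) → ℂ) (x : Fin k → ℂ) : ℂ :=
  ∑ ν, u ν * ∏ i, x i ^ (ν i : ℕ)

/-- the entire function `∑ u_ν ∏ U(x_i)^(d - ν_i)` -/
noncomputable def gam {k d : ℕ} (u : (Fin k → Fin (d + 1)) → ℂ) (x : Fin k → ℂ) : ℂ :=
  ∑ ν, u ν * ∏ i, U (x i) ^ (d - (ν i : ℕ))

/-- the index set of the parameters: coefficients of the `F_j`, of the `L_s`, of `P` -/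
abbrev Par (k D d l : ℕ) : Type :=
  (Fin k × (Fin k → Fin (D + 1))) ⊕ ((Fin l × (Fin k → Fin (D + 1))) ⊕ (Fin k → Fin (d + 1)))

/-- the parameters given by polynomials -/
noncomputable def par {k l : ℕ} (D d : ℕ) (F : Fin k → MvPolynomial (Fin k) ℂ)
    (L : Fin l → MvPolynomial (Fin k) ℂ) (P : MvPolynomial (Fin k) ℂ) : Par k D d l → ℂ :=
  Sum.elim (fun w => cf D (F w.1) w.2) (Sum.elim (fun w => cf D (L w.1) w.2) (cf d P))

/-- the tower of functions: `F_{r+j}` at the point `z₀ + z`, parameters `bs + b` -/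
noncomputable def fF {D d l : ℕ} (r n : ℕ) (bs : Par (r + n) D d l → ℂ) (z₀ : Fin (r + n) → ℂ) (j : ℕ)
    (b : Par (r + n) D d l → ℂ) (z : Fin (r + j + 1) → ℂ) : ℂ :=
  if hj : r + j < r + n then
    pol (fun ν => bs (Sum.inl (⟨r + j, hj⟩, ν)) + b (Sum.inl (⟨r + j, hj⟩, ν)))
      (fun i => z₀ i + if h : (i : ℕ) < r + j + 1 then z ⟨i, h⟩ else 0)
  else 0

/-- the function `gam(P) + ∑_s a^(s+1) L_s` at the point `x₀ + B z`, parameters `bs + b` -/
noncomputable def gF {k D d l : ℕ} (bs : Par k D d l → ℂ) (x₀ : Fin k → ℂ)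
    (B : Matrix (Fin k) (Fin k) ℤ) (a : ℕ) (b : Par k D d l → ℂ) (z : Fin k → ℂ) : ℂ :=
  gam (fun ν => bs (Sum.inr (Sum.inr ν)) + b (Sum.inr (Sum.inr ν))) (fun i => x₀ i + mv B z i) +
    ∑ s : Fin l, (a : ℂ) ^ ((s : ℕ) + 1) *
      pol (fun ν => bs (Sum.inr (Sum.inl (s, ν))) + b (Sum.inr (Sum.inl (s, ν))))
        (fun i => x₀ i + mv B z i)

end Pool.Agent.Helper94.AXG
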