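import Pool.Agent.Helper94.AXG.G7C

/-! # AXG-G8: elimination along a tower -/

namespace Pool.Agent.Helper94.AXG

open Filter Topology

variable {ι : Type} [Fintype ι]

/-- the reindexing -/
private def G8_σ (m : ℕ) : ι ⊕ Fin (m + 1) → Option (ι ⊕ Fin m)
  | Sum.inl i => some (Sum.inl i)
  | Sum.inr j => Fin.lastCases (motive := fun _ => Option (ι ⊕ Fin m)) none
      (fun j => some (Sum.inr j)) j

/-- `f` with the last variable separated -/
private def G8_sep {m : ℕ} (f : (ι → ℂ) → (Fin (m + 1) → ℂ) → ℂ) : (ι ⊕ Fin m → ℂ) → ℂ → ℂ :=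
  fun y z => f (fun i => y (Sum.inl i)) (Fin.snoc (fun j => y (Sum.inr j)) z)

private theorem G8_CAz {m : ℕ} {f : (ι → ℂ) → (Fin (m + 1) → ℂ) → ℂ} (hf : CA2 f) :
    CAz (G8_sep f) := by
  have h1 := CA_comp_linear (κ := Option (ι ⊕ Fin m)) hf (LinearMap.funLeft ℂ ℂ (G8_σ m))
  unfold CAz G8_sep
  have h2 : (fun w : Option (ι ⊕ Fin m) → ℂ =>
      f (fun i => (fun i => w (some i)) (Sum.inl i))
        (Fin.snoc (fun j => (fun i => w (some i)) (Sum.inr j)) (w none))) =
      fun y => (fun w : ι ⊕ Fin (m + 1) → ℂ => f (fun i => w (Sum.inl i)) (fun j => w (Sum.inr j)))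
        (LinearMap.funLeft ℂ ℂ (G8_σ m) y) := by
    funext w
    have h3 : (Fin.snoc (fun j => w (some (Sum.inr j))) (w none) : Fin (m + 1) → ℂ) =
        fun j => (LinearMap.funLeft ℂ ℂ (G8_σ (ι := ι) m) w) (Sum.inr j) := by
      funext j
      refine Fin.lastCases ?_ (fun j => ?_) j
      · rw [Fin.snoc_last, LinearMap.funLeft_apply]
        simp only [G8_σ, Fin.lastCases_last]
      · rw [Fin.snoc_castSucc, LinearMap.funLeft_apply]
        simp only [G8_σ, Fin.lastCases_castSucc]
    show f (fun i => w (some (Sum.inl i))) (Fin.snoc (fun j => w (some (Sum.inr j))) (w none)) = _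
    rw [h3]
    rfl
  rw [h2]
  exact h1

/-- AXG-G8. The variables are `b : ι → ℂ` and `z : Fin (r + n) → ℂ`; `f j` is a function of `b` and the first
`r + j + 1` coordinates, regular in the last one. Proof. Induction on `n`. `n = 0`: `N = F` (the second
property with `z = w.2`). `n + 1`: apply `elim_one` to `f n` and `F` with the distinguished variable the
last coordinate (index type `ι ⊕ Fin (r + n)` for the others; `CA2` and `CAz` differ by a linear
reindexing, `CA_comp_linear`; `h0` is `hreg n`), getting `F'` on `ι`, `Fin (r + n)`; apply the induction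
hypothesis to `F'`. For the second property use the `ε`-statement of the induction hypothesis with an `ε'`
such that the `ε`-neighbourhood statement of `elim_one` holds for `‖b‖, ‖z‖ < ε'`. -/
theorem elim_tower (r n : ℕ) (f : (j : ℕ) → (ι → ℂ) → (Fin (r + j + 1) → ℂ) → ℂ)
    (hf : ∀ j, j < n → CA2 (f j))
    (hreg : ∀ j, j < n → ¬ ∀ᶠ z in 𝓝 (0 : ℂ), f j 0 (Fin.snoc (fun _ => (0 : ℂ)) z) = 0)
    (F : (ι → ℂ) → (Fin (r + n) → ℂ) → ℂ) (hF : CA2 F) :
    ∃ N : (ι → ℂ) → (Fin r → ℂ) → ℂ, CA2 N ∧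
      (∀ᶠ w in 𝓝 (0 : (ι → ℂ) × (Fin (r + n) → ℂ)),
        (∀ (j : ℕ) (hj : j < n), f j w.1 (fun i => w.2 (Fin.castLE (by omega) i)) = 0) →
        F w.1 w.2 = 0 → N w.1 (fun i => w.2 (Fin.castAdd n i)) = 0) ∧
      ∀ ε : ℝ, 0 < ε → ∀ᶠ w in 𝓝 (0 : (ι → ℂ) × (Fin r → ℂ)), N w.1 w.2 = 0 →
        ∃ z : Fin (r + n) → ℂ, (∀ i, ‖z i‖ < ε) ∧ (∀ i, z (Fin.castAdd n i) = w.2 i) ∧
          (∀ (j : ℕ) (hj : j < n), f j w.1 (fun i => z (Fin.castLE (by omega) i)) = 0) ∧
          F w.1 z = 0 := by
  induction n with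
  | zero =>
    refine ⟨F, hF, Eventually.of_forall fun w _ h => h, fun ε hε => ?_⟩
    have h1 := Metric.ball_mem_nhds (0 : (ι → ℂ) × (Fin r → ℂ)) hε
    filter_upwards [h1] with w hw h
    rw [Metric.mem_ball, dist_zero_right, Prod.norm_def] at hw
    refine ⟨w.2, fun i => ?_, fun i => rfl, fun j hj => absurd hj (Nat.not_lt_zero j), h⟩
    exact lt_of_le_of_lt (norm_le_pi_norm w.2 i) (lt_of_le_of_lt (le_max_right _ _) hw)
  | succ n ih =>
    obtain ⟨N', hN', hN1, hN2⟩ := elim_one (G8_CAz (hf n (Nat.lt_succ_self n)))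
      (G8_CAz (m := r + n) (f := F) hF) (hreg n (Nat.lt_succ_self n))
    have hF'' : CA2 (fun (b : ι → ℂ) (z : Fin (r + n) → ℂ) => N' (Sum.elim b z)) := by
      unfold CA2
      have h1 : (fun w : ι ⊕ Fin (r + n) → ℂ =>
          N' (Sum.elim (fun i => w (Sum.inl i)) (fun j => w (Sum.inr j)))) = N' := by
        funext w
        congr 1
        funext x
        cases x <;> rfl
      rw [h1]
      exact hN'
    obtain ⟨N, hN, h1, h2⟩ := ih (fun j hj => hf j (Nat.lt_succ_of_lt hj))
      (fun j hj => hreg j (Nat.lt_succ_of_lt hj)) _ hF''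
    refine ⟨N, hN, ?_, fun ε hε => ?_⟩
    · -- pull back
      let ψ : (ι → ℂ) × (Fin (r + n + 1) → ℂ) → (ι ⊕ Fin (r + n) → ℂ) × ℂ := fun w =>
        (Sum.elim w.1 (fun j => w.2 (Fin.castSucc j)), w.2 (Fin.last _))
      have hψ : Continuous ψ := by
        refine Continuous.prodMk ?_ ((continuous_apply _).comp continuous_snd)
        refine continuous_pi fun x => ?_
        cases x with
        | inl i => exact (continuous_apply i).comp continuous_fst
        | inr j => exact (continuous_apply _).comp continuous_snd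
      have hψ0 : ψ 0 = 0 := by
        refine Prod.ext ?_ rfl
        funext x
        cases x <;> rfl
      let χ : (ι → ℂ) × (Fin (r + n + 1) → ℂ) → (ι → ℂ) × (Fin (r + n) → ℂ) := fun w =>
        (w.1, fun j => w.2 (Fin.castSucc j))
      have hχ : Continuous χ := by
        refine Continuous.prodMk continuous_fst ?_
        exact continuous_pi fun j => (continuous_apply _).comp continuous_snd
      have hχ0 : χ 0 = 0 := rfl
      have h3 : ∀ᶠ w in 𝓝 (0 : (ι → ℂ) × (Fin (r + n + 1) → ℂ)),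
          G8_sep (f n) (ψ w).1 (ψ w).2 = 0 → G8_sep (m := r + n) F (ψ w).1 (ψ w).2 = 0 →
            N' (ψ w).1 = 0 := by
        have h4 : Tendsto ψ (𝓝 0) (𝓝 0) := by
          have := hψ.tendsto 0
          rwa [hψ0] at this
        exact h4.eventually hN1
      have h4 : ∀ᶠ w in 𝓝 (0 : (ι → ℂ) × (Fin (r + n + 1) → ℂ)),
          (∀ (j : ℕ) (hj : j < n), f j (χ w).1 (fun i => (χ w).2 (Fin.castLE (by omega) i)) = 0) →
          N' (Sum.elim (χ w).1 (χ w).2) = 0 →
            N (χ w).1 (fun i => (χ w).2 (Fin.castAdd n i)) = 0 := by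
        have h5 : Tendsto χ (𝓝 0) (𝓝 0) := by
          have := hχ.tendsto 0
          rwa [hχ0] at this
        exact h5.eventually h1
      have hsn : ∀ z : Fin (r + n + 1) → ℂ,
          (Fin.snoc (fun j => z (Fin.castSucc j)) (z (Fin.last _)) : Fin (r + n + 1) → ℂ) = z :=
        fun z => Fin.snoc_init_self z
      have h5 : ∀ᶠ w in 𝓝 (0 : (ι → ℂ) × (Fin (r + n + 1) → ℂ)),
          (∀ (j : ℕ) (hj : j < n + 1), f j w.1 (fun i => w.2 (Fin.castLE (by omega) i)) = 0) →
          F w.1 w.2 = 0 → N w.1 (fun i => w.2 (Fin.castAdd (n + 1) i)) = 0 := by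
        filter_upwards [h3, h4] with w h6 h7 h8 h9
        have h10 : G8_sep (f n) (ψ w).1 (ψ w).2 = 0 := by
          show f n (fun i => w.1 i)
            (Fin.snoc (fun j => w.2 (Fin.castSucc j)) (w.2 (Fin.last _))) = 0
          rw [hsn]
          exact h8 n (Nat.lt_succ_self n)
        have h11 : G8_sep (m := r + n) F (ψ w).1 (ψ w).2 = 0 := by
          exact (congrArg (F w.1) (hsn w.2)).trans h9
        exact h7 (fun j hj => h8 j (Nat.lt_succ_of_lt hj)) (h6 h10 h11)
      exact h5
    · obtain ⟨δ, hδ, hball⟩ := Metric.eventually_nhds_iff_ball.1 (hN2 ε hε)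
      have h3 := h2 (min ε δ) (lt_min hε hδ)
      have h4 : ∀ᶠ w in 𝓝 (0 : (ι → ℂ) × (Fin r → ℂ)), ‖w‖ < δ := by
        have h5 := Metric.ball_mem_nhds (0 : (ι → ℂ) × (Fin r → ℂ)) hδ
        filter_upwards [h5] with w hw
        rwa [Metric.mem_ball, dist_zero_right] at hw
      filter_upwards [h3, h4] with w h5 h6 h7
      obtain ⟨z, hz1, hz2, hz3, hz4⟩ := h5 h7
      rw [Prod.norm_def] at h6
      obtain ⟨z₁, h8, h9, h10⟩ := hball (Sum.elim w.1 z) (by
        rw [Metric.mem_ball, dist_zero_right, pi_norm_lt_iff hδ]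
        intro x
        cases x with
        | inl i => exact lt_of_le_of_lt (norm_le_pi_norm w.1 i) (lt_of_le_of_lt (le_max_left _ _) h6)
        | inr j => exact lt_of_lt_of_le (hz1 j) (min_le_right _ _)) hz4
      let z' : Fin (r + n + 1) → ℂ := Fin.snoc z z₁
      have hz'1 : ∀ j : Fin (r + n), z' (Fin.castSucc j) = z j := fun j =>
        Fin.snoc_castSucc (α := fun _ => ℂ) _ _ _
      have hz'2 : z' (Fin.last _) = z₁ := Fin.snoc_last (α := fun _ => ℂ) _ _
      refine ⟨z', ?_, ?_, ?_, ?_⟩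
      · have key : ∀ i : Fin (r + n + 1), ‖z' i‖ < ε := by
          intro i
          refine Fin.lastCases ?_ (fun j => ?_) i
          · rw [hz'2]
            exact h8
          · rw [hz'1]
            exact lt_of_lt_of_le (hz1 j) (min_le_left _ _)
        exact key
      · intro i
        exact (hz'1 (Fin.castAdd n i)).trans (hz2 i)
      · intro j hj
        rcases Nat.lt_succ_iff_lt_or_eq.1 hj with h11 | rfl
        · have h12 := hz3 j h11
          have h13 : (fun i : Fin (r + j + 1) => z' (Fin.castLE (by omega) i)) =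
              fun i => z (Fin.castLE (by omega) i) := by
            funext i
            exact hz'1 (Fin.castLE (by omega) i)
          exact (congrArg (f j w.1) h13).trans h12
        · exact h9
      · exact h10

end Pool.Agent.Helper94.AXG
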