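import Pool.Agent.Helper94.AXG.Z5

/-! # AXG-Z5B: regularity of the limit tower -/

namespace Pool.Agent.Helper94.AXG

open MvPolynomial Filter Topology

/-- the linear polynomials in one variable -/
private noncomputable def z5d_h {k : ℕ} (z₀ : Fin k → ℂ) (J : Fin k) (i : Fin k) : Polynomial ℂ :=
  if i = J then Polynomial.X + Polynomial.C (z₀ i) else Polynomial.C (z₀ i)

/-- the restriction to a line -/
private noncomputable def z5d_g {k : ℕ} (z₀ : Fin k → ℂ) (J : Fin k)
    (F : MvPolynomial (Fin k) ℂ) : Polynomial ℂ :=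
  ∑ d ∈ F.support, Polynomial.C (coeff d F) * ∏ i, z5d_h z₀ J i ^ d i

private theorem z5d_eval {k : ℕ} (z₀ : Fin k → ℂ) (J : Fin k) (F : MvPolynomial (Fin k) ℂ)
    (z : ℂ) : (z5d_g z₀ J F).eval z = eval (fun i => z₀ i + if i = J then z else 0) F := by
  rw [MvPolynomial.eval_eq', z5d_g, Polynomial.eval_finsetSum]
  refine Finset.sum_congr rfl fun d _ => ?_
  rw [Polynomial.eval_mul, Polynomial.eval_C, Polynomial.eval_prod]
  congr 1
  refine Finset.prod_congr rfl fun i _ => ?_
  rw [Polynomial.eval_pow]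
  congr 1
  unfold z5d_h
  split_ifs with h
  · rw [Polynomial.eval_add, Polynomial.eval_X, Polynomial.eval_C, add_comm]
  · rw [Polynomial.eval_C, add_zero]

private theorem z5d_deg {k : ℕ} (z₀ : Fin k → ℂ) (J : Fin k) (d : Fin k →₀ ℕ) :
    (∏ i, z5d_h z₀ J i ^ d i).natDegree ≤ d J := by
  refine (Polynomial.natDegree_prod_le _ _).trans ?_
  have h1 : ∀ i, (z5d_h z₀ J i ^ d i).natDegree ≤ if i = J then d J else 0 := by
    intro i
    refine Polynomial.natDegree_pow_le.trans ?_
    unfold z5d_h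
    split_ifs with h
    · rw [Polynomial.natDegree_X_add_C, mul_one, h]
    · rw [Polynomial.natDegree_C, mul_zero]
  refine (Finset.sum_le_sum fun i _ => h1 i).trans ?_
  rw [Finset.sum_ite_eq' Finset.univ J, if_pos (Finset.mem_univ J)]

private theorem z5d_coeff {k : ℕ} (z₀ : Fin k → ℂ) (J : Fin k) {m : ℕ}
    {F : MvPolynomial (Fin k) ℂ} (hF : LeadAt J m F) :
    (z5d_g z₀ J F).coeff m = coeff (Finsupp.single J m) F := by
  rw [z5d_g, Polynomial.finsetSum_coeff, Finset.sum_eq_single (Finsupp.single J m)]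
  · rw [Polynomial.coeff_C_mul, Finset.prod_eq_single J]
    · rw [Finsupp.single_eq_same]
      unfold z5d_h
      rw [if_pos rfl]
      have h1 := (Polynomial.monic_X_add_C (z₀ J)).pow m
      have h2 : ((Polynomial.X + Polynomial.C (z₀ J)) ^ m).natDegree = m := by
        rw [Polynomial.natDegree_pow, Polynomial.natDegree_X_add_C, mul_one]
      have h3 := h1.coeff_natDegree
      rw [h2] at h3
      rw [h3, mul_one]
    · intro i _ hi
      rw [Finsupp.single_eq_of_ne hi, pow_zero]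
    · intro h
      exact absurd (Finset.mem_univ J) h
  · intro d hd hne
    have h1 := hF.2 d (MvPolynomial.mem_support_iff.1 hd)
    have h2 : d J < m := lt_of_le_of_ne h1.2.1 fun e => hne (h1.2.2 e)
    rw [Polynomial.coeff_C_mul, Polynomial.coeff_eq_zero_of_natDegree_lt
      (lt_of_le_of_lt (z5d_deg z₀ J d) h2), mul_zero]
  · intro h
    rw [MvPolynomial.notMem_support_iff] at h
    rw [h, map_zero, zero_mul, Polynomial.coeff_zero]

/-- AXG-Z5d: regularity. Proof. By `pol_cf` the value is `eval (z₀ + z e_{r+j}) Fs` (the coordinates `> r + j` of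
the point are `z₀ i`), a polynomial in `z` in which the coefficient of `z^m'` is the coefficient of
`X_{r+j}^m'` in `Fs`, not `0` (all other monomials of `Fs` have degree `< m'` in `X_{r+j}`). A nonzero
polynomial in `z` does not vanish in a neighbourhood of `0`. -/
theorem reg_fF {D d l : ℕ} (r n : ℕ) (bs : Par (r + n) D d l → ℂ) (z₀ : Fin (r + n) → ℂ) (j : ℕ)
    (hj : r + j < r + n) {m' : ℕ} {Fs : MvPolynomial (Fin (r + n)) ℂ} (hF : LeadAt ⟨r + j, hj⟩ m' Fs)
    (hD : Fs.totalDegree ≤ D) (hbs : ∀ ν, bs (Sum.inl (⟨r + j, hj⟩, ν)) = cf D Fs ν) :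
    ¬ ∀ᶠ z in 𝓝 (0 : ℂ), fF r n bs z₀ j 0 (Fin.snoc (fun _ => (0 : ℂ)) z) = 0 := by
  intro hev
  have hval : ∀ z : ℂ, fF r n bs z₀ j 0 (Fin.snoc (fun _ => (0 : ℂ)) z) =
      (z5d_g z₀ ⟨r + j, hj⟩ Fs).eval z := by
    intro z
    rw [z5d_eval, ← pol_cf hD]
    unfold fF
    rw [dif_pos hj]
    congr 1
    · funext ν
      rw [hbs ν]
      exact add_zero _
    · funext i
      congr 1
      by_cases h1 : (i : ℕ) < r + j + 1
      · rw [dif_pos h1]
        by_cases h2 : i = ⟨r + j, hj⟩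
        · rw [if_pos h2]
          have h2' : (i : ℕ) = r + j := congrArg (fun x : Fin (r + n) => (x : ℕ)) h2
          have h3 : (⟨(i : ℕ), h1⟩ : Fin (r + j + 1)) = Fin.last (r + j) := Fin.ext h2'
          rw [h3]
          exact Fin.snoc_last _ _
        · rw [if_neg h2]
          have h4 : (i : ℕ) < r + j := by
            have h5 : (i : ℕ) ≠ r + j := fun e => h2 (Fin.ext e)
            omega
          have h3 : (⟨(i : ℕ), h1⟩ : Fin (r + j + 1)) = Fin.castSucc ⟨(i : ℕ), h4⟩ := rfl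
          rw [h3]
          exact Fin.snoc_castSucc (α := fun _ => ℂ) _ _ _
      · rw [dif_neg h1, if_neg]
        intro e
        apply h1
        rw [e]
        exact Nat.lt_succ_self _
  have h1 : {z : ℂ | (z5d_g z₀ ⟨r + j, hj⟩ Fs).IsRoot z} ∈ 𝓝 (0 : ℂ) := by
    filter_upwards [hev] with z hz
    rw [hval z] at hz
    exact hz
  have h2 := Polynomial.eq_zero_of_infinite_isRoot _ (infinite_of_mem_nhds (0 : ℂ) h1)
  have h3 := z5d_coeff z₀ ⟨r + j, hj⟩ hF
  rw [h2, Polynomial.coeff_zero] at h3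
  exact hF.1 h3.symm

end Pool.Agent.Helper94.AXG
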