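import Pool.Agent.Helper94.AXG.G1

/-! # AXG-G1A -/

namespace Pool.Agent.Helper94.AXG

open MvPowerSeries Filter Topology

variable {ι κ : Type} [Fintype ι] [Fintype κ]

theorem Cv_add {ρ : ι → ℝ} (hρ : ∀ i, 0 ≤ ρ i) {f g : MvPowerSeries ι ℂ} (hf : Cv ρ f) (hg : Cv ρ g) :
    Cv ρ (f + g) ∧ nr ρ (f + g) ≤ nr ρ f + nr ρ g := by
  have hle : ∀ ν : ι →₀ ℕ, ‖coeff ν (f + g)‖ * mr ρ ν ≤
      ‖coeff ν f‖ * mr ρ ν + ‖coeff ν g‖ * mr ρ ν := by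
    intro ν
    rw [map_add, ← add_mul]
    exact mul_le_mul_of_nonneg_right (norm_add_le _ _) (mr_nonneg hρ ν)
  have hs : Summable fun ν : ι →₀ ℕ => ‖coeff ν f‖ * mr ρ ν + ‖coeff ν g‖ * mr ρ ν :=
    Summable.add hf hg
  have hc : Cv ρ (f + g) :=
    Summable.of_nonneg_of_le (fun ν => mul_nonneg (norm_nonneg _) (mr_nonneg hρ ν)) hle hs
  refine ⟨hc, ?_⟩
  unfold nr
  rw [← Summable.tsum_add hf hg]
  exact Summable.tsum_le_tsum hle hc hs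

theorem Cv_smul (ρ : ι → ℝ) {f : MvPowerSeries ι ℂ} (hf : Cv ρ f) (c : ℂ) :
    Cv ρ (C c * f) ∧ nr ρ (C c * f) = ‖c‖ * nr ρ f := by
  have he : (fun ν : ι →₀ ℕ => ‖coeff ν (C c * f)‖ * mr ρ ν) =
      fun ν => ‖c‖ * (‖coeff ν f‖ * mr ρ ν) := by
    funext ν
    rw [coeff_C_mul, norm_mul, mul_assoc]
  constructor
  · unfold Cv
    rw [he]
    exact Summable.mul_left _ hf
  · unfold nr
    rw [he, tsum_mul_left]

theorem Cv_monomial (ρ : ι → ℝ) (μ : ι →₀ ℕ) (c : ℂ) :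
    Cv ρ (monomial μ c) ∧ nr ρ (monomial μ c) = ‖c‖ * mr ρ μ := by
  classical
  have h0 : ∀ ν : ι →₀ ℕ, ν ≠ μ → ‖coeff ν (monomial μ c)‖ * mr ρ ν = 0 := by
    intro ν hν
    rw [coeff_monomial, if_neg hν, norm_zero, zero_mul]
  have h1 : HasSum (fun ν : ι →₀ ℕ => ‖coeff ν (monomial μ c)‖ * mr ρ ν)
      (‖coeff μ (monomial μ c)‖ * mr ρ μ) := hasSum_single μ h0
  rw [coeff_monomial_same] at h1
  exact ⟨h1.summable, h1.tsum_eq⟩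

end Pool.Agent.Helper94.AXG
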