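import Pool.Agent.Helper94.AXG.G1

/-! # AXG-G1C -/

namespace Pool.Agent.Helper94.AXG

open MvPowerSeries Filter Topology

variable {ι κ : Type} [Fintype ι] [Fintype κ]

/-- products: the coefficients of `f g` are the finite convolutions over `Finset.antidiagonal`;
`Summable` of the double series `‖f_μ‖ρ^μ ‖g_ν‖ρ^ν` (`Summable.mul_norm` and the antidiagonal
rearrangement `summable_sum_mul_antidiagonal_of_summable_norm`) -/
theorem Cv_mul {ρ : ι → ℝ} (hρ : ∀ i, 0 ≤ ρ i) {f g : MvPowerSeries ι ℂ} (hf : Cv ρ f) (hg : Cv ρ g) :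
    Cv ρ (f * g) ∧ nr ρ (f * g) ≤ nr ρ f * nr ρ g := by
  classical
  have hF : ∀ ν : ι →₀ ℕ, 0 ≤ ‖coeff ν f‖ * mr ρ ν := fun ν =>
    mul_nonneg (norm_nonneg _) (mr_nonneg hρ ν)
  have hG : ∀ ν : ι →₀ ℕ, 0 ≤ ‖coeff ν g‖ * mr ρ ν := fun ν =>
    mul_nonneg (norm_nonneg _) (mr_nonneg hρ ν)
  have h0 : ∀ ν : ι →₀ ℕ, 0 ≤ ‖coeff ν (f * g)‖ * mr ρ ν := fun ν =>
    mul_nonneg (norm_nonneg _) (mr_nonneg hρ ν)
  have h1 : Summable fun x : (ι →₀ ℕ) × (ι →₀ ℕ) =>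
      (‖coeff x.1 f‖ * mr ρ x.1) * (‖coeff x.2 g‖ * mr ρ x.2) :=
    Summable.mul_of_nonneg hf hg hF hG
  have h2 : Summable fun ν : ι →₀ ℕ => ∑ x ∈ Finset.HasAntidiagonal.antidiagonal ν,
      (‖coeff x.1 f‖ * mr ρ x.1) * (‖coeff x.2 g‖ * mr ρ x.2) :=
    summable_sum_mul_antidiagonal_of_summable_mul (f := fun ν => ‖coeff ν f‖ * mr ρ ν)
      (g := fun ν => ‖coeff ν g‖ * mr ρ ν) h1
  have h3 : ∀ ν : ι →₀ ℕ, ‖coeff ν (f * g)‖ * mr ρ ν ≤ ∑ x ∈ Finset.HasAntidiagonal.antidiagonal ν,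
      (‖coeff x.1 f‖ * mr ρ x.1) * (‖coeff x.2 g‖ * mr ρ x.2) := by
    intro ν
    rw [coeff_mul]
    calc ‖∑ x ∈ Finset.HasAntidiagonal.antidiagonal ν, coeff x.1 f * coeff x.2 g‖ * mr ρ ν
        ≤ (∑ x ∈ Finset.HasAntidiagonal.antidiagonal ν, ‖coeff x.1 f‖ * ‖coeff x.2 g‖) * mr ρ ν := by
          refine mul_le_mul_of_nonneg_right ?_ (mr_nonneg hρ ν)
          refine (norm_sum_le _ _).trans (Finset.sum_le_sum fun x _ => ?_)
          rw [norm_mul]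
      _ = ∑ x ∈ Finset.HasAntidiagonal.antidiagonal ν,
          (‖coeff x.1 f‖ * mr ρ x.1) * (‖coeff x.2 g‖ * mr ρ x.2) := by
          rw [Finset.sum_mul]
          refine Finset.sum_congr rfl fun x hx => ?_
          rw [← Finset.HasAntidiagonal.mem_antidiagonal.1 hx, mr_add]
          ring
  have h4 : Cv ρ (f * g) := Summable.of_nonneg_of_le h0 h3 h2
  refine ⟨h4, ?_⟩
  have h5 : nr ρ f * nr ρ g = ∑' ν : ι →₀ ℕ, ∑ x ∈ Finset.HasAntidiagonal.antidiagonal ν,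
      (‖coeff x.1 f‖ * mr ρ x.1) * (‖coeff x.2 g‖ * mr ρ x.2) :=
    Summable.tsum_mul_tsum_eq_tsum_sum_antidiagonal (f := fun ν => ‖coeff ν f‖ * mr ρ ν)
      (g := fun ν => ‖coeff ν g‖ * mr ρ ν) hf hg h1
  rw [h5]
  exact Summable.tsum_le_tsum h3 h4 h2

end Pool.Agent.Helper94.AXG
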