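import Pool.Agent.Helper94.AXG.G1B
import Pool.Agent.Helper94.AXG.G1C

/-! # AXG-G1D -/

namespace Pool.Agent.Helper94.AXG

open MvPowerSeries Filter Topology

variable {ι κ : Type} [Fintype ι] [Fintype κ]

private theorem g1d_mo (y : ι → ℂ) (μ ν : ι →₀ ℕ) : mo y (μ + ν) = mo y μ * mo y ν := by
  unfold mo
  rw [← Finset.prod_mul_distrib]
  exact Finset.prod_congr rfl fun i _ => by rw [Finsupp.add_apply, pow_add]

omit [Fintype ι] in
private theorem g1d_tsum [DecidableEq ι] {F G : (ι →₀ ℕ) → ℂ} (h1 : Summable fun ν => ‖F ν‖)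
    (h2 : Summable fun ν => ‖G ν‖) : (∑' ν, F ν) * (∑' ν, G ν) =
      ∑' ν : ι →₀ ℕ, ∑ p ∈ Finset.HasAntidiagonal.antidiagonal ν, F p.1 * G p.2 :=
  h1.of_norm.tsum_mul_tsum_eq_tsum_sum_antidiagonal h2.of_norm
    (summable_mul_of_summable_norm h1 h2)

private theorem g1d_coeff [DecidableEq ι] (f g : MvPowerSeries ι ℂ) (y : ι → ℂ) (ν : ι →₀ ℕ) :
    coeff ν (f * g) * mo y ν = ∑ p ∈ Finset.HasAntidiagonal.antidiagonal ν,
      (coeff p.1 f * mo y p.1) * (coeff p.2 g * mo y p.2) := by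
  rw [coeff_mul, Finset.sum_mul]
  refine Finset.sum_congr rfl fun p hp => ?_
  rw [← Finset.HasAntidiagonal.mem_antidiagonal.1 hp, g1d_mo]
  ring

/-- Cauchy product of absolutely convergent series over the antidiagonal -/
theorem ev_mul {ρ : ι → ℝ} {f g : MvPowerSeries ι ℂ} (hf : Cv ρ f) (hg : Cv ρ g) {y : ι → ℂ}
    (hy : ∀ i, ‖y i‖ ≤ ρ i) : ev (f * g) y = ev f y * ev g y := by
  classical
  have h4 := g1d_tsum (F := fun ν => coeff ν f * mo y ν) (G := fun ν => coeff ν g * mo y ν)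
    (ev_summable hf hy) (ev_summable hg hy)
  have h6 : ev (f * g) y = ∑' ν : ι →₀ ℕ, ∑ p ∈ Finset.HasAntidiagonal.antidiagonal ν,
      (coeff p.1 f * mo y p.1) * (coeff p.2 g * mo y p.2) := tsum_congr (g1d_coeff f g y)
  rw [h6]
  exact h4.symm

end Pool.Agent.Helper94.AXG
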