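import Pool.Agent.Helper94.AXG.G1B

/-! # AXG-G1E -/

namespace Pool.Agent.Helper94.AXG

open MvPowerSeries Filter Topology

variable {ι κ : Type} [Fintype ι] [Fintype κ]

/-- the value is continuous on the closed polydisc (uniform limit of polynomials, Weierstrass M-test) -/
theorem ev_continuousOn {ρ : ι → ℝ} {f : MvPowerSeries ι ℂ} (hf : Cv ρ f) :
    ContinuousOn (ev f) {y : ι → ℂ | ∀ i, ‖y i‖ ≤ ρ i} := by
  have hf' : Summable fun ν : ι →₀ ℕ => ‖coeff ν f‖ * mr ρ ν := hf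
  have h := continuousOn_tsum (f := fun (ν : ι →₀ ℕ) (y : ι → ℂ) => coeff ν f * mo y ν)
    (s := {y : ι → ℂ | ∀ i, ‖y i‖ ≤ ρ i}) (u := fun ν : ι →₀ ℕ => ‖coeff ν f‖ * mr ρ ν)
    (fun ν => ?_) hf' (fun ν y hy => ?_)
  · exact h
  · unfold mo
    exact (continuous_const.mul (continuous_finsetProd _ fun i _ =>
      (continuous_apply i).pow _)).continuousOn
  · rw [norm_mul, norm_mo]
    exact mul_le_mul_of_nonneg_left (mr_mono (fun i => norm_nonneg _) hy ν) (norm_nonneg _)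

end Pool.Agent.Helper94.AXG
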