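import Pool.Agent.Helper94.AXG.G1B

/-! # AXG-G1F -/

namespace Pool.Agent.Helper94.AXG

open MvPowerSeries Filter Topology

variable {ι κ : Type} [Fintype ι] [Fintype κ]

private theorem g1f_fiber [DecidableEq ι] (d : ℕ) :
    ((fun ν : ι →₀ ℕ => ∑ i, ν i) ⁻¹' {d}) =
      ((Finset.finsuppAntidiag (Finset.univ : Finset ι) d : Finset (ι →₀ ℕ)) : Set (ι →₀ ℕ)) := by
  ext ν
  simp [Finset.mem_finsuppAntidiag]

private theorem g1f_mo (s : ℂ) (x : ι → ℂ) (ν : ι →₀ ℕ) :
    mo (fun i => s * x i) ν = s ^ (∑ i, ν i) * mo x ν := by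
  unfold mo
  rw [← Finset.prod_pow_eq_pow_sum, ← Finset.prod_mul_distrib]
  exact Finset.prod_congr rfl fun i _ => mul_pow _ _ _

private theorem g1f_hom [DecidableEq ι] {t : ℝ} (ht : 0 < t) {f : MvPowerSeries ι ℂ} (hf : Cv (fun _ => t) f)
    (h : ∀ᶠ y in 𝓝 (0 : ι → ℂ), ev f y = 0) (d : ℕ) {x : ι → ℂ} (hx : ∀ i, ‖x i‖ ≤ t) :
    ∑ ν ∈ Finset.finsuppAntidiag (Finset.univ : Finset ι) d, coeff ν f * mo x ν = 0 := by
  set H : ℕ → ℂ := fun d =>
    ∑ ν ∈ Finset.finsuppAntidiag (Finset.univ : Finset ι) d, coeff ν f * mo x ν with hH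
  set p : FormalMultilinearSeries ℂ ℂ ℂ :=
    fun n => ContinuousMultilinearMap.mkPiRing ℂ (Fin n) (H n) with hp
  have hpc : ∀ n, p.coeff n = H n := by
    intro n
    simp [FormalMultilinearSeries.coeff, hp]
  have hcont : Tendsto (fun s : ℂ => fun i => s * x i) (𝓝 0) (𝓝 (0 : ι → ℂ)) := by
    have h1 : Continuous fun s : ℂ => fun i => s * x i :=
      continuous_pi fun i => continuous_id.mul continuous_const
    have h2 := h1.tendsto 0
    have h3 : (fun i => (0 : ℂ) * x i) = (0 : ι → ℂ) := by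
      funext i
      simp
    rw [h3] at h2
    exact h2
  have hps : HasFPowerSeriesAt (0 : ℂ → ℂ) p 0 := by
    rw [hasFPowerSeriesAt_iff]
    have hb : ∀ᶠ s : ℂ in 𝓝 0, ‖s‖ < 1 := by
      have h1 := (continuous_norm.tendsto (0 : ℂ))
      rw [norm_zero] at h1
      exact h1.eventually (gt_mem_nhds one_pos)
    filter_upwards [hcont.eventually h, hb] with s hs hs1
    have hy : ∀ i, ‖s * x i‖ ≤ t := by
      intro i
      rw [norm_mul]
      calc ‖s‖ * ‖x i‖ ≤ 1 * t :=
            mul_le_mul hs1.le (hx i) (norm_nonneg _) zero_le_one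
        _ = t := one_mul t
    have h1 : Summable fun ν => coeff ν f * mo (fun i => s * x i) ν :=
      (ev_summable hf hy).of_norm
    have h2 : HasSum (fun ν => coeff ν f * mo (fun i => s * x i) ν) 0 := by
      have h3 := h1.hasSum
      have h4 : ∑' ν, coeff ν f * mo (fun i => s * x i) ν = 0 := hs
      rw [h4] at h3
      exact h3
    have h5 := h2.tsum_fiberwise (fun ν : ι →₀ ℕ => ∑ i, ν i)
    have h6 : ∀ d : ℕ, (∑' b : ((fun ν : ι →₀ ℕ => ∑ i, ν i) ⁻¹' {d}),
        coeff (b : ι →₀ ℕ) f * mo (fun i => s * x i) (b : ι →₀ ℕ)) = s ^ d • p.coeff d := by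
      intro d
      rw [g1f_fiber d]
      rw [Finset.tsum_subtype' (Finset.finsuppAntidiag (Finset.univ : Finset ι) d)
        (fun ν => coeff ν f * mo (fun i => s * x i) ν)]
      rw [hpc, hH, smul_eq_mul]
      simp only
      rw [Finset.mul_sum]
      refine Finset.sum_congr rfl fun ν hν => ?_
      have h7 : ∑ i, ν i = d := by
        have h8 := (Finset.mem_finsuppAntidiag.1 hν).1
        exact h8
      rw [g1f_mo, h7]
      ring
    have h9 : (fun d : ℕ => (∑' b : ((fun ν : ι →₀ ℕ => ∑ i, ν i) ⁻¹' {d}),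
        coeff (b : ι →₀ ℕ) f * mo (fun i => s * x i) (b : ι →₀ ℕ))) =
        fun d => s ^ d • p.coeff d := funext h6
    rw [h9] at h5
    simpa using h5
  have h0 := hps.eq_zero
  have h1 : p.coeff d = 0 := by
    rw [h0]
    rfl
  rw [hpc] at h1
  exact h1

/-- uniqueness: a convergent power series whose values vanish near `0` is zero. Proof. Restrict to
`y = (s x_i)`, `x` fixed small, `s ∈ ℂ`, `|s| ≤ 1`: `∑_d s^d (∑_{|ν| = d} f_ν x^ν) = 0` for small `s`, so
all homogeneous parts vanish at all small `x` (one variable), and a homogeneous polynomial which vanishes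
on an open set is zero. Or induction on the number of variables. -/
theorem eq_zero_of_ev {t : ℝ} (ht : 0 < t) {f : MvPowerSeries ι ℂ} (hf : Cv (fun _ => t) f)
    (h : ∀ᶠ y in 𝓝 (0 : ι → ℂ), ev f y = 0) : f = 0 := by
  classical
  ext μ
  rw [coeff_zero]
  set d := ∑ i, μ i with hd
  set S := Finset.finsuppAntidiag (Finset.univ : Finset ι) d with hS
  set q : MvPolynomial ι ℂ := ∑ ν ∈ S, MvPolynomial.monomial ν (coeff ν f) with hq
  have hball : (Metric.closedBall (0 : ℂ) t).Infinite := by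
    refine Set.infinite_of_injective_forall_mem (f := fun n : ℕ => ((t / (n + 1) : ℝ) : ℂ)) ?_ ?_
    · intro a b hab
      have h1 : t / ((a : ℝ) + 1) = t / ((b : ℝ) + 1) := Complex.ofReal_injective hab
      have ha : (0 : ℝ) < (a : ℝ) + 1 := by positivity
      have hb : (0 : ℝ) < (b : ℝ) + 1 := by positivity
      rw [div_eq_div_iff ha.ne' hb.ne'] at h1
      have h2 : (b : ℝ) + 1 = (a : ℝ) + 1 := mul_left_cancel₀ ht.ne' h1
      have h3 : (a : ℝ) = b := by linarith
      exact_mod_cast h3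
    · intro n
      rw [mem_closedBall_zero_iff, Complex.norm_real, Real.norm_eq_abs]
      have hn : (0 : ℝ) < (n : ℝ) + 1 := by positivity
      rw [abs_of_nonneg (by positivity)]
      exact div_le_self ht.le (by linarith)
  have hq0 : q = 0 := by
    refine MvPolynomial.funext_set (fun _ => Metric.closedBall (0 : ℂ) t) (fun _ => hball) ?_
    intro x hx
    rw [map_zero, hq, map_sum]
    have h1 : ∀ i, ‖x i‖ ≤ t := by
      intro i
      have := hx i (Set.mem_univ i)
      rwa [mem_closedBall_zero_iff] at this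
    rw [← g1f_hom ht hf h d h1]
    refine Finset.sum_congr rfl fun ν _ => ?_
    rw [MvPolynomial.eval_monomial]
    congr 1
    unfold mo
    exact Finsupp.prod_fintype _ _ fun i => pow_zero _
  have hμ : μ ∈ S := by
    rw [hS, Finset.mem_finsuppAntidiag]
    exact ⟨rfl, Finset.subset_univ _⟩
  have h2 : MvPolynomial.coeff μ q = coeff μ f := by
    rw [hq, MvPolynomial.coeff_sum, Finset.sum_eq_single μ]
    · rw [MvPolynomial.coeff_monomial, if_pos rfl]
    · intro ν _ hν
      rw [MvPolynomial.coeff_monomial, if_neg hν]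
    · intro hn
      exact absurd hμ hn
  rw [← h2, hq0, MvPolynomial.coeff_zero]

end Pool.Agent.Helper94.AXG
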