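import Pool.Agent.Helper94.AXG.G10B
import Pool.Agent.Helper94.AXG.G3B
import Pool.Agent.Helper94.AXG.G1A
import Pool.Agent.Helper94.AXG.G1D
import Pool.Agent.Helper94.AXG.G1E
import Pool.Agent.Helper94.AXG.G1F

/-! # AXG-G11: normalised limits (Bautin's lemma for sequences) -/

namespace Pool.Agent.Helper94.AXG

open MvPowerSeries Filter Topology

variable {ι κ : Type} [Fintype ι] [Fintype κ]

/-- slices of convergent power series are convergent -/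
private theorem g11_slice {p : ℕ} {P : MvPowerSeries (Fin p ⊕ κ) ℂ} {t : ℝ} (ht : 0 < t)
    (hP : Cv (fun _ => t) P) (ν : κ →₀ ℕ) : Cv (fun _ => t) (slice P ν) := by
  have hinj : Function.Injective (fun μ : Fin p →₀ ℕ => Finsupp.sumElim μ ν) := by
    intro μ μ' h
    ext i
    exact congrArg (fun w : Fin p ⊕ κ →₀ ℕ => w (Sum.inl i)) h
  have h1 := hP.comp_injective hinj
  have h2 : ∀ μ : Fin p →₀ ℕ, mr (fun _ : Fin p ⊕ κ => t) (Finsupp.sumElim μ ν) =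
      mr (fun _ : Fin p => t) μ * mr (fun _ : κ => t) ν := by
    intro μ
    unfold mr
    rw [Fintype.prod_sum_type]
    rfl
  have h3 : mr (fun _ : κ => t) ν ≠ 0 := by
    unfold mr
    exact Finset.prod_ne_zero_iff.2 fun i _ => pow_ne_zero _ ht.ne'
  have h4 := h1.mul_right (mr (fun _ : κ => t) ν)⁻¹
  refine h4.congr fun μ => ?_
  show ‖coeff (Finsupp.sumElim μ ν) P‖ * mr (fun _ : Fin p ⊕ κ => t) (Finsupp.sumElim μ ν) *
    (mr (fun _ : κ => t) ν)⁻¹ = ‖coeff (Finsupp.sumElim μ ν) P‖ * mr (fun _ : Fin p => t) μ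
  rw [h2, mul_assoc, mul_assoc, mul_inv_cancel₀ h3, mul_one]

/-- the power series in the last variables for fixed values of the first ones -/
private noncomputable def g11at {p : ℕ} (P : MvPowerSeries (Fin p ⊕ κ) ℂ) (b : Fin p → ℂ) :
    MvPowerSeries κ ℂ := fun ν => ev (slice P ν) b

private theorem g11_at {p : ℕ} {P : MvPowerSeries (Fin p ⊕ κ) ℂ} {t : ℝ} (ht : 0 < t)
    (hP : Cv (fun _ => t) P) {b : Fin p → ℂ} (hb : ∀ i, ‖b i‖ ≤ t) :
    Cv (fun _ => t) (g11at P b) ∧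
      ∀ x : κ → ℂ, (∀ j, ‖x j‖ ≤ t) → ev P (Sum.elim b x) = ev (g11at P b) x := by
  have hn : ‖(t : ℂ)‖ = t := by rw [Complex.norm_real, Real.norm_eq_abs, abs_of_pos ht]
  refine ⟨?_, fun x hx => (ev_slice ht hP hb hx).2⟩
  have h1 := (ev_slice ht hP hb (x := fun _ => (t : ℂ)) (fun _ => hn.le)).1
  refine h1.congr fun ν => ?_
  rw [norm_mul, norm_mo]
  simp only [hn]
  rfl

private theorem g11_sum {σ α : Type} [Fintype σ] {ρ : σ → ℝ} (hρ : ∀ i, 0 ≤ ρ i) (V : Finset α)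
    (F : α → MvPowerSeries σ ℂ) (hF : ∀ a ∈ V, Cv ρ (F a)) :
    Cv ρ (∑ a ∈ V, F a) ∧ ∀ y : σ → ℂ, (∀ i, ‖y i‖ ≤ ρ i) →
      ev (∑ a ∈ V, F a) y = ∑ a ∈ V, ev (F a) y := by
  classical
  induction V using Finset.induction_on with
  | empty =>
    refine ⟨?_, fun y _ => ?_⟩
    · simp only [Finset.sum_empty, Cv, map_zero, norm_zero, zero_mul]
      exact summable_zero
    · simp [ev]
  | insert a V ha ih =>
    obtain ⟨h1, h2⟩ := ih fun b hb => hF b (Finset.mem_insert_of_mem hb)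
    have h3 := hF a (Finset.mem_insert_self a V)
    rw [Finset.sum_insert ha]
    refine ⟨(Cv_add hρ h3 h1).1, fun y hy => ?_⟩
    rw [ev_add h3 h1 hy, h2 y hy, Finset.sum_insert ha]

private theorem g11_C {σ : Type} [Fintype σ] {ρ : σ → ℝ} (c : ℂ) {f : MvPowerSeries σ ℂ}
    (hf : Cv ρ f) {y : σ → ℂ} (hy : ∀ i, ‖y i‖ ≤ ρ i) : ev (C c * f) y = c * ev f y := by
  have h1 : (C c : MvPowerSeries σ ℂ) = monomial 0 c := rfl
  have h2 : Cv ρ (monomial 0 c : MvPowerSeries σ ℂ) := (Cv_monomial ρ 0 c).1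
  rw [h1, ev_mul h2 hf hy, ev_monomial]
  simp [mo]

/-- comparison of coefficients -/
private theorem g11_uniq {p : ℕ} {W : Type} [Fintype W] {t : ℝ} (ht : 0 < t)
    (F : W → MvPowerSeries (Fin p ⊕ κ) ℂ) (hF : ∀ w, Cv (fun _ => t) (F w)) (a : W → ℂ)
    {b : Fin p → ℂ} (hb : ∀ i, ‖b i‖ ≤ t)
    (h : ∀ᶠ x in 𝓝 (0 : κ → ℂ), ∑ w, a w * ev (F w) (Sum.elim b x) = 0) (ν₀ : κ →₀ ℕ) :
    ∑ w, a w * ev (slice (F w) ν₀) b = 0 := by
  have hA : ∀ w, Cv (fun _ => t) (g11at (F w) b) := fun w => (g11_at ht (hF w) hb).1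
  have hCA : ∀ w ∈ Finset.univ, Cv (fun _ => t) (C (a w) * g11at (F w) b) := fun w _ =>
    (Cv_smul _ (hA w) (a w)).1
  obtain ⟨h1, h2⟩ := g11_sum (fun _ => ht.le) Finset.univ (fun w => C (a w) * g11at (F w) b) hCA
  have hsm : ∀ᶠ x in 𝓝 (0 : κ → ℂ), ∀ j, ‖x j‖ ≤ t := by
    refine Filter.eventually_all.2 fun j => ?_
    have h3 : Tendsto (fun x : κ → ℂ => x j) (𝓝 0) (𝓝 0) := (continuous_apply j).tendsto 0
    filter_upwards [h3.eventually (Metric.closedBall_mem_nhds 0 ht)] with x hx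
    exact mem_closedBall_zero_iff.1 hx
  have h4 : (∑ w, C (a w) * g11at (F w) b) = 0 := by
    refine eq_zero_of_ev ht h1 ?_
    filter_upwards [h, hsm] with x hx hx1
    rw [h2 x hx1, ← hx]
    refine Finset.sum_congr rfl fun w _ => ?_
    rw [g11_C (a w) (hA w) hx1, (g11_at ht (hF w) hb).2 x hx1]
  have h5 := congrArg (coeff ν₀) h4
  rw [map_sum, map_zero] at h5
  rw [← h5]
  refine Finset.sum_congr rfl fun w _ => ?_
  rw [coeff_C_mul]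
  rfl

/-- AXG-G11. Proof. Reindex `ι ≃ Fin p` (`CA_comp_linear`). Let `P` be the power series, `V`, `G_ν` from
`bautin_ps`; let `ρ₀` be smaller than all radii. `c_ν(b) = ev (slice P ν) b`. For `‖b‖, ‖x‖` small:
`N(b, x) = ∑_{ν ∈ V} c_ν(b) G_ν(b, x)`. For almost all `n` some `c_ν(b_n)`, `ν ∈ V`, is nonzero (otherwise
`N(b_n, ·) = 0` for `‖x‖ < ρ`). Let `ν₀(n) ∈ V` maximise `‖c_ν(b_n)‖`; along the ultrafilter
`ν₀(n) = ν₀` is constant; `s_n = c_{ν₀}(b_n)`, `θ_n(ν) = c_ν(b_n)/s_n`, `‖θ_n(ν)‖ ≤ 1`, so `θ_n → θ_*` along the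
ultrafilter (compactness of the closed polydisc, `IsCompact.ultrafilter_le_nhds`), `θ_n(ν₀) = 1`. Put
`N'((η, b), x) = ∑_ν (θ_*(ν) + η_ν) G_ν(b, x)` (a `CA2` function of `(η, b)`, `x`) and
`b'_n = (θ_n - θ_*, b_n)`. The coefficient of `x^{ν₀}` of `N'((η, b), ·)` is
`k(η, b) = ∑_ν (θ_*(ν) + η_ν) ev (slice G_ν ν₀) b`, continuous at `0`, and it is `1` at `b'_n`, because
`N'(b'_n, x) = N(b_n, x)/s_n` near `x = 0` and the coefficient of `x^{ν₀}` of `N(b_n, ·)` is `c_{ν₀}(b_n)`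
(uniqueness of power series, `eq_zero_of_ev`). So `k(0) = 1 ≠ 0` and `N'(0, ·)` is not zero near `0`. -/
theorem bautin (N : (ι → ℂ) → (κ → ℂ) → ℂ) (hN : CA2 N) : ∃ ρ₀ : ℝ, 0 < ρ₀ ∧
    ∀ (𝒰 : Ultrafilter ℕ) (b : ℕ → ι → ℂ), Tendsto b 𝒰 (𝓝 0) → ∀ ρ : ℝ, 0 < ρ → ρ ≤ ρ₀ →
      (∀ᶠ n in (𝒰 : Filter ℕ), ∃ x : κ → ℂ, (∀ j, ‖x j‖ < ρ) ∧ N (b n) x ≠ 0) →
      ∃ (p : ℕ) (N' : (Fin p → ℂ) → (κ → ℂ) → ℂ) (b' : ℕ → Fin p → ℂ) (s : ℕ → ℂ) (t : ℝ),
        CA2 N' ∧ Tendsto b' 𝒰 (𝓝 0) ∧ 0 < t ∧ (∀ᶠ n in (𝒰 : Filter ℕ), s n ≠ 0) ∧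
        (∀ᶠ n in (𝒰 : Filter ℕ), ∀ x : κ → ℂ, (∀ j, ‖x j‖ ≤ t) → N (b n) x = s n * N' (b' n) x) ∧
        ¬ ∀ᶠ x in 𝓝 (0 : κ → ℂ), N' 0 x = 0 := by
  classical
  obtain ⟨e⟩ : Nonempty (ι ≃ Fin (Fintype.card ι)) := ⟨Fintype.equivFin ι⟩
  generalize Fintype.card ι = p₀ at e
  obtain ⟨P, t, ht, hP, hf⟩ : CA (fun y : Fin p₀ ⊕ κ → ℂ =>
      N (fun i => y (Sum.inl (e i))) (fun j => y (Sum.inr j))) :=
    CA_comp_linear hN (LinearMap.funLeft ℂ ℂ (Sum.map e id))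
  obtain ⟨V, G, t', ht', hG, hPe⟩ := bautin_ps ht hP
  obtain ⟨t₁, ht₁, ht₁t, ht₁t'⟩ : ∃ t₁ : ℝ, 0 < t₁ ∧ t₁ ≤ t ∧ t₁ ≤ t' :=
    ⟨min t t', lt_min ht ht', min_le_left _ _, min_le_right _ _⟩
  have hP₁ : Cv (fun _ => t₁) P := Cv_mono (fun _ => ht₁.le) (fun _ => ht₁t) hP
  have hG₁ : ∀ ν : V, Cv (fun _ => t₁) (G ν) := fun ν =>
    Cv_mono (fun _ => ht₁.le) (fun _ => ht₁t') (hG ν ν.2)
  have hsl : ∀ ν, Cv (fun _ => t₁) (slice P ν) := fun ν => g11_slice ht₁ hP₁ ν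
  have hexp : ∀ (b : Fin p₀ → ℂ) (x : κ → ℂ), (∀ i, ‖b i‖ ≤ t₁) → (∀ j, ‖x j‖ ≤ t₁) →
      ev P (Sum.elim b x) = ∑ ν : V, ev (slice P ν) b * ev (G ν) (Sum.elim b x) := by
    intro b x hb hx
    have hy : ∀ i, ‖Sum.elim b x i‖ ≤ t₁ := by
      rintro (i | j)
      · exact hb i
      · exact hx j
    have h1 : P = ∑ ν : V, lft (slice P ν) * G ν := by
      conv_lhs => rw [hPe]
      exact (Finset.sum_coe_sort V fun ν => lft (slice P ν) * G ν).symm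
    have h2 := (g11_sum (ρ := fun _ => t₁) (fun _ => ht₁.le) Finset.univ
      (fun ν : V => lft (slice P ν) * G ν)
      (fun ν _ => (Cv_mul (fun _ => ht₁.le) (ev_lft (hsl ν) (b := b) (x := x)).1 (hG₁ ν)).1)).2
        _ hy
    rw [← h1] at h2
    rw [h2]
    refine Finset.sum_congr rfl fun ν _ => ?_
    rw [ev_mul (ev_lft (hsl ν) (b := b) (x := x)).1 (hG₁ ν) hy, (ev_lft (hsl ν)).2]
  have hsm : ∀ {σ : Type} [Fintype σ], ∀ᶠ x in 𝓝 (0 : σ → ℂ), ∀ j, ‖x j‖ ≤ t₁ := by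
    intro σ _
    refine Filter.eventually_all.2 fun j => ?_
    have h3 : Tendsto (fun x : σ → ℂ => x j) (𝓝 0) (𝓝 0) := (continuous_apply j).tendsto 0
    filter_upwards [h3.eventually (Metric.closedBall_mem_nhds 0 ht₁)] with x hx
    exact mem_closedBall_zero_iff.1 hx
  refine ⟨t₁, ht₁, fun 𝒰 b hb ρ hρ hρt hx => ?_⟩
  obtain ⟨β, hβ⟩ : ∃ β : ℕ → Fin p₀ → ℂ, ∀ n i, β n i = b n (e.symm i) :=
    ⟨fun n i => b n (e.symm i), fun _ _ => rfl⟩
  have hβ0 : Tendsto β 𝒰 (𝓝 0) := by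
    refine tendsto_pi_nhds.2 fun i => ?_
    simp only [hβ]
    exact tendsto_pi_nhds.1 hb (e.symm i)
  have hβs : ∀ᶠ n in (𝒰 : Filter ℕ), ∀ i, ‖β n i‖ ≤ t₁ := hβ0.eventually hsm
  have hval : ∀ n, (∀ i, ‖β n i‖ ≤ t₁) → ∀ x : κ → ℂ, (∀ j, ‖x j‖ ≤ t₁) →
      N (b n) x = ∑ ν : V, ev (slice P ν) (β n) * ev (G ν) (Sum.elim (β n) x) := by
    intro n hn x hx
    rw [← hexp (β n) x hn hx, ← hf (Sum.elim (β n) x) (by
      rintro (i | j)
      · exact (hn i).trans ht₁t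
      · exact (hx j).trans ht₁t)]
    show N (b n) x = N (fun i => β n (e i)) (fun j => x j)
    congr 1
    funext i
    rw [hβ, Equiv.symm_apply_apply]
  have hex : ∀ᶠ n in (𝒰 : Filter ℕ), ∃ ν₀ : V, ev (slice P ν₀) (β n) ≠ 0 ∧
      ∀ ν : V, ‖ev (slice P ν) (β n)‖ ≤ ‖ev (slice P ν₀) (β n)‖ := by
    filter_upwards [hβs, hx] with n hn hxn
    obtain ⟨x, hx1, hx2⟩ := hxn
    rw [hval n hn x fun j => (hx1 j).le.trans hρt] at hx2
    obtain ⟨ν, _, hν⟩ := Finset.exists_ne_zero_of_sum_ne_zero hx2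
    have : Nonempty V := ⟨ν⟩
    obtain ⟨ν₀, hν₀⟩ := Finite.exists_max fun ν : V => ‖ev (slice P ν) (β n)‖
    refine ⟨ν₀, fun h0 => ?_, hν₀⟩
    have h1 := hν₀ ν
    rw [h0, norm_zero] at h1
    exact (left_ne_zero_of_mul hν) (norm_le_zero_iff.1 h1)
  obtain ⟨ν₀, hν₀⟩ := Ultrafilter.eventually_exists_iff.1 hex
  obtain ⟨s, hs⟩ : ∃ s : ℕ → ℂ, ∀ n, s n = ev (slice P ν₀) (β n) := ⟨_, fun _ => rfl⟩
  obtain ⟨θ, hθ⟩ : ∃ θ : ℕ → V → ℂ, ∀ n ν, θ n ν = ev (slice P ν) (β n) / s n :=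
    ⟨fun n ν => ev (slice P ν) (β n) / s n, fun _ _ => rfl⟩
  have hθ1 : ∀ᶠ n in (𝒰 : Filter ℕ), θ n ∈ Metric.closedBall (0 : V → ℂ) 1 := by
    filter_upwards [hν₀] with n hn
    rw [mem_closedBall_zero_iff, pi_norm_le_iff_of_nonneg zero_le_one]
    intro ν
    rw [hθ, hs, norm_div]
    exact div_le_one_of_le₀ (hn.2 ν) (norm_nonneg _)
  obtain ⟨θs, _, hθs'⟩ := (isCompact_closedBall (0 : V → ℂ) 1).ultrafilter_le_nhds (𝒰.map θ)
    (Filter.le_principal_iff.2 hθ1)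
  have hθs : Tendsto θ 𝒰 (𝓝 θs) := hθs'
  obtain ⟨e'⟩ : Nonempty (V ⊕ Fin p₀ ≃ Fin (Fintype.card (V ⊕ Fin p₀))) :=
    ⟨Fintype.equivFin (V ⊕ Fin p₀)⟩
  generalize Fintype.card (V ⊕ Fin p₀) = q at e'
  refine ⟨q, fun c x => ∑ ν : V, (θs ν + c (e' (Sum.inl ν))) *
    ev (G ν) (Sum.elim (fun i => c (e' (Sum.inr i))) x),
    fun n k => Sum.elim (fun ν => θ n ν - θs ν) (β n) (e'.symm k), s, t₁, ?_, ?_, ht₁, ?_, ?_, ?_⟩
  · refine CA_sum Finset.univ fun ν _ => CA_mul (CA_add (CA_const _) (CA_coord _)) ?_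
    have h1 : CA (ev (G ν)) := ⟨G ν, t₁, ht₁, hG₁ ν, fun _ _ => rfl⟩
    have h2 := CA_comp_linear h1 (LinearMap.funLeft ℂ ℂ
      (Sum.map (fun i => e' (Sum.inr i)) id : Fin p₀ ⊕ κ → Fin q ⊕ κ))
    have h3 : (fun w : Fin q ⊕ κ → ℂ => ev (G ν)
        (Sum.elim (fun i => w (Sum.inl (e' (Sum.inr i)))) fun j => w (Sum.inr j))) =
        fun w : Fin q ⊕ κ → ℂ => ev (G ν) (LinearMap.funLeft ℂ ℂ
          (Sum.map (fun i => e' (Sum.inr i)) id : Fin p₀ ⊕ κ → Fin q ⊕ κ) w) := by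
      funext w
      congr 1
      funext i
      rcases i with i | j <;> rfl
    rw [h3]
    exact h2
  · refine tendsto_pi_nhds.2 fun k => ?_
    rcases h : e'.symm k with ν | i
    · simp only [Sum.elim_inl]
      have h1 := (tendsto_pi_nhds.1 hθs ν).sub_const (θs ν)
      rw [sub_self] at h1
      exact h1
    · simp only [Sum.elim_inr]
      exact tendsto_pi_nhds.1 hβ0 i
  · filter_upwards [hν₀] with n hn
    rw [hs]
    exact hn.1
  · filter_upwards [hν₀, hβs] with n hn hn' x hx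
    rw [hval n hn' x hx, Finset.mul_sum]
    refine Finset.sum_congr rfl fun ν _ => ?_
    simp only [Equiv.symm_apply_apply, Sum.elim_inl, Sum.elim_inr]
    rw [add_sub_cancel, hθ, ← mul_assoc, mul_div_cancel₀]
    rw [hs]
    exact hn.1
  · intro h0
    have hz : ∀ i : Fin p₀, ‖(0 : Fin p₀ → ℂ) i‖ ≤ t₁ := fun i => by
      rw [Pi.zero_apply, norm_zero]
      exact ht₁.le
    have h1 : ∑ ν : V, θs ν * ev (slice (G ν) ν₀) 0 = 0 := by
      refine g11_uniq ht₁ (fun ν : V => G ν) hG₁ θs hz ?_ ν₀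
      filter_upwards [h0] with x hx
      rw [← hx]
      refine Finset.sum_congr rfl fun ν _ => ?_
      rw [Pi.zero_apply, add_zero]
      rfl
    have h2 : ∀ᶠ n in (𝒰 : Filter ℕ), ∑ ν : V, θ n ν * ev (slice (G ν) ν₀) (β n) = 1 := by
      filter_upwards [hν₀, hβs] with n hn hn'
      have h3 := g11_uniq (W := Option V) ht₁ (fun w => w.elim P fun ν => G ν)
        (fun w => by
          rcases w with _ | ν
          · exact hP₁
          · exact hG₁ ν)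
        (fun w => w.elim 1 fun ν => -ev (slice P ν) (β n)) hn' (by
          filter_upwards [hsm] with x hx
          rw [Fintype.sum_option]
          show 1 * ev P (Sum.elim (β n) x) +
            ∑ ν : V, -ev (slice P ν) (β n) * ev (G ν) (Sum.elim (β n) x) = 0
          rw [hexp (β n) x hn' hx]
          simp only [neg_mul, Finset.sum_neg_distrib, one_mul]
          ring) ν₀
      rw [Fintype.sum_option] at h3
      have h4 : 1 * ev (slice P ν₀) (β n) +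
        ∑ ν : V, -ev (slice P ν) (β n) * ev (slice (G ν) ν₀) (β n) = 0 := h3
      have h5 : s n ≠ 0 := by
        rw [hs]
        exact hn.1
      have h6 : s n * ∑ ν : V, θ n ν * ev (slice (G ν) ν₀) (β n) = s n := by
        rw [Finset.mul_sum]
        have h7 : ∀ ν : V, s n * (θ n ν * ev (slice (G ν) ν₀) (β n)) =
            ev (slice P ν) (β n) * ev (slice (G ν) ν₀) (β n) := fun ν => by
          rw [hθ, ← mul_assoc, mul_div_cancel₀ _ h5]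
        simp only [h7]
        simp only [neg_mul, Finset.sum_neg_distrib, one_mul] at h4
        rw [hs]
        linear_combination -h4
      exact mul_left_cancel₀ h5 (h6.trans (mul_one _).symm)
    have h3 : Tendsto (fun n => ∑ ν : V, θ n ν * ev (slice (G ν) ν₀) (β n)) 𝒰
        (𝓝 (∑ ν : V, θs ν * ev (slice (G ν) ν₀) 0)) := by
      refine tendsto_finsetSum _ fun ν _ => (tendsto_pi_nhds.1 hθs ν).mul ?_
      have h4 : ContinuousAt (ev (slice (G ν) ν₀)) 0 :=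
        (ev_continuousOn (g11_slice ht₁ (hG₁ ν) ν₀)).continuousAt hsm
      exact h4.tendsto.comp hβ0
    rw [h1] at h3
    have h4 : Tendsto (fun n => ∑ ν : V, θ n ν * ev (slice (G ν) ν₀) (β n)) 𝒰 (𝓝 1) :=
      tendsto_const_nhds.congr' (h2.mono fun n hn => hn.symm)
    exact zero_ne_one (tendsto_nhds_unique h3 h4)

end Pool.Agent.Helper94.AXG
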