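import Pool.Agent.Helper94.AXG.G3B

/-! # AXG-G12 -/

namespace Pool.Agent.Helper94.AXG

open MvPowerSeries Filter Topology

variable {ι : Type} [Fintype ι]

/-- AXG-G12a: an integral direction. Proof. `N(0, ·)` is given by a nonzero power series in `x`; let `N_m` be
its lowest nonzero homogeneous part, a nonzero homogeneous polynomial of degree `m` in `r' + 1` variables;
there is `c : Fin r' → ℤ` with `N_m(c, 1) ≠ 0` (the dehomogenisation is nonzero and `ℤ` is infinite), and
`N(0, (c z, z)) = z^m N_m(c, 1) + O(z^{m+1})`. -/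
theorem exists_shear_dir {r : ℕ} (N : (ι → ℂ) → (Fin (r + 1) → ℂ) → ℂ) (hN : CA2 N)
    (h0 : ¬ ∀ᶠ x in 𝓝 (0 : Fin (r + 1) → ℂ), N 0 x = 0) :
    ∃ c : Fin r → ℤ, ¬ ∀ᶠ z in 𝓝 (0 : ℂ), N 0 (Fin.snoc (fun i => (c i : ℂ) * z) z) = 0 := by
  classical
  by_contra hcon
  push Not at hcon
  -- the function `N 0` is a convergent power series
  have hg : CA (fun x : Fin (r + 1) → ℂ => N 0 x) := by
    let L : (Fin (r + 1) → ℂ) →ₗ[ℂ] (ι ⊕ Fin (r + 1) → ℂ) :=
      { toFun := fun x => Sum.elim 0 x
        map_add' := by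
          intro x y; funext i; cases i <;> simp
        map_smul' := by
          intro c y; funext i; cases i <;> simp }
    have h1 := CA_comp_linear hN L
    have h2 : (fun y : Fin (r + 1) → ℂ => (fun w : ι ⊕ Fin (r + 1) → ℂ =>
        N (fun i => w (Sum.inl i)) (fun j => w (Sum.inr j))) (L y)) = fun x => N 0 x := by
      funext x
      rfl
    rw [h2] at h1
    exact h1
  obtain ⟨P, t, ht, hP, hval⟩ := hg
  beta_reduce at hval
  -- all the homogeneous parts vanish on the integral directions
  have key : ∀ (c : Fin r → ℤ) (d : ℕ),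
      ∑ ν ∈ Finset.finsuppAntidiag (Finset.univ : Finset (Fin (r + 1))) d,
        coeff ν P * ∏ i : Fin r, (c i : ℂ) ^ ν i.castSucc = 0 := by
    intro c d
    set a : ℕ → ℂ := fun d => ∑ ν ∈ Finset.finsuppAntidiag (Finset.univ : Finset (Fin (r + 1))) d,
        coeff ν P * ∏ i : Fin r, (c i : ℂ) ^ ν i.castSucc with ha
    have hsmall : ∀ᶠ z in 𝓝 (0 : ℂ), ∀ i : Fin (r + 1),
        ‖(Fin.snoc (fun i => (c i : ℂ) * z) z : Fin (r + 1) → ℂ) i‖ ≤ t := by
      rw [Filter.eventually_all]
      intro i
      have hc : ContinuousAt (fun z : ℂ => ‖(Fin.snoc (fun i => (c i : ℂ) * z) z : Fin (r + 1) → ℂ) i‖)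
          0 := by
        refine Fin.lastCases ?_ (fun j => ?_) i
        · simp only [Fin.snoc_last]
          fun_prop
        · simp only [Fin.snoc_castSucc]
          fun_prop
      have h0 : ‖(Fin.snoc (fun i => (c i : ℂ) * (0 : ℂ)) (0 : ℂ) : Fin (r + 1) → ℂ) i‖ < t := by
        refine Fin.lastCases ?_ (fun j => ?_) i
        · simp only [Fin.snoc_last]
          simpa using ht
        · simp only [Fin.snoc_castSucc]
          simpa using ht
      exact (hc.eventually_lt_const h0).mono fun _ h => h.le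
    have hser : HasFPowerSeriesAt (0 : ℂ → ℂ) (FormalMultilinearSeries.ofScalars ℂ a) 0 := by
      rw [hasFPowerSeriesAt_iff]
      filter_upwards [hsmall, hcon c] with z hz h0z
      have hs := ((ev_summable hP (y := Fin.snoc (fun i => (c i : ℂ) * z) z) hz).of_norm).hasSum
      have hs2 := hs.tsum_fiberwise (fun ν : Fin (r + 1) →₀ ℕ => ∑ i, ν i)
      have hev : ∑' ν, coeff ν P * mo (Fin.snoc (fun i => (c i : ℂ) * z) z) ν = 0 := by
        have := hval (Fin.snoc (fun i => (c i : ℂ) * z) z) hz
        rw [h0z] at this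
        exact this.symm
      rw [hev] at hs2
      simp only [Pi.zero_apply]
      convert hs2 using 1
      funext d
      rw [FormalMultilinearSeries.coeff_ofScalars, smul_eq_mul]
      have hset : (fun ν : Fin (r + 1) →₀ ℕ => ∑ i, ν i) ⁻¹' {d} =
          ((Finset.finsuppAntidiag (Finset.univ : Finset (Fin (r + 1))) d :
            Finset (Fin (r + 1) →₀ ℕ)) : Set (Fin (r + 1) →₀ ℕ)) := by
        ext ν
        simp
      rw [hset, Finset.tsum_subtype' (Finset.finsuppAntidiag (Finset.univ : Finset (Fin (r + 1))) d)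
        (fun ν => coeff ν P * mo (Fin.snoc (fun i => (c i : ℂ) * z) z) ν)]
      rw [ha, Finset.mul_sum]
      refine Finset.sum_congr rfl fun ν hν => ?_
      have hd : ∑ i, ν i = d := by
        have := (Finset.mem_finsuppAntidiag.1 hν).1
        simpa using this
      have hmo : mo (Fin.snoc (fun i => (c i : ℂ) * z) z) ν =
          (∏ i : Fin r, (c i : ℂ) ^ ν i.castSucc) * z ^ d := by
        unfold mo
        rw [← hd, Fin.prod_univ_castSucc, Fin.sum_univ_castSucc]
        simp only [Fin.snoc_castSucc, Fin.snoc_last, mul_pow, Finset.prod_mul_distrib,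
          Finset.prod_pow_eq_pow_sum, pow_add, mul_assoc]
      rw [hmo]
      ring
    have h0 := hser.eq_zero
    have h1 : (FormalMultilinearSeries.ofScalars ℂ a : FormalMultilinearSeries ℂ ℂ ℂ).coeff d = 0 := by
      rw [h0]; rfl
    rwa [FormalMultilinearSeries.coeff_ofScalars] at h1
  -- the power series vanishes
  have hP0 : P = 0 := by
    ext μ
    set d : ℕ := ∑ i, μ i with hd
    let m : (Fin (r + 1) →₀ ℕ) → (Fin r →₀ ℕ) := fun ν =>
      Finsupp.equivFunOnFinite.symm (fun i => ν i.castSucc)
    have hm : ∀ ν i, m ν i = ν (Fin.castSucc i) := fun ν i => rfl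
    let Q : MvPolynomial (Fin r) ℂ :=
      ∑ ν ∈ Finset.finsuppAntidiag (Finset.univ : Finset (Fin (r + 1))) d,
        MvPolynomial.monomial (m ν) (coeff ν P)
    have hQ : Q = 0 := by
      refine MvPolynomial.funext_set (fun _ => Set.range (fun n : ℤ => (n : ℂ))) (fun _ =>
        Set.infinite_range_of_injective Int.cast_injective) ?_
      intro x hx
      choose c hc using fun i : Fin r => (Set.mem_univ_pi.1 hx i : x i ∈ Set.range (fun n : ℤ => (n : ℂ)))
      have hx' : x = fun i => (c i : ℂ) := funext fun i => (hc i).symm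
      rw [map_zero, ← key c d, hx']
      simp only [Q, map_sum, MvPolynomial.eval_monomial]
      refine Finset.sum_congr rfl fun ν _ => ?_
      rw [Finsupp.prod_fintype _ _ (fun i => pow_zero _)]
      simp only [hm]
    have hμ : μ ∈ Finset.finsuppAntidiag (Finset.univ : Finset (Fin (r + 1))) d := by
      rw [Finset.mem_finsuppAntidiag]
      exact ⟨by rw [hd], Finset.subset_univ _⟩
    have h1 : MvPolynomial.coeff (m μ) Q = coeff μ P := by
      simp only [Q, MvPolynomial.coeff_sum, MvPolynomial.coeff_monomial]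
      rw [Finset.sum_eq_single_of_mem μ hμ, if_pos rfl]
      intro ν hν hne
      rw [if_neg]
      intro heq
      apply hne
      have hc : ∀ i : Fin r, ν i.castSucc = μ i.castSucc := fun i => by
        rw [← hm, ← hm, heq]
      have hs : ∑ i, ν i = ∑ i, μ i := by
        have := (Finset.mem_finsuppAntidiag.1 hν).1
        rw [← hd]
        simpa using this
      ext i
      refine Fin.lastCases ?_ (fun j => hc j) i
      rw [Fin.sum_univ_castSucc, Fin.sum_univ_castSucc, Finset.sum_congr rfl fun i _ => hc i] at hs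
      exact Nat.add_left_cancel hs
    rw [← h1, hQ]
    simp
  apply h0
  have hn : ∀ᶠ x in 𝓝 (0 : Fin (r + 1) → ℂ), ∀ i, ‖x i‖ ≤ t := by
    rw [Filter.eventually_all]
    intro i
    have hc : ContinuousAt (fun x : Fin (r + 1) → ℂ => ‖x i‖) 0 := (continuous_apply i).norm.continuousAt
    exact (hc.eventually_lt_const (by simpa using ht)).mono fun _ h => h.le
  filter_upwards [hn] with x hx
  rw [hval x hx, hP0]
  simp [ev]

end Pool.Agent.Helper94.AXG
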