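import Pool.Agent.Helper94.AXG.G1D

/-! # AXG-G12B -/

namespace Pool.Agent.Helper94.AXG

open MvPowerSeries Filter Topology

variable {ι : Type} [Fintype ι]

private lemma G12B_hs {R : Type} [CommRing R] [TopologicalSpace R] {r : ℕ} (ν : Fin r → ℕ)
    (y x : Fin r → R) :
    HasSum (fun κ : Fin r →₀ ℕ =>
      ∏ j, ((((ν j).choose (κ j) : ℕ) : R) * y j ^ (ν j - κ j) * x j ^ κ j))
      (∏ j, (x j + y j) ^ ν j) := by
  classical
  have h1 : ∏ j, (x j + y j) ^ ν j = ∑ κ ∈ Fintype.piFinset (fun j => Finset.range (ν j + 1)),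
      ∏ j, ((((ν j).choose (κ j) : ℕ) : R) * y j ^ (ν j - κ j) * x j ^ κ j) := by
    rw [← Finset.prod_univ_sum (fun j => Finset.range (ν j + 1))
      (fun j n => ((((ν j).choose n : ℕ) : R) * y j ^ (ν j - n) * x j ^ n))]
    refine Finset.prod_congr rfl fun j _ => ?_
    rw [add_pow]
    refine Finset.sum_congr rfl fun n _ => ?_
    ring
  rw [h1]
  have h2 := hasSum_sum_of_ne_finset_zero (f := fun κ : Fin r → ℕ =>
      ∏ j, ((((ν j).choose (κ j) : ℕ) : R) * y j ^ (ν j - κ j) * x j ^ κ j))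
      (s := Fintype.piFinset (fun j => Finset.range (ν j + 1)))
      (L := SummationFilter.unconditional _) (by
    intro κ hκ
    have h3 : ∃ j, ¬ (κ j ∈ Finset.range (ν j + 1)) := by
      by_contra h4
      push Not at h4
      exact hκ (Fintype.mem_piFinset.2 h4)
    obtain ⟨j, hj⟩ := h3
    refine Finset.prod_eq_zero (Finset.mem_univ j) ?_
    rw [Nat.choose_eq_zero_of_lt, Nat.cast_zero, zero_mul, zero_mul]
    rw [Finset.mem_range] at hj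
    omega)
  let G : (Fin r → ℕ) → R := fun κ =>
    ∏ j, ((((ν j).choose (κ j) : ℕ) : R) * y j ^ (ν j - κ j) * x j ^ κ j)
  have h4 : HasSum (G ∘ (Finsupp.equivFunOnFinite : (Fin r →₀ ℕ) ≃ (Fin r → ℕ)))
      (∑ κ ∈ Fintype.piFinset (fun j => Finset.range (ν j + 1)), G κ) :=
    (Finsupp.equivFunOnFinite : (Fin r →₀ ℕ) ≃ (Fin r → ℕ)).hasSum_iff.2 h2
  exact h4

private lemma G12B_B {r : ℕ} {ρ : ℝ} {b : ι → ℂ} (hb : ∀ i, ‖b i‖ ≤ ρ) (m : (ι ⊕ Fin r) →₀ ℕ)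
    {z : Fin r → ℝ} (hz0 : ∀ j, 0 ≤ z j) (hz : ∀ j, z j ≤ ρ) :
    ‖∏ i, b i ^ m (Sum.inl i)‖ * ∏ j, z j ^ m (Sum.inr j) ≤ mr (fun _ => ρ) m := by
  unfold mr
  rw [Fintype.prod_sum_type, norm_prod]
  refine mul_le_mul ?_ ?_ (Finset.prod_nonneg fun j _ => pow_nonneg (hz0 j) _)
    (Finset.prod_nonneg fun i _ => pow_nonneg ((norm_nonneg _).trans (hb i)) _)
  · refine Finset.prod_le_prod (fun i _ => norm_nonneg _) fun i _ => ?_
    rw [norm_pow]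
    exact pow_le_pow_left₀ (norm_nonneg _) (hb i) _
  · exact Finset.prod_le_prod (fun j _ => pow_nonneg (hz0 j) _) fun j _ =>
      pow_le_pow_left₀ (hz0 j) (hz j) _

/-- AXG-G12b: Taylor expansion at a point `p` of the polydisc in a group of variables. Proof. The binomial
theorem: `x^ν = ∏ (p_j + (x_j - p_j))^{ν_j}`;
`τ κ = ∑_{(μ, ν)} f_{(μ,ν)} b^μ ∏ C(ν_j, κ_j) p_j^{ν_j - κ_j}`,
`‖τ κ‖ (ρ/2)^{|κ|} ≤ ∑ ‖f_{(μ,ν)}‖ ρ^{|μ|} ∏ (‖p_j‖ + ρ/2)^{ν_j} ≤ nr f`. The Taylor coefficients do not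
depend on `x`. -/
theorem taylor_at {r : ℕ} {ρ : ℝ} (hρ : 0 < ρ) {f : MvPowerSeries (ι ⊕ Fin r) ℂ} (hf : Cv (fun _ => ρ) f)
    {b : ι → ℂ} (hb : ∀ i, ‖b i‖ ≤ ρ) {p : Fin r → ℂ} (hp : ∀ j, ‖p j‖ ≤ ρ / 2) :
    ∃ τ : (Fin r →₀ ℕ) → ℂ, (∀ k, ‖τ k‖ ≤ nr (fun _ => ρ) f * (2 / ρ) ^ (∑ j, k j)) ∧
      ∀ x : Fin r → ℂ, (∀ j, ‖x j - p j‖ ≤ ρ / 4) →
        HasSum (fun k => τ k * ∏ j, (x j - p j) ^ k j) (ev f (Sum.elim b x)) := by
  classical
  let a : ((ι ⊕ Fin r) →₀ ℕ) → (Fin r →₀ ℕ) → ℂ := fun m κ =>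
    coeff m f * (∏ i, b i ^ m (Sum.inl i)) *
      ∏ j, ((((m (Sum.inr j)).choose (κ j) : ℕ) : ℂ) * p j ^ (m (Sum.inr j) - κ j))
  have hρ2 : (0 : ℝ) < ρ / 2 := by positivity
  have hterm : ∀ m κ, ‖a m κ‖ * (ρ / 2) ^ (∑ j, κ j) ≤ ‖coeff m f‖ * mr (fun _ => ρ) m := by
    intro m κ
    have h1 := G12B_hs (R := ℝ) (fun j => m (Sum.inr j)) (fun j => ‖p j‖) (fun _ => ρ / 2)
    have h2 := le_hasSum h1 κ (fun κ' _ => Finset.prod_nonneg fun j _ => by positivity)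
    have h3 := G12B_B hb m (z := fun j => ρ / 2 + ‖p j‖) (fun j => by positivity)
      (fun j => by have := hp j; linarith)
    have h4 : ‖a m κ‖ * (ρ / 2) ^ (∑ j, κ j) = ‖coeff m f‖ * (‖∏ i, b i ^ m (Sum.inl i)‖ *
        ∏ j, ((((m (Sum.inr j)).choose (κ j) : ℕ) : ℝ) * ‖p j‖ ^ (m (Sum.inr j) - κ j) *
          (ρ / 2) ^ κ j)) := by
      simp only [a]
      rw [norm_mul, norm_mul, Finset.prod_mul_distrib (f := fun j =>
        ((((m (Sum.inr j)).choose (κ j) : ℕ) : ℝ) * ‖p j‖ ^ (m (Sum.inr j) - κ j))),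
        Finset.prod_pow_eq_pow_sum]
      have h5 : ‖∏ j, ((((m (Sum.inr j)).choose (κ j) : ℕ) : ℂ) *
          p j ^ (m (Sum.inr j) - κ j))‖ =
          ∏ j, ((((m (Sum.inr j)).choose (κ j) : ℕ) : ℝ) * ‖p j‖ ^ (m (Sum.inr j) - κ j)) := by
        rw [norm_prod]
        refine Finset.prod_congr rfl fun j _ => ?_
        rw [norm_mul, norm_pow, Complex.norm_natCast]
      rw [h5]
      ring
    rw [h4]
    refine mul_le_mul_of_nonneg_left ?_ (norm_nonneg _)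
    exact (mul_le_mul_of_nonneg_left h2 (norm_nonneg _)).trans h3
  have hbd : ∀ m κ, ‖a m κ‖ ≤ ‖coeff m f‖ * mr (fun _ => ρ) m * (2 / ρ) ^ (∑ j, κ j) := by
    intro m κ
    have h1 := mul_le_mul_of_nonneg_right (hterm m κ)
      (pow_nonneg (by positivity : (0 : ℝ) ≤ 2 / ρ) (∑ j, κ j))
    have h2 : (ρ / 2) ^ (∑ j, κ j) * (2 / ρ) ^ (∑ j, κ j) = 1 := by
      rw [← mul_pow]
      have : ρ / 2 * (2 / ρ) = 1 := by field_simp
      rw [this, one_pow]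
    rw [mul_assoc, h2, mul_one] at h1
    exact h1
  have hsm : ∀ κ : Fin r →₀ ℕ, HasSum (fun m => ‖coeff m f‖ * mr (fun _ => ρ) m * (2 / ρ) ^ (∑ j, κ j))
      (nr (fun _ => ρ) f * (2 / ρ) ^ (∑ j, κ j)) := fun κ =>
    (Summable.hasSum hf).mul_right _
  have hsa : ∀ κ : Fin r →₀ ℕ, Summable fun m => a m κ := fun κ =>
    Summable.of_norm_bounded (hsm κ).summable (fun m => hbd m κ)
  refine ⟨fun κ => ∑' m, a m κ, fun κ => tsum_of_norm_bounded (hsm κ) (fun m => hbd m κ), ?_⟩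
  intro x hx
  let F : ((ι ⊕ Fin r) →₀ ℕ) × (Fin r →₀ ℕ) → ℂ := fun z =>
    a z.1 z.2 * ∏ j, (x j - p j) ^ z.2 j
  have hF1 : ∀ m κ, F (m, κ) = coeff m f * (∏ i, b i ^ m (Sum.inl i)) *
      ∏ j, ((((m (Sum.inr j)).choose (κ j) : ℕ) : ℂ) * p j ^ (m (Sum.inr j) - κ j) *
        (x j - p j) ^ κ j) := by
    intro m κ
    simp only [F, a]
    rw [Finset.prod_mul_distrib (f := fun j =>
        ((((m (Sum.inr j)).choose (κ j) : ℕ) : ℂ) * p j ^ (m (Sum.inr j) - κ j)))]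
    ring
  have hF2 : ∀ m κ, ‖F (m, κ)‖ = ‖coeff m f‖ * ‖∏ i, b i ^ m (Sum.inl i)‖ *
      ∏ j, ((((m (Sum.inr j)).choose (κ j) : ℕ) : ℝ) * ‖p j‖ ^ (m (Sum.inr j) - κ j) *
        ‖x j - p j‖ ^ κ j) := by
    intro m κ
    rw [hF1, norm_mul, norm_mul, norm_prod (s := Finset.univ) (f := fun j =>
      ((((m (Sum.inr j)).choose (κ j) : ℕ) : ℂ) * p j ^ (m (Sum.inr j) - κ j) *
        (x j - p j) ^ κ j))]
    congr 1
    refine Finset.prod_congr rfl fun j _ => ?_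
    rw [norm_mul, norm_mul, norm_pow, norm_pow, Complex.norm_natCast]
  have hin : ∀ m, HasSum (fun κ => F (m, κ)) (coeff m f * mo (Sum.elim b x) m) := by
    intro m
    have h1 := (G12B_hs (R := ℂ) (fun j => m (Sum.inr j)) p (fun j => x j - p j)).mul_left
      (coeff m f * (∏ i, b i ^ m (Sum.inl i)))
    have h2 : (coeff m f * (∏ i, b i ^ m (Sum.inl i))) * ∏ j, (x j - p j + p j) ^ m (Sum.inr j) =
        coeff m f * mo (Sum.elim b x) m := by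
      unfold mo
      rw [Fintype.prod_sum_type]
      simp only [Sum.elim_inl, Sum.elim_inr, sub_add_cancel]
      ring
    rw [h2] at h1
    have h3 : (fun κ => F (m, κ)) = fun κ : Fin r →₀ ℕ =>
        (coeff m f * (∏ i, b i ^ m (Sum.inl i))) *
      ∏ j, ((((m (Sum.inr j)).choose (κ j) : ℕ) : ℂ) * p j ^ (m (Sum.inr j) - κ j) *
        (x j - p j) ^ κ j) := funext fun κ => hF1 m κ
    rw [h3]
    exact h1
  have hinn : ∀ m, HasSum (fun κ => ‖F (m, κ)‖) (‖coeff m f‖ * ‖∏ i, b i ^ m (Sum.inl i)‖ *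
      ∏ j, (‖x j - p j‖ + ‖p j‖) ^ m (Sum.inr j)) := by
    intro m
    have h1 := (G12B_hs (R := ℝ) (fun j => m (Sum.inr j)) (fun j => ‖p j‖)
      (fun j => ‖x j - p j‖)).mul_left (‖coeff m f‖ * ‖∏ i, b i ^ m (Sum.inl i)‖)
    have h3 : (fun κ => ‖F (m, κ)‖) = fun κ : Fin r →₀ ℕ =>
        (‖coeff m f‖ * ‖∏ i, b i ^ m (Sum.inl i)‖) *
      ∏ j, ((((m (Sum.inr j)).choose (κ j) : ℕ) : ℝ) * ‖p j‖ ^ (m (Sum.inr j) - κ j) *
        ‖x j - p j‖ ^ κ j) := funext fun κ => hF2 m κ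
    rw [h3]
    exact h1
  have hFs : Summable F := by
    apply Summable.of_norm
    rw [summable_prod_of_nonneg (fun z => norm_nonneg _)]
    refine ⟨fun m => (hinn m).summable, ?_⟩
    refine Summable.of_nonneg_of_le (fun m => tsum_nonneg fun κ => norm_nonneg _) (fun m => ?_) hf
    rw [(hinn m).tsum_eq, mul_assoc]
    refine mul_le_mul_of_nonneg_left ?_ (norm_nonneg _)
    exact G12B_B hb m (z := fun j => ‖x j - p j‖ + ‖p j‖) (fun j => by positivity)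
      (fun j => by have := hp j; have := hx j; linarith)
  have htot : ∑' z, F z = ev f (Sum.elim b x) := (hFs.hasSum.prod_fiberwise hin).tsum_eq.symm
  have hsw : HasSum (F ∘ Equiv.prodComm _ _) (ev f (Sum.elim b x)) := by
    rw [← htot]
    exact (Equiv.prodComm (Fin r →₀ ℕ) ((ι ⊕ Fin r) →₀ ℕ)).hasSum_iff.2 hFs.hasSum
  have hfin : ∀ κ : Fin r →₀ ℕ, HasSum (fun m => F (m, κ))
      ((∑' m, a m κ) * ∏ j, (x j - p j) ^ κ j) := fun κ =>
    (hsa κ).hasSum.mul_right (∏ j, (x j - p j) ^ κ j)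
  exact hsw.prod_fiberwise hfin

end Pool.Agent.Helper94.AXG
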