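import Mathlib

/-! # AXG-G12C -/

namespace Pool.Agent.Helper94.AXG

open MvPowerSeries Filter Topology

variable {ι : Type} [Fintype ι]

private theorem G12C_geo {u : ℝ} (h0 : 0 ≤ u) (h1 : u ≤ 1 / 2) (T N : ℕ) :
    ∑ k ∈ Finset.Ico T N, u ^ k ≤ 2 * u ^ T := by
  have h2 : u < 1 := by linarith
  refine (geom_sum_Ico_le_of_lt_one h0 h2).trans ?_
  rw [div_le_iff₀ (by linarith)]
  have h3 : 0 ≤ u ^ T := pow_nonneg h0 T
  nlinarith

private theorem G12C_pi {r : ℕ} {u : ℝ} (h0 : 0 ≤ u) (h1 : u ≤ 1 / 2) (T N : ℕ) (j0 : Fin r) :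
    ∑ k ∈ Fintype.piFinset (fun j : Fin r => if j = j0 then Finset.Ico T N else Finset.Ico 0 N),
      ∏ j, u ^ k j ≤ 2 ^ r * u ^ T := by
  rw [← Finset.prod_univ_sum]
  have h2 : ∀ j ∈ (Finset.univ : Finset (Fin r)),
      ∑ i ∈ (if j = j0 then Finset.Ico T N else Finset.Ico 0 N), u ^ i ≤
        2 * (if j = j0 then u ^ T else 1) := by
    intro j _
    split_ifs
    · exact G12C_geo h0 h1 T N
    · have h3 := G12C_geo h0 h1 0 N
      rwa [pow_zero] at h3
  refine (Finset.prod_le_prod (fun j _ => Finset.sum_nonneg fun i _ => pow_nonneg h0 i) h2).trans ?_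
  rw [Finset.prod_mul_distrib, Finset.prod_const, Finset.card_univ, Fintype.card_fin,
    Finset.prod_ite_eq' Finset.univ j0, if_pos (Finset.mem_univ j0)]

private theorem G12C_fin {r : ℕ} {u : ℝ} (h0 : 0 ≤ u) (h1 : u ≤ 1 / 2) (T : ℕ)
    (F : Finset (Fin r → ℕ)) (hF : ∀ k ∈ F, ∃ j, T ≤ k j) :
    ∑ k ∈ F, ∏ j, u ^ k j ≤ r * (2 ^ r * u ^ T) := by
  classical
  set N : ℕ := F.sup (fun k => Finset.univ.sup k) + 1 with hN
  have hlt : ∀ k ∈ F, ∀ j, k j < N := by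
    intro k hk j
    have h2 : k j ≤ Finset.univ.sup k := Finset.le_sup (f := k) (Finset.mem_univ j)
    have h3 : Finset.univ.sup k ≤ F.sup (fun k => Finset.univ.sup k) :=
      Finset.le_sup (f := fun k : Fin r → ℕ => Finset.univ.sup k) hk
    omega
  have hg : ∀ k : Fin r → ℕ, 0 ≤ ∏ j, u ^ k j := fun k =>
    Finset.prod_nonneg fun j _ => pow_nonneg h0 _
  calc ∑ k ∈ F, ∏ j, u ^ k j
      ≤ ∑ k ∈ F, ∑ j0 : Fin r, if T ≤ k j0 then ∏ j, u ^ k j else 0 := by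
        refine Finset.sum_le_sum fun k hk => ?_
        obtain ⟨j1, hj1⟩ := hF k hk
        have h2 := Finset.single_le_sum
          (f := fun j0 : Fin r => if T ≤ k j0 then ∏ j, u ^ k j else 0)
          (fun j _ => by
            show 0 ≤ if T ≤ k j then ∏ j, u ^ k j else 0
            split_ifs
            · exact hg k
            · exact le_rfl) (Finset.mem_univ j1)
        refine le_trans (le_of_eq ?_) h2
        show _ = if T ≤ k j1 then ∏ j, u ^ k j else 0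
        rw [if_pos hj1]
    _ = ∑ j0 : Fin r, ∑ k ∈ F, if T ≤ k j0 then ∏ j, u ^ k j else 0 := Finset.sum_comm
    _ ≤ ∑ _j0 : Fin r, 2 ^ r * u ^ T := by
        refine Finset.sum_le_sum fun j0 _ => ?_
        rw [← Finset.sum_filter]
        refine le_trans (Finset.sum_le_sum_of_subset_of_nonneg ?_ fun k _ _ => hg k)
          (G12C_pi h0 h1 T N j0)
        intro k hk
        rw [Finset.mem_filter] at hk
        rw [Fintype.mem_piFinset]
        intro j
        split_ifs with h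
        · rw [h, Finset.mem_Ico]
          exact ⟨hk.2, hlt k hk.1 j0⟩
        · rw [Finset.mem_Ico]
          exact ⟨Nat.zero_le _, hlt k hk.1 j⟩
    _ = r * (2 ^ r * u ^ T) := by
        rw [Finset.sum_const, Finset.card_univ, Fintype.card_fin, nsmul_eq_mul]

/-- AXG-G12c: tails. Proof. The terms with some `k j ≥ T`: for each `j`,
`∑_{k j ≥ T} ∏ (u_i)^{k i} ≤ 2^r (u_j)^T`, `u_i = 2 η/ρ ≤ 1/2`. -/
theorem taylor_tail {r : ℕ} {ρ A η : ℝ} (hρ : 0 < ρ) (hη : 0 ≤ η) (hη2 : η ≤ ρ / 4) (τ : (Fin r →₀ ℕ) → ℂ)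
    (hτ : ∀ k, ‖τ k‖ ≤ A * (2 / ρ) ^ (∑ j, k j)) (y : Fin r → ℂ) (hy : ∀ j, ‖y j‖ ≤ η) {s : ℂ}
    (hs : HasSum (fun k => τ k * ∏ j, (y j) ^ k j) s) (T : ℕ) :
    ‖s - ∑ k : Fin r → Fin T, τ (Finsupp.equivFunOnFinite.symm (fun j => (k j : ℕ))) *
      ∏ j, (y j) ^ (k j : ℕ)‖ ≤ A * r * 2 ^ r * (2 * η / ρ) ^ T := by
  classical
  have hA : 0 ≤ A := by
    have h1 := hτ 0
    have h2 : A * (2 / ρ) ^ (∑ j, (0 : Fin r →₀ ℕ) j) = A := by simp
    rw [h2] at h1
    exact (norm_nonneg _).trans h1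
  set u : ℝ := 2 * η / ρ with hu
  have hu0 : 0 ≤ u := by positivity
  have hu1 : u ≤ 1 / 2 := by
    rw [hu, div_le_iff₀ hρ]
    linarith
  set e : (Fin r →₀ ℕ) ≃ (Fin r → ℕ) := Finsupp.equivFunOnFinite with he
  set g : (Fin r → ℕ) → ℂ := fun k => τ (e.symm k) * ∏ j, (y j) ^ k j with hg
  have hes : ∀ (k : Fin r → ℕ) (j : Fin r), e.symm k j = k j := fun k j => rfl
  have hs' : HasSum g s := by
    have h1 := (Equiv.hasSum_iff e.symm).mpr hs
    exact h1
  have hb : ∀ k : Fin r → ℕ, ‖g k‖ ≤ A * ∏ j, u ^ k j := by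
    intro k
    have h1 := hτ (e.symm k)
    have h2 : ‖∏ j, (y j) ^ k j‖ ≤ ∏ j, η ^ k j := by
      rw [norm_prod]
      refine Finset.prod_le_prod (fun j _ => norm_nonneg _) fun j _ => ?_
      rw [norm_pow]
      exact pow_le_pow_left₀ (norm_nonneg _) (hy j) _
    have h3 : ‖g k‖ ≤ (A * (2 / ρ) ^ (∑ j, k j)) * ∏ j, η ^ k j := by
      rw [hg]
      show ‖τ (e.symm k) * ∏ j, (y j) ^ k j‖ ≤ _
      rw [norm_mul]
      exact mul_le_mul h1 h2 (norm_nonneg _) (mul_nonneg hA (by positivity))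
    refine h3.trans (le_of_eq ?_)
    rw [← Finset.prod_pow_eq_pow_sum, mul_assoc, ← Finset.prod_mul_distrib]
    congr 1
    refine Finset.prod_congr rfl fun j _ => ?_
    rw [← mul_pow, hu]
    congr 1
    ring
  set box : Finset (Fin r → ℕ) := Fintype.piFinset fun _ : Fin r => Finset.range T with hbox
  have hsum : ∑ k : Fin r → Fin T, τ (Finsupp.equivFunOnFinite.symm (fun j => (k j : ℕ))) *
      ∏ j, (y j) ^ (k j : ℕ) = ∑ k ∈ box, g k := by
    refine Finset.sum_bij (fun (k : Fin r → Fin T) _ => fun j => ((k j : Fin T) : ℕ)) ?_ ?_ ?_ ?_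
    · intro k _
      rw [hbox, Fintype.mem_piFinset]
      intro j
      exact Finset.mem_range.2 (k j).2
    · intro k _ k' _ h
      funext j
      exact Fin.ext (congrFun h j)
    · intro k hk
      rw [hbox, Fintype.mem_piFinset] at hk
      exact ⟨fun j => ⟨k j, Finset.mem_range.1 (hk j)⟩, Finset.mem_univ _, rfl⟩
    · intro k _
      rfl
  rw [hsum]
  have hlim : Tendsto (fun F : Finset (Fin r → ℕ) => ‖(∑ k ∈ F, g k) - ∑ k ∈ box, g k‖) atTop
      (𝓝 ‖s - ∑ k ∈ box, g k‖) := by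
    have h1 : Tendsto (fun F : Finset (Fin r → ℕ) => ∑ k ∈ F, g k) atTop (𝓝 s) := by
      simpa [HasSum] using hs'
    exact (h1.sub_const _).norm
  refine le_of_tendsto hlim ?_
  filter_upwards [eventually_ge_atTop box] with F hF
  have h1 : (∑ k ∈ F, g k) - ∑ k ∈ box, g k = ∑ k ∈ F \ box, g k := by
    rw [← Finset.sum_sdiff hF]
    ring
  rw [h1]
  refine (norm_sum_le _ _).trans ((Finset.sum_le_sum fun k _ => hb k).trans ?_)
  rw [← Finset.mul_sum]
  have h2 := G12C_fin hu0 hu1 T (F \ box) (fun k hk => by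
    rw [Finset.mem_sdiff, hbox, Fintype.mem_piFinset] at hk
    have h3 := hk.2
    push Not at h3
    obtain ⟨j, hj⟩ := h3
    exact ⟨j, not_lt.1 fun h => hj (Finset.mem_range.2 h)⟩)
  calc A * ∑ k ∈ F \ box, ∏ j, u ^ k j ≤ A * (r * (2 ^ r * u ^ T)) :=
        mul_le_mul_of_nonneg_left h2 hA
    _ = A * r * 2 ^ r * u ^ T := by ring

end Pool.Agent.Helper94.AXG
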