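import Mathlib

/-! # AXG-G12D -/

namespace Pool.Agent.Helper94.AXG

open MvPowerSeries Filter Topology

variable {ι : Type} [Fintype ι]

private theorem G12D_floor {k : ℕ} (hk : 0 < k) {r r' : ℝ} (h0 : 0 ≤ r) (h1 : r < k) (h0' : 0 ≤ r')
    (h1' : r' < k)
    (h : (⟨⌊r⌋₊ % k, Nat.mod_lt _ hk⟩ : Fin k) = ⟨⌊r'⌋₊ % k, Nat.mod_lt _ hk⟩) : |r - r'| < 1 := by
  have h2 : ⌊r⌋₊ % k = ⌊r'⌋₊ % k := congrArg Fin.val h
  rw [Nat.mod_eq_of_lt ((Nat.floor_lt h0).mpr h1), Nat.mod_eq_of_lt ((Nat.floor_lt h0').mpr h1')] at h2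
  have h3 := Nat.floor_le h0
  have h4 := Nat.lt_floor_add_one r
  have h5 := Nat.floor_le h0'
  have h6 := Nat.lt_floor_add_one r'
  rw [h2] at h3 h4
  rw [abs_lt]
  constructor <;> linarith

private theorem G12D_box {k : ℕ} (hk : 0 < k) {c x y : ℝ} (hc : 0 < c) (hx : |x| < c) (hy : |y| < c)
    (h : (⟨⌊(x + c) * (k / (2 * c))⌋₊ % k, Nat.mod_lt _ hk⟩ : Fin k) =
      ⟨⌊(y + c) * (k / (2 * c))⌋₊ % k, Nat.mod_lt _ hk⟩) : |x - y| ≤ 2 * c / k := by
  have hk' : (0 : ℝ) < k := by exact_mod_cast hk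
  have hq : 0 < (k : ℝ) / (2 * c) := by positivity
  have key : ∀ z : ℝ, |z| < c → 0 ≤ (z + c) * (k / (2 * c)) ∧ (z + c) * (k / (2 * c)) < k := by
    intro z hz
    rw [abs_lt] at hz
    constructor
    · exact mul_nonneg (by linarith) hq.le
    · calc (z + c) * (k / (2 * c)) < (2 * c) * (k / (2 * c)) :=
          mul_lt_mul_of_pos_right (by linarith) hq
        _ = k := by field_simp
  have h1 := G12D_floor hk (key x hx).1 (key x hx).2 (key y hy).1 (key y hy).2 h
  have h2 : (x + c) * (k / (2 * c)) - (y + c) * (k / (2 * c)) = (x - y) * (k / (2 * c)) := by ring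
  rw [h2, abs_mul, abs_of_pos hq] at h1
  rw [le_div_iff₀ hk']
  have h3 : |x - y| * (k / (2 * c)) * (2 * c) < 1 * (2 * c) :=
    mul_lt_mul_of_pos_right h1 (by positivity)
  have h4 : |x - y| * (k / (2 * c)) * (2 * c) = |x - y| * k := by field_simp
  linarith

/-- AXG-G12d: box principle over the integers for complex linear forms. Proof. The `(H+1)^{card A}` vectors
with entries in `{0, …, H}` have images in the boxes of side `≤ 2B card(A) (H+1)` in `ℝ^{2 card S}`; divide each
side into `k` intervals; two vectors fall into the same box if `(H+1)^{card A} > k^{2 card S}`; the difference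
`G ≠ 0` has `|G a| ≤ H` and all real and imaginary parts are `≤ 2B card(A)(H+1)/k` in absolute value. -/
theorem box_int {A S : Type} [Fintype A] [Fintype S] (τ : A → S → ℂ) {B : ℝ} (hB : ∀ a s, ‖τ a s‖ ≤ B)
    (H k : ℕ) (hk : 1 ≤ k) (hcount : k ^ (2 * Fintype.card S) < (H + 1) ^ Fintype.card A) :
    ∃ G : A → ℤ, G ≠ 0 ∧ (∀ a, |G a| ≤ (H : ℤ)) ∧
      ∀ s, ‖∑ a, (G a : ℂ) * τ a s‖ ≤ 4 * B * Fintype.card A * (H + 1) / k := by
  classical
  have hk0 : 0 < k := hk
  have hA : 0 < Fintype.card A := by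
    rw [Nat.pos_iff_ne_zero]
    intro h0
    rw [h0, pow_zero] at hcount
    have := Nat.one_le_pow (2 * Fintype.card S) k hk
    omega
  have hH : 1 ≤ H := by
    by_contra h0
    have h1 : H = 0 := by omega
    rw [h1, zero_add, one_pow] at hcount
    have := Nat.one_le_pow (2 * Fintype.card S) k hk
    omega
  have : Nonempty A := Fintype.card_pos_iff.mp hA
  rcases le_or_gt B 0 with hB0 | hB0
  · refine ⟨Pi.single (Classical.arbitrary A) 1, ?_, ?_, ?_⟩
    · intro h0
      have h1 := congrFun h0 (Classical.arbitrary A)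
      rw [Pi.single_eq_same] at h1
      exact one_ne_zero h1
    · intro a
      rcases eq_or_ne a (Classical.arbitrary A) with rfl | hne
      · rw [Pi.single_eq_same, abs_one]
        exact_mod_cast hH
      · rw [Pi.single_eq_of_ne hne, abs_zero]
        exact_mod_cast Nat.zero_le H
    · intro s
      have h1 : ∀ a, τ a s = 0 := fun a => norm_le_zero_iff.mp ((hB a s).trans hB0)
      have h2 : B = 0 := le_antisymm hB0 ((norm_nonneg _).trans (hB (Classical.arbitrary A) s))
      simp [h1, h2]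
  · -- the main case
    set c : ℝ := B * Fintype.card A * (H + 1) with hc
    have hA' : (0 : ℝ) < Fintype.card A := by exact_mod_cast hA
    have hc0 : 0 < c := by positivity
    let Lf : (A → Fin (H + 1)) → S → ℂ := fun x s => ∑ a, ((x a : ℕ) : ℂ) * τ a s
    have hL : ∀ x s, ‖Lf x s‖ < c := by
      intro x s
      calc ‖Lf x s‖ ≤ ∑ a, ‖((x a : ℕ) : ℂ) * τ a s‖ := norm_sum_le _ _
        _ ≤ ∑ _a : A, (H : ℝ) * B := by
          refine Finset.sum_le_sum fun a _ => ?_
          rw [norm_mul, Complex.norm_natCast]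
          refine mul_le_mul ?_ (hB a s) (norm_nonneg _) (Nat.cast_nonneg _)
          exact_mod_cast Nat.lt_succ_iff.mp (x a).2
        _ = B * Fintype.card A * H := by
          rw [Finset.sum_const, Finset.card_univ, nsmul_eq_mul]
          ring
        _ < c := by
          rw [hc]
          have : 0 < B * Fintype.card A := by positivity
          nlinarith
    let f : (A → Fin (H + 1)) → (S → Fin k × Fin k) := fun x s =>
      (⟨⌊((Lf x s).re + c) * (k / (2 * c))⌋₊ % k, Nat.mod_lt _ hk0⟩,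
        ⟨⌊((Lf x s).im + c) * (k / (2 * c))⌋₊ % k, Nat.mod_lt _ hk0⟩)
    have hcard : Fintype.card (S → Fin k × Fin k) < Fintype.card (A → Fin (H + 1)) := by
      rw [Fintype.card_fun, Fintype.card_fun, Fintype.card_prod, Fintype.card_fin, Fintype.card_fin,
        ← sq, ← pow_mul]
      exact hcount
    obtain ⟨x, y, hxy, hf⟩ := Fintype.exists_ne_map_eq_of_card_lt f hcard
    refine ⟨fun a => ((x a : ℕ) : ℤ) - ((y a : ℕ) : ℤ), ?_, ?_, ?_⟩
    · intro h0
      apply hxy
      funext a
      have h1 := congrFun h0 a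
      have h2 : ((x a : ℕ) : ℤ) - ((y a : ℕ) : ℤ) = 0 := h1
      apply Fin.ext
      omega
    · intro a
      have h1 := (x a).2
      have h2 := (y a).2
      change |((x a : ℕ) : ℤ) - ((y a : ℕ) : ℤ)| ≤ (H : ℤ)
      rw [abs_le]
      constructor <;> omega
    · intro s
      have h1 : (∑ a, ((((x a : ℕ) : ℤ) - ((y a : ℕ) : ℤ) : ℤ) : ℂ) * τ a s) = Lf x s - Lf y s := by
        change _ = ∑ a, ((x a : ℕ) : ℂ) * τ a s - ∑ a, ((y a : ℕ) : ℂ) * τ a s
        rw [← Finset.sum_sub_distrib]
        refine Finset.sum_congr rfl fun a _ => ?_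
        push_cast
        ring
      have h2 := congrFun hf s
      have hre : |(Lf x s).re - (Lf y s).re| ≤ 2 * c / k :=
        G12D_box hk0 hc0 ((Complex.abs_re_le_norm _).trans_lt (hL x s))
          ((Complex.abs_re_le_norm _).trans_lt (hL y s)) (congrArg Prod.fst h2)
      have him : |(Lf x s).im - (Lf y s).im| ≤ 2 * c / k :=
        G12D_box hk0 hc0 ((Complex.abs_im_le_norm _).trans_lt (hL x s))
          ((Complex.abs_im_le_norm _).trans_lt (hL y s)) (congrArg Prod.snd h2)
      rw [h1]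
      refine (Complex.norm_le_abs_re_add_abs_im _).trans ?_
      rw [Complex.sub_re, Complex.sub_im]
      have h3 : 4 * B * Fintype.card A * (H + 1) / k = 2 * c / k + 2 * c / k := by
        rw [hc]
        ring
      rw [h3]
      exact add_le_add hre him

end Pool.Agent.Helper94.AXG
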