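import Mathlib

/-! # AXG-G13B -/

namespace Pool.Agent.Helper94.AXG

open MvPowerSeries Filter Topology

variable {ι : Type} [Fintype ι]

/-- AXG-G13b: numerical choice of the parameters. Proof. `δ ≤ 1` without loss of generality. Let
`n = r + 1`, `D = n D₁`, `T = ⌈(2D + 3)/δ⌉ ≤ 6 D / δ` (`D ≥ 1`), so `T^r ≤ (6 n D₁/δ)^r`, and the condition
`2 (2D + 2) · 2 m T^r < D (D₁ + 1)^n` holds as soon as `D₁ ≥ 16 m (6n/δ)^r`-ish. -/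
theorem params (r m : ℕ) {δ : ℝ} (hδ : 0 < δ) : ∃ D₁ T : ℕ, 1 ≤ D₁ ∧ 1 ≤ T ∧
    2 * ((r + 1) * D₁ : ℕ) + 3 ≤ δ * T ∧
    2 * (2 * ((r + 1) * D₁) + 2) * (2 * (m * T ^ r)) < ((r + 1) * D₁) * (D₁ + 1) ^ (r + 1) := by
  obtain ⟨c, hc⟩ : ∃ c : ℝ, c = ((r : ℝ) + 1) * (5 / δ + 1) := ⟨_, rfl⟩
  have hr0 : (0 : ℝ) ≤ r := Nat.cast_nonneg r
  have hc0 : 0 ≤ c := by rw [hc]; positivity
  obtain ⟨D₁, hD₁⟩ : ∃ D₁ : ℕ, D₁ = ⌈16 * (m : ℝ) * c ^ r⌉₊ + 1 := ⟨_, rfl⟩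
  have hD1 : 1 ≤ D₁ := by omega
  have hDc : 16 * (m : ℝ) * c ^ r ≤ D₁ := by
    rw [hD₁]
    push_cast
    linarith [Nat.le_ceil (16 * (m : ℝ) * c ^ r)]
  have hD1r : (1 : ℝ) ≤ D₁ := by exact_mod_cast hD1
  obtain ⟨D, hD⟩ : ∃ D : ℝ, D = ((r : ℝ) + 1) * D₁ := ⟨_, rfl⟩
  have hDge : 1 ≤ D := by
    rw [hD]
    nlinarith
  obtain ⟨T, hT⟩ : ∃ T : ℕ, T = ⌈(2 * D + 3) / δ⌉₊ := ⟨_, rfl⟩
  have hT1 : (2 * D + 3) / δ ≤ T := by
    rw [hT]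
    exact Nat.le_ceil _
  have hTpos : 0 < (2 * D + 3) / δ := by positivity
  have hT0 : 1 ≤ T := by
    have h : (0 : ℝ) < T := lt_of_lt_of_le hTpos hT1
    exact_mod_cast h
  have hT2 : (T : ℝ) ≤ c * D₁ := by
    have h1 : (T : ℝ) < (2 * D + 3) / δ + 1 := by
      rw [hT]
      exact Nat.ceil_lt_add_one hTpos.le
    have h2 : (2 * D + 3) / δ ≤ 5 * D / δ := by
      rw [div_le_div_iff_of_pos_right hδ]
      linarith
    have h3 : c * D₁ = 5 * D / δ + D := by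
      rw [hc, hD]
      ring
    linarith
  refine ⟨D₁, T, hD1, hT0, ?_, ?_⟩
  · rw [div_le_iff₀ hδ] at hT1
    push_cast
    rw [hD] at hT1
    linarith
  · have hTr : (T : ℝ) ^ r ≤ c ^ r * (D₁ : ℝ) ^ r := by
      rw [← mul_pow]
      exact pow_le_pow_left₀ (Nat.cast_nonneg T) hT2 r
    have hm0 : (0 : ℝ) ≤ m := Nat.cast_nonneg m
    have hmain : 2 * (2 * D + 2) * (2 * (m * (T : ℝ) ^ r)) < D * ((D₁ : ℝ) + 1) ^ (r + 1) := by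
      have h1 : 2 * (2 * D + 2) * (2 * (m * (T : ℝ) ^ r)) ≤
          (8 * D) * (2 * (m * (c ^ r * (D₁ : ℝ) ^ r))) := by
        refine mul_le_mul (by linarith) ?_ (by positivity) (by linarith)
        exact mul_le_mul_of_nonneg_left (mul_le_mul_of_nonneg_left hTr hm0) (by norm_num)
      have h2 : (8 * D) * (2 * (m * (c ^ r * (D₁ : ℝ) ^ r))) =
          D * ((16 * m * c ^ r) * (D₁ : ℝ) ^ r) := by ring
      have h3 : (16 * m * c ^ r) * (D₁ : ℝ) ^ r ≤ (D₁ : ℝ) ^ (r + 1) := by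
        rw [pow_succ, mul_comm ((D₁ : ℝ) ^ r)]
        exact mul_le_mul_of_nonneg_right hDc (by positivity)
      have h4 : (D₁ : ℝ) ^ (r + 1) < ((D₁ : ℝ) + 1) ^ (r + 1) :=
        pow_lt_pow_left₀ (by linarith) (by linarith) (by omega)
      calc _ ≤ D * ((16 * m * c ^ r) * (D₁ : ℝ) ^ r) := by rw [← h2]; exact h1
        _ ≤ D * (D₁ : ℝ) ^ (r + 1) := mul_le_mul_of_nonneg_left h3 (by linarith)
        _ < _ := mul_lt_mul_of_pos_left h4 (by linarith)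
    rw [hD] at hmain
    exact_mod_cast hmain

end Pool.Agent.Helper94.AXG
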