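import Pool.Agent.Helper94.AXG.G5B
import Pool.Agent.Helper94.AXG.G3B

/-! # AXG-G6 -/

namespace Pool.Agent.Helper94.AXG

open Filter Topology

variable {ι : Type} [Fintype ι]

/-- `f(0, ·)` has a zero of exact order `m` at `0` -/
def Reg (f : (ι → ℂ) → ℂ → ℂ) (m : ℕ) : Prop :=
  ∃ u : ℂ → ℂ, AnalyticAt ℂ u 0 ∧ u 0 ≠ 0 ∧ ∀ᶠ z in 𝓝 (0 : ℂ), f 0 z = z ^ m * u z

private theorem g6_analytic {f : (ι → ℂ) → ℂ → ℂ} (hf : CAz f) : AnalyticAt ℂ (f 0) 0 := by
  obtain ⟨P, t, ht, hP, hfP⟩ := hf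
  let w : ℂ → Option ι → ℂ := fun z o => Option.elim o z (fun _ => 0)
  have hw : ∀ z : ℂ, ‖z‖ ≤ t → ∀ o, ‖w z o‖ ≤ t := by
    intro z hz o
    cases o with
    | none => exact hz
    | some i =>
      show ‖(0 : ℂ)‖ ≤ t
      rw [norm_zero]
      exact ht.le
  have hd : DifferentiableOn ℂ (fun z => ∑' ν : Option ι →₀ ℕ,
      MvPowerSeries.coeff ν P * mo (w z) ν) (Metric.ball 0 t) := by
    refine Complex.differentiableOn_tsum_of_summable_norm hP ?_ Metric.isOpen_ball ?_
    · intro ν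
      refine DifferentiableOn.const_mul ?_ _
      unfold mo
      refine DifferentiableOn.fun_finsetProd fun o _ => ?_
      refine DifferentiableOn.pow ?_ _
      cases o with
      | none => exact differentiableOn_id
      | some i => exact differentiableOn_const _
    · intro ν z hz
      rw [norm_mul, norm_mo]
      refine mul_le_mul_of_nonneg_left ?_ (norm_nonneg _)
      exact mr_mono (fun i => norm_nonneg _)
        (hw z (by rw [Metric.mem_ball, dist_zero_right] at hz; exact hz.le)) ν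
  have ha := hd.analyticAt (Metric.isOpen_ball.mem_nhds (Metric.mem_ball_self ht))
  refine ha.congr ?_
  filter_upwards [Metric.ball_mem_nhds (0 : ℂ) ht] with z hz
  have h1 := hfP (w z) (hw z (by rw [Metric.mem_ball, dist_zero_right] at hz; exact hz.le))
  exact h1.symm

/-- AXG-G6a: the restriction to `y = 0` is analytic in `z`; if it is not identically zero it has a finite
order -/
theorem exists_Reg {f : (ι → ℂ) → ℂ → ℂ} (hf : CAz f) (h0 : ¬ ∀ᶠ z in 𝓝 (0 : ℂ), f 0 z = 0) :
    ∃ m, Reg f m := by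
  have han := g6_analytic hf
  obtain ⟨n, u, h1, h2, h3⟩ := han.exists_eventuallyEq_pow_smul_nonzero_iff.2 h0
  refine ⟨n, u, h1, h2, ?_⟩
  filter_upwards [h3] with z hz
  rw [hz, sub_zero, smul_eq_mul]

end Pool.Agent.Helper94.AXG
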