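import Pool.Agent.Helper94.AXG.G13
import Pool.Agent.Helper94.AXG.G13B
import Pool.Agent.Helper94.AXG.G12
import Pool.Agent.Helper94.AXG.G12B
import Pool.Agent.Helper94.AXG.G12C
import Pool.Agent.Helper94.AXG.G12D
import Pool.Agent.Helper94.AXG.G6

/-! # AXG-G14: the box lemma -/

namespace Pool.Agent.Helper94.AXG

open Filter Topology

variable {ι : Type} [Fintype ι]

/-- if the coefficients at the powers of the distinguished variable vanish, so do the values at the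
points `(0, z)` -/
private theorem g14_ev_zero {κ : Type} [Fintype κ] (P : MvPowerSeries (Option κ) ℂ)
    (h : ∀ j : ℕ, MvPowerSeries.coeff (Finsupp.single none j) P = 0) (w : Option κ → ℂ)
    (hw : ∀ i, w (some i) = 0) : ev P w = 0 := by
  unfold ev
  have h1 : ∀ ν : Option κ →₀ ℕ, MvPowerSeries.coeff ν P * mo w ν = 0 := by
    intro ν
    by_cases hν : ∀ i, ν (some i) = 0
    · have h2 : ν = Finsupp.single none (ν none) := by
        ext o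
        cases o with
        | none => rw [Finsupp.single_eq_same]
        | some i => rw [hν i, Finsupp.single_eq_of_ne (by simp)]
      rw [h2, h, zero_mul]
    · push Not at hν
      obtain ⟨i, hi⟩ := hν
      have h2 : mo w ν = 0 := by
        unfold mo
        exact Finset.prod_eq_zero (Finset.mem_univ (some i)) (by rw [hw i, zero_pow hi])
      rw [h2, mul_zero]
  simp only [h1, tsum_zero]

/-- the case of no variables -/
private theorem g14_zero (N : (ι → ℂ) → (Fin 0 → ℂ) → ℂ) (hN : CA2 N)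
    (h0 : ¬ ∀ᶠ x in 𝓝 (0 : Fin 0 → ℂ), N 0 x = 0) :
    ∃ t : ℝ, 0 < t ∧ ∀ b : ι → ℂ, (∀ i, ‖b i‖ ≤ t) → ∀ x, N b x ≠ 0 := by
  have hN0 : N 0 0 ≠ 0 := by
    intro h
    apply h0
    refine Filter.Eventually.of_forall fun x => ?_
    rw [Subsingleton.elim x 0, h]
  have hc := (CA_continuous hN).self_of_nhds
  have h1 : ∀ᶠ w in 𝓝 (0 : ι ⊕ Fin 0 → ℂ),
      N (fun i => w (Sum.inl i)) (fun j => w (Sum.inr j)) ≠ 0 := hc.eventually_ne hN0
  obtain ⟨ε, hε, hball⟩ := Metric.eventually_nhds_iff.1 h1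
  refine ⟨ε / 2, by positivity, fun b hb x => ?_⟩
  have h3 : dist (Sum.elim b x : ι ⊕ Fin 0 → ℂ) 0 < ε := by
    rw [dist_zero_right]
    have h2 : ‖(Sum.elim b x : ι ⊕ Fin 0 → ℂ)‖ ≤ ε / 2 := by
      refine (pi_norm_le_iff_of_nonneg (by positivity)).2 fun i => ?_
      cases i with
      | inl i => exact hb i
      | inr j => exact j.elim0
    linarith
  exact hball h3

/-- the polynomial with the coefficients `G` -/
private noncomputable def g14_poly {n D₁ : ℕ} (G : (Fin n → Fin (D₁ + 1)) → ℤ) :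
    MvPolynomial (Fin n) ℤ :=
  ∑ a, MvPolynomial.monomial (Finsupp.equivFunOnFinite.symm (fun i => (a i : ℕ))) (G a)

private theorem g14_poly_ne {n D₁ : ℕ} {G : (Fin n → Fin (D₁ + 1)) → ℤ} (hG : G ≠ 0) :
    g14_poly G ≠ 0 := by
  obtain ⟨a₀, ha₀⟩ := Function.ne_iff.1 hG
  intro h
  apply ha₀
  have h1 : MvPolynomial.coeff (Finsupp.equivFunOnFinite.symm (fun i => (a₀ i : ℕ)))
      (g14_poly G) = G a₀ := by
    unfold g14_poly
    rw [MvPolynomial.coeff_sum, Finset.sum_eq_single a₀]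
    · rw [MvPolynomial.coeff_monomial, if_pos rfl]
    · intro a _ ha
      rw [MvPolynomial.coeff_monomial, if_neg]
      intro he
      apply ha
      funext i
      exact Fin.ext (congrFun (Finsupp.equivFunOnFinite.symm.injective he) i)
    · intro hn
      exact absurd (Finset.mem_univ _) hn
  rw [← h1, h, MvPolynomial.coeff_zero]
  rfl

private theorem g14_poly_deg {n D₁ : ℕ} (G : (Fin n → Fin (D₁ + 1)) → ℤ) :
    (g14_poly G).totalDegree ≤ n * D₁ := by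
  unfold g14_poly
  refine MvPolynomial.totalDegree_finsetSum_le fun a _ => ?_
  refine (MvPolynomial.totalDegree_monomial_le _ _).trans ?_
  rw [Finsupp.sum_fintype _ _ (fun _ => rfl)]
  calc ∑ i, (Finsupp.equivFunOnFinite.symm (fun i => (a i : ℕ))) i ≤ ∑ _i : Fin n, D₁ := by
        refine Finset.sum_le_sum fun i _ => ?_
        have := (a i).2
        change ((a i : ℕ)) ≤ D₁
        omega
    _ = n * D₁ := by
        rw [Finset.sum_const, Finset.card_univ, Fintype.card_fin, smul_eq_mul]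

private theorem g14_poly_eval {n D₁ : ℕ} (G : (Fin n → Fin (D₁ + 1)) → ℤ) (X : Fin n → ℂ) :
    MvPolynomial.aeval X (g14_poly G) = ∑ a, (G a : ℂ) * ∏ i, X i ^ (a i : ℕ) := by
  unfold g14_poly
  rw [map_sum]
  refine Finset.sum_congr rfl fun a _ => ?_
  rw [MvPolynomial.aeval_monomial, Finsupp.prod_fintype _ _ (fun i => pow_zero _)]
  rfl

private theorem g14_int {n D₁ : ℕ} (G : (Fin n → Fin (D₁ + 1)) → ℤ) (q : ℕ) (X : Fin n → ℂ)
    (hX : ∀ i, ∃ z : ℤ, (q : ℂ) * X i = z) :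
    ∃ w : ℤ, (q : ℂ) ^ (n * D₁) * ∑ a, (G a : ℂ) * ∏ i, X i ^ (a i : ℕ) = w := by
  choose z hz using hX
  refine ⟨∑ a, G a * ∏ i, ((q : ℤ) ^ (D₁ - (a i : ℕ)) * z i ^ (a i : ℕ)), ?_⟩
  push_cast
  rw [Finset.mul_sum]
  refine Finset.sum_congr rfl fun a _ => ?_
  have h1 : (q : ℂ) ^ (n * D₁) = ∏ _i : Fin n, (q : ℂ) ^ D₁ := by
    rw [Finset.prod_const, Finset.card_univ, Fintype.card_fin, ← pow_mul, mul_comm]
  rw [h1, mul_left_comm, ← Finset.prod_mul_distrib]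
  congr 1
  refine Finset.prod_congr rfl fun i _ => ?_
  have h2 : (q : ℂ) ^ D₁ = (q : ℂ) ^ (D₁ - (a i : ℕ)) * (q : ℂ) ^ (a i : ℕ) := by
    rw [← pow_add]
    congr 1
    have := (a i).2
    omega
  rw [← hz i, mul_pow, ← mul_assoc, h2]

/-- the main estimate -/
private theorem g14_est {A : Type} [Fintype A] {m r T : ℕ} (G : A → ℤ) {H F E : ℝ} (hE : 0 ≤ E)
    (hF0 : 0 ≤ F) (hH : ∀ a, ‖(G a : ℂ)‖ ≤ H) (τ : A → Fin m × (Fin r → Fin T) → ℂ)
    (hF : ∀ s, ‖∑ a, (G a : ℂ) * τ a s‖ ≤ F)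
    (V : A → Fin m → ℂ) (z : ℂ) (hz : ‖z‖ ≤ 1) (u : Fin r → ℂ) (hu : ∀ i, ‖u i‖ ≤ 1)
    (hV : ∀ a j, ‖V a j - ∑ k : Fin r → Fin T, τ a (j, k) * ∏ i, u i ^ (k i : ℕ)‖ ≤ E) :
    ‖∑ a, (G a : ℂ) * ∑ j, V a j * z ^ (j : ℕ)‖ ≤
      (m * T ^ r : ℕ) * F + Fintype.card A * (H * (m * E)) := by
  classical
  have h1 : ∑ a, (G a : ℂ) * ∑ j, V a j * z ^ (j : ℕ) =
      (∑ s : Fin m × (Fin r → Fin T), (∑ a, (G a : ℂ) * τ a s) *
        ((∏ i, u i ^ (s.2 i : ℕ)) * z ^ (s.1 : ℕ))) +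
      ∑ a, (G a : ℂ) * ∑ j, (V a j - ∑ k : Fin r → Fin T, τ a (j, k) * ∏ i, u i ^ (k i : ℕ)) *
        z ^ (j : ℕ) := by
    have h2 : (∑ s : Fin m × (Fin r → Fin T), (∑ a, (G a : ℂ) * τ a s) *
        ((∏ i, u i ^ (s.2 i : ℕ)) * z ^ (s.1 : ℕ))) =
        ∑ a, (G a : ℂ) * ∑ j, (∑ k : Fin r → Fin T, τ a (j, k) * ∏ i, u i ^ (k i : ℕ)) *
          z ^ (j : ℕ) := by
      simp only [Finset.sum_mul, Finset.mul_sum]
      rw [Finset.sum_comm]
      refine Finset.sum_congr rfl fun a _ => ?_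
      rw [Fintype.sum_prod_type]
      refine Finset.sum_congr rfl fun j _ => Finset.sum_congr rfl fun k _ => ?_
      ring
    rw [h2, ← Finset.sum_add_distrib]
    refine Finset.sum_congr rfl fun a _ => ?_
    rw [← mul_add, ← Finset.sum_add_distrib]
    congr 1
    refine Finset.sum_congr rfl fun j _ => ?_
    ring
  rw [h1]
  refine (norm_add_le _ _).trans (add_le_add ?_ ?_)
  · refine (norm_sum_le _ _).trans ?_
    calc ∑ s : Fin m × (Fin r → Fin T), ‖(∑ a, (G a : ℂ) * τ a s) *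
        ((∏ i, u i ^ (s.2 i : ℕ)) * z ^ (s.1 : ℕ))‖ ≤ ∑ _s : Fin m × (Fin r → Fin T), F := by
          refine Finset.sum_le_sum fun s _ => ?_
          rw [norm_mul]
          have h3 : ‖(∏ i, u i ^ (s.2 i : ℕ)) * z ^ (s.1 : ℕ)‖ ≤ 1 := by
            rw [norm_mul, norm_prod, norm_pow]
            refine mul_le_one₀ ?_ (by positivity) (pow_le_one₀ (norm_nonneg _) hz)
            refine Finset.prod_le_one (fun i _ => norm_nonneg _) fun i _ => ?_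
            rw [norm_pow]
            exact pow_le_one₀ (norm_nonneg _) (hu i)
          calc _ ≤ F * 1 := mul_le_mul (hF s) h3 (norm_nonneg _) hF0
            _ = F := mul_one F
      _ = (m * T ^ r : ℕ) * F := by
          rw [Finset.sum_const, Finset.card_univ, nsmul_eq_mul, Fintype.card_prod, Fintype.card_fun,
            Fintype.card_fin, Fintype.card_fin, Fintype.card_fin]
  · refine (norm_sum_le _ _).trans ?_
    calc ∑ a, ‖(G a : ℂ) * ∑ j, (V a j - ∑ k : Fin r → Fin T, τ a (j, k) *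
        ∏ i, u i ^ (k i : ℕ)) * z ^ (j : ℕ)‖ ≤ ∑ _a : A, H * (m * E) := by
          refine Finset.sum_le_sum fun a _ => ?_
          rw [norm_mul]
          refine mul_le_mul (hH a) ?_ (norm_nonneg _) ((norm_nonneg _).trans (hH a))
          refine (norm_sum_le _ _).trans ?_
          calc ∑ j, ‖(V a j - ∑ k : Fin r → Fin T, τ a (j, k) *
              ∏ i, u i ^ (k i : ℕ)) * z ^ (j : ℕ)‖ ≤ ∑ _j : Fin m, E := by
                refine Finset.sum_le_sum fun j _ => ?_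
                rw [norm_mul, norm_pow]
                calc _ ≤ E * 1 := mul_le_mul (hV a j) (pow_le_one₀ (norm_nonneg _) hz)
                      (by positivity) hE
                  _ = E := mul_one E
            _ = m * E := by
                rw [Finset.sum_const, Finset.card_univ, Fintype.card_fin, nsmul_eq_mul]
      _ = Fintype.card A * (H * (m * E)) := by
          rw [Finset.sum_const, Finset.card_univ, nsmul_eq_mul]

/-- the counting condition -/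
private theorem g14_count {D n s Q : ℕ} (hQ : 1 ≤ Q) (hn : 1 ≤ n)
    (h : 2 * (2 * D + 2) * (2 * s) < D * n) :
    (Q ^ (2 * D + 2)) ^ (2 * s) < (Q ^ D + 1) ^ n := by
  have h1 : (Q ^ (2 * D + 2)) ^ (2 * s) ≤ (Q ^ D) ^ n := by
    rw [← pow_mul, ← pow_mul]
    refine Nat.pow_le_pow_right hQ ?_
    nlinarith
  exact h1.trans_lt (Nat.pow_lt_pow_left (Nat.lt_succ_self _) (by omega))

private theorem g14_num {Q : ℝ} (hQ : 1 ≤ Q) (D : ℕ) {C₁ C₂ : ℝ} (h1 : 0 ≤ C₁) (h2 : 0 ≤ C₂)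
    (h : 2 * C₁ + C₂ < Q) :
    Q ^ D * (C₁ * ((Q ^ D + 1) / Q ^ (2 * D + 2)) + C₂ * (Q ^ D / Q ^ (2 * D + 3))) < 1 := by
  have hQ0 : 0 < Q := by linarith
  have hQD : 1 ≤ Q ^ D := one_le_pow₀ hQ
  have hQD0 : 0 < Q ^ D := by positivity
  have e1 : Q ^ D * ((Q ^ D + 1) / Q ^ (2 * D + 2)) ≤ 2 / Q := by
    have e : Q ^ (2 * D + 2) = Q ^ D * Q ^ D * Q * Q := by ring
    rw [e, mul_div_assoc', div_le_div_iff₀ (by positivity) hQ0]
    calc Q ^ D * (Q ^ D + 1) * Q ≤ Q ^ D * (2 * Q ^ D) * Q := by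
          refine mul_le_mul_of_nonneg_right ?_ hQ0.le
          exact mul_le_mul_of_nonneg_left (by linarith) hQD0.le
      _ = 2 * (Q ^ D * Q ^ D * Q) * 1 := by ring
      _ ≤ 2 * (Q ^ D * Q ^ D * Q) * Q := mul_le_mul_of_nonneg_left hQ (by positivity)
      _ = 2 * (Q ^ D * Q ^ D * Q * Q) := by ring
  have e2 : Q ^ D * (Q ^ D / Q ^ (2 * D + 3)) ≤ 1 / Q := by
    have e : Q ^ (2 * D + 3) = Q ^ D * Q ^ D * Q * (Q * Q) := by ring
    rw [e, mul_div_assoc', div_le_div_iff₀ (by positivity) hQ0]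
    calc Q ^ D * Q ^ D * Q = Q ^ D * Q ^ D * Q * 1 := by ring
      _ ≤ Q ^ D * Q ^ D * Q * (Q * Q) := mul_le_mul_of_nonneg_left (by nlinarith) (by positivity)
      _ = 1 * (Q ^ D * Q ^ D * Q * (Q * Q)) := by ring
  calc _ = C₁ * (Q ^ D * ((Q ^ D + 1) / Q ^ (2 * D + 2))) + C₂ * (Q ^ D * (Q ^ D / Q ^ (2 * D + 3))) := by
        ring
    _ ≤ C₁ * (2 / Q) + C₂ * (1 / Q) :=
        add_le_add (mul_le_mul_of_nonneg_left e1 h1) (mul_le_mul_of_nonneg_left e2 h2)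
    _ = (2 * C₁ + C₂) / Q := by ring
    _ < 1 := by rw [div_lt_one hQ0]; exact h

private theorem g14_snoc {r : ℕ} (c : Fin r → ℤ) (y : Fin (r + 1) → ℂ) :
    (Fin.snoc (fun j => (y j.castSucc - (c j : ℂ) * y (Fin.last r)) + (c j : ℂ) * y (Fin.last r))
      (y (Fin.last r)) : Fin (r + 1) → ℂ) = y := by
  funext i
  refine Fin.lastCases ?_ (fun j => ?_) i
  · rw [Fin.snoc_last]
  · rw [Fin.snoc_castSucc]
    ring

/-- the power series of the sheared function -/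
private theorem g14_series {r : ℕ} (N : (ι → ℂ) → (Fin (r + 1) → ℂ) → ℂ) (hN : CA2 N)
    (h0 : ¬ ∀ᶠ x in 𝓝 (0 : Fin (r + 1) → ℂ), N 0 x = 0) :
    ∃ (c : Fin r → ℤ) (P : MvPowerSeries (Option (ι ⊕ Fin r)) ℂ) (t₀ : ℝ) (m : ℕ), 0 < t₀ ∧
      Cv (fun _ => t₀) P ∧ (∀ j, j < m → MvPowerSeries.coeff (Finsupp.single none j) P = 0) ∧
      MvPowerSeries.coeff (Finsupp.single none m) P ≠ 0 ∧
      ∀ (b : ι → ℂ) (x : Fin r → ℂ) (z : ℂ), (∀ i, ‖b i‖ ≤ t₀) → (∀ j, ‖x j‖ ≤ t₀) → ‖z‖ ≤ t₀ →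
        N b (Fin.snoc (fun j => x j + (c j : ℂ) * z) z) =
          ev P (fun o => o.elim z (Sum.elim b x)) := by
  classical
  obtain ⟨c, hc⟩ := exists_shear_dir N hN h0
  let L : (Option (ι ⊕ Fin r) → ℂ) →ₗ[ℂ] (ι ⊕ Fin (r + 1) → ℂ) :=
    { toFun := fun w => Sum.elim (fun i => w (some (Sum.inl i)))
        (Fin.snoc (fun j => w (some (Sum.inr j)) + (c j : ℂ) * w none) (w none))
      map_add' := by
        intro x y
        funext i
        rcases i with i | i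
        · simp
        · refine Fin.lastCases ?_ (fun j => ?_) i
          · simp
          · simp
            ring
      map_smul' := by
        intro a y
        funext i
        rcases i with i | i
        · simp
        · refine Fin.lastCases ?_ (fun j => ?_) i
          · simp
          · simp
            ring }
  obtain ⟨P, t₀, ht₀, hP, hval⟩ := CA_comp_linear hN L
  have hval' : ∀ (b : ι → ℂ) (x : Fin r → ℂ) (z : ℂ), (∀ i, ‖b i‖ ≤ t₀) → (∀ j, ‖x j‖ ≤ t₀) →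
      ‖z‖ ≤ t₀ → N b (Fin.snoc (fun j => x j + (c j : ℂ) * z) z) =
        ev P (fun o => o.elim z (Sum.elim b x)) := by
    intro b x z hb hx hz
    refine hval (fun o => o.elim z (Sum.elim b x)) fun o => ?_
    rcases o with _ | (i | j)
    · exact hz
    · exact hb i
    · exact hx j
  have hne : ∃ m, MvPowerSeries.coeff (Finsupp.single none m) P ≠ 0 := by
    by_contra hcon
    push Not at hcon
    apply hc
    filter_upwards [Metric.closedBall_mem_nhds (0 : ℂ) ht₀] with z hz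
    rw [mem_closedBall_zero_iff] at hz
    have h1 := hval' 0 0 z (fun i => by simp [ht₀.le]) (fun j => by simp [ht₀.le]) hz
    rw [g14_ev_zero P hcon _ (fun i => by rcases i with i | i <;> rfl)] at h1
    simpa using h1
  exact ⟨c, P, t₀, Nat.find hne, ht₀, hP, fun j hj => not_not.1 (Nat.find_min hne hj),
    Nat.find_spec hne, hval'⟩

/-- the case of at least one variable -/
private theorem g14_succ {r : ℕ} (N : (ι → ℂ) → (Fin (r + 1) → ℂ) → ℂ) (hN : CA2 N)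
    (h0 : ¬ ∀ᶠ x in 𝓝 (0 : Fin (r + 1) → ℂ), N 0 x = 0) (x₀ : Fin (r + 1) → ℂ) {δ : ℝ}
    (hδ : 0 < δ) :
    ∃ (D : ℕ) (t : ℝ) (Q₀ : ℕ), 0 < t ∧ ∀ Q : ℕ, Q₀ ≤ Q → ∀ b : ι → ℂ, (∀ i, ‖b i‖ ≤ t) →
      ∀ p : Fin (r + 1) → ℂ, (∀ i, ‖p i‖ ≤ t) → ∃ G : MvPolynomial (Fin (r + 1)) ℤ, G ≠ 0 ∧
        G.totalDegree ≤ D ∧
        ∀ (q : ℕ) (X : Fin (r + 1) → ℂ), 1 ≤ q → q ≤ Q → (∀ i, ∃ z : ℤ, (q : ℂ) * X i = z) →
          (∀ i, ‖X i - x₀ i‖ ≤ t) → (∀ i, ‖X i - x₀ i - p i‖ ≤ (Q : ℝ) ^ (-δ)) →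
          N b (fun i => X i - x₀ i) = 0 → MvPolynomial.aeval X G = 0 := by
  classical
  obtain ⟨c, P, t₀, m, ht₀, hP, hlow, hm, hval⟩ := g14_series N hN h0
  obtain ⟨ρ, K, hρ, hρ1, hK, hrem⟩ := remainders ht₀ hP hlow hm x₀ c
  obtain ⟨D₁, T, hD₁, hT, hδT, hcount⟩ := params r m hδ
  have hK0 : 0 ≤ K := zero_le_one.trans hK
  -- the shear constant
  obtain ⟨Cc, hCc⟩ : ∃ Cc : ℝ, Cc = 1 + ∑ j, ‖((c j : ℤ) : ℂ)‖ := ⟨_, rfl⟩
  have hcs : 0 ≤ ∑ j, ‖((c j : ℤ) : ℂ)‖ := Finset.sum_nonneg fun j _ => norm_nonneg _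
  have hCc1 : 1 ≤ Cc := by rw [hCc]; linarith
  have hcj : ∀ j, 1 + ‖((c j : ℤ) : ℂ)‖ ≤ Cc := by
    intro j
    rw [hCc]
    have := Finset.single_le_sum (f := fun j => ‖((c j : ℤ) : ℂ)‖) (fun j _ => norm_nonneg _)
      (Finset.mem_univ j)
    linarith
  have hshear : ∀ (y : Fin (r + 1) → ℂ) (s : ℝ), (∀ i, ‖y i‖ ≤ s) → ∀ j : Fin r,
      ‖y j.castSucc - (c j : ℂ) * y (Fin.last r)‖ ≤ Cc * s := by
    intro y s hy j
    have hs : 0 ≤ s := (norm_nonneg _).trans (hy (Fin.last r))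
    calc ‖y j.castSucc - (c j : ℂ) * y (Fin.last r)‖
        ≤ ‖y j.castSucc‖ + ‖(c j : ℂ) * y (Fin.last r)‖ := norm_sub_le _ _
      _ ≤ s + ‖((c j : ℤ) : ℂ)‖ * s := by
          rw [norm_mul]
          exact add_le_add (hy _) (mul_le_mul_of_nonneg_left (hy _) (norm_nonneg _))
      _ = (1 + ‖((c j : ℤ) : ℂ)‖) * s := by ring
      _ ≤ Cc * s := mul_le_mul_of_nonneg_right (hcj j) hs
  -- the radius
  obtain ⟨t, ht⟩ : ∃ t : ℝ, t = min ρ t₀ / (2 * Cc) := ⟨_, rfl⟩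
  have hmin0 : 0 < min ρ t₀ := lt_min hρ ht₀
  have hCc0 : 0 < Cc := by linarith
  have ht0 : 0 < t := by rw [ht]; positivity
  have htC : Cc * t = min ρ t₀ / 2 := by
    rw [ht]
    field_simp
  have htC1 : Cc * t ≤ ρ / 2 := by
    rw [htC]
    linarith [min_le_left ρ t₀]
  have htC2 : Cc * t ≤ t₀ := by
    rw [htC]
    linarith [min_le_right ρ t₀]
  have htt : t ≤ Cc * t := by nlinarith
  have htρ : t ≤ ρ := by linarith
  have htt₀ : t ≤ t₀ := by linarith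
  -- the remainders
  choose R hR hRev using hrem D₁
  -- the constants
  obtain ⟨D, hD⟩ : ∃ D : ℕ, D = (r + 1) * D₁ := ⟨_, rfl⟩
  rw [← hD] at hδT hcount
  obtain ⟨B, hB⟩ : ∃ B : ℝ, B = K ^ (D₁ + 1) * (2 / ρ) ^ (r * T) := ⟨_, rfl⟩
  have hB0 : 0 ≤ B := by rw [hB]; positivity
  obtain ⟨C₁, hC₁⟩ : ∃ C₁ : ℝ, C₁ = ((m * T ^ r : ℕ) : ℝ) * (4 * B * ((D₁ + 1) ^ (r + 1) : ℕ)) :=
    ⟨_, rfl⟩
  have hC₁0 : 0 ≤ C₁ := by rw [hC₁]; positivity
  obtain ⟨E₀, hE₀⟩ : ∃ E₀ : ℝ, E₀ = K ^ (D₁ + 1) * r * 2 ^ r * (2 * Cc / ρ) ^ T := ⟨_, rfl⟩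
  have hE₀0 : 0 ≤ E₀ := by rw [hE₀]; positivity
  obtain ⟨C₂, hC₂⟩ : ∃ C₂ : ℝ, C₂ = ((D₁ + 1) ^ (r + 1) : ℕ) * (m * E₀) := ⟨_, rfl⟩
  have hC₂0 : 0 ≤ C₂ := by rw [hC₂]; positivity
  -- the bound for `Q`
  have hev : ∀ᶠ Q : ℕ in atTop, 1 ≤ Q ∧ Cc * (Q : ℝ) ^ (-δ) ≤ ρ / 4 ∧ 2 * C₁ + C₂ < Q := by
    have h1 : ∀ᶠ Q : ℕ in atTop, 1 ≤ Q := eventually_ge_atTop 1
    have h2 : Tendsto (fun Q : ℕ => Cc * (Q : ℝ) ^ (-δ)) atTop (𝓝 (Cc * 0)) :=
      ((tendsto_rpow_neg_atTop hδ).comp tendsto_natCast_atTop_atTop).const_mul Cc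
    rw [mul_zero] at h2
    have h3 := h2.eventually_le_const (show (0 : ℝ) < ρ / 4 by positivity)
    have h4 : ∀ᶠ Q : ℕ in atTop, 2 * C₁ + C₂ < (Q : ℝ) :=
      tendsto_natCast_atTop_atTop.eventually_gt_atTop _
    exact h1.and (h3.and h4)
  obtain ⟨Q₀, hQ₀⟩ := eventually_atTop.1 hev
  refine ⟨D, t, Q₀, ht0, fun Q hQ b hb p hp => ?_⟩
  obtain ⟨hQ1, hQη, hQC⟩ := hQ₀ Q hQ
  have hQr : (1 : ℝ) ≤ Q := by exact_mod_cast hQ1
  have hQ0 : (0 : ℝ) < Q := by linarith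
  have hbρ : ∀ i, ‖b i‖ ≤ ρ := fun i => (hb i).trans htρ
  obtain ⟨p', hp'⟩ : ∃ p' : Fin r → ℂ, p' = fun j => p j.castSucc - (c j : ℂ) * p (Fin.last r) :=
    ⟨_, rfl⟩
  have hp'ρ : ∀ j, ‖p' j‖ ≤ ρ / 2 := fun j => by
    rw [hp']
    exact (hshear p t hp j).trans htC1
  choose τ hτ hτs using fun (a : Fin (r + 1) → Fin (D₁ + 1)) (j : Fin m) =>
    taylor_at hρ (hR a j).1 hbρ hp'ρ
  have h2ρ : 1 ≤ 2 / ρ := by
    rw [le_div_iff₀ hρ]
    linarith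
  have hτK : ∀ a j k, ‖τ a j k‖ ≤ K ^ (D₁ + 1) * (2 / ρ) ^ (∑ i, k i) := fun a j k =>
    (hτ a j k).trans (mul_le_mul_of_nonneg_right (hR a j).2 (by positivity))
  have hτB : ∀ (a : Fin (r + 1) → Fin (D₁ + 1)) (s : Fin m × (Fin r → Fin T)),
      ‖τ a s.1 (Finsupp.equivFunOnFinite.symm (fun i => (s.2 i : ℕ)))‖ ≤ B := by
    intro a s
    refine (hτK a s.1 _).trans ?_
    rw [hB]
    refine mul_le_mul_of_nonneg_left (pow_le_pow_right₀ h2ρ ?_) (by positivity)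
    calc ∑ i, (Finsupp.equivFunOnFinite.symm (fun i => (s.2 i : ℕ))) i ≤ ∑ _i : Fin r, T := by
          refine Finset.sum_le_sum fun i _ => ?_
          exact (s.2 i).2.le
      _ = r * T := by rw [Finset.sum_const, Finset.card_univ, Fintype.card_fin, smul_eq_mul]
  have hcA : Fintype.card (Fin (r + 1) → Fin (D₁ + 1)) = (D₁ + 1) ^ (r + 1) := by
    rw [Fintype.card_fun, Fintype.card_fin, Fintype.card_fin]
  have hcS : Fintype.card (Fin m × (Fin r → Fin T)) = m * T ^ r := by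
    rw [Fintype.card_prod, Fintype.card_fun, Fintype.card_fin, Fintype.card_fin, Fintype.card_fin]
  obtain ⟨G, hG0, hGH, hGs⟩ := box_int (fun a (s : Fin m × (Fin r → Fin T)) =>
    τ a s.1 (Finsupp.equivFunOnFinite.symm (fun i => (s.2 i : ℕ)))) hτB (Q ^ D) (Q ^ (2 * D + 2))
    (Nat.one_le_pow _ _ hQ1) (by
      rw [hcA, hcS]
      exact g14_count hQ1 (Nat.one_le_pow _ _ (by omega)) hcount)
  refine ⟨g14_poly G, g14_poly_ne hG0, by rw [hD]; exact g14_poly_deg G,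
    fun q X hq1 hqQ hX hXt hXp hN0 => ?_⟩
  -- the coordinates of the point
  obtain ⟨y, hy⟩ : ∃ y : Fin (r + 1) → ℂ, y = fun i => X i - x₀ i := ⟨_, rfl⟩
  obtain ⟨z, hz⟩ : ∃ z : ℂ, z = y (Fin.last r) := ⟨_, rfl⟩
  obtain ⟨x', hx'⟩ : ∃ x' : Fin r → ℂ, x' = fun j => y j.castSucc - (c j : ℂ) * y (Fin.last r) :=
    ⟨_, rfl⟩
  have hyt : ∀ i, ‖y i‖ ≤ t := fun i => by rw [hy]; exact hXt i
  have hzt : ‖z‖ ≤ t := by rw [hz]; exact hyt _
  have hx't : ∀ j, ‖x' j‖ ≤ Cc * t := fun j => by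
    rw [hx']
    exact hshear y t hyt j
  have hsn : (Fin.snoc (fun j => x' j + (c j : ℂ) * z) z : Fin (r + 1) → ℂ) = y := by
    rw [hx', hz]
    exact g14_snoc c y
  have hPz : ev P (fun o => o.elim z (Sum.elim b x')) = 0 := by
    rw [← hval b x' z (fun i => (hb i).trans htt₀) (fun j => (hx't j).trans htC2)
      (hzt.trans htt₀), hsn, hy]
    exact hN0
  have hprod : ∀ a : Fin (r + 1) → Fin (D₁ + 1), ∏ i, X i ^ (a i : ℕ) =
      ∑ j, ev (R a j) (Sum.elim b x') * z ^ (j : ℕ) := by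
    intro a
    rw [← hRev a b x' z hbρ (fun j => (hx't j).trans (by linarith)) (hzt.trans htρ) hPz, hsn]
    refine Finset.prod_congr rfl fun i _ => ?_
    rw [hy, add_sub_cancel]
  -- the Taylor expansions
  have hQδ : 0 < (Q : ℝ) ^ (-δ) := Real.rpow_pos_of_pos hQ0 _
  have hxη : ∀ j, ‖x' j - p' j‖ ≤ Cc * (Q : ℝ) ^ (-δ) := by
    intro j
    have h1 := hshear (fun i => y i - p i) _ (fun i => by rw [hy]; exact hXp i) j
    rw [hx', hp']
    refine le_trans (le_of_eq ?_) h1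
    congr 1
    ring
  have hη0 : 0 ≤ Cc * (Q : ℝ) ^ (-δ) := by positivity
  have hV := fun (a : Fin (r + 1) → Fin (D₁ + 1)) (j : Fin m) =>
    taylor_tail hρ hη0 hQη (τ a j) (hτK a j) (fun i => x' i - p' i) hxη
      (hτs a j x' fun i => (hxη i).trans hQη) T
  have hest := g14_est G (H := (Q : ℝ) ^ D) (by positivity) (by positivity) (fun a => by
      rw [Complex.norm_intCast]
      have h1 := hGH a
      exact_mod_cast h1) _ hGs (fun a j => ev (R a j) (Sum.elim b x')) z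
      (hzt.trans (htρ.trans hρ1)) (fun i => x' i - p' i)
      (fun i => (hxη i).trans (hQη.trans (by linarith))) hV
  -- the value is small
  have hQT : ((Q : ℝ) ^ (-δ)) ^ T ≤ 1 / (Q : ℝ) ^ (2 * D + 3) := by
    rw [← Real.rpow_mul_natCast hQ0.le, one_div, ← Real.rpow_natCast, ← Real.rpow_neg hQ0.le]
    refine Real.rpow_le_rpow_of_exponent_le hQr ?_
    push_cast
    linarith
  have hsmall : (Q : ℝ) ^ D * ‖∑ a, (G a : ℂ) * ∑ j, ev (R a j) (Sum.elim b x') * z ^ (j : ℕ)‖ < 1 := by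
    refine lt_of_le_of_lt ?_ (g14_num hQr D hC₁0 hC₂0 hQC)
    refine mul_le_mul_of_nonneg_left (hest.trans (add_le_add (le_of_eq ?_) ?_)) (by positivity)
    · rw [hcA, hC₁]
      push_cast
      ring
    · rw [hcA, hC₂]
      have h1 : K ^ (D₁ + 1) * r * 2 ^ r * (2 * (Cc * (Q : ℝ) ^ (-δ)) / ρ) ^ T ≤
          E₀ * (1 / (Q : ℝ) ^ (2 * D + 3)) := by
        have h2 : (2 * (Cc * (Q : ℝ) ^ (-δ)) / ρ) ^ T = (2 * Cc / ρ) ^ T * ((Q : ℝ) ^ (-δ)) ^ T := by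
          rw [← mul_pow]
          congr 1
          ring
        rw [h2, ← mul_assoc, ← hE₀]
        exact mul_le_mul_of_nonneg_left hQT hE₀0
      calc (((D₁ + 1) ^ (r + 1) : ℕ) : ℝ) * ((Q : ℝ) ^ D * (m * (K ^ (D₁ + 1) * r * 2 ^ r *
            (2 * (Cc * (Q : ℝ) ^ (-δ)) / ρ) ^ T)))
          ≤ (((D₁ + 1) ^ (r + 1) : ℕ) : ℝ) * ((Q : ℝ) ^ D * (m * (E₀ * (1 / (Q : ℝ) ^ (2 * D + 3))))) := by
            refine mul_le_mul_of_nonneg_left (mul_le_mul_of_nonneg_left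
              (mul_le_mul_of_nonneg_left h1 (by positivity)) (by positivity)) (by positivity)
        _ = (((D₁ + 1) ^ (r + 1) : ℕ) : ℝ) * (m * E₀) * ((Q : ℝ) ^ D / (Q : ℝ) ^ (2 * D + 3)) := by
            ring
  -- the value is zero
  have hval0 : MvPolynomial.aeval X (g14_poly G) =
      ∑ a, (G a : ℂ) * ∑ j, ev (R a j) (Sum.elim b x') * z ^ (j : ℕ) := by
    rw [g14_poly_eval]
    refine Finset.sum_congr rfl fun a _ => ?_
    rw [hprod a]
  obtain ⟨w, hw⟩ := g14_int G q X hX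
  rw [← g14_poly_eval, ← hD] at hw
  rw [← hval0] at hsmall
  have hw1 : |(w : ℝ)| < 1 := by
    have h1 : ‖(w : ℂ)‖ < 1 := by
      rw [← hw, norm_mul, norm_pow, Complex.norm_natCast]
      refine lt_of_le_of_lt (mul_le_mul_of_nonneg_right ?_ (norm_nonneg _)) hsmall
      exact pow_le_pow_left₀ (Nat.cast_nonneg _) (by exact_mod_cast hqQ) _
    rwa [Complex.norm_intCast] at h1
  have hw0 : w = 0 := by
    rw [← Int.abs_lt_one_iff]
    exact_mod_cast hw1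
  rw [hw0, Int.cast_zero] at hw
  have hq0 : (q : ℂ) ^ D ≠ 0 := pow_ne_zero _ (by exact_mod_cast (by omega : q ≠ 0))
  exact (mul_eq_zero.1 hw).resolve_left hq0

/-- AXG-G14. Proof. `r = 0`: `N 0 ![] ≠ 0`, by continuity `N b ![] ≠ 0` for small `b`, so `G = 1` works
(no point `X` satisfies `N b (X - x₀) = 0`).
`r = r' + 1`: `c` from `exists_shear_dir`; `Ñ(b, x̄, z) = N(b, (x̄ + c z, z))` is given by a power series `P`
in the variables `Option (ι ⊕ Fin r')` (`CA_comp_linear`), regular of some order `m` in `z` (`exists_Reg`).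
Let `ρ, K` be as in `remainders` for `x₀`, `D₁, T` as in `params` (for `r'`, `m`, `δ`),
`A = Fin (r'+1) → Fin (D₁+1)`, `S = Fin m × (Fin r' → Fin T)`, `D = (r'+1) D₁`. For given `b` and `p` (write
`p = (p̄ + c p_z, p_z)`, so `‖p̄‖ ≤ (1+‖c‖) t ≤ ρ/2`) let `τ a (j, k)` be the Taylor coefficient at `p̄` of index `k`
(`taylor_at`) of the remainder coefficient `R_j` of the monomial `a`; `‖τ‖ ≤ K^(D₁+1) (2/ρ)^{r' T} =: B`.
`box_int` with `H = Q^D`, `k = Q^(2D+2)`: the counting condition `k^{2 card S} < (H+1)^{card A}` holds by `params`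
(`2 (2D+2) card S·… < D card A` with the factor 2 to spare). So there is `G : A → ℤ`, `G ≠ 0`,
`|G a| ≤ Q^D`, all `‖∑_a G a τ a s‖ ≤ 4 B card(A) (Q^D + 1) / Q^(2D+2) ≤ C₁ Q^(-D-2)`. Take the polynomial
`G = ∑_a G a X^a`. For a point `X` as in the statement write `X - x₀ = (x̄ + c z, z)`; `‖z‖ ≤ t`,
`‖x̄ - p̄‖ ≤ (1 + ‖c‖) Q^(-δ) ≤ ρ/4`, and `Ñ(b, x̄, z) = 0`, so
`G(X) = ∑_j z^j ∑_a G a ev R_{a,j}(b, x̄)`, and by `taylor_tail` (`η = (1+‖c‖) Q^(-δ)`)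
`‖G(X)‖ ≤ m (card S) C₁ Q^(-D-2) + m card(A) Q^D K^(D₁+1) r' 2^{r'} (2(1+‖c‖) Q^(-δ)/ρ)^T ≤ C₂ Q^(-D-2)`
because `δ T ≥ 2D + 3`. On the other hand `q^D G(X)` is an integer (`q X_i` are integers, total degree
`≤ D`), and `|q^D G(X)| ≤ C₂ Q^(-2) < 1` for `Q ≥ Q₀`. So `G(X) = 0`. -/
theorem box_lemma {r : ℕ} (N : (ι → ℂ) → (Fin r → ℂ) → ℂ) (hN : CA2 N)
    (h0 : ¬ ∀ᶠ x in 𝓝 (0 : Fin r → ℂ), N 0 x = 0) (x₀ : Fin r → ℂ) {δ : ℝ} (hδ : 0 < δ) :
    ∃ (D : ℕ) (t : ℝ) (Q₀ : ℕ), 0 < t ∧ ∀ Q : ℕ, Q₀ ≤ Q → ∀ b : ι → ℂ, (∀ i, ‖b i‖ ≤ t) →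
      ∀ p : Fin r → ℂ, (∀ i, ‖p i‖ ≤ t) → ∃ G : MvPolynomial (Fin r) ℤ, G ≠ 0 ∧ G.totalDegree ≤ D ∧
        ∀ (q : ℕ) (X : Fin r → ℂ), 1 ≤ q → q ≤ Q → (∀ i, ∃ z : ℤ, (q : ℂ) * X i = z) →
          (∀ i, ‖X i - x₀ i‖ ≤ t) → (∀ i, ‖X i - x₀ i - p i‖ ≤ (Q : ℝ) ^ (-δ)) →
          N b (fun i => X i - x₀ i) = 0 → MvPolynomial.aeval X G = 0 := by
  cases r with
  | zero =>
    obtain ⟨t, ht, hne⟩ := g14_zero N hN h0
    refine ⟨0, t, 0, ht, fun Q _ b hb p _ => ⟨1, one_ne_zero, ?_, fun q X _ _ _ _ _ h => ?_⟩⟩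
    · rw [MvPolynomial.totalDegree_one]
    · exact absurd h (hne b hb _)
  | succ r => exact g14_succ N hN h0 x₀ hδ

end Pool.Agent.Helper94.AXG
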