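import Pool.Agent.Helper94.AXG.Z2
import Pool.Agent.Helper94.AXG.G11
import Pool.Agent.Helper94.AXG.G14

/-! # AXG-Z3: Case A -/

namespace Pool.Agent.Helper94.AXG

open Filter Topology

/-- continuity of the linear forms -/
private theorem z3_small {k r : ℕ} (A : Matrix (Fin r) (Fin k) ℤ) (x₀ : Fin k → ℂ) {e t : ℝ}
    (he : 0 < e) (ht : 0 < t) : ∃ ε : ℝ, 0 < ε ∧ ε ≤ e ∧ ∀ x : Fin k → ℂ, (∀ i, ‖x i - x₀ i‖ < ε) →
      ∀ i, ‖mv A x i - mv A x₀ i‖ ≤ t := by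
  obtain ⟨M, hM0, hM⟩ : ∃ M : ℝ, 0 < M ∧ ∀ j, ∑ i, ‖(A j i : ℂ)‖ ≤ M := by
    refine ⟨1 + ∑ j, ∑ i, ‖(A j i : ℂ)‖, by positivity, fun j => ?_⟩
    have h1 : ∑ i, ‖(A j i : ℂ)‖ ≤ ∑ j, ∑ i, ‖(A j i : ℂ)‖ :=
      Finset.single_le_sum (f := fun j => ∑ i, ‖(A j i : ℂ)‖)
        (fun j _ => Finset.sum_nonneg fun i _ => norm_nonneg _) (Finset.mem_univ j)
    linarith
  refine ⟨min e (t / M), lt_min he (div_pos ht hM0), min_le_left _ _, fun x hx j => ?_⟩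
  have h1 : mv A x j - mv A x₀ j = ∑ i, (A j i : ℂ) * (x i - x₀ i) := by
    simp only [mv, mul_sub, Finset.sum_sub_distrib]
  rw [h1]
  calc ‖∑ i, (A j i : ℂ) * (x i - x₀ i)‖ ≤ ∑ i, ‖(A j i : ℂ) * (x i - x₀ i)‖ := norm_sum_le _ _
    _ ≤ ∑ i, ‖(A j i : ℂ)‖ * (t / M) := Finset.sum_le_sum fun i _ => by
        rw [norm_mul]
        exact mul_le_mul_of_nonneg_left ((hx i).le.trans (min_le_right _ _)) (norm_nonneg _)
    _ = (∑ i, ‖(A j i : ℂ)‖) * (t / M) := by rw [Finset.sum_mul]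
    _ ≤ M * (t / M) := mul_le_mul_of_nonneg_right (hM j) (div_pos ht hM0).le
    _ = t := mul_div_cancel₀ t hM0.ne'

private theorem z3_int {k r : ℕ} (A : Matrix (Fin r) (Fin k) ℤ) (x : Pt k) (hx : 1 ≤ x.1)
    (i : Fin r) : ∃ z : ℤ, (x.1 : ℂ) * mv A (xp x) i = z := by
  refine ⟨∑ j, A i j * x.2 j, ?_⟩
  have h1 : (x.1 : ℂ) ≠ 0 := Nat.cast_ne_zero.2 (Nat.pos_iff_ne_zero.1 hx)
  unfold mv xp
  rw [Finset.mul_sum, Int.cast_sum]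
  refine Finset.sum_congr rfl fun j _ => ?_
  rw [Int.cast_mul, Int.cast_natCast, mul_left_comm, mul_div_cancel₀ _ h1]

/-- AXG-Z3: a function which vanishes at the points vanishes on a polydisc. Proof. `ρ₀` from `bautin N`. Let
`0 < ρ ≤ ρ₀` and suppose that the conclusion fails for `ρ`; an ultrafilter decides, so for UF-many `n`
there is `z`, `‖z‖ < ρ`, with `N (b n) z ≠ 0`. `bautin` (for `𝒰 = UF`) gives `N', b', s, t'`. Let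
`w₀ = mv (rows hrk A) x₀`, `δ = c / (2 (r + 1))`, so `r δ < c`, and let `D, t, Q₀` be as in `box_lemma` for
`N'`, `w₀`, `δ`. Choose `ε ≤ e` so small that `‖xp x i - x₀ i‖ < ε` implies
`‖mv (rows hrk A) (xp x) i - w₀ i‖ ≤ min t t'`; `hconc` gives `T₁`, `cubes` (`z₀ = w₀`, `min t t'`, `δ`) gives
`T ⊆ T₁`, `p`, `Large Q T`. For UF-many `n`: `Q n ≥ Q₀`, `‖b' n i‖ ≤ t`, `s n ≠ 0`, etc.; `box_lemma` for
`Q n`, `b' n`, `p n` gives `G n ≠ 0`, degree `≤ D`. For `x ∈ T n`, `X = mv (rows hrk A) (xp x)`: `x.1 X i` is an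
integer (`x.1 ≥ 1`), `N (b n) (X - w₀) = 0` by `hvan`, so `N' (b' n) (X - w₀) = 0` because `s n ≠ 0`; hence
`aeval X (G n) = 0`. This contradicts `h.maxi`. (For the other `n` put `G n = 1`.) -/
theorem case_A {k r : ℕ} {Q : ℕ → ℕ} (hQ : Tendsto Q atTop atTop) {S : ℕ → Finset (Pt k)} {hrk : r ≤ k}
    {A B : Matrix (Fin k) (Fin k) ℤ} {F : Fin k → ℕ → MvPolynomial (Fin k) ℂ} {l : ℕ}
    {L : Fin l → ℕ → MvPolynomial (Fin k) ℂ} (h : Alg Q S r hrk A B F l L)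
    (hle : ∀ n, ∀ x ∈ S n, 1 ≤ x.1 ∧ x.1 ≤ Q n) (x₀ : Fin k → ℂ) {c : ℝ} (hc : 0 < c)
    (hconc : ∀ ε : ℝ, 0 < ε → ∃ T : ℕ → Finset (Pt k), (∀ n, T n ⊆ S n) ∧
      (∀ᶠ n in (UF : Filter ℕ), (Q n : ℝ) ^ c ≤ (T n).card) ∧
      ∀ n, ∀ x ∈ T n, ∀ i, ‖xp x i - x₀ i‖ < ε)
    {ι : Type} [Fintype ι] (N : (ι → ℂ) → (Fin r → ℂ) → ℂ) (hN : CA2 N) (b : ℕ → ι → ℂ)
    (hb : Tendsto b (UF : Filter ℕ) (𝓝 0)) {e : ℝ} (he : 0 < e)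
    (hvan : ∀ᶠ n in (UF : Filter ℕ), ∀ x ∈ S n, (∀ i, ‖xp x i - x₀ i‖ < e) →
      N (b n) (fun i => mv (rows hrk A) (xp x) i - mv (rows hrk A) x₀ i) = 0) :
    ∃ ρ₀ : ℝ, 0 < ρ₀ ∧ ∀ ρ : ℝ, 0 < ρ → ρ ≤ ρ₀ → ∀ᶠ n in (UF : Filter ℕ),
      ∀ z : Fin r → ℂ, (∀ j, ‖z j‖ < ρ) → N (b n) z = 0 := by
  obtain ⟨ρ₀, hρ₀, H⟩ := bautin N hN
  refine ⟨ρ₀, hρ₀, fun ρ hρ hρρ => ?_⟩
  by_contra hcon
  have hex : ∀ᶠ n in (UF : Filter ℕ), ∃ z : Fin r → ℂ, (∀ j, ‖z j‖ < ρ) ∧ N (b n) z ≠ 0 := by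
    filter_upwards [Ultrafilter.eventually_not.2 hcon] with n hn
    push Not at hn
    exact hn
  obtain ⟨p, N', b', s, t', hN', hb', ht', hs, hfac, hnz⟩ := H UF b hb ρ hρ hρρ hex
  obtain ⟨δ, hδ, hrδ⟩ : ∃ δ : ℝ, 0 < δ ∧ r * δ < c := by
    refine ⟨c / (2 * (r + 1)), by positivity, ?_⟩
    have hr : (0 : ℝ) ≤ r := Nat.cast_nonneg r
    rw [← mul_div_assoc, div_lt_iff₀ (by positivity)]
    nlinarith [mul_nonneg hr hc.le]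
  obtain ⟨D, t, Q₀, ht, hbox⟩ := box_lemma N' hN' hnz (mv (rows hrk A) x₀) hδ
  obtain ⟨ε, hε, hεe, hεt⟩ := z3_small (rows hrk A) x₀ he (lt_min ht ht')
  obtain ⟨T₁, hT₁S, hT₁c, hT₁x⟩ := hconc ε hε
  obtain ⟨T, q, hTT, hL, hq, hTq⟩ := cubes hQ T₁ hT₁c (rows hrk A) (mv (rows hrk A) x₀)
    (lt_min ht ht') (fun n x hx i => hεt (xp x) (hT₁x n x hx) i) hδ hrδ
  have hgood : ∀ᶠ n in (UF : Filter ℕ), ∃ G : MvPolynomial (Fin r) ℤ,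
      (G ≠ 0 ∧ G.totalDegree ≤ D) ∧
        ∀ P ∈ T n, MvPolynomial.aeval (mv (rows hrk A) (xp P)) G = 0 := by
    have hQ₀ : ∀ᶠ n in (UF : Filter ℕ), Q₀ ≤ Q n :=
      (hQ.mono_left Nat.hyperfilter_le_atTop).eventually (eventually_ge_atTop Q₀)
    have hbt : ∀ᶠ n in (UF : Filter ℕ), ∀ i, ‖b' n i‖ ≤ t := by
      refine Filter.eventually_all.2 fun i => ?_
      filter_upwards [(tendsto_pi_nhds.1 hb' i).eventually (Metric.closedBall_mem_nhds _ ht)]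
        with n hn
      exact mem_closedBall_zero_iff.1 hn
    filter_upwards [hQ₀, hbt, hs, hfac, hvan] with n hn1 hn2 hn3 hn4 hn5
    obtain ⟨G, hG0, hGD, hG⟩ := hbox (Q n) hn1 (b' n) hn2 (q n)
      (fun i => (hq n i).trans (min_le_left _ _))
    refine ⟨G, ⟨hG0, hGD⟩, fun x hx => ?_⟩
    have hx1 := hTT n hx
    have hxS := hT₁S n hx1
    have h6 := hεt (xp x) (hT₁x n x hx1)
    refine hG x.1 _ (hle n x hxS).1 (hle n x hxS).2 (fun i => z3_int _ x (hle n x hxS).1 i)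
      (fun i => (h6 i).trans (min_le_left _ _)) (hTq n x hx) ?_
    have h7 := hn5 x hxS fun i => (hT₁x n x hx1 i).trans_le hεe
    rw [hn4 _ fun j => (h6 j).trans (min_le_right _ _)] at h7
    exact (mul_eq_zero.1 h7).resolve_left hn3
  obtain ⟨G, hG⟩ := hgood.choice
  exact h.maxi T (fun n => (hTT n).trans (hT₁S n)) hL D G (hG.mono fun n hn => hn.1)
    (hG.mono fun n hn => hn.2)

end Pool.Agent.Helper94.AXG
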