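import Pool.Agent.Helper94.AXG.ZDefs

/-! # AXG-Z6: the sequences of parameters -/

namespace Pool.Agent.Helper94.AXG

open MvPolynomial Filter Topology

/-- a bounded sequence converges along the ultrafilter -/
private theorem lim_of_bdd (f : ℕ → ℂ) (C : ℝ) (h : ∀ᶠ n in (UF : Filter ℕ), ‖f n‖ ≤ C) :
    ∃ b, Tendsto f (UF : Filter ℕ) (𝓝 b) := by
  have hc : IsCompact (Metric.closedBall (0 : ℂ) C) := isCompact_closedBall 0 C
  obtain ⟨b, -, hb⟩ := hc.ultrafilter_le_nhds' (UF.map f) (by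
    rw [Ultrafilter.mem_map]
    filter_upwards [h] with n hn
    simpa [Metric.mem_closedBall, dist_zero_right] using hn)
  exact ⟨b, hb⟩

private theorem totalDegree_lim {k : ℕ} (F : ℕ → MvPolynomial (Fin k) ℂ) (Fs : MvPolynomial (Fin k) ℂ)
    (D : ℕ) (h : ∀ᶠ n in (UF : Filter ℕ), (F n).totalDegree ≤ D)
    (ht : ∀ ν, Tendsto (fun n => coeff ν (F n)) (UF : Filter ℕ) (𝓝 (coeff ν Fs))) :
    Fs.totalDegree ≤ D := by
  refine Finset.sup_le fun ν hν => ?_
  by_contra hlt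
  push Not at hlt
  have h0 : Tendsto (fun n => coeff ν (F n)) (UF : Filter ℕ) (𝓝 0) := by
    refine (tendsto_const_nhds (x := (0 : ℂ))).congr' ?_
    filter_upwards [h] with n hn
    symm
    refine coeff_eq_zero_of_totalDegree_lt ?_
    exact lt_of_le_of_lt hn hlt
  exact (mem_support_iff.1 hν) (tendsto_nhds_unique (ht ν) h0)

/-- AXG-Z6. Proof. `D` = a common bound for the degrees in `h.good j` (`r ≤ j`) and `h.Lbd`. All
coordinates of the parameter sequence are bounded for UF-many `n` (by `Good`, by `1`, by `1`; for `j < r`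
they are `0`), so they converge along the ultrafilter (compactness of closed discs), to `bs`; for `r ≤ j` the
limit is the coefficient of the `Fs` in `Good` (uniqueness of limits), and `Fs.totalDegree ≤ D` because the
coefficients with exponents of degree `> D` are `0` for UF-many `n`. -/
theorem param_seq {k r : ℕ} {Q : ℕ → ℕ} {S : ℕ → Finset (Pt k)} {hrk : r ≤ k}
    {A B : Matrix (Fin k) (Fin k) ℤ} {F : Fin k → ℕ → MvPolynomial (Fin k) ℂ} {l : ℕ}
    {L : Fin l → ℕ → MvPolynomial (Fin k) ℂ} (h : Alg Q S r hrk A B F l L) (d : ℕ)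
    (P : ℕ → MvPolynomial (Fin k) ℂ) (hP : ∀ n, ∀ ν, ‖coeff ν (P n)‖ ≤ 1) :
    ∃ (D : ℕ) (m : Fin k → ℕ) (bs : Par k D d l → ℂ),
      (∀ᶠ n in (UF : Filter ℕ), (∀ j : Fin k, r ≤ (j : ℕ) → (F j n).totalDegree ≤ D ∧
        LeadAt j (m j) (F j n)) ∧ ∀ s, (L s n).totalDegree ≤ D) ∧
      (∀ j : Fin k, r ≤ (j : ℕ) → ∃ (m' : ℕ) (Fs : MvPolynomial (Fin k) ℂ), LeadAt j m' Fs ∧
        Fs.totalDegree ≤ D ∧ ∀ ν, bs (Sum.inl (j, ν)) = cf D Fs ν) ∧
      Tendsto (fun n w => par D d (fun j => if r ≤ (j : ℕ) then F j n else 0) (fun s => L s n) (P n) w -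
        bs w) (UF : Filter ℕ) (𝓝 0) := by
  classical
  have hg : ∀ j : Fin k, ∃ (D m m' : ℕ) (Fs : MvPolynomial (Fin k) ℂ), r ≤ (j : ℕ) →
      (∀ᶠ n in (UF : Filter ℕ), (F j n).totalDegree ≤ D ∧ (∀ ν, ‖coeff ν (F j n)‖ ≤ D) ∧
        LeadAt j m (F j n)) ∧
      (∀ ν, Tendsto (fun n => coeff ν (F j n)) (UF : Filter ℕ) (𝓝 (coeff ν Fs))) ∧ LeadAt j m' Fs := by
    intro j
    by_cases hj : r ≤ (j : ℕ)
    · obtain ⟨D, m, m', Fs, -, h1, h2, h3⟩ := h.good j hj
      exact ⟨D, m, m', Fs, fun _ => ⟨h1, h2, h3⟩⟩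
    · exact ⟨0, 0, 0, 0, fun hh => absurd hh hj⟩
  choose D0 m m' Fs hF using hg
  obtain ⟨DL, hDL⟩ := h.Lbd
  have hDj : ∀ j, D0 j ≤ (∑ j, D0 j) + DL := fun j =>
    (Finset.single_le_sum (f := D0) (fun _ _ => Nat.zero_le _) (Finset.mem_univ j)).trans
      (Nat.le_add_right _ _)
  generalize hD : (∑ j, D0 j) + DL = D at hDj
  have hDLD : DL ≤ D := by omega
  have hlim : ∀ w : Par k D d l, ∃ b : ℂ,
      Tendsto (fun n => par D d (fun j => if r ≤ (j : ℕ) then F j n else 0) (fun s => L s n) (P n) w)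
        (UF : Filter ℕ) (𝓝 b) ∧
      ∀ j ν, w = Sum.inl (j, ν) → r ≤ (j : ℕ) → b = cf D (Fs j) ν := by
    rintro (⟨j, ν⟩ | ⟨s, ν⟩ | ν)
    · by_cases hj : r ≤ (j : ℕ)
      · refine ⟨cf D (Fs j) ν, ?_, ?_⟩
        · have := (hF j hj).2.1 (ex ν)
          simpa [par, cf, hj] using this
        · rintro j' ν' hw -
          obtain ⟨rfl, rfl⟩ := Prod.mk.inj (Sum.inl.inj hw)
          rfl
      · refine ⟨0, ?_, ?_⟩
        · simp [par, cf, hj]
        · rintro j' ν' hw hj'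
          obtain ⟨rfl, rfl⟩ := Prod.mk.inj (Sum.inl.inj hw)
          exact absurd hj' hj
    · obtain ⟨b, hb⟩ := lim_of_bdd (fun n => coeff (ex ν) (L s n)) 1 (by
        filter_upwards [hDL] with n hn
        exact (hn s).2 _)
      refine ⟨b, ?_, ?_⟩
      · simpa [par, cf] using hb
      · rintro j' ν' hw -
        exact absurd hw (by simp)
    · obtain ⟨b, hb⟩ := lim_of_bdd (fun n => coeff (ex ν) (P n)) 1
        (Eventually.of_forall fun n => hP n _)
      refine ⟨b, ?_, ?_⟩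
      · simpa [par, cf] using hb
      · rintro j' ν' hw -
        exact absurd hw (by simp)
  choose bs hbs hbs' using hlim
  refine ⟨D, m, bs, ?_, ?_, ?_⟩
  · have h1 : ∀ᶠ n in (UF : Filter ℕ), ∀ j : Fin k, r ≤ (j : ℕ) → (F j n).totalDegree ≤ D ∧
        LeadAt j (m j) (F j n) := by
      rw [eventually_all]
      intro j
      by_cases hj : r ≤ (j : ℕ)
      · filter_upwards [(hF j hj).1] with n hn _
        exact ⟨hn.1.trans (hDj j), hn.2.2⟩
      · exact Eventually.of_forall fun n hh => absurd hh hj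
    filter_upwards [h1, hDL] with n hn hn'
    exact ⟨hn, fun s => (hn' s).1.trans hDLD⟩
  · intro j hj
    refine ⟨m' j, Fs j, (hF j hj).2.2, ?_, fun ν => hbs' _ j ν rfl hj⟩
    refine totalDegree_lim (F j) (Fs j) D ?_ (hF j hj).2.1
    filter_upwards [(hF j hj).1] with n hn
    exact hn.1.trans (hDj j)
  · rw [tendsto_pi_nhds]
    intro w
    have := (hbs w).sub_const (bs w)
    simpa using this

end Pool.Agent.Helper94.AXG
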