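import Pool.Agent.Helper94.AXG.Z8

/-! # AXG-Z8B -/

namespace Pool.Agent.Helper94.AXG

open MvPolynomial

/-- a polynomial with zero constant term part: `c + ∑_s v_s T^(s+1)` with more than `l` natural roots -/
private theorem pigeon_poly {l : ℕ} (c : ℂ) (v : Fin l → ℂ) (S : Finset ℕ) (hS : l < S.card)
    (h : ∀ a ∈ S, c + ∑ s : Fin l, (a : ℂ) ^ ((s : ℕ) + 1) * v s = 0) : c = 0 ∧ ∀ s, v s = 0 := by
  classical
  let P : Polynomial ℂ := Polynomial.C c +
    ∑ s : Fin l, Polynomial.C (v s) * Polynomial.X ^ ((s : ℕ) + 1)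
  have hdeg : P.natDegree ≤ l := by
    refine (Polynomial.natDegree_add_le _ _).trans (max_le ?_ ?_)
    · rw [Polynomial.natDegree_C]
      exact Nat.zero_le l
    · refine Polynomial.natDegree_sum_le_of_forall_le _ _ fun s _ => ?_
      refine (Polynomial.natDegree_C_mul_X_pow_le _ _).trans ?_
      exact s.2
  have hP : P = 0 := by
    refine Polynomial.eq_zero_of_natDegree_lt_card_of_eval_eq_zero' P
      (S.image (fun a : ℕ => (a : ℂ))) ?_ ?_
    · intro x hx
      obtain ⟨a, ha, rfl⟩ := Finset.mem_image.mp hx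
      have h1 := h a ha
      change (Polynomial.C c +
        ∑ s : Fin l, Polynomial.C (v s) * Polynomial.X ^ ((s : ℕ) + 1)).eval (a : ℂ) = 0
      rw [Polynomial.eval_add, Polynomial.eval_C, Polynomial.eval_finsetSum, ← h1]
      congr 1
      refine Finset.sum_congr rfl fun s _ => ?_
      rw [Polynomial.eval_mul, Polynomial.eval_C, Polynomial.eval_pow, Polynomial.eval_X, mul_comm]
    · rw [Finset.card_image_of_injective _ Nat.cast_injective]
      exact lt_of_le_of_lt hdeg hS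
  have hco : ∀ n, (Polynomial.C c).coeff n +
      ∑ s : Fin l, (Polynomial.C (v s) * Polynomial.X ^ ((s : ℕ) + 1) : Polynomial ℂ).coeff n = 0 := by
    intro n
    have h1 : P.coeff n = 0 := by rw [hP, Polynomial.coeff_zero]
    have h2 : P.coeff n = (Polynomial.C c).coeff n +
        ∑ s : Fin l, (Polynomial.C (v s) * Polynomial.X ^ ((s : ℕ) + 1) : Polynomial ℂ).coeff n := by
      change (Polynomial.C c +
        ∑ s : Fin l, Polynomial.C (v s) * Polynomial.X ^ ((s : ℕ) + 1) : Polynomial ℂ).coeff n = _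
      rw [Polynomial.coeff_add, Polynomial.finsetSum_coeff]
    rw [← h2, h1]
  refine ⟨?_, fun s => ?_⟩
  · have h1 := hco 0
    rw [Polynomial.coeff_C_zero, Finset.sum_eq_zero, add_zero] at h1
    · exact h1
    · intro s _
      rw [Polynomial.coeff_C_mul_X_pow, if_neg (by omega)]
  · have h1 := hco ((s : ℕ) + 1)
    rw [Polynomial.coeff_C_succ, zero_add, Finset.sum_eq_single s] at h1
    · rw [Polynomial.coeff_C_mul_X_pow, if_pos rfl] at h1
      exact h1
    · intro s' _ hne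
      rw [Polynomial.coeff_C_mul_X_pow, if_neg]
      intro h2
      apply hne
      apply Fin.ext
      omega
    · intro h2
      exact absurd (Finset.mem_univ s) h2

/-- AXG-Z8b. Proof. Choose `y_a` for `a < A₀`. The set of the `y_a` has at most `∏ m j` elements, so one `y` is
`y_a` for more than `l` values of `a` (`Finset.exists_lt_card_fiber_of_mul_lt_card_of_maps_to`). The
polynomial `G y + ∑_s L_s(B y) T^(s+1)` of degree `≤ l` has more than `l` roots, so it is `0`. -/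
theorem pigeon {k r l : ℕ} (hrk : r ≤ k) (B : Matrix (Fin k) (Fin k) ℤ)
    (f : Fin k → MvPolynomial (Fin k) ℂ) (m : Fin k → ℕ)
    (hf : ∀ j : Fin k, r ≤ (j : ℕ) → LeadAt j (m j) (f j)) (L : Fin l → MvPolynomial (Fin k) ℂ)
    (G : (Fin k → ℂ) → ℂ) (A₀ : ℕ)
    (hA₀ : l * ∏ j ∈ Finset.univ.filter (fun j : Fin k => r ≤ (j : ℕ)), m j < A₀) (z' : Fin r → ℂ)
    (hz : ∀ a, a < A₀ → ∃ y : Fin k → ℂ, (∀ i : Fin r, y (Fin.castLE hrk i) = z' i) ∧
      (∀ j : Fin k, r ≤ (j : ℕ) → eval y (f j) = 0) ∧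
      G y + ∑ s : Fin l, (a : ℂ) ^ ((s : ℕ) + 1) * eval (mv B y) (L s) = 0) :
    ∃ y : Fin k → ℂ, (∀ i : Fin r, y (Fin.castLE hrk i) = z' i) ∧
      (∀ j : Fin k, r ≤ (j : ℕ) → eval y (f j) = 0) ∧ G y = 0 ∧
      ∀ s, eval (mv B y) (L s) = 0 := by
  classical
  have hz' : ∀ a : ℕ, ∃ y : Fin k → ℂ, a < A₀ → (∀ i : Fin r, y (Fin.castLE hrk i) = z' i) ∧
      (∀ j : Fin k, r ≤ (j : ℕ) → eval y (f j) = 0) ∧
      G y + ∑ s : Fin l, (a : ℂ) ^ ((s : ℕ) + 1) * eval (mv B y) (L s) = 0 := by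
    intro a
    by_cases ha : a < A₀
    · obtain ⟨y, hy⟩ := hz a ha
      exact ⟨y, fun _ => hy⟩
    · exact ⟨0, fun h => absurd h ha⟩
  choose Y hY using hz'
  have hW := tower_count hrk f m hf z' ((Finset.range A₀).image Y) (by
    intro y hy
    obtain ⟨a, ha, rfl⟩ := Finset.mem_image.mp hy
    have h1 := hY a (Finset.mem_range.mp ha)
    exact ⟨h1.1, h1.2.1⟩)
  have hlt : ((Finset.range A₀).image Y).card * l < (Finset.range A₀).card := by
    rw [Finset.card_range, mul_comm]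
    exact lt_of_le_of_lt (Nat.mul_le_mul_left l hW) hA₀
  obtain ⟨y, hy, hcard⟩ := Finset.exists_lt_card_fiber_of_mul_lt_card_of_maps_to
    (fun a ha => Finset.mem_image_of_mem Y ha) hlt
  obtain ⟨a, ha, hay⟩ := Finset.mem_image.mp hy
  have h1 := hY a (Finset.mem_range.mp ha)
  rw [hay] at h1
  obtain ⟨h2, h3⟩ := pigeon_poly (G y) (fun s => eval (mv B y) (L s)) _ hcard (by
    intro b hb
    obtain ⟨hb1, hb2⟩ := Finset.mem_filter.mp hb
    have h4 := (hY b (Finset.mem_range.mp hb1)).2.2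
    rw [hb2] at h4
    exact h4)
  exact ⟨y, h1.1, h1.2.1, h2, h3⟩

end Pool.Agent.Helper94.AXG
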