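import Pool.Agent.Helper94.AXG.Y0
import Pool.Agent.Helper49.GL.Q10

/-! # AXG-Y1 -/

namespace Pool.Agent.Helper94.AXG

open MvPolynomial

/-- AXG-Y1: `π` is transcendental. Proof. `GLR.polyMeas_pi` gives `κ`, `X₀` such that
`GLR.Meas (fun _ : Fin 1 => π) X (X^κ)` for all `X ≥ X₀`. Transport `P` to `R : MvPolynomial (Fin 1) ℤ`;
`R ≠ 0`; for `X` large `GLR.Cx R X X` holds, so `|R(π)| ≥ exp (-X^κ) > 0`. Finally pass
from `ℝ` to `ℂ`. -/
theorem pi_transc (P : Polynomial ℤ) (hP : P ≠ 0) : Polynomial.aeval (Real.pi : ℂ) P ≠ 0 := by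
  obtain ⟨κ, X₀, h⟩ := GLR.polyMeas_pi
  set R : MvPolynomial (Fin 1) ℤ := Polynomial.aeval (X 0 : MvPolynomial (Fin 1) ℤ) P with hR
  have hR0 : R ≠ 0 := by
    intro h0
    apply hP
    have h1 : (aeval (fun _ : Fin 1 => (Polynomial.X : Polynomial ℤ))) R = P := by
      rw [hR, ← Polynomial.aeval_algHom_apply]
      simp
    rw [← h1, h0, map_zero]
  set L₀ : ℝ := ∑ s ∈ R.support, |((R.coeff s : ℤ) : ℝ)| with hL
  obtain ⟨N₁, hN₁⟩ := exists_nat_ge L₀
  set N := max X₀ (max R.totalDegree N₁) with hN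
  have hX : X₀ ≤ N := le_max_left _ _
  have hd : R.totalDegree ≤ N := le_trans (le_max_left _ _) (le_max_right _ _)
  have hL1 : L₀ ≤ N := le_trans hN₁ (by exact_mod_cast le_trans (le_max_right _ _) (le_max_right _ _))
  have hC : GLR.Cx R N N := by
    intro t ht
    unfold GLR.wl
    calc ∑ s ∈ R.support, |((R.coeff s : ℤ) : ℝ)| * t ^ (∑ i, s i)
        ≤ ∑ s ∈ R.support, |((R.coeff s : ℤ) : ℝ)| * t ^ N := by
          refine Finset.sum_le_sum fun s hs => ?_
          refine mul_le_mul_of_nonneg_left (pow_le_pow_right₀ ht ?_) (abs_nonneg _)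
          have h2 := le_totalDegree hs
          rw [Finsupp.sum_fintype _ _ (fun _ => rfl)] at h2
          exact h2.trans hd
      _ = L₀ * t ^ N := by rw [Finset.sum_mul]
      _ ≤ Real.exp N * t ^ N := by
          refine mul_le_mul_of_nonneg_right ?_ (by positivity)
          exact hL1.trans ((by linarith [Real.add_one_le_exp (N : ℝ)]))
  have h3 := h N hX R hR0 hC
  have h4 : GLR.ev (fun _ : Fin 1 => Real.pi) R = Polynomial.aeval Real.pi P := by
    rw [hR, Polynomial.aeval_eq_sum_range, Polynomial.aeval_eq_sum_range, map_sum]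
    refine Finset.sum_congr rfl fun i _ => ?_
    simp [GLR.ev]
    exact map_intCast (eval₂Hom (Int.castRingHom ℝ) (fun _ : Fin 1 => Real.pi)) (P.coeff i)
  rw [h4] at h3
  have h5 : (Polynomial.aeval Real.pi P : ℝ) ≠ 0 := by
    intro h6
    rw [h6, abs_zero] at h3
    exact absurd h3 (not_le.mpr (Real.exp_pos _))
  intro h6
  apply h5
  have h7 : (Polynomial.aeval (Real.pi : ℂ) P) = ((Polynomial.aeval Real.pi P : ℝ) : ℂ) := by
    rw [show (Real.pi : ℂ) = algebraMap ℝ ℂ Real.pi from rfl, Polynomial.aeval_algebraMap_apply]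
    rfl
  rw [h7] at h6
  exact_mod_cast h6

end Pool.Agent.Helper94.AXG
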