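import Pool.Agent.Helper94.AXG.Defs

/-! # AXG-D1B -/

namespace Pool.Agent.Helper94.AXG

open Complex Filter Topology

private theorem d1_zeta {K : ℕ} (hK : 1 ≤ K) :
    Tendsto (fun Y : ℝ => ((Y ^ (-(1 : ℝ) / K) : ℝ) : ℂ)) atTop (𝓝 0) := by
  have h0 : (0 : ℝ) < K := by exact_mod_cast hK
  have h1 : (0 : ℝ) < 1 / K := by positivity
  have h2 : Tendsto (fun Y : ℝ => Y ^ (-(1 : ℝ) / K)) atTop (𝓝 0) := by
    have h3 := tendsto_rpow_neg_atTop h1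
    rwa [← neg_div] at h3
  have h4 := (Complex.continuous_ofReal.tendsto 0).comp h2
  rw [Complex.ofReal_zero] at h4
  exact h4

/-- the function `Y^(1 - l/K) k₁(Y^(-1/K))` -/
private noncomputable def d1_phi (K l : ℕ) (k₁ : ℂ → ℂ) (y : ℝ) : ℂ :=
  ((y ^ (1 - (l : ℝ) / K) : ℝ) : ℂ) * k₁ ((y ^ (-(1 : ℝ) / K) : ℝ) : ℂ)

private noncomputable def d1_psi (K l : ℕ) (k₁ : ℂ → ℂ) (y : ℝ) : ℂ :=
  (1 - (l : ℂ) / K) * k₁ ((y ^ (-(1 : ℝ) / K) : ℝ) : ℂ) -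
    (1 / K) * ((y ^ (-(1 : ℝ) / K) : ℝ) : ℂ) * deriv k₁ ((y ^ (-(1 : ℝ) / K) : ℝ) : ℂ)

private theorem d1_deriv {K : ℕ} (l : ℕ) (hK : 1 ≤ K) {k₁ : ℂ → ℂ} (hk₁ : AnalyticAt ℂ k₁ 0) :
    ∀ᶠ y : ℝ in atTop, HasDerivAt (d1_phi K l k₁)
      (((y ^ (-(l : ℝ) / K) : ℝ) : ℂ) * d1_psi K l k₁ y) y := by
  filter_upwards [(d1_zeta hK).eventually hk₁.eventually_analyticAt, eventually_gt_atTop 0]
    with y hy hy0
  have h1 : HasDerivAt (fun y : ℝ => y ^ (1 - (l : ℝ) / K))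
      ((1 - (l : ℝ) / K) * y ^ ((1 - (l : ℝ) / K) - 1)) y :=
    Real.hasDerivAt_rpow_const (Or.inl hy0.ne')
  have h2 : HasDerivAt (fun y : ℝ => y ^ (-(1 : ℝ) / K))
      ((-(1 : ℝ) / K) * y ^ ((-(1 : ℝ) / K) - 1)) y :=
    Real.hasDerivAt_rpow_const (Or.inl hy0.ne')
  have h3 := hy.differentiableAt.hasDerivAt
  have h4 := h3.comp y h2.ofReal_comp
  have h5 := h1.ofReal_comp.mul h4
  have e1 : y ^ ((1 - (l : ℝ) / K) - 1) = y ^ (-(l : ℝ) / K) := by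
    congr 1
    ring
  have e2 : y ^ (1 - (l : ℝ) / K) * y ^ ((-(1 : ℝ) / K) - 1) =
      y ^ (-(l : ℝ) / K) * y ^ (-(1 : ℝ) / K) := by
    rw [← Real.rpow_add hy0, ← Real.rpow_add hy0]
    congr 1
    ring
  have e3 : ((y ^ (1 - (l : ℝ) / K) : ℝ) : ℂ) * ((y ^ ((-(1 : ℝ) / K) - 1) : ℝ) : ℂ) =
      ((y ^ (-(l : ℝ) / K) : ℝ) : ℂ) * ((y ^ (-(1 : ℝ) / K) : ℝ) : ℂ) := by
    rw [← Complex.ofReal_mul, ← Complex.ofReal_mul, e2]
  have h6 : HasDerivAt (d1_phi K l k₁)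
      ((((1 - (l : ℝ) / K) * y ^ ((1 - (l : ℝ) / K) - 1) : ℝ) : ℂ) *
        k₁ ((y ^ (-(1 : ℝ) / K) : ℝ) : ℂ) +
      ((y ^ (1 - (l : ℝ) / K) : ℝ) : ℂ) * (deriv k₁ ((y ^ (-(1 : ℝ) / K) : ℝ) : ℂ) *
        (((-(1 : ℝ) / K) * y ^ ((-(1 : ℝ) / K) - 1) : ℝ) : ℂ))) y := h5
  have e4 : (((1 - (l : ℝ) / K) * y ^ ((1 - (l : ℝ) / K) - 1) : ℝ) : ℂ) *
        k₁ ((y ^ (-(1 : ℝ) / K) : ℝ) : ℂ) +
      ((y ^ (1 - (l : ℝ) / K) : ℝ) : ℂ) * (deriv k₁ ((y ^ (-(1 : ℝ) / K) : ℝ) : ℂ) *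
        (((-(1 : ℝ) / K) * y ^ ((-(1 : ℝ) / K) - 1) : ℝ) : ℂ)) =
      ((y ^ (-(l : ℝ) / K) : ℝ) : ℂ) * d1_psi K l k₁ y := by
    rw [e1, Complex.ofReal_mul, Complex.ofReal_mul]
    unfold d1_psi
    have e5 : (((1 - (l : ℝ) / K) : ℝ) : ℂ) = 1 - (l : ℂ) / K := by push_cast; ring
    have e6 : (((-(1 : ℝ) / K) : ℝ) : ℂ) = -(1 / (K : ℂ)) := by push_cast; ring
    rw [e5, e6]
    linear_combination (-(1 / (K : ℂ)) * deriv k₁ ((y ^ (-(1 : ℝ) / K) : ℝ) : ℂ)) * e3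
  rw [← e4]
  exact h6

private theorem d1_lim {K : ℕ} (l : ℕ) (hK : 1 ≤ K) {k₁ : ℂ → ℂ} (hk₁ : AnalyticAt ℂ k₁ 0) :
    Tendsto (d1_psi K l k₁) atTop (𝓝 ((1 - (l : ℂ) / K) * k₁ 0)) := by
  have h1 := hk₁.continuousAt.tendsto.comp (d1_zeta hK)
  have h2 := hk₁.deriv.continuousAt.tendsto.comp (d1_zeta hK)
  have h3 := (h1.const_mul (1 - (l : ℂ) / K)).sub
    (((d1_zeta hK).const_mul (1 / (K : ℂ))).mul h2)
  rw [mul_zero, zero_mul, sub_zero] at h3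
  exact h3

private theorem d1_Xi {K l : ℕ} (hK : 1 ≤ K) {k k₁ : ℂ → ℂ}
    (hk : ∀ᶠ ζ in 𝓝 (0 : ℂ), k ζ = ζ ^ l * k₁ ζ) :
    ∀ᶠ Y : ℝ in atTop, Xi K k Y = d1_phi K l k₁ Y := by
  filter_upwards [(d1_zeta hK).eventually hk, eventually_gt_atTop 0] with Y hY hY0
  have e1 : (Y ^ (-(1 : ℝ) / K)) ^ l * Y = Y ^ (1 - (l : ℝ) / K) := by
    rw [← Real.rpow_natCast, ← Real.rpow_mul hY0.le]
    nth_rewrite 2 [← Real.rpow_one Y]
    rw [← Real.rpow_add hY0]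
    congr 1
    ring
  unfold Xi d1_phi
  rw [hY, ← e1]
  push_cast
  ring

/-- AXG-D1c: asymptotics of differences. Let `k` be analytic at `0` with a zero of exact order `l ≥ 1`,
`l ≠ K`: `k = ζ^l k₁`, `k₁(0) ≠ 0`. Then `Xi K k (Y + g) - Xi K k Y` is nonzero for all large real `Y`
(`g > 0` fixed). Proof. For large `Y > 0`: `φ(Y) = Xi K k Y = Y^(1 - l/K) k₁(Y^(-1/K))`, so
`φ'(Y) = Y^(-l/K) ((1 - l/K) k₁(0) + o(1))`; with `c = (1 - l/K) k₁(0) ≠ 0` we get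
`‖φ(Y+g) - φ(Y) - c ∫_Y^{Y+g} y^(-l/K) dy‖ ≤ (|c|/2) ∫_Y^{Y+g} y^(-l/K) dy` for large `Y`, and the
integral is positive. -/
theorem diff_ne {K l : ℕ} (hK : 1 ≤ K) (hl : 1 ≤ l) (hlK : l ≠ K) {k k₁ : ℂ → ℂ}
    (hk₁ : AnalyticAt ℂ k₁ 0) (hk0 : k₁ 0 ≠ 0) (hk : ∀ᶠ ζ in 𝓝 (0 : ℂ), k ζ = ζ ^ l * k₁ ζ)
    {g : ℝ} (hg : 0 < g) : ∀ᶠ Y : ℝ in atTop, Xi K k (Y + g) - Xi K k Y ≠ 0 := by
  have hK0 : (K : ℂ) ≠ 0 := by exact_mod_cast (by omega : K ≠ 0)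
  set c : ℂ := (1 - (l : ℂ) / K) * k₁ 0 with hc
  have hc0 : c ≠ 0 := by
    refine mul_ne_zero ?_ hk0
    intro e
    have e1 : (l : ℂ) = K := by
      field_simp at e
      linear_combination -e
    exact hlK (by exact_mod_cast e1)
  have hcn : 0 < ‖c‖ := norm_pos_iff.2 hc0
  have hlim : ∀ᶠ y in atTop, ‖d1_psi K l k₁ y - c‖ < ‖c‖ / 2 := by
    have h1 := (tendsto_iff_norm_sub_tendsto_zero.1 (d1_lim l hK hk₁))
    exact h1.eventually (gt_mem_nhds (by positivity))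
  obtain ⟨Y₀, hY₀⟩ := eventually_atTop.1
    ((d1_deriv l hK hk₁).and (hlim.and ((d1_Xi hK hk).and (eventually_gt_atTop (0 : ℝ)))))
  filter_upwards [eventually_ge_atTop Y₀] with Y hY
  -- the real function
  set ρ : ℝ → ℝ := fun y => (starRingEnd ℂ c * d1_phi K l k₁ y).re with hρ
  have hder : ∀ y, Y₀ ≤ y → HasDerivAt ρ
      ((starRingEnd ℂ c * (((y ^ (-(l : ℝ) / K) : ℝ) : ℂ) * d1_psi K l k₁ y)).re) y := by
    intro y hy
    have h1 := (hY₀ y hy).1.const_mul (starRingEnd ℂ c)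
    exact (Complex.reCLM.hasFDerivAt.comp_hasDerivAt y h1)
  have hpos : ∀ y, Y₀ ≤ y →
      0 < (starRingEnd ℂ c * (((y ^ (-(l : ℝ) / K) : ℝ) : ℂ) * d1_psi K l k₁ y)).re := by
    intro y hy
    obtain ⟨-, h2, -, h4⟩ := hY₀ y hy
    have e1 : starRingEnd ℂ c * (((y ^ (-(l : ℝ) / K) : ℝ) : ℂ) * d1_psi K l k₁ y) =
        ((y ^ (-(l : ℝ) / K) : ℝ) : ℂ) * (starRingEnd ℂ c * d1_psi K l k₁ y) := by ring
    rw [e1, Complex.re_ofReal_mul]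
    refine mul_pos (Real.rpow_pos_of_pos h4 _) ?_
    have e2 : starRingEnd ℂ c * d1_psi K l k₁ y =
        starRingEnd ℂ c * c + starRingEnd ℂ c * (d1_psi K l k₁ y - c) := by ring
    have e3 : (starRingEnd ℂ c * c).re = ‖c‖ ^ 2 := by
      rw [mul_comm, Complex.mul_conj, Complex.normSq_eq_norm_sq, Complex.ofReal_re]
    have e4 : |(starRingEnd ℂ c * (d1_psi K l k₁ y - c)).re| ≤ ‖c‖ * (‖c‖ / 2) := by
      refine le_trans (Complex.abs_re_le_norm _) ?_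
      rw [norm_mul, RCLike.norm_conj]
      exact mul_le_mul_of_nonneg_left h2.le hcn.le
    rw [e2, Complex.add_re, e3]
    have e5 := (abs_le.1 e4).1
    nlinarith
  have hmono : StrictMonoOn ρ (Set.Ici Y₀) := by
    refine strictMonoOn_of_deriv_pos (convex_Ici Y₀) ?_ ?_
    · intro y hy
      exact (hder y hy).continuousAt.continuousWithinAt
    · intro y hy
      rw [interior_Ici] at hy
      rw [(hder y (le_of_lt hy)).deriv]
      exact hpos y (le_of_lt hy)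
  have hY2 : Y₀ ≤ Y + g := by linarith
  rw [(hY₀ Y hY).2.2.1, (hY₀ (Y + g) hY2).2.2.1]
  intro e
  have h1 := hmono (Set.mem_Ici.2 hY) (Set.mem_Ici.2 hY2) (by linarith : Y < Y + g)
  have h2 : d1_phi K l k₁ (Y + g) = d1_phi K l k₁ Y := sub_eq_zero.1 e
  rw [hρ] at h1
  simp only [h2] at h1
  exact lt_irrefl _ h1

/-- the differences tend to zero -/
private theorem d1_small {K l : ℕ} (hK : 1 ≤ K) (hl : 1 ≤ l) {k k₁ : ℂ → ℂ}
    (hk₁ : AnalyticAt ℂ k₁ 0) (hk : ∀ᶠ ζ in 𝓝 (0 : ℂ), k ζ = ζ ^ l * k₁ ζ)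
    {g : ℝ} (hg : 0 < g) {ε : ℝ} (hε : 0 < ε) :
    ∀ᶠ Y : ℝ in atTop, ‖Xi K k (Y + g) - Xi K k Y‖ ≤ ε := by
  have h0 : (0 : ℝ) < K := by exact_mod_cast hK
  have h1 : Tendsto (fun y : ℝ => ((y ^ (-(l : ℝ) / K) : ℝ) : ℂ) * d1_psi K l k₁ y) atTop
      (𝓝 0) := by
    have h2 : (0 : ℝ) < l / K := by
      have : (0 : ℝ) < l := by exact_mod_cast hl
      positivity
    have h3 : Tendsto (fun y : ℝ => y ^ (-(l : ℝ) / K)) atTop (𝓝 0) := by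
      have h4 := tendsto_rpow_neg_atTop h2
      rwa [← neg_div] at h4
    have h5 := ((Complex.continuous_ofReal.tendsto 0).comp h3).mul (d1_lim l hK hk₁)
    rw [Complex.ofReal_zero, zero_mul] at h5
    exact h5
  have h2 : ∀ᶠ y in atTop, ‖((y ^ (-(l : ℝ) / K) : ℝ) : ℂ) * d1_psi K l k₁ y‖ < ε / g := by
    have h3 := (tendsto_zero_iff_norm_tendsto_zero.1 h1)
    exact h3.eventually (gt_mem_nhds (by positivity))
  obtain ⟨Y₀, hY₀⟩ := eventually_atTop.1 ((d1_deriv l hK hk₁).and (h2.and (d1_Xi hK hk)))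
  filter_upwards [eventually_ge_atTop Y₀] with Y hY
  have hY2 : Y₀ ≤ Y + g := by linarith
  rw [(hY₀ Y hY).2.2, (hY₀ (Y + g) hY2).2.2]
  have h3 := Convex.norm_image_sub_le_of_norm_hasDerivWithin_le (f := d1_phi K l k₁)
    (f' := fun y => ((y ^ (-(l : ℝ) / K) : ℝ) : ℂ) * d1_psi K l k₁ y) (C := ε / g)
    (s := Set.Ici Y₀) (x := Y) (y := Y + g)
    (fun y hy => (hY₀ y hy).1.hasDerivWithinAt) (fun y hy => (hY₀ y hy).2.1.le)
    (convex_Ici Y₀) (Set.mem_Ici.2 hY) (Set.mem_Ici.2 hY2)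
  refine le_trans h3 (le_of_eq ?_)
  rw [add_sub_cancel_left, Real.norm_eq_abs, abs_of_pos hg]
  field_simp

/-- the decomposition -/
private theorem d1_split {K : ℕ} (hK : 1 ≤ K) {k : ℂ → ℂ} (hk : AnalyticAt ℂ k 0) :
    ∃ c : ℂ, (∀ᶠ ζ in 𝓝 (0 : ℂ), k ζ - k 0 - c * ζ ^ K = 0) ∨
      ∃ (l : ℕ) (k₁ : ℂ → ℂ), 1 ≤ l ∧ l ≠ K ∧ AnalyticAt ℂ k₁ 0 ∧ k₁ 0 ≠ 0 ∧
        ∀ᶠ ζ in 𝓝 (0 : ℂ), k ζ - k 0 - c * ζ ^ K = ζ ^ l * k₁ ζ := by
  have ha : AnalyticAt ℂ (fun ζ => k ζ - k 0) 0 := hk.sub analyticAt_const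
  by_cases hz : ∀ᶠ ζ in 𝓝 (0 : ℂ), k ζ - k 0 = 0
  · refine ⟨0, Or.inl ?_⟩
    filter_upwards [hz] with ζ h
    rw [h]
    ring
  · obtain ⟨l, k₁, h1, h2, h3⟩ := (ha.exists_eventuallyEq_pow_smul_nonzero_iff).2 hz
    have h3' : ∀ᶠ ζ in 𝓝 (0 : ℂ), k ζ - k 0 = ζ ^ l * k₁ ζ := by
      filter_upwards [h3] with ζ h
      rw [h, sub_zero, smul_eq_mul]
    have hl : 1 ≤ l := by
      rcases Nat.eq_zero_or_pos l with rfl | h
      · exfalso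
        have h4 := h3'.self_of_nhds
        rw [sub_self, pow_zero, one_mul] at h4
        exact h2 h4.symm
      · exact h
    by_cases hlK : l = K
    · subst hlK
      refine ⟨k₁ 0, ?_⟩
      have hb : AnalyticAt ℂ (fun ζ => k₁ ζ - k₁ 0) 0 := h1.sub analyticAt_const
      by_cases hz1 : ∀ᶠ ζ in 𝓝 (0 : ℂ), k₁ ζ - k₁ 0 = 0
      · left
        filter_upwards [h3', hz1] with ζ h4 h5
        rw [h4]
        linear_combination ζ ^ l * h5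
      · right
        obtain ⟨m, k₂, h4, h5, h6⟩ := (hb.exists_eventuallyEq_pow_smul_nonzero_iff).2 hz1
        have hm : 1 ≤ m := by
          rcases Nat.eq_zero_or_pos m with rfl | h
          · exfalso
            have h7 := h6.self_of_nhds
            rw [sub_self, pow_zero, one_smul] at h7
            exact h5 h7.symm
          · exact h
        refine ⟨l + m, k₂, by omega, by omega, h4, h5, ?_⟩
        filter_upwards [h3', h6] with ζ h7 h8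
        rw [sub_zero, smul_eq_mul] at h8
        rw [h7, pow_add]
        linear_combination ζ ^ l * h8
    · refine ⟨0, Or.inr ⟨l, k₁, hl, hlK, h1, h2, ?_⟩⟩
      filter_upwards [h3'] with ζ h4
      rw [h4]
      ring

/-- two integers at distance less than one are equal -/
private theorem d1_int {a b : ℤ} (h : ‖(a : ℂ) - b‖ < 1) : a = b := by
  have h1 : ‖(((a - b : ℤ) : ℂ))‖ < 1 := by
    push_cast
    exact h
  rw [Complex.norm_intCast] at h1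
  have h2 : |a - b| < 1 := by exact_mod_cast h1
  have h3 := Int.abs_lt_one_iff.1 h2
  omega

/-- AXG-D1d: the window lemma. Proof. Let `c₀ = k 0` and `c_K` the `K`-th Taylor coefficient of `k`,
`k₂ = k - c₀ - c_K ζ^K`. `Xi K k Y = c₀ Y + c_K + Xi K k₂ Y` for `Y > 0`. The difference
`Xi K k (Y + g) - Xi K k Y` tends to `c₀ g` as `Y → ∞` (its derivative tends to `c₀`, or: `k₂(ζ) = O(ζ)`
and the mean value estimate as in D1c). It is an integer for infinitely many `Y = τ + n`; so `c₀ g` is a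
limit of integers, hence an integer `M`, and the difference is `M` for infinitely many `n` (all large `n` of
the sequence). If `k₂` is not identically zero near `0`, it has a zero of exact order `l ≥ 1`, `l ≠ K`
(its coefficients of index `0` and `K` vanish) and D1c says that
`Xi K k₂ (Y+g) - Xi K k₂ Y = (difference) - c₀ g ≠ 0` for all large `Y`: contradiction. So `k₂ = 0` near
`0` and `g k(ζ)/ζ^K = M/ζ^K + g c_K`. -/
theorem window {K : ℕ} (hK : 1 ≤ K) {k : ℂ → ℂ} (hk : AnalyticAt ℂ k 0) (τ : ℝ) {g : ℕ} (hg : 1 ≤ g)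
    (hinf : ∃ᶠ n : ℕ in atTop, (∃ a : ℤ, Xi K k (τ + n) = a) ∧ (∃ b : ℤ, Xi K k (τ + n + g) = b)) :
    ∃ (M : ℤ) (c : ℂ), (g : ℂ) * k 0 = M ∧
      ∀ᶠ ζ in 𝓝[≠] (0 : ℂ), (g : ℂ) * (k ζ / ζ ^ K) = M * (1 / ζ ^ K) + c := by
  have hgp : (0 : ℝ) < g := by exact_mod_cast hg
  have hτ : Tendsto (fun n : ℕ => τ + n) atTop (atTop : Filter ℝ) :=
    tendsto_atTop_add_const_left _ _ tendsto_natCast_atTop_atTop
  obtain ⟨c, hc⟩ := d1_split hK hk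
  -- the difference
  set k₂ : ℂ → ℂ := fun ζ => k ζ - k 0 - c * ζ ^ K with hk₂
  set δ : ℝ → ℂ := fun Y => Xi K k₂ (Y + g) - Xi K k₂ Y with hδ
  have hXi : ∀ Y : ℝ, 0 < Y → Xi K k Y = k 0 * Y + c + Xi K k₂ Y := by
    intro Y hY
    have e1 : (Y ^ (-(1 : ℝ) / K)) ^ K * Y = 1 := by
      rw [← Real.rpow_natCast, ← Real.rpow_mul hY.le]
      have e2 : -(1 : ℝ) / K * (K : ℝ) = -1 := by
        have : (K : ℝ) ≠ 0 := by exact_mod_cast (by omega : K ≠ 0)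
        field_simp
      rw [e2, Real.rpow_neg_one, inv_mul_cancel₀ hY.ne']
    have e3 : ((Y ^ (-(1 : ℝ) / K) : ℝ) : ℂ) ^ K * (Y : ℂ) = 1 := by
      rw [← Complex.ofReal_pow, ← Complex.ofReal_mul, e1, Complex.ofReal_one]
    unfold Xi
    simp only [hk₂]
    linear_combination c * e3
  have hdif : ∀ Y : ℝ, 0 < Y → Xi K k (Y + g) - Xi K k Y = (g : ℂ) * k 0 + δ Y := by
    intro Y hY
    rw [hXi Y hY, hXi (Y + g) (by linarith), hδ]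
    push_cast
    ring
  have hsmall : ∀ ε : ℝ, 0 < ε → ∀ᶠ Y : ℝ in atTop, ‖δ Y‖ ≤ ε := by
    intro ε hε
    rcases hc with hc | ⟨l, k₁, hl, hlK, h1, h2, h3⟩
    · filter_upwards [(d1_zeta hK).eventually hc,
        (tendsto_atTop_add_const_right atTop (g : ℝ) tendsto_id).eventually
          ((d1_zeta hK).eventually hc)] with Y h4 h5
      have h6 : δ Y = 0 := by
        rw [hδ]
        unfold Xi
        simp only [hk₂]
        have h5' : k (((Y + g) ^ (-(1 : ℝ) / K) : ℝ) : ℂ) - k 0 -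
          c * (((Y + g) ^ (-(1 : ℝ) / K) : ℝ) : ℂ) ^ K = 0 := h5
        rw [h4, h5', zero_mul, zero_mul, sub_zero]
      rw [h6, norm_zero]
      exact hε.le
    · exact d1_small hK hl h1 h3 hgp hε
  -- the integers
  have hint : ∀ n : ℕ, 0 < τ + n → ((∃ a : ℤ, Xi K k (τ + n) = a) ∧
      (∃ b : ℤ, Xi K k (τ + n + g) = b)) → ∃ m : ℤ, (m : ℂ) = (g : ℂ) * k 0 + δ (τ + n) := by
    rintro n hn ⟨⟨a, ha⟩, b, hb⟩
    refine ⟨b - a, ?_⟩
    rw [← hdif _ hn, ha, hb]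
    push_cast
    ring
  have hpos : ∀ᶠ n : ℕ in atTop, 0 < τ + (n : ℝ) := hτ.eventually (eventually_gt_atTop 0)
  obtain ⟨n₁, hn₁, hn₁s, hn₁p⟩ :=
    (hinf.and_eventually ((hτ.eventually (hsmall (1 / 4) (by norm_num))).and hpos)).exists
  obtain ⟨M, hM⟩ := hint n₁ hn₁p hn₁
  have heqM : ∀ n : ℕ, 0 < τ + n → ‖δ (τ + n)‖ ≤ 1 / 4 → ∀ m : ℤ,
      (m : ℂ) = (g : ℂ) * k 0 + δ (τ + n) → m = M := by
    intro n hn hs m hm
    apply d1_int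
    rw [hm, hM]
    have e : (g : ℂ) * k 0 + δ (τ + n) - ((g : ℂ) * k 0 + δ (τ + n₁)) =
      δ (τ + n) - δ (τ + n₁) := by ring
    rw [e]
    have := norm_sub_le (δ (τ + n)) (δ (τ + n₁))
    linarith
  have hgk : (g : ℂ) * k 0 = M := by
    by_contra hne
    have hη : 0 < ‖(g : ℂ) * k 0 - M‖ := norm_pos_iff.2 (sub_ne_zero.2 hne)
    obtain ⟨n, hn, ⟨hs1, hs2⟩, hnp⟩ :=
      (hinf.and_eventually (((hτ.eventually (hsmall (1 / 4) (by norm_num))).and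
        (hτ.eventually (hsmall (‖(g : ℂ) * k 0 - M‖ / 2) (by positivity)))).and hpos)).exists
    obtain ⟨m, hm⟩ := hint n hnp hn
    have h1 := heqM n hnp hs1 m hm
    rw [h1] at hm
    have h2 : δ (τ + n) = -((g : ℂ) * k 0 - M) := by rw [hm]; ring
    rw [h2, norm_neg] at hs2
    linarith
  have hzero : ∀ᶠ ζ in 𝓝 (0 : ℂ), k ζ - k 0 - c * ζ ^ K = 0 := by
    rcases hc with hc | ⟨l, k₁, hl, hlK, h1, h2, h3⟩
    · exact hc
    · exfalso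
      have h4 := diff_ne hK hl hlK h1 h2 h3 hgp
      obtain ⟨n, hn, ⟨hs1, hs2⟩, hnp⟩ :=
        (hinf.and_eventually (((hτ.eventually (hsmall (1 / 4) (by norm_num))).and
          (hτ.eventually h4)).and hpos)).exists
      obtain ⟨m, hm⟩ := hint n hnp hn
      have h5 := heqM n hnp hs1 m hm
      rw [h5, hgk] at hm
      exact hs2 (by
        have h6 : δ (τ + n) = 0 := by linear_combination -hm
        exact h6)
  refine ⟨M, g * c, hgk, ?_⟩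
  filter_upwards [hzero.filter_mono nhdsWithin_le_nhds, self_mem_nhdsWithin] with ζ h1 h2
  have h3 : ζ ≠ 0 := h2
  have h4 : k ζ = k 0 + c * ζ ^ K := by linear_combination h1
  rw [h4, ← hgk]
  field_simp

end Pool.Agent.Helper94.AXG
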