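import Pool.Agent.Helper94.AXG.D1
import Pool.Agent.Helper94.AXG.D1B

/-! # AXG-D2: the sum over one class -/

namespace Pool.Agent.Helper94.AXG

open Complex Filter Topology

private lemma d2_pow {K : ℕ} (hK : 1 ≤ K) {Y : ℝ} (hY : 0 < Y) :
    (((Y ^ (-(1 : ℝ) / K) : ℝ) : ℂ)) ^ K = ((Y⁻¹ : ℝ) : ℂ) := by
  have hK0 : (K : ℝ) ≠ 0 := Nat.cast_ne_zero.2 (by omega)
  rw [← Complex.ofReal_pow, ← Real.rpow_natCast, ← Real.rpow_mul hY.le, div_mul_cancel₀ _ hK0,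
    Real.rpow_neg_one]

private lemma d2_tend {K : ℕ} (hK : 1 ≤ K) (τ : ℝ) :
    Tendsto (fun n : ℕ => (((τ + n) ^ (-(1 : ℝ) / K) : ℝ) : ℂ)) atTop (𝓝[≠] (0 : ℂ)) := by
  have hK0 : (0 : ℝ) < K := Nat.cast_pos.2 (by omega)
  have h1 : Tendsto (fun n : ℕ => τ + (n : ℝ)) atTop atTop :=
    tendsto_atTop_add_const_left _ τ tendsto_natCast_atTop_atTop
  have h2 : Tendsto (fun n : ℕ => (τ + n) ^ (-(1 : ℝ) / K)) atTop (𝓝 0) := by
    have h3 := (tendsto_rpow_neg_atTop (y := 1 / (K : ℝ)) (by positivity)).comp h1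
    refine h3.congr fun n => ?_
    simp only [Function.comp_apply, neg_div]
  rw [tendsto_nhdsWithin_iff]
  refine ⟨?_, ?_⟩
  · have h3 := (Complex.continuous_ofReal.tendsto 0).comp h2
    rw [Complex.ofReal_zero] at h3
    exact h3
  · filter_upwards [h1.eventually_gt_atTop 0] with n hn
    rw [Set.mem_compl_iff, Set.mem_singleton_iff, Complex.ofReal_eq_zero]
    exact (Real.rpow_pos_of_pos hn _).ne'

private lemma d2_push {ψ : ℂ → ℂ} (hψ : AnalyticAt ℂ ψ 0) (h0 : ψ 0 = 0) (h1 : deriv ψ 0 ≠ 0)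
    {P : ℂ → Prop} (h : ∀ᶠ ζ in 𝓝[≠] (0 : ℂ), P (ψ ζ)) : ∀ᶠ s in 𝓝[≠] (0 : ℂ), P s := by
  have h2 : HasStrictDerivAt ψ (deriv ψ 0) 0 := hψ.hasStrictDerivAt
  have h3 := h2.map_nhds_eq h1
  rw [h0] at h3
  rw [eventually_nhdsWithin_iff] at h ⊢
  rw [← h3, eventually_map]
  filter_upwards [h] with ζ hζ hne
  apply hζ
  intro h4
  rw [Set.mem_singleton_iff] at h4
  apply hne
  rw [h4, h0]
  rfl

/-- among `card T + 1` consecutive numbers there is one which no `i` hits -/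
private lemma d2_window {T : Type} [Fintype T] (B : T → ℕ → Prop) (n₀ : ℕ)
    (h : ∀ n, n₀ ≤ n → ∀ i, ∀ g ∈ Finset.Icc 1 (Fintype.card T), ¬ (B i n ∧ B i (n + g))) :
    ∃ n, n₀ ≤ n ∧ ∀ i, ¬ B i n := by
  by_contra hcon
  push Not at hcon
  obtain ⟨i₁, -⟩ := hcon n₀ le_rfl
  haveI : Nonempty T := ⟨i₁⟩
  choose! f hf using hcon
  obtain ⟨x, y, hxy, he⟩ := Fintype.exists_ne_map_eq_of_card_lt
    (fun r : Fin (Fintype.card T + 1) => f (n₀ + r.val)) (by rw [Fintype.card_fin]; omega)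
  have key : ∀ x y : Fin (Fintype.card T + 1), x < y → f (n₀ + x.val) ≠ f (n₀ + y.val) := by
    intro x y hlt he
    have hlt' : x.val < y.val := hlt
    have hy := y.isLt
    refine h (n₀ + x.val) (by omega) (f (n₀ + x.val)) (y.val - x.val)
      (Finset.mem_Icc.2 ⟨by omega, by omega⟩) ⟨hf _ (by omega), ?_⟩
    have h2 : n₀ + x.val + (y.val - x.val) = n₀ + y.val := by omega
    rw [h2, he]
    exact hf _ (by omega)
  rcases lt_or_gt_of_ne hxy with hlt | hlt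
  · exact key x y hlt he
  · exact key y x hlt he.symm

private lemma d2_sgr {L : ℕ} (hL : 1 ≤ L) {N : ℤ} (hN : N ≠ 0) {ω : ℂ} (hω : ω ≠ 0) :
    sgr (N * (ω / L) / ω) = N.sign := by
  have hL0 : (L : ℂ) ≠ 0 := Nat.cast_ne_zero.2 (by omega)
  have hLp : (0 : ℝ) < L := Nat.cast_pos.2 (by omega)
  have h1 : (N * (ω / L) / ω : ℂ) = ((N / L : ℝ) : ℂ) := by
    push_cast
    field_simp
  rw [h1, sgr, Complex.ofReal_im, if_pos rfl, Complex.ofReal_re]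
  rcases lt_or_gt_of_ne hN with h | h
  · have h2 : ((N : ℝ) / L) < 0 := div_neg_of_neg_of_pos (by exact_mod_cast h) hLp
    rw [if_neg (not_lt.2 h2.le), Int.sign_eq_neg_one_of_neg h]
  · have h2 : 0 < ((N : ℝ) / L) := div_pos (by exact_mod_cast h) hLp
    rw [if_pos h2, Int.sign_eq_one_of_pos h]

/-- the leading coefficients in the class -/
private lemma d2_lead {K : ℕ} (hK : 1 ≤ K) {ξ ξ₀ h h₀ : ℂ → ℂ} (hξ : Pl K ξ h) (hξ₀ : Pl K ξ₀ h₀)
    {N b L : ℂ} (hC : ∀ᶠ s in 𝓝[≠] (0 : ℂ), ξ s = N * (ξ₀ s / L) + b) :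
    h 0 = N * (h₀ 0 / L) := by
  have h1 : ∀ᶠ s in 𝓝[≠] (0 : ℂ), h s = N * (h₀ s / L) + b * s ^ K := by
    filter_upwards [hC, hξ.2.2, hξ₀.2.2, self_mem_nhdsWithin] with s e1 e2 e3 hs
    have hs0 : s ≠ 0 := hs
    have hsK : s ^ K ≠ 0 := pow_ne_zero _ hs0
    rw [e2, e3, div_eq_iff hsK] at e1
    rw [e1, add_mul]
    congr 1
    have e4 : h₀ s / s ^ K / L * s ^ K = h₀ s / L := by
      rw [div_right_comm, div_mul_cancel₀ _ hsK]
    rw [mul_assoc, e4]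
  have h2 : Tendsto h (𝓝[≠] (0 : ℂ)) (𝓝 (h 0)) :=
    hξ.1.continuousAt.tendsto.mono_left nhdsWithin_le_nhds
  have h3 : Tendsto (fun s => N * (h₀ s / L) + b * s ^ K) (𝓝[≠] (0 : ℂ))
      (𝓝 (N * (h₀ 0 / L) + b * 0 ^ K)) := by
    have hc : ContinuousAt (fun s => N * (h₀ s / L) + b * s ^ K) 0 :=
      ((hξ₀.1.continuousAt.div_const L).const_mul N).add
        ((continuousAt_id.pow K).const_mul b)
    exact hc.tendsto.mono_left nhdsWithin_le_nhds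
  have h4 := tendsto_nhds_unique (h2.congr' h1) h3
  rw [zero_pow (by omega), mul_zero, add_zero] at h4
  exact h4

open scoped Classical in
/-- AXG-D2. `C` is the class of `i₀`: for `i ∈ C` one has `ξ_i = N_i y + b_i`, `y = ξ_{i₀}/L`, and for
`i ∉ C` no relation `M ξ_{i₀} - M' ξ_i = const` with nonzero integers `M, M'`.
Proof. Let `ω = h i₀ 0`. `y` has the pole `(h i₀ / L) / s^K`; take `ψ` from `coord` with `y(ψ ζ) = ζ^{-K}`, and
for every `i` `k_i` from `coord_pole` (`ξ_i(ψ ζ) = k_i ζ / ζ^K`). Let `i ∉ C` with `sgr (h i 0/ω) ≠ 0` and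
`1 ≤ g ≤ card T`. If for infinitely many `n : ℕ` both `Xi K k_i (τ+n)` and `Xi K k_i (τ+n+g)` are integers,
`window` gives `g ξ_i(ψ ζ) = M y(ψ ζ) + c`, `M = g k_i(0) ≠ 0`, hence `g ξ_i = (M/L) ξ_{i₀} + c` near `0`
(`ψ` is a local homeomorphism, open at `0`), i.e. `M ξ_{i₀} - g L ξ_i = -cL`, contradiction. So for all
large `n` and all such `i`, `g` at most one of them is an integer. Take `n₀` so large that moreover for
`n ≥ n₀` the point `s_n = ψ(ζ_n)`, `ζ_n = (τ+n)^(-1/K)`, lies in the small punctured disc where everything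
holds; `ξ_i(s_n) = Xi K k_i (τ+n)`. The window `n₀, …, n₀ + card T` has `card T + 1` elements and every bad
`i ∉ C` hits it at most once; so there is `n` in the window which no `i ∉ C` with `sgr ≠ 0` hits. The
hypothesis `hm` for `ω` at `s_n` is then a sum over `i ∈ C`; there `ξ_i(s_n) = N_i (τ+n) + b_i` is an integer
iff `N_i τ + b_i` is, and `sgr (h i 0 / ω) = sign N_i` because `h i 0 = N_i ω / L`. -/
theorem class_sum {T : Type} [Fintype T] [DecidableEq T] {K : ℕ} (hK : 1 ≤ K) (ξ h : T → ℂ → ℂ)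
    (hξ : ∀ i, Pl K (ξ i) (h i)) (m : T → ℤ)
    (hm : ∀ ω : ℂ, ω ≠ 0 → ∀ᶠ s in 𝓝[≠] (0 : ℂ),
      ∑ i, (if (∃ n : ℤ, ξ i s = n) then sgr (h i 0 / ω) * m i else 0) = 0)
    (i₀ : T) (L : ℕ) (hL : 1 ≤ L) (C : Finset T) (N : T → ℤ) (b : T → ℚ)
    (hN : ∀ i ∈ C, N i ≠ 0)
    (hC : ∀ i ∈ C, ∀ᶠ s in 𝓝[≠] (0 : ℂ), ξ i s = N i * (ξ i₀ s / L) + (b i : ℂ))
    (hC' : ∀ i, i ∉ C → ¬ ∃ (M M' : ℤ) (c : ℂ), M ≠ 0 ∧ M' ≠ 0 ∧
      ∀ᶠ s in 𝓝[≠] (0 : ℂ), M * ξ i₀ s - M' * ξ i s = c)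
    (τ : ℚ) :
    ∑ i ∈ C, (if (∃ z : ℤ, N i * τ + b i = z) then (N i).sign * m i else 0) = 0 := by
  have hω : h i₀ 0 ≠ 0 := (hξ i₀).2.1
  have hL' : (L : ℂ) ≠ 0 := Nat.cast_ne_zero.2 (by omega)
  have hy : Pl K (fun s => ξ i₀ s / L) (fun s => h i₀ s / L) := by
    refine ⟨(hξ i₀).1.div analyticAt_const hL', div_ne_zero hω hL', ?_⟩
    filter_upwards [(hξ i₀).2.2] with s hs
    rw [hs, div_right_comm]
  obtain ⟨ψ, hψ, hψ0, hψ1, hyψ⟩ := coord hK hy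
  choose k hk hk0 hkψ using fun i => coord_pole hK (hξ i) hψ hψ0 hψ1
  have hbad : ∀ i, i ∉ C → ∀ g : ℕ, 1 ≤ g → ∀ᶠ n : ℕ in atTop,
      ¬ ((∃ a : ℤ, Xi K (k i) ((τ : ℝ) + n) = a) ∧
        (∃ b : ℤ, Xi K (k i) ((τ : ℝ) + n + g) = b)) := by
    intro i hi g hg
    by_contra hcon
    obtain ⟨M, c, hM, hwin⟩ := window hK (hk i) (τ : ℝ) hg hcon
    have hg0 : (g : ℂ) ≠ 0 := Nat.cast_ne_zero.2 (by omega)
    have hMne : M ≠ 0 := by
      rintro rfl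
      rw [Int.cast_zero] at hM
      rcases mul_eq_zero.1 hM with h2 | h2
      · exact hg0 h2
      · rw [hk0 i] at h2
        exact div_ne_zero (hξ i).2.1 (pow_ne_zero _ hψ1) h2
    apply hC' i hi
    refine ⟨M, (g * L : ℕ), -(c * L), hMne, ?_, ?_⟩
    · exact_mod_cast Nat.mul_ne_zero (by omega) (by omega)
    · refine d2_push hψ hψ0 hψ1 ?_
      filter_upwards [hwin, hkψ i, hyψ] with ζ e1 e2 e3
      have e4 := e3.2
      rw [← e2, ← e4] at e1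
      have e5 : M * (ξ i₀ (ψ ζ)) = M * (ξ i₀ (ψ ζ) / L) * L := by
        rw [mul_assoc, div_mul_cancel₀ _ hL']
      have e6 : (M : ℂ) * (ξ i₀ (ψ ζ) / L) = g * ξ i (ψ ζ) - c := by
        rw [e1]
        ring
      rw [e5, e6]
      push_cast
      ring
  obtain ⟨z, hz⟩ : ∃ z : ℕ → ℂ, z = fun n : ℕ => ((((τ : ℝ) + n) ^ (-(1 : ℝ) / K) : ℝ) : ℂ) :=
    ⟨_, rfl⟩
  have hzt : Tendsto z atTop (𝓝[≠] (0 : ℂ)) := hz ▸ d2_tend hK (τ : ℝ)
  have hpos : ∀ᶠ n : ℕ in atTop, 0 < (τ : ℝ) + n :=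
    (tendsto_atTop_add_const_left _ (τ : ℝ) tendsto_natCast_atTop_atTop).eventually_gt_atTop 0
  have hψt : Tendsto ψ (𝓝[≠] (0 : ℂ)) (𝓝[≠] (0 : ℂ)) := by
    rw [tendsto_nhdsWithin_iff]
    refine ⟨?_, ?_⟩
    · have h2 := hψ.continuousAt.tendsto
      rw [hψ0] at h2
      exact h2.mono_left nhdsWithin_le_nhds
    · filter_upwards [hyψ] with ζ hζ
      exact hζ.1
  have hst : Tendsto (fun n => ψ (z n)) atTop (𝓝[≠] (0 : ℂ)) := hψt.comp hzt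
  have hE : ∀ᶠ n : ℕ in atTop, ∀ i, ξ i (ψ (z n)) = Xi K (k i) ((τ : ℝ) + n) := by
    rw [eventually_all]
    intro i
    filter_upwards [hzt.eventually (hkψ i), hpos] with n e1 e2
    have e3 := d2_pow hK e2
    rw [e1, Xi, hz]
    simp only
    rw [e3, Complex.ofReal_inv, div_inv_eq_mul]
  have hB : ∀ᶠ n : ℕ in atTop, ∀ i, i ∉ C → ∀ g ∈ Finset.Icc 1 (Fintype.card T),
      ¬ ((∃ a : ℤ, Xi K (k i) ((τ : ℝ) + n) = a) ∧
        (∃ b : ℤ, Xi K (k i) ((τ : ℝ) + n + g) = b)) := by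
    rw [eventually_all]
    intro i
    by_cases hi : i ∈ C
    · exact Eventually.of_forall fun n hcon => absurd hi hcon
    · have h2 : ∀ᶠ n : ℕ in atTop, ∀ g ∈ Finset.Icc 1 (Fintype.card T),
          ¬ ((∃ a : ℤ, Xi K (k i) ((τ : ℝ) + n) = a) ∧
            (∃ b : ℤ, Xi K (k i) ((τ : ℝ) + n + g) = b)) := by
        rw [eventually_all_finset]
        intro g hg
        exact hbad i hi g (Finset.mem_Icc.1 hg).1
      filter_upwards [h2] with n hn _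
      exact hn
  have hY : ∀ᶠ n : ℕ in atTop, ξ i₀ (ψ (z n)) / L = ((τ : ℝ) : ℂ) + n := by
    filter_upwards [hzt.eventually hyψ, hpos] with n e1 e2
    have e3 := d2_pow hK e2
    rw [e1.2, hz]
    simp only
    rw [e3, Complex.ofReal_inv, one_div, inv_inv, Complex.ofReal_add, Complex.ofReal_natCast]
  have hCn : ∀ᶠ n : ℕ in atTop, ∀ i ∈ C,
      ξ i (ψ (z n)) = N i * (ξ i₀ (ψ (z n)) / L) + (b i : ℂ) := by
    rw [eventually_all_finset]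
    intro i hi
    exact hst.eventually (hC i hi)
  have hMn := hst.eventually (hm (h i₀ 0) hω)
  obtain ⟨n₀, hn₀⟩ := eventually_atTop.1 (hE.and (hB.and (hY.and (hCn.and hMn))))
  obtain ⟨n, hn, hgood⟩ := d2_window
    (fun i n => i ∉ C ∧ ∃ a : ℤ, Xi K (k i) ((τ : ℝ) + n) = a) n₀ (by
      intro n hn i g hg hcon
      obtain ⟨⟨hi, h1⟩, ⟨_, h2⟩⟩ := hcon
      refine (hn₀ n hn).2.1 i hi g hg ⟨h1, ?_⟩
      obtain ⟨a, ha⟩ := h2
      refine ⟨a, ?_⟩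
      rw [← ha, Nat.cast_add, add_assoc])
  obtain ⟨f1, -, f3, f4, f5⟩ := hn₀ n hn
  have hsub : ∑ i ∈ C, (if (∃ n' : ℤ, ξ i (ψ (z n)) = n') then sgr (h i 0 / h i₀ 0) * m i else 0) =
      ∑ i, (if (∃ n' : ℤ, ξ i (ψ (z n)) = n') then sgr (h i 0 / h i₀ 0) * m i else 0) := by
    refine Finset.sum_subset (Finset.subset_univ C) fun i _ hi => ?_
    rw [if_neg]
    rintro ⟨a, ha⟩
    exact hgood i ⟨hi, a, by rw [← f1 i, ha]⟩
  rw [← hsub] at f5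
  refine Eq.trans (Finset.sum_congr rfl fun i hi => ?_) f5
  have hlead := d2_lead hK (hξ i) (hξ i₀) (hC i hi)
  have hsg : sgr (h i 0 / h i₀ 0) = (N i).sign := by
    rw [hlead]
    exact d2_sgr hL (hN i hi) hω
  rw [hsg]
  have hiff : (∃ z : ℤ, (N i : ℚ) * τ + b i = z) ↔ ∃ n' : ℤ, ξ i (ψ (z n)) = n' := by
    rw [f4 i hi, f3]
    constructor
    · rintro ⟨a, ha⟩
      refine ⟨a + N i * n, ?_⟩
      have hc : ((N i : ℂ)) * ((τ : ℝ) : ℂ) + (b i : ℂ) = (a : ℂ) := by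
        rw [Complex.ofReal_ratCast]
        exact_mod_cast congrArg (fun q : ℚ => (q : ℂ)) ha
      push_cast
      rw [← hc]
      push_cast
      ring
    · rintro ⟨a, ha⟩
      refine ⟨a - N i * n, ?_⟩
      have hc : ((N i : ℂ)) * (τ : ℂ) + (b i : ℂ) = (a : ℂ) - N i * n := by
        rw [← ha, Complex.ofReal_ratCast]
        ring
      have hc2 : (((N i : ℚ) * τ + b i : ℚ) : ℂ) = (((a - N i * n : ℤ) : ℚ) : ℂ) := by
        push_cast
        exact hc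
      exact_mod_cast hc2
  by_cases hcase : ∃ z : ℤ, (N i : ℚ) * τ + b i = z
  · rw [if_pos hcase, if_pos (hiff.1 hcase)]
  · rw [if_neg hcase, if_neg (fun h' => hcase (hiff.2 h'))]

end Pool.Agent.Helper94.AXG
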