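import Pool.Agent.Helper94.AXG.Y1

/-! # AXG-Y2 -/

namespace Pool.Agent.Helper94.AXG

open MvPolynomial

/-- AXG-Y2a. Proof. `MvPolynomial.optionEquivRight ℤ σ` maps `P` to a nonzero polynomial `R` over `ℤ[X]`, and
`piSub P` is the image of `R` under `MvPolynomial.map (Polynomial.aeval π)`, which is injective
(`MvPolynomial.map_injective` and `pi_transc`). (Compare the two algebra homomorphisms on the variables:
`MvPolynomial.algHom_ext`, `optionEquivRight_X_some`, `optionEquivRight_X_none`.) -/
theorem piSub_ne {σ : Type} {P : MvPolynomial (Option σ) ℤ} (hP : P ≠ 0) : piSub P ≠ 0 := by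
  set f : Polynomial ℤ →+* ℂ := (Polynomial.aeval (Real.pi : ℂ) : Polynomial ℤ →ₐ[ℤ] ℂ).toRingHom with hf
  have hinj : Function.Injective f := by
    rw [injective_iff_map_eq_zero]
    intro p hp
    by_contra h
    exact pi_transc p h hp
  have key : piSub P = MvPolynomial.map f (optionEquivRight ℤ σ P) := by
    have h : (aeval (fun o : Option σ => (o.elim (C (Real.pi : ℂ)) X : MvPolynomial σ ℂ))).toRingHom
        = (MvPolynomial.map f).comp (optionEquivRight ℤ σ).toRingEquiv.toRingHom := by
      apply MvPolynomial.ringHom_ext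
      · intro r
        simp
      · intro o
        cases o with
        | none => simp [hf]
        | some i => simp
    exact congrArg (fun g : MvPolynomial (Option σ) ℤ →+* MvPolynomial σ ℂ => g P) h
  rw [key]
  intro h0
  have := MvPolynomial.map_injective f hinj (h0.trans (map_zero _).symm)
  exact hP ((optionEquivRight ℤ σ).injective (this.trans (map_zero _).symm))

/-- AXG-Y2b: the image of a monomial of degree `m` is a constant times a monomial of degree `≤ m` -/
theorem piSub_deg {σ : Type} (P : MvPolynomial (Option σ) ℤ) : (piSub P).totalDegree ≤ P.totalDegree := by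
  unfold piSub
  rw [aeval_def, eval₂_eq]
  refine (totalDegree_finsetSum _ _).trans ?_
  refine Finset.sup_le fun ν hν => ?_
  have h1 : ((∏ i ∈ ν.support, (i.elim (C (Real.pi : ℂ)) X : MvPolynomial σ ℂ) ^ ν i)).totalDegree
      ≤ ν.support.sum fun i => ν i := by
    refine (totalDegree_finsetProd _ _).trans ?_
    refine Finset.sum_le_sum fun i _ => ?_
    refine (totalDegree_pow _ _).trans ?_
    have : (i.elim (C (Real.pi : ℂ)) X : MvPolynomial σ ℂ).totalDegree ≤ 1 := by
      cases i with
      | none => simp
      | some j => simp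
    nlinarith [Nat.zero_le (ν i)]
  have h2 : (ν.support.sum fun i => ν i) ≤ P.totalDegree := by
    have := le_totalDegree hν
    simpa [Finsupp.sum] using this
  refine (totalDegree_mul _ _).trans ?_
  have h3 : ((algebraMap ℤ (MvPolynomial σ ℂ)) (coeff ν P)).totalDegree = 0 := by
    have : (algebraMap ℤ (MvPolynomial σ ℂ)) (coeff ν P) = C ((coeff ν P : ℤ) : ℂ) := by simp
    rw [this, totalDegree_C]
  rw [h3, zero_add]
  exact h1.trans h2

/-- AXG-Y2c: values -/
theorem eval_piSub {k q : ℕ} (a : Fin k → ℕ) (P : MvPolynomial (Option (Fin k)) ℤ) :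
    eval (Gv ((q, a) : Pt k)) (piSub P) = aeval (vl q a) P := by
  have h : (eval (Gv ((q, a) : Pt k))).comp
      (aeval (fun o : Option (Fin k) => (o.elim (C (Real.pi : ℂ)) X : MvPolynomial (Fin k) ℂ)) :
        MvPolynomial (Option (Fin k)) ℤ →ₐ[ℤ] MvPolynomial (Fin k) ℂ).toRingHom
      = (aeval (vl q a) : MvPolynomial (Option (Fin k)) ℤ →ₐ[ℤ] ℂ).toRingHom := by
    apply MvPolynomial.ringHom_ext
    · intro r
      simp
    · intro o
      cases o with
      | none => simp [vl]
      | some i => simp [vl, Gv]
  exact congrArg (fun g : MvPolynomial (Option (Fin k)) ℤ →+* ℂ => g P) h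

end Pool.Agent.Helper94.AXG
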