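import Pool.Agent.Helper94.AXG.Defs

/-! # AXG-A1 -/

namespace Pool.Agent.Helper94.AXG

open Complex

/-- AXG-A1a: `|Γ(s)| ≤ Γ(Re s)` for `Re s > 0`. Proof: the integral representation
`Complex.Gamma_eq_integral`, `‖t^(s-1)‖ = t^(Re s - 1)` and `norm_integral_le_integral_norm`. -/
theorem norm_Gamma_le_re {s : ℂ} (hs : 0 < s.re) : ‖Gamma s‖ ≤ Real.Gamma s.re := by
  rw [Complex.Gamma_eq_integral hs, Real.Gamma_eq_integral hs]
  unfold Complex.GammaIntegral
  refine (MeasureTheory.norm_integral_le_integral_norm _).trans (le_of_eq ?_)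
  refine MeasureTheory.setIntegral_congr_fun measurableSet_Ioi fun x hx => ?_
  have hx0 : (0 : ℝ) < x := hx
  rw [norm_mul, Complex.norm_cpow_eq_rpow_re_of_pos hx0, Complex.norm_real, Real.norm_eq_abs,
    abs_of_pos (Real.exp_pos _), sub_re, one_re]

/-- AXG-A1b: a lower bound of `|Γ|` to the right of `Re y = 1`.
Proof. First `1 ≤ Re y ≤ 2`. If `|Im y| ≤ 1`: `U` is continuous (`differentiable_one_div_Gamma`), so it is
bounded on the compact rectangle. If `|Im y| ≥ 1`: by the reflection formula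
`Γ(y) Γ(1-y) = π / sin (π y)` we have `U(y) = Γ(1-y) sin(π y) / π`, and
`Γ(1-y) = Γ(3-y) / ((1-y)(2-y))` with `|Γ(3-y)| ≤ Γ(3 - Re y)` (A1a), which is bounded for
`3 - Re y ∈ [1,2]`, and `|1-y|, |2-y| ≥ |Im y| ≥ 1`; finally `|sin (π y)| ≤ exp (π |Im y|)`.
For `Re y ≥ 2`: `U(y) = U(y-1)/(y-1)` and `|y-1| ≥ 1`; induction on `⌊Re y⌋`. -/
theorem U_strip : ∃ C : ℝ, 0 < C ∧ ∀ y : ℂ, 1 ≤ y.re → ‖U y‖ ≤ C * Real.exp (Real.pi * |y.im|) := by
  have hUc : Continuous U := Complex.differentiable_one_div_Gamma.continuous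
  have hcomp : IsCompact (Set.Icc (1 : ℝ) 2 ×ℂ Set.Icc (-1 : ℝ) 1) :=
    isCompact_Icc.reProdIm isCompact_Icc
  obtain ⟨C₁, hC₁⟩ := hcomp.exists_bound_of_continuousOn hUc.continuousOn
  have hGc : ContinuousOn Real.Gamma (Set.Icc (1 : ℝ) 2) := by
    intro x hx
    refine (Real.differentiableAt_Gamma fun m => ?_).continuousAt.continuousWithinAt
    have h1 : (0 : ℝ) ≤ m := Nat.cast_nonneg m
    have h2 := hx.1
    linarith
  obtain ⟨C₂, hC₂⟩ := isCompact_Icc.exists_bound_of_continuousOn hGc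
  have hsin : ∀ z : ℂ, ‖sin z‖ ≤ Real.exp |z.im| := by
    intro z
    have e : sin z = (exp (-z * I) - exp (z * I)) * I / 2 := rfl
    rw [e, norm_div, norm_mul, Complex.norm_I, mul_one]
    have h1 := norm_sub_le (exp (-z * I)) (exp (z * I))
    rw [Complex.norm_exp, Complex.norm_exp] at h1
    have h2 : (-z * I).re ≤ |z.im| := by simpa using le_abs_self z.im
    have h3 : (z * I).re ≤ |z.im| := by simpa using neg_le_abs z.im
    have h4 := Real.exp_le_exp.2 h2
    have h5 := Real.exp_le_exp.2 h3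
    have h6 : ‖(2 : ℂ)‖ = 2 := by norm_num
    rw [h6]
    linarith
  set C : ℝ := max (max C₁ C₂) 1 with hC
  have hC1 : C₁ ≤ C := (le_max_left _ _).trans (le_max_left _ _)
  have hC2 : C₂ ≤ C := (le_max_right _ _).trans (le_max_left _ _)
  have hC0 : 0 < C := lt_of_lt_of_le one_pos (le_max_right _ _)
  refine ⟨C, hC0, ?_⟩
  have hstrip : ∀ y : ℂ, 1 ≤ y.re → y.re ≤ 2 → ‖U y‖ ≤ C * Real.exp (Real.pi * |y.im|) := by
    intro y hy1 hy2
    have hexp : 1 ≤ Real.exp (Real.pi * |y.im|) :=
      Real.one_le_exp (mul_nonneg Real.pi_pos.le (abs_nonneg _))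
    rcases le_or_gt |y.im| 1 with hi | hi
    · have h1 := hC₁ y ⟨⟨hy1, hy2⟩, abs_le.1 hi⟩
      calc ‖U y‖ ≤ C := h1.trans hC1
        _ = C * 1 := (mul_one _).symm
        _ ≤ C * Real.exp (Real.pi * |y.im|) := mul_le_mul_of_nonneg_left hexp hC0.le
    · have hI : y.im ≠ 0 := by
        intro h0
        rw [h0, abs_zero] at hi
        linarith
      have hG0 : Gamma y ≠ 0 := Complex.Gamma_ne_zero_of_re_pos (by linarith)
      have hs0 : sin (Real.pi * y) ≠ 0 := by
        intro h0
        obtain ⟨k, hk⟩ := Complex.sin_eq_zero_iff.1 h0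
        have hpi : (Real.pi : ℂ) ≠ 0 := by exact_mod_cast Real.pi_ne_zero
        have h1 : y = k := by
          apply mul_left_cancel₀ hpi
          rw [hk, mul_comm]
        apply hI
        rw [h1]
        exact Complex.intCast_im k
      have hpi : (Real.pi : ℂ) ≠ 0 := by exact_mod_cast Real.pi_ne_zero
      have hrefl := Complex.Gamma_mul_Gamma_one_sub y
      have hU : U y = Gamma (1 - y) * sin (Real.pi * y) / Real.pi := by
        unfold U
        rw [eq_div_iff hpi, inv_mul_eq_iff_eq_mul₀ hG0, ← mul_assoc, hrefl]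
        field_simp
      have hn1 : (1 : ℂ) - y ≠ 0 := by
        intro h0
        have := congrArg Complex.im h0
        simp at this
        exact hI this
      have hn2 : (2 : ℂ) - y ≠ 0 := by
        intro h0
        have := congrArg Complex.im h0
        simp at this
        exact hI this
      have hG3 : Gamma (3 - y) = (2 - y) * ((1 - y) * Gamma (1 - y)) := by
        rw [show (3 : ℂ) - y = (2 - y) + 1 by ring, Complex.Gamma_add_one _ hn2,
          show (2 : ℂ) - y = (1 - y) + 1 by ring, Complex.Gamma_add_one _ hn1]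
      have hl1 : 1 ≤ ‖(1 : ℂ) - y‖ := by
        have h1 := Complex.abs_im_le_norm ((1 : ℂ) - y)
        simp only [sub_im, one_im, zero_sub, abs_neg] at h1
        linarith
      have hl2 : 1 ≤ ‖(2 : ℂ) - y‖ := by
        have h1 := Complex.abs_im_le_norm ((2 : ℂ) - y)
        simp only [sub_im, Complex.im_ofNat, zero_sub, abs_neg] at h1
        linarith
      have hG1 : ‖Gamma (1 - y)‖ ≤ C := by
        have h1 : ‖Gamma (3 - y)‖ ≤ C := by
          have h2 : 0 < ((3 : ℂ) - y).re := by
            simp only [sub_re, Complex.re_ofNat]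
            linarith
          refine (norm_Gamma_le_re h2).trans ?_
          have h3 : ((3 : ℂ) - y).re = 3 - y.re := by simp
          rw [h3]
          have h4 := hC₂ (3 - y.re) ⟨by linarith, by linarith⟩
          exact ((Real.le_norm_self _).trans h4).trans hC2
        rw [hG3, norm_mul, norm_mul] at h1
        have h5 : ‖Gamma (1 - y)‖ ≤ ‖(1 : ℂ) - y‖ * ‖Gamma (1 - y)‖ :=
          le_mul_of_one_le_left (norm_nonneg _) hl1
        have h6 : ‖(1 : ℂ) - y‖ * ‖Gamma (1 - y)‖ ≤
            ‖(2 : ℂ) - y‖ * (‖(1 : ℂ) - y‖ * ‖Gamma (1 - y)‖) :=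
          le_mul_of_one_le_left (by positivity) hl2
        linarith
      have hsn : ‖sin (Real.pi * y)‖ ≤ Real.exp (Real.pi * |y.im|) := by
        refine (hsin _).trans (le_of_eq ?_)
        rw [Complex.im_ofReal_mul, abs_mul, abs_of_pos Real.pi_pos]
      rw [hU, norm_div, norm_mul, Complex.norm_real, Real.norm_eq_abs, abs_of_pos Real.pi_pos]
      have h7 : ‖Gamma (1 - y)‖ * ‖sin (Real.pi * y)‖ ≤ C * Real.exp (Real.pi * |y.im|) :=
        mul_le_mul hG1 hsn (norm_nonneg _) hC0.le
      have h8 : (1 : ℝ) ≤ Real.pi := by linarith [Real.pi_gt_three]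
      exact (div_le_self (by positivity) h8).trans h7
  have hind : ∀ n : ℕ, ∀ y : ℂ, 1 ≤ y.re → y.re ≤ n + 2 →
      ‖U y‖ ≤ C * Real.exp (Real.pi * |y.im|) := by
    intro n
    induction n with
    | zero =>
      intro y hy1 hy2
      rw [Nat.cast_zero, zero_add] at hy2
      exact hstrip y hy1 hy2
    | succ n ih =>
      intro y hy1 hy2
      rcases le_or_gt y.re (n + 2) with h | h
      · exact ih y hy1 h
      · have hn : (0 : ℝ) ≤ n := Nat.cast_nonneg n
        have h1 := ih (y - 1) (by rw [sub_re, one_re]; linarith)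
          (by rw [sub_re, one_re]; push_cast at hy2; linarith)
        have him : (y - 1).im = y.im := by simp
        rw [him] at h1
        have hne : y - 1 ≠ 0 := by
          intro h0
          have := congrArg Complex.re h0
          rw [sub_re, one_re, zero_re] at this
          linarith
        have hG : Gamma y = (y - 1) * Gamma (y - 1) := by
          rw [← Complex.Gamma_add_one _ hne, sub_add_cancel]
        have hl : 1 ≤ ‖y - 1‖ := by
          have h2 := Complex.re_le_norm (y - 1)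
          rw [sub_re, one_re] at h2
          linarith
        have hU : U y = U (y - 1) / (y - 1) := by
          unfold U
          rw [hG, mul_inv, div_eq_mul_inv, mul_comm]
        rw [hU, norm_div]
        exact (div_le_self (norm_nonneg _) hl).trans h1
  intro y hy
  obtain ⟨n, hn⟩ := exists_nat_ge y.re
  exact hind n y hy (by linarith)

/-- AXG-A1c: `|Γ(1+iy)|² = π y / sinh (π y)` for real `y ≠ 0`.
Proof. `Γ(1+iy) Γ(1-iy) = iy Γ(iy) Γ(1-iy) = iy π / sin (π i y) = π y / sinh (π y)`, and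
`Γ(1-iy)` is the conjugate of `Γ(1+iy)` (`Complex.Gamma_conj`). -/
theorem norm_Gamma_imag {y : ℝ} (hy : y ≠ 0) :
    ‖Gamma (1 + y * I)‖ ^ 2 = Real.pi * y / Real.sinh (Real.pi * y) := by
  have hyI : (y : ℂ) * I ≠ 0 := mul_ne_zero (by exact_mod_cast hy) I_ne_zero
  have hconj : (starRingEnd ℂ) (Gamma (1 + y * I)) = Gamma (1 - y * I) := by
    rw [← Complex.Gamma_conj]
    congr 1
    simp [sub_eq_add_neg]
  have h1 : Gamma (1 + y * I) * Gamma (1 - y * I) =
      y * I * (Real.pi / sin (Real.pi * (y * I))) := by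
    rw [← Complex.Gamma_mul_Gamma_one_sub, add_comm (1 : ℂ) (y * I), Complex.Gamma_add_one _ hyI]
    ring
  have h2 : sin (Real.pi * (y * I)) = sinh (Real.pi * y) * I := by
    rw [← mul_assoc, Complex.sin_mul_I]
  have hsinh : Real.sinh (Real.pi * y) ≠ 0 := by
    rw [Ne, Real.sinh_eq_zero]
    exact mul_ne_zero Real.pi_ne_zero hy
  have hsinh' : sinh ((Real.pi : ℂ) * y) ≠ 0 := by
    have : sinh ((Real.pi : ℂ) * y) = ((Real.sinh (Real.pi * y) : ℝ) : ℂ) := by
      push_cast
      rfl
    rw [this]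
    exact_mod_cast hsinh
  have h3 : ((‖Gamma (1 + y * I)‖ ^ 2 : ℝ) : ℂ) =
      ((Real.pi * y / Real.sinh (Real.pi * y) : ℝ) : ℂ) := by
    rw [← Complex.normSq_eq_norm_sq, Complex.normSq_eq_conj_mul_self, hconj, mul_comm, h1, h2]
    push_cast
    field_simp
  exact_mod_cast h3

end Pool.Agent.Helper94.AXG
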