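import Pool.Agent.Helper94.AXG.Defs

/-! # AXG-A2: Stirling bounds on the positive real axis -/

namespace Pool.Agent.Helper94.AXG

private lemma A2_split (x : ℝ) (hx : 0 ≤ x) :
    ∃ (n : ℕ) (θ : ℝ), 0 ≤ θ ∧ θ < 1 ∧ x = n + θ :=
  ⟨⌊x⌋₊, x - ⌊x⌋₊, sub_nonneg.2 (Nat.floor_le hx),
    by have := Nat.lt_floor_add_one x; linarith, by ring⟩

private lemma A2_feq {y : ℝ} (hy : 0 < y) :
    (Real.log ∘ Real.Gamma) (y + 1) = (Real.log ∘ Real.Gamma) y + Real.log y := by
  rw [Function.comp_apply, Real.Gamma_add_one hy.ne',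
    Real.log_mul hy.ne' (Real.Gamma_pos_of_pos hy).ne', add_comm, Function.comp_apply]

private lemma A2_le {n : ℕ} {θ : ℝ} (h0 : 0 ≤ θ) (h1 : θ ≤ 1) :
    Real.log (Real.Gamma (1 + (n + θ))) ≤ Real.log (n.factorial : ℝ) + θ * Real.log (n + 1) := by
  rw [← Real.Gamma_nat_eq_factorial]
  rcases h0.eq_or_lt with rfl | h0
  · rw [add_zero, zero_mul, add_zero, add_comm (1 : ℝ)]
  · have h := Real.BohrMollerup.f_add_nat_le Real.convexOn_log_Gamma (fun {y} hy => A2_feq hy)
      (n.succ_ne_zero) h0 h1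
    simp only [Function.comp_apply, Nat.succ_eq_add_one, Nat.cast_add, Nat.cast_one] at h
    rw [show (1 : ℝ) + (n + θ) = n + 1 + θ by ring]
    exact h

private lemma A2_ge {n : ℕ} (hn : n ≠ 0) {θ : ℝ} (h0 : 0 ≤ θ) :
    Real.log (n.factorial : ℝ) + θ * Real.log n ≤ Real.log (Real.Gamma (1 + (n + θ))) := by
  rw [← Real.Gamma_nat_eq_factorial]
  rcases h0.eq_or_lt with rfl | h0
  · rw [add_zero, zero_mul, add_zero, add_comm (1 : ℝ)]
  · have h := Real.BohrMollerup.f_add_nat_ge Real.convexOn_log_Gamma (fun {y} hy => A2_feq hy)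
      (show 2 ≤ n + 1 by omega) h0
    simp only [Function.comp_apply, Nat.cast_add, Nat.cast_one, add_sub_cancel_right] at h
    rw [show (1 : ℝ) + (n + θ) = n + 1 + θ by ring]
    exact h

private lemma A2_fact_le {n : ℕ} (hn : n ≠ 0) :
    Real.log (n.factorial : ℝ) ≤ 1 + Real.log n + (n * Real.log n - n) := by
  obtain ⟨m, rfl⟩ := Nat.exists_eq_succ_of_ne_zero hn
  have h := Stirling.stirlingSeq'_antitone (Nat.zero_le m)
  simp only [Function.comp_apply, Nat.succ_eq_add_one, zero_add, Stirling.stirlingSeq_one] at h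
  rw [Nat.succ_eq_add_one]
  have hN : (0 : ℝ) < ((m + 1 : ℕ) : ℝ) := by positivity
  have hN1 : (1 : ℝ) ≤ ((m + 1 : ℕ) : ℝ) := by push_cast; linarith [(Nat.cast_nonneg m : (0 : ℝ) ≤ m)]
  have hs : 0 < Stirling.stirlingSeq (m + 1) := Stirling.stirlingSeq'_pos m
  have h2 := Real.log_le_log hs h
  rw [Stirling.log_stirlingSeq_formula, Real.log_div (Real.exp_pos 1).ne' (by positivity),
    Real.log_exp, Real.log_sqrt (by norm_num), Real.log_mul (by norm_num) hN.ne',
    Real.log_div hN.ne' (Real.exp_pos 1).ne', Real.log_exp] at h2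
  have h3 : 0 ≤ Real.log ((m + 1 : ℕ) : ℝ) := Real.log_nonneg hN1
  nlinarith

private lemma A2_fact_ge {n : ℕ} (hn : n ≠ 0) :
    n * Real.log n - n ≤ Real.log (n.factorial : ℝ) := by
  have h := Stirling.le_log_factorial_stirling hn
  have h1 : 0 ≤ Real.log (n : ℝ) :=
    Real.log_nonneg (by exact_mod_cast Nat.one_le_iff_ne_zero.2 hn)
  have h2 : 0 ≤ Real.log (2 * Real.pi) :=
    Real.log_nonneg (by linarith [Real.pi_gt_three])
  linarith

/-- AXG-A2a. Proof. `x = 0`: both sides are fine (`0 * log 0 = 0`). For `x > 0` let `n = ⌊x⌋₊`,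
`x = n + θ`, `0 ≤ θ < 1`. If `n = 0` then `Γ(1+x) ≤ 1` (convexity between `1` and `2`) and
`x log x - x ≥ -1`. If `n ≥ 1`: log-convexity (`Real.Gamma_mul_add_mul_le_rpow_Gamma_mul_rpow_Gamma`)
gives `Γ(n+1+θ) ≤ n! (n+1)^θ`; `n! ≤ 3 n (n/e)^n` (for instance induction, or Mathlib's Stirling file);
`x log x - x ≥ (n log n - n) + θ log n` (convexity of `x log x - x`, derivative `log x`), so
`n! (n+1)^θ ≤ 3 n n^n e^(-n) 2 n^θ ≤ 6 (1+x) exp (x log x - x)`. -/
theorem Gamma_real_upper : ∃ C : ℝ, 0 < C ∧ ∀ x : ℝ, 0 ≤ x →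
    Real.Gamma (1 + x) ≤ C * (1 + x) * Real.exp (x * Real.log x - x) := by
  refine ⟨Real.exp (1 + Real.log 2), Real.exp_pos _, fun x hx => ?_⟩
  have hG : 0 < Real.Gamma (1 + x) := Real.Gamma_pos_of_pos (by linarith)
  have hl2 : 0 ≤ Real.log 2 := Real.log_nonneg (by norm_num)
  suffices h : Real.log (Real.Gamma (1 + x)) ≤
      1 + Real.log 2 + Real.log (1 + x) + (x * Real.log x - x) by
    have h1 := Real.exp_le_exp.2 h
    rw [Real.exp_log hG, Real.exp_add (1 + Real.log 2 + Real.log (1 + x)),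
      Real.exp_add (1 + Real.log 2), Real.exp_log (by linarith : (0 : ℝ) < 1 + x)] at h1
    exact h1
  have hl : 0 ≤ Real.log (1 + x) := Real.log_nonneg (by linarith)
  obtain ⟨n, θ, h0, h1, hxn⟩ := A2_split x hx
  have hle := A2_le (n := n) h0 h1.le
  rw [← hxn] at hle
  rcases Nat.eq_zero_or_pos n with rfl | hn
  · have hx1 : -1 ≤ x * Real.log x - x := by
      rcases hx.eq_or_lt with rfl | hx0
      · simp
      · have h2 := Real.one_sub_inv_le_log_of_pos hx0
        have h3 : x * (1 - x⁻¹) ≤ x * Real.log x := mul_le_mul_of_nonneg_left h2 hx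
        have h4 : x * (1 - x⁻¹) = x - 1 := by field_simp
        linarith
    simp at hle
    linarith
  · have hn0 : n ≠ 0 := hn.ne'
    have hnR : (1 : ℝ) ≤ n := by exact_mod_cast hn
    have hn' : (0 : ℝ) < n := by linarith
    have hxp : 0 < x := by rw [hxn]; linarith
    have hf := A2_fact_le hn0
    have hln : 0 ≤ Real.log n := Real.log_nonneg hnR
    have h2 : Real.log (n + 1) ≤ Real.log 2 + Real.log n := by
      rw [← Real.log_mul (by norm_num) hn'.ne']
      exact Real.log_le_log (by linarith) (by linarith)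
    have h3 : θ * Real.log (n + 1) ≤ Real.log 2 + θ * Real.log n := by
      have := mul_le_mul_of_nonneg_left h2 h0
      nlinarith
    have h4 : Real.log n ≤ Real.log (1 + x) := Real.log_le_log hn' (by linarith)
    have h5 : n * Real.log n - n + θ * Real.log n ≤ x * Real.log x - x := by
      have h6 := Real.one_sub_inv_le_log_of_pos (div_pos hxp hn')
      rw [Real.log_div hxp.ne' hn'.ne', inv_div] at h6
      have h7 := mul_le_mul_of_nonneg_left h6 hxp.le
      have h8 : x * (1 - n / x) = x - n := by field_simp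
      rw [h8] at h7
      have h9 : x * Real.log n = n * Real.log n + θ * Real.log n := by
        conv_lhs => rw [hxn]
        ring
      nlinarith
    linarith

/-- AXG-A2b. Proof. `n = ⌊x⌋₊`, `x = n + θ`. If `n = 0` then `Γ(1+x) ≥ c > 0` on `[0,1]` (continuous and
positive) and `exp (x log x - x) ≤ 1`. If `n ≥ 1`: log-convexity gives `Γ(n+1+θ) ≥ n! n^θ` (the slope of
`log Γ` between `n+1` and `n+1+θ` is at least the slope between `n` and `n+1`, which is `log n`),
`n! ≥ n^n e^(-n)` and `x log x - x ≤ n log n - n + θ log x`; so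
`Γ(1+x) ≥ exp (x log x - x) (n/x)^θ ≥ exp (x log x - x) / 2`. -/
theorem Gamma_real_lower : ∃ C : ℝ, 0 < C ∧ ∀ x : ℝ, 0 ≤ x →
    Real.exp (x * Real.log x - x) ≤ C * Real.Gamma (1 + x) := by
  refine ⟨2, by norm_num, fun x hx => ?_⟩
  have hG : 0 < Real.Gamma (1 + x) := Real.Gamma_pos_of_pos (by linarith)
  obtain ⟨n, θ, h0, h1, hxn⟩ := A2_split x hx
  rcases Nat.eq_zero_or_pos n with rfl | hn
  · have hx1 : x < 1 := by rw [hxn]; simpa using h1
    have h2 : Real.exp (x * Real.log x - x) ≤ 1 := by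
      rw [Real.exp_le_one_iff]
      have := Real.mul_log_nonpos hx hx1.le
      linarith
    have h3 : (1 : ℝ) ≤ Real.Gamma (2 + x) := by
      rw [← Real.Gamma_two]
      exact Real.Gamma_strictMonoOn_Ici.monotoneOn (Set.mem_Ici.2 le_rfl)
        (Set.mem_Ici.2 (by linarith)) (by linarith)
    have h4 : Real.Gamma (2 + x) = (1 + x) * Real.Gamma (1 + x) := by
      rw [← Real.Gamma_add_one (by linarith : (1 + x) ≠ 0)]
      congr 1
      ring
    nlinarith
  · have hn0 : n ≠ 0 := hn.ne'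
    have hnR : (1 : ℝ) ≤ n := by exact_mod_cast hn
    have hn' : (0 : ℝ) < n := by linarith
    have hxp : 0 < x := by rw [hxn]; linarith
    have hge := A2_ge hn0 h0
    rw [← hxn] at hge
    have hf := A2_fact_ge hn0
    suffices h : x * Real.log x - x ≤ Real.log 2 + Real.log (Real.Gamma (1 + x)) by
      have h2 := Real.exp_le_exp.2 h
      rw [Real.exp_add (Real.log 2), Real.exp_log (by norm_num), Real.exp_log hG] at h2
      exact h2
    have h2 : Real.log x ≤ Real.log 2 + Real.log n := by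
      rw [← Real.log_mul (by norm_num) hn'.ne']
      exact Real.log_le_log hxp (by linarith)
    have h3 : θ * Real.log x ≤ Real.log 2 + θ * Real.log n := by
      have h5 := mul_le_mul_of_nonneg_left h2 h0
      have h6 : 0 ≤ Real.log 2 := Real.log_nonneg (by norm_num)
      nlinarith
    have h4 : x * Real.log x - x ≤ n * Real.log n - n + θ * Real.log x := by
      have h6 := Real.log_le_sub_one_of_pos (div_pos hxp hn')
      rw [Real.log_div hxp.ne' hn'.ne'] at h6
      have h7 := mul_le_mul_of_nonneg_left h6 hn'.le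
      have h8 : n * (x / n - 1) = x - n := by field_simp
      rw [h8] at h7
      have h9 : x * Real.log x = n * Real.log x + θ * Real.log x := by
        nth_rewrite 1 [hxn]
        ring
      nlinarith
    linarith

end Pool.Agent.Helper94.AXG
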