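import Pool.Agent.Helper94.AXG.A1
import Pool.Agent.Helper94.AXG.A2

/-! # AXG-A3: crude Stirling upper bound for Gamma in the right half plane -/

namespace Pool.Agent.Helper94.AXG

open Complex Filter Topology Bornology Set

private theorem A3_mullog : ContinuousAt (fun x : ℂ => x * log x) 0 := by
  rw [ContinuousAt, zero_mul]
  refine squeeze_zero_norm (a := fun x : ℂ => |‖x‖ * Real.log ‖x‖| + Real.pi * ‖x‖)
    (fun x => ?_) ?_
  · rw [norm_mul]
    have h1 : ‖log x‖ ≤ |Real.log ‖x‖| + Real.pi := by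
      refine (norm_le_abs_re_add_abs_im _).trans ?_
      rw [log_re, log_im]
      exact add_le_add le_rfl (abs_arg_le_pi x)
    have h2 : ‖x‖ * ‖log x‖ ≤ ‖x‖ * (|Real.log ‖x‖| + Real.pi) :=
      mul_le_mul_of_nonneg_left h1 (norm_nonneg x)
    rw [abs_mul, abs_norm]
    linarith
  · have h2 : Continuous (fun x : ℂ => |‖x‖ * Real.log ‖x‖| + Real.pi * ‖x‖) := by
      have h3 : Continuous (fun x : ℂ => ‖x‖ * Real.log ‖x‖) :=
        Real.continuous_mul_log.comp continuous_norm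
      exact h3.abs.add (continuous_const.mul continuous_norm)
    have h4 := h2.tendsto 0
    simpa using h4

private theorem A3_slit {x : ℂ} (hx : 0 ≤ x.re) (h0 : x ≠ 0) : x ∈ slitPlane := by
  rw [mem_slitPlane_iff]
  by_cases h : x.im = 0
  · left
    rcases hx.lt_or_eq with h1 | h1
    · exact h1
    · exact absurd (Complex.ext h1.symm h) h0
  · exact Or.inr h

private theorem A3_st_cont {x : ℂ} (hx : 0 ≤ x.re) : ContinuousAt st x := by
  by_cases h0 : x = 0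
  · subst h0
    exact A3_mullog.sub continuousAt_id
  · exact (continuousAt_id.mul (continuousAt_clog (A3_slit hx h0))).sub continuousAt_id

private theorem A3_st_diff {x : ℂ} (hx : 0 < x.re) : DifferentiableAt ℂ st x := by
  have h0 : x ≠ 0 := by
    rintro rfl
    exact lt_irrefl _ hx
  have h1 : DifferentiableAt ℂ log x := (hasStrictDerivAt_log (A3_slit hx.le h0)).hasDerivAt.differentiableAt
  exact (differentiableAt_id.mul h1).sub differentiableAt_id

private theorem A3_one {x : ℂ} (hx : 0 ≤ x.re) : 1 + x ≠ 0 := by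
  intro h
  have h1 := congrArg re h
  rw [add_re, one_re, zero_re] at h1
  linarith

private theorem A3_Gamma_diff {x : ℂ} (hx : 0 ≤ x.re) :
    DifferentiableAt ℂ (fun x : ℂ => Gamma (1 + x)) x := by
  have h1 : DifferentiableAt ℂ Gamma (1 + x) := by
    refine differentiableAt_Gamma _ (fun m h => ?_)
    have h2 := congrArg re h
    rw [add_re, one_re, neg_re, natCast_re] at h2
    have h3 : (0 : ℝ) ≤ m := Nat.cast_nonneg m
    linarith
  exact DifferentiableAt.comp x h1 (differentiableAt_id.const_add 1)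

/-- the auxiliary function -/
private noncomputable def A3f (x : ℂ) : ℂ := Gamma (1 + x) * exp (-st x) / (1 + x)

private theorem A3_diff : DiffContOnCl ℂ A3f (Ioi 0 ×ℂ Ioi 0) := by
  constructor
  · intro x hx
    have h1 : 0 < x.re := hx.1
    have h2 := (A3_Gamma_diff h1.le).mul (A3_st_diff h1).neg.cexp
    exact (h2.div (differentiableAt_id.const_add 1) (A3_one h1.le)).differentiableWithinAt
  · rw [closure_reProdIm, closure_Ioi]
    intro x hx
    have h1 : 0 ≤ x.re := hx.1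
    have h2 := (A3_Gamma_diff h1).continuousAt.mul (A3_st_cont h1).neg.cexp
    exact (h2.div (continuousAt_const.add continuousAt_id) (A3_one h1)).continuousWithinAt

private theorem A3_norm (x : ℂ) :
    ‖A3f x‖ = ‖Gamma (1 + x)‖ * Real.exp (-(st x).re) / ‖1 + x‖ := by
  rw [A3f, norm_div, norm_mul, norm_exp, neg_re]

private theorem A3_one_le {x : ℂ} (hx : 0 ≤ x.re) : 1 ≤ ‖1 + x‖ := by
  refine le_trans ?_ (re_le_norm (1 + x))
  rw [add_re, one_re]
  linarith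

/-- `a log a ≤ b log b` -/
private theorem A3_ll {a b : ℝ} (ha : 0 ≤ a) (hab : a ≤ b) (hb : 1 ≤ b) :
    a * Real.log a ≤ b * Real.log b := by
  rcases le_or_gt a 1 with h | h
  · exact (mul_nonpos_of_nonneg_of_nonpos ha (Real.log_nonpos ha h)).trans
      (mul_nonneg (by linarith) (Real.log_nonneg hb))
  · exact mul_le_mul hab (Real.log_le_log (by linarith) hab) (Real.log_nonneg h.le) (by linarith)

private theorem A3_pow {b : ℝ} (hb : 1 ≤ b) : b * Real.log b ≤ 2 * b ^ (3 / 2 : ℝ) := by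
  have h0 : 0 < b := by linarith
  have h1 := Real.log_le_rpow_div h0.le (by norm_num : (0 : ℝ) < 1 / 2)
  have h2 : b ^ (3 / 2 : ℝ) = b * b ^ (1 / 2 : ℝ) := by
    rw [show (3 / 2 : ℝ) = 1 + 1 / 2 by norm_num, Real.rpow_add h0, Real.rpow_one]
  rw [h2]
  have h3 : b * Real.log b ≤ b * (b ^ (1 / 2 : ℝ) / (1 / 2)) :=
    mul_le_mul_of_nonneg_left h1 h0.le
  linarith

private theorem A3_growth : ∃ C : ℝ, 0 < C ∧ ∀ x : ℂ, 0 ≤ x.re → 1 ≤ ‖x‖ →
    ‖A3f x‖ ≤ C * Real.exp (11 * ‖x‖ ^ (3 / 2 : ℝ)) := by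
  obtain ⟨C, hC, hG⟩ := Gamma_real_upper
  refine ⟨C, hC, fun x hx h1 => ?_⟩
  have h2 := A3_one_le hx
  have h3 : ‖Gamma (1 + x)‖ ≤ Real.Gamma (1 + x.re) := by
    have h := norm_Gamma_le_re (s := 1 + x) (by rw [add_re, one_re]; linarith)
    rwa [add_re, one_re] at h
  have h4 := hG x.re hx
  have hre : x.re ≤ ‖x‖ := re_le_norm x
  have h5 : x.re * Real.log x.re ≤ 2 * ‖x‖ ^ (3 / 2 : ℝ) := (A3_ll hx hre h1).trans (A3_pow h1)
  have h6 : ‖x‖ ≤ ‖x‖ ^ (3 / 2 : ℝ) := by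
    have h := Real.rpow_le_rpow_of_exponent_le h1 (by norm_num : (1 : ℝ) ≤ 3 / 2)
    rwa [Real.rpow_one] at h
  have h7 : -(st x).re ≤ 2 * ‖x‖ ^ (3 / 2 : ℝ) + 5 * ‖x‖ := by
    have h8 : -(st x).re ≤ ‖st x‖ := (neg_le_abs _).trans (abs_re_le_norm _)
    have h9 : ‖st x‖ ≤ ‖x‖ * ‖log x‖ + ‖x‖ := by
      rw [st]
      refine (norm_sub_le _ _).trans ?_
      rw [norm_mul]
    have h10 : ‖log x‖ ≤ Real.log ‖x‖ + Real.pi := by
      refine (norm_le_abs_re_add_abs_im _).trans ?_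
      rw [log_re, log_im, abs_of_nonneg (Real.log_nonneg h1)]
      exact add_le_add le_rfl (abs_arg_le_pi x)
    have h11 : ‖x‖ * ‖log x‖ ≤ ‖x‖ * (Real.log ‖x‖ + Real.pi) :=
      mul_le_mul_of_nonneg_left h10 (norm_nonneg x)
    have h12 := A3_pow h1
    have h13 : ‖x‖ * Real.pi ≤ ‖x‖ * 4 :=
      mul_le_mul_of_nonneg_left Real.pi_le_four (norm_nonneg x)
    linarith
  have h8 : 1 + x.re ≤ Real.exp (2 * ‖x‖) := by
    have h := Real.add_one_le_exp (2 * ‖x‖)
    linarith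
  rw [A3_norm]
  have h9 : ‖Gamma (1 + x)‖ * Real.exp (-(st x).re) / ‖1 + x‖ ≤
      ‖Gamma (1 + x)‖ * Real.exp (-(st x).re) :=
    div_le_self (by positivity) h2
  refine h9.trans ?_
  have h10 : ‖Gamma (1 + x)‖ ≤ C * Real.exp (2 * ‖x‖) * Real.exp (2 * ‖x‖ ^ (3 / 2 : ℝ)) := by
    refine (h3.trans h4).trans ?_
    refine mul_le_mul ?_ (Real.exp_le_exp.2 (by linarith)) (Real.exp_nonneg _) (by positivity)
    exact mul_le_mul_of_nonneg_left h8 hC.le
  have h11 : Real.exp (-(st x).re) ≤ Real.exp (2 * ‖x‖ ^ (3 / 2 : ℝ) + 5 * ‖x‖) :=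
    Real.exp_le_exp.2 h7
  calc ‖Gamma (1 + x)‖ * Real.exp (-(st x).re)
      ≤ (C * Real.exp (2 * ‖x‖) * Real.exp (2 * ‖x‖ ^ (3 / 2 : ℝ))) *
          Real.exp (2 * ‖x‖ ^ (3 / 2 : ℝ) + 5 * ‖x‖) :=
        mul_le_mul h10 h11 (Real.exp_nonneg _) (by positivity)
    _ = C * Real.exp (2 * ‖x‖ + 2 * ‖x‖ ^ (3 / 2 : ℝ) + (2 * ‖x‖ ^ (3 / 2 : ℝ) + 5 * ‖x‖)) := by
        rw [Real.exp_add (2 * ‖x‖ + 2 * ‖x‖ ^ (3 / 2 : ℝ)), Real.exp_add (2 * ‖x‖)]
        ring
    _ ≤ C * Real.exp (11 * ‖x‖ ^ (3 / 2 : ℝ)) := by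
        refine mul_le_mul_of_nonneg_left (Real.exp_le_exp.2 ?_) hC.le
        linarith

private theorem A3_real : ∃ C : ℝ, 0 < C ∧ ∀ x : ℝ, 0 ≤ x → ‖A3f x‖ ≤ C := by
  obtain ⟨C, hC, hG⟩ := Gamma_real_upper
  refine ⟨C, hC, fun x hx => ?_⟩
  have h1 : (st x).re = x * Real.log x - x := by
    rw [st, ← ofReal_log hx, ← ofReal_mul, ← ofReal_sub, ofReal_re]
  have h2 : ‖Gamma (1 + x)‖ = Real.Gamma (1 + x) := by
    have h : (1 : ℂ) + x = ((1 + x : ℝ) : ℂ) := by push_cast; rfl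
    rw [h, Gamma_ofReal, norm_real, Real.norm_eq_abs,
      abs_of_pos (Real.Gamma_pos_of_pos (by linarith))]
  have h3 : ‖(1 : ℂ) + x‖ = 1 + x := by
    have h : (1 : ℂ) + x = ((1 + x : ℝ) : ℂ) := by push_cast; rfl
    rw [h, norm_real, Real.norm_eq_abs, abs_of_pos (by linarith)]
  rw [A3_norm, h1, h2, h3, div_le_iff₀ (by linarith)]
  calc Real.Gamma (1 + x) * Real.exp (-(x * Real.log x - x))
      ≤ C * (1 + x) * Real.exp (x * Real.log x - x) * Real.exp (-(x * Real.log x - x)) :=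
        mul_le_mul_of_nonneg_right (hG x hx) (Real.exp_nonneg _)
    _ = C * (1 + x) := by
        rw [mul_assoc, ← Real.exp_add, add_neg_cancel, Real.exp_zero, mul_one]

private theorem A3_sinh {t : ℝ} (ht : 0 < t) : t / Real.sinh t * Real.exp t ≤ 1 + 2 * t := by
  have h1 : 0 < Real.sinh t := Real.sinh_pos_iff.2 ht
  rw [div_mul_eq_mul_div, div_le_iff₀ h1, Real.sinh_eq]
  have h2 : 0 < Real.exp t := Real.exp_pos t
  have h3 : Real.exp (-t) * Real.exp t = 1 := by rw [← Real.exp_add, neg_add_cancel, Real.exp_zero]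
  have h4 : 1 + 2 * t ≤ Real.exp t * Real.exp t := by
    rw [← Real.exp_add]
    have h := Real.add_one_le_exp (t + t)
    linarith
  have h5 : 0 < Real.exp (-t) := Real.exp_pos _
  have h6 : (1 + 2 * t) * Real.exp (-t) ≤ Real.exp t := by
    calc (1 + 2 * t) * Real.exp (-t) ≤ Real.exp t * Real.exp t * Real.exp (-t) :=
          mul_le_mul_of_nonneg_right h4 h5.le
      _ = Real.exp t * (Real.exp (-t) * Real.exp t) := by ring
      _ = Real.exp t := by rw [h3, mul_one]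
  nlinarith

private theorem A3_imag {y : ℝ} (hy : 0 < y) : ‖A3f (y * I)‖ ≤ 3 := by
  have h1 : (st (y * I)).re = -(Real.pi * y) / 2 := by
    have h2 : log (y * I) = Real.log y + Real.pi / 2 * I := by
      rw [log_ofReal_mul hy I_ne_zero, log_I]
    rw [st, h2]
    simp
    ring
  have h2 := norm_Gamma_imag hy.ne'
  have h3 : ‖(1 : ℂ) + y * I‖ ^ 2 = 1 + y ^ 2 := by
    rw [← normSq_eq_norm_sq, normSq_apply]
    simp
    ring
  have h4 : ‖A3f (y * I)‖ ^ 2 = (Real.pi * y / Real.sinh (Real.pi * y) *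
      Real.exp (Real.pi * y)) / (1 + y ^ 2) := by
    rw [A3_norm, div_pow, mul_pow, h2, h3, h1, ← Real.exp_nat_mul]
    congr 3
    push_cast
    ring
  have h5 := A3_sinh (mul_pos Real.pi_pos hy)
  have h6 : ‖A3f (y * I)‖ ^ 2 ≤ 3 ^ 2 := by
    rw [h4, div_le_iff₀ (by positivity)]
    refine h5.trans ?_
    have h7 : Real.pi * (2 * y) ≤ 4 * (2 * y) :=
      mul_le_mul_of_nonneg_right Real.pi_le_four (by linarith)
    nlinarith [sq_nonneg (y - 1)]
  exact le_of_sq_le_sq h6 (by norm_num)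

private theorem A3_quad : ∃ C : ℝ, 0 < C ∧ ∀ x : ℂ, 0 ≤ x.re → 0 ≤ x.im → ‖A3f x‖ ≤ C := by
  obtain ⟨C, hC, hr⟩ := A3_real
  obtain ⟨B, hB, hg⟩ := A3_growth
  refine ⟨max C 3, lt_max_of_lt_left hC, fun x hx hy => ?_⟩
  refine PhragmenLindelof.quadrant_I A3_diff ⟨3 / 2, by norm_num, 11, ?_⟩ ?_ ?_ hx hy
  · refine Asymptotics.IsBigO.of_bound B ?_
    have h1 : ∀ᶠ z in cobounded ℂ, 1 ≤ ‖z‖ :=
      (tendsto_norm_cobounded_atTop (E := ℂ)).eventually_ge_atTop 1
    have h2 : ∀ᶠ z in cobounded ℂ ⊓ 𝓟 (Ioi 0 ×ℂ Ioi 0), z ∈ Ioi (0 : ℝ) ×ℂ Ioi (0 : ℝ) :=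
      mem_inf_of_right (mem_principal_self _)
    filter_upwards [mem_inf_of_left h1, h2] with z hz1 hz2
    rw [Real.norm_eq_abs, abs_of_pos (Real.exp_pos _)]
    exact hg z (le_of_lt hz2.1) hz1
  · intro t ht
    exact (hr t ht).trans (le_max_left _ _)
  · intro t ht
    rcases ht.lt_or_eq with h | h
    · exact (A3_imag h).trans (le_max_right _ _)
    · have h3 := hr 0 le_rfl
      rw [← h, ofReal_zero, zero_mul]
      rw [ofReal_zero] at h3
      exact h3.trans (le_max_left _ _)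

private theorem A3_bound {C : ℝ} {x : ℂ} (hx : 0 ≤ x.re) (hC : 0 < C) (h : ‖A3f x‖ ≤ C) :
    ‖Gamma (1 + x)‖ ≤ C * (1 + ‖x‖) * Real.exp (st x).re := by
  have h2 := A3_one_le hx
  rw [A3_norm, div_le_iff₀ (by linarith)] at h
  have h3 : ‖(1 : ℂ) + x‖ ≤ 1 + ‖x‖ := by
    refine (norm_add_le _ _).trans ?_
    rw [norm_one]
  calc ‖Gamma (1 + x)‖ = ‖Gamma (1 + x)‖ * Real.exp (-(st x).re) * Real.exp (st x).re := by
        rw [mul_assoc, ← Real.exp_add, neg_add_cancel, Real.exp_zero, mul_one]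
    _ ≤ C * ‖1 + x‖ * Real.exp (st x).re := mul_le_mul_of_nonneg_right h (Real.exp_nonneg _)
    _ ≤ C * (1 + ‖x‖) * Real.exp (st x).re := by
        refine mul_le_mul_of_nonneg_right ?_ (Real.exp_nonneg _)
        exact mul_le_mul_of_nonneg_left h3 hC.le

/-- AXG-A3. Proof. Phragmen-Lindelof in the quadrants I and IV (`PhragmenLindelof.quadrant_I`,
`quadrant_IV`, hypotheses: growth `exp (B ‖z‖^c)`, `c < 2`, bounded on the two half axes) for
`f(x) = Γ(1+x) exp (-st x) / (1 + x)`, which is differentiable in the open right half plane and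
continuous on its closure (`x log x` is continuous at `0` along the closed half plane: `|x log x| → 0`).
Growth: `|Γ(1+x)| ≤ Γ(1 + Re x) ≤ C (1+x) exp (Re x log Re x)` (A1a, A2a) and
`|exp (-st x)| ≤ exp (|x| |log x| + |x|)`. On the positive real axis `f` is bounded by A2a; on the
imaginary axis `|Γ(1+iy)|² = π y / sinh (π y) ≤ C (1 + |y|) exp (-π |y|)` (A1c), and
`Re st(iy) = -π |y| / 2`, so `|f(iy)|² ≤ C (1+|y|) / (1+y²)` is bounded. -/
theorem Gamma_rhp : ∃ C : ℝ, 0 < C ∧ ∀ x : ℂ, 0 ≤ x.re →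
    ‖Gamma (1 + x)‖ ≤ C * (1 + ‖x‖) * Real.exp (st x).re := by
  obtain ⟨C, hC, h⟩ := A3_quad
  refine ⟨C, hC, fun x hx => ?_⟩
  rcases le_or_gt 0 x.im with hy | hy
  · exact A3_bound hx hC (h x hx hy)
  · have h1 : 0 ≤ ((starRingEnd ℂ) x).re := by rw [conj_re]; exact hx
    have h2 : 0 ≤ ((starRingEnd ℂ) x).im := by rw [conj_im]; linarith
    have h3 := A3_bound h1 hC (h _ h1 h2)
    have h4 : Gamma (1 + (starRingEnd ℂ) x) = (starRingEnd ℂ) (Gamma (1 + x)) := by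
      rw [← Gamma_conj, map_add, map_one]
    have h5 : st ((starRingEnd ℂ) x) = (starRingEnd ℂ) (st x) := by
      have h6 : x.arg ≠ Real.pi := by
        intro h7
        rw [arg_eq_pi_iff] at h7
        linarith [h7.1]
      rw [st, st, log_conj _ h6, map_sub, map_mul]
    rw [h4, h5, norm_conj, norm_conj, conj_re] at h3
    exact h3

end Pool.Agent.Helper94.AXG
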