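import Pool.Agent.Helper94.AXG.A1
import Pool.Agent.Helper94.AXG.A2

/-! # AXG-A4: crude Stirling lower bound for Gamma in the right half plane -/

namespace Pool.Agent.Helper94.AXG

open Complex

private theorem a4_norm_log (x : ℂ) : ‖log x‖ ≤ |Real.log ‖x‖| + Real.pi := by
  have h1 : ‖log x‖ ≤ |(log x).re| + |(log x).im| := Complex.norm_le_abs_re_add_abs_im _
  rw [Complex.log_re, Complex.log_im] at h1
  linarith [Complex.abs_arg_le_pi x]

private theorem a4_cont : ContinuousOn (fun x : ℂ => U (1 + x) * exp (st x)) {z | 0 ≤ z.re} := by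
  have hU : Continuous U := by
    have := Complex.differentiable_one_div_Gamma.continuous
    exact this
  intro x hx
  have h1 : ContinuousWithinAt st {z | 0 ≤ z.re} x := by
    rcases eq_or_ne x 0 with rfl | h0
    · have h2 : st 0 = 0 := by simp [st]
      unfold ContinuousWithinAt
      rw [h2]
      have h3 : Filter.Tendsto (fun z : ℂ => ‖st z‖) (nhds 0) (nhds 0) := by
        have h4 : ∀ z : ℂ, ‖st z‖ ≤ |‖z‖ * Real.log ‖z‖| + (Real.pi + 1) * ‖z‖ := by
          intro z
          unfold st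
          calc ‖z * log z - z‖ ≤ ‖z * log z‖ + ‖z‖ := norm_sub_le _ _
            _ ≤ ‖z‖ * (|Real.log ‖z‖| + Real.pi) + ‖z‖ := by
              rw [norm_mul]
              gcongr
              exact a4_norm_log z
            _ = |‖z‖ * Real.log ‖z‖| + (Real.pi + 1) * ‖z‖ := by
              rw [abs_mul, abs_of_nonneg (norm_nonneg z)]
              ring
        have h5 : Continuous fun z : ℂ => |‖z‖ * Real.log ‖z‖| + (Real.pi + 1) * ‖z‖ := by
          have h6 : Continuous fun z : ℂ => ‖z‖ * Real.log ‖z‖ :=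
            Real.continuous_mul_log.comp continuous_norm
          exact h6.abs.add (continuous_const.mul continuous_norm)
        have h7 := h5.tendsto 0
        simp only [norm_zero, zero_mul, abs_zero, mul_zero, add_zero] at h7
        exact squeeze_zero (fun z => norm_nonneg _) h4 h7
      exact (tendsto_zero_iff_norm_tendsto_zero.2 h3).mono_left nhdsWithin_le_nhds
    · have h2 : x ∈ slitPlane := by
        rw [Complex.mem_slitPlane_iff]
        rcases lt_or_eq_of_le (show 0 ≤ x.re from hx) with h3 | h3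
        · exact Or.inl h3
        · right
          intro h4
          exact h0 (Complex.ext h3.symm h4)
      have h3 : ContinuousAt st x := by
        unfold st
        exact (continuousAt_id.mul (continuousAt_clog h2)).sub continuousAt_id
      exact h3.continuousWithinAt
  exact ((hU.comp (continuous_const.add continuous_id)).continuousWithinAt).mul h1.cexp

private theorem a4_diff : DiffContOnCl ℂ (fun x : ℂ => U (1 + x) * exp (st x)) {z | 0 < z.re} := by
  have hU : Differentiable ℂ U := Complex.differentiable_one_div_Gamma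
  refine ⟨?_, ?_⟩
  · intro x hx
    have h2 : x ∈ slitPlane := Or.inl hx
    have h3 : DifferentiableAt ℂ st x := by
      unfold st
      exact (differentiableAt_id.mul (differentiableAt_id.clog h2)).sub differentiableAt_id
    have h4 : DifferentiableAt ℂ (fun x : ℂ => U (1 + x)) x :=
      (hU (1 + x)).comp x (differentiableAt_id.const_add 1)
    exact (h4.mul h3.cexp).differentiableWithinAt
  · have h1 : closure {z : ℂ | 0 < z.re} = {z | 0 ≤ z.re} := closure_setOfPred_lt_re 0
    rw [h1]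
    exact a4_cont

private theorem a4_growth : ∃ c < (2 : ℝ), ∃ B : ℝ,
    (fun x : ℂ => U (1 + x) * exp (st x)) =O[Bornology.cobounded ℂ ⊓
      Filter.principal {z : ℂ | 0 < z.re}] fun z => Real.exp (B * ‖z‖ ^ c) := by
  obtain ⟨C, hC, hU⟩ := U_strip
  refine ⟨3 / 2, by norm_num, 3 + 2 * Real.pi, Asymptotics.IsBigO.of_bound C ?_⟩
  rw [Filter.eventually_inf_principal]
  filter_upwards [eventually_cobounded_le_norm (E := ℂ) (1 : ℝ)] with z hz hre
  have hr0 : (0 : ℝ) < ‖z‖ := by linarith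
  have h1 : ‖U (1 + z)‖ ≤ C * Real.exp (Real.pi * ‖z‖) := by
    refine (hU (1 + z) ?_).trans ?_
    · have : (0 : ℝ) < z.re := hre
      simp only [add_re, one_re]
      linarith
    · have h2 : |(1 + z).im| ≤ ‖z‖ := by
        simp only [add_im, one_im, zero_add]
        exact Complex.abs_im_le_norm z
      gcongr
  have h2 : (st z).re ≤ ‖z‖ * (|Real.log ‖z‖| + Real.pi) + ‖z‖ := by
    refine (Complex.re_le_norm _).trans ?_
    unfold st
    refine (norm_sub_le _ _).trans ?_
    rw [norm_mul]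
    gcongr
    exact a4_norm_log z
  have h3 : |Real.log ‖z‖| ≤ 2 * ‖z‖ ^ (1 / 2 : ℝ) := by
    rw [abs_of_nonneg (Real.log_nonneg hz)]
    have := Real.log_le_rpow_div hr0.le (show (0 : ℝ) < 1 / 2 by norm_num)
    linarith
  have h4 : (1 : ℝ) ≤ ‖z‖ ^ (1 / 2 : ℝ) := Real.one_le_rpow hz (by norm_num)
  have h5 : ‖z‖ ^ (3 / 2 : ℝ) = ‖z‖ * ‖z‖ ^ (1 / 2 : ℝ) := by
    rw [show (3 / 2 : ℝ) = 1 + 1 / 2 by norm_num, Real.rpow_add hr0, Real.rpow_one]
  have h6 : ‖z‖ ≤ ‖z‖ ^ (3 / 2 : ℝ) := by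
    rw [h5]
    nlinarith
  rw [norm_mul, Complex.norm_exp, Real.norm_eq_abs, abs_of_pos (Real.exp_pos _)]
  calc ‖U (1 + z)‖ * Real.exp (st z).re
      ≤ C * Real.exp (Real.pi * ‖z‖) *
          Real.exp (‖z‖ * (2 * ‖z‖ ^ (1 / 2 : ℝ) + Real.pi) + ‖z‖) := by
        gcongr
        refine h2.trans ?_
        gcongr
    _ = C * Real.exp (Real.pi * ‖z‖ + (‖z‖ * (2 * ‖z‖ ^ (1 / 2 : ℝ) + Real.pi) + ‖z‖)) := by
        rw [Real.exp_add (Real.pi * ‖z‖), mul_assoc]
    _ ≤ C * Real.exp ((3 + 2 * Real.pi) * ‖z‖ ^ (3 / 2 : ℝ)) := by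
        gcongr
        have h7 := Real.pi_pos
        have h8 : Real.pi * ‖z‖ ≤ Real.pi * ‖z‖ ^ (3 / 2 : ℝ) := by gcongr
        have h9 : ‖z‖ * (2 * ‖z‖ ^ (1 / 2 : ℝ) + Real.pi) =
            2 * ‖z‖ ^ (3 / 2 : ℝ) + Real.pi * ‖z‖ := by rw [h5]; ring
        rw [h9]
        linarith

private theorem a4_real : ∃ C : ℝ, ∀ x : ℝ, 0 ≤ x →
    ‖U (1 + (x : ℂ)) * exp (st (x : ℂ))‖ ≤ C := by
  obtain ⟨C, hC, h⟩ := Gamma_real_lower
  refine ⟨C, fun x hx => ?_⟩
  have h1 : st (x : ℂ) = ((x * Real.log x - x : ℝ) : ℂ) := by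
    unfold st
    rw [← Complex.ofReal_log hx]
    push_cast
    ring
  have h2 : U (1 + (x : ℂ)) = (((Real.Gamma (1 + x))⁻¹ : ℝ) : ℂ) := by
    unfold U
    rw [Complex.ofReal_inv, ← Complex.Gamma_ofReal]
    push_cast
    rfl
  have h3 : 0 < Real.Gamma (1 + x) := Real.Gamma_pos_of_pos (by linarith)
  rw [h1, h2, norm_mul, Complex.norm_exp, Complex.norm_real, Real.norm_eq_abs,
    abs_of_pos (inv_pos.2 h3), Complex.ofReal_re, inv_mul_le_iff₀ h3,
    mul_comm (Real.Gamma (1 + x)) C]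
  exact h x hx

private theorem a4_st_imag (y : ℝ) : (st (y * I)).re = -(Real.pi / 2 * |y|) := by
  unfold st
  rw [Complex.sub_re, Complex.mul_re]
  have h1 : ((y : ℂ) * I).re = 0 := by simp
  have h2 : ((y : ℂ) * I).im = y := by simp
  rw [h1, h2, Complex.log_im, zero_mul, zero_sub, sub_zero]
  rcases lt_trichotomy y 0 with h | h | h
  · have h3 : (y : ℂ) * I = ((-y : ℝ) : ℂ) * (-I) := by push_cast; ring
    rw [h3, Complex.arg_real_mul _ (by linarith : 0 < -y), Complex.arg_neg_I, abs_of_neg h]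
    ring
  · rw [h]; simp
  · rw [Complex.arg_real_mul _ h, Complex.arg_I, abs_of_pos h]
    ring

private theorem a4_imag : ∃ C : ℝ, 0 < C ∧ ∀ y : ℝ, ‖U (1 + y * I) * exp (st (y * I))‖ ≤ C := by
  obtain ⟨C, hC, hU⟩ := U_strip
  refine ⟨max 1 (C * Real.exp Real.pi), lt_max_of_lt_left one_pos, fun y => ?_⟩
  rw [norm_mul, Complex.norm_exp, a4_st_imag]
  rcases le_or_gt |y| 1 with h | h
  · refine le_max_of_le_right ?_
    have h1 := hU (1 + y * I) (by simp)
    have h2 : |((1 : ℂ) + y * I).im| = |y| := by simp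
    rw [h2] at h1
    have h3 : Real.exp (-(Real.pi / 2 * |y|)) ≤ 1 := by
      rw [Real.exp_le_one_iff]
      have := Real.pi_pos
      have := abs_nonneg y
      nlinarith
    calc ‖U (1 + y * I)‖ * Real.exp (-(Real.pi / 2 * |y|)) ≤
        (C * Real.exp (Real.pi * |y|)) * 1 := by gcongr
      _ ≤ C * Real.exp Real.pi := by
        rw [mul_one]
        gcongr
        have := Real.pi_pos
        nlinarith
  · refine le_max_of_le_left ?_
    have hy : y ≠ 0 := by
      rintro rfl
      simp at h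
      linarith
    have h1 := norm_Gamma_imag hy
    have h2 : ‖U (1 + y * I)‖ ^ 2 = Real.sinh (Real.pi * y) / (Real.pi * y) := by
      unfold U
      rw [norm_inv, inv_pow, h1, inv_div]
    have h3 : Real.sinh (Real.pi * y) / (Real.pi * y) =
        Real.sinh (Real.pi * |y|) / (Real.pi * |y|) := by
      rcases abs_cases y with ⟨h4, -⟩ | ⟨h4, -⟩
      · rw [h4]
      · rw [h4, mul_neg, Real.sinh_neg, neg_div_neg_eq]
    have h4 : Real.sinh (Real.pi * |y|) ≤ Real.exp (Real.pi * |y|) / 2 := by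
      rw [Real.sinh_eq]
      have := Real.exp_pos (-(Real.pi * |y|))
      linarith
    have hpi := Real.pi_gt_three
    have h5 : 1 ≤ Real.pi * |y| := by nlinarith
    have h6 : ‖U (1 + y * I)‖ ^ 2 ≤ Real.exp (Real.pi * |y|) := by
      rw [h2, h3, div_le_iff₀ (by linarith)]
      have := Real.exp_pos (Real.pi * |y|)
      nlinarith
    have h7 : (‖U (1 + y * I)‖ * Real.exp (-(Real.pi / 2 * |y|))) ^ 2 ≤ 1 := by
      rw [mul_pow, ← Real.exp_nat_mul]
      calc ‖U (1 + y * I)‖ ^ 2 * Real.exp ((2 : ℕ) * -(Real.pi / 2 * |y|)) ≤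
          Real.exp (Real.pi * |y|) * Real.exp ((2 : ℕ) * -(Real.pi / 2 * |y|)) := by gcongr
        _ = 1 := by
          rw [← Real.exp_add, Real.exp_eq_one_iff]
          push_cast
          ring
    nlinarith [norm_nonneg (U (1 + y * I)), Real.exp_pos (-(Real.pi / 2 * |y|)),
      mul_nonneg (norm_nonneg (U (1 + y * I))) (Real.exp_pos (-(Real.pi / 2 * |y|))).le]

/-- AXG-A4. Proof. As A3, with `g(x) = U(1+x) exp (st x)`: growth
`|U(1+x)| ≤ C exp (π |Im x|)` (A1b), bounded on the positive real axis by A2b, and on the imaginary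
axis `|U(1+iy)|² = sinh (π y) / (π y) ≤ C exp (π |y|)` (A1c; bounded near `0`) with
`Re st(iy) = -π |y| / 2`. (The factor `1 + ‖x‖` in the statement is slack.) -/
theorem U_rhp : ∃ C : ℝ, 0 < C ∧ ∀ x : ℂ, 0 ≤ x.re →
    ‖U (1 + x)‖ ≤ C * (1 + ‖x‖) * Real.exp (-(st x).re) := by
  obtain ⟨C, hC, him⟩ := a4_imag
  obtain ⟨C', hre⟩ := a4_real
  refine ⟨C, hC, fun x hx => ?_⟩
  have h1 : ‖U (1 + x) * exp (st x)‖ ≤ C := by
    refine PhragmenLindelof.right_half_plane_of_bounded_on_real
      (f := fun x : ℂ => U (1 + x) * exp (st x)) a4_diff a4_growth ?_ (fun y => him y) hx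
    refine Filter.isBoundedUnder_of_eventually_le (a := C') ?_
    filter_upwards [Filter.eventually_ge_atTop (0 : ℝ)] with y hy
    exact hre y hy
  rw [norm_mul, Complex.norm_exp] at h1
  have h2 : ‖U (1 + x)‖ ≤ C * Real.exp (-(st x).re) := by
    rw [Real.exp_neg, ← div_eq_mul_inv, le_div_iff₀ (Real.exp_pos _)]
    exact h1
  refine h2.trans ?_
  have h3 : C ≤ C * (1 + ‖x‖) := by nlinarith [norm_nonneg x]
  gcongr

end Pool.Agent.Helper94.AXG
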