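import Pool.Agent.Helper94.AXG.A3
import Pool.Agent.Helper94.AXG.A4

/-! # AXG-A5: wide sectors -/

namespace Pool.Agent.Helper94.AXG

open Complex

private theorem st_re (x : ℂ) : (st x).re = x.re * Real.log ‖x‖ - x.im * arg x - x.re := by
  unfold st
  rw [sub_re, mul_re, log_re, log_im]

/-- AXG-A5a: for `Im x ≠ 0` one has `log (-x) = log x ∓ iπ` (for `±Im x > 0`), so
`st(-x) = -st(x) ± iπ x` and the real parts give the formula. (`Im x ≠ 0` is needed.) -/
theorem re_st_neg {x : ℂ} (hx : x.im ≠ 0) : (st (-x)).re = -(st x).re - Real.pi * |x.im| := by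
  rw [st_re, st_re, norm_neg, neg_re, neg_im]
  rcases lt_or_gt_of_ne hx with h | h
  · rw [arg_neg_eq_arg_add_pi_of_im_neg h, abs_of_neg h]
    ring
  · rw [arg_neg_eq_arg_sub_pi_of_im_pos h, abs_of_pos h]
    ring

private theorem exists_R (K : ℝ) {ε : ℝ} (hε : 0 < ε) :
    ∃ R : ℝ, 1 ≤ R ∧ ∀ t : ℝ, R ≤ t → K * (1 + t) ≤ Real.exp (ε * t) := by
  refine ⟨max 1 (4 * |K| / ε ^ 2), le_max_left _ _, fun t ht => ?_⟩
  have h1 : 1 ≤ t := (le_max_left _ _).trans ht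
  have h2 : 4 * |K| / ε ^ 2 ≤ t := (le_max_right _ _).trans ht
  have h3 : 4 * |K| ≤ t * ε ^ 2 := (div_le_iff₀ (by positivity)).1 h2
  have h4 := Real.quadratic_le_exp_of_nonneg (x := ε * t) (by positivity)
  have h5 : K * (1 + t) ≤ |K| * (1 + t) :=
    mul_le_mul_of_nonneg_right (le_abs_self K) (by linarith)
  have h6 : |K| * (1 + t) ≤ |K| * (2 * t) :=
    mul_le_mul_of_nonneg_left (by linarith) (abs_nonneg K)
  have h7 : 4 * |K| * t ≤ t * ε ^ 2 * t := mul_le_mul_of_nonneg_right h3 (by linarith)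
  have h8 : 0 ≤ ε * t := by positivity
  nlinarith

private theorem norm_sin_eq (z : ℂ) :
    ‖sin z‖ = ‖exp (-z * I) - exp (z * I)‖ / 2 := by
  have : sin z = (exp (-z * I) - exp (z * I)) * I / 2 := rfl
  rw [this, norm_div, norm_mul, norm_I, mul_one]
  norm_num

private theorem norm_exp1 (z : ℂ) : ‖exp (-z * I)‖ = Real.exp z.im := by
  rw [norm_exp]
  congr 1
  simp

private theorem norm_exp2 (z : ℂ) : ‖exp (z * I)‖ = Real.exp (-z.im) := by
  rw [norm_exp]
  congr 1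
  simp

private theorem norm_sin_le (z : ℂ) : ‖sin z‖ ≤ Real.exp |z.im| := by
  rw [norm_sin_eq]
  have h1 := norm_sub_le (exp (-z * I)) (exp (z * I))
  rw [norm_exp1, norm_exp2] at h1
  have h2 : Real.exp z.im ≤ Real.exp |z.im| := Real.exp_le_exp.2 (le_abs_self _)
  have h3 : Real.exp (-z.im) ≤ Real.exp |z.im| := Real.exp_le_exp.2 (neg_le_abs _)
  linarith

private theorem le_norm_sin (z : ℂ) (hz : 1 ≤ |z.im|) : Real.exp |z.im| / 4 ≤ ‖sin z‖ := by
  rw [norm_sin_eq]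
  have h0 : Real.exp |z.im| - Real.exp (-|z.im|) ≤ ‖exp (-z * I) - exp (z * I)‖ := by
    rcases le_total 0 z.im with h | h
    · rw [abs_of_nonneg h]
      have h1 := norm_sub_norm_le (exp (-z * I)) (exp (z * I))
      rwa [norm_exp1, norm_exp2] at h1
    · rw [abs_of_nonpos h, neg_neg]
      have h1 := norm_sub_norm_le (exp (z * I)) (exp (-z * I))
      rw [norm_exp1, norm_exp2, norm_sub_rev] at h1
      exact h1
  have h1 : Real.exp (-|z.im|) ≤ 1 := Real.exp_le_one_iff.2 (by linarith)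
  have h2 : 2 ≤ Real.exp |z.im| := by
    have := Real.add_one_le_exp |z.im|
    linarith
  linarith

private theorem im_ge {η : ℝ} (hη : 0 < η) (hη2 : η < Real.pi / 2) {x : ℂ} (hx : x.re < 0)
    (ha : |arg x| ≤ Real.pi - η) : ‖x‖ * Real.sin η ≤ |x.im| := by
  have hx0 : x ≠ 0 := by
    rintro rfl
    simp at hx
  have h1 : |x.im| = ‖x‖ * Real.sin |arg x| := by
    have h2 : x.im = ‖x‖ * Real.sin (arg x) := (norm_mul_sin_arg x).symm
    have h3 : 0 ≤ Real.sin |arg x| :=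
      Real.sin_nonneg_of_nonneg_of_le_pi (abs_nonneg _) (abs_arg_le_pi x)
    rcases le_total 0 (arg x) with h | h
    · rw [abs_of_nonneg h] at h3 ⊢
      conv_lhs => rw [h2]
      exact abs_of_nonneg (mul_nonneg (norm_nonneg x) h3)
    · rw [abs_of_nonpos h] at h3 ⊢
      rw [Real.sin_neg] at h3 ⊢
      conv_lhs => rw [h2]
      rw [abs_of_nonpos (mul_nonpos_of_nonneg_of_nonpos (norm_nonneg x) (by linarith))]
      ring
  rw [h1]
  refine mul_le_mul_of_nonneg_left ?_ (norm_nonneg x)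
  have h2 : Real.pi / 2 < |arg x| := by
    by_contra h3
    exact absurd (abs_arg_le_pi_div_two_iff.1 (not_lt.1 h3)) (not_le.2 hx)
  rw [← Real.sin_pi_sub |arg x|]
  exact Real.sin_le_sin_of_le_of_le_pi_div_two (by linarith) (by linarith) (by linarith)

private theorem Gamma_div {x : ℂ} (hx : x ≠ 0) : ‖Gamma x‖ = ‖Gamma (1 + x)‖ / ‖x‖ := by
  rw [add_comm, Gamma_add_one x hx, norm_mul]
  field_simp

/-- AXG-A5b. Proof. `Re x ≥ 0`: `Γ(x) = Γ(1+x)/x` and A3; `C (1+‖x‖)/‖x‖ ≤ exp (ε ‖x‖)` for large `‖x‖`.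
`Re x < 0`: then `|Im x| ≥ ‖x‖ sin η` is large (as `|arg x| ≤ π - η`), and by the reflection formula
`Γ(x) = π / (sin (π x) Γ(1-x)) = π U(1 + (-x)) / sin (π x)`, where `|sin (π x)| ≥ exp (π |Im x|) / 4`
as soon as `|Im x| ≥ 1`, and `‖U(1 + (-x))‖ ≤ C (1+‖x‖) exp (-(st (-x)).re)` (A4);
`-(st (-x)).re - π |Im x| = (st x).re` (A5a). -/
theorem Gamma_wide {η ε : ℝ} (hη : 0 < η) (hη2 : η < Real.pi / 2) (hε : 0 < ε) : ∃ R : ℝ, ∀ x : ℂ,
    R ≤ ‖x‖ → |arg x| ≤ Real.pi - η → ‖Gamma x‖ ≤ Real.exp ((st x).re + ε * ‖x‖) := by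
  obtain ⟨C, hC, h3⟩ := Gamma_rhp
  obtain ⟨C', hC', h4⟩ := U_rhp
  obtain ⟨R₁, hR₁, e1⟩ := exists_R C hε
  obtain ⟨R₂, hR₂, e2⟩ := exists_R (4 * Real.pi * C') hε
  have hs : 0 < Real.sin η := Real.sin_pos_of_pos_of_lt_pi hη (by linarith [Real.pi_pos])
  refine ⟨max (max R₁ R₂) (1 / Real.sin η), fun x hx ha => ?_⟩
  have hx1 : R₁ ≤ ‖x‖ := ((le_max_left _ _).trans (le_max_left _ _)).trans hx
  have hx2 : R₂ ≤ ‖x‖ := ((le_max_right _ _).trans (le_max_left _ _)).trans hx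
  have hx3 : 1 / Real.sin η ≤ ‖x‖ := (le_max_right _ _).trans hx
  have hxp : 1 ≤ ‖x‖ := hR₁.trans hx1
  have hx0 : x ≠ 0 := by
    rintro rfl
    rw [norm_zero] at hxp
    linarith
  rw [Real.exp_add]
  rcases le_or_gt 0 x.re with h | h
  · rw [Gamma_div hx0]
    calc ‖Gamma (1 + x)‖ / ‖x‖ ≤ ‖Gamma (1 + x)‖ := div_le_self (norm_nonneg _) hxp
      _ ≤ C * (1 + ‖x‖) * Real.exp (st x).re := h3 x h
      _ ≤ Real.exp (ε * ‖x‖) * Real.exp (st x).re :=
        mul_le_mul_of_nonneg_right (e1 _ hx1) (Real.exp_pos _).le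
      _ = Real.exp (st x).re * Real.exp (ε * ‖x‖) := mul_comm _ _
  · have him : 1 ≤ |x.im| := by
      have h5 := im_ge hη hη2 h ha
      have h6 : 1 ≤ ‖x‖ * Real.sin η := (div_le_iff₀ hs).1 hx3
      linarith
    have him0 : x.im ≠ 0 := by
      intro h5
      rw [h5, abs_zero] at him
      linarith
    have hpi : ((Real.pi : ℂ) * x).im = Real.pi * x.im := by simp
    have hpi' : |((Real.pi : ℂ) * x).im| = Real.pi * |x.im| := by
      rw [hpi, abs_mul, abs_of_pos Real.pi_pos]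
    have hsin := le_norm_sin ((Real.pi : ℂ) * x) (by
      rw [hpi']
      nlinarith [Real.pi_gt_three])
    rw [hpi'] at hsin
    have hsin0 : 0 < ‖sin ((Real.pi : ℂ) * x)‖ := lt_of_lt_of_le (by positivity) hsin
    have hg : Gamma (1 + -x) ≠ 0 := Gamma_ne_zero_of_re_pos (by simp; linarith)
    have hrf := Gamma_mul_Gamma_one_sub x
    have hG : ‖Gamma x‖ = Real.pi * ‖U (1 + -x)‖ / ‖sin ((Real.pi : ℂ) * x)‖ := by
      have h5 : Gamma x = Real.pi * U (1 + -x) / sin ((Real.pi : ℂ) * x) := by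
        unfold U
        rw [← sub_eq_add_neg] at hg ⊢
        rw [mul_div_right_comm, ← hrf, mul_assoc, mul_inv_cancel₀ hg, mul_one]
      rw [h5, norm_div, norm_mul]
      congr 2
      rw [norm_real, Real.norm_eq_abs, abs_of_pos Real.pi_pos]
    have hU := h4 (-x) (by rw [neg_re]; linarith)
    rw [norm_neg, re_st_neg him0] at hU
    rw [hG, div_le_iff₀ hsin0]
    have h7 : Real.exp (-(-(st x).re - Real.pi * |x.im|)) =
        Real.exp (st x).re * Real.exp (Real.pi * |x.im|) := by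
      rw [← Real.exp_add]
      congr 1
      ring
    rw [h7] at hU
    calc Real.pi * ‖U (1 + -x)‖
        ≤ Real.pi * (C' * (1 + ‖x‖) * (Real.exp (st x).re * Real.exp (Real.pi * |x.im|))) :=
          mul_le_mul_of_nonneg_left hU Real.pi_pos.le
      _ = Real.exp (st x).re * (4 * Real.pi * C' * (1 + ‖x‖)) *
          (Real.exp (Real.pi * |x.im|) / 4) := by ring
      _ ≤ Real.exp (st x).re * Real.exp (ε * ‖x‖) * ‖sin ((Real.pi : ℂ) * x)‖ :=
          mul_le_mul (mul_le_mul_of_nonneg_left (e2 _ hx2) (Real.exp_pos _).le) hsin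
            (by positivity) (by positivity)

/-- AXG-A5c. Proof. `Re x ≥ 0`: A4. `Re x < 0`: `U(1+x) = sin (π (1+x)) Γ(-x) / π`
(reflection `Γ(1+x) Γ(-x) = π / sin (π (1+x))`), `Γ(-x) = Γ(1 + (-x)) / (-x)`, A3 for `-x`,
`|sin| ≤ exp (π |Im x|)` and A5a (again `|Im x| ≥ ‖x‖ sin η`, so `Im x ≠ 0`). -/
theorem U_wide {η ε : ℝ} (hη : 0 < η) (hη2 : η < Real.pi / 2) (hε : 0 < ε) : ∃ R : ℝ, ∀ x : ℂ,
    R ≤ ‖x‖ → |arg x| ≤ Real.pi - η → ‖U (1 + x)‖ ≤ Real.exp (-(st x).re + ε * ‖x‖) := by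
  obtain ⟨C, hC, h3⟩ := Gamma_rhp
  obtain ⟨C', hC', h4⟩ := U_rhp
  obtain ⟨R₁, hR₁, e1⟩ := exists_R C hε
  obtain ⟨R₂, hR₂, e2⟩ := exists_R C' hε
  have hs : 0 < Real.sin η := Real.sin_pos_of_pos_of_lt_pi hη (by linarith [Real.pi_pos])
  refine ⟨max (max R₁ R₂) (1 / Real.sin η), fun x hx ha => ?_⟩
  have hx1 : R₁ ≤ ‖x‖ := ((le_max_left _ _).trans (le_max_left _ _)).trans hx
  have hx2 : R₂ ≤ ‖x‖ := ((le_max_right _ _).trans (le_max_left _ _)).trans hx
  have hx3 : 1 / Real.sin η ≤ ‖x‖ := (le_max_right _ _).trans hx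
  have hxp : 1 ≤ ‖x‖ := hR₁.trans hx1
  have hx0 : x ≠ 0 := by
    rintro rfl
    rw [norm_zero] at hxp
    linarith
  rw [Real.exp_add]
  rcases le_or_gt 0 x.re with h | h
  · calc ‖U (1 + x)‖ ≤ C' * (1 + ‖x‖) * Real.exp (-(st x).re) := h4 x h
      _ ≤ Real.exp (ε * ‖x‖) * Real.exp (-(st x).re) :=
        mul_le_mul_of_nonneg_right (e2 _ hx2) (Real.exp_pos _).le
      _ = Real.exp (-(st x).re) * Real.exp (ε * ‖x‖) := mul_comm _ _
  · have him : 1 ≤ |x.im| := by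
      have h5 := im_ge hη hη2 h ha
      have h6 : 1 ≤ ‖x‖ * Real.sin η := (div_le_iff₀ hs).1 hx3
      linarith
    have him0 : x.im ≠ 0 := by
      intro h5
      rw [h5, abs_zero] at him
      linarith
    have hpi : ((Real.pi : ℂ) * (1 + x)).im = Real.pi * x.im := by simp
    have hpi' : |((Real.pi : ℂ) * (1 + x)).im| = Real.pi * |x.im| := by
      rw [hpi, abs_mul, abs_of_pos Real.pi_pos]
    have hsin := norm_sin_le ((Real.pi : ℂ) * (1 + x))
    have hsin1 := le_norm_sin ((Real.pi : ℂ) * (1 + x)) (by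
      rw [hpi']
      nlinarith [Real.pi_gt_three])
    rw [hpi'] at hsin
    have hsin0 : sin ((Real.pi : ℂ) * (1 + x)) ≠ 0 := by
      rw [← norm_pos_iff]
      exact lt_of_lt_of_le (by positivity) hsin1
    have hrf := Gamma_mul_Gamma_one_sub (1 + x)
    have h1x : 1 - (1 + x) = -x := by ring
    rw [h1x] at hrf
    have hpi0 : (Real.pi : ℂ) ≠ 0 := by
      exact_mod_cast Real.pi_pos.ne'
    have hG0 : Gamma (1 + x) ≠ 0 := by
      intro h5
      rw [h5, zero_mul] at hrf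
      exact (div_ne_zero hpi0 hsin0) hrf.symm
    have hU : U (1 + x) = Gamma (-x) * sin ((Real.pi : ℂ) * (1 + x)) / Real.pi := by
      unfold U
      rw [inv_eq_iff_eq_inv, inv_div, eq_div_iff (by
        intro h5
        rcases mul_eq_zero.1 h5 with h6 | h6
        · rw [h6, mul_zero] at hrf
          exact (div_ne_zero hpi0 hsin0) hrf.symm
        · exact hsin0 h6), ← mul_assoc, hrf]
      exact div_mul_cancel₀ _ hsin0
    have hG := Gamma_div (neg_ne_zero.2 hx0)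
    have hA := h3 (-x) (by rw [neg_re]; linarith)
    rw [norm_neg, re_st_neg him0] at hA
    rw [norm_neg] at hG
    have hG' : ‖Gamma (-x)‖ ≤ C * (1 + ‖x‖) * Real.exp (-(st x).re - Real.pi * |x.im|) := by
      rw [hG]
      exact (div_le_self (norm_nonneg _) hxp).trans hA
    rw [hU, norm_div, norm_mul, norm_real, Real.norm_eq_abs, abs_of_pos Real.pi_pos]
    have hpi1 : (1 : ℝ) ≤ Real.pi := by linarith [Real.pi_gt_three]
    calc ‖Gamma (-x)‖ * ‖sin ((Real.pi : ℂ) * (1 + x))‖ / Real.pi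
        ≤ ‖Gamma (-x)‖ * ‖sin ((Real.pi : ℂ) * (1 + x))‖ :=
          div_le_self (by positivity) hpi1
      _ ≤ C * (1 + ‖x‖) * Real.exp (-(st x).re - Real.pi * |x.im|) *
          Real.exp (Real.pi * |x.im|) :=
          mul_le_mul hG' hsin (norm_nonneg _) (by positivity)
      _ = C * (1 + ‖x‖) * Real.exp (-(st x).re) := by
          rw [mul_assoc, ← Real.exp_add]
          congr 2
          ring
      _ ≤ Real.exp (ε * ‖x‖) * Real.exp (-(st x).re) :=
          mul_le_mul_of_nonneg_right (e1 _ hx1) (Real.exp_pos _).le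
      _ = Real.exp (-(st x).re) * Real.exp (ε * ‖x‖) := mul_comm _ _

end Pool.Agent.Helper94.AXG
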