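import Pool.Agent.Helper94.AXG.A1
import Pool.Agent.Helper94.AXG.A2

/-! # AXG-A6: growth of `1/Γ` -/

namespace Pool.Agent.Helper94.AXG

open Complex

/-- AXG-A6. Proof. `Re z ≥ 1`: A1b. `Re z ≤ 1`: `U(z) = Γ(1-z) sin(π z)/π` away from the poles of
`Γ(1-z)`; if `Re z ≤ 0` then `|Γ(1-z)| ≤ Γ(1 - Re z)` (A1a) `≤ C (1 + ‖z‖) exp (‖z‖ log (1+‖z‖))` (A2a
with `x = -Re z`; `x log x - x ≤ ‖z‖ log (1 + ‖z‖)`), and `|sin (π z)| ≤ exp (π ‖z‖)`. If
`0 ≤ Re z ≤ 1`: `U(z) = z U(z+1)` and A1b for `z + 1`. -/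
theorem U_growth : ∃ C : ℝ, 0 < C ∧ ∀ z : ℂ,
    ‖U z‖ ≤ Real.exp (C * (1 + ‖z‖) * Real.log (2 + ‖z‖)) := by
  obtain ⟨C1, hC1, h1⟩ := U_strip
  obtain ⟨C2, hC2, h2⟩ := Gamma_real_upper
  have hl2 : 0 < Real.log 2 := Real.log_pos one_lt_two
  set K : ℝ := max (max C1 C2) 1 with hK
  have hK1 : 1 ≤ K := le_max_right _ _
  have hKC1 : C1 ≤ K := le_trans (le_max_left _ _) (le_max_left _ _)
  have hKC2 : C2 ≤ K := le_trans (le_max_right _ _) (le_max_left _ _)
  have hlK : 0 ≤ Real.log K := Real.log_nonneg hK1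
  -- a uniform bound
  have hb : ∀ z : ℂ, ‖U z‖ ≤
      K * (1 + ‖z‖) * Real.exp (‖z‖ * Real.log (1 + ‖z‖)) * Real.exp (Real.pi * ‖z‖) := by
    intro z
    have ht : 0 ≤ ‖z‖ := norm_nonneg z
    have hlt : 0 ≤ ‖z‖ * Real.log (1 + ‖z‖) :=
      mul_nonneg ht (Real.log_nonneg (by linarith))
    have he1 : 1 ≤ Real.exp (‖z‖ * Real.log (1 + ‖z‖)) := Real.one_le_exp hlt
    have hep : 0 < Real.exp (Real.pi * ‖z‖) := Real.exp_pos _
    have him : Real.exp (Real.pi * |z.im|) ≤ Real.exp (Real.pi * ‖z‖) :=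
      Real.exp_le_exp.2 (mul_le_mul_of_nonneg_left (abs_im_le_norm z) Real.pi_pos.le)
    rcases le_or_gt 1 z.re with hre | hre
    · have h3 := h1 z hre
      calc ‖U z‖ ≤ C1 * Real.exp (Real.pi * |z.im|) := h3
        _ ≤ K * Real.exp (Real.pi * ‖z‖) := mul_le_mul hKC1 him (Real.exp_pos _).le (by linarith)
        _ ≤ K * (1 + ‖z‖) * Real.exp (‖z‖ * Real.log (1 + ‖z‖)) * Real.exp (Real.pi * ‖z‖) := by
          refine mul_le_mul_of_nonneg_right ?_ hep.le
          have h4 : K ≤ K * (1 + ‖z‖) := by nlinarith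
          have h5 : K * (1 + ‖z‖) ≤ K * (1 + ‖z‖) * Real.exp (‖z‖ * Real.log (1 + ‖z‖)) :=
            le_mul_of_one_le_right (by positivity) he1
          linarith
    · rcases le_or_gt 0 z.re with hre0 | hre0
      · have h3 : U z = z * U (z + 1) := by
          unfold U
          exact one_div_Gamma_eq_self_mul_one_div_Gamma_add_one z
        have h4 := h1 (z + 1) (by rw [add_re, one_re]; linarith)
        have h5 : (z + 1).im = z.im := by rw [add_im, one_im, add_zero]
        rw [h5] at h4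
        calc ‖U z‖ = ‖z‖ * ‖U (z + 1)‖ := by rw [h3, norm_mul]
          _ ≤ (1 + ‖z‖) * (C1 * Real.exp (Real.pi * |z.im|)) :=
            mul_le_mul (by linarith) h4 (norm_nonneg _) (by linarith)
          _ ≤ (1 + ‖z‖) * (K * Real.exp (Real.pi * ‖z‖)) :=
            mul_le_mul_of_nonneg_left
              (mul_le_mul hKC1 him (Real.exp_pos _).le (by linarith)) (by linarith)
          _ = K * (1 + ‖z‖) * 1 * Real.exp (Real.pi * ‖z‖) := by ring
          _ ≤ K * (1 + ‖z‖) * Real.exp (‖z‖ * Real.log (1 + ‖z‖)) * Real.exp (Real.pi * ‖z‖) := by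
            refine mul_le_mul_of_nonneg_right ?_ hep.le
            exact mul_le_mul_of_nonneg_left he1 (by positivity)
      · have hg0 : Gamma (1 - z) ≠ 0 :=
          Gamma_ne_zero_of_re_pos (by rw [sub_re, one_re]; linarith)
        have h3 : U z = Gamma (1 - z) * (sin (Real.pi * z) / Real.pi) := by
          have h4 := Gamma_mul_Gamma_one_sub z
          have h5 : (Gamma z)⁻¹ = Gamma (1 - z) * (Gamma z * Gamma (1 - z))⁻¹ := by
            rw [mul_inv, mul_comm (Gamma z)⁻¹, ← mul_assoc, mul_inv_cancel₀ hg0, one_mul]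
          unfold U
          rw [h5, h4, inv_div]
        set x : ℝ := -z.re with hx
        have hx0 : 0 < x := by rw [hx]; linarith
        have hxt : x ≤ ‖z‖ := by
          have h4 := abs_re_le_norm z
          have h5 := neg_abs_le z.re
          rw [hx]
          linarith
        have hG : ‖Gamma (1 - z)‖ ≤ K * (1 + ‖z‖) * Real.exp (‖z‖ * Real.log (1 + ‖z‖)) := by
          have h4 := norm_Gamma_le_re (s := 1 - z) (by rw [sub_re, one_re]; linarith)
          have h5 : (1 - z).re = 1 + x := by rw [sub_re, one_re, hx]; ring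
          rw [h5] at h4
          have h6 := h2 x hx0.le
          have h7 : x * Real.log x - x ≤ ‖z‖ * Real.log (1 + ‖z‖) := by
            rcases le_or_gt x 1 with h8 | h8
            · have h9 : Real.log x ≤ 0 := Real.log_nonpos hx0.le h8
              have h10 : x * Real.log x ≤ 0 := mul_nonpos_of_nonneg_of_nonpos hx0.le h9
              linarith
            · have h9 : 0 ≤ Real.log x := Real.log_nonneg h8.le
              have h10 : Real.log x ≤ Real.log (1 + ‖z‖) :=
                Real.log_le_log hx0 (by linarith)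
              have h11 : x * Real.log x ≤ ‖z‖ * Real.log (1 + ‖z‖) :=
                mul_le_mul hxt h10 h9 ht
              linarith
          calc ‖Gamma (1 - z)‖ ≤ C2 * (1 + x) * Real.exp (x * Real.log x - x) := le_trans h4 h6
            _ ≤ K * (1 + ‖z‖) * Real.exp (‖z‖ * Real.log (1 + ‖z‖)) := by
              refine mul_le_mul ?_ (Real.exp_le_exp.2 h7) (Real.exp_pos _).le (by positivity)
              exact mul_le_mul hKC2 (by linarith) (by linarith) (by linarith)
        have hs : ‖sin (Real.pi * z) / Real.pi‖ ≤ Real.exp (Real.pi * ‖z‖) := by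
          have h4 : ‖((Real.pi : ℝ) : ℂ) * z‖ = Real.pi * ‖z‖ := by
            rw [norm_mul, norm_real, Real.norm_eq_abs, abs_of_pos Real.pi_pos]
          have h5 : ‖sin (Real.pi * z)‖ ≤ Real.exp (Real.pi * ‖z‖) := by
            rw [← h4]
            set w : ℂ := Real.pi * z with hw
            rw [sin, norm_div, norm_mul, norm_I, mul_one, (by simp : ‖(2 : ℂ)‖ = 2)]
            have h6 : ‖exp (-w * I)‖ ≤ Real.exp ‖w‖ := by
              refine le_trans (norm_exp_le_exp_norm _) (le_of_eq ?_)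
              rw [norm_mul, norm_neg, norm_I, mul_one]
            have h7 : ‖exp (w * I)‖ ≤ Real.exp ‖w‖ := by
              refine le_trans (norm_exp_le_exp_norm _) (le_of_eq ?_)
              rw [norm_mul, norm_I, mul_one]
            have h8 := norm_sub_le (exp (-w * I)) (exp (w * I))
            rw [div_le_iff₀ (by norm_num : (0 : ℝ) < 2)]
            linarith
          rw [norm_div, norm_real, Real.norm_eq_abs, abs_of_pos Real.pi_pos]
          refine le_trans (div_le_self (norm_nonneg _) ?_) h5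
          linarith [Real.pi_gt_three]
        calc ‖U z‖ = ‖Gamma (1 - z)‖ * ‖sin (Real.pi * z) / Real.pi‖ := by rw [h3, norm_mul]
          _ ≤ K * (1 + ‖z‖) * Real.exp (‖z‖ * Real.log (1 + ‖z‖)) * Real.exp (Real.pi * ‖z‖) :=
            mul_le_mul hG hs (norm_nonneg _) (by positivity)
  refine ⟨2 + Real.pi / Real.log 2 + Real.log K / Real.log 2, by positivity, fun z => ?_⟩
  refine le_trans (hb z) ?_
  have ht : 0 ≤ ‖z‖ := norm_nonneg z
  set t : ℝ := ‖z‖ with htdef
  set L : ℝ := Real.log (2 + t) with hL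
  have hL2 : Real.log 2 ≤ L := Real.log_le_log (by norm_num) (by linarith)
  have hL0 : 0 < L := lt_of_lt_of_le hl2 hL2
  have e1 : K * (1 + t) * Real.exp (t * Real.log (1 + t)) * Real.exp (Real.pi * t) =
      Real.exp (Real.log K + Real.log (1 + t) + t * Real.log (1 + t) + Real.pi * t) := by
    rw [Real.exp_add, Real.exp_add, Real.exp_add, Real.exp_log (by linarith),
      Real.exp_log (by linarith)]
  rw [e1]
  apply Real.exp_le_exp.2
  have f1 : Real.log (1 + t) ≤ L := Real.log_le_log (by linarith) (by linarith)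
  have f2 : Real.log (1 + t) + t * Real.log (1 + t) ≤ (1 + t) * L := by
    have : (1 + t) * Real.log (1 + t) ≤ (1 + t) * L := mul_le_mul_of_nonneg_left f1 (by linarith)
    linarith
  have f3 : ∀ a : ℝ, 0 ≤ a → a * (1 + t) ≤ a / Real.log 2 * (1 + t) * L := by
    intro a ha
    have g1 : 1 ≤ L / Real.log 2 := by rw [le_div_iff₀ hl2, one_mul]; exact hL2
    have g2 : a * (1 + t) * 1 ≤ a * (1 + t) * (L / Real.log 2) :=
      mul_le_mul_of_nonneg_left g1 (by positivity)
    calc a * (1 + t) = a * (1 + t) * 1 := by ring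
      _ ≤ a * (1 + t) * (L / Real.log 2) := g2
      _ = a / Real.log 2 * (1 + t) * L := by ring
  have f4 := f3 (Real.log K) hlK
  have f5 := f3 Real.pi Real.pi_pos.le
  have f6 : Real.log K ≤ Real.log K * (1 + t) := by nlinarith
  have f7 : Real.pi * t ≤ Real.pi * (1 + t) := by nlinarith [Real.pi_pos]
  have f8 : 0 ≤ (1 + t) * L := by positivity
  calc Real.log K + Real.log (1 + t) + t * Real.log (1 + t) + Real.pi * t
      ≤ Real.log K / Real.log 2 * (1 + t) * L + (1 + t) * L +
        Real.pi / Real.log 2 * (1 + t) * L := by linarith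
    _ ≤ (2 + Real.pi / Real.log 2 + Real.log K / Real.log 2) * (1 + t) * L := by nlinarith

end Pool.Agent.Helper94.AXG
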