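import Pool.Agent.Helper94.AXG.Defs

/-! # AXG-B1: Phragmen-Lindelof in sectors of opening `< π` -/

namespace Pool.Agent.Helper94.AXG

open Complex

/-- AXG-B1a. Proof. `PhragmenLindelof.horizontal_strip` for `g(w) = f(exp w)` on the strip
`θ₁ < Im w < θ₂`: `g` is differentiable on the strip and continuous on its closure, the growth
condition holds with `c = 1 < π / (θ₂ - θ₁)` because `‖g w‖ ≤ exp (C (1 + exp (Re w)))` (replace `C`
by `|C|`), and `g` is bounded by `M` on the boundary. For `r > 0` put `w = log r + iφ`; for `r = 0` the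
point is `0` and `h1` applies. -/
theorem pl_sector {f : ℂ → ℂ} {θ₁ θ₂ C M : ℝ} (h12 : θ₁ < θ₂) (hlt : θ₂ - θ₁ < Real.pi)
    (hf : ∀ r : ℝ, 0 ≤ r → ∀ φ ∈ Set.Icc θ₁ θ₂, DifferentiableAt ℂ f (r * exp (φ * I)))
    (hg : ∀ r : ℝ, 0 ≤ r → ∀ φ ∈ Set.Icc θ₁ θ₂, ‖f (r * exp (φ * I))‖ ≤ Real.exp (C * (1 + r)))
    (h1 : ∀ r : ℝ, 0 ≤ r → ‖f (r * exp (θ₁ * I))‖ ≤ M)
    (h2 : ∀ r : ℝ, 0 ≤ r → ‖f (r * exp (θ₂ * I))‖ ≤ M) :
    ∀ r : ℝ, 0 ≤ r → ∀ φ ∈ Set.Icc θ₁ θ₂, ‖f (r * exp (φ * I))‖ ≤ M := by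
  have key : ∀ w : ℂ, exp w = ((Real.exp w.re : ℝ) : ℂ) * exp (w.im * I) := by
    intro w
    rw [ofReal_exp, ← exp_add, re_add_im]
  have hmain : ∀ w : ℂ, θ₁ ≤ w.im → w.im ≤ θ₂ → ‖f (exp w)‖ ≤ M := by
    intro w hw1 hw2
    refine PhragmenLindelof.horizontal_strip (f := fun w => f (exp w)) (a := θ₁) (b := θ₂)
      ?_ ?_ ?_ ?_ hw1 hw2
    · have hd : ∀ z : ℂ, z.im ∈ Set.Icc θ₁ θ₂ → DifferentiableAt ℂ (fun w => f (exp w)) z := by
        intro z hz
        have h := hf (Real.exp z.re) (Real.exp_pos _).le z.im hz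
        rw [← key z] at h
        exact h.comp z differentiableAt_exp
      constructor
      · intro z hz
        exact (hd z (Set.Ioo_subset_Icc_self hz)).differentiableWithinAt
      · rw [closure_preimage_im, closure_Ioo h12.ne]
        intro z hz
        exact (hd z hz).continuousAt.continuousWithinAt
    · refine ⟨1, ?_, 2 * |C|, ?_⟩
      · rw [lt_div_iff₀ (by linarith)]; linarith
      · refine Asymptotics.IsBigO.of_bound 1 ?_
        rw [Filter.eventually_inf_principal]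
        refine Filter.Eventually.of_forall (fun z hz => ?_)
        have h := hg (Real.exp z.re) (Real.exp_pos _).le z.im (Set.Ioo_subset_Icc_self hz)
        rw [← key z] at h
        rw [one_mul, Real.norm_of_nonneg (Real.exp_pos _).le]
        refine h.trans (Real.exp_le_exp.2 ?_)
        rw [one_mul]
        have e1 : Real.exp z.re ≤ Real.exp |z.re| := Real.exp_le_exp.2 (le_abs_self _)
        have e2 : 1 ≤ Real.exp |z.re| := Real.one_le_exp (abs_nonneg _)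
        have e3 : 0 ≤ 1 + Real.exp z.re := by positivity
        calc C * (1 + Real.exp z.re) ≤ |C| * (1 + Real.exp z.re) :=
              mul_le_mul_of_nonneg_right (le_abs_self _) e3
          _ ≤ |C| * (2 * Real.exp |z.re|) :=
              mul_le_mul_of_nonneg_left (by linarith) (abs_nonneg _)
          _ = 2 * |C| * Real.exp |z.re| := by ring
    · intro z hz
      have h := h1 (Real.exp z.re) (Real.exp_pos _).le
      rw [← hz, ← key z] at h
      exact h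
    · intro z hz
      have h := h2 (Real.exp z.re) (Real.exp_pos _).le
      rw [← hz, ← key z] at h
      exact h
  intro r hr φ hφ
  rcases hr.eq_or_lt with h0 | h0
  · have h := h1 0 le_rfl
    rw [← h0]
    rw [ofReal_zero, zero_mul] at h ⊢
    exact h
  · have h := hmain ((Real.log r : ℝ) + (φ : ℂ) * I) (by simpa using hφ.1) (by simpa using hφ.2)
    have e : exp ((Real.log r : ℝ) + (φ : ℂ) * I) = r * exp (φ * I) := by
      rw [exp_add, ← ofReal_exp, Real.exp_log h0]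
    rw [e] at h
    exact h

/-- AXG-B1b. Proof. There is `c : ℂ` with `Re (c e^{iθ₁}) = h₁`, `Re (c e^{iθ₂}) = h₂` (two real linear
equations with determinant `± sin (θ₂ - θ₁) ≠ 0`), and then
`Re (c e^{iφ}) = (h₁ sin (θ₂ - φ) + h₂ sin (φ - θ₁)) / sin (θ₂ - θ₁)` for all `φ`. Apply B1a to
`Z ↦ f Z * exp (-c Z)`: it is bounded by `M` on the two rays. -/
theorem pl_interp {f : ℂ → ℂ} {θ₁ θ₂ C M h₁ h₂ : ℝ} (h12 : θ₁ < θ₂) (hlt : θ₂ - θ₁ < Real.pi)
    (hf : ∀ r : ℝ, 0 ≤ r → ∀ φ ∈ Set.Icc θ₁ θ₂, DifferentiableAt ℂ f (r * exp (φ * I)))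
    (hg : ∀ r : ℝ, 0 ≤ r → ∀ φ ∈ Set.Icc θ₁ θ₂, ‖f (r * exp (φ * I))‖ ≤ Real.exp (C * (1 + r)))
    (h1 : ∀ r : ℝ, 0 ≤ r → ‖f (r * exp (θ₁ * I))‖ ≤ M * Real.exp (h₁ * r))
    (h2 : ∀ r : ℝ, 0 ≤ r → ‖f (r * exp (θ₂ * I))‖ ≤ M * Real.exp (h₂ * r)) :
    ∀ r : ℝ, 0 ≤ r → ∀ φ ∈ Set.Icc θ₁ θ₂, ‖f (r * exp (φ * I))‖ ≤
      M * Real.exp (r * ((h₁ * Real.sin (θ₂ - φ) + h₂ * Real.sin (φ - θ₁)) /
        Real.sin (θ₂ - θ₁))) := by
  have hs : 0 < Real.sin (θ₂ - θ₁) := Real.sin_pos_of_pos_of_lt_pi (by linarith) hlt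
  obtain ⟨c, hc⟩ : ∃ c : ℂ, ∀ φ : ℝ, (c * exp (φ * I)).re =
      (h₁ * Real.sin (θ₂ - φ) + h₂ * Real.sin (φ - θ₁)) / Real.sin (θ₂ - θ₁) := by
    refine ⟨⟨(h₁ * Real.sin θ₂ - h₂ * Real.sin θ₁) / Real.sin (θ₂ - θ₁),
      (h₁ * Real.cos θ₂ - h₂ * Real.cos θ₁) / Real.sin (θ₂ - θ₁)⟩, fun φ => ?_⟩
    rw [mul_re, exp_ofReal_mul_I_re, exp_ofReal_mul_I_im, Real.sin_sub θ₂ φ, Real.sin_sub φ θ₁]
    ring
  have hre : ∀ r φ : ℝ, (c * (r * exp (φ * I))).re = r * (c * exp (φ * I)).re := by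
    intro r φ
    rw [mul_left_comm, re_ofReal_mul]
  have hn : ∀ r φ : ℝ, ‖f (r * exp (φ * I)) * exp (-(c * (r * exp (φ * I))))‖ =
      ‖f (r * exp (φ * I))‖ * Real.exp (-(r * (c * exp (φ * I)).re)) := by
    intro r φ
    rw [norm_mul, norm_exp, neg_re, hre]
  have hb := pl_sector (f := fun Z => f Z * exp (-(c * Z))) (C := C + ‖c‖) (M := M) h12 hlt
    (fun r hr φ hφ => (hf r hr φ hφ).mul
      ((differentiableAt_id.const_mul c).fun_neg.cexp))
    (fun r hr φ hφ => by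
      have e1 := hg r hr φ hφ
      rw [hn]
      have e2 : -(r * (c * exp (φ * I)).re) ≤ ‖c‖ * (1 + r) := by
        have e3 : |(c * exp (φ * I)).re| ≤ ‖c‖ := by
          refine (abs_re_le_norm _).trans ?_
          rw [norm_mul, norm_exp_ofReal_mul_I, mul_one]
        have e4 : -(r * (c * exp (φ * I)).re) ≤ r * ‖c‖ := by
          have e5 := (abs_le.1 e3).1
          nlinarith
        nlinarith [norm_nonneg c]
      calc ‖f (r * exp (φ * I))‖ * Real.exp (-(r * (c * exp (φ * I)).re)) ≤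
            Real.exp (C * (1 + r)) * Real.exp (‖c‖ * (1 + r)) :=
            mul_le_mul e1 (Real.exp_le_exp.2 e2) (Real.exp_pos _).le (Real.exp_pos _).le
        _ = Real.exp ((C + ‖c‖) * (1 + r)) := by rw [← Real.exp_add]; ring_nf)
    (fun r hr => by
      have e1 := h1 r hr
      have e2 : (c * exp (θ₁ * I)).re = h₁ := by
        rw [hc, sub_self, Real.sin_zero, mul_zero, add_zero, mul_div_cancel_right₀ _ hs.ne']
      rw [hn, e2]
      calc ‖f (r * exp (θ₁ * I))‖ * Real.exp (-(r * h₁)) ≤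
            M * Real.exp (h₁ * r) * Real.exp (-(r * h₁)) :=
            mul_le_mul_of_nonneg_right e1 (Real.exp_pos _).le
        _ = M := by
          rw [mul_assoc, ← Real.exp_add, mul_comm h₁ r, add_neg_cancel, Real.exp_zero, mul_one])
    (fun r hr => by
      have e1 := h2 r hr
      have e2 : (c * exp (θ₂ * I)).re = h₂ := by
        rw [hc, sub_self, Real.sin_zero, mul_zero, zero_add, mul_div_cancel_right₀ _ hs.ne']
      rw [hn, e2]
      calc ‖f (r * exp (θ₂ * I))‖ * Real.exp (-(r * h₂)) ≤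
            M * Real.exp (h₂ * r) * Real.exp (-(r * h₂)) :=
            mul_le_mul_of_nonneg_right e1 (Real.exp_pos _).le
        _ = M := by
          rw [mul_assoc, ← Real.exp_add, mul_comm h₂ r, add_neg_cancel, Real.exp_zero, mul_one])
  intro r hr φ hφ
  have h := hb r hr φ hφ
  rw [hn, hc] at h
  have e := mul_le_mul_of_nonneg_right h (Real.exp_pos (r * ((h₁ * Real.sin (θ₂ - φ) +
    h₂ * Real.sin (φ - θ₁)) / Real.sin (θ₂ - θ₁)))).le
  rw [mul_assoc, ← Real.exp_add, neg_add_cancel, Real.exp_zero, mul_one] at e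
  exact e

end Pool.Agent.Helper94.AXG
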