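import Pool.Agent.Helper94.AXG.B1

/-! # AXG-B2: two vanishing theorems on sectors of opening `> π` -/

namespace Pool.Agent.Helper94.AXG

open Complex

private lemma b2_arg {β r φ : ℝ} (hβ0 : 0 ≤ β) (hβ2 : β < Real.pi) (hr : 0 ≤ r) (hφ : |φ| ≤ β) :
    |arg (r * exp (φ * I))| ≤ β := by
  rcases hr.eq_or_lt with h | h
  · rw [← h]
    simpa using hβ0
  · have h1 := abs_le.1 hφ
    rw [Complex.arg_real_mul _ h, Complex.exp_mul_I, Complex.arg_cos_add_sin_mul_I]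
    · exact hφ
    · exact ⟨by linarith, by linarith⟩

private lemma b2_norm {r φ : ℝ} (hr : 0 ≤ r) : ‖((r : ℂ) * exp (φ * I))‖ = r := by
  rw [norm_mul, Complex.norm_exp_ofReal_mul_I, mul_one, Complex.norm_real, Real.norm_eq_abs,
    abs_of_nonneg hr]

private lemma b2_pass {f : ℂ → ℂ} {β θ φ C : ℝ} (hβ2 : β < Real.pi)
    (hf : HolS β f) (hg : ∀ Z : ℂ, |arg Z| ≤ β → ‖f Z‖ ≤ Real.exp (C * (1 + ‖Z‖)))
    (hθ : |θ| < β) (hφ : |φ| < β) (hd : |φ - θ| < Real.pi) :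
    ∃ θ₂ s₁ s₂ s : ℝ, |θ₂| ≤ β ∧ 0 ≤ s₁ ∧ 0 < s₂ ∧ 0 < s ∧ ∀ M h₁ h₂ : ℝ,
      (∀ r : ℝ, 0 ≤ r → ‖f (r * exp (θ * I))‖ ≤ M * Real.exp (h₁ * r)) →
      (∀ r : ℝ, 0 ≤ r → ‖f (r * exp (θ₂ * I))‖ ≤ M * Real.exp (h₂ * r)) →
      ∀ r : ℝ, 0 ≤ r → ‖f (r * exp (φ * I))‖ ≤
        M * Real.exp (r * ((h₁ * s₂ + h₂ * s₁) / s)) := by
  have hβ0 : 0 ≤ β := (abs_nonneg θ).trans hθ.le
  have hθ' := abs_lt.1 hθ
  have hφ' := abs_lt.1 hφ
  have hd' := abs_lt.1 hd
  rcases lt_trichotomy θ φ with h | h | h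
  · -- upwards
    obtain ⟨t, ht1, ht2⟩ : ∃ t, φ < t ∧ t < min β (θ + Real.pi) :=
      exists_between (lt_min hφ'.2 (by linarith))
    have ht3 : t < β := ht2.trans_le (min_le_left _ _)
    have ht4 : t < θ + Real.pi := ht2.trans_le (min_le_right _ _)
    have hsec : ∀ x ∈ Set.Icc θ t, |x| ≤ β := fun x hx =>
      abs_le.2 ⟨by linarith [hx.1], by linarith [hx.2]⟩
    refine ⟨t, Real.sin (φ - θ), Real.sin (t - φ), Real.sin (t - θ),
      abs_le.2 ⟨by linarith, ht3.le⟩, (Real.sin_pos_of_pos_of_lt_pi (by linarith)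
        (by linarith)).le, Real.sin_pos_of_pos_of_lt_pi (by linarith) (by linarith),
      Real.sin_pos_of_pos_of_lt_pi (by linarith) (by linarith), ?_⟩
    intro M h₁ h₂ h1 h2 r hr
    refine pl_interp (C := C) (by linarith : θ < t) (by linarith) ?_ ?_ h1 h2 r hr φ
      ⟨h.le, ht1.le⟩
    · intro r hr x hx
      exact hf _ (b2_arg hβ0 hβ2 hr (hsec x hx))
    · intro r hr x hx
      have h3 := hg _ (b2_arg hβ0 hβ2 hr (hsec x hx))
      rwa [b2_norm hr] at h3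
  · -- equal
    refine ⟨θ, 0, 1, 1, hθ.le, le_rfl, one_pos, one_pos, ?_⟩
    intro M h₁ h₂ h1 _ r hr
    have h3 := h1 r hr
    rw [h] at h3
    have h4 : r * ((h₁ * 1 + h₂ * 0) / 1) = h₁ * r := by ring
    rwa [h4]
  · -- downwards
    obtain ⟨t, ht2, ht1⟩ : ∃ t, max (-β) (θ - Real.pi) < t ∧ t < φ :=
      exists_between (max_lt hφ'.1 (by linarith))
    have ht3 : -β < t := (le_max_left _ _).trans_lt ht2
    have ht4 : θ - Real.pi < t := (le_max_right _ _).trans_lt ht2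
    have hsec : ∀ x ∈ Set.Icc t θ, |x| ≤ β := fun x hx =>
      abs_le.2 ⟨by linarith [hx.1], by linarith [hx.2]⟩
    refine ⟨t, Real.sin (θ - φ), Real.sin (φ - t), Real.sin (θ - t),
      abs_le.2 ⟨ht3.le, by linarith⟩, (Real.sin_pos_of_pos_of_lt_pi (by linarith)
        (by linarith)).le, Real.sin_pos_of_pos_of_lt_pi (by linarith) (by linarith),
      Real.sin_pos_of_pos_of_lt_pi (by linarith) (by linarith), ?_⟩
    intro M h₁ h₂ h1 h2 r hr
    have h3 := pl_interp (C := C) (by linarith : t < θ) (by linarith) ?_ ?_ h2 h1 r hr φ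
      ⟨ht1.le, h.le⟩
    · rwa [add_comm (h₂ * Real.sin (θ - φ))] at h3
    · intro r hr x hx
      exact hf _ (b2_arg hβ0 hβ2 hr (hsec x hx))
    · intro r hr x hx
      have h3 := hg _ (b2_arg hβ0 hβ2 hr (hsec x hx))
      rwa [b2_norm hr] at h3

private lemma b2_super {f : ℂ → ℂ} {β θ φ C : ℝ} (hβ2 : β < Real.pi)
    (hf : HolS β f) (hg : ∀ Z : ℂ, |arg Z| ≤ β → ‖f Z‖ ≤ Real.exp (C * (1 + ‖Z‖)))
    (hθ : |θ| < β) (hφ : |φ| < β) (hd : |φ - θ| < Real.pi)
    (hs : ∀ L : ℝ, ∃ M : ℝ, ∀ r : ℝ, 0 ≤ r → ‖f (r * exp (θ * I))‖ ≤ M * Real.exp (-L * r)) :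
    ∀ L : ℝ, ∃ M : ℝ, ∀ r : ℝ, 0 ≤ r → ‖f (r * exp (φ * I))‖ ≤ M * Real.exp (-L * r) := by
  obtain ⟨θ₂, s₁, s₂, s, h2, hs1, hs2, hs0, hp⟩ := b2_pass hβ2 hf hg hθ hφ hd
  have hβ0 : 0 ≤ β := (abs_nonneg θ).trans hθ.le
  intro L
  obtain ⟨M₁, hM₁⟩ := hs ((L * s + |C| * s₁) / s₂)
  refine ⟨max M₁ (Real.exp |C|), fun r hr => ?_⟩
  have h3 := hp (max M₁ (Real.exp |C|)) (-((L * s + |C| * s₁) / s₂)) |C| (fun r hr =>
    (hM₁ r hr).trans (mul_le_mul_of_nonneg_right (le_max_left _ _) (Real.exp_pos _).le))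
    (fun r hr => ?_) r hr
  · have h4 : r * ((-((L * s + |C| * s₁) / s₂) * s₂ + |C| * s₁) / s) = -L * r := by
      field_simp
      ring
    rwa [h4] at h3
  · have h5 := hg _ (b2_arg hβ0 hβ2 hr h2)
    rw [b2_norm hr] at h5
    refine h5.trans ?_
    have h6 : Real.exp (C * (1 + r)) ≤ Real.exp |C| * Real.exp (|C| * r) := by
      rw [← Real.exp_add]
      apply Real.exp_le_exp.2
      nlinarith [le_abs_self C]
    exact h6.trans (mul_le_mul_of_nonneg_right (le_max_right _ _) (Real.exp_pos _).le)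

private lemma b2_exp {f : ℂ → ℂ} {β θ φ c M : ℝ} (hβ2 : β < Real.pi)
    (hf : HolS β f)
    (hz : ∀ ε : ℝ, 0 < ε → ∃ C : ℝ, ∀ Z : ℂ, |arg Z| ≤ β → ‖f Z‖ ≤ C * Real.exp (ε * ‖Z‖))
    {C : ℝ} (hg : ∀ Z : ℂ, |arg Z| ≤ β → ‖f Z‖ ≤ Real.exp (C * (1 + ‖Z‖)))
    (hθ : |θ| < β) (hφ : |φ| < β) (hd : |φ - θ| < Real.pi) (hc : 0 < c)
    (hs : ∀ r : ℝ, 0 ≤ r → ‖f (r * exp (θ * I))‖ ≤ M * Real.exp (-c * r)) :
    ∃ c' M' : ℝ, 0 < c' ∧
      ∀ r : ℝ, 0 ≤ r → ‖f (r * exp (φ * I))‖ ≤ M' * Real.exp (-c' * r) := by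
  obtain ⟨θ₂, s₁, s₂, s, h2, hs1, hs2, hs0, hp⟩ := b2_pass hβ2 hf hg hθ hφ hd
  have hβ0 : 0 ≤ β := (abs_nonneg θ).trans hθ.le
  have hε : 0 < c * s₂ / (2 * (s₁ + 1)) := by positivity
  obtain ⟨K, hK⟩ := hz _ hε
  have hM0 : 0 ≤ max M K ∨ True := Or.inr trivial
  have hMnn : 0 ≤ max M K := by
    have h0 := hs 0 le_rfl
    have h1 : 0 ≤ M := by
      have := (norm_nonneg _).trans h0
      simpa using this
    exact h1.trans (le_max_left _ _)
  refine ⟨c * s₂ / (2 * s), max M K, by positivity, fun r hr => ?_⟩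
  have h3 := hp (max M K) (-c) (c * s₂ / (2 * (s₁ + 1))) (fun r hr =>
    (hs r hr).trans (mul_le_mul_of_nonneg_right (le_max_left _ _) (Real.exp_pos _).le))
    (fun r hr => ?_) r hr
  · refine h3.trans (mul_le_mul_of_nonneg_left (Real.exp_le_exp.2 ?_) hMnn)
    have h4 : (-c * s₂ + c * s₂ / (2 * (s₁ + 1)) * s₁) / s ≤ -(c * s₂ / (2 * s)) := by
      have h5 : c * s₂ / (2 * (s₁ + 1)) * s₁ ≤ c * s₂ / 2 := by
        rw [div_mul_eq_mul_div, div_le_div_iff₀ (by positivity) (by positivity)]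
        have : 0 < c * s₂ := by positivity
        nlinarith
      have h6 : -(c * s₂ / (2 * s)) = (-(c * s₂ / 2)) / s := by
        field_simp
      rw [h6]
      apply div_le_div_of_nonneg_right _ hs0.le
      linarith
    calc r * ((-c * s₂ + c * s₂ / (2 * (s₁ + 1)) * s₁) / s)
        ≤ r * (-(c * s₂ / (2 * s))) := mul_le_mul_of_nonneg_left h4 hr
      _ = -(c * s₂ / (2 * s)) * r := by ring
  · have h5 := hK _ (b2_arg hβ0 hβ2 hr h2)
    rw [b2_norm hr] at h5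
    exact h5.trans (mul_le_mul_of_nonneg_right (le_max_right _ _) (Real.exp_pos _).le)

/-- AXG-B2a: `f` of exponential type on the closed sector `|arg Z| ≤ β`, `π/2 < β < π`, which decays
faster than every exponential on one ray `arg = θ`, `|θ| < β`, vanishes on the right half plane.
Proof. (i) Decay faster than every exponential passes from the ray `θ` to every ray `φ` with `|φ| < β`,
`|φ - θ| < π`: for `φ > θ` choose `θ₂ ∈ (φ, β)` with `θ₂ - θ < π` and apply `pl_interp` to the sector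
`[θ, θ₂]` with `h₁ = -L` (`L` large) and `h₂ = |C|` (`M` the maximum of the two constants): the exponent at
`φ` is `r (-L sin (θ₂-φ) + |C| sin (φ-θ)) / sin (θ₂-θ)` and `sin (θ₂-φ) > 0`. For `φ < θ` symmetric.
(ii) From `θ` go to `0` (`|θ| < β < π`), from `0` to `±π/2 (< β)`. So `f` is bounded on the imaginary
axis and decays superexponentially on the positive real axis;
`PhragmenLindelof.eq_zero_on_right_half_plane_of_superexponential_decay` (growth exponent `c = 1`). -/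
theorem pl_zero_super {f : ℂ → ℂ} {β θ C : ℝ} (hβ : Real.pi / 2 < β) (hβ2 : β < Real.pi)
    (hf : HolS β f) (hg : ∀ Z : ℂ, |arg Z| ≤ β → ‖f Z‖ ≤ Real.exp (C * (1 + ‖Z‖)))
    (hθ : |θ| < β)
    (hs : ∀ L : ℝ, ∃ M : ℝ, ∀ r : ℝ, 0 ≤ r → ‖f (r * exp (θ * I))‖ ≤ M * Real.exp (-L * r)) :
    ∀ Z : ℂ, 0 ≤ Z.re → f Z = 0 := by
  have hpi := Real.pi_pos
  have h0β : |(0 : ℝ)| < β := by rw [abs_zero]; linarith
  have hs0 := b2_super hβ2 hf hg hθ h0β (by rw [zero_sub, abs_neg]; linarith) hs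
  have hp1 : |Real.pi / 2| < β := by rwa [abs_of_pos (by linarith)]
  have hp2 : |-(Real.pi / 2)| < β := by rwa [abs_neg, abs_of_pos (by linarith)]
  obtain ⟨M₁, hM₁⟩ := b2_super hβ2 hf hg h0β hp1 (by
    rw [sub_zero, abs_of_pos (by linarith)]; linarith) hs0 0
  obtain ⟨M₂, hM₂⟩ := b2_super hβ2 hf hg h0β hp2 (by
    rw [sub_zero, abs_neg, abs_of_pos (by linarith)]; linarith) hs0 0
  have key := PhragmenLindelof.eq_zero_on_right_half_plane_of_superexponential_decay (f := f)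
    ?_ ?_ ?_ ?_
  · exact fun Z hZ => key hZ
  · apply DifferentiableOn.diffContOnCl
    intro Z hZ
    have hZ' : 0 ≤ Z.re := by
      have h1 : closure {z : ℂ | 0 < z.re} ⊆ {z : ℂ | 0 ≤ z.re} :=
        closure_minimal (fun z (hz : 0 < z.re) => show 0 ≤ z.re from le_of_lt hz)
          (isClosed_le continuous_const Complex.continuous_re)
      exact h1 hZ
    exact (hf Z ((Complex.abs_arg_le_pi_div_two_iff.2 hZ').trans hβ.le)).differentiableWithinAt
  · refine ⟨1, by norm_num, |C|, ?_⟩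
    refine Asymptotics.IsBigO.of_bound (Real.exp |C|) ?_
    rw [Filter.eventually_inf_principal]
    refine Filter.Eventually.of_forall fun Z hZ => ?_
    have h1 := hg Z ((Complex.abs_arg_le_pi_div_two_iff.2 (le_of_lt hZ)).trans hβ.le)
    rw [Real.norm_eq_abs, abs_of_pos (Real.exp_pos _), ← Real.exp_add]
    refine h1.trans (Real.exp_le_exp.2 ?_)
    rw [Real.rpow_one]
    nlinarith [le_abs_self C, norm_nonneg Z]
  · intro n
    obtain ⟨M, hM⟩ := hs0 (n + 1)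
    have h1 : Filter.Tendsto (fun x : ℝ => M * Real.exp (-x)) Filter.atTop (nhds 0) := by
      have h2 := (Real.tendsto_exp_neg_atTop_nhds_zero).const_mul M
      rwa [mul_zero] at h2
    refine squeeze_zero' (Filter.Eventually.of_forall fun x => by positivity) ?_ h1
    filter_upwards [Filter.eventually_ge_atTop (0 : ℝ)] with x hx
    have h3 := hM x hx
    rw [Complex.ofReal_zero, zero_mul, Complex.exp_zero, mul_one] at h3
    calc Real.exp x ^ n * ‖f x‖ ≤ Real.exp x ^ n * (M * Real.exp (-((n : ℝ) + 1) * x)) :=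
          mul_le_mul_of_nonneg_left h3 (by positivity)
      _ = M * (Real.exp (n * x) * Real.exp (-((n : ℝ) + 1) * x)) := by
          rw [← Real.exp_nat_mul]; ring
      _ = M * Real.exp (-x) := by
          rw [← Real.exp_add]
          congr 2
          ring
  · refine ⟨max M₁ M₂, fun x => ?_⟩
    rcases le_total 0 x with hx | hx
    · have h1 := hM₁ x hx
      have h2 : (x : ℂ) * exp ((Real.pi / 2 : ℝ) * I) = x * I := by
        push_cast
        rw [Complex.exp_pi_div_two_mul_I]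
      rw [h2] at h1
      simp only [neg_zero, zero_mul, Real.exp_zero, mul_one] at h1
      exact h1.trans (le_max_left _ _)
    · have h1 := hM₂ (-x) (by linarith)
      have h2 : ((-x : ℝ) : ℂ) * exp ((-(Real.pi / 2) : ℝ) * I) = x * I := by
        push_cast
        rw [show (-((Real.pi : ℂ) / 2) * I) = -(Real.pi : ℂ) / 2 * I by ring,
          Complex.exp_neg_pi_div_two_mul_I]
        ring
      rw [h2] at h1
      simp only [neg_zero, zero_mul, Real.exp_zero, mul_one] at h1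
      exact h1.trans (le_max_right _ _)

/-- AXG-B2b: `f` of zero type on the closed sector `|arg Z| ≤ β`, `π/2 < β < π`, which decays like
`e^{-cr}` on one ray `arg = θ`, `|θ| < β`, vanishes on the right half plane.
Proof. (i) exponential decay (with some rate) passes from the ray `θ` to every ray `φ` with `|φ| < β`,
`|φ - θ| < π`: as in B2a with `h₁ = -c`, `h₂ = ε` small, since
`-c sin (θ₂-φ) + ε sin (φ-θ) < 0` for small `ε`. Hence `f` decays exponentially on every ray in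
`(-β, β)` (first go to `0`, then everywhere: `|φ| < β < π`), in particular on the ray `-b`,
`b = (π/2 + β)/2 ∈ (π/2, β)`, with some rate `c' > 0`.
(ii) For small `η > 0` let `θ₂ = π - b - η ∈ (0, π/2)`; `pl_interp` on `[-b, θ₂]`, `h₁ = -c'`,
`h₂ = ε := c' sin θ₂ / 2` (so `ε sin b ≤ c' sin θ₂ / 2`), gives at `φ = 0` the rate
`(-c' sin θ₂ + ε sin b)/sin (π - η) ≤ -(c'/2) sin (b + η) / sin η`, which tends to `-∞` as `η → 0`.
So `f` decays faster than every exponential on the ray `0`, and B2a applies (zero type implies the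
growth hypothesis: `C exp(‖Z‖) ≤ exp (C' (1 + ‖Z‖))`). -/
theorem pl_zero_type {f : ℂ → ℂ} {β θ c M : ℝ} (hβ : Real.pi / 2 < β) (hβ2 : β < Real.pi)
    (hf : HolS β f)
    (hz : ∀ ε : ℝ, 0 < ε → ∃ C : ℝ, ∀ Z : ℂ, |arg Z| ≤ β → ‖f Z‖ ≤ C * Real.exp (ε * ‖Z‖))
    (hθ : |θ| < β) (hc : 0 < c)
    (hd : ∀ r : ℝ, 0 ≤ r → ‖f (r * exp (θ * I))‖ ≤ M * Real.exp (-c * r)) :
    ∀ Z : ℂ, 0 ≤ Z.re → f Z = 0 := by
  have hpi := Real.pi_pos
  have h0β : |(0 : ℝ)| < β := by rw [abs_zero]; linarith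
  have hβ0 : 0 ≤ β := by linarith
  -- growth
  obtain ⟨K, hK⟩ := hz 1 one_pos
  have hg : ∀ Z : ℂ, |arg Z| ≤ β → ‖f Z‖ ≤ Real.exp ((|K| + 1) * (1 + ‖Z‖)) := by
    intro Z hZ
    refine (hK Z hZ).trans ?_
    have h1 : K ≤ Real.exp |K| := (le_abs_self K).trans (by linarith [Real.add_one_le_exp |K|])
    calc K * Real.exp (1 * ‖Z‖) ≤ Real.exp |K| * Real.exp (1 * ‖Z‖) :=
          mul_le_mul_of_nonneg_right h1 (Real.exp_pos _).le
      _ = Real.exp (|K| + 1 * ‖Z‖) := (Real.exp_add _ _).symm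
      _ ≤ Real.exp ((|K| + 1) * (1 + ‖Z‖)) := by
          apply Real.exp_le_exp.2
          nlinarith [norm_nonneg Z, abs_nonneg K, mul_nonneg (abs_nonneg K) (norm_nonneg Z)]
  -- the ray `-b`
  set b : ℝ := (Real.pi / 2 + β) / 2 with hb
  have hb1 : Real.pi / 2 < b := by rw [hb]; linarith
  have hb2 : b < β := by rw [hb]; linarith
  have hbβ : |-b| < β := by rw [abs_neg, abs_of_pos (by linarith)]; exact hb2
  obtain ⟨c₀, M₀, hc₀, hd₀⟩ := b2_exp hβ2 hf hz hg hθ h0β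
    (by rw [zero_sub, abs_neg]; linarith) hc hd
  obtain ⟨c₁, M₁, hc₁, hd₁⟩ := b2_exp hβ2 hf hz hg h0β hbβ
    (by rw [sub_zero]; linarith) hc₀ hd₀
  refine pl_zero_super hβ hβ2 hf hg h0β fun L => ?_
  -- the choice of `η`
  have hsb : 0 < Real.sin b := Real.sin_pos_of_pos_of_lt_pi (by linarith) (by linarith)
  obtain ⟨η, hη1, hη2, hη3⟩ : ∃ η : ℝ, 0 < η ∧ η < Real.pi - b ∧
      L * Real.sin η < c₁ / 2 * Real.sin (b + η) := by
    have hcont : Continuous fun x : ℝ => c₁ / 2 * Real.sin (b + x) - L * Real.sin x := by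
      fun_prop
    have h1 : ∀ᶠ x in nhds (0 : ℝ), 0 < c₁ / 2 * Real.sin (b + x) - L * Real.sin x := by
      apply hcont.continuousAt.eventually
      apply lt_mem_nhds
      show 0 < c₁ / 2 * Real.sin (b + 0) - L * Real.sin 0
      rw [add_zero, Real.sin_zero, mul_zero, sub_zero]
      positivity
    have h2 : ∀ᶠ x in nhdsWithin (0 : ℝ) (Set.Ioi 0),
        0 < c₁ / 2 * Real.sin (b + x) - L * Real.sin x := h1.filter_mono nhdsWithin_le_nhds
    have h3 : ∀ᶠ x in nhdsWithin (0 : ℝ) (Set.Ioi 0), x ∈ Set.Ioo (0 : ℝ) (Real.pi - b) :=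
      Ioo_mem_nhdsGT (by linarith)
    obtain ⟨x, hx1, hx2⟩ := (h2.and h3).exists
    exact ⟨x, hx2.1, hx2.2, by linarith⟩
  set t : ℝ := Real.pi - b - η with ht
  have ht0 : 0 < t := by rw [ht]; linarith
  have htb : t < β := by rw [ht]; linarith
  have hst : Real.sin t = Real.sin (b + η) := by
    rw [ht, ← Real.sin_pi_sub (b + η)]
    congr 1
    ring
  have hst0 : 0 < Real.sin t := Real.sin_pos_of_pos_of_lt_pi ht0 (by linarith)
  have hsη : 0 < Real.sin η := Real.sin_pos_of_pos_of_lt_pi hη1 (by linarith)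
  obtain ⟨K₂, hK₂⟩ := hz (c₁ * Real.sin t / 2) (by positivity)
  have hsec : ∀ x ∈ Set.Icc (-b) t, |x| ≤ β := fun x hx =>
    abs_le.2 ⟨by linarith [hx.1], by linarith [hx.2]⟩
  have hM1 : 0 ≤ M₁ := by
    have h0 := (norm_nonneg _).trans (hd₁ 0 le_rfl)
    simpa using h0
  have h3 := pl_interp (f := f) (θ₁ := -b) (θ₂ := t) (C := |K| + 1) (M := max M₁ K₂) (h₁ := -c₁)
    (h₂ := c₁ * Real.sin t / 2) (by linarith) (by rw [ht]; linarith) ?_ ?_ ?_ ?_
  · refine ⟨max M₁ K₂, fun r hr => ?_⟩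
    have h4 := h3 r hr 0 ⟨by linarith, ht0.le⟩
    refine h4.trans (mul_le_mul_of_nonneg_left (Real.exp_le_exp.2 ?_)
      (hM1.trans (le_max_left _ _)))
    have h5 : t - -b = Real.pi - η := by rw [ht]; ring
    rw [sub_zero, zero_sub, neg_neg, h5, Real.sin_pi_sub]
    have h6 : (-c₁ * Real.sin t + c₁ * Real.sin t / 2 * Real.sin b) / Real.sin η ≤ -L := by
      rw [div_le_iff₀ hsη]
      have h7 : c₁ * Real.sin t / 2 * Real.sin b ≤ c₁ * Real.sin t / 2 * 1 :=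
        mul_le_mul_of_nonneg_left (Real.sin_le_one b) (by positivity)
      rw [← hst] at hη3
      linarith
    calc r * ((-c₁ * Real.sin t + c₁ * Real.sin t / 2 * Real.sin b) / Real.sin η)
        ≤ r * -L := mul_le_mul_of_nonneg_left h6 hr
      _ = -L * r := by ring
  · intro r hr x hx
    exact hf _ (b2_arg hβ0 hβ2 hr (hsec x hx))
  · intro r hr x hx
    have h3 := hg _ (b2_arg hβ0 hβ2 hr (hsec x hx))
    rwa [b2_norm hr] at h3
  · intro r hr
    exact (hd₁ r hr).trans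
      (mul_le_mul_of_nonneg_right (le_max_left _ _) (Real.exp_pos _).le)
  · intro r hr
    have h5 := hK₂ _ (b2_arg hβ0 hβ2 hr (hsec t ⟨by linarith, le_rfl⟩))
    rw [b2_norm hr] at h5
    exact h5.trans (mul_le_mul_of_nonneg_right (le_max_right _ _) (Real.exp_pos _).le)

end Pool.Agent.Helper94.AXG
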