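import Pool.Agent.Helper94.AXG.B2
import Pool.Agent.Helper94.AXG.B3
import Pool.Agent.Helper94.AXG.B3E

/-! # AXG-B4: separation of the exponentials `exp (A Y log Y)` -/

namespace Pool.Agent.Helper94.AXG

open Complex

/-- AXG-B4a: domination. For `Y = Y₁ + r e^{iθ}`, `|θ| < π`, `r ≥ 0`, `Y₁ ≥ 1`,
`Re (A Y log Y) = Re (A Y) log ‖Y‖ - Im (A Y) arg Y`, where `A Y = A Y₁ + r A e^{iθ}`,
`|log ‖Y‖ - log (1 + r)| ≤ C` needs `‖Y‖` bounded below (`hY`: `Y ∈ Sec δ 1`, so `‖Y‖ ≥ 1`; and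
`‖Y‖ ≥ r - Y₁`, `‖Y‖ ≤ r + Y₁`). So if `Re (A e^{iθ}) ≤ -c` then
`‖exp (A Y log Y)‖ ≤ exp (-c r log (1+r) + C (1 + r))`. -/
theorem dom_ray {A : ℂ} {Y₁ θ c : ℝ} (hY₁ : 1 ≤ Y₁) (hc : 0 < c)
    (hA : (A * exp (θ * I)).re ≤ -c)
    (hY : ∀ r : ℝ, 0 ≤ r → 1 ≤ ‖(Y₁ : ℂ) + r * exp (θ * I)‖) : ∃ C : ℝ, ∀ r : ℝ, 0 ≤ r →
    ‖exp (A * (((Y₁ : ℂ) + r * exp (θ * I)) * log ((Y₁ : ℂ) + r * exp (θ * I))))‖ ≤
      Real.exp (-c * r * Real.log (1 + r) + C * (1 + r)) := by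
  have hC1 : 0 ≤ Real.log (4 * Y₁ + 1) := Real.log_nonneg (by linarith)
  refine ⟨‖A‖ * Y₁ + ‖A‖ * Y₁ * Real.log (4 * Y₁ + 1) + ‖A‖ * Y₁ * Real.pi, fun r hr => ?_⟩
  rw [norm_exp]
  refine Real.exp_le_exp.2 ?_
  obtain ⟨Y, hYd⟩ : ∃ Y : ℂ, Y = (Y₁ : ℂ) + r * exp (θ * I) := ⟨_, rfl⟩
  have hY1 : 1 ≤ ‖Y‖ := by rw [hYd]; exact hY r hr
  rw [← hYd]
  have hn1 : ‖(Y₁ : ℂ)‖ = Y₁ := by
    rw [norm_real, Real.norm_of_nonneg (by linarith)]
  have hn2 : ‖(r : ℂ) * exp (θ * I)‖ = r := by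
    rw [norm_mul, norm_exp_ofReal_mul_I, mul_one, norm_real, Real.norm_of_nonneg hr]
  have hup : ‖Y‖ ≤ Y₁ + r := by
    rw [hYd]
    refine (norm_add_le _ _).trans ?_
    rw [hn1, hn2]
  have hlow : r - Y₁ ≤ ‖Y‖ := by
    rw [hYd, add_comm]
    have h := norm_sub_le_norm_add ((r : ℂ) * exp (θ * I)) (Y₁ : ℂ)
    rw [hn1, hn2] at h
    exact h
  have hlow2 : 1 + r ≤ (4 * Y₁ + 1) * ‖Y‖ := by
    rcases le_total r (2 * Y₁) with h | h
    · nlinarith
    · nlinarith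
  have hYpos : 0 < ‖Y‖ := by linarith
  have hlog1 : Real.log ‖Y‖ ≤ Real.log (4 * Y₁ + 1) + Real.log (1 + r) := by
    rw [← Real.log_mul (by linarith) (by linarith)]
    exact Real.log_le_log hYpos (by nlinarith)
  have hlog2 : Real.log (1 + r) ≤ Real.log (4 * Y₁ + 1) + Real.log ‖Y‖ := by
    rw [← Real.log_mul (by linarith) hYpos.ne']
    exact Real.log_le_log (by linarith) hlow2
  have hre : (A * (Y * log Y)).re = (A * Y).re * Real.log ‖Y‖ - (A * Y).im * arg Y := by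
    rw [← mul_assoc, mul_re, log_re, log_im]
  have hAY : (A * Y).re ≤ ‖A‖ * Y₁ - c * r := by
    have e : A * Y = A * Y₁ + r * (A * exp (θ * I)) := by
      rw [hYd]
      ring
    rw [e, add_re, re_ofReal_mul]
    have h1 : (A * Y₁).re ≤ ‖A‖ * Y₁ := by
      refine (re_le_norm _).trans ?_
      rw [norm_mul, hn1]
    nlinarith
  have hAYn : ‖A * Y‖ ≤ ‖A‖ * (Y₁ + r) := by
    rw [norm_mul]
    exact mul_le_mul_of_nonneg_left hup (norm_nonneg _)
  have hre1 : |(A * Y).re| ≤ ‖A‖ * (Y₁ + r) := (abs_re_le_norm _).trans hAYn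
  have him1 : |(A * Y).im| ≤ ‖A‖ * (Y₁ + r) := (abs_im_le_norm _).trans hAYn
  have harg : |arg Y| ≤ Real.pi := abs_arg_le_pi Y
  have hYr : Y₁ + r ≤ Y₁ * (1 + r) := by nlinarith
  have hA0 : 0 ≤ ‖A‖ := norm_nonneg A
  have hl0 : 0 ≤ Real.log (1 + r) := Real.log_nonneg (by linarith)
  have hl1 : Real.log (1 + r) ≤ 1 + r := by
    have := Real.log_le_sub_one_of_pos (show 0 < 1 + r by linarith)
    linarith
  have t1 : (A * Y).re * Real.log ‖Y‖ ≤
      (A * Y).re * Real.log (1 + r) + ‖A‖ * Y₁ * (1 + r) * Real.log (4 * Y₁ + 1) := by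
    have h1 : (A * Y).re * (Real.log ‖Y‖ - Real.log (1 + r)) ≤
        |(A * Y).re| * |Real.log ‖Y‖ - Real.log (1 + r)| := by
      rw [← abs_mul]
      exact le_abs_self _
    have h2 : |Real.log ‖Y‖ - Real.log (1 + r)| ≤ Real.log (4 * Y₁ + 1) :=
      abs_le.2 ⟨by linarith, by linarith⟩
    have h3 : |(A * Y).re| * |Real.log ‖Y‖ - Real.log (1 + r)| ≤
        (‖A‖ * (Y₁ * (1 + r))) * Real.log (4 * Y₁ + 1) :=
      mul_le_mul (hre1.trans (mul_le_mul_of_nonneg_left hYr hA0)) h2 (abs_nonneg _) (by positivity)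
    nlinarith
  have t2 : -((A * Y).im * arg Y) ≤ ‖A‖ * Y₁ * (1 + r) * Real.pi := by
    have h1 : -((A * Y).im * arg Y) ≤ |(A * Y).im| * |arg Y| := by
      rw [← abs_mul]
      exact neg_le_abs _
    have h3 : |(A * Y).im| * |arg Y| ≤ (‖A‖ * (Y₁ * (1 + r))) * Real.pi :=
      mul_le_mul (him1.trans (mul_le_mul_of_nonneg_left hYr hA0)) harg (abs_nonneg _)
        (by positivity)
    nlinarith
  have t3 : (A * Y).re * Real.log (1 + r) ≤ -c * r * Real.log (1 + r) + ‖A‖ * Y₁ * (1 + r) := by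
    have h1 := mul_le_mul_of_nonneg_right hAY hl0
    have h2 : ‖A‖ * Y₁ * Real.log (1 + r) ≤ ‖A‖ * Y₁ * (1 + r) :=
      mul_le_mul_of_nonneg_left hl1 (by positivity)
    nlinarith
  rw [hre]
  nlinarith

private lemma b4_ray {a c r : ℝ} (hc : 0 < c) (hr : 0 ≤ r) :
    -c * r * Real.log (1 + r) + a * r ≤ |a| * Real.exp (|a| / c) := by
  have hl0 : 0 ≤ Real.log (1 + r) := Real.log_nonneg (by linarith)
  have hE : 0 < Real.exp (|a| / c) := Real.exp_pos _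
  rcases le_total (Real.exp (|a| / c)) r with h | h
  · have h1 : |a| / c ≤ Real.log (1 + r) := by
      rw [Real.le_log_iff_exp_le (by linarith)]
      linarith
    have h2 : |a| ≤ c * Real.log (1 + r) := by
      rw [div_le_iff₀ hc] at h1
      linarith
    have h3 : a * r ≤ |a| * r := mul_le_mul_of_nonneg_right (le_abs_self a) hr
    have h4 : |a| * r ≤ c * Real.log (1 + r) * r := mul_le_mul_of_nonneg_right h2 hr
    have h5 : 0 ≤ |a| * Real.exp (|a| / c) := by positivity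
    nlinarith
  · have h3 : a * r ≤ |a| * r := mul_le_mul_of_nonneg_right (le_abs_self a) hr
    have h4 : |a| * r ≤ |a| * Real.exp (|a| / c) := mul_le_mul_of_nonneg_left h (abs_nonneg a)
    have h5 : 0 ≤ c * r * Real.log (1 + r) := by positivity
    nlinarith

private lemma b4_arg {θ r : ℝ} (hθ : |θ| < Real.pi) (hr : 0 ≤ r) :
    |arg ((r : ℂ) * exp (θ * I))| ≤ |θ| := by
  rcases hr.eq_or_lt with h | h
  · rw [← h, ofReal_zero, zero_mul, arg_zero, abs_zero]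
    exact abs_nonneg θ
  · have h1 := abs_lt.1 hθ
    rw [arg_real_mul _ h, exp_mul_I, arg_cos_add_sin_mul_I ⟨h1.1, h1.2.le⟩]

/-- the separation lemma for finite subsets -/
private theorem b4_sep {ι : Type} {δ R : ℝ} (hδ : 0 < δ) (hδ2 : δ < Real.pi / 2) (hR : 0 ≤ R)
    (A : ι → ℂ) (hA : Function.Injective A) (G : ι → ℂ → ℂ)
    (hd : ∀ i, DifferentiableOn ℂ (G i) (Sec δ R))
    (hE : ∀ i, ∃ C : ℝ, ∀ Y ∈ Sec δ R, ‖G i Y‖ ≤ Real.exp (C * (1 + ‖Y‖))) : ∀ (n : ℕ)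
    (s : Finset ι), s.card = n →
    (∀ Y ∈ Sec δ R, ∑ i ∈ s, exp (A i * (Y * log Y)) * G i Y = 0) →
    ∀ i ∈ s, ∀ Y ∈ Sec δ R, G i Y = 0 := by
  classical
  intro n
  induction n with
  | zero =>
    intro s hs _ i hi
    rw [Finset.card_eq_zero] at hs
    subst hs
    exact absurd hi (Finset.notMem_empty i)
  | succ n ih =>
    intro s hs hsum
    have hne : s.Nonempty := by
      rw [← Finset.card_pos, hs]
      omega
    have hpi := Real.pi_pos
    have : Nonempty {x // x ∈ s} := hne.to_subtype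
    obtain ⟨θ, hθ, i, c, hc, hi⟩ := exists_dir (fun j : {x // x ∈ s} => A j.1)
      (fun x y h => Subtype.ext (hA h)) (b := Real.pi / 2 + δ / 2) (by linarith)
    obtain ⟨Y₁, hY1, hY₁⟩ := sec_shift (R := max R 1) hδ hδ2
    have hsub : Sec δ (max R 1) ⊆ Sec δ R := fun Y hY => ⟨(le_max_left R 1).trans_lt hY.1, hY.2⟩
    have hθπ : |θ| < Real.pi := by linarith
    have hray : ∀ r : ℝ, 0 ≤ r → (Y₁ : ℂ) + r * exp (θ * I) ∈ Sec δ (max R 1) := fun r hr =>
      hY₁ _ ((b4_arg hθπ hr).trans hθ.le)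
    have hray1 : ∀ r : ℝ, 0 ≤ r → 1 ≤ ‖(Y₁ : ℂ) + r * exp (θ * I)‖ := fun r hr =>
      (le_max_right R 1).trans (hray r hr).1.le
    have hnY : ∀ Z : ℂ, ‖(Y₁ : ℂ) + Z‖ ≤ Y₁ + ‖Z‖ := by
      intro Z
      refine (norm_add_le _ _).trans ?_
      rw [norm_real, Real.norm_of_nonneg (by linarith)]
    have hnr : ∀ r : ℝ, 0 ≤ r → ‖(r : ℂ) * exp (θ * I)‖ = r := by
      intro r hr
      rw [norm_mul, norm_exp_ofReal_mul_I, mul_one, norm_real, Real.norm_of_nonneg hr]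
    -- exponential type after translation
    have hE' : ∀ j, ∃ C : ℝ, 0 ≤ C ∧ ∀ Z : ℂ, (Y₁ : ℂ) + Z ∈ Sec δ R →
        ‖G j ((Y₁ : ℂ) + Z)‖ ≤ Real.exp (C * (1 + ‖Z‖)) := by
      intro j
      obtain ⟨C, hC⟩ := hE j
      refine ⟨|C| * (1 + Y₁), by positivity, fun Z hZ => (hC _ hZ).trans (Real.exp_le_exp.2 ?_)⟩
      have h1 : C * (1 + ‖(Y₁ : ℂ) + Z‖) ≤ |C| * (1 + ‖(Y₁ : ℂ) + Z‖) :=
        mul_le_mul_of_nonneg_right (le_abs_self C) (by positivity)
      have h2 : |C| * (1 + ‖(Y₁ : ℂ) + Z‖) ≤ |C| * (1 + (Y₁ + ‖Z‖)) :=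
        mul_le_mul_of_nonneg_left (by linarith [hnY Z]) (abs_nonneg C)
      have h3 : |C| * (1 + (Y₁ + ‖Z‖)) ≤ |C| * (1 + Y₁) * (1 + ‖Z‖) := by
        nlinarith [abs_nonneg C, norm_nonneg Z, mul_nonneg (abs_nonneg C) (norm_nonneg Z),
          mul_nonneg (mul_nonneg (abs_nonneg C) (norm_nonneg Z)) (show 0 ≤ Y₁ by linarith)]
      linarith
    choose Cg hCg0 hCg using hE'
    -- domination
    have hdom : ∀ j : ι, ∃ C : ℝ, j ∈ s → j ≠ i.1 → ∀ r : ℝ, 0 ≤ r →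
        ‖exp ((A j - A i.1) * (((Y₁ : ℂ) + r * exp (θ * I)) *
          log ((Y₁ : ℂ) + r * exp (θ * I))))‖ ≤
            Real.exp (-c * r * Real.log (1 + r) + C * (1 + r)) := by
      intro j
      by_cases hj : j ∈ s ∧ j ≠ i.1
      · have h1 := hi ⟨j, hj.1⟩ (fun h => hj.2 (congrArg Subtype.val h))
        have h2 : ((A j - A i.1) * exp (θ * I)).re ≤ -c := by
          rw [sub_mul, sub_re]
          simp only at h1
          linarith
        obtain ⟨C, hC⟩ := dom_ray hY1 hc h2 hray1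
        exact ⟨C, fun _ _ => hC⟩
      · exact ⟨0, fun h1 h2 => absurd ⟨h1, h2⟩ hj⟩
    choose Cd hCd using hdom
    have hvan : ∀ Z : ℂ, 0 ≤ Z.re → G i.1 ((Y₁ : ℂ) + Z) = 0 := by
      refine pl_zero_super (f := fun Z => G i.1 ((Y₁ : ℂ) + Z)) (β := Real.pi / 2 + δ / 2)
        (θ := θ) (C := Cg i.1) (by linarith) (by linarith) ?_ ?_ hθ ?_
      · intro Z hZ
        have h1 : (Y₁ : ℂ) + Z ∈ Sec δ R := hsub (hY₁ Z hZ)
        have h2 : DifferentiableAt ℂ (G i.1) ((Y₁ : ℂ) + Z) :=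
          (hd i.1).differentiableAt ((isOpen_Sec hδ2 hR).mem_nhds h1)
        exact DifferentiableAt.comp Z h2 ((differentiableAt_const _).add differentiableAt_id)
      · intro Z hZ
        exact hCg i.1 Z (hsub (hY₁ Z hZ))
      · intro L
        refine ⟨∑ j ∈ s.erase i.1, Real.exp (Cd j + Cg j +
          |Cd j + Cg j + L| * Real.exp (|Cd j + Cg j + L| / c)), fun r hr => ?_⟩
        have hY := hsub (hray r hr)
        obtain ⟨Y, hYd⟩ : ∃ Y : ℂ, Y = (Y₁ : ℂ) + r * exp (θ * I) := ⟨_, rfl⟩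
        have h0 := hsum Y (by rw [hYd]; exact hY)
        rw [← Finset.add_sum_erase s _ i.2] at h0
        have h1 : G i.1 Y = -∑ j ∈ s.erase i.1, exp ((A j - A i.1) * (Y * log Y)) * G j Y := by
          have h2 : exp (A i.1 * (Y * log Y)) * (G i.1 Y +
              ∑ j ∈ s.erase i.1, exp ((A j - A i.1) * (Y * log Y)) * G j Y) = 0 := by
            rw [mul_add, Finset.mul_sum, ← h0]
            congr 1
            refine Finset.sum_congr rfl fun j _ => ?_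
            rw [← mul_assoc, ← exp_add]
            congr 2
            ring
          rcases mul_eq_zero.1 h2 with h3 | h3
          · exact absurd h3 (exp_ne_zero _)
          · exact eq_neg_of_add_eq_zero_left h3
        rw [← hYd, h1, norm_neg, Finset.sum_mul]
        refine (norm_sum_le _ _).trans (Finset.sum_le_sum fun j hj => ?_)
        have hj1 := Finset.mem_of_mem_erase hj
        have hj2 := Finset.ne_of_mem_erase hj
        rw [norm_mul]
        have h4 := hCd j hj1 hj2 r hr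
        have h5 := hCg j _ hY
        rw [hnr r hr] at h5
        rw [hYd]
        refine (mul_le_mul h4 h5 (norm_nonneg _) (Real.exp_pos _).le).trans ?_
        rw [← Real.exp_add, ← Real.exp_add]
        refine Real.exp_le_exp.2 ?_
        have h6 := b4_ray (a := Cd j + Cg j + L) hc hr
        nlinarith
    have hzero := sec_identity hδ hδ2 hR (hd i.1) (fun Z hZ => by
      have h1 : |arg Z| ≤ Real.pi / 2 := abs_arg_le_pi_div_two_iff.2 hZ
      exact hsub (hY₁ Z (by linarith))) hvan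
    have herase := ih (s.erase i.1) (by rw [Finset.card_erase_of_mem i.2, hs]; rfl) (by
      intro Y hY
      have h0 := hsum Y hY
      rw [← Finset.add_sum_erase s _ i.2, hzero Y hY, mul_zero, zero_add] at h0
      exact h0)
    intro j hj
    by_cases hji : j = i.1
    · rw [hji]
      exact hzero
    · exact herase j (Finset.mem_erase.2 ⟨hji, hj⟩)

/-- AXG-B4b. Proof. Induction on `Fintype.card ι` (or on a `Finset`). Take `θ`, `i`, `c` from
`exists_dir` with `b = π/2 + δ/2`, `Y₁` from `sec_shift` (with `max R 1`). On the ray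
`Y = Y₁ + r e^{iθ}`: `G_i(Y) = -∑_{j ≠ i} exp ((A_j - A_i) Y log Y) G_j(Y)`, and by B4a and the
exponential type of `G_j` each term is `≤ exp (-c r log (1+r) + C' (1+r))`. So `Z ↦ G_i(Y₁ + Z)` decays
faster than every exponential on the ray `θ` and vanishes on the right half plane (`pl_zero_super`,
`β = π/2 + δ/2`), hence `G_i = 0` on `Sec δ R` (`sec_identity`). Remove `i`. -/
theorem sep_A {ι : Type} [Fintype ι] {δ R : ℝ} (hδ : 0 < δ) (hδ2 : δ < Real.pi / 2) (hR : 0 ≤ R)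
    (A : ι → ℂ) (hA : Function.Injective A) (G : ι → ℂ → ℂ)
    (hd : ∀ i, DifferentiableOn ℂ (G i) (Sec δ R))
    (hE : ∀ i, ∃ C : ℝ, ∀ Y ∈ Sec δ R, ‖G i Y‖ ≤ Real.exp (C * (1 + ‖Y‖)))
    (hs : ∀ Y ∈ Sec δ R, ∑ i, exp (A i * (Y * log Y)) * G i Y = 0) :
    ∀ i, ∀ Y ∈ Sec δ R, G i Y = 0 := fun i =>
  b4_sep hδ hδ2 hR A hA G hd hE _ Finset.univ rfl hs i (Finset.mem_univ i)

end Pool.Agent.Helper94.AXG
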