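import Pool.Agent.Helper94.AXG.C1

/-! # AXG-C2: closure properties of `Ex` -/

namespace Pool.Agent.Helper94.AXG

open Complex Filter Topology

private theorem C2_expAn (K : ℕ) (l : ℂ) : An (fun s => exp (l / s ^ K)) := by
  unfold An
  filter_upwards [self_mem_nhdsWithin] with s hs
  exact (analyticAt_const.fun_div (analyticAt_id.fun_pow K) (pow_ne_zero K hs)).cexp'

private theorem C2_anSum {ι : Type*} (S : Finset ι) {f : ι → ℂ → ℂ} (hf : ∀ i ∈ S, An (f i)) :
    An (fun z => ∑ i ∈ S, f i z) := by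
  classical
  induction S using Finset.induction_on with
  | empty =>
    simp only [Finset.sum_empty]
    unfold An
    exact Eventually.of_forall fun s => analyticAt_const
  | insert i S hi ih =>
    simp only [Finset.sum_insert hi]
    exact An_add (hf i (Finset.mem_insert_self _ _))
      (ih fun j hj => hf j (Finset.mem_insert_of_mem hj))

private theorem C2_of {K : ℕ} {f : ℂ → ℂ} {ι : Type*} [Fintype ι] (g : ι → ℂ → ℂ) (l : ι → ℂ)
    (hg : ∀ i, Zt K (g i)) (h : ∀ᶠ s in 𝓝[≠] (0 : ℂ), f s = ∑ i, g i s * exp (l i / s ^ K)) :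
    Ex K f := by
  refine ⟨Fintype.card ι, fun i => g ((Fintype.equivFin ι).symm i),
    fun i => l ((Fintype.equivFin ι).symm i), fun i => hg _, ?_⟩
  filter_upwards [h] with s hs
  rw [hs]
  exact (Equiv.sum_comp (Fintype.equivFin ι).symm fun i => g i s * exp (l i / s ^ K)).symm

/-- AXG-C2: exponential sums form a ring of analytic functions (routine; index sets `Fin n ⊕ Fin m`,
`Fin n × Fin m` are transported to `Fin`). -/
theorem Ex_An {K : ℕ} {f : ℂ → ℂ} (hf : Ex K f) : An f := by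
  obtain ⟨n, g, l, hg, h⟩ := hf
  exact An_congr (C2_anSum Finset.univ fun i _ => An_mul (hg i).1 (C2_expAn K (l i))) h

theorem Ex_congr {K : ℕ} {f g : ℂ → ℂ} (hg : Ex K g) (h : ∀ᶠ s in 𝓝[≠] (0 : ℂ), f s = g s) :
    Ex K f := by
  obtain ⟨n, g', l, hg', h'⟩ := hg
  refine ⟨n, g', l, hg', ?_⟩
  filter_upwards [h, h'] with s h1 h2
  rw [h1, h2]

theorem Ex_of_Zt {K : ℕ} {f : ℂ → ℂ} (hf : Zt K f) : Ex K f := by
  refine ⟨1, fun _ => f, fun _ => 0, fun _ => hf, Eventually.of_forall fun s => ?_⟩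
  rw [Fin.sum_univ_one, zero_div, exp_zero, mul_one]

/-- a single exponential (coefficient `1`, so `K ≥ 1`) -/
theorem Ex_exp {K : ℕ} (hK : 1 ≤ K) (l : ℂ) : Ex K (fun s => exp (l / s ^ K)) := by
  refine ⟨1, fun _ _ => 1, fun _ => l, fun _ => Zt_const hK 1, Eventually.of_forall fun s => ?_⟩
  rw [Fin.sum_univ_one, one_mul]

theorem Ex_add {K : ℕ} {f g : ℂ → ℂ} (hf : Ex K f) (hg : Ex K g) : Ex K (fun s => f s + g s) := by
  obtain ⟨n, f', l, hf', h⟩ := hf
  obtain ⟨m, g', l', hg', h'⟩ := hg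
  refine C2_of (ι := Fin n ⊕ Fin m) (Sum.elim f' g') (Sum.elim l l') ?_ ?_
  · rintro (i | i)
    · exact hf' i
    · exact hg' i
  · filter_upwards [h, h'] with s h1 h2
    rw [h1, h2, Fintype.sum_sum_type]
    rfl

theorem Ex_mul {K : ℕ} {f g : ℂ → ℂ} (hf : Ex K f) (hg : Ex K g) : Ex K (fun s => f s * g s) := by
  obtain ⟨n, f', l, hf', h⟩ := hf
  obtain ⟨m, g', l', hg', h'⟩ := hg
  refine C2_of (ι := Fin n × Fin m) (fun i s => f' i.1 s * g' i.2 s) (fun i => l i.1 + l' i.2)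
    (fun i => Zt_mul (hf' i.1) (hg' i.2)) ?_
  filter_upwards [h, h'] with s h1 h2
  rw [h1, h2, Finset.sum_mul_sum, Fintype.sum_prod_type]
  refine Finset.sum_congr rfl fun i _ => Finset.sum_congr rfl fun j _ => ?_
  rw [add_div, exp_add]
  ring

theorem Ex_sub {K : ℕ} (hK : 1 ≤ K) {f g : ℂ → ℂ} (hf : Ex K f) (hg : Ex K g) :
    Ex K (fun s => f s - g s) := by
  refine Ex_congr (Ex_add hf (Ex_mul (Ex_of_Zt (Zt_const hK (-1))) hg))
    (Eventually.of_forall fun s => ?_)
  change f s - g s = f s + -1 * g s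
  ring

theorem Ex_pow {K : ℕ} (hK : 1 ≤ K) {f : ℂ → ℂ} (hf : Ex K f) (n : ℕ) :
    Ex K (fun z => f z ^ n) := by
  induction n with
  | zero =>
    simp only [pow_zero]
    exact Ex_of_Zt (Zt_const hK 1)
  | succ n ih =>
    simp only [pow_succ]
    exact Ex_mul ih hf

theorem Ex_prod {K : ℕ} (hK : 1 ≤ K) {ι : Type} (s : Finset ι) {f : ι → ℂ → ℂ}
    (hf : ∀ i ∈ s, Ex K (f i)) : Ex K (fun z => ∏ i ∈ s, f i z) := by
  classical
  induction s using Finset.induction_on with
  | empty =>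
    simp only [Finset.prod_empty]
    exact Ex_of_Zt (Zt_const hK 1)
  | insert i s hi ih =>
    simp only [Finset.prod_insert hi]
    exact Ex_mul (hf i (Finset.mem_insert_self _ _))
      (ih fun j hj => hf j (Finset.mem_insert_of_mem hj))

end Pool.Agent.Helper94.AXG
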