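import Pool.Agent.Helper94.AXG.C2
import Pool.Agent.Helper94.AXG.A6

/-! # AXG-C3 -/

namespace Pool.Agent.Helper94.AXG

open Complex Filter Topology

private lemma c3_an_div {h : ℂ → ℂ} (hh : AnalyticAt ℂ h 0) (K : ℕ) :
    An (fun s => h s / s ^ K) := by
  have h1 : ∀ᶠ s in 𝓝[≠] (0 : ℂ), AnalyticAt ℂ h s :=
    hh.eventually_analyticAt.filter_mono nhdsWithin_le_nhds
  filter_upwards [h1, self_mem_nhdsWithin] with s hs h0
  exact hs.div (analyticAt_id.pow K) (pow_ne_zero K h0)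

/-- AXG-C3a. Proof. `ζ(s) = exp (c (h s - h 0) / s^K)`; `‖h s - h 0‖ ≤ C ‖s‖`, so
`‖ζ s‖ ≤ exp (|c| C ‖s‖ / ‖s‖^K)` and `|c| C ‖s‖ ≤ ε` for small `s`. -/
theorem exp_pole {K : ℕ} {ξ h : ℂ → ℂ} (hξ : Pl K ξ h) (c : ℂ) :
    ∃ ζ : ℂ → ℂ, Zt K ζ ∧ (∀ s, ζ s ≠ 0) ∧
      ∀ᶠ s in 𝓝[≠] (0 : ℂ), exp (c * ξ s) = ζ s * exp (c * h 0 / s ^ K) := by
  obtain ⟨hh, -, hs⟩ := hξ
  refine ⟨fun s => exp (c * (h s - h 0) / s ^ K), ⟨?_, ?_⟩, fun s => exp_ne_zero _, ?_⟩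
  · have h1 : An (fun s => (c * (h s - h 0)) / s ^ K) :=
      c3_an_div (analyticAt_const.mul (hh.sub analyticAt_const)) K
    filter_upwards [h1] with s h2
    exact h2.cexp
  · intro ε hε
    have h1 : Tendsto (fun s => ‖c * (h s - h 0)‖) (𝓝 0) (𝓝 ‖c * (h 0 - h 0)‖) :=
      ((continuousAt_const.mul (hh.continuousAt.sub continuousAt_const)).norm)
    rw [sub_self, mul_zero, norm_zero] at h1
    have h2 : ∀ᶠ s in 𝓝[≠] (0 : ℂ), ‖c * (h s - h 0)‖ < ε :=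
      (h1.eventually_lt_const hε).filter_mono nhdsWithin_le_nhds
    filter_upwards [h2] with s h3
    rw [norm_exp]
    refine Real.exp_le_exp.2 ((re_le_norm _).trans ?_)
    rw [norm_div, norm_pow]
    exact div_le_div_of_nonneg_right h3.le (by positivity)
  · filter_upwards [hs] with s h1
    rw [h1, ← exp_add]
    congr 1
    ring

/-- AXG-C3b: `ξ` is analytic on a small punctured disc -/
theorem Pl_An {K : ℕ} {ξ h : ℂ → ℂ} (hξ : Pl K ξ h) : An ξ :=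
  An_congr (c3_an_div hξ.1 K) hξ.2.2

/-- AXG-C3c -/
theorem An_U {ξ : ℂ → ℂ} (hξ : An ξ) : An (fun s => U (ξ s)) := by
  filter_upwards [hξ] with s hs
  have h1 : AnalyticAt ℂ U (ξ s) := differentiable_one_div_Gamma.analyticAt _
  exact h1.comp hs

/-- AXG-C3d. Proof. `U_growth`: `‖U (ξ s)‖ ≤ exp (C (1 + c/‖s‖^N) log (2 + c/‖s‖^N))` and
`‖s‖^K (1 + c / ‖s‖^N) log (2 + c / ‖s‖^N) → 0` as `N < K`. -/
theorem Zt_U {K N : ℕ} (hN : N < K) {ξ : ℂ → ℂ} (hξ : An ξ) {c : ℝ}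
    (hb : ∀ᶠ s in 𝓝[≠] (0 : ℂ), ‖ξ s‖ ≤ c / ‖s‖ ^ N) : Zt K (fun s => U (ξ s)) := by
  refine ⟨An_U hξ, fun ε hε => ?_⟩
  obtain ⟨C, hC, hU⟩ := U_growth
  have h1 : Continuous fun t : ℝ =>
      C * (1 + |c|) * (t * Real.log (2 + |c|) - N * (t * Real.log t)) := by
    have h2 := Real.continuous_mul_log
    fun_prop
  have h3 : Tendsto (fun s : ℂ => C * (1 + |c|) *
      (‖s‖ * Real.log (2 + |c|) - N * (‖s‖ * Real.log ‖s‖))) (𝓝 0) (𝓝 0) := by
    have h4 : Tendsto (fun s : ℂ => C * (1 + |c|) *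
      (‖s‖ * Real.log (2 + |c|) - N * (‖s‖ * Real.log ‖s‖))) (𝓝 0)
        (𝓝 (C * (1 + |c|) *
          (‖(0 : ℂ)‖ * Real.log (2 + |c|) - N * (‖(0 : ℂ)‖ * Real.log ‖(0 : ℂ)‖)))) :=
      (h1.comp continuous_norm).tendsto (0 : ℂ)
    simpa using h4
  have h5 : ∀ᶠ s in 𝓝[≠] (0 : ℂ), C * (1 + |c|) *
      (‖s‖ * Real.log (2 + |c|) - N * (‖s‖ * Real.log ‖s‖)) < ε :=
    (h3.eventually_lt_const hε).filter_mono nhdsWithin_le_nhds
  have h6 : ∀ᶠ s in 𝓝[≠] (0 : ℂ), ‖s‖ < 1 := by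
    have h7 : Tendsto (fun s : ℂ => ‖s‖) (𝓝 0) (𝓝 0) := by
      simpa using (continuous_norm.tendsto (0 : ℂ))
    exact (h7.eventually_lt_const one_pos).filter_mono nhdsWithin_le_nhds
  filter_upwards [hb, h5, h6, self_mem_nhdsWithin] with s hb h5 h6 h0
  refine (hU (ξ s)).trans (Real.exp_le_exp.2 ?_)
  have ht : 0 < ‖s‖ := norm_pos_iff.2 h0
  set t := ‖s‖ with htd
  have hm : ‖ξ s‖ ≤ |c| / t ^ N :=
    hb.trans (div_le_div_of_nonneg_right (le_abs_self c) (by positivity))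
  have hm0 : 0 ≤ |c| / t ^ N := by positivity
  have hl : Real.log (2 + |c| / t ^ N) ≤ Real.log (2 + |c|) - N * Real.log t := by
    have e1 : Real.log (2 + |c|) - N * Real.log t = Real.log ((2 + |c|) / t ^ N) := by
      rw [Real.log_div (by positivity) (by positivity), Real.log_pow]
    rw [e1]
    refine Real.log_le_log (by positivity) ?_
    rw [add_div]
    refine add_le_add ?_ le_rfl
    rw [le_div_iff₀ (by positivity)]
    nlinarith [pow_le_one₀ ht.le h6.le (n := N)]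
  have hl0 : 0 ≤ Real.log (2 + |c| / t ^ N) := Real.log_nonneg (by linarith)
  have hA : C * (1 + ‖ξ s‖) * Real.log (2 + ‖ξ s‖) ≤
      C * (1 + |c| / t ^ N) * Real.log (2 + |c| / t ^ N) := by
    refine mul_le_mul ?_ ?_ (Real.log_nonneg (by linarith [norm_nonneg (ξ s)])) (by positivity)
    · exact mul_le_mul_of_nonneg_left (by linarith) hC.le
    · exact Real.log_le_log (by linarith [norm_nonneg (ξ s)]) (by linarith)
  refine hA.trans ?_
  rw [le_div_iff₀ (by positivity)]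
  have hK : t ^ K = t ^ N * t ^ (K - N) := by
    rw [← pow_add]
    congr 1
    omega
  have hK2 : t ^ (K - N) ≤ t := by
    have e : K - N = (K - N - 1) + 1 := by omega
    rw [e, pow_succ]
    nlinarith [pow_le_one₀ ht.le h6.le (n := K - N - 1)]
  have hB : (1 + |c| / t ^ N) * t ^ N ≤ 1 + |c| := by
    rw [add_mul, one_mul, div_mul_cancel₀ _ (by positivity)]
    linarith [pow_le_one₀ ht.le h6.le (n := N)]
  have hL : 0 ≤ Real.log (2 + |c|) - N * Real.log t := hl0.trans hl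
  calc C * (1 + |c| / t ^ N) * Real.log (2 + |c| / t ^ N) * t ^ K
      = C * (((1 + |c| / t ^ N) * t ^ N) * (Real.log (2 + |c| / t ^ N) * t ^ (K - N))) := by
        rw [hK]; ring
    _ ≤ C * ((1 + |c|) * ((Real.log (2 + |c|) - N * Real.log t) * t)) := by
        refine mul_le_mul_of_nonneg_left ?_ hC.le
        refine mul_le_mul hB ?_ (by positivity) (by positivity)
        exact mul_le_mul hl hK2 (by positivity) hL
    _ = C * (1 + |c|) * (t * Real.log (2 + |c|) - N * (t * Real.log t)) := by ring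
    _ ≤ ε := h5.le

end Pool.Agent.Helper94.AXG
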