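import Pool.Agent.Helper94.AXG.C1

/-! # AXG-C4 -/

namespace Pool.Agent.Helper94.AXG

open Complex Filter Topology

/-- AXG-C4a -/
theorem sg_pow {K : ℕ} (hK : 1 ≤ K) (θ : ℝ) {Y : ℂ} (hY : Y ≠ 0) :
    1 / (sg K θ Y) ^ K = exp (θ * I) * Y := by
  have hK0 : (K : ℂ) ≠ 0 := by exact_mod_cast (show K ≠ 0 by omega)
  unfold sg
  rw [← Complex.exp_nat_mul, mul_div_cancel₀ _ hK0, Complex.exp_neg, one_div, inv_inv,
    Complex.exp_add, Complex.exp_log hY]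

/-- AXG-C4b -/
theorem norm_sg {K : ℕ} (hK : 1 ≤ K) (θ : ℝ) {Y : ℂ} (hY : Y ≠ 0) :
    ‖sg K θ Y‖ = ‖Y‖ ^ (-(1 : ℝ) / K) := by
  have hY' : 0 < ‖Y‖ := norm_pos_iff.2 hY
  have h1 : (-(θ * I + log Y) / (K : ℂ)).re = Real.log ‖Y‖ * (-(1 : ℝ) / K) := by
    rw [Complex.div_natCast_re, Complex.neg_re, Complex.add_re, Complex.log_re]
    have h2 : ((θ : ℂ) * I).re = 0 := by simp
    rw [h2]
    ring
  unfold sg
  rw [Complex.norm_exp, h1, Real.rpow_def_of_pos hY']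

/-- AXG-C4c: what holds on a small punctured disc holds for large `Y` (`sg K θ Y ≠ 0` and
`‖sg K θ Y‖ → 0`) -/
theorem ev_sg {K : ℕ} (hK : 1 ≤ K) (θ : ℝ) {P : ℂ → Prop} (h : ∀ᶠ s in 𝓝[≠] (0 : ℂ), P s) :
    ∃ R : ℝ, 0 ≤ R ∧ ∀ Y : ℂ, R < ‖Y‖ → P (sg K θ Y) := by
  rw [eventually_nhdsWithin_iff, Metric.eventually_nhds_iff] at h
  obtain ⟨ε, hε, h⟩ := h
  refine ⟨(ε ^ K)⁻¹, by positivity, fun Y hY => ?_⟩
  have hεK : 0 < ε ^ K := pow_pos hε K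
  have hY0 : 0 < ‖Y‖ := lt_of_le_of_lt (by positivity) hY
  have hYne : Y ≠ 0 := norm_pos_iff.1 hY0
  refine h ?_ (Complex.exp_ne_zero _)
  rw [dist_zero_right]
  by_contra hcon
  rw [not_lt] at hcon
  have h1 : ε ^ K ≤ ‖sg K θ Y‖ ^ K := pow_le_pow_left₀ hε.le hcon K
  have h2 := congrArg norm (sg_pow hK θ hYne)
  rw [norm_div, norm_one, norm_pow, norm_mul, Complex.norm_exp_ofReal_mul_I, one_mul] at h2
  rw [← h2, one_div] at hY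
  have h3 : ‖sg K θ Y‖ ^ K < ε ^ K := by
    have h4 : 0 < ‖sg K θ Y‖ ^ K := lt_of_lt_of_le hεK h1
    rwa [inv_lt_inv₀ hεK h4] at hY
  exact absurd h3 (not_lt.2 h1)

end Pool.Agent.Helper94.AXG
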