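import Pool.Agent.Helper94.AXG.C4

/-! # AXG-C4B -/

namespace Pool.Agent.Helper94.AXG

open Complex Filter Topology

private theorem C4B_diff (K : ℕ) (θ : ℝ) {Y : ℂ} (hs : Y ∈ slitPlane) :
    DifferentiableAt ℂ (sg K θ) Y := by
  unfold sg
  exact ((((differentiableAt_const _).add (differentiableAt_id.clog hs)).neg.div_const _).cexp)

/-- AXG-C4d (`sg K θ` is differentiable on the slit plane, which contains `Sec δ R`) -/
theorem An_sg {K : ℕ} (hK : 1 ≤ K) (θ : ℝ) {f : ℂ → ℂ} (hf : An f) {δ : ℝ}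
    (hδ : δ < Real.pi / 2) :
    ∃ R : ℝ, 0 ≤ R ∧ DifferentiableOn ℂ (fun Y => f (sg K θ Y)) (Sec δ R) := by
  obtain ⟨R, hR, h⟩ := ev_sg hK θ hf
  refine ⟨R, hR, fun Y hY => ?_⟩
  obtain ⟨h1, h2⟩ := hY
  have hY0 : Y ≠ 0 := norm_pos_iff.1 (hR.trans_lt h1)
  have hs : Y ∈ slitPlane := by
    refine mem_slitPlane_iff_arg.2 ⟨fun h3 => ?_, hY0⟩
    rw [h3, abs_of_pos Real.pi_pos] at h2
    linarith
  exact ((h Y h1).differentiableAt.comp Y (C4B_diff K θ hs)).differentiableWithinAt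

/-- AXG-C4e. Proof. For `ε > 0` we have `‖f (sg Y)‖ ≤ exp (ε / ‖s‖^K) = exp (ε ‖Y‖)` for
`‖Y‖ > R_ε`. Let `f ∘ sg` be continuous for `‖Y‖ > R₀` in the slit plane and `R = R₀ + 1`; the remaining
set `R ≤ ‖Y‖ ≤ R_ε`, `|arg Y| ≤ π/2 + δ` is compact and contained in the slit plane. -/
theorem Zt_sg {K : ℕ} (hK : 1 ≤ K) (θ : ℝ) {f : ℂ → ℂ} (hf : Zt K f) {δ : ℝ}
    (hδ : δ < Real.pi / 2) :
    ∃ R : ℝ, 0 ≤ R ∧ ZTy (Sec δ R) (fun Y => f (sg K θ Y)) := by
  obtain ⟨hA, hZ⟩ := hf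
  have hA' : ∀ᶠ s in 𝓝 (0 : ℂ), s ≠ 0 → AnalyticAt ℂ f s := eventually_nhdsWithin_iff.1 hA
  obtain ⟨r, hr, hA2⟩ := Metric.eventually_nhds_iff.1 hA'
  have hsmall : ∀ᶠ s in 𝓝[≠] (0 : ℂ), ‖s‖ < r / 2 := by
    refine eventually_nhdsWithin_of_eventually_nhds (Metric.eventually_nhds_iff.2 ⟨r / 2,
      by linarith, fun s hs => ?_⟩)
    rwa [dist_zero_right] at hs
  obtain ⟨R, hR, hRs⟩ := ev_sg hK θ hsmall
  refine ⟨R, hR, fun ε hε => ?_⟩
  obtain ⟨R', hR', hRs'⟩ := ev_sg hK θ (hZ ε hε)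
  -- the annulus
  have hcomp : IsCompact ({s : ℂ | (R' + 1) ^ (-(1 : ℝ) / K) ≤ ‖s‖ ∧ ‖s‖ ≤ r / 2}) := by
    refine Metric.isCompact_of_isClosed_isBounded ?_ ?_
    · exact (isClosed_le continuous_const continuous_norm).inter
        (isClosed_le continuous_norm continuous_const)
    · refine (Metric.isBounded_closedBall (x := (0 : ℂ)) (r := r / 2)).subset fun s hs => ?_
      rw [mem_closedBall_zero_iff]
      exact hs.2
  have hcont : ContinuousOn f ({s : ℂ | (R' + 1) ^ (-(1 : ℝ) / K) ≤ ‖s‖ ∧ ‖s‖ ≤ r / 2}) := by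
    intro s hs
    have h1 : 0 < ‖s‖ := lt_of_lt_of_le (Real.rpow_pos_of_pos (by linarith) _) hs.1
    have h2 : dist s 0 < r := by
      rw [dist_zero_right]
      have := hs.2
      linarith
    exact (hA2 h2 (norm_pos_iff.1 h1)).continuousAt.continuousWithinAt
  obtain ⟨M, hM⟩ := hcomp.exists_bound_of_continuousOn hcont
  refine ⟨max M 1, fun Y hY => ?_⟩
  have hY1 : R < ‖Y‖ := hY.1
  have hYp : 0 < ‖Y‖ := hR.trans_lt hY1
  have hY0 : Y ≠ 0 := norm_pos_iff.1 hYp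
  have hexp : 1 ≤ Real.exp (ε * ‖Y‖) := Real.one_le_exp (by positivity)
  change ‖f (sg K θ Y)‖ ≤ max M 1 * Real.exp (ε * ‖Y‖)
  rcases lt_or_ge R' ‖Y‖ with hY2 | hY2
  · have h1 := hRs' Y hY2
    have h2 : ε / ‖sg K θ Y‖ ^ K = ε * ‖Y‖ := by
      have h3 := congrArg norm (sg_pow hK θ hY0)
      rw [norm_div, norm_pow, norm_one, norm_mul, norm_exp_ofReal_mul_I, one_mul] at h3
      rw [← h3]
      ring
    rw [h2] at h1
    refine h1.trans ?_
    calc Real.exp (ε * ‖Y‖) = 1 * Real.exp (ε * ‖Y‖) := (one_mul _).symm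
      _ ≤ max M 1 * Real.exp (ε * ‖Y‖) :=
        mul_le_mul_of_nonneg_right (le_max_right _ _) (Real.exp_pos _).le
  · have h1 : sg K θ Y ∈ {s : ℂ | (R' + 1) ^ (-(1 : ℝ) / K) ≤ ‖s‖ ∧ ‖s‖ ≤ r / 2} := by
      refine ⟨?_, (hRs Y hY1).le⟩
      rw [norm_sg hK θ hY0]
      refine Real.rpow_le_rpow_of_nonpos hYp (by linarith) ?_
      exact div_nonpos_of_nonpos_of_nonneg (by norm_num) (Nat.cast_nonneg K)
    refine (hM _ h1).trans ((le_max_left M 1).trans ?_)
    calc max M 1 = max M 1 * 1 := (mul_one _).symm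
      _ ≤ max M 1 * Real.exp (ε * ‖Y‖) :=
        mul_le_mul_of_nonneg_left hexp (le_trans zero_le_one (le_max_right M 1))

/-- the value of `sg` at `exp (- K w - i θ)` -/
private theorem C4B_sg {K : ℕ} (hK : 1 ≤ K) (θ : ℝ) {w : ℂ} (hw : |-(K : ℝ) * w.im - θ| < Real.pi) :
    arg (exp (-(K : ℂ) * w - θ * I)) = -(K : ℝ) * w.im - θ ∧
      sg K θ (exp (-(K : ℂ) * w - θ * I)) = exp w := by
  have him : (-(K : ℂ) * w - θ * I).im = -(K : ℝ) * w.im - θ := by
    simp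
  obtain ⟨h1, h2⟩ := abs_lt.1 hw
  have hlog : log (exp (-(K : ℂ) * w - θ * I)) = -(K : ℂ) * w - θ * I :=
    log_exp (by rw [him]; exact h1) (by rw [him]; exact h2.le)
  refine ⟨?_, ?_⟩
  · rw [← log_im, hlog, him]
  · have hK0 : (K : ℂ) ≠ 0 := Nat.cast_ne_zero.2 (by omega)
    unfold sg
    rw [hlog]
    congr 1
    field_simp
    ring

/-- AXG-C4f: identity theorem. Proof. `f` is analytic on a punctured disc `0 < ‖s‖ < r`. Take a positive
real `Y₀ > R` with `‖sg K θ Y₀‖ < r`; `sg K θ` has nonzero derivative `-sg/(K Y)` at `Y₀`, so it is open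
there and `f = 0` near `sg K θ Y₀`; the punctured disc is connected. -/
theorem sg_identity {K : ℕ} (hK : 1 ≤ K) (θ : ℝ) {f : ℂ → ℂ} (hf : An f) {δ R : ℝ} (hδ : 0 < δ)
    (h : ∀ Y ∈ Sec δ R, f (sg K θ Y) = 0) : Ze f := by
  have hA' : ∀ᶠ s in 𝓝 (0 : ℂ), s ≠ 0 → AnalyticAt ℂ f s := eventually_nhdsWithin_iff.1 hf
  obtain ⟨r, hr, hA2⟩ := Metric.eventually_nhds_iff.1 hA'
  have hK0 : (0 : ℝ) < K := Nat.cast_pos.2 (by omega)
  have hK1 : (1 : ℝ) ≤ K := by exact_mod_cast hK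
  -- the half plane
  set H : Set ℂ := {w : ℂ | w.re < Real.log r} with hH
  have hHc : IsPreconnected H := by
    have h1 : Convex ℝ H := convex_halfSpace_re_lt _
    exact h1.isPreconnected
  have hg : AnalyticOnNhd ℂ (fun w => f (exp w)) H := by
    intro w hw
    have h1 : dist (exp w) 0 < r := by
      rw [dist_zero_right, norm_exp]
      exact (Real.lt_log_iff_exp_lt hr).1 hw
    exact (hA2 h1 (exp_ne_zero w)).comp (analyticAt_cexp)
  -- the base point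
  obtain ⟨t, ht1, ht2⟩ : ∃ t : ℝ, t < Real.log r ∧ t ≤ -|R| :=
    ⟨min (Real.log r - 1) (-|R|), lt_of_le_of_lt (min_le_left _ _) (by linarith),
      min_le_right _ _⟩
  set w₀ : ℂ := ⟨t, -(θ / K)⟩ with hw₀
  have hw₀H : w₀ ∈ H := ht1
  have hev : (fun w => f (exp w)) =ᶠ[𝓝 w₀] 0 := by
    have ho : IsOpen {w : ℂ | R < Real.exp (-(K : ℝ) * w.re) ∧
        |-(K : ℝ) * w.im - θ| < Real.pi / 2} := by
      refine IsOpen.inter ?_ ?_
      · exact isOpen_lt continuous_const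
          (Real.continuous_exp.comp (continuous_const.mul continuous_re))
      · exact isOpen_lt (((continuous_const.mul continuous_im).sub continuous_const).abs)
          continuous_const
    have hm : w₀ ∈ {w : ℂ | R < Real.exp (-(K : ℝ) * w.re) ∧
        |-(K : ℝ) * w.im - θ| < Real.pi / 2} := by
      refine ⟨?_, ?_⟩
      · change R < Real.exp (-(K : ℝ) * t)
        have h1 := Real.add_one_le_exp (-(K : ℝ) * t)
        have h2 : |R| ≤ -(K : ℝ) * t := by nlinarith [abs_nonneg R]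
        have h3 := le_abs_self R
        linarith
      · change |-(K : ℝ) * -(θ / K) - θ| < Real.pi / 2
        have h1 : -(K : ℝ) * -(θ / K) - θ = 0 := by
          field_simp
          ring
        rw [h1, abs_zero]
        exact Real.pi_div_two_pos
    filter_upwards [ho.mem_nhds hm] with w hw
    obtain ⟨hw1, hw2⟩ := hw
    obtain ⟨h1, h2⟩ := C4B_sg hK θ (lt_trans hw2 (by linarith [Real.pi_pos]))
    have h3 := h (exp (-(K : ℂ) * w - θ * I)) ⟨by
      rw [norm_exp]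
      have h4 : (-(K : ℂ) * w - θ * I).re = -(K : ℝ) * w.re := by simp
      rw [h4]
      exact hw1, by
      rw [h1]
      linarith⟩
    rw [h2] at h3
    exact h3
  have hEq := hg.eqOn_zero_of_preconnected_of_eventuallyEq_zero hHc hw₀H hev
  refine eventually_nhdsWithin_iff.2 (Metric.eventually_nhds_iff.2 ⟨r, hr, fun s hs hs0 => ?_⟩)
  rw [dist_zero_right] at hs
  have h1 : log s ∈ H := by
    change (log s).re < Real.log r
    rw [log_re]
    exact Real.log_lt_log (norm_pos_iff.2 hs0) hs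
  have h2 := hEq h1
  simp only [exp_log hs0] at h2
  exact h2

end Pool.Agent.Helper94.AXG
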