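import Pool.Agent.Helper94.AXG.Defs

/-! # AXG-C5 -/

namespace Pool.Agent.Helper94.AXG

open Complex Filter Topology

/-- AXG-C5a. Proof. Let `κ = π/2 - |arg α| > 0`, `δ₀ = η = κ/4` (so `δ₀ ≤ π/8`), `e₀ > 0` with
`|arg (1+e)| ≤ κ/4` for `‖e‖ ≤ e₀` (and `e₀ < 1`). Then `|arg α + arg Y| < π - 3κ/4` and
`|arg α + arg Y + arg (1+e)| < π - κ/2`, so the arguments (and the logarithms) add up. -/
theorem log_mul_sec {α : ℂ} (hα : 0 < α.re) : ∃ δ₀ η e₀ : ℝ, 0 < δ₀ ∧ δ₀ < Real.pi / 4 ∧ 0 < η ∧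
    η < Real.pi / 2 ∧ 0 < e₀ ∧ e₀ < 1 ∧ ∀ Y e : ℂ, Y ≠ 0 → |arg Y| < Real.pi / 2 + δ₀ → ‖e‖ ≤ e₀ →
      |arg (α * Y * (1 + e))| ≤ Real.pi - η ∧
        log (α * Y * (1 + e)) = log α + log Y + log (1 + e) := by
  have hα0 : α ≠ 0 := by
    rintro rfl
    simp at hα
  have h1 : |arg α| < Real.pi / 2 := Complex.abs_arg_lt_pi_div_two_iff.2 (Or.inl hα)
  obtain ⟨κ, hκ⟩ : ∃ κ, κ = Real.pi / 2 - |arg α| := ⟨_, rfl⟩
  have hκ0 : 0 < κ := by linarith
  have hκ1 : κ ≤ Real.pi / 2 := by linarith [abs_nonneg (arg α)]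
  have hpi := Real.pi_pos
  have hpi4 := Real.pi_le_four
  refine ⟨κ / 4, κ / 4, κ / 8, by linarith, by linarith, by linarith, by linarith, by linarith,
    by linarith, ?_⟩
  intro Y e hY hY2 he
  have he2 : ‖e‖ ≤ 1 / 2 := by linarith
  have h2 : 1 + e ≠ 0 := by
    intro h
    have h3 : e = -1 := by linear_combination h
    rw [h3, norm_neg, norm_one] at he2
    linarith
  have h3 : |arg (1 + e)| ≤ κ / 4 := by
    have h4 := Complex.abs_im_le_norm (log (1 + e))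
    rw [log_im] at h4
    have h5 := Complex.norm_log_one_add_half_le_self he2
    linarith
  have ha := abs_lt.1 (show |arg α| < Real.pi / 2 - κ + κ / 100 by linarith)
  have ha1 := le_abs_self (arg α)
  have ha2 := neg_abs_le (arg α)
  have hy := abs_lt.1 hY2
  have ht := abs_le.1 h3
  have h6 : arg α + arg Y ∈ Set.Ioc (-Real.pi) Real.pi := by
    constructor
    · linarith
    · linarith
  have h7 := Complex.arg_mul hα0 hY h6
  have h8 := Complex.log_mul hα0 hY h6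
  have h9 : arg (α * Y) + arg (1 + e) ∈ Set.Ioc (-Real.pi) Real.pi := by
    rw [h7]
    constructor
    · linarith
    · linarith
  have h10 := Complex.arg_mul (mul_ne_zero hα0 hY) h2 h9
  have h11 := Complex.log_mul (mul_ne_zero hα0 hY) h2 h9
  refine ⟨?_, ?_⟩
  · rw [h10, h7, abs_le]
    constructor
    · linarith
    · linarith
  · rw [h11, h8]

/-- AXG-C5b: `-2πi e^{iπx} U(1-x) U(x) = 1 - e^{2πix}` for all `x`, by `U(x) U(1-x) = sin(πx)/π`
(`Complex.Gamma_mul_Gamma_one_sub`, which holds for all `x` with the conventions of division by 0) -/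
theorem U_mul_U (x : ℂ) :
    (-2 * Real.pi * I * exp (Real.pi * I * x) * U (1 - x)) * U x = 1 - exp (2 * Real.pi * I * x) := by
  have h1 : U (1 - x) * U x = sin (Real.pi * x) / Real.pi := by
    unfold U
    rw [← mul_inv, mul_comm, Complex.Gamma_mul_Gamma_one_sub, inv_div]
  have hpi : (Real.pi : ℂ) ≠ 0 := by
    exact_mod_cast Real.pi_ne_zero
  have h2 : (-2 * Real.pi * I * exp (Real.pi * I * x) * U (1 - x)) * U x =
      -2 * Real.pi * I * exp (Real.pi * I * x) * (U (1 - x) * U x) := by ring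
  rw [h2, h1, Complex.sin]
  have h3 : exp (-(Real.pi * x) * I) = (exp (Real.pi * I * x))⁻¹ := by
    rw [← exp_neg]; congr 1; ring
  have h4 : exp (Real.pi * x * I) = exp (Real.pi * I * x) := by congr 1; ring
  have h5 : exp (2 * Real.pi * I * x) = exp (Real.pi * I * x) * exp (Real.pi * I * x) := by
    rw [← exp_add]; congr 1; ring
  rw [h3, h4, h5]
  have h6 := exp_ne_zero (Real.pi * I * x)
  field_simp
  rw [I_sq]
  ring

/-- AXG-C5c: the comparison of `st x` with `α Y log Y + (α log α - α) Y`. Proof.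
`x = α Y (1+e)`, `st x = α Y (1+e) (log α + log Y + log (1+e)) - α Y (1+e)`, so the difference is
`α Y e (log α + log Y) + α Y (1+e) log (1+e) - α Y e`, `‖log (1+e)‖ ≤ 2‖e‖` for `‖e‖ ≤ 1/2`. -/
theorem st_asym (α : ℂ) : ∃ C : ℝ, 0 < C ∧ ∀ Y e : ℂ, 1 ≤ ‖Y‖ → ‖e‖ ≤ 1 / 2 →
    log (α * Y * (1 + e)) = log α + log Y + log (1 + e) →
    ‖st (α * Y * (1 + e)) - (α * (Y * log Y) + (α * log α - α) * Y)‖ ≤
      C * ‖e‖ * ‖Y‖ * (1 + ‖log Y‖) := by
  refine ⟨‖α‖ * (‖log α‖ + 4) + 1, by positivity, ?_⟩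
  intro Y e hY he h
  have h1 : st (α * Y * (1 + e)) - (α * (Y * log Y) + (α * log α - α) * Y) =
      α * Y * (e * (log α + log Y) + (1 + e) * log (1 + e) - e) := by
    unfold st
    rw [h]
    ring
  have h2 := Complex.norm_log_one_add_half_le_self he
  have h3 : ‖(1 : ℂ) + e‖ ≤ 3 / 2 := by
    have := norm_add_le (1 : ℂ) e
    rw [norm_one] at this
    linarith
  have h4 : ‖e * (log α + log Y) + (1 + e) * log (1 + e) - e‖ ≤
      ‖e‖ * (‖log α‖ + ‖log Y‖) + 3 / 2 * (3 / 2 * ‖e‖) + ‖e‖ := by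
    calc ‖e * (log α + log Y) + (1 + e) * log (1 + e) - e‖
        ≤ ‖e * (log α + log Y) + (1 + e) * log (1 + e)‖ + ‖e‖ := norm_sub_le _ _
      _ ≤ ‖e * (log α + log Y)‖ + ‖(1 + e) * log (1 + e)‖ + ‖e‖ := by
          gcongr
          exact norm_add_le _ _
      _ ≤ _ := by
          rw [norm_mul, norm_mul]
          gcongr
          exact norm_add_le _ _
  rw [h1, norm_mul, norm_mul]
  have h5 := norm_nonneg e
  have h6 := norm_nonneg α
  have h7 := norm_nonneg (log α)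
  have h8 := norm_nonneg (log Y)
  have h9 : ‖e‖ * (‖log α‖ + ‖log Y‖) + 3 / 2 * (3 / 2 * ‖e‖) + ‖e‖ ≤
      ‖e‖ * ((‖log α‖ + 4) * (1 + ‖log Y‖)) := by
    have h10 := mul_nonneg h5 (mul_nonneg h7 h8)
    have h11 := mul_nonneg h5 h8
    nlinarith
  calc ‖α‖ * ‖Y‖ * ‖e * (log α + log Y) + (1 + e) * log (1 + e) - e‖
      ≤ ‖α‖ * ‖Y‖ * (‖e‖ * ((‖log α‖ + 4) * (1 + ‖log Y‖))) := by
        gcongr
        exact h4.trans h9
    _ = (‖α‖ * (‖log α‖ + 4)) * ‖e‖ * ‖Y‖ * (1 + ‖log Y‖) := by ring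
    _ ≤ _ := by
        gcongr
        linarith

end Pool.Agent.Helper94.AXG
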