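import Pool.Agent.Helper94.AXG.C5
import Pool.Agent.Helper94.AXG.C4B
import Pool.Agent.Helper94.AXG.C3B
import Pool.Agent.Helper94.AXG.A5

/-! # AXG-C5B -/

namespace Pool.Agent.Helper94.AXG

open Complex Filter Topology

private theorem c5b_slit {δ R : ℝ} (hδ : δ < Real.pi / 2) (hR : 0 ≤ R) {Y : ℂ}
    (hY : Y ∈ Sec δ R) : Y ∈ slitPlane ∧ Y ≠ 0 := by
  have h0 : Y ≠ 0 := by
    rintro rfl
    have := hY.1
    rw [norm_zero] at this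
    linarith
  refine ⟨?_, h0⟩
  rw [mem_slitPlane_iff_arg]
  refine ⟨?_, h0⟩
  intro h
  have h2 := hY.2
  rw [h, abs_of_pos Real.pi_pos] at h2
  linarith

private theorem c5b_zty {δ δ' R' : ℝ} (hR : 0 ≤ R') (h0 : 0 < δ) (h1 : δ < δ')
    (h2 : δ' < Real.pi / 2) {Z : ℂ → ℂ} (hc : ContinuousOn Z (Sec δ' R'))
    (hb : ∀ ε : ℝ, 0 < ε → ∃ R1 : ℝ, ∀ Y ∈ Sec δ' R', R1 ≤ ‖Y‖ → ‖Z Y‖ ≤ Real.exp (ε * ‖Y‖)) :
    ZTy (Sec δ (R' + 1)) Z := by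
  intro ε hε
  obtain ⟨R1, hR1⟩ := hb ε hε
  let f : ℝ × ℝ → ℂ := fun p => (p.1 : ℂ) * exp (p.2 * I)
  have hfc : Continuous f := by
    change Continuous fun p : ℝ × ℝ => (p.1 : ℂ) * exp (p.2 * I)
    fun_prop
  let S : Set ℂ := f '' (Set.Icc (R' + 1) R1 ×ˢ Set.Icc (-(Real.pi / 2 + δ)) (Real.pi / 2 + δ))
  have hK : IsCompact S := (isCompact_Icc.prod isCompact_Icc).image hfc
  have hsub : S ⊆ Sec δ' R' := by
    rintro _ ⟨⟨r, φ⟩, ⟨hr, hφ⟩, rfl⟩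
    have hr' : R' + 1 ≤ r := hr.1
    have hφ' : |φ| ≤ Real.pi / 2 + δ := abs_le.2 hφ
    have hr0 : 0 < r := by linarith
    have hφ2 := abs_le.1 hφ'
    have e1 : ‖f (r, φ)‖ = r := by
      change ‖(r : ℂ) * exp (φ * I)‖ = r
      rw [norm_mul, norm_exp_ofReal_mul_I, mul_one, norm_real, Real.norm_of_nonneg hr0.le]
    have e2 : arg (f (r, φ)) = φ := by
      change arg ((r : ℂ) * exp (φ * I)) = φ
      rw [exp_mul_I]
      exact arg_mul_cos_add_sin_mul_I hr0 ⟨by linarith [hφ2.1], by linarith [hφ2.2]⟩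
    refine ⟨?_, ?_⟩
    · rw [e1]; linarith
    · rw [e2]; linarith
  obtain ⟨C, hC⟩ := hK.exists_bound_of_continuousOn (hc.mono hsub)
  refine ⟨max C 1, fun Y hY => ?_⟩
  have hm := le_max_right C 1
  by_cases h : R1 ≤ ‖Y‖
  · calc ‖Z Y‖ ≤ Real.exp (ε * ‖Y‖) := hR1 Y ⟨by linarith [hY.1], by linarith [hY.2]⟩ h
      _ ≤ max C 1 * Real.exp (ε * ‖Y‖) := by
        nlinarith [Real.exp_pos (ε * ‖Y‖)]
  · push Not at h
    have hmem : Y ∈ S := ⟨(‖Y‖, arg Y), ⟨⟨hY.1.le, h.le⟩, abs_le.1 hY.2.le⟩,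
      norm_mul_exp_arg_mul_I Y⟩
    have h3 := hC Y hmem
    have h4 : 1 ≤ Real.exp (ε * ‖Y‖) := Real.one_le_exp (mul_nonneg hε.le (norm_nonneg _))
    calc ‖Z Y‖ ≤ C := h3
      _ ≤ max C 1 := le_max_left _ _
      _ ≤ max C 1 * Real.exp (ε * ‖Y‖) := by nlinarith

private theorem c5b_small {K : ℕ} (hK : 1 ≤ K) (c : ℝ) {ε : ℝ} (hε : 0 < ε) :
    ∃ R : ℝ, 1 ≤ R ∧ ∀ Y : ℂ, R ≤ ‖Y‖ →
      c * ‖Y‖ ^ (-(1 : ℝ) / K) * (1 + ‖log Y‖) ≤ ε := by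
  have hK1 : (0 : ℝ) < K := by exact_mod_cast hK
  have hK0 : (0 : ℝ) < 1 / K := by positivity
  have h1 : Tendsto (fun r : ℝ => Real.log r / r ^ ((1 : ℝ) / K)) atTop (𝓝 0) :=
    (isLittleO_log_rpow_atTop hK0).tendsto_div_nhds_zero
  have h2 : Tendsto (fun r : ℝ => r ^ (-((1 : ℝ) / K))) atTop (𝓝 0) := tendsto_rpow_neg_atTop hK0
  have h3 : Tendsto (fun r : ℝ => |c| * ((1 + Real.pi) * r ^ (-((1 : ℝ) / K)) +
      Real.log r / r ^ ((1 : ℝ) / K))) atTop (𝓝 (|c| * ((1 + Real.pi) * 0 + 0))) :=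
    ((h2.const_mul _).add h1).const_mul _
  rw [mul_zero, add_zero, mul_zero] at h3
  obtain ⟨R, hR⟩ := eventually_atTop.1 (h3.eventually_le_const hε)
  refine ⟨max R 1, le_max_right _ _, fun Y hY => ?_⟩
  have h4 := hR ‖Y‖ (le_trans (le_max_left _ _) hY)
  have h5 : 1 ≤ ‖Y‖ := le_trans (le_max_right _ _) hY
  have h6 : ‖log Y‖ ≤ Real.log ‖Y‖ + Real.pi := by
    refine (Complex.norm_le_abs_re_add_abs_im _).trans ?_
    rw [log_re, log_im, abs_of_nonneg (Real.log_nonneg h5)]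
    linarith [abs_arg_le_pi Y]
  have h7 : -(1 : ℝ) / K = -(1 / K) := by ring
  have h8 : Real.log ‖Y‖ / ‖Y‖ ^ ((1 : ℝ) / K) = ‖Y‖ ^ (-((1 : ℝ) / K)) * Real.log ‖Y‖ := by
    rw [Real.rpow_neg (norm_nonneg _)]; ring
  rw [h7]
  have h9 : 0 ≤ ‖Y‖ ^ (-((1 : ℝ) / K)) := Real.rpow_nonneg (norm_nonneg _) _
  calc c * ‖Y‖ ^ (-((1 : ℝ) / K)) * (1 + ‖log Y‖)
      ≤ |c| * ‖Y‖ ^ (-((1 : ℝ) / K)) * (1 + (Real.log ‖Y‖ + Real.pi)) := by
        gcongr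
        exact le_abs_self c
    _ = |c| * ((1 + Real.pi) * ‖Y‖ ^ (-((1 : ℝ) / K)) + Real.log ‖Y‖ / ‖Y‖ ^ ((1 : ℝ) / K)) := by
        rw [h8]; ring
    _ ≤ ε := h4

private theorem c5b_main {δ δ' R' : ℝ} (hR : 0 ≤ R') (h0 : 0 < δ) (h1 : δ < δ')
    (h2 : δ' < Real.pi / 2) (a q : ℂ) {V : ℂ → ℂ} (hV : DifferentiableOn ℂ V (Sec δ' R'))
    (hb : ∀ ε : ℝ, 0 < ε → ∃ R1 : ℝ, ∀ Y ∈ Sec δ' R', R1 ≤ ‖Y‖ →
      ‖V Y‖ ≤ Real.exp ((a * (Y * log Y) + q * Y).re + ε * ‖Y‖)) :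
    ∃ Z : ℂ → ℂ, DifferentiableOn ℂ Z (Sec δ (R' + 1)) ∧ ZTy (Sec δ (R' + 1)) Z ∧
      ∀ Y, exp (a * (Y * log Y) + q * Y) * Z Y = V Y := by
  have hd : DifferentiableOn ℂ (fun Y => V Y * exp (-(a * (Y * log Y) + q * Y)))
      (Sec δ' R') := by
    refine hV.mul (DifferentiableOn.cexp (DifferentiableOn.neg ?_))
    intro Y hY
    have hs := (c5b_slit h2 hR hY).1
    have h3 : DifferentiableAt ℂ (fun Y : ℂ => a * (Y * log Y) + q * Y) Y :=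
      ((differentiableAt_id.mul (differentiableAt_log hs)).const_mul a).add
        (differentiableAt_id.const_mul q)
    exact h3.differentiableWithinAt
  refine ⟨fun Y => V Y * exp (-(a * (Y * log Y) + q * Y)), ?_, ?_, ?_⟩
  · refine hd.mono fun Y hY => ⟨by linarith [hY.1], by linarith [hY.2]⟩
  · refine c5b_zty hR h0 h1 h2 hd.continuousOn fun ε hε => ?_
    obtain ⟨R1, hR1⟩ := hb ε hε
    refine ⟨R1, fun Y hY h => ?_⟩
    have h3 := hR1 Y hY h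
    rw [norm_mul, norm_exp, neg_re]
    calc ‖V Y‖ * Real.exp (-(a * (Y * log Y) + q * Y).re)
        ≤ Real.exp ((a * (Y * log Y) + q * Y).re + ε * ‖Y‖) *
          Real.exp (-(a * (Y * log Y) + q * Y).re) :=
          mul_le_mul_of_nonneg_right h3 (Real.exp_pos _).le
      _ = Real.exp (ε * ‖Y‖) := by
          rw [← Real.exp_add]
          congr 1
          ring
  · intro Y
    change exp (a * (Y * log Y) + q * Y) * (V Y * exp (-(a * (Y * log Y) + q * Y))) = V Y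
    rw [mul_left_comm, ← exp_add, add_neg_cancel, exp_zero, mul_one]

private theorem c5b_data {K : ℕ} (hK : 1 ≤ K) {ξ h : ℂ → ℂ} (hξ : Pl K ξ h) (θ : ℝ) {e₁ : ℝ}
    (he : 0 < e₁) :
    ∃ R C : ℝ, 0 ≤ R ∧ 0 < C ∧ ∀ Y : ℂ, R < ‖Y‖ → ∃ e : ℂ, ‖e‖ ≤ e₁ ∧
      ‖e‖ ≤ C * ‖Y‖ ^ (-(1 : ℝ) / K) ∧
      ξ (sg K θ Y) = h 0 * exp (θ * I) * Y * (1 + e) := by
  obtain ⟨h1, h2, h3⟩ := hξ
  obtain ⟨C, hC0, hC⟩ := (h1.differentiableAt.isBigO_sub).exists_pos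
  have hC' := hC.bound
  have hn : 0 < ‖h 0‖ := norm_pos_iff.2 h2
  have hcont : Tendsto (fun s => (h s - h 0) / h 0) (𝓝 0) (𝓝 0) := by
    have h4 := (h1.continuousAt.tendsto.sub_const (h 0)).div_const (h 0)
    rw [sub_self, zero_div] at h4
    exact h4
  have h5 : ∀ᶠ s in 𝓝 (0 : ℂ), (h s - h 0) / h 0 ∈ Metric.closedBall (0 : ℂ) e₁ :=
    hcont.eventually (Metric.closedBall_mem_nhds 0 he)
  have h6 : ∀ᶠ s in 𝓝[≠] (0 : ℂ), ξ s = h s / s ^ K ∧ ‖(h s - h 0) / h 0‖ ≤ e₁ ∧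
      ‖(h s - h 0) / h 0‖ ≤ C / ‖h 0‖ * ‖s‖ := by
    filter_upwards [h3, mem_nhdsWithin_of_mem_nhds h5, mem_nhdsWithin_of_mem_nhds hC']
      with s hs1 hs2 hs3
    refine ⟨hs1, by simpa using hs2, ?_⟩
    rw [sub_zero] at hs3
    rw [norm_div, div_mul_eq_mul_div]
    exact div_le_div_of_nonneg_right hs3 hn.le
  obtain ⟨R, hR0, hR⟩ := ev_sg hK θ h6
  refine ⟨R, C / ‖h 0‖, hR0, div_pos hC0 hn, fun Y hY => ?_⟩
  obtain ⟨hs1, hs2, hs3⟩ := hR Y hY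
  have hY0 : Y ≠ 0 := by
    rintro rfl
    rw [norm_zero] at hY
    linarith
  refine ⟨(h (sg K θ Y) - h 0) / h 0, hs2, ?_, ?_⟩
  · rw [← norm_sg hK θ hY0]
    exact hs3
  · rw [hs1, div_eq_mul_one_div, sg_pow hK θ hY0]
    field_simp
    ring

/-- estimates of the norm of `x = a Y (1 + e)` -/
private theorem c5b_norm (a Y e : ℂ) (he : ‖e‖ ≤ 1 / 2) :
    ‖a‖ * ‖Y‖ / 2 ≤ ‖a * Y * (1 + e)‖ ∧ ‖a * Y * (1 + e)‖ ≤ 2 * (‖a‖ * ‖Y‖) := by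
  have h1 : 1 / 2 ≤ ‖1 + e‖ := by
    have h := norm_sub_le (1 + e) e
    rw [add_sub_cancel_right, norm_one] at h
    linarith
  have h2 : ‖1 + e‖ ≤ 2 := by
    have h := norm_add_le 1 e
    rw [norm_one] at h
    linarith
  have h3 : 0 ≤ ‖a‖ * ‖Y‖ := mul_nonneg (norm_nonneg _) (norm_nonneg _)
  rw [norm_mul, norm_mul]
  constructor <;> nlinarith

private theorem c5b_pole {x : ℂ} {η : ℝ} (hη : 0 < η) (hx : x ≠ 0) (h : |arg x| ≤ Real.pi - η) (m : ℕ) :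
    x ≠ -m := by
  intro e
  rcases Nat.eq_zero_or_pos m with rfl | hm
  · apply hx
    rw [e]
    simp
  · have h1 : arg x = Real.pi := by
      rw [e]
      have h2 : (-(m : ℂ)) = ((-(m : ℝ) : ℝ) : ℂ) := by push_cast; rfl
      rw [h2]
      exact arg_ofReal_of_neg (by
        have : (0 : ℝ) < m := by exact_mod_cast hm
        linarith)
    rw [h1, abs_of_pos Real.pi_pos] at h
    linarith

/-- AXG-C5d: the main statement on the normalised factors.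
Proof. Put `a = h 0 e^{iθ}`, `s = sg K θ Y`, `x = ξ s = h(s)/s^K = a Y (1 + e)`, `e = h(s)/h(0) - 1`,
`‖e‖ ≤ C ‖s‖ = C ‖Y‖^(-1/K)` for large `Y`.
Case `Re a > 0`: `α = a`, `q = a log a - a`,
`Z(Y) = Γ(x) exp (-(a Y log Y + q Y))`. By C5a `|arg x| ≤ π - η`, so `x` is not a pole of `Γ`, `Z` is
differentiable, `Γ(x) U(x) = 1 = uu`. For `ε > 0` and large `Y`: `‖Z‖ ≤ exp (Re (st x - a Y log Y - q Y)
+ ε ‖x‖) ≤ exp (C ‖Y‖^(1-1/K) (1 + ‖log Y‖) + 2 ε ‖a‖ ‖Y‖)` (A5b, C5c), and for `Y` in a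
bounded part of the sector use compactness (as in C4e; take `δ < δ₀` and `R` large).
Case `Re a < 0`: `α = -a`, `-x = α Y (1+e)`, `q = a (log α - 1 + iπ)`,
`Z(Y) = -2πi e^{iπx} U(1-x) exp (-(a Y log Y + q Y))`; `uu = 1 - e^{2πix}` by C5b; by A5c (for `-x`)
`‖U(1 + (-x))‖ ≤ exp (-(st (-x)).re + ε ‖x‖)` and
`-st(-x) + iπx = x log(-x) - x + iπx = a Y log Y + q Y + (small)` as in C5c. -/
theorem Bfun {K : ℕ} (hK : 1 ≤ K) {ξ h : ℂ → ℂ} (hξ : Pl K ξ h) {θ : ℝ}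
    (hθ : (h 0 * exp (θ * I)).re ≠ 0) : ∃ δ₀ : ℝ, 0 < δ₀ ∧ δ₀ < Real.pi / 4 ∧
    ∀ δ : ℝ, 0 < δ → δ < δ₀ → ∃ R : ℝ, 0 ≤ R ∧ ∃ (q : ℂ) (Z : ℂ → ℂ),
      DifferentiableOn ℂ Z (Sec δ R) ∧ ZTy (Sec δ R) Z ∧ ∀ Y ∈ Sec δ R,
        (exp (h 0 * exp (θ * I) * (Y * log Y) + q * Y) * Z Y) * U (ξ (sg K θ Y)) =
          uu (h 0) θ (ξ (sg K θ Y)) := by
  have hh0 := hξ.2.1
  obtain ⟨a, ha⟩ : ∃ a : ℂ, a = h 0 * exp (θ * I) := ⟨_, rfl⟩
  have ha0 : a ≠ 0 := by rw [ha]; exact mul_ne_zero hh0 (exp_ne_zero _)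
  have hna : 0 < ‖a‖ := norm_pos_iff.2 ha0
  rw [← ha] at hθ ⊢
  have hpi := Real.pi_pos
  rcases lt_or_gt_of_ne hθ with hneg | hpos
  · -- negative real part
    have hα : 0 < (-a).re := by rw [neg_re]; linarith
    obtain ⟨δ₀, η, e₀, hδ0, hδ1, hη0, hη1, he0, he1, hlog⟩ := log_mul_sec hα
    refine ⟨δ₀, hδ0, hδ1, fun δ hδ hδδ => ?_⟩
    obtain ⟨R1, C1, hR1, hC1, hdat⟩ :=
      c5b_data hK hξ θ (lt_min he0 (show (0 : ℝ) < 1 / 2 by norm_num))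
    obtain ⟨C2, hC2, hst⟩ := st_asym (-a)
    obtain ⟨R2, hR2, hdiff⟩ := An_sg hK θ (Pl_An hξ) (δ := (δ + δ₀) / 2) (by linarith)
    obtain ⟨R', hR'⟩ : ∃ R' : ℝ, R' = max (max R1 R2) 1 := ⟨_, rfl⟩
    have hR'1 : R1 ≤ R' := by rw [hR']; exact le_trans (le_max_left _ _) (le_max_left _ _)
    have hR'2 : R2 ≤ R' := by rw [hR']; exact le_trans (le_max_right _ _) (le_max_left _ _)
    have hR'3 : 1 ≤ R' := by rw [hR']; exact le_max_right _ _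
    have hR'0 : 0 ≤ R' := by linarith
    obtain ⟨q, hq⟩ : ∃ q : ℂ, q = Real.pi * I * a - ((-a) * log (-a) - (-a)) := ⟨_, rfl⟩
    have hV : DifferentiableOn ℂ (fun Y => -2 * Real.pi * I *
        exp (Real.pi * I * ξ (sg K θ Y)) * U (1 - ξ (sg K θ Y))) (Sec ((δ + δ₀) / 2) R') := by
      have h1 : DifferentiableOn ℂ (fun Y => ξ (sg K θ Y)) (Sec ((δ + δ₀) / 2) R') :=
        hdiff.mono fun Y hY => ⟨lt_of_le_of_lt hR'2 hY.1, hY.2⟩
      have h2 : DifferentiableOn ℂ (fun Y => U (1 - ξ (sg K θ Y))) (Sec ((δ + δ₀) / 2) R') := by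
        intro Y hY
        have h3 : DifferentiableAt ℂ U (1 - ξ (sg K θ Y)) :=
          (differentiable_one_div_Gamma) (1 - ξ (sg K θ Y))
        exact DifferentiableAt.comp_differentiableWithinAt (g := U)
          (f := fun Y => 1 - ξ (sg K θ Y)) Y h3 ((h1 Y hY).const_sub 1)
      exact (((h1.const_mul _).cexp).const_mul _).mul h2
    obtain ⟨Z, hZ1, hZ2, hZ3⟩ := c5b_main (δ := δ) hR'0 hδ (by linarith) (by linarith) a q hV (by
      intro ε hε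
      obtain ⟨R3, hR3⟩ := U_wide hη0 hη1 (ε := ε / (8 * ‖a‖)) (by positivity)
      obtain ⟨R4, hR4, hsm⟩ := c5b_small hK (C2 * C1 + Real.pi * ‖a‖ * C1)
        (show 0 < ε / 4 by linarith)
      refine ⟨max (max (2 * R3 / ‖a‖) R4) (2 * Real.pi * (4 / ε)), fun Y hY hYR => ?_⟩
      have hY3 : 2 * R3 / ‖a‖ ≤ ‖Y‖ :=
        le_trans (le_trans (le_max_left _ _) (le_max_left _ _)) hYR
      have hY4 : R4 ≤ ‖Y‖ := le_trans (le_trans (le_max_right _ _) (le_max_left _ _)) hYR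
      have hY5 : 2 * Real.pi * (4 / ε) ≤ ‖Y‖ := le_trans (le_max_right _ _) hYR
      have hY1 : 1 ≤ ‖Y‖ := le_trans hR4 hY4
      have hYne : Y ≠ 0 := norm_pos_iff.1 (by linarith)
      obtain ⟨e, hee, heC, hx⟩ := hdat Y (lt_of_le_of_lt hR'1 hY.1)
      rw [← ha] at hx
      have hee0 : ‖e‖ ≤ e₀ := le_trans hee (min_le_left _ _)
      have hee1 : ‖e‖ ≤ 1 / 2 := le_trans hee (min_le_right _ _)
      obtain ⟨hl1, hl2⟩ := hlog Y e hYne (by linarith [hY.2]) hee0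
      have hst1 := hst Y e hY1 hee1 hl2
      have hn := c5b_norm (-a) Y e hee1
      rw [norm_neg] at hn
      have hy : 1 - ξ (sg K θ Y) = 1 + (-a) * Y * (1 + e) := by rw [hx]; ring
      have hU := hR3 ((-a) * Y * (1 + e)) (by
        refine le_trans ?_ hn.1
        rw [div_le_iff₀ hna] at hY3
        linarith) hl1
      change ‖-2 * Real.pi * I * exp (Real.pi * I * ξ (sg K θ Y)) * U (1 - ξ (sg K θ Y))‖ ≤ _
      rw [hy, norm_mul, norm_mul, norm_exp]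
      have hc : ‖(-2 : ℂ) * Real.pi * I‖ = 2 * Real.pi := by
        rw [norm_mul, norm_mul, norm_neg, norm_I, norm_real, Real.norm_of_nonneg hpi.le]
        simp
      rw [hc]
      have hc2 : 2 * Real.pi ≤ Real.exp (ε / 4 * ‖Y‖) := by
        have h1 := Real.add_one_le_exp (ε / 4 * ‖Y‖)
        have h2 : ε / 4 * (2 * Real.pi * (4 / ε)) = 2 * Real.pi := by field_simp
        have h3 : ε / 4 * (2 * Real.pi * (4 / ε)) ≤ ε / 4 * ‖Y‖ :=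
          mul_le_mul_of_nonneg_left hY5 (by linarith)
        linarith
      have hdiff1 : Real.pi * I * ξ (sg K θ Y) - st ((-a) * Y * (1 + e)) =
          (a * (Y * log Y) + q * Y) + (-(st ((-a) * Y * (1 + e)) -
            ((-a) * (Y * log Y) + ((-a) * log (-a) - (-a)) * Y)) + Real.pi * I * a * Y * e) := by
        rw [hx, hq]
        ring
      have hnorm : ‖-(st ((-a) * Y * (1 + e)) -
            ((-a) * (Y * log Y) + ((-a) * log (-a) - (-a)) * Y)) + Real.pi * I * a * Y * e‖ ≤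
          ε / 4 * ‖Y‖ := by
        refine (norm_add_le _ _).trans ?_
        rw [norm_neg, norm_mul, norm_mul, norm_mul, norm_mul, norm_I, norm_real,
          Real.norm_of_nonneg hpi.le, mul_one]
        have h1 := hsm Y hY4
        have h2 : 0 ≤ ‖log Y‖ := norm_nonneg _
        have h3 : C2 * ‖e‖ * ‖Y‖ * (1 + ‖log Y‖) + Real.pi * ‖a‖ * ‖Y‖ * ‖e‖ ≤
            ((C2 * C1 + Real.pi * ‖a‖ * C1) * ‖Y‖ ^ (-(1 : ℝ) / K) * (1 + ‖log Y‖)) * ‖Y‖ := by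
          have h4 : Real.pi * ‖a‖ * ‖Y‖ * ‖e‖ ≤ Real.pi * ‖a‖ * ‖Y‖ * ‖e‖ * (1 + ‖log Y‖) := by
            have : 0 ≤ Real.pi * ‖a‖ * ‖Y‖ * ‖e‖ := by positivity
            nlinarith
          calc C2 * ‖e‖ * ‖Y‖ * (1 + ‖log Y‖) + Real.pi * ‖a‖ * ‖Y‖ * ‖e‖
              ≤ C2 * ‖e‖ * ‖Y‖ * (1 + ‖log Y‖) +
                Real.pi * ‖a‖ * ‖Y‖ * ‖e‖ * (1 + ‖log Y‖) := by linarith
            _ = ‖e‖ * ((C2 + Real.pi * ‖a‖) * ‖Y‖ * (1 + ‖log Y‖)) := by ring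
            _ ≤ (C1 * ‖Y‖ ^ (-(1 : ℝ) / K)) * ((C2 + Real.pi * ‖a‖) * ‖Y‖ * (1 + ‖log Y‖)) :=
                mul_le_mul_of_nonneg_right heC (by positivity)
            _ = _ := by ring
        calc _ ≤ C2 * ‖e‖ * ‖Y‖ * (1 + ‖log Y‖) + Real.pi * ‖a‖ * ‖Y‖ * ‖e‖ :=
              add_le_add_left hst1 _
          _ ≤ _ := h3
          _ ≤ ε / 4 * ‖Y‖ := mul_le_mul_of_nonneg_right h1 (norm_nonneg _)
      have hre : (Real.pi * I * ξ (sg K θ Y)).re - (st ((-a) * Y * (1 + e))).re ≤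
          (a * (Y * log Y) + q * Y).re + ε / 4 * ‖Y‖ := by
        rw [← sub_re, hdiff1, add_re]
        linarith [(le_trans (Complex.re_le_norm _) hnorm)]
      have hxn : ε / (8 * ‖a‖) * ‖(-a) * Y * (1 + e)‖ ≤ ε / 4 * ‖Y‖ := by
        calc ε / (8 * ‖a‖) * ‖(-a) * Y * (1 + e)‖ ≤ ε / (8 * ‖a‖) * (2 * (‖a‖ * ‖Y‖)) :=
              mul_le_mul_of_nonneg_left hn.2 (by positivity)
          _ = ε / 4 * ‖Y‖ := by field_simp; ring
      calc 2 * Real.pi * Real.exp (Real.pi * I * ξ (sg K θ Y)).re * ‖U (1 + (-a) * Y * (1 + e))‖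
          ≤ Real.exp (ε / 4 * ‖Y‖) * Real.exp (Real.pi * I * ξ (sg K θ Y)).re *
            Real.exp (-(st ((-a) * Y * (1 + e))).re + ε / (8 * ‖a‖) * ‖(-a) * Y * (1 + e)‖) := by
            gcongr
        _ = Real.exp (ε / 4 * ‖Y‖ + ((Real.pi * I * ξ (sg K θ Y)).re -
              (st ((-a) * Y * (1 + e))).re) + ε / (8 * ‖a‖) * ‖(-a) * Y * (1 + e)‖) := by
            rw [← Real.exp_add, ← Real.exp_add]
            congr 1
            ring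
        _ ≤ Real.exp ((a * (Y * log Y) + q * Y).re + ε * ‖Y‖) := by
            rw [Real.exp_le_exp]
            have : 0 ≤ ε * ‖Y‖ := by positivity
            linarith)
    refine ⟨R' + 1, by linarith, q, Z, hZ1, hZ2, fun Y _ => ?_⟩
    rw [hZ3 Y]
    change (-2 * Real.pi * I * exp (Real.pi * I * ξ (sg K θ Y)) * U (1 - ξ (sg K θ Y))) *
      U (ξ (sg K θ Y)) = _
    rw [U_mul_U, uu, if_neg]
    rw [← ha]
    exact not_lt.2 hneg.le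
  · -- positive real part
    obtain ⟨δ₀, η, e₀, hδ0, hδ1, hη0, hη1, he0, he1, hlog⟩ := log_mul_sec hpos
    refine ⟨δ₀, hδ0, hδ1, fun δ hδ hδδ => ?_⟩
    obtain ⟨R1, C1, hR1, hC1, hdat⟩ :=
      c5b_data hK hξ θ (lt_min he0 (show (0 : ℝ) < 1 / 2 by norm_num))
    obtain ⟨C2, hC2, hst⟩ := st_asym a
    obtain ⟨R2, hR2, hdiff⟩ := An_sg hK θ (Pl_An hξ) (δ := (δ + δ₀) / 2) (by linarith)
    obtain ⟨R', hR'⟩ : ∃ R' : ℝ, R' = max (max R1 R2) 1 := ⟨_, rfl⟩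
    have hR'1 : R1 ≤ R' := by rw [hR']; exact le_trans (le_max_left _ _) (le_max_left _ _)
    have hR'2 : R2 ≤ R' := by rw [hR']; exact le_trans (le_max_right _ _) (le_max_left _ _)
    have hR'3 : 1 ≤ R' := by rw [hR']; exact le_max_right _ _
    have hR'0 : 0 ≤ R' := by linarith
    have hpole : ∀ Y ∈ Sec ((δ + δ₀) / 2) R', ∀ m : ℕ, ξ (sg K θ Y) ≠ -m := by
      intro Y hY
      have hYn : R' < ‖Y‖ := hY.1
      have hYne : Y ≠ 0 := norm_pos_iff.1 (by linarith)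
      obtain ⟨e, hee, heC, hx⟩ := hdat Y (lt_of_le_of_lt hR'1 hY.1)
      rw [← ha] at hx
      have hee0 : ‖e‖ ≤ e₀ := le_trans hee (min_le_left _ _)
      have hee1 : ‖e‖ ≤ 1 / 2 := le_trans hee (min_le_right _ _)
      obtain ⟨hl1, hl2⟩ := hlog Y e hYne (by linarith [hY.2]) hee0
      have hn := c5b_norm a Y e hee1
      rw [hx]
      refine c5b_pole hη0 ?_ hl1
      have : 0 < ‖a‖ * ‖Y‖ / 2 := by positivity
      exact norm_pos_iff.1 (by linarith [hn.1])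
    have hV : DifferentiableOn ℂ (fun Y => Gamma (ξ (sg K θ Y))) (Sec ((δ + δ₀) / 2) R') := by
      have h1 : DifferentiableOn ℂ (fun Y => ξ (sg K θ Y)) (Sec ((δ + δ₀) / 2) R') :=
        hdiff.mono fun Y hY => ⟨lt_of_le_of_lt hR'2 hY.1, hY.2⟩
      intro Y hY
      exact (differentiableAt_Gamma _ (hpole Y hY)).comp_differentiableWithinAt Y (h1 Y hY)
    obtain ⟨Z, hZ1, hZ2, hZ3⟩ := c5b_main (δ := δ) hR'0 hδ (by linarith) (by linarith) a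
      (a * log a - a) hV (by
      intro ε hε
      obtain ⟨R3, hR3⟩ := Gamma_wide hη0 hη1 (ε := ε / (8 * ‖a‖)) (by positivity)
      obtain ⟨R4, hR4, hsm⟩ := c5b_small hK (C2 * C1) (show 0 < ε / 4 by linarith)
      refine ⟨max (2 * R3 / ‖a‖) R4, fun Y hY hYR => ?_⟩
      have hY3 : 2 * R3 / ‖a‖ ≤ ‖Y‖ := le_trans (le_max_left _ _) hYR
      have hY4 : R4 ≤ ‖Y‖ := le_trans (le_max_right _ _) hYR
      have hY1 : 1 ≤ ‖Y‖ := le_trans hR4 hY4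
      have hYne : Y ≠ 0 := norm_pos_iff.1 (by linarith)
      obtain ⟨e, hee, heC, hx⟩ := hdat Y (lt_of_le_of_lt hR'1 hY.1)
      rw [← ha] at hx
      have hee0 : ‖e‖ ≤ e₀ := le_trans hee (min_le_left _ _)
      have hee1 : ‖e‖ ≤ 1 / 2 := le_trans hee (min_le_right _ _)
      obtain ⟨hl1, hl2⟩ := hlog Y e hYne (by linarith [hY.2]) hee0
      have hst1 := hst Y e hY1 hee1 hl2
      have hn := c5b_norm a Y e hee1
      have hG := hR3 (a * Y * (1 + e)) (by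
        refine le_trans ?_ hn.1
        rw [div_le_iff₀ hna] at hY3
        linarith) hl1
      change ‖Gamma (ξ (sg K θ Y))‖ ≤ _
      rw [hx]
      refine hG.trans ?_
      rw [Real.exp_le_exp]
      have hnorm : ‖st (a * Y * (1 + e)) - (a * (Y * log Y) + (a * log a - a) * Y)‖ ≤
          ε / 4 * ‖Y‖ := by
        have h1 := hsm Y hY4
        calc _ ≤ C2 * ‖e‖ * ‖Y‖ * (1 + ‖log Y‖) := hst1
          _ = ‖e‖ * (C2 * ‖Y‖ * (1 + ‖log Y‖)) := by ring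
          _ ≤ (C1 * ‖Y‖ ^ (-(1 : ℝ) / K)) * (C2 * ‖Y‖ * (1 + ‖log Y‖)) :=
              mul_le_mul_of_nonneg_right heC (by positivity)
          _ = (C2 * C1 * ‖Y‖ ^ (-(1 : ℝ) / K) * (1 + ‖log Y‖)) * ‖Y‖ := by ring
          _ ≤ ε / 4 * ‖Y‖ := mul_le_mul_of_nonneg_right h1 (norm_nonneg _)
      have hre : (st (a * Y * (1 + e))).re ≤
          (a * (Y * log Y) + (a * log a - a) * Y).re + ε / 4 * ‖Y‖ := by
        have h1 := le_trans (Complex.re_le_norm _) hnorm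
        rw [sub_re] at h1
        linarith
      have hxn : ε / (8 * ‖a‖) * ‖a * Y * (1 + e)‖ ≤ ε / 4 * ‖Y‖ := by
        calc ε / (8 * ‖a‖) * ‖a * Y * (1 + e)‖ ≤ ε / (8 * ‖a‖) * (2 * (‖a‖ * ‖Y‖)) :=
              mul_le_mul_of_nonneg_left hn.2 (by positivity)
          _ = ε / 4 * ‖Y‖ := by field_simp; ring
      have : 0 ≤ ε * ‖Y‖ := by positivity
      linarith)
    refine ⟨R' + 1, by linarith, a * log a - a, Z, hZ1, hZ2, fun Y hY => ?_⟩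
    rw [hZ3 Y]
    change Gamma (ξ (sg K θ Y)) * (Gamma (ξ (sg K θ Y)))⁻¹ = _
    have hY' : Y ∈ Sec ((δ + δ₀) / 2) R' := ⟨by linarith [hY.1], by linarith [hY.2]⟩
    rw [mul_inv_cancel₀ (Gamma_ne_zero (hpole Y hY')), uu, if_pos]
    rw [← ha]
    exact hpos

end Pool.Agent.Helper94.AXG
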