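import Pool.Agent.Helper94.AXG.C5B
import Pool.Agent.Helper94.AXG.B3

/-! # AXG-C6 -/

namespace Pool.Agent.Helper94.AXG

open Complex Filter Topology

/-- AXG-C6a: `Bfun` for finitely many functions on a common sector. Proof. Take `δ` smaller than all
`δ₀` of `Bfun`, `R` the maximum; both properties pass to subsets of the sector. -/
theorem Bcommon {T : Type} [Fintype T] {K : ℕ} (hK : 1 ≤ K) (ξ h : T → ℂ → ℂ)
    (hξ : ∀ i, Pl K (ξ i) (h i)) {θ : ℝ} (hθ : ∀ i, (h i 0 * exp (θ * I)).re ≠ 0) :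
    ∃ δ : ℝ, 0 < δ ∧ δ < Real.pi / 4 ∧ ∃ R : ℝ, 0 ≤ R ∧ ∃ (q : T → ℂ) (Z : T → ℂ → ℂ),
      (∀ i, DifferentiableOn ℂ (Z i) (Sec δ R)) ∧ (∀ i, ZTy (Sec δ R) (Z i)) ∧
      ∀ i, ∀ Y ∈ Sec δ R,
        (exp (h i 0 * exp (θ * I) * (Y * log Y) + q i * Y) * Z i Y) * U (ξ i (sg K θ Y)) =
          uu (h i 0) θ (ξ i (sg K θ Y)) := by
  choose δ₀ h0 h1 H using fun i => Bfun hK (hξ i) (hθ i)
  have h2 : ∀ᶠ δ : ℝ in 𝓝[>] 0, (∀ i, δ < δ₀ i) ∧ δ < Real.pi / 4 ∧ 0 < δ := by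
    refine (Filter.eventually_all.2 fun i => ?_).and (Filter.Eventually.and ?_ ?_)
    · exact (eventually_lt_nhds (h0 i)).filter_mono nhdsWithin_le_nhds
    · exact (eventually_lt_nhds (by positivity)).filter_mono nhdsWithin_le_nhds
    · exact eventually_mem_nhdsWithin
  obtain ⟨δ, hδi, hδ4, hδ0⟩ := h2.exists
  choose R hR q Z hd hz he using fun i => H i δ hδ0 (hδi i)
  have hsub : ∀ i, Sec δ (∑ j, R j) ⊆ Sec δ (R i) := fun i Y hY =>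
    ⟨lt_of_le_of_lt (Finset.single_le_sum (fun j _ => hR j) (Finset.mem_univ i)) hY.1, hY.2⟩
  refine ⟨δ, hδ0, hδ4, ∑ j, R j, Finset.sum_nonneg fun j _ => hR j, q, Z,
    fun i => (hd i).mono (hsub i), fun i ε hε => ?_, fun i Y hY => he i Y (hsub i hY)⟩
  obtain ⟨C, hC⟩ := hz i ε hε
  exact ⟨C, fun Y hY => hC Y (hsub i hY)⟩

end Pool.Agent.Helper94.AXG
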