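import Pool.Agent.Helper94.AXG.C3B
import Pool.Agent.Helper94.AXG.C1D

/-! # AXG-C7: a relation with minimal support -/

namespace Pool.Agent.Helper94.AXG

open Complex Filter Topology

/-- AXG-C7. Proof. Among all relations with coefficients in `Ex K`, not all `Ze`, choose one, `p'`, with the
smallest number of `γ` with `¬ Ze (p' γ)`. Two such `γ` exist: if there is only one, then
`p'_γ ∏ U(ξ_i)^(D-γ_i)` is `Ze`, which contradicts the domain property (`An_prod_zero`) and `not_Ze_U`.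
For the last claim let `p''` be a relation with support inside the support of `p'` and `γ, γ'` given. If
`p'_γ` is `Ze` then `p''_γ` is `Ze` and both sides vanish. Otherwise
`c_κ = p'_γ p''_κ - p''_γ p'_κ` is a relation (sum of products of `Ex K` functions), `c_γ = 0` and
`c_κ` is `Ze` whenever `p'_κ` is, so its support is strictly smaller: all `c_κ` are `Ze`; take
`κ = γ'`. -/
theorem minrel {T : Type} [Fintype T] [DecidableEq T] {K : ℕ} (hK : 1 ≤ K) (ξ h : T → ℂ → ℂ)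
    (hξ : ∀ i, Pl K (ξ i) (h i)) (D : ℕ) (p : (T → Fin (D + 1)) → ℂ → ℂ) (hp : ∀ γ, Ex K (p γ))
    (hrel : Rl ξ D p) (hne : ∃ γ, ¬ Ze (p γ)) :
    ∃ p' : (T → Fin (D + 1)) → ℂ → ℂ, (∀ γ, Ex K (p' γ)) ∧ Rl ξ D p' ∧
      (∃ γ₀ γ₁, γ₀ ≠ γ₁ ∧ ¬ Ze (p' γ₀) ∧ ¬ Ze (p' γ₁)) ∧
      ∀ p'' : (T → Fin (D + 1)) → ℂ → ℂ, (∀ γ, Ex K (p'' γ)) → Rl ξ D p'' →
        (∀ γ, Ze (p' γ) → Ze (p'' γ)) →
        ∀ γ γ', ∀ᶠ s in 𝓝[≠] (0 : ℂ), p' γ s * p'' γ' s = p'' γ s * p' γ' s := by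
  classical
  have hex : ∃ n : ℕ, ∃ p' : (T → Fin (D + 1)) → ℂ → ℂ, (∀ γ, Ex K (p' γ)) ∧ Rl ξ D p' ∧
      (∃ γ, ¬ Ze (p' γ)) ∧ (Finset.univ.filter fun γ => ¬ Ze (p' γ)).card = n :=
    ⟨_, p, hp, hrel, hne, rfl⟩
  obtain ⟨p', hp', hrel', ⟨γ₀, hγ₀⟩, hcard⟩ := Nat.find_spec hex
  have hmin : ∀ q : (T → Fin (D + 1)) → ℂ → ℂ, (∀ γ, Ex K (q γ)) → Rl ξ D q →
      (Finset.univ.filter fun γ => ¬ Ze (q γ)).card <
        (Finset.univ.filter fun γ => ¬ Ze (p' γ)).card → ∀ γ, Ze (q γ) := by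
    intro q hq hq' hlt γ
    by_contra hγ
    rw [hcard] at hlt
    exact Nat.find_min hex hlt ⟨q, hq, hq', ⟨γ, hγ⟩, rfl⟩
  refine ⟨p', hp', hrel', ?_, ?_⟩
  · by_contra hno
    have hall : ∀ γ, γ ≠ γ₀ → Ze (p' γ) := by
      intro γ hγ
      by_contra h
      exact hno ⟨γ₀, γ, hγ.symm, hγ₀, h⟩
    have hall' : ∀ᶠ s in 𝓝[≠] (0 : ℂ), ∀ γ, γ ≠ γ₀ → p' γ s = 0 := by
      rw [Filter.eventually_all]
      intro γ
      by_cases h : γ = γ₀
      · exact Eventually.of_forall fun s h' => absurd h h'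
      · filter_upwards [hall γ h] with s hs _
        exact hs
    have hz : Ze (fun s => p' γ₀ s * ∏ i, U (ξ i s) ^ (D - (γ₀ i : ℕ))) := by
      have hr : ∀ᶠ s in 𝓝[≠] (0 : ℂ),
          ∑ γ : T → Fin (D + 1), p' γ s * ∏ i, U (ξ i s) ^ (D - (γ i : ℕ)) = 0 := hrel'
      have h0 : ∀ᶠ s in 𝓝[≠] (0 : ℂ), p' γ₀ s * ∏ i, U (ξ i s) ^ (D - (γ₀ i : ℕ)) = 0 := by
        filter_upwards [hr, hall'] with s h1 h2
        rw [Finset.sum_eq_single γ₀] at h1
        · exact h1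
        · intro γ _ hγ
          rw [h2 γ hγ, zero_mul]
        · intro h
          exact absurd (Finset.mem_univ _) h
      exact h0
    have hAU : ∀ i, ∀ n : ℕ, An (fun s => U (ξ i s) ^ n) := by
      intro i n
      have h1 : ∀ᶠ s in 𝓝[≠] (0 : ℂ), AnalyticAt ℂ (fun s => U (ξ i s)) s := An_U (Pl_An (hξ i))
      have h2 : ∀ᶠ s in 𝓝[≠] (0 : ℂ), AnalyticAt ℂ (fun s => U (ξ i s) ^ n) s := by
        filter_upwards [h1] with s hs
        exact hs.fun_pow n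
      exact h2
    have hAP : An (fun s => ∏ i, U (ξ i s) ^ (D - (γ₀ i : ℕ))) := by
      have h1 : ∀ᶠ s in 𝓝[≠] (0 : ℂ), ∀ i ∈ (Finset.univ : Finset T),
          AnalyticAt ℂ (fun s => U (ξ i s) ^ (D - (γ₀ i : ℕ))) s := by
        rw [Filter.eventually_all_finset]
        exact fun i _ => hAU i _
      have h2 : ∀ᶠ s in 𝓝[≠] (0 : ℂ),
          AnalyticAt ℂ (fun s => ∏ i, U (ξ i s) ^ (D - (γ₀ i : ℕ))) s := by
        filter_upwards [h1] with s hs
        exact Finset.analyticAt_fun_prod Finset.univ hs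
      exact h2
    rcases An_mul_zero (Ex_An (hp' γ₀)) hAP hz with h | h
    · exact hγ₀ h
    · obtain ⟨i, -, hi⟩ := An_prod_zero Finset.univ
        (f := fun i s => U (ξ i s) ^ (D - (γ₀ i : ℕ))) (fun i _ => hAU i _) h
      refine not_Ze_U hK (hξ i) ?_
      have hi' : ∀ᶠ s in 𝓝[≠] (0 : ℂ), U (ξ i s) ^ (D - (γ₀ i : ℕ)) = 0 := hi
      have h3 : ∀ᶠ s in 𝓝[≠] (0 : ℂ), U (ξ i s) = 0 := by
        filter_upwards [hi'] with s hs
        exact eq_zero_of_pow_eq_zero hs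
      exact h3
  · intro p'' hp'' hrel'' hsup γ γ'
    by_cases hγ : Ze (p' γ)
    · have h1 : ∀ᶠ s in 𝓝[≠] (0 : ℂ), p' γ s = 0 := hγ
      have h2 : ∀ᶠ s in 𝓝[≠] (0 : ℂ), p'' γ s = 0 := hsup γ hγ
      filter_upwards [h1, h2] with s h3 h4
      rw [h3, h4, zero_mul, zero_mul]
    · have hc : ∀ κ, Ze (fun s => p' γ s * p'' κ s - p'' γ s * p' κ s) := by
        refine hmin (fun κ s => p' γ s * p'' κ s - p'' γ s * p' κ s) (fun κ =>
          Ex_sub hK (Ex_mul (hp' γ) (hp'' κ)) (Ex_mul (hp'' γ) (hp' κ))) ?_ ?_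
        · have hr' : ∀ᶠ s in 𝓝[≠] (0 : ℂ),
            ∑ γ : T → Fin (D + 1), p' γ s * ∏ i, U (ξ i s) ^ (D - (γ i : ℕ)) = 0 := hrel'
          have hr'' : ∀ᶠ s in 𝓝[≠] (0 : ℂ),
            ∑ γ : T → Fin (D + 1), p'' γ s * ∏ i, U (ξ i s) ^ (D - (γ i : ℕ)) = 0 := hrel''
          have h0 : ∀ᶠ s in 𝓝[≠] (0 : ℂ), ∑ κ : T → Fin (D + 1),
              (p' γ s * p'' κ s - p'' γ s * p' κ s) * ∏ i, U (ξ i s) ^ (D - (κ i : ℕ)) = 0 := by
            filter_upwards [hr', hr''] with s h1 h2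
            have h3 : ∑ κ : T → Fin (D + 1),
                (p' γ s * p'' κ s - p'' γ s * p' κ s) * ∏ i, U (ξ i s) ^ (D - (κ i : ℕ)) =
                p' γ s * ∑ κ : T → Fin (D + 1), p'' κ s * ∏ i, U (ξ i s) ^ (D - (κ i : ℕ)) -
                p'' γ s * ∑ κ : T → Fin (D + 1), p' κ s * ∏ i, U (ξ i s) ^ (D - (κ i : ℕ)) := by
              rw [Finset.mul_sum, Finset.mul_sum, ← Finset.sum_sub_distrib]
              refine Finset.sum_congr rfl fun κ _ => ?_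
              ring
            rw [h3, h1, h2, mul_zero, mul_zero, sub_zero]
          exact h0
        · refine Finset.card_lt_card ⟨fun κ hκ => ?_, fun hsub => ?_⟩
          · rw [Finset.mem_filter] at hκ ⊢
            refine ⟨Finset.mem_univ _, fun h => hκ.2 ?_⟩
            have h1 : ∀ᶠ s in 𝓝[≠] (0 : ℂ), p' κ s = 0 := h
            have h2 : ∀ᶠ s in 𝓝[≠] (0 : ℂ), p'' κ s = 0 := hsup κ h
            have h3 : ∀ᶠ s in 𝓝[≠] (0 : ℂ), p' γ s * p'' κ s - p'' γ s * p' κ s = 0 := by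
              filter_upwards [h1, h2] with s h4 h5
              rw [h4, h5, mul_zero, mul_zero, sub_zero]
            exact h3
          · have h1 : γ ∈ Finset.univ.filter fun κ => ¬ Ze (p' κ) :=
              Finset.mem_filter.2 ⟨Finset.mem_univ _, hγ⟩
            have h2 := (Finset.mem_filter.1 (hsub h1)).2
            apply h2
            have h3 : ∀ᶠ s in 𝓝[≠] (0 : ℂ), p' γ s * p'' γ s - p'' γ s * p' γ s = 0 :=
              Eventually.of_forall fun s => by ring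
            exact h3
      have h1 : ∀ᶠ s in 𝓝[≠] (0 : ℂ), p' γ s * p'' γ' s - p'' γ s * p' γ' s = 0 := hc γ'
      filter_upwards [h1] with s hs
      exact sub_eq_zero.1 hs

end Pool.Agent.Helper94.AXG
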