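import Pool.Agent.Helper94.AXG.Defs

/-! # AXG-C8 -/

namespace Pool.Agent.Helper94.AXG

open Complex Filter Topology

private theorem dir_re {ω : ℂ} (hω : ω ≠ 0) (a : ℂ) (s : ℝ) :
    (a * exp (((Real.pi / 2 - arg ω + s : ℝ) : ℂ) * I)).re =
      -(‖ω‖ * ((a / ω).im * Real.cos s + (a / ω).re * Real.sin s)) := by
  have h1 : (‖ω‖ : ℂ) * exp (arg ω * I) = ω := norm_mul_exp_arg_mul_I ω
  have h2 : exp (((Real.pi / 2 - arg ω + s : ℝ) : ℂ) * I) * exp (arg ω * I) =
      I * exp ((s : ℂ) * I) := by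
    have e1 : I * exp ((s : ℂ) * I) = exp (Real.pi / 2 * I) * exp ((s : ℂ) * I) := by
      rw [exp_pi_div_two_mul_I]
    rw [e1, ← exp_add, ← exp_add]
    congr 1
    push_cast
    ring
  have h3 : ω * exp (((Real.pi / 2 - arg ω + s : ℝ) : ℂ) * I) = ‖ω‖ * (I * exp ((s : ℂ) * I)) := by
    rw [← h2]
    nth_rewrite 1 [← h1]
    ring
  have h4 : a * exp (((Real.pi / 2 - arg ω + s : ℝ) : ℂ) * I) =
      (a / ω) * (‖ω‖ * (I * exp ((s : ℂ) * I))) := by
    rw [← h3]
    field_simp
  rw [h4, exp_mul_I, ← ofReal_cos, ← ofReal_sin]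
  simp only [mul_re, mul_im, add_re, add_im, I_re, I_im, ofReal_re, ofReal_im]
  ring

/-- AXG-C8a: the two directions. For `ω ≠ 0` let `θ₀ = π/2 - arg ω`, so `ω e^{iθ₀} = i|ω|`. For small
`η > 0` and every `i`: if `a_i/ω` is not real, `Re (a_i e^{iθ₀}) ≠ 0` and the sign of `Re (a_i e^{iθ})` is
constant for `|θ - θ₀| ≤ η`; if `a_i / ω = t > 0` then `Re (a_i e^{i(θ₀ - η)}) = t|ω| sin η > 0` and
`Re (a_i e^{i(θ₀+η)}) < 0`; if `t < 0` the signs are opposite. (`η < π/2`.) -/
theorem two_dirs {T : Type} [Fintype T] (a : T → ℂ) (ha : ∀ i, a i ≠ 0) {ω : ℂ} (hω : ω ≠ 0) :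
    ∃ θ₁ θ₂ : ℝ, ∀ i, (a i * exp (θ₁ * I)).re ≠ 0 ∧ (a i * exp (θ₂ * I)).re ≠ 0 ∧
      (sgr (a i / ω) = 0 →
        (0 < (a i * exp (θ₁ * I)).re ↔ 0 < (a i * exp (θ₂ * I)).re)) ∧
      (sgr (a i / ω) = 1 → 0 < (a i * exp (θ₁ * I)).re ∧ (a i * exp (θ₂ * I)).re < 0) ∧
      (sgr (a i / ω) = -1 → (a i * exp (θ₁ * I)).re < 0 ∧ 0 < (a i * exp (θ₂ * I)).re) := by
  have hnorm : 0 < ‖ω‖ := norm_pos_iff.2 hω
  have hev : ∀ᶠ η : ℝ in 𝓝[>] 0, (0 < η ∧ η < Real.pi / 2) ∧
      ∀ i, (a i / ω).im ≠ 0 → |(a i / ω).re| * Real.sin η < |(a i / ω).im| * Real.cos η := by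
    refine Filter.Eventually.and ?_ (Filter.eventually_all.2 fun i => ?_)
    · exact Ioo_mem_nhdsGT (by positivity)
    · by_cases h : (a i / ω).im = 0
      · exact Filter.Eventually.of_forall fun η h2 => absurd h h2
      · have hc : Continuous fun η : ℝ => |(a i / ω).im| * Real.cos η -
            |(a i / ω).re| * Real.sin η := by fun_prop
        have h0 : (0 : ℝ) < |(a i / ω).im| * Real.cos 0 - |(a i / ω).re| * Real.sin 0 := by
          rw [Real.cos_zero, Real.sin_zero, mul_one, mul_zero, sub_zero]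
          exact abs_pos.2 h
        have h1 := (hc.tendsto 0).eventually (lt_mem_nhds h0)
        refine Filter.Eventually.filter_mono nhdsWithin_le_nhds (h1.mono fun η h2 _ => ?_)
        linarith
  obtain ⟨η, ⟨hη0, hηpi⟩, hη⟩ := hev.exists
  have hsin : 0 < Real.sin η := Real.sin_pos_of_pos_of_lt_pi hη0 (by linarith [Real.pi_pos])
  refine ⟨Real.pi / 2 - arg ω + (-η), Real.pi / 2 - arg ω + η, fun i => ?_⟩
  have hz : a i / ω ≠ 0 := div_ne_zero (ha i) hω
  rw [dir_re hω, dir_re hω, Real.cos_neg, Real.sin_neg]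
  set u := (a i / ω).re with hu
  set v := (a i / ω).im with hv
  by_cases him : v = 0
  · have hre : u ≠ 0 := fun h => hz (Complex.ext h him)
    have hs : sgr (a i / ω) = if 0 < u then 1 else -1 := by
      unfold sgr
      rw [if_pos him]
    rw [hs, him]
    rcases lt_or_gt_of_ne hre with h | h
    · rw [if_neg (not_lt.2 h.le)]
      have h1 : 0 < ‖ω‖ * (-u * Real.sin η) := by
        apply mul_pos hnorm
        exact mul_pos (by linarith) hsin
      refine ⟨?_, ?_, ?_, ?_, ?_⟩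
      · exact ne_of_lt (by linarith)
      · exact ne_of_gt (by linarith)
      · intro h2; exact absurd h2 (by decide)
      · intro h2; exact absurd h2 (by decide)
      · intro _
        constructor <;> linarith
    · rw [if_pos h]
      have h1 : 0 < ‖ω‖ * (u * Real.sin η) := mul_pos hnorm (mul_pos h hsin)
      refine ⟨?_, ?_, ?_, ?_, ?_⟩
      · exact ne_of_gt (by linarith)
      · exact ne_of_lt (by linarith)
      · intro h2; exact absurd h2 (by decide)
      · intro _
        constructor <;> linarith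
      · intro h2; exact absurd h2 (by decide)
  · have hs : sgr (a i / ω) = 0 := by
      unfold sgr
      rw [if_neg him]
    have h1 := hη i him
    rw [← hu, ← hv] at h1
    rw [hs]
    have h2 : |u * Real.sin η| = |u| * Real.sin η := by rw [abs_mul, abs_of_pos hsin]
    have h3 := abs_lt.1 (h2 ▸ h1 : |u * Real.sin η| < |v| * Real.cos η)
    rcases lt_or_gt_of_ne him with h | h
    · rw [abs_of_neg h] at h3
      have h4 : 0 < ‖ω‖ * (-(v * Real.cos η + u * -Real.sin η)) :=
        mul_pos hnorm (by linarith [h3.1, h3.2])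
      have h5 : 0 < ‖ω‖ * (-(v * Real.cos η + u * Real.sin η)) :=
        mul_pos hnorm (by linarith [h3.1, h3.2])
      refine ⟨ne_of_gt (by linarith), ne_of_gt (by linarith), fun _ => ⟨fun _ => by linarith,
        fun _ => by linarith⟩, fun h6 => absurd h6 (by decide), fun h6 => absurd h6 (by decide)⟩
    · rw [abs_of_pos h] at h3
      have h4 : 0 < ‖ω‖ * (v * Real.cos η + u * -Real.sin η) :=
        mul_pos hnorm (by linarith [h3.1, h3.2])
      have h5 : 0 < ‖ω‖ * (v * Real.cos η + u * Real.sin η) :=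
        mul_pos hnorm (by linarith [h3.1, h3.2])
      refine ⟨ne_of_lt (by linarith), ne_of_lt (by linarith), fun _ => ⟨fun h6 => by linarith,
        fun h6 => by linarith⟩, fun h6 => absurd h6 (by decide), fun h6 => absurd h6 (by decide)⟩

end Pool.Agent.Helper94.AXG
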