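import Pool.Agent.Helper94.AXG.C4B
import Pool.Agent.Helper94.AXG.C3B
import Pool.Agent.Helper94.AXG.B5

/-! # AXG-C9 -/

namespace Pool.Agent.Helper94.AXG

open Complex Filter Topology

/-- AXG-C9a. Proof. Pull back to the sector (`sg K 0`, `δ = π/8`, C4): with `g_v = ∑_{l i = v} g_i` for
the distinct values `v` of `l` we get `∑_v exp (v Y) g_v(sg K 0 Y) = 0`, all `g_v ∘ sg` are of zero type
and differentiable; `sep_q` (index type the subtype of the image of `l`) and the identity theorem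
C4f. -/
theorem li {ι : Type} [Fintype ι] {K : ℕ} (hK : 1 ≤ K) (g : ι → ℂ → ℂ) (l : ι → ℂ)
    (hg : ∀ i, Zt K (g i)) (h : ∀ᶠ s in 𝓝[≠] (0 : ℂ), ∑ i, g i s * exp (l i / s ^ K) = 0) (v : ℂ) :
    ∀ᶠ s in 𝓝[≠] (0 : ℂ), ∑ i, (if l i = v then g i s else 0) = 0 := by
  by_cases hv : ∃ i, l i = v
  swap
  · refine Eventually.of_forall fun s => Finset.sum_eq_zero fun i _ => ?_
    rw [if_neg (fun e => hv ⟨i, e⟩)]
  obtain ⟨κ, hκ⟩ : ∃ κ : Type, κ = {u : ℂ // u ∈ Finset.univ.image l} := ⟨_, rfl⟩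
  subst hκ
  obtain ⟨G, hGd⟩ : ∃ G : {u : ℂ // u ∈ Finset.univ.image l} → ℂ → ℂ,
      G = fun u s => ∑ i, (if l i = u.1 then g i s else 0) := ⟨_, rfl⟩
  have hG : ∀ u, Zt K (G u) := by
    intro u
    rw [hGd]
    refine Zt_sum hK Finset.univ (f := fun i s => if l i = u.1 then g i s else 0) fun i _ => ?_
    by_cases hi : l i = u.1
    · simp only [if_pos hi]
      exact hg i
    · simp only [if_neg hi]
      exact Zt_const hK 0
  have hsum : ∀ s : ℂ, (∑ i, g i s * exp (l i / s ^ K) = 0) →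
      ∑ u : {u : ℂ // u ∈ Finset.univ.image l}, exp (u.1 / s ^ K) * G u s = 0 := by
    intro s hs
    rw [← hs]
    simp only [hGd, Finset.mul_sum]
    rw [Finset.sum_comm]
    refine Finset.sum_congr rfl fun i _ => ?_
    rw [Finset.sum_eq_single
      (⟨l i, Finset.mem_image_of_mem l (Finset.mem_univ i)⟩ : {u : ℂ // u ∈ Finset.univ.image l})]
    · rw [if_pos rfl, mul_comm]
    · intro u _ hu
      rw [if_neg (fun e => hu (Subtype.ext e.symm)), mul_zero]
    · intro h'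
      exact absurd (Finset.mem_univ _) h'
  obtain ⟨R₀, hR₀, hev⟩ := ev_sg hK 0 h
  have hδ : Real.pi / 8 < Real.pi / 2 := by linarith [Real.pi_pos]
  choose R1 hR1 hd1 using fun u => An_sg hK 0 (hG u).1 hδ
  choose R2 hR2 hz2 using fun u => Zt_sg hK 0 (hG u) hδ
  have hsub : ∀ {a b : ℝ}, a ≤ b → Sec (Real.pi / 8) b ⊆ Sec (Real.pi / 8) a :=
    fun hab Y hY => ⟨lt_of_le_of_lt hab hY.1, hY.2⟩
  have hnn : ∀ u, 0 ≤ R1 u + R2 u := fun u => add_nonneg (hR1 u) (hR2 u)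
  have hle : ∀ u, R1 u + R2 u ≤ ∑ u, (R1 u + R2 u) := fun u =>
    Finset.single_le_sum (f := fun u => R1 u + R2 u) (fun u _ => hnn u) (Finset.mem_univ u)
  have hS0 : 0 ≤ ∑ u, (R1 u + R2 u) := Finset.sum_nonneg fun u _ => hnn u
  have hR : 0 ≤ R₀ + ∑ u, (R1 u + R2 u) := add_nonneg hR₀ hS0
  have key := sep_q (δ := Real.pi / 8) (by linarith [Real.pi_pos]) hδ hR
    (fun u : {u : ℂ // u ∈ Finset.univ.image l} => u.1) Subtype.val_injective
    (fun u Y => G u (sg K 0 Y))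
    (fun u => (hd1 u).mono (hsub (by linarith [hle u, hR2 u])))
    (fun u ε hε => by
      obtain ⟨C, hC⟩ := hz2 u ε hε
      exact ⟨C, fun Y hY => hC Y (hsub (by linarith [hle u, hR1 u]) hY)⟩)
    (fun Y hY => by
      have hY1 : R₀ < ‖Y‖ := lt_of_le_of_lt (by linarith) hY.1
      have hY0 : Y ≠ 0 := norm_pos_iff.1 (lt_of_le_of_lt hR₀ hY1)
      have h1 := hsum _ (hev Y hY1)
      have h2 : ∀ u : ℂ, u / (sg K 0 Y) ^ K = u * Y := by
        intro u
        rw [div_eq_mul_one_div, sg_pow hK 0 hY0]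
        simp
      simp only [h2] at h1
      exact h1)
  obtain ⟨i, hi⟩ := hv
  have hfin := sg_identity hK 0
    (hG ⟨v, by rw [← hi]; exact Finset.mem_image_of_mem l (Finset.mem_univ i)⟩).1
    (by linarith [Real.pi_pos] : 0 < Real.pi / 8) (key _)
  rw [hGd] at hfin
  exact hfin

end Pool.Agent.Helper94.AXG
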