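import Pool.Agent.Helper94.AXG.Defs

/-! # AXG-D1 -/

namespace Pool.Agent.Helper94.AXG

open Complex Filter Topology

/-- AXG-D1a. Proof. Let `g` be analytic near `0` with `g^K = 1/h` (`h 0 ≠ 0`: choose `c` with
`c^K = 1/h(0)` and `g(s) = c exp (-(1/K) log (h(s)/h(0)))`), `ζ(s) = s g(s)`; `ζ'(0) = g(0) ≠ 0`, so `ζ` has an
analytic local inverse `ψ` (inverse function theorem, for instance `HasStrictDerivAt.localInverse` and
analyticity of a differentiable function), and `ξ(ψ ζ) = h / s^K = ζ^{-K}`. -/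
theorem coord {K : ℕ} (hK : 1 ≤ K) {ξ h : ℂ → ℂ} (hξ : Pl K ξ h) :
    ∃ ψ : ℂ → ℂ, AnalyticAt ℂ ψ 0 ∧ ψ 0 = 0 ∧ deriv ψ 0 ≠ 0 ∧
      ∀ᶠ ζ in 𝓝[≠] (0 : ℂ), ψ ζ ≠ 0 ∧ ξ (ψ ζ) = 1 / ζ ^ K := by
  obtain ⟨hh, hh0, hξ'⟩ := hξ
  have hK0 : (K : ℂ) ≠ 0 := Nat.cast_ne_zero.2 (by omega)
  obtain ⟨c, hc⟩ := IsAlgClosed.exists_pow_nat_eq (1 / h 0) (show 0 < K by omega)
  have hc0 : c ≠ 0 := by
    rintro rfl
    rw [zero_pow (by omega)] at hc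
    exact one_div_ne_zero hh0 hc.symm
  obtain ⟨g, hg⟩ : ∃ g : ℂ → ℂ, g = fun s => c * exp (-(log (h s / h 0)) / K) := ⟨_, rfl⟩
  have hga : AnalyticAt ℂ g 0 := by
    rw [hg]
    have h1 : AnalyticAt ℂ (fun s => log (h s / h 0)) 0 := by
      apply (hh.div analyticAt_const hh0).clog
      change h 0 / h 0 ∈ slitPlane
      rw [div_self hh0]
      exact one_mem_slitPlane
    exact analyticAt_const.mul ((h1.neg.div analyticAt_const hK0).cexp)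
  have hg0 : g 0 = c := by
    rw [hg]
    change c * exp (-(log (h 0 / h 0)) / K) = c
    rw [div_self hh0, log_one, neg_zero, zero_div, exp_zero, mul_one]
  have hgK : ∀ s, h s ≠ 0 → g s ^ K * h s = 1 := by
    intro s hs
    rw [hg]
    change (c * exp (-(log (h s / h 0)) / K)) ^ K * h s = 1
    rw [mul_pow, hc, ← exp_nat_mul, mul_div_cancel₀ _ hK0, exp_neg,
      exp_log (div_ne_zero hs hh0)]
    field_simp
  obtain ⟨Z, hZ⟩ : ∃ Z : ℂ → ℂ, Z = fun s => s * g s := ⟨_, rfl⟩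
  have hZa : AnalyticAt ℂ Z 0 := by
    rw [hZ]
    exact analyticAt_id.mul hga
  have hZ0 : Z 0 = 0 := by
    rw [hZ]
    exact zero_mul _
  have hZd : deriv Z 0 = c := by
    have h1 : HasDerivAt Z (1 * g 0 + 0 * deriv g 0) 0 := by
      rw [hZ]
      exact (hasDerivAt_id (0 : ℂ)).mul hga.differentiableAt.hasDerivAt
    rw [h1.deriv, hg0, one_mul, zero_mul, add_zero]
  have hst : HasStrictDerivAt Z c 0 := by
    have h1 := hZa.hasStrictDerivAt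
    rwa [hZd] at h1
  have hcd : ContDiffAt ℂ ⊤ Z 0 := hZa.contDiffAt
  have hfd := (hst.hasStrictFDerivAt_equiv hc0)
  obtain ⟨ψ, hψ⟩ : ∃ ψ : ℂ → ℂ, ψ = hcd.localInverse hfd.hasFDerivAt (by simp) := ⟨_, rfl⟩
  have hψa : AnalyticAt ℂ ψ 0 := by
    have h1 := hcd.to_localInverse hfd.hasFDerivAt (by simp)
    rw [hZ0, ← hψ] at h1
    exact h1.analyticAt
  have hψ0 : ψ 0 = 0 := by
    have h1 := hcd.localInverse_apply_image hfd.hasFDerivAt (by simp)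
    rwa [hZ0, ← hψ] at h1
  have hinv : ∀ᶠ ζ in 𝓝 (0 : ℂ), Z (ψ ζ) = ζ := by
    have h1 := (hcd.hasStrictFDerivAt' hfd.hasFDerivAt (by simp)).eventually_right_inverse
    rw [hZ0] at h1
    rw [hψ]
    exact h1
  refine ⟨ψ, hψa, hψ0, ?_, ?_⟩
  · have h1 : HasDerivAt (fun ζ => Z (ψ ζ)) (c * deriv ψ 0) 0 := by
      have h2 : HasDerivAt Z c (ψ 0) := by
        rw [hψ0]
        exact hst.hasDerivAt
      exact h2.comp 0 hψa.differentiableAt.hasDerivAt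
    have h2 : HasDerivAt (fun ζ => Z (ψ ζ)) 1 0 :=
      (hasDerivAt_id (0 : ℂ)).congr_of_eventuallyEq hinv
    have h3 := h1.unique h2
    intro h4
    rw [h4, mul_zero] at h3
    exact zero_ne_one h3
  · have hψc : Tendsto ψ (𝓝 0) (𝓝 0) := by
      have h1 := hψa.continuousAt.tendsto
      rwa [hψ0] at h1
    have e1 : ∀ᶠ ζ in 𝓝[≠] (0 : ℂ), ψ ζ ≠ 0 := by
      filter_upwards [self_mem_nhdsWithin, mem_nhdsWithin_of_mem_nhds hinv] with ζ h1 h2 h3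
      rw [h3, hZ0] at h2
      exact h1 h2.symm
    have hψt : Tendsto ψ (𝓝[≠] 0) (𝓝[≠] 0) :=
      tendsto_nhdsWithin_iff.2 ⟨hψc.mono_left nhdsWithin_le_nhds, e1⟩
    have e2 : ∀ᶠ s in 𝓝 (0 : ℂ), h s ≠ 0 := hh.continuousAt.eventually_ne hh0
    filter_upwards [e1, self_mem_nhdsWithin, mem_nhdsWithin_of_mem_nhds hinv,
      hψt.eventually hξ', hψt.eventually (mem_nhdsWithin_of_mem_nhds e2)] with ζ h1 h2 h3 h4 h5
    refine ⟨h1, ?_⟩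
    have h6 : ζ ^ K * h (ψ ζ) = ψ ζ ^ K := by
      have h7 : ψ ζ * g (ψ ζ) = ζ := by
        rw [hZ] at h3
        exact h3
      have h8 := hgK _ h5
      calc ζ ^ K * h (ψ ζ) = (ψ ζ * g (ψ ζ)) ^ K * h (ψ ζ) := by rw [h7]
        _ = ψ ζ ^ K * (g (ψ ζ) ^ K * h (ψ ζ)) := by rw [mul_pow, mul_assoc]
        _ = ψ ζ ^ K := by rw [h8, mul_one]
    rw [h4, ← h6, div_mul_cancel_right₀ h5, one_div]

/-- AXG-D1b: in such a coordinate another function with a pole of order `K` is `k(ζ)/ζ^K` with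
`k = h ∘ ψ · (ζ/ψ(ζ))^K` (removable singularity; `k 0 = h 0 / (deriv ψ 0)^K`). -/
theorem coord_pole {K : ℕ} (hK : 1 ≤ K) {ξ h ψ : ℂ → ℂ} (hξ : Pl K ξ h) (hψ : AnalyticAt ℂ ψ 0)
    (h0 : ψ 0 = 0) (h1 : deriv ψ 0 ≠ 0) :
    ∃ k : ℂ → ℂ, AnalyticAt ℂ k 0 ∧ k 0 = h 0 / (deriv ψ 0) ^ K ∧
      ∀ᶠ ζ in 𝓝[≠] (0 : ℂ), ξ (ψ ζ) = k ζ / ζ ^ K := by
  obtain ⟨hh, hh0, hξ'⟩ := hξ
  have hqa : AnalyticAt ℂ (dslope ψ 0) 0 := by
    obtain ⟨q, hq⟩ := hψ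
    exact ⟨_, hq.has_fpower_series_dslope_fslope⟩
  have hq0 : dslope ψ 0 0 = deriv ψ 0 := dslope_same ψ 0
  have hqm : ∀ ζ, ψ ζ = ζ * dslope ψ 0 ζ := by
    intro ζ
    have h2 := sub_smul_dslope ψ 0 ζ
    rw [h0, sub_zero, sub_zero, smul_eq_mul] at h2
    exact h2.symm
  have hcomp : AnalyticAt ℂ (fun ζ => h (ψ ζ)) 0 := by
    have h2 : AnalyticAt ℂ h (ψ 0) := by
      rw [h0]
      exact hh
    exact h2.comp hψ
  refine ⟨fun ζ => h (ψ ζ) / dslope ψ 0 ζ ^ K, ?_, ?_, ?_⟩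
  · refine hcomp.div (hqa.pow K) ?_
    rw [hq0]
    exact pow_ne_zero _ h1
  · change h (ψ 0) / dslope ψ 0 0 ^ K = _
    rw [h0, hq0]
  · have e0 : ∀ᶠ ζ in 𝓝 (0 : ℂ), dslope ψ 0 ζ ≠ 0 := by
      apply hqa.continuousAt.eventually_ne
      rw [hq0]
      exact h1
    have e1 : ∀ᶠ ζ in 𝓝[≠] (0 : ℂ), ψ ζ ≠ 0 := by
      filter_upwards [self_mem_nhdsWithin, mem_nhdsWithin_of_mem_nhds e0] with ζ h2 h3
      rw [hqm]
      exact mul_ne_zero h2 h3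
    have hψt : Tendsto ψ (𝓝[≠] 0) (𝓝[≠] 0) := by
      refine tendsto_nhdsWithin_iff.2 ⟨?_, e1⟩
      have h2 := hψ.continuousAt.tendsto
      rw [h0] at h2
      exact h2.mono_left nhdsWithin_le_nhds
    filter_upwards [self_mem_nhdsWithin, mem_nhdsWithin_of_mem_nhds e0, hψt.eventually hξ']
      with ζ h2 h3 h4
    rw [h4, div_div]
    congr 1
    conv_lhs => rw [hqm ζ]
    rw [mul_pow, mul_comm]

end Pool.Agent.Helper94.AXG
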