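import Mathlib

/-! # AXG-D3: coprimality kills the matching -/

namespace Pool.Agent.Helper94.AXG

/-- AXG-D3a. Proof. If a prime `p` divides `N` and `q` then `p ∤ q z - a` for every `z` (as `a` is prime to
`q`). For the primes `p ∣ N`, `p ∤ q` choose `z` with `q z - a ≡ 1 mod p` by the Chinese remainder theorem
(or: `z` with `q z ≡ a + 1` modulo the largest divisor of `N` prime to `q`). -/
theorem exists_coprime_shift {N q : ℕ} (hN : 1 ≤ N) (hq : 1 ≤ q) {a : ℤ} (ha : IsCoprime a (q : ℤ)) :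
    ∃ z : ℤ, IsCoprime (q * z - a) ((q : ℤ) * N) := by
  have hqN : q * N ≠ 0 := Nat.mul_ne_zero (by omega) (by omega)
  have : NeZero (q * N) := ⟨hqN⟩
  have h1 : IsUnit ((-a : ℤ) : ZMod q) := by
    rw [ZMod.coe_int_isUnit_iff_isCoprime]
    exact ha.neg_left.symm
  obtain ⟨u0, hu0⟩ := h1
  obtain ⟨u, hu⟩ := ZMod.unitsMap_surjective (Dvd.intro N rfl : q ∣ q * N) u0
  have h2 : ((u : ZMod (q * N)).val : ZMod (q * N)) = u := ZMod.natCast_zmod_val _
  have h3 : (((u : ZMod (q * N)).val : ℤ) : ZMod q) = ((-a : ℤ) : ZMod q) := by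
    rw [← hu0, ← hu, ZMod.unitsMap_val]
    rw [Int.cast_natCast, ZMod.natCast_val]
  have h4 : (q : ℤ) ∣ ((u : ZMod (q * N)).val : ℤ) + a := by
    rw [← ZMod.intCast_zmod_eq_zero_iff_dvd]
    push_cast at h3 ⊢
    rw [h3]
    ring
  obtain ⟨z, hz⟩ := h4
  refine ⟨z, ?_⟩
  have h5 : (q : ℤ) * z - a = ((u : ZMod (q * N)).val : ℤ) := by
    rw [← hz]
    ring
  rw [h5]
  have h6 : IsUnit ((((u : ZMod (q * N)).val : ℤ)) : ZMod (q * N)) := by
    rw [Int.cast_natCast, h2]
    exact u.isUnit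
  rw [ZMod.coe_int_isUnit_iff_isCoprime] at h6
  have h7 := h6.symm
  push_cast at h7
  exact h7

open scoped Classical in
/-- AXG-D3b. Proof. Suppose some `m j ≠ 0`; choose such a `j` with `n = |N j|` maximal. Let `z` be as in D3a
for `a j` and `n`, and `τ' = ± (q z - a j)/(q n)`, the sign being the sign of `N j`, so that
`N j τ' + a j/q = z`; `τ = t₀ + τ'`. Then `N j τ + b j = z` is an integer. Let `i ≠ j` be another index
with `m i ≠ 0` and `N i τ + b i` an integer, i.e. `N i τ' + a i / q` an integer. Multiply by `q n`: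
`q n ∣ ± N i (q z - a j) + a i n`... precisely: `N i τ' ∈ ℤ - a i/q` gives
`N i (q z - a j) ∈ n (qℤ ∓ a i)`, so `n ∣ N i (q z - a j)`, and `q z - a j` is prime to `n`, so `n ∣ N i`, and
`|N i| ≤ n` by maximality, `N i ≠ 0`: `N i = ± n`. Then `± (q z - a j) / q + a i / q` is an integer, so
`q ∣ a i ± a j`, a contradiction. So the sum `hsum τ` has the single term `sign (N j) * m j ≠ 0`. -/
theorem no_div {ι : Type} (C : Finset ι) (N : ι → ℤ) (b : ι → ℚ) (m : ι → ℤ)
    (hN : ∀ i ∈ C, N i ≠ 0) (t₀ : ℚ) (q : ℕ) (hq : 1 ≤ q) (a : ι → ℤ)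
    (hpt : ∀ i ∈ C, (N i : ℚ) * t₀ + b i = (a i : ℚ) / q)
    (hcop : ∀ i ∈ C, IsCoprime (a i) (q : ℤ))
    (hdist : ∀ i ∈ C, ∀ j ∈ C, i ≠ j → ¬ (q : ℤ) ∣ a i - a j ∧ ¬ (q : ℤ) ∣ a i + a j)
    (hsum : ∀ τ : ℚ, ∑ i ∈ C, (if (∃ z : ℤ, (N i : ℚ) * τ + b i = z) then (N i).sign * m i else 0) = 0) :
    ∀ i ∈ C, m i = 0 := by
  by_contra hcon
  push Not at hcon
  obtain ⟨i₁, hi₁, hmi₁⟩ := hcon
  obtain ⟨j, hjC, hjmax⟩ := Finset.exists_max_image (C.filter fun i => m i ≠ 0)
    (fun i => (N i).natAbs) ⟨i₁, Finset.mem_filter.2 ⟨hi₁, hmi₁⟩⟩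
  obtain ⟨hj, hmj⟩ := Finset.mem_filter.1 hjC
  obtain ⟨n, hn⟩ : ∃ n : ℕ, n = (N j).natAbs := ⟨_, rfl⟩
  have hn1 : 1 ≤ n := by
    have := hN j hj
    omega
  obtain ⟨z, hz⟩ := exists_coprime_shift hn1 hq (hcop j hj)
  have hzn : IsCoprime (q * z - a j) (n : ℤ) := hz.of_mul_right_right
  have hq0 : (q : ℚ) ≠ 0 := by
    have : 0 < q := hq
    positivity
  have hn0 : (n : ℚ) ≠ 0 := by
    have : 0 < n := hn1
    positivity
  have hsgn : (N j).sign * N j = n := by
    rw [hn, Int.sign_mul_self]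
  obtain ⟨τ, hτ⟩ : ∃ τ : ℚ, τ = t₀ + ((N j).sign : ℚ) * ((q : ℚ) * z - a j) / (q * n) := ⟨_, rfl⟩
  have hval : ∀ i ∈ C, (N i : ℚ) * τ + b i =
      (a i : ℚ) / q + (N i : ℚ) * (((N j).sign : ℚ) * ((q : ℚ) * z - a j)) / (q * n) := by
    intro i hi
    rw [hτ, ← hpt i hi]
    ring
  have hterm : ∀ i ∈ C, i ≠ j →
      (if (∃ z : ℤ, (N i : ℚ) * τ + b i = z) then (N i).sign * m i else 0) = 0 := by
    intro i hi hij
    by_cases hmi : m i = 0
    · rw [hmi, mul_zero, ite_self]
    · rw [if_neg]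
      rintro ⟨w, hw⟩
      rw [hval i hi] at hw
      have e1 : (N i : ℚ) * (((N j).sign : ℚ) * ((q : ℚ) * z - a j)) = n * (q * w - a i) := by
        field_simp at hw
        linear_combination hw
      have e2 : N i * ((N j).sign * ((q : ℤ) * z - a j)) = n * (q * w - a i) := by
        exact_mod_cast e1
      have hs2 : (N j).sign * (N j).sign = 1 := by
        have h1 : (N j).natAbs ≠ 0 := by omega
        rcases lt_trichotomy (N j) 0 with h | h | h
        · rw [Int.sign_eq_neg_one_of_neg h]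
          norm_num
        · omega
        · rw [Int.sign_eq_one_of_pos h]
          norm_num
      have e3 : (n : ℤ) ∣ N i * (N j).sign := by
        have h1 : (n : ℤ) ∣ (N i * (N j).sign) * ((q : ℤ) * z - a j) := by
          refine ⟨q * w - a i, ?_⟩
          rw [← e2]
          ring
        exact hzn.symm.dvd_of_dvd_mul_right h1
      obtain ⟨c, hc⟩ := e3
      have hle : (N i).natAbs ≤ n := by
        rw [hn]
        exact hjmax i (Finset.mem_filter.2 ⟨hi, hmi⟩)
      have hNi : N i = n * (c * (N j).sign) := by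
        have h1 : N i * ((N j).sign * (N j).sign) = n * c * (N j).sign := by
          rw [← mul_assoc, hc]
        rw [hs2, mul_one] at h1
        rw [h1]
        ring
      have hc1 : c = 1 ∨ c = -1 := by
        have h1 : (N i).natAbs = n * c.natAbs := by
          have h2 : (N i * (N j).sign).natAbs = (n * c).natAbs := by rw [hc]
          rw [Int.natAbs_mul, Int.natAbs_mul, Int.natAbs_natCast] at h2
          have h3 : (N j).sign.natAbs = 1 := by
            have h4 : (N j).sign.natAbs * (N j).sign.natAbs = 1 := by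
              rw [← Int.natAbs_mul, hs2]
              rfl
            exact Nat.eq_one_of_mul_eq_one_right h4
          rw [h3, mul_one] at h2
          exact h2
        have h2 : (N i).natAbs ≠ 0 := by
          have := hN i hi
          omega
        have h3 : c.natAbs ≤ 1 := by
          by_contra h4
          have h5 : 2 ≤ c.natAbs := by omega
          have h6 : n * 2 ≤ n * c.natAbs := Nat.mul_le_mul_left n h5
          omega
        have h4 : c.natAbs ≠ 0 := by
          intro h5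
          rw [h5, mul_zero] at h1
          exact h2 h1
        omega
      have e4 : c * ((q : ℤ) * z - a j) = q * w - a i := by
        have h1 : (n : ℤ) * (c * ((q : ℤ) * z - a j)) = n * (q * w - a i) := by
          rw [← e2, ← mul_assoc, ← hc]
          ring
        have h2 : (n : ℤ) ≠ 0 := by omega
        exact mul_left_cancel₀ h2 h1
      obtain ⟨d1, d2⟩ := hdist i hi j hj hij
      rcases hc1 with hc1 | hc1
      · apply d1
        refine ⟨w - z, ?_⟩
        rw [hc1] at e4
        linear_combination e4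
      · apply d2
        refine ⟨w + z, ?_⟩
        rw [hc1] at e4
        linear_combination e4
  have hfin := hsum τ
  rw [Finset.sum_eq_single_of_mem j hj hterm, if_pos] at hfin
  · rcases mul_eq_zero.1 hfin with h | h
    · exact hN j hj (Int.sign_eq_zero_iff_zero.1 h)
    · exact hmj h
  · refine ⟨z, ?_⟩
    rw [hval j hj]
    have h1 : ((N j : ℤ) : ℚ) * ((N j).sign : ℚ) = n := by
      have h3 : (((N j).sign * N j : ℤ) : ℚ) = ((n : ℤ) : ℚ) := by rw [hsgn]
      rw [Int.cast_mul, Int.cast_natCast, mul_comm] at h3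
      exact h3
    have h2 : (N j : ℚ) * (((N j).sign : ℚ) * ((q : ℚ) * z - a j)) = n * (q * z - a j) := by
      rw [← mul_assoc, h1]
    rw [h2]
    field_simp
    ring

end Pool.Agent.Helper94.AXG
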