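import Mathlib

/-!
# Project AXG (MP_274814_nt): definitions of blocks A, B, C

`U` is the reciprocal Gamma function, `st x = x log x - x`; `Sec δ R` is the sector of the
variable `Y` (large), `sg K θ Y` is the corresponding point near `0`: `(sg K θ Y)^K = 1 / (e^{iθ} Y)`.
Functions near `0` are functions `ℂ → ℂ` considered on a small punctured disc, i.e. up to equality
along the filter `𝓝[≠] 0`.
-/

namespace Pool.Agent.Helper94.AXG

open Complex Filter Topology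

/-- the reciprocal Gamma function (entire: `Complex.differentiable_one_div_Gamma`) -/
noncomputable def U (z : ℂ) : ℂ := (Gamma z)⁻¹

/-- `x log x - x` with the principal logarithm -/
noncomputable def st (x : ℂ) : ℂ := x * log x - x

/-- the sector `|arg Y| < π/2 + δ`, `‖Y‖ > R` -/
def Sec (δ R : ℝ) : Set ℂ := {Y : ℂ | R < ‖Y‖ ∧ |arg Y| < Real.pi / 2 + δ}

/-- zero type on a set: bounded by `C_ε exp (ε ‖Y‖)` for every `ε > 0` -/
def ZTy (S : Set ℂ) (f : ℂ → ℂ) : Prop :=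
  ∀ ε : ℝ, 0 < ε → ∃ C : ℝ, ∀ Y ∈ S, ‖f Y‖ ≤ C * Real.exp (ε * ‖Y‖)

/-- differentiable at all points of the closed sector `|arg Z| ≤ β` (with the vertex `0`) -/
def HolS (β : ℝ) (f : ℂ → ℂ) : Prop := ∀ Z : ℂ, |arg Z| ≤ β → DifferentiableAt ℂ f Z

/-- analytic at all points of a small punctured disc around `0` -/
def An (f : ℂ → ℂ) : Prop := ∀ᶠ s in 𝓝[≠] (0 : ℂ), AnalyticAt ℂ f s

/-- the identically vanishing functions (on a small punctured disc) -/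
def Ze (f : ℂ → ℂ) : Prop := ∀ᶠ s in 𝓝[≠] (0 : ℂ), f s = 0

/-- zero type at level `K`: `‖f s‖ ≤ exp (ε / ‖s‖^K)` near `0` for every `ε > 0` -/
def Zt (K : ℕ) (f : ℂ → ℂ) : Prop :=
  An f ∧ ∀ ε : ℝ, 0 < ε → ∀ᶠ s in 𝓝[≠] (0 : ℂ), ‖f s‖ ≤ Real.exp (ε / ‖s‖ ^ K)

/-- exponential sums `∑ g_i(s) exp (l_i / s^K)` with coefficients of zero type at level `K` -/
def Ex (K : ℕ) (f : ℂ → ℂ) : Prop :=
  ∃ (n : ℕ) (g : Fin n → ℂ → ℂ) (l : Fin n → ℂ), (∀ i, Zt K (g i)) ∧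
    ∀ᶠ s in 𝓝[≠] (0 : ℂ), f s = ∑ i, g i s * exp (l i / s ^ K)

/-- `ξ` has a pole of exact order `K` at `0`: `ξ(s) = h(s) / s^K`, `h` analytic, `h(0) ≠ 0` -/
def Pl (K : ℕ) (ξ h : ℂ → ℂ) : Prop :=
  AnalyticAt ℂ h 0 ∧ h 0 ≠ 0 ∧ ∀ᶠ s in 𝓝[≠] (0 : ℂ), ξ s = h s / s ^ K

/-- the point `s` with `s^K = 1 / (e^{iθ} Y)` -/
noncomputable def sg (K : ℕ) (θ : ℝ) (Y : ℂ) : ℂ := exp (-(θ * I + log Y) / K)

/-- the factor `1` or `1 - e^{2πiξ}`, depending on the sign of `Re (a e^{iθ})` -/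
noncomputable def uu (a : ℂ) (θ : ℝ) (x : ℂ) : ℂ :=
  if 0 < (a * exp (θ * I)).re then 1 else 1 - exp (2 * Real.pi * I * x)

/-- the relation `∑_γ p_γ ∏_i U(ξ_i)^(D - γ_i) = 0` on a small punctured disc -/
def Rl {T : Type} [Fintype T] [DecidableEq T] (ξ : T → ℂ → ℂ) (D : ℕ) (p : (T → Fin (D + 1)) → ℂ → ℂ) : Prop :=
  ∀ᶠ s in 𝓝[≠] (0 : ℂ), ∑ γ : T → Fin (D + 1), p γ s * ∏ i, U (ξ i s) ^ (D - (γ i : ℕ)) = 0

/-- `k(Y^{-1/K}) Y` for real `Y` -/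
noncomputable def Xi (K : ℕ) (k : ℂ → ℂ) (Y : ℝ) : ℂ := k ((Y ^ (-(1 : ℝ) / K) : ℝ) : ℂ) * Y

/-- the sign of a nonzero real number, `0` for the other complex numbers -/
noncomputable def sgr (z : ℂ) : ℤ := if z.im = 0 then (if 0 < z.re then 1 else -1) else 0

end Pool.Agent.Helper94.AXG
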