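import Pool.Agent.Helper94.AXG.EDefs

/-! # AXG-E1 -/

namespace Pool.Agent.Helper94.AXG

open Complex Filter Topology

/-- AXG-E1a: `ev2` is a ring homomorphism in `P` and analytic in `(t, y)` (finite sum of products of
polynomials). -/
theorem ev2_add (P Q : Polynomial (Polynomial ℂ)) (t y : ℂ) :
    ev2 (P + Q) t y = ev2 P t y + ev2 Q t y := by
  unfold ev2
  rw [Polynomial.map_add, Polynomial.eval_add]

theorem ev2_mul (P Q : Polynomial (Polynomial ℂ)) (t y : ℂ) :
    ev2 (P * Q) t y = ev2 P t y * ev2 Q t y := by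
  unfold ev2
  rw [Polynomial.map_mul, Polynomial.eval_mul]

private theorem E1_poly (p : Polynomial ℂ) (z : ℂ × ℂ) :
    AnalyticAt ℂ (fun z : ℂ × ℂ => p.eval z.1) z := by
  have h := (analyticAt_fst (𝕜 := ℂ) (p := z)).aeval_polynomial p
  simpa [Polynomial.coe_aeval_eq_eval] using h

theorem ev2_analytic (P : Polynomial (Polynomial ℂ)) (z : ℂ × ℂ) :
    AnalyticAt ℂ (fun z : ℂ × ℂ => ev2 P z.1 z.2) z := by
  induction P using Polynomial.induction_on' with
  | add P Q hP hQ =>
    have h1 : (fun z : ℂ × ℂ => ev2 (P + Q) z.1 z.2) =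
        fun z => ev2 P z.1 z.2 + ev2 Q z.1 z.2 := funext fun z => ev2_add P Q _ _
    rw [h1]
    exact hP.add hQ
  | monomial n a =>
    have h1 : (fun z : ℂ × ℂ => ev2 (Polynomial.monomial n a) z.1 z.2) =
        fun z => a.eval z.1 * z.2 ^ n := by
      funext z
      unfold ev2
      rw [Polynomial.map_monomial, Polynomial.eval_monomial, Polynomial.coe_evalRingHom]
    rw [h1]
    exact (E1_poly a z).mul (analyticAt_snd.pow n)

end Pool.Agent.Helper94.AXG
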