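import Pool.Agent.Helper94.AXG.E1

/-! # AXG-E1B -/

namespace Pool.Agent.Helper94.AXG

open Complex Filter Topology

private theorem E1B_deriv (M : Polynomial (Polynomial ℂ)) (t y : ℂ) :
    HasDerivAt (fun y => ev2 M t y) (ev2 (Polynomial.derivative M) t y) y := by
  unfold ev2
  rw [← Polynomial.derivative_map]
  exact Polynomial.hasDerivAt _ y

/-- AXG-E1b: implicit function theorem at a simple root. Proof. `F(t, y) = ev2 M t y` is analytic on
`ℂ × ℂ` with nonzero derivative with respect to `y` at `(t₁, y₁)`. For instance: the map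
`(t, y) ↦ (t, F(t, y))` has an invertible derivative, so it has an analytic local inverse (the inverse
function theorem: `HasStrictFDerivAt.toOpenPartialHomeomorph`, and `ContDiffAt` with exponent `ω` or
differentiability of the inverse in a neighbourhood, which implies analyticity of
`η(t) = second component of the inverse at (t, 0)` as a function of one complex variable). -/
theorem implicit_root {M : Polynomial (Polynomial ℂ)} {t₁ y₁ : ℂ} (h0 : ev2 M t₁ y₁ = 0)
    (h1 : ev2 (Polynomial.derivative M) t₁ y₁ ≠ 0) :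
    ∃ η : ℂ → ℂ, AnalyticAt ℂ η t₁ ∧ η t₁ = y₁ ∧ (∀ᶠ t in 𝓝 t₁, ev2 M t (η t) = 0) ∧
      ∀ᶠ z in 𝓝 (t₁, y₁), ev2 M z.1 z.2 = 0 → z.2 = η z.1 := by
  set f : ℂ × ℂ → ℂ := fun z => ev2 M z.1 z.2 with hf
  set c := ev2 (Polynomial.derivative M) t₁ y₁ with hc
  have cdf : ContDiffAt ℂ (⊤ : WithTop ℕ∞) f (t₁, y₁) := (ev2_analytic M (t₁, y₁)).contDiffAt
  have pn : (⊤ : WithTop ℕ∞) ≠ 0 := by simp
  have hfd : HasFDerivAt f (fderiv ℂ f (t₁, y₁)) (t₁, y₁) :=
    (cdf.differentiableAt pn).hasFDerivAt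
  have hin : HasFDerivAt (fun y : ℂ => ((t₁, y) : ℂ × ℂ)) (ContinuousLinearMap.inr ℂ ℂ ℂ) y₁ :=
    hasFDerivAt_prodMk_right t₁ y₁
  have hcomp : HasFDerivAt (fun y => ev2 M t₁ y)
      (fderiv ℂ f (t₁, y₁) ∘L ContinuousLinearMap.inr ℂ ℂ ℂ) y₁ := hfd.comp y₁ hin
  have hcomp' : HasFDerivAt (fun y => ev2 M t₁ y)
      (ContinuousLinearMap.toSpanSingleton ℂ c) y₁ := (E1B_deriv M t₁ y₁).hasFDerivAt
  have heq := hcomp.unique hcomp'
  have if₂ : (fderiv ℂ f (t₁, y₁) ∘L ContinuousLinearMap.inr ℂ ℂ ℂ).IsInvertible := by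
    rw [heq]
    refine ⟨ContinuousLinearEquiv.unitsEquivAut ℂ (Units.mk0 c h1), ?_⟩
    ext
    simp
  refine ⟨cdf.implicitFunction pn if₂, ?_, ?_, ?_, ?_⟩
  · have h2 := cdf.contDiffAt_implicitFunction pn if₂
    exact h2.analyticAt
  · exact cdf.implicitFunction_apply_self pn if₂
  · have h2 := cdf.eventually_apply_implicitFunction pn if₂
    filter_upwards [h2] with t ht
    have h3 : f (t₁, y₁) = 0 := h0
    rw [h3] at ht
    exact ht
  · have h2 := cdf.eventually_apply_eq_iff_implicitFunction pn if₂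
    filter_upwards [h2] with z hz hz0
    have h3 : f (t₁, y₁) = 0 := h0
    rw [h3] at hz
    exact (hz.1 hz0).symm

/-- AXG-E1c. Proof. `M(t₁, ·)` is monic of degree `m` with simple roots only, so it has `m` distinct roots;
take `implicit_root` at each of them and a ball on which the `m` functions are analytic, pairwise distinct
and roots; there are no other roots because the degree is `m`. The set `S` is finite, hence closed. -/
theorem local_branches {M : Polynomial (Polynomial ℂ)} (hM : M.Monic) (S : Finset ℂ)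
    (hS : ∀ t, t ∉ S → ∀ y, ev2 M t y = 0 → ev2 (Polynomial.derivative M) t y ≠ 0) {t₁ : ℂ}
    (ht : t₁ ∉ S) : ∃ ε : ℝ, 0 < ε ∧ (∀ t ∈ Metric.ball t₁ ε, t ∉ S) ∧
      ∃ φ : Fin M.natDegree → ℂ → ℂ, (∀ l, ∀ t ∈ Metric.ball t₁ ε, AnalyticAt ℂ (φ l) t) ∧
        (∀ t ∈ Metric.ball t₁ ε, Function.Injective (fun l => φ l t)) ∧
        ∀ t ∈ Metric.ball t₁ ε, ∀ y, ev2 M t y = 0 ↔ ∃ l, y = φ l t := by
  classical
  set p : ℂ → Polynomial ℂ := fun t => M.map (Polynomial.evalRingHom t) with hp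
  have hpm : ∀ t, (p t).Monic := fun t => hM.map _
  have hpd : ∀ t, (p t).natDegree = M.natDegree := fun t => hM.natDegree_map _
  have hmem : ∀ t y, y ∈ (p t).roots ↔ ev2 M t y = 0 := by
    intro t y
    rw [Polynomial.mem_roots (hpm t).ne_zero]
    rfl
  -- the roots at `t₁`
  have hnd : (p t₁).roots.Nodup := by
    rw [Multiset.nodup_iff_count_le_one]
    intro y
    rw [Polynomial.count_roots]
    by_contra hcon
    push Not at hcon
    obtain ⟨h5, h6⟩ := (Polynomial.one_lt_rootMultiplicity_iff_isRoot (hpm t₁).ne_zero).1 hcon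
    refine hS t₁ ht y h5 ?_
    unfold ev2
    rw [← Polynomial.derivative_map]
    exact h6
  have hcard : (p t₁).roots.toFinset.card = M.natDegree := by
    rw [Multiset.toFinset_card_of_nodup hnd, ← hpd t₁]
    exact (IsAlgClosed.splits _).natDegree_eq_card_roots.symm
  let e : Fin M.natDegree ≃ (p t₁).roots.toFinset := (Finset.equivFinOfCardEq hcard).symm
  have hroot : ∀ l, ev2 M t₁ (e l : ℂ) = 0 := fun l =>
    (hmem _ _).1 (Multiset.mem_toFinset.1 (e l).2)
  choose φ h1 h2 h3 h4 using fun l => implicit_root (hroot l) (hS t₁ ht _ (hroot l))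
  have hS' : ∀ᶠ t in 𝓝 t₁, t ∉ S := by
    have h5 : IsClosed (S : Set ℂ) := S.finite_toSet.isClosed
    exact h5.isOpen_compl.mem_nhds (by simpa using ht)
  have han : ∀ᶠ t in 𝓝 t₁, ∀ l, AnalyticAt ℂ (φ l) t :=
    Filter.eventually_all.2 fun l => (h1 l).eventually_analyticAt
  have hev : ∀ᶠ t in 𝓝 t₁, ∀ l, ev2 M t (φ l t) = 0 := Filter.eventually_all.2 fun l => h3 l
  have hne : ∀ᶠ t in 𝓝 t₁, ∀ l l', l ≠ l' → φ l t ≠ φ l' t := by
    refine Filter.eventually_all.2 fun l => Filter.eventually_all.2 fun l' => ?_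
    by_cases hll : l = l'
    · exact Filter.Eventually.of_forall fun t h => absurd hll h
    · have h5 : φ l t₁ ≠ φ l' t₁ := by
        rw [h2, h2]
        intro h6
        exact hll (e.injective (Subtype.ext h6))
      have h7 : ContinuousAt (fun t => φ l t - φ l' t) t₁ :=
        (h1 l).continuousAt.sub (h1 l').continuousAt
      have h8 := h7.eventually_ne (sub_ne_zero.2 h5)
      filter_upwards [h8] with t ht _
      exact sub_ne_zero.1 ht
  obtain ⟨ε, hε, hball⟩ := Metric.eventually_nhds_iff_ball.1 (hS'.and (han.and (hev.and hne)))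
  have hinj : ∀ t ∈ Metric.ball t₁ ε, Function.Injective (fun l => φ l t) := by
    intro t ht l l' hll
    by_contra hcon
    exact (hball t ht).2.2.2 l l' hcon hll
  refine ⟨ε, hε, fun t ht => (hball t ht).1, φ, fun l t ht => (hball t ht).2.1 l, hinj,
    fun t ht y => ⟨fun hy => ?_, ?_⟩⟩
  · have h5 : (Finset.univ.image fun l => φ l t) ⊆ (p t).roots.toFinset := by
      intro x hx
      obtain ⟨l, _, rfl⟩ := Finset.mem_image.1 hx
      exact Multiset.mem_toFinset.2 ((hmem _ _).2 ((hball t ht).2.2.1 l))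
    have h6 : (Finset.univ.image fun l => φ l t).card = M.natDegree := by
      rw [Finset.card_image_of_injective _ (hinj t ht), Finset.card_univ, Fintype.card_fin]
    have h7 : (p t).roots.toFinset.card ≤ (Finset.univ.image fun l => φ l t).card := by
      rw [h6]
      exact (Multiset.toFinset_card_le _).trans ((Polynomial.card_roots' _).trans (hpd t).le)
    have h8 := Finset.eq_of_subset_of_card_le h5 h7
    have h9 : y ∈ (p t).roots.toFinset := Multiset.mem_toFinset.2 ((hmem _ _).2 hy)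
    rw [← h8] at h9
    obtain ⟨l, _, hl⟩ := Finset.mem_image.1 h9
    exact ⟨l, hl.symm⟩
  · rintro ⟨l, rfl⟩
    exact (hball t ht).2.2.1 l

end Pool.Agent.Helper94.AXG
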