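import Pool.Agent.Helper94.AXG.E1

/-! # AXG-E2 -/

namespace Pool.Agent.Helper94.AXG

open Complex Filter Topology Polynomial

/-- the coefficients of a product of linear factors with analytic roots are analytic -/
private theorem coeff_prod_analytic {ι : Type} (s : Finset ι) (g : ι → ℂ → ℂ) (t₁ : ℂ)
    (hg : ∀ l ∈ s, AnalyticAt ℂ (g l) t₁) (i : ℕ) :
    AnalyticAt ℂ (fun t => (∏ l ∈ s, (X - C (g l t))).coeff i) t₁ := by
  classical
  induction s using Finset.induction_on generalizing i with
  | empty =>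
    simp only [Finset.prod_empty]
    exact analyticAt_const
  | insert a s ha ih =>
    have ih' := fun j => ih (fun l hl => hg l (Finset.mem_insert_of_mem hl)) j
    have hga := hg a (Finset.mem_insert_self a s)
    simp only [Finset.prod_insert ha, sub_mul, coeff_sub, coeff_C_mul]
    cases i with
    | zero =>
      simp only [coeff_X_mul_zero, zero_sub]
      exact (hga.mul (ih' 0)).neg
    | succ j =>
      simp only [coeff_X_mul]
      exact (ih' j).sub (hga.mul (ih' (j + 1)))

/-- AXG-E2a. Proof. Near `t₁` the product is `∏_l (X - C (v (t, φ_l t)))`, whose coefficients are polynomials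
in the analytic functions `t ↦ v (t, φ_l t)`. -/
theorem sym_analytic {S : Finset ℂ} {W : ℂ → Finset ℂ} (hW : Loc S W) (v : ℂ × ℂ → ℂ)
    (hv : ∀ t, t ∉ S → ∀ y ∈ W t, AnalyticAt ℂ v (t, y)) (i : ℕ) :
    ∀ t, t ∉ S → AnalyticAt ℂ (fun t => (∏ y ∈ W t, (X - C (v (t, y)))).coeff i) t := by
  classical
  intro t₁ ht₁
  obtain ⟨ε, hε, n, φ, hφ, hW'⟩ := hW t₁ ht₁
  have hmem : t₁ ∈ Metric.ball t₁ ε := Metric.mem_ball_self hε
  have hg : ∀ l ∈ (Finset.univ : Finset (Fin n)), AnalyticAt ℂ (fun t => v (t, φ l t)) t₁ := by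
    intro l _
    have hy : φ l t₁ ∈ W t₁ := by
      rw [(hW' t₁ hmem).2]
      exact Finset.mem_image_of_mem _ (Finset.mem_univ l)
    have h1 : AnalyticAt ℂ v (t₁, φ l t₁) := hv t₁ ht₁ _ hy
    have h2 : AnalyticAt ℂ (fun t => (t, φ l t)) t₁ := analyticAt_id.prod (hφ l t₁ hmem)
    exact AnalyticAt.fun_comp (g := v) (f := fun t => (t, φ l t)) h1 h2
  have hc := coeff_prod_analytic Finset.univ (fun l t => v (t, φ l t)) t₁ hg i
  refine hc.congr ?_
  filter_upwards [Metric.ball_mem_nhds t₁ hε] with t ht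
  obtain ⟨hinj, hWt⟩ := hW' t ht
  rw [hWt, Finset.prod_image (fun a _ b _ h => hinj h)]

/-- AXG-E2b: the cardinality is locally constant and the complement of a finite set in `ℂ` is
connected -/
theorem card_const {S : Finset ℂ} {W : ℂ → Finset ℂ} (hW : Loc S W) :
    ∃ n : ℕ, ∀ t, t ∉ S → (W t).card = n := by
  classical
  have hpre : IsConnected ((S : Set ℂ)ᶜ) := by
    refine Set.Countable.isConnected_compl_of_one_lt_rank ?_ S.countable_toSet
    rw [Complex.rank_real_complex]
    norm_num
  obtain ⟨t₀, ht₀⟩ := hpre.nonempty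
  refine ⟨(W t₀).card, fun t ht => ?_⟩
  have hcont : ContinuousOn (fun t => (W t).card) ((S : Set ℂ)ᶜ) := by
    intro t₁ ht₁
    obtain ⟨ε, hε, n, φ, -, hW'⟩ := hW t₁ (by simpa using ht₁)
    have hcard : ∀ t ∈ Metric.ball t₁ ε, (W t).card = n := by
      intro t ht
      obtain ⟨hinj, hWt⟩ := hW' t ht
      rw [hWt, Finset.card_image_of_injective _ hinj, Finset.card_univ, Fintype.card_fin]
    have hev : (fun t => (W t).card) =ᶠ[𝓝 t₁] fun _ => n := by
      filter_upwards [Metric.ball_mem_nhds t₁ hε] with t ht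
      exact hcard t ht
    exact (continuousAt_const.congr hev.symm).continuousWithinAt
  exact hpre.isPreconnected.constant hcont (by simpa using ht) ht₀

end Pool.Agent.Helper94.AXG
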