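import Pool.Agent.Helper94.AXG.E1B
import Pool.Agent.Helper94.AXG.E2

/-! # AXG-E3 -/

namespace Pool.Agent.Helper94.AXG

open Complex Filter Topology Polynomial

/-- AXG-E3a. Proof. Let `W t` be the set of the roots `y` of `M(t, ·)` such that `G(τ, υ) = 0` for all
`(τ, υ)` near `(t, y)` with `M(τ, υ) = 0` (`t ∉ S`; `W t = ∅` for `t ∈ S`). Let `φ_l` be the local branches
near `t₁` (E1c). For each `l` the analytic function `t ↦ G(t, φ_l t)` on the (connected) ball either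
vanishes identically or vanishes at isolated points only; the points of the curve near `(t, φ_l t)` are the
`(τ, φ_l τ)`. So `φ_l t ∈ W t` iff this function is identically zero, and `W` is `Loc`. -/
theorem loc_W {k : ℕ} (c : Crv k) (G : ℂ × ℂ → ℂ) (hG : ∀ z : ℂ × ℂ, z.1 ∉ c.S → AnalyticAt ℂ G z) :
    ∃ W : ℂ → Finset ℂ, Loc c.S W ∧ (∀ t, t ∉ c.S → ∀ y, y ∈ W t ↔ (ev2 c.M t y = 0 ∧
      ∀ᶠ z in 𝓝 (t, y), ev2 c.M z.1 z.2 = 0 → G z = 0)) := by
  classical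
  obtain ⟨W, hW⟩ : ∃ W : ℂ → Finset ℂ, ∀ t, t ∉ c.S → ∀ y, y ∈ W t ↔ (ev2 c.M t y = 0 ∧
      ∀ᶠ z in 𝓝 (t, y), ev2 c.M z.1 z.2 = 0 → G z = 0) := by
    refine ⟨fun t => (c.M.map (evalRingHom t)).roots.toFinset.filter
      (fun y => ∀ᶠ z in 𝓝 (t, y), ev2 c.M z.1 z.2 = 0 → G z = 0), fun t _ y => ?_⟩
    rw [Finset.mem_filter, Multiset.mem_toFinset, mem_roots (c.monic.map _).ne_zero]
    rfl
  refine ⟨W, ?_, hW⟩
  intro t₁ ht₁
  obtain ⟨ε, hε, hbS, φ, hφa, hφi, hφr⟩ := local_branches c.monic c.S c.hS ht₁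
  have hga : ∀ l, AnalyticOnNhd ℂ (fun t => G (t, φ l t)) (Metric.ball t₁ ε) := by
    intro l t ht
    exact AnalyticAt.comp (g := G) (f := fun t => (t, φ l t)) (hG (t, φ l t) (hbS t ht))
      (analyticAt_id.prod (hφa l t ht))
  have hgood : ∀ l, ∀ t ∈ Metric.ball t₁ ε,
      ((∀ᶠ z in 𝓝 (t, φ l t), ev2 c.M z.1 z.2 = 0 → G z = 0) ↔
        ∀ᶠ τ in 𝓝 t, G (τ, φ l τ) = 0) := by
    intro l t ht
    constructor
    · intro h
      have hc : Tendsto (fun τ => (τ, φ l τ)) (𝓝 t) (𝓝 (t, φ l t)) :=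
        continuousAt_id.prodMk (hφa l t ht).continuousAt
      filter_upwards [hc.eventually h, Metric.isOpen_ball.mem_nhds ht] with τ h1 h2
      exact h1 ((hφr τ h2 (φ l τ)).2 ⟨l, rfl⟩)
    · intro h
      have h1 : ∀ᶠ z : ℂ × ℂ in 𝓝 (t, φ l t), ∀ l', l' ≠ l → z.2 ≠ φ l' z.1 := by
        rw [eventually_all]
        intro l'
        by_cases hl : l' = l
        · exact Eventually.of_forall (fun z h => absurd hl h)
        · have e1 : Tendsto (fun z : ℂ × ℂ => z.2) (𝓝 (t, φ l t)) (𝓝 (φ l t)) :=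
            continuous_snd.tendsto _
          have e2 : Tendsto (fun z : ℂ × ℂ => φ l' z.1) (𝓝 (t, φ l t)) (𝓝 (φ l' t)) :=
            (hφa l' t ht).continuousAt.tendsto.comp (continuous_fst.tendsto (t, φ l t))
          have e3 : φ l t ≠ φ l' t := fun h => hl ((hφi t ht h).symm)
          filter_upwards [(e1.sub e2).eventually_ne (sub_ne_zero.2 e3)] with z hz _
          exact sub_ne_zero.1 hz
      have h2 : ∀ᶠ z : ℂ × ℂ in 𝓝 (t, φ l t), G (z.1, φ l z.1) = 0 :=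
        (continuous_fst.tendsto (t, φ l t)).eventually h
      have h3 : ∀ᶠ z : ℂ × ℂ in 𝓝 (t, φ l t), z.1 ∈ Metric.ball t₁ ε :=
        (continuous_fst.tendsto (t, φ l t)).eventually (Metric.isOpen_ball.mem_nhds ht)
      filter_upwards [h1, h2, h3] with z e1 e2 e3 e4
      obtain ⟨l', hl'⟩ := (hφr z.1 e3 z.2).1 e4
      have e5 : l' = l := by
        by_contra hne
        exact e1 l' hne hl'
      have e6 : z = (z.1, φ l z.1) := by
        rw [← e5, ← hl']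
      rw [e6]
      exact e2
  have hglob : ∀ l, ∀ t ∈ Metric.ball t₁ ε, ((∀ᶠ τ in 𝓝 t, G (τ, φ l τ) = 0) ↔
      ∀ τ ∈ Metric.ball t₁ ε, G (τ, φ l τ) = 0) := by
    intro l t ht
    constructor
    · intro h
      have h1 := (hga l).eqOn_zero_of_preconnected_of_eventuallyEq_zero
        (convex_ball t₁ ε).isPreconnected ht h
      exact fun τ hτ => h1 hτ
    · intro h
      filter_upwards [Metric.isOpen_ball.mem_nhds ht] with τ hτ
      exact h τ hτ
  obtain ⟨L, hL⟩ : ∃ L : Finset (Fin c.M.natDegree), ∀ l, l ∈ L ↔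
      ∀ τ ∈ Metric.ball t₁ ε, G (τ, φ l τ) = 0 :=
    ⟨Finset.univ.filter (fun l => ∀ τ ∈ Metric.ball t₁ ε, G (τ, φ l τ) = 0), fun l => by simp⟩
  refine ⟨ε, hε, L.card, fun i => φ ((L.equivFin.symm i) : Fin c.M.natDegree),
    fun i t ht => hφa _ t ht, fun t ht => ⟨?_, ?_⟩⟩
  · intro i j hij
    exact L.equivFin.symm.injective (Subtype.ext (hφi t ht hij))
  · ext y
    rw [hW t (hbS t ht), Finset.mem_image]
    constructor
    · rintro ⟨h1, h2⟩
      obtain ⟨l, rfl⟩ := (hφr t ht y).1 h1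
      have h3 : l ∈ L := (hL l).2 ((hglob l t ht).1 ((hgood l t ht).1 h2))
      refine ⟨L.equivFin ⟨l, h3⟩, Finset.mem_univ _, ?_⟩
      show φ (L.equivFin.symm (L.equivFin ⟨l, h3⟩) : Fin c.M.natDegree) t = φ l t
      rw [Equiv.symm_apply_apply]
    · rintro ⟨i, _, rfl⟩
      refine ⟨(hφr t ht _).2 ⟨_, rfl⟩, (hgood _ t ht).2 ((hglob _ t ht).2 ((hL _).1 ?_))⟩
      exact (L.equivFin.symm i).2

end Pool.Agent.Helper94.AXG
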