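import Pool.Agent.Helper94.AXG.E1B

/-! # AXG-E4 -/

namespace Pool.Agent.Helper94.AXG

open Complex Filter Topology Polynomial

private lemma e4_sep {h : Polynomial (Polynomial ℂ)} (hm : h.Monic) (hi : Irreducible h) :
    ∃ (a b : Polynomial (Polynomial ℂ)) (d : Polynomial ℂ), d ≠ 0 ∧
      a * h + b * derivative h = C d := by
  have hinj : Function.Injective (algebraMap (Polynomial ℂ) (FractionRing (Polynomial ℂ))) :=
    IsFractionRing.injective _ _
  haveI : CharZero (FractionRing (Polynomial ℂ)) := charZero_of_injective_ringHom hinj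
  have h1 : Irreducible (h.map (algebraMap (Polynomial ℂ) (FractionRing (Polynomial ℂ)))) :=
    (hm.irreducible_iff_irreducible_map_fraction_map).1 hi
  obtain ⟨a, b, hab⟩ := h1.separable
  rw [derivative_map] at hab
  obtain ⟨da, ha⟩ :=
    IsLocalization.integerNormalization_map_to_map (nonZeroDivisors (Polynomial ℂ)) a
  obtain ⟨db, hb⟩ :=
    IsLocalization.integerNormalization_map_to_map (nonZeroDivisors (Polynomial ℂ)) b
  refine ⟨C (db : Polynomial ℂ) *
      IsLocalization.integerNormalization (nonZeroDivisors (Polynomial ℂ)) a,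
    C (da : Polynomial ℂ) *
      IsLocalization.integerNormalization (nonZeroDivisors (Polynomial ℂ)) b,
    (da : Polynomial ℂ) * db,
    mul_ne_zero (nonZeroDivisors.coe_ne_zero da) (nonZeroDivisors.coe_ne_zero db), ?_⟩
  apply Polynomial.map_injective _ hinj
  rw [Polynomial.map_add, Polynomial.map_mul, Polynomial.map_mul, Polynomial.map_mul,
    Polynomial.map_mul, Polynomial.map_C, Polynomial.map_C, Polynomial.map_C, ha, hb]
  rw [Algebra.smul_def, Algebra.smul_def]
  have e : ∀ x : Polynomial ℂ, algebraMap (Polynomial ℂ)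
      (Polynomial (FractionRing (Polynomial ℂ))) x =
      C (algebraMap (Polynomial ℂ) (FractionRing (Polynomial ℂ)) x) := fun x => rfl
  rw [e, e, map_mul, C_mul]
  linear_combination (C (algebraMap (Polynomial ℂ) (FractionRing (Polynomial ℂ)) (da : Polynomial ℂ)) *
    C (algebraMap (Polynomial ℂ) (FractionRing (Polynomial ℂ)) (db : Polynomial ℂ))) * hab

private lemma e4_one (t y : ℂ) : ev2 1 t y = 1 := by
  unfold ev2
  rw [Polynomial.map_one, eval_one]

private lemma e4_C (d : Polynomial ℂ) (t y : ℂ) : ev2 (C d) t y = d.eval t := by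
  unfold ev2
  rw [Polynomial.map_C, eval_C, coe_evalRingHom]

/-- AXG-E4a. Proof. Let `g ∈ ℂ[t][Y]` be the product of the distinct monic irreducible factors of `h` (`ℂ[t]`
is a UFD; `h` monic, so the factors can be taken monic). `g` is monic, squarefree over `ℂ(t)`, hence
separable (characteristic 0): `a g + b g' = d` with `a, b ∈ ℂ[t][Y]`, `0 ≠ d ∈ ℂ[t]`. Every root of
`h(t, ·)` is a root of `g(t, ·)`. Let `S` be the set of zeros of `d` and `t₁ ∈ Δ ∖ S`; apply
`local_branches` to `g`. -/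
theorem local_roots {h : Polynomial (Polynomial ℂ)} (hm : h.Monic) {Δ : Set ℂ} (hΔ : IsOpen Δ)
    (hne : Δ.Nonempty) : ∃ t₁ ∈ Δ, ∃ ε : ℝ, 0 < ε ∧ Metric.ball t₁ ε ⊆ Δ ∧ ∃ (n : ℕ) (ρ : Fin n → ℂ → ℂ),
      (∀ a, ∀ t ∈ Metric.ball t₁ ε, AnalyticAt ℂ (ρ a) t ∧ ev2 h t (ρ a t) = 0) ∧
      ∀ t ∈ Metric.ball t₁ ε, ∀ y, ev2 h t y = 0 → ∃ a, y = ρ a t := by
  obtain ⟨N, hN⟩ : ∃ N, h.natDegree = N := ⟨_, rfl⟩
  induction N using Nat.strong_induction_on generalizing h Δ with
  | _ N ih =>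
    by_cases h1 : h = 1
    · obtain ⟨t₁, ht₁⟩ := hne
      obtain ⟨ε, hε, hb⟩ := Metric.isOpen_iff.1 hΔ t₁ ht₁
      refine ⟨t₁, ht₁, ε, hε, hb, 0, Fin.elim0, fun a => a.elim0, ?_⟩
      intro t _ y hy
      rw [h1, e4_one] at hy
      exact absurd hy one_ne_zero
    by_cases hi : Irreducible h
    · obtain ⟨a, b, d, hd, hab⟩ := e4_sep hm hi
      have hS : ∀ t, t ∉ d.roots.toFinset → ∀ y, ev2 h t y = 0 → ev2 (derivative h) t y ≠ 0 := by
        intro t ht y hy hy'
        have h2 := congrArg (fun P => ev2 P t y) hab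
        simp only [ev2_add, ev2_mul, hy, hy', mul_zero, add_zero, e4_C] at h2
        apply ht
        rw [Multiset.mem_toFinset, mem_roots hd]
        exact h2.symm
      obtain ⟨t₁, ht₁, ht₁S⟩ : ∃ t₁ ∈ Δ, t₁ ∉ d.roots.toFinset := by
        have h3 : Dense ((d.roots.toFinset : Set ℂ)ᶜ) :=
          (Finset.countable_toSet _).dense_compl ℝ
        obtain ⟨t, h4, h5⟩ := h3.inter_open_nonempty Δ hΔ hne
        exact ⟨t, h4, fun h6 => h5 (by exact_mod_cast h6)⟩
      obtain ⟨ε, hε, -, φ, hφ1, -, hφ3⟩ := local_branches hm _ hS ht₁S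
      obtain ⟨ε', hε', hb⟩ := Metric.isOpen_iff.1 hΔ t₁ ht₁
      refine ⟨t₁, ht₁, min ε ε', lt_min hε hε', ?_, h.natDegree, φ, ?_, ?_⟩
      · exact (Metric.ball_subset_ball (min_le_right _ _)).trans hb
      · intro l t ht
        have ht' := Metric.ball_subset_ball (min_le_left ε ε') ht
        exact ⟨hφ1 l t ht', (hφ3 t ht' _).2 ⟨l, rfl⟩⟩
      · intro t ht y hy
        have ht' := Metric.ball_subset_ball (min_le_left ε ε') ht
        exact (hφ3 t ht' y).1 hy
    · rw [hm.irreducible_iff_natDegree] at hi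
      push Not at hi
      obtain ⟨f, g, hf, hg, hfg, hf0, hg0⟩ := hi h1
      have hdeg : h.natDegree = f.natDegree + g.natDegree := by
        rw [← hfg, hf.natDegree_mul hg]
      obtain ⟨t₁, -, ε, hε, hb, n, ρ, hρ1, hρ2⟩ := ih f.natDegree (by omega) hf hΔ hne rfl
      obtain ⟨t₂, ht₂, ε', hε', hb', n', ρ', hρ1', hρ2'⟩ := ih g.natDegree (by omega) hg
        (Δ := Metric.ball t₁ ε) Metric.isOpen_ball ⟨t₁, Metric.mem_ball_self hε⟩ rfl
      refine ⟨t₂, hb ht₂, ε', hε', hb'.trans hb, n + n', Fin.append ρ ρ', ?_, ?_⟩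
      · intro l t ht
        rw [← hfg, ev2_mul]
        refine Fin.addCases (fun i => ?_) (fun i => ?_) l
        · rw [Fin.append_left]
          obtain ⟨h2, h3⟩ := hρ1 i t (hb' ht)
          exact ⟨h2, by rw [h3, zero_mul]⟩
        · rw [Fin.append_right]
          obtain ⟨h2, h3⟩ := hρ1' i t ht
          exact ⟨h2, by rw [h3, mul_zero]⟩
      · intro t ht y hy
        rw [← hfg, ev2_mul, mul_eq_zero] at hy
        rcases hy with hy | hy
        · obtain ⟨i, hi⟩ := hρ2 t (hb' ht) y hy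
          exact ⟨Fin.castAdd n' i, by rw [Fin.append_left]; exact hi⟩
        · obtain ⟨i, hi⟩ := hρ2' t ht y hy
          exact ⟨Fin.natAdd n i, by rw [Fin.append_right]; exact hi⟩

end Pool.Agent.Helper94.AXG
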