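import Mathlib

/-! # AXG-E4B -/

namespace Pool.Agent.Helper94.AXG

open Complex Filter Topology Polynomial

/-- AXG-E4b: an uncountable set contains one of its accumulation points. Proof. Otherwise the subspace is
discrete and second countable, hence countable. -/
theorem exists_accum {A : Set ℂ} (hA : ¬ A.Countable) : ∃ t₂ ∈ A, ∃ᶠ t in 𝓝[≠] t₂, t ∈ A := by
  by_contra h
  push Not at h
  apply hA
  have h1 : DiscreteTopology A := by
    rw [discreteTopology_subtype_iff]
    intro x hx
    rw [inf_principal_eq_bot]
    exact h x hx
  exact (HereditarilyLindelofSpace.isLindelof A).countable h1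

end Pool.Agent.Helper94.AXG
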