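import Pool.Agent.Helper94.AXG.E1

/-! # AXG-E4C -/

namespace Pool.Agent.Helper94.AXG

open Complex Filter Topology Polynomial


private theorem clear_den {R : Type} [CommRing R] [IsDomain R] (p : Polynomial (FractionRing R)) :
    ∃ d : R, d ≠ 0 ∧ ∃ q : Polynomial R, q.map (algebraMap R (FractionRing R)) = d • p := by
  obtain ⟨b, hb1, hb2⟩ := IsLocalization.integerNormalization_spec (nonZeroDivisors R) p
  exact ⟨b, nonZeroDivisors.ne_zero hb1, _, hb2⟩

private theorem sep_identity {R : Type} [CommRing R] [IsDomain R] {M : Polynomial R}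
    (hM : (M.map (algebraMap R (FractionRing R))).Separable) :
    ∃ (a b : Polynomial R) (d : R), d ≠ 0 ∧ a * M + b * derivative M = C d := by
  obtain ⟨a, b, hab⟩ := hM
  obtain ⟨d1, hd1, a', ha'⟩ := clear_den a
  obtain ⟨d2, hd2, b', hb'⟩ := clear_den b
  refine ⟨C d2 * a', C d1 * b', d1 * d2, mul_ne_zero hd1 hd2, ?_⟩
  apply Polynomial.map_injective _ (IsFractionRing.injective R (FractionRing R))
  simp only [Polynomial.map_add, Polynomial.map_mul, ha', hb', Polynomial.map_C,
    ← Polynomial.derivative_map, Algebra.smul_def, map_mul] at hab ⊢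
  have e : ∀ d : R, (algebraMap R (Polynomial (FractionRing R))) d
      = C (algebraMap R (FractionRing R) d) := fun d => rfl
  rw [e, e]
  linear_combination (C (algebraMap R (FractionRing R) d1) * C (algebraMap R (FractionRing R) d2)) * hab

private theorem sep_of_irr {R : Type} [CommRing R] [IsDomain R] [CharZero R] [IsIntegrallyClosed R]
    {M : Polynomial R} (hm : M.Monic) (hi : Irreducible M) :
    (M.map (algebraMap R (FractionRing R))).Separable := by
  have : CharZero (FractionRing R) := charZero_of_injective_algebraMap (IsFractionRing.injective R (FractionRing R))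
  exact ((hm.irreducible_iff_irreducible_map_fraction_map).1 hi).separable

private theorem adjoin_mult {R A : Type} [CommRing R] [IsDomain R] [CommRing A] [IsDomain A]
    [Algebra R A] [FaithfulSMul R A] [Algebra (FractionRing R) (FractionRing A)]
    [IsScalarTower R (FractionRing R) (FractionRing A)] (s : Set A) (x : FractionRing A)
    (hx : x ∈ Algebra.adjoin (FractionRing R) ((algebraMap A (FractionRing A)) '' s)) :
    ∃ d : R, d ≠ 0 ∧ ∃ z ∈ Algebra.adjoin R s, algebraMap R (FractionRing A) d * x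
      = algebraMap A (FractionRing A) z := by
  induction hx using Algebra.adjoin_induction with
  | mem x hx =>
    obtain ⟨z, hz, rfl⟩ := hx
    exact ⟨1, one_ne_zero, z, Algebra.subset_adjoin hz, by simp⟩
  | algebraMap r =>
    obtain ⟨n, d, hd, rfl⟩ := IsFractionRing.div_surjective (A := R) r
    have hd0 : d ≠ 0 := nonZeroDivisors.ne_zero hd
    refine ⟨d, hd0, algebraMap R A n, Subalgebra.algebraMap_mem _ _, ?_⟩
    rw [← IsScalarTower.algebraMap_apply R A (FractionRing A),
      IsScalarTower.algebraMap_apply R (FractionRing R) (FractionRing A) d,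
      IsScalarTower.algebraMap_apply R (FractionRing R) (FractionRing A) n, ← map_mul]
    congr 1
    have : algebraMap R (FractionRing R) d ≠ 0 := by
      simpa using hd0
    field_simp
  | add x y _ _ hx hy =>
    obtain ⟨d1, h1, z1, hz1, e1⟩ := hx
    obtain ⟨d2, h2, z2, hz2, e2⟩ := hy
    refine ⟨d1 * d2, mul_ne_zero h1 h2, d2 • z1 + d1 • z2,
      Subalgebra.add_mem _ (Subalgebra.smul_mem _ hz1 _) (Subalgebra.smul_mem _ hz2 _), ?_⟩
    rw [map_add, Algebra.smul_def, Algebra.smul_def, map_mul, map_mul, map_mul, ← e1, ← e2,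
      ← IsScalarTower.algebraMap_apply R A (FractionRing A),
      ← IsScalarTower.algebraMap_apply R A (FractionRing A)]
    ring
  | mul x y _ _ hx hy =>
    obtain ⟨d1, h1, z1, hz1, e1⟩ := hx
    obtain ⟨d2, h2, z2, hz2, e2⟩ := hy
    refine ⟨d1 * d2, mul_ne_zero h1 h2, z1 * z2, Subalgebra.mul_mem _ hz1 hz2, ?_⟩
    rw [map_mul, map_mul, ← e1, ← e2]
    ring

private theorem abs_select {R A : Type} [CommRing R] [IsDomain R] [CharZero R] [CommRing A] [IsDomain A]
    [Algebra R A] [FaithfulSMul R A] {k : ℕ} (ρ : Fin k → A) (hρ : ∀ j, IsIntegral R (ρ j)) :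
    ∃ y : A, IsIntegral R y ∧ ∃ D : R, D ≠ 0 ∧ ∃ P : Fin k → Polynomial R,
      ∀ j, algebraMap R A D * ρ j = aeval y (P j) := by
  have : CharZero (FractionRing R) := charZero_of_injective_algebraMap (IsFractionRing.injective R (FractionRing R))
  let : Algebra (FractionRing R) (FractionRing A) := FractionRing.liftAlgebra R _
  have : IsScalarTower R (FractionRing R) (FractionRing A) := FractionRing.isScalarTower_liftAlgebra R _
  set F := FractionRing A with hF
  set L := FractionRing R with hL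
  set s : Set F := (algebraMap A F) '' (Set.range ρ) with hs
  have : Finite s := ((Set.finite_range ρ).image _)
  have hsi : ∀ x ∈ s, IsIntegral L x := by
    rintro x ⟨_, ⟨j, rfl⟩, rfl⟩
    exact IsIntegral.tower_top ((hρ j).map (IsScalarTower.toAlgHom R A F))
  have : FiniteDimensional L (IntermediateField.adjoin L s) :=
    IntermediateField.finiteDimensional_adjoin hsi
  obtain ⟨α, hα⟩ := Field.exists_primitive_element L (IntermediateField.adjoin L s)
  have hαm : (α : F) ∈ Algebra.adjoin L s := by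
    have := α.2
    rw [← IntermediateField.adjoin_toSubalgebra_of_isAlgebraic (fun x hx => (hsi x hx).isAlgebraic)]
    exact this
  obtain ⟨d, hd, y, hy, hdy⟩ := adjoin_mult (R := R) (Set.range ρ) (α : F) hαm
  have hyi : IsIntegral R y := by
    have : Algebra.adjoin R (Set.range ρ) ≤ integralClosure R A := by
      rw [Algebra.adjoin_le_iff]
      rintro _ ⟨j, rfl⟩
      exact hρ j
    exact this hy
  -- every element of the field is a polynomial in `α`
  have hpoly : ∀ e : IntermediateField.adjoin L s, ∃ P : Polynomial L, aeval α P = e := by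
    intro e
    have he : e ∈ IntermediateField.adjoin L {α} := by rw [hα]; exact IntermediateField.mem_top
    have hint : IsAlgebraic L α := Algebra.IsAlgebraic.isAlgebraic α
    have h2 : e ∈ (IntermediateField.adjoin L {α}).toSubalgebra := he
    rw [IntermediateField.adjoin_simple_toSubalgebra_of_isAlgebraic hint,
      Algebra.adjoin_singleton_eq_range_aeval] at h2
    exact h2
  have hdF : algebraMap R F d ≠ 0 := by
    rw [IsScalarTower.algebraMap_apply R A F]
    simp only [ne_eq, FaithfulSMul.algebraMap_eq_zero_iff]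
    exact hd
  have hdL : algebraMap R L d ≠ 0 := by
    simpa using hd
  have hj : ∀ j, ∃ D : R, D ≠ 0 ∧ ∃ P : Polynomial R, algebraMap R A D * ρ j = aeval y P := by
    intro j
    obtain ⟨P, hP⟩ := hpoly ⟨algebraMap A F (ρ j), IntermediateField.subset_adjoin L s ⟨_, ⟨j, rfl⟩, rfl⟩⟩
    have hP2 : aeval (α : F) P = algebraMap A F (ρ j) := by
      have := congrArg (fun z : IntermediateField.adjoin L s => (z : F)) hP
      simpa [IntermediateField.aeval_coe] using this
    have hα2 : (α : F) = aeval (algebraMap A F y) (C (algebraMap R L d)⁻¹ * X : Polynomial L) := by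
      rw [map_mul, aeval_C, aeval_X, ← hdy, map_inv₀, ← IsScalarTower.algebraMap_apply R L F]
      exact (inv_mul_cancel_left₀ hdF _).symm
    obtain ⟨D, hD, Q, hQ⟩ := clear_den (P.comp (C (algebraMap R L d)⁻¹ * X : Polynomial L))
    refine ⟨D, hD, Q, ?_⟩
    apply IsFractionRing.injective A F
    rw [map_mul, ← hP2, ← aeval_algebraMap_apply]
    have h3 : aeval (algebraMap A F y) Q = aeval (algebraMap A F y) (Q.map (algebraMap R L)) := by
      rw [aeval_map_algebraMap]
    rw [h3, hQ, Algebra.smul_def, map_mul, aeval_comp, ← hα2]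
    have h4 : (aeval (algebraMap A F y)) ((algebraMap R (Polynomial L)) D) = algebraMap R F D := by
      have : (algebraMap R (Polynomial L)) D = C (algebraMap R L D) := rfl
      rw [this, aeval_C, ← IsScalarTower.algebraMap_apply R L F]
    rw [h4, ← IsScalarTower.algebraMap_apply R A F]
  choose D hD P hP using hj
  refine ⟨y, hyi, ∏ j, D j, Finset.prod_ne_zero_iff.2 (fun j _ => hD j),
    fun j => C (∏ i ∈ Finset.univ.erase j, D i) * P j, fun j => ?_⟩
  rw [map_mul, aeval_C, ← hP j, ← Finset.mul_prod_erase Finset.univ D (Finset.mem_univ j), map_mul]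
  ring

private theorem abs_dvd {R A : Type} [CommRing R] [IsDomain R] [IsIntegrallyClosed R] [CommRing A]
    [IsDomain A] [Algebra R A] [FaithfulSMul R A] {y : A} (hy : IsIntegral R y) {r : A} {D : R}
    {P h : Polynomial R} (e : algebraMap R A D * r = aeval y P) (hr : aeval r h = 0) :
    minpoly R y ∣ (Polynomial.scaleRoots h D).comp P := by
  have : Module.IsTorsionFree R A := Module.isTorsionFree_iff_faithfulSMul.mpr inferInstance
  apply minpoly.isIntegrallyClosed_dvd hy
  rw [Polynomial.aeval_comp, ← e]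
  exact Polynomial.scaleRoots_aeval_eq_zero hr

/-- the analytic functions on a ball -/
private noncomputable def Ao (t₁ : ℂ) (ε : ℝ) : Subalgebra ℂ (Metric.ball t₁ ε → ℂ) where
  carrier := {f | ∃ F : ℂ → ℂ, (∀ t ∈ Metric.ball t₁ ε, AnalyticAt ℂ F t) ∧
    ∀ t : Metric.ball t₁ ε, f t = F t}
  mul_mem' := by
    rintro f g ⟨F, hF, hf⟩ ⟨G, hG, hg⟩
    exact ⟨F * G, fun t ht => (hF t ht).mul (hG t ht), fun t => by simp [hf, hg]⟩
  add_mem' := by
    rintro f g ⟨F, hF, hf⟩ ⟨G, hG, hg⟩
    exact ⟨F + G, fun t ht => (hF t ht).add (hG t ht), fun t => by simp [hf, hg]⟩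
  algebraMap_mem' := fun r => ⟨fun _ => r, fun _ _ => analyticAt_const, fun t => by simp⟩

private theorem Ao_domain {t₁ : ℂ} {ε : ℝ} (hε : 0 < ε) : IsDomain (Ao t₁ ε) := by
  have : Nonempty (Metric.ball t₁ ε) := ⟨⟨t₁, Metric.mem_ball_self hε⟩⟩
  have hnt : Nontrivial (Ao t₁ ε) := inferInstance
  have : NoZeroDivisors (Ao t₁ ε) := by
    constructor
    rintro ⟨f, F, hF, hf⟩ ⟨g, G, hG, hg⟩ hfg
    have h1 : ∀ t ∈ Metric.ball t₁ ε, F t * G t = 0 := by
      intro t ht
      have := congrArg (fun z : Ao t₁ ε => z.1 ⟨t, ht⟩) hfg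
      simpa [hf, hg] using this
    have hpc : IsPreconnected (Metric.ball t₁ ε) := (convex_ball t₁ ε).isPreconnected
    have hFn : AnalyticOnNhd ℂ F (Metric.ball t₁ ε) := hF
    have hGn : AnalyticOnNhd ℂ G (Metric.ball t₁ ε) := hG
    by_cases hz : ∀ᶠ t in 𝓝[≠] t₁, F t ≠ 0
    · right
      have h0 : ∃ᶠ t in 𝓝[≠] t₁, G t = 0 := by
        refine Eventually.frequently ?_
        have hb : ∀ᶠ t in 𝓝[≠] t₁, t ∈ Metric.ball t₁ ε :=
          nhdsWithin_le_nhds (Metric.ball_mem_nhds t₁ hε)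
        filter_upwards [hz, hb] with t h2 h3
        exact (mul_eq_zero.1 (h1 t h3)).resolve_left h2
      have h2 := hGn.eqOn_zero_of_preconnected_of_frequently_eq_zero hpc (Metric.mem_ball_self hε) h0
      ext t
      rw [show (⟨g, G, hG, hg⟩ : Ao t₁ ε).1 t = G t from hg t, h2 t.2]
      rfl
    · left
      have h0 : ∃ᶠ t in 𝓝[≠] t₁, F t = 0 := by
        intro h
        exact hz h
      have h2 := hFn.eqOn_zero_of_preconnected_of_frequently_eq_zero hpc (Metric.mem_ball_self hε) h0
      ext t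
      rw [show (⟨f, F, hF, hf⟩ : Ao t₁ ε).1 t = F t from hf t, h2 t.2]
      rfl
  exact NoZeroDivisors.to_isDomain _

private noncomputable def idA (t₁ : ℂ) (ε : ℝ) : Ao t₁ ε :=
  ⟨fun t => t, fun t => t, fun _ _ => analyticAt_id, fun _ => rfl⟩

private noncomputable def evA (t₁ : ℂ) (ε : ℝ) (t : Metric.ball t₁ ε) : Ao t₁ ε →ₐ[ℂ] ℂ :=
  (Pi.evalAlgHom ℂ (fun _ : Metric.ball t₁ ε => ℂ) t).comp (Ao t₁ ε).val

private noncomputable abbrev algA (t₁ : ℂ) (ε : ℝ) : Algebra (Polynomial ℂ) (Ao t₁ ε) :=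
  (Polynomial.aeval (idA t₁ ε)).toRingHom.toAlgebra

private theorem evA_map (t₁ : ℂ) (ε : ℝ) (t : Metric.ball t₁ ε) (p : Polynomial ℂ) :
    evA t₁ ε t (Polynomial.aeval (idA t₁ ε) p) = p.eval (t : ℂ) := by
  rw [← Polynomial.aeval_algHom_apply]
  rfl

/-- AXG-E4c: the algebra. Proof. Let `𝒪` be the ring of germs at `t₁` of analytic functions (a subring of
`Germ (𝓝 t₁) ℂ`; a domain by `AnalyticAt.eventually_eq_zero_or_eventually_ne_zero`); `ℂ[t] → 𝒪` is
injective, let `L = Frac ℂ[t] ⊆ F = Frac 𝒪`, `E = L(ρ_1, …, ρ_k) ⊆ F`, a finite extension of `L` (the `ρ_j`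
are integral over `ℂ[t]`). Primitive element theorem: `E = L(y₀)`; `E = L[ρ_1, …, ρ_k]`, so
`y = d y₀ ∈ ℂ[t][ρ_1, …, ρ_k]` for some `0 ≠ d ∈ ℂ[t]`, `E = L(y)`, `y ∈ 𝒪` is integral over `ℂ[t]`. `M` = the
minimal polynomial of `y` over `ℂ[t]` (integrally closed), monic and irreducible
(`minpoly.isIntegrallyClosed_eq_field_fractions`). `D ρ_j = R_j(y)` with a common denominator `D`. As `M` is
irreducible over `L` it is separable: `a M + b M' = d' ≠ 0` in `ℂ[t]`; `S` = zeros of `D d'`. `η(t)` = the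
polynomial expression of `y` in `t, ρ_1(t), …, ρ_k(t)`, analytic on the ball; the identities
`M(t, η) = 0`, `D ρ_j = R_j(t, η)` hold as germs at `t₁`, hence on the whole ball. `hh`: the polynomial
`D^(deg h_j) h_j(R_j / D) ∈ ℂ[t][Y]` vanishes at `y`, so it is divisible by the monic `M` over `L`, hence over
`ℂ[t]`. -/
theorem algebra_select {k : ℕ} (h : Fin k → Polynomial (Polynomial ℂ)) (hm : ∀ j, (h j).Monic)
    {t₁ : ℂ} {ε : ℝ} (hε : 0 < ε) (ρ : Fin k → ℂ → ℂ)
    (hρ : ∀ j, ∀ t ∈ Metric.ball t₁ ε, AnalyticAt ℂ (ρ j) t ∧ ev2 (h j) t (ρ j t) = 0) :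
    ∃ c : Crv k, c.h = h ∧ ∃ η : ℂ → ℂ, (∀ t ∈ Metric.ball t₁ ε, AnalyticAt ℂ η t ∧
      ev2 c.M t (η t) = 0) ∧ ∀ t ∈ Metric.ball t₁ ε, t ∉ c.S → ∀ j, c.X j t (η t) = ρ j t := by
  let ia : Algebra (Polynomial ℂ) (Ao t₁ ε) := algA t₁ ε
  have hdom : IsDomain (Ao t₁ ε) := Ao_domain hε
  have hal : ∀ p : Polynomial ℂ, algebraMap (Polynomial ℂ) (Ao t₁ ε) p
      = Polynomial.aeval (idA t₁ ε) p := fun p => rfl
  have hinf : (Metric.ball t₁ ε).Infinite := infinite_of_mem_nhds t₁ (Metric.ball_mem_nhds t₁ hε)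
  have hinj : Function.Injective (algebraMap (Polynomial ℂ) (Ao t₁ ε)) := by
    intro p q hpq
    apply Polynomial.eq_of_infinite_eval_eq
    refine hinf.mono ?_
    intro t ht
    have := congrArg (evA t₁ ε ⟨t, ht⟩) hpq
    rw [hal, hal, evA_map, evA_map] at this
    exact this
  have hfs : FaithfulSMul (Polynomial ℂ) (Ao t₁ ε) := (faithfulSMul_iff_algebraMap_injective _ _).2 hinj
  -- evaluation
  have hev : ∀ (P : Polynomial (Polynomial ℂ)) (y : Ao t₁ ε) (t : Metric.ball t₁ ε),
      evA t₁ ε t (Polynomial.aeval y P) = ev2 P t (evA t₁ ε t y) := by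
    intro P y t
    rw [ev2, Polynomial.eval_map, Polynomial.aeval_def]
    have := Polynomial.hom_eval₂ P (algebraMap (Polynomial ℂ) (Ao t₁ ε)) (evA t₁ ε t).toRingHom y
    simp only [AlgHom.toRingHom_eq_coe, RingHom.coe_coe] at this
    rw [this]
    congr 1
    ext p
    · simp [hal]
    · simp [hal]
      rfl
  let r : Fin k → Ao t₁ ε := fun j => ⟨fun t => ρ j t, ρ j, fun t ht => (hρ j t ht).1, fun t => rfl⟩
  have hr : ∀ j, Polynomial.aeval (r j) (h j) = 0 := by
    intro j
    ext t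
    have h1 := hev (h j) (r j) t
    have h2 := (hρ j t t.2).2
    have h3 : evA t₁ ε t (r j) = ρ j t := rfl
    rw [h3, h2] at h1
    exact h1
  have hri : ∀ j, IsIntegral (Polynomial ℂ) (r j) := fun j => ⟨h j, hm j, hr j⟩
  obtain ⟨y, hy, D, hD, P, hP⟩ := abs_select r hri
  have hMm := minpoly.monic hy
  have hMi := minpoly.irreducible hy
  set M := minpoly (Polynomial ℂ) y with hM
  obtain ⟨a, b, d, hd, hab⟩ := sep_identity (sep_of_irr hMm hMi)
  have hab2 : ∀ t z, ev2 a t z * ev2 M t z + ev2 b t z * ev2 (Polynomial.derivative M) t z = d.eval t := by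
    intro t z
    have := congrArg (fun Q => ev2 Q t z) hab
    simp only [ev2_add, ev2_mul] at this
    rw [this]
    simp [ev2]
  have hDS : ∀ t, t ∉ (D * d).roots.toFinset → D.eval t ≠ 0 ∧ d.eval t ≠ 0 := by
    intro t ht
    rw [Multiset.mem_toFinset, Polynomial.mem_roots (mul_ne_zero hD hd)] at ht
    simp only [Polynomial.IsRoot, Polynomial.eval_mul, mul_eq_zero, not_or] at ht
    exact ht
  -- the integral equations
  have hh : ∀ j t, t ∉ (D * d).roots.toFinset → ∀ z, ev2 M t z = 0 →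
      ev2 (h j) t (ev2 (P j) t z / D.eval t) = 0 := by
    intro j t ht z hz
    obtain ⟨Q, hQ⟩ := abs_dvd hy (hP j) (hr j)
    have h2 : ev2 ((Polynomial.scaleRoots (h j) D).comp (P j)) t z = 0 := by
      rw [hQ, ev2_mul, ← hM, hz, zero_mul]
    have h3 : ev2 ((Polynomial.scaleRoots (h j) D).comp (P j)) t z
        = ev2 (Polynomial.scaleRoots (h j) D) t (ev2 (P j) t z) := by
      simp [ev2, Polynomial.map_comp]
    have h4 := Polynomial.scaleRoots_eval₂_mul (p := h j) (Polynomial.evalRingHom t)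
      (ev2 (P j) t z / D.eval t) D
    have h5 : (Polynomial.evalRingHom t) D * (ev2 (P j) t z / D.eval t) = ev2 (P j) t z := by
      simp only [Polynomial.coe_evalRingHom]
      field_simp [(hDS t ht).1]
    rw [h5, ← Polynomial.eval_map, ← Polynomial.eval_map] at h4
    rw [h3] at h2
    rw [ev2] at h2
    rw [h2] at h4
    exact (mul_eq_zero.1 h4.symm).resolve_left (pow_ne_zero _ (hDS t ht).1)
  obtain ⟨Y, hYa, hYe⟩ := y.2
  refine ⟨⟨M, hMm, hMi, P, D, (D * d).roots.toFinset, fun t ht => (hDS t ht).1, ?_, h, hm, hh⟩, rfl,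
    Y, ?_, ?_⟩
  · intro t ht z hz hz2
    have := hab2 t z
    rw [hz, hz2, mul_zero, mul_zero, add_zero] at this
    exact (hDS t ht).2 this.symm
  · intro t ht
    refine ⟨hYa t ht, ?_⟩
    have h1 := hev M y ⟨t, ht⟩
    rw [hM, minpoly.aeval, map_zero] at h1
    have h2 : evA t₁ ε ⟨t, ht⟩ y = Y t := hYe ⟨t, ht⟩
    rw [h2] at h1
    exact h1.symm
  · intro t ht htS j
    have h1 := congrArg (evA t₁ ε ⟨t, ht⟩) (hP j)
    rw [hev, map_mul, hal, evA_map] at h1
    have h2 : evA t₁ ε ⟨t, ht⟩ y = Y t := hYe ⟨t, ht⟩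
    have h3 : evA t₁ ε ⟨t, ht⟩ (r j) = ρ j t := rfl
    rw [h2, h3] at h1
    show ev2 (P j) t (Y t) / D.eval t = ρ j t
    rw [← h1]
    field_simp [(hDS t htS).1]

end Pool.Agent.Helper94.AXG
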