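import Pool.Agent.Helper94.AXG.E4
import Pool.Agent.Helper94.AXG.E4B
import Pool.Agent.Helper94.AXG.E4C

/-! # AXG-E4D -/

namespace Pool.Agent.Helper94.AXG

open Complex Filter Topology Polynomial

private lemma E4D_prod {k : ℕ} (h : Fin k → Polynomial (Polynomial ℂ)) (t y : ℂ) :
    ev2 (∏ j, h j) t y = ∏ j, ev2 (h j) t y := by
  unfold ev2
  rw [Polynomial.map_prod, Polynomial.eval_prod]

/-- AXG-E4d. Proof. Apply E4a to `∏_j h_j`. For `t` in the ball choose `a(t) : Fin k → Fin n` with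
`x t j = ρ_{a(t) j} (t)`; for some `a` the set `A₀` of the `t` with `a(t) = a` is uncountable. Apply E4c to
`ρ_{a j}`, put `A = A₀ ∖ S` (uncountable), E4b. -/
theorem select {k : ℕ} (h : Fin k → Polynomial (Polynomial ℂ)) (hm : ∀ j, (h j).Monic)
    (x : ℂ → Fin k → ℂ) {Δ : Set ℂ} (hΔ : IsOpen Δ) (hne : Δ.Nonempty)
    (hx : ∀ t ∈ Δ, ∀ j, ev2 (h j) t (x t j) = 0) :
    ∃ c : Crv k, c.h = h ∧ ∃ t₂ ∈ Δ, t₂ ∉ c.S ∧ ∃ η : ℂ → ℂ, AnalyticAt ℂ η t₂ ∧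
      (∀ᶠ t in 𝓝 t₂, ev2 c.M t (η t) = 0) ∧
      ∃ᶠ t in 𝓝[≠] t₂, t ∈ Δ ∧ ∀ j, x t j = c.X j t (η t) := by
  have hP : (∏ j, h j).Monic := Polynomial.monic_prod_of_monic _ _ (fun j _ => hm j)
  obtain ⟨t₁, _, ε, hε, hb, n, ρ, hρ, hcover⟩ := local_roots hP hΔ hne
  have hball : ¬ (Metric.ball t₁ ε).Countable := fun hc =>
    (Metric.measure_ball_pos MeasureTheory.volume t₁ hε).ne' (hc.measure_zero _)
  obtain ⟨A, hA⟩ : ∃ A : (Fin k → Fin n) → Set ℂ,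
      A = fun a => {t | t ∈ Metric.ball t₁ ε ∧ ∀ j, x t j = ρ (a j) t} := ⟨_, rfl⟩
  have hcov : Metric.ball t₁ ε ⊆ ⋃ a : Fin k → Fin n, A a := by
    intro t ht
    have h1 : ∀ j, ∃ b : Fin n, x t j = ρ b t := fun j => hcover t ht (x t j) (by
      rw [E4D_prod]
      exact Finset.prod_eq_zero (Finset.mem_univ j) (hx t (hb ht) j))
    choose a ha using h1
    rw [hA]
    exact Set.mem_iUnion.2 ⟨a, ht, ha⟩
  obtain ⟨a, ha⟩ : ∃ a : Fin k → Fin n, ¬ (A a).Countable := by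
    by_contra hcon
    push Not at hcon
    exact hball ((Set.countable_iUnion hcon).mono hcov)
  have hAa : ∀ t, t ∈ A a ↔ t ∈ Metric.ball t₁ ε ∧ ∀ j, x t j = ρ (a j) t := by
    intro t
    rw [hA]
    rfl
  -- the branches are roots of the single polynomials
  have hroot : ∀ j, ∀ t ∈ Metric.ball t₁ ε,
      AnalyticAt ℂ (ρ (a j)) t ∧ ev2 (h j) t (ρ (a j) t) = 0 := by
    intro j
    obtain ⟨t₀, ht₀, hfr⟩ := exists_accum ha
    have han : AnalyticOnNhd ℂ (fun t => ev2 (h j) t (ρ (a j) t)) (Metric.ball t₁ ε) := by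
      intro t ht
      exact (ev2_analytic (h j) (t, ρ (a j) t)).comp_of_eq
        (AnalyticAt.prod (analyticAt_id (𝕜 := ℂ) (z := t)) (hρ (a j) t ht).1) rfl
    have hz := han.eqOn_zero_of_preconnected_of_frequently_eq_zero
      (convex_ball t₁ ε).isPreconnected ((hAa t₀).1 ht₀).1 (hfr.mono (fun t ht => by
        have h2 := (hAa t).1 ht
        rw [← h2.2 j]
        exact hx t (hb h2.1) j))
    exact fun t ht => ⟨(hρ (a j) t ht).1, hz ht⟩
  obtain ⟨c, hc, η, hη, hX⟩ := algebra_select h hm hε (fun j => ρ (a j)) hroot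
  have hA2 : ¬ (A a \ (c.S : Set ℂ)).Countable := by
    intro hcon
    apply ha
    have h3 : A a ⊆ (A a \ (c.S : Set ℂ)) ∪ (c.S : Set ℂ) := by
      intro t ht
      by_cases hs : t ∈ (c.S : Set ℂ)
      · exact Or.inr hs
      · exact Or.inl ⟨ht, hs⟩
    exact (hcon.union c.S.countable_toSet).mono h3
  obtain ⟨t₂, ht₂, hfr⟩ := exists_accum hA2
  have ht₂b : t₂ ∈ Metric.ball t₁ ε := ((hAa t₂).1 ht₂.1).1
  refine ⟨c, hc, t₂, hb ht₂b, fun hs => ht₂.2 (Finset.mem_coe.2 hs), η, (hη t₂ ht₂b).1, ?_, ?_⟩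
  · filter_upwards [Metric.isOpen_ball.mem_nhds ht₂b] with t ht
    exact (hη t ht).2
  · refine hfr.mono (fun t ht => ?_)
    have h4 := (hAa t).1 ht.1
    refine ⟨hb h4.1, fun j => ?_⟩
    rw [h4.2 j, hX t h4.1 (fun hs => ht.2 (Finset.mem_coe.2 hs)) j]

end Pool.Agent.Helper94.AXG
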