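import Pool.Agent.Helper94.AXG.E1B

/-! # AXG-E5A -/

namespace Pool.Agent.Helper94.AXG

open Complex Filter Topology

private theorem E5A_cov {M : Polynomial (Polynomial ℂ)} (hM : M.Monic) (S : Finset ℂ)
    (hS : ∀ t, t ∉ S → ∀ y, ev2 M t y = 0 → ev2 (Polynomial.derivative M) t y ≠ 0) {r : ℝ}
    (hr : ∀ w : ℂ, r < w.re → exp w ∉ S) :
    IsCoveringMapOn (fun e : {p : ℂ × ℂ // ev2 M (exp p.1) p.2 = 0} => e.1.1) {w : ℂ | r < w.re} := by
  classical
  have hHo : IsOpen {w : ℂ | r < w.re} := isOpen_lt continuous_const Complex.continuous_re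
  have hf : Continuous (fun e : {p : ℂ × ℂ // ev2 M (exp p.1) p.2 = 0} => e.1.1) :=
    continuous_fst.comp continuous_subtype_val
  intro w₁ hw₁
  obtain ⟨ε, hε, hεS, φ, hφa, hφi, hφr⟩ := local_branches hM S hS (hr w₁ hw₁)
  set U : Set ℂ := {w : ℂ | r < w.re} ∩ exp ⁻¹' Metric.ball (exp w₁) ε with hU
  have hUo : IsOpen U := hHo.inter (Metric.isOpen_ball.preimage continuous_exp)
  have hφc : ∀ l, ContinuousOn (φ l) (Metric.ball (exp w₁) ε) := fun l t ht =>
    (hφa l t ht).continuousAt.continuousWithinAt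
  have hlab : ∀ e : (fun e : {p : ℂ × ℂ // ev2 M (exp p.1) p.2 = 0} => e.1.1) ⁻¹' U,
      ∃ l, e.1.1.2 = φ l (exp e.1.1.1) := fun e => (hφr _ e.2.2 _).1 e.1.2
  choose lab hlab' using hlab
  refine IsEvenlyCovered.to_isEvenlyCovered_preimage (I := Fin M.natDegree)
    ⟨inferInstance, U, ⟨hw₁, Metric.mem_ball_self hε⟩, hUo, hUo.preimage hf, ?_⟩
  refine ⟨{ toFun := fun e => (⟨e.1.1.1, e.2⟩, lab e),
            invFun := fun x => ⟨⟨(x.1.1, φ x.2 (exp x.1.1)), (hφr _ x.1.2.2 _).2 ⟨x.2, rfl⟩⟩, x.1.2⟩,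
            left_inv := ?_, right_inv := ?_, continuous_toFun := ?_, continuous_invFun := ?_ },
    fun _ => rfl⟩
  · intro e
    apply Subtype.ext
    apply Subtype.ext
    exact Prod.ext rfl (hlab' e).symm
  · rintro ⟨w, l⟩
    refine Prod.ext rfl ?_
    have h := hlab' ⟨⟨(w.1, φ l (exp w.1)), (hφr _ w.2.2 _).2 ⟨l, rfl⟩⟩, w.2⟩
    exact (hφi _ w.2.2 h).symm
  · refine Continuous.prodMk ?_ ?_
    · exact Continuous.subtype_mk (hf.comp continuous_subtype_val) _
    · rw [continuous_discrete_rng]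
      intro b
      have h1 : lab ⁻¹' {b} = ⋂ l : Fin M.natDegree, ⋂ _ : l ≠ b,
          {e : (fun e : {p : ℂ × ℂ // ev2 M (exp p.1) p.2 = 0} => e.1.1) ⁻¹' U |
            e.1.1.2 ≠ φ l (exp e.1.1.1)} := by
        ext e
        simp only [Set.mem_preimage, Set.mem_singleton_iff, Set.mem_iInter, Set.mem_ofPred_eq]
        constructor
        · intro h l hl h2
          apply hl
          rw [← h]
          exact hφi _ e.2.2 (h2.symm.trans (hlab' e))
        · intro h
          by_contra h2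
          exact h _ h2 (hlab' e)
      rw [h1]
      refine isOpen_iInter_of_finite fun l => isOpen_iInter_of_finite fun _ => ?_
      refine isOpen_ne_fun ?_ ?_
      · exact (continuous_snd.comp continuous_subtype_val).comp continuous_subtype_val
      · exact (hφc l).comp_continuous (continuous_exp.comp (hf.comp continuous_subtype_val))
          fun e => e.2.2
  · refine Continuous.subtype_mk (Continuous.subtype_mk (Continuous.prodMk
      (continuous_subtype_val.comp continuous_fst) ?_) _) _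
    rw [continuous_prod_of_discrete_right]
    intro l
    exact (hφc l).comp_continuous (continuous_exp.comp continuous_subtype_val) fun w => w.2.2

/-- AXG-E5a: all roots are analytic functions of `w = log t` on a half plane. Proof. Let `H` be the half
plane `Re w > r`, `p` the projection of `E = {(w, y) : w ∈ H, M(e^w, y) = 0}` to `H`. `p` is a covering map:
near `w₁` the fibres are given by `m` disjoint graphs of continuous functions (`local_branches` at
`t₁ = e^{w₁}` composed with `exp`). `H` is convex, hence simply connected and locally path connected, so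
through every point of the fibre over a base point `w₀` there is a continuous section
(`IsCoveringMap.existsUnique_continuousMap_lifts`); these `m` sections are pairwise distinct everywhere
(uniqueness of lifts), so they give all roots; they are analytic because locally a continuous section
agrees with one of the analytic local branches. -/
theorem half_plane_roots {M : Polynomial (Polynomial ℂ)} (hM : M.Monic) (S : Finset ℂ)
    (hS : ∀ t, t ∉ S → ∀ y, ev2 M t y = 0 → ev2 (Polynomial.derivative M) t y ≠ 0) {r : ℝ}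
    (hr : ∀ w : ℂ, r < w.re → exp w ∉ S) :
    ∃ Y : Fin M.natDegree → ℂ → ℂ, ∀ w : ℂ, r < w.re → (∀ l, AnalyticAt ℂ (Y l) w) ∧
      Function.Injective (fun l => Y l w) ∧ ∀ y, ev2 M (exp w) y = 0 ↔ ∃ l, y = Y l w := by
  classical
  have cov := E5A_cov hM S hS hr
  have hHo : IsOpen {w : ℂ | r < w.re} := isOpen_lt continuous_const Complex.continuous_re
  have hHc : Convex ℝ {w : ℂ | r < w.re} := convex_halfSpace_re_gt r
  have hw₀ : r < ((r + 1 : ℝ) : ℂ).re := by
    rw [ofReal_re]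
    linarith
  have hne : ({w : ℂ | r < w.re}).Nonempty := ⟨_, hw₀⟩
  have : ContractibleSpace {w : ℂ | r < w.re} := hHc.contractibleSpace hne
  have : LocallyPathConnectedSpace {w : ℂ | r < w.re} := hHo.locallyPathConnectedSpace
  let ι : C({w : ℂ | r < w.re}, ℂ) := ⟨Subtype.val, continuous_subtype_val⟩
  have lift := fun (a₀ : {w : ℂ | r < w.re}) (e₀ : {p : ℂ × ℂ // ev2 M (exp p.1) p.2 = 0})
    (he : e₀.1.1 = a₀.1) => cov.existsUnique_continuousMap_lifts ι (a₀ := a₀) (e₀ := e₀) he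
      (fun a => a.2)
  obtain ⟨ε₀, hε₀, hεS₀, φ₀, hφa₀, hφi₀, hφr₀⟩ := local_branches hM S hS (hr _ hw₀)
  have hb₀ := Metric.mem_ball_self (x := exp ((r + 1 : ℝ) : ℂ)) hε₀
  choose F hF1 hF2 using fun l => (lift ⟨((r + 1 : ℝ) : ℂ), hw₀⟩
    ⟨(((r + 1 : ℝ) : ℂ), φ₀ l (exp ((r + 1 : ℝ) : ℂ))), (hφr₀ _ hb₀ _).2 ⟨l, rfl⟩⟩ rfl).exists
  have hFfst : ∀ (G : C({w : ℂ | r < w.re}, {p : ℂ × ℂ // ev2 M (exp p.1) p.2 = 0})),
      (fun e : {p : ℂ × ℂ // ev2 M (exp p.1) p.2 = 0} => e.1.1) ∘ G = ι → ∀ w, (G w).1.1 = w.1 :=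
    fun G h w => congrFun h w
  have huniq : ∀ (G G' : C({w : ℂ | r < w.re}, {p : ℂ × ℂ // ev2 M (exp p.1) p.2 = 0})),
      (fun e : {p : ℂ × ℂ // ev2 M (exp p.1) p.2 = 0} => e.1.1) ∘ G = ι →
      (fun e : {p : ℂ × ℂ // ev2 M (exp p.1) p.2 = 0} => e.1.1) ∘ G' = ι →
      ∀ w, (G w).1.2 = (G' w).1.2 → G = G' := by
    intro G G' h h' w hw
    have h1 : G' w = G w := Subtype.ext (Prod.ext ((hFfst G' h' w).trans (hFfst G h w).symm) hw.symm)
    exact (lift w (G w) (hFfst G h w)).unique ⟨rfl, h⟩ ⟨h1, h'⟩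
  -- all roots
  have hall : ∀ (w : {w : ℂ | r < w.re}) (y : ℂ), ev2 M (exp w.1) y = 0 → ∃ l, y = (F l w).1.2 := by
    intro w y hy
    obtain ⟨G, hG1, hG2⟩ := (lift w ⟨(w.1, y), hy⟩ rfl).exists
    have h1 := (G ⟨((r + 1 : ℝ) : ℂ), hw₀⟩).2
    rw [hFfst G hG2] at h1
    obtain ⟨l, hl⟩ := (hφr₀ _ hb₀ _).1 h1
    have h2 : G = F l := by
      refine huniq G (F l) hG2 (hF2 l) ⟨((r + 1 : ℝ) : ℂ), hw₀⟩ ?_
      rw [hF1 l]
      exact hl
    refine ⟨l, ?_⟩
    rw [← h2, hG1]
  refine ⟨fun l w => if h : r < w.re then (F l ⟨w, h⟩).1.2 else 0, fun w hw => ⟨fun l => ?_, ?_, ?_⟩⟩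
  · obtain ⟨ε, hε, hεS, φ, hφa, hφi, hφr⟩ := local_branches hM S hS (hr w hw)
    have hY : ContinuousOn (fun w : ℂ => if h : r < w.re then (F l ⟨w, h⟩).1.2 else 0)
        {w : ℂ | r < w.re} := by
      rw [continuousOn_iff_continuous_domRestrict]
      have h1 : Continuous fun w => (F l w).1.2 :=
        (continuous_snd.comp continuous_subtype_val).comp (F l).continuous
      refine h1.congr fun w => ?_
      have h2 : r < w.1.re := w.2
      change (F l w).1.2 = if h : r < w.1.re then (F l ⟨w.1, h⟩).1.2 else 0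
      rw [dif_pos h2]
    have hYc := hY.continuousAt (hHo.mem_nhds hw)
    have hroot : ∀ w' (hw' : r < w'.re), ev2 M (exp w') (F l ⟨w', hw'⟩).1.2 = 0 := by
      intro w' hw'
      have h1 := (F l ⟨w', hw'⟩).2
      rwa [hFfst (F l) (hF2 l)] at h1
    obtain ⟨l', hl'⟩ := (hφr _ (Metric.mem_ball_self hε) _).1 (hroot w hw)
    have han : ∀ j, AnalyticAt ℂ (fun w => φ j (exp w)) w := fun j =>
      (hφa j _ (Metric.mem_ball_self hε)).comp (analyticAt_cexp)
    have hne' : ∀ j, j ≠ l' → ∀ᶠ w' in 𝓝 w,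
        (fun w : ℂ => if h : r < w.re then (F l ⟨w, h⟩).1.2 else 0) w' ≠ φ j (exp w') := by
      intro j hj
      have h1 := (hYc.sub (han j).continuousAt).eventually_ne (y := (0 : ℂ)) (by
        change (if h : r < w.re then (F l ⟨w, h⟩).1.2 else 0) - φ j (exp w) ≠ 0
        rw [dif_pos hw, hl', sub_ne_zero]
        intro h
        exact hj (hφi _ (Metric.mem_ball_self hε) h.symm))
      exact h1.mono fun w' h => sub_ne_zero.1 h
    have hev : ∀ᶠ w' in 𝓝 w, exp w' ∈ Metric.ball (exp w) ε :=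
      continuous_exp.continuousAt.eventually (Metric.isOpen_ball.mem_nhds (Metric.mem_ball_self hε))
    have hne'' : ∀ᶠ w' in 𝓝 w, ∀ j, j ≠ l' →
        (fun w : ℂ => if h : r < w.re then (F l ⟨w, h⟩).1.2 else 0) w' ≠ φ j (exp w') := by
      rw [eventually_all]
      intro j
      by_cases hj : j = l'
      · exact Eventually.of_forall fun _ h => absurd hj h
      · exact (hne' j hj).mono fun _ h _ => h
    refine (han l').congr ?_
    filter_upwards [hev, hne'', hHo.mem_nhds hw] with w' h1 h2 h3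
    obtain ⟨j, hj⟩ := (hφr _ h1 _).1 (hroot w' h3)
    have h4 : (if h : r < w'.re then (F l ⟨w', h⟩).1.2 else 0) = (F l ⟨w', h3⟩).1.2 := dif_pos h3
    have h5 : j = l' := by
      by_contra h6
      exact h2 j h6 (h4.trans hj)
    rw [h4, hj, h5]
  · intro l l' h
    simp only [dif_pos hw] at h
    have h1 := huniq (F l) (F l') (hF2 l) (hF2 l') ⟨w, hw⟩ h
    have h2 : φ₀ l (exp ((r + 1 : ℝ) : ℂ)) = φ₀ l' (exp ((r + 1 : ℝ) : ℂ)) := by
      have h3 := congrArg (fun G => (G ⟨((r + 1 : ℝ) : ℂ), hw₀⟩).1.2) h1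
      simp only [hF1] at h3
      exact h3
    exact hφi₀ _ hb₀ h2
  · intro y
    simp only [dif_pos hw]
    constructor
    · exact hall ⟨w, hw⟩ y
    · rintro ⟨l, rfl⟩
      have h1 := (F l ⟨w, hw⟩).2
      rwa [hFfst (F l) (hF2 l)] at h1

end Pool.Agent.Helper94.AXG
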