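import Pool.Agent.Helper94.AXG.E1

/-! # AXG-E5B -/

namespace Pool.Agent.Helper94.AXG

open Complex Filter Topology

/-- AXG-E5b: periodicity. Proof. For `w` in the half plane the map `w ↦ w + 2πi` permutes the roots:
`Y l (w + 2πi) = Y (π l) w` with a permutation `π` which does not depend on `w` (connectedness, the `Y l`
are continuous and pairwise distinct). `π^(m!) = 1`, so `e = m!` works. -/
theorem roots_periodic {M : Polynomial (Polynomial ℂ)} {r : ℝ}
    {Y : Fin M.natDegree → ℂ → ℂ} (hY : ∀ w : ℂ, r < w.re → (∀ l, AnalyticAt ℂ (Y l) w) ∧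
      Function.Injective (fun l => Y l w) ∧ ∀ y, ev2 M (exp w) y = 0 ↔ ∃ l, y = Y l w) :
    ∃ e : ℕ, 1 ≤ e ∧ ∀ l, ∀ w : ℂ, r < w.re → Y l (w + 2 * Real.pi * I * e) = Y l w := by
  classical
  have hre : ∀ w : ℂ, (w + 2 * Real.pi * I).re = w.re := by
    intro w
    simp
  have hex : ∀ (l : Fin M.natDegree) (w : ℂ), r < w.re →
      ∃ l', Y l (w + 2 * Real.pi * I) = Y l' w := by
    intro l w hw
    have h1 := (hY (w + 2 * Real.pi * I) (by rw [hre]; exact hw)).2.2 (Y l (w + 2 * Real.pi * I))
    have h2 := h1.2 ⟨l, rfl⟩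
    rw [Complex.exp_periodic w] at h2
    exact ((hY w hw).2.2 _).1 h2
  let σ : Fin M.natDegree → ℂ → Fin M.natDegree := fun l w =>
    if h : r < w.re then (hex l w h).choose else l
  have hσ : ∀ l (w : ℂ), r < w.re → Y l (w + 2 * Real.pi * I) = Y (σ l w) w := by
    intro l w hw
    have h1 : σ l w = (hex l w hw).choose := dif_pos hw
    rw [h1]
    exact (hex l w hw).choose_spec
  have hcont : ∀ l, ContinuousOn (σ l) {w : ℂ | r < w.re} := by
    intro l w hw
    have hw' : r < w.re := hw
    have h1 : ∀ l'' : Fin M.natDegree, ∀ᶠ w' in 𝓝 w, l'' ≠ σ l w →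
        Y l (w' + 2 * Real.pi * I) ≠ Y l'' w' := by
      intro l''
      by_cases hl : l'' = σ l w
      · exact Filter.Eventually.of_forall fun w' h2 => absurd hl h2
      · have hne : Y l (w + 2 * Real.pi * I) - Y l'' w ≠ 0 := by
          rw [hσ l w hw', sub_ne_zero]
          intro h3
          exact hl ((hY w hw').2.1 h3).symm
        have c1 : ContinuousAt (fun w' : ℂ => Y l (w' + 2 * Real.pi * I)) w := by
          have h4 := ((hY (w + 2 * Real.pi * I) (by rw [hre]; exact hw')).1 l).continuousAt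
          exact ContinuousAt.comp (f := fun w' : ℂ => w' + 2 * Real.pi * I) h4
            (continuousAt_id.add continuousAt_const)
        have c2 : ContinuousAt (fun w' : ℂ => Y l'' w') w := ((hY w hw').1 l'').continuousAt
        have h5 := (c1.sub c2).eventually_ne hne
        filter_upwards [h5] with w' h6 _ h7
        exact h6 (sub_eq_zero.2 h7)
    have h2 : ∀ᶠ w' in 𝓝[{w : ℂ | r < w.re}] w, σ l w' = σ l w := by
      have h3 := Filter.eventually_all.2 h1
      filter_upwards [nhdsWithin_le_nhds h3, self_mem_nhdsWithin] with w' h4 h5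
      by_contra h6
      exact h4 (σ l w') h6 (hσ l w' h5)
    exact (continuousWithinAt_const.congr_of_eventuallyEq h2 rfl)
  have hconn : IsPreconnected {w : ℂ | r < w.re} := (convex_halfSpace_re_gt r).isPreconnected
  have hw0 : r < ((r + 1 : ℝ) : ℂ).re := by
    rw [Complex.ofReal_re]
    linarith
  have hc : ∀ l (w : ℂ), r < w.re → Y l (w + 2 * Real.pi * I) = Y (σ l ((r + 1 : ℝ) : ℂ)) w := by
    intro l w hw
    rw [hσ l w hw, hconn.constant (hcont l) hw hw0]
  have hinj : Function.Injective fun l => σ l ((r + 1 : ℝ) : ℂ) := by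
    intro l l' h1
    have h2 := hc l _ hw0
    have h3 := hc l' _ hw0
    have h1' : σ l ((r + 1 : ℝ) : ℂ) = σ l' ((r + 1 : ℝ) : ℂ) := h1
    rw [h1', ← h3] at h2
    exact (hY (((r + 1 : ℝ) : ℂ) + 2 * Real.pi * I) (by rw [hre]; exact hw0)).2.1 h2
  let p : Equiv.Perm (Fin M.natDegree) :=
    Equiv.ofBijective _ (Finite.injective_iff_bijective.1 hinj)
  have hp : ∀ l (w : ℂ), r < w.re → Y l (w + 2 * Real.pi * I) = Y (p l) w := hc
  have hit : ∀ (n : ℕ) l (w : ℂ), r < w.re →
      Y l (w + 2 * Real.pi * I * n) = Y ((p ^ n) l) w := by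
    intro n
    induction n with
    | zero =>
      intro l w _
      rw [Nat.cast_zero, mul_zero, add_zero, pow_zero, Equiv.Perm.one_apply]
    | succ n ih =>
      intro l w hw
      have h1 : w + 2 * Real.pi * I * ((n + 1 : ℕ) : ℂ) =
          (w + 2 * Real.pi * I * n) + 2 * Real.pi * I := by
        push_cast
        ring
      have h2 : r < (w + 2 * Real.pi * I * n).re := by
        have h3 : (w + 2 * Real.pi * I * n).re = w.re := by simp
        rw [h3]
        exact hw
      rw [h1, hp l _ h2, ih (p l) w hw, pow_succ, Equiv.Perm.mul_apply]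
  refine ⟨orderOf p, orderOf_pos p, fun l w hw => ?_⟩
  rw [hit (orderOf p) l w hw, pow_orderOf_eq_one, Equiv.Perm.one_apply]

end Pool.Agent.Helper94.AXG
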