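import Pool.Agent.Helper94.AXG.Defs

/-! # AXG-E5C -/

namespace Pool.Agent.Helper94.AXG

open Complex Filter Topology

private theorem E5C_per {f : ℂ → ℂ} {r : ℝ} {e : ℕ}
    (hp : ∀ w : ℂ, r < w.re → f (w + 2 * Real.pi * I * e) = f w) (n : ℤ) (w : ℂ)
    (hw : r < w.re) : f (w + (n : ℂ) * (2 * Real.pi * I * e)) = f w := by
  have hre : ∀ m : ℂ, m.im = 0 → (w + m * (2 * Real.pi * I * e)).re = w.re := by
    intro m hm
    simp [hm]
  induction n using Int.induction_on with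
  | zero => simp
  | succ i ih =>
    have h := hp (w + ((i : ℤ) : ℂ) * (2 * Real.pi * I * e)) (by rw [hre _ (by simp)]; exact hw)
    rw [← ih, ← h]
    congr 1
    push_cast
    ring
  | pred i ih =>
    have h := hp (w + ((-(i : ℤ) - 1 : ℤ) : ℂ) * (2 * Real.pi * I * e))
      (by rw [hre _ (by simp)]; exact hw)
    rw [← ih, ← h]
    congr 1
    push_cast
    ring

/-- AXG-E5c: descent to a punctured disc. Proof. `f(w)` analytic for `Re w > r`, periodic with period
`2πi e`, and `‖f w‖ ≤ B exp (N Re w)`. Put `g₀(s) = f(-e log s)` for small `s ≠ 0` (then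
`Re (-e log s) = -e log ‖s‖` is large). It is analytic off the negative axis, and also there: near a
negative `s₁` use `log s + 2πi` on the lower side, i.e. `g₀(s) = f(-e (log(-s) + iπ))` near `s₁` by
periodicity. `‖g₀(s)‖ ≤ B ‖s‖^(-e N)`. So `s^(eN) g₀(s)` is bounded and extends analytically to `0`. And
`exp (-e log s) = 1 / s^e`. -/
theorem descend {f : ℂ → ℂ} {r B : ℝ} {N e : ℕ} (he : 1 ≤ e) (hf : ∀ w : ℂ, r < w.re → AnalyticAt ℂ f w)
    (hp : ∀ w : ℂ, r < w.re → f (w + 2 * Real.pi * I * e) = f w)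
    (hb : ∀ w : ℂ, r < w.re → ‖f w‖ ≤ B * Real.exp (N * w.re)) :
    ∃ g : ℂ → ℂ, AnalyticAt ℂ g 0 ∧ ∀ᶠ s in 𝓝[≠] (0 : ℂ),
      f (-(e : ℂ) * log s) = g s / s ^ (e * N) := by
  set δ : ℝ := Real.exp (-(|r| + 1)) with hδ
  have hδ0 : 0 < δ := Real.exp_pos _
  have hre : ∀ s : ℂ, s ≠ 0 → ‖s‖ < δ → r < (-(e : ℂ) * log s).re := by
    intro s hs0 hs
    have h0 : 0 < ‖s‖ := norm_pos_iff.2 hs0
    have h1 : Real.log ‖s‖ < -(|r| + 1) := (Real.log_lt_iff_lt_exp h0).2 hs
    have h2 : (-(e : ℂ) * log s).re = (e : ℝ) * (-Real.log ‖s‖) := by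
      rw [← Complex.ofReal_natCast, ← Complex.ofReal_neg, Complex.re_ofReal_mul, Complex.log_re]
      ring
    have h3 : (1 : ℝ) ≤ (e : ℝ) := by exact_mod_cast he
    have h4 : |r| + 1 < -Real.log ‖s‖ := by linarith
    have h5 : -Real.log ‖s‖ ≤ (e : ℝ) * (-Real.log ‖s‖) := by
      have h6 : 0 ≤ -Real.log ‖s‖ := by
        have := abs_nonneg r
        linarith
      nlinarith
    rw [h2]
    have := le_abs_self r
    linarith
  have hdf : ∀ s₁ : ℂ, s₁ ≠ 0 → ‖s₁‖ < δ →
      DifferentiableAt ℂ (fun s => f (-(e : ℂ) * log s)) s₁ := by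
    intro s₁ h0 h1
    have hev : (fun s => f (-(e : ℂ) * log s)) =ᶠ[𝓝 s₁]
        fun s => f (-(e : ℂ) * (log (s / s₁) + log s₁)) := by
      have e1 : ∀ᶠ s in 𝓝 s₁, s ≠ 0 := eventually_ne_nhds h0
      have e2 : ∀ᶠ s in 𝓝 s₁, ‖s‖ < δ := (continuous_norm.tendsto s₁).eventually_lt_const h1
      filter_upwards [e1, e2] with s hs0 hs1
      have h3 : exp (log s) = exp (log (s / s₁) + log s₁) := by
        rw [exp_log hs0, exp_add, exp_log (div_ne_zero hs0 h0), exp_log h0, div_mul_cancel₀ _ h0]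
      obtain ⟨n, hn⟩ := Complex.exp_eq_exp_iff_exists_int.1 h3
      have h4 : (-(e : ℂ) * log s) = -(e : ℂ) * (log (s / s₁) + log s₁) +
          ((-n : ℤ) : ℂ) * (2 * Real.pi * I * e) := by
        rw [hn]
        push_cast
        ring
      have h5 : (-(e : ℂ) * log s).re = (-(e : ℂ) * (log (s / s₁) + log s₁)).re := by
        rw [h4]
        simp
      have h6 := hre s hs0 hs1
      rw [h5] at h6
      rw [h4]
      exact E5C_per hp (-n) _ h6
    refine DifferentiableAt.congr_of_eventuallyEq ?_ hev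
    have h7 : DifferentiableAt ℂ (fun s : ℂ => -(e : ℂ) * (log (s / s₁) + log s₁)) s₁ := by
      refine DifferentiableAt.const_mul (DifferentiableAt.add_const _ ?_) _
      refine DifferentiableAt.clog (differentiableAt_id.div_const _) ?_
      change s₁ / s₁ ∈ slitPlane
      rw [div_self h0]
      exact Complex.one_mem_slitPlane
    have h8 : DifferentiableAt ℂ f (-(e : ℂ) * (log (s₁ / s₁) + log s₁)) := by
      refine (hf _ ?_).differentiableAt
      rw [div_self h0, log_one, zero_add]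
      exact hre s₁ h0 h1
    exact DifferentiableAt.comp s₁ h8 h7
  set G : ℂ → ℂ := fun s => s ^ (e * N) * f (-(e : ℂ) * log s) with hG
  have hGd : DifferentiableOn ℂ G (Metric.ball 0 δ \ {0}) := by
    intro s hs
    have hs1 : ‖s‖ < δ := by simpa using hs.1
    exact ((differentiableAt_id.pow _).mul (hdf s hs.2 hs1)).differentiableWithinAt
  have hGb : BddAbove (norm ∘ G '' (Metric.ball 0 δ \ {0})) := by
    refine ⟨B, ?_⟩
    rintro _ ⟨s, hs, rfl⟩
    have hs1 : ‖s‖ < δ := by simpa using hs.1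
    have h0 : 0 < ‖s‖ := norm_pos_iff.2 hs.2
    have h1 := hb _ (hre s hs.2 hs1)
    have h2 : (-(e : ℂ) * log s).re = -((e : ℝ) * Real.log ‖s‖) := by
      rw [← Complex.ofReal_natCast, ← Complex.ofReal_neg, Complex.re_ofReal_mul, Complex.log_re]
      ring
    have h3 : Real.exp (N * (-(e : ℂ) * log s).re) = (‖s‖ ^ (e * N))⁻¹ := by
      rw [h2]
      conv_rhs => rw [← Real.exp_log h0]
      rw [← Real.exp_nat_mul, ← Real.exp_neg]
      congr 1
      push_cast
      ring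
    rw [h3] at h1
    have h4 : 0 < ‖s‖ ^ (e * N) := pow_pos h0 _
    change ‖s ^ (e * N) * f (-(e : ℂ) * log s)‖ ≤ B
    rw [norm_mul, norm_pow]
    calc ‖s‖ ^ (e * N) * ‖f (-(e : ℂ) * log s)‖ ≤ ‖s‖ ^ (e * N) * (B * (‖s‖ ^ (e * N))⁻¹) :=
          mul_le_mul_of_nonneg_left h1 h4.le
      _ = B := by field_simp
  have hball : Metric.ball (0 : ℂ) δ ∈ 𝓝 (0 : ℂ) := Metric.ball_mem_nhds 0 hδ0
  have hg := Complex.differentiableOn_update_limUnder_of_bddAbove hball hGd hGb
  refine ⟨_, hg.analyticAt hball, ?_⟩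
  filter_upwards [self_mem_nhdsWithin] with s hs
  have hs0 : s ≠ 0 := hs
  rw [Function.update_of_ne hs0, hG]
  field_simp

end Pool.Agent.Helper94.AXG
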