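import Pool.Agent.Helper94.AXG.E5A
import Pool.Agent.Helper94.AXG.E5B
import Pool.Agent.Helper94.AXG.E5C
import Pool.Agent.Helper94.AXG.E1C

/-! # AXG-E5D -/

namespace Pool.Agent.Helper94.AXG

open Complex Filter Topology

/-- AXG-E5d. Proof. E5a (`r` large, so that `exp w ∉ S` for `Re w > r`), E5b, and E5c with the bound
`root_bound`: `‖Y l w‖ ≤ C (1 + e^{Re w})^N ≤ C 2^N e^{N Re w}` for `Re w ≥ 0`. The roots at
`t = 1/s^e = exp (-e log s)` are the `Y l (-e log s)`. -/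
theorem puiseux_infty {M : Polynomial (Polynomial ℂ)} (hM : M.Monic) (S : Finset ℂ)
    (hS : ∀ t, t ∉ S → ∀ y, ev2 M t y = 0 → ev2 (Polynomial.derivative M) t y ≠ 0) :
    ∃ (e N : ℕ) (g : Fin M.natDegree → ℂ → ℂ), 1 ≤ e ∧ (∀ l, AnalyticAt ℂ (g l) 0) ∧
      ∀ᶠ s in 𝓝[≠] (0 : ℂ), Function.Injective (fun l => g l s / s ^ N) ∧
        ∀ y, ev2 M (1 / s ^ e) y = 0 ↔ ∃ l, y = g l s / s ^ N := by
  obtain ⟨B, hB⟩ : ∃ B : ℝ, ∀ t ∈ S, ‖t‖ ≤ B :=
    ⟨∑ t ∈ S, ‖t‖, fun t ht => Finset.single_le_sum (f := fun t : ℂ => ‖t‖)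
      (fun _ _ => norm_nonneg _) ht⟩
  have hmx : 0 < max B 1 := lt_of_lt_of_le one_pos (le_max_right _ _)
  obtain ⟨r, hr0, hr1⟩ : ∃ r : ℝ, 0 ≤ r ∧ Real.log (max B 1) = r :=
    ⟨_, Real.log_nonneg (le_max_right _ _), rfl⟩
  have hr : ∀ w : ℂ, r < w.re → exp w ∉ S := by
    intro w hw hmem
    have h1 := hB _ hmem
    rw [Complex.norm_exp] at h1
    have h2 : max B 1 < Real.exp w.re := by
      rw [← Real.log_lt_iff_lt_exp hmx, hr1]
      exact hw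
    linarith [le_max_left B 1]
  obtain ⟨Y, hY⟩ := half_plane_roots hM S hS hr
  obtain ⟨e, he, hp⟩ := roots_periodic hY
  obtain ⟨C, N, hC⟩ := root_bound hM
  have hb : ∀ l, ∀ w : ℂ, r < w.re → ‖Y l w‖ ≤ (|C| * 2 ^ N) * Real.exp (N * w.re) := by
    intro l w hw
    have h1 := hC (exp w) (Y l w) (((hY w hw).2.2 _).2 ⟨l, rfl⟩)
    rw [Complex.norm_exp] at h1
    have h3 : (1 : ℝ) ≤ Real.exp w.re := Real.one_le_exp (by linarith)
    have h2 : (1 + Real.exp w.re) ^ N ≤ (2 * Real.exp w.re) ^ N :=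
      pow_le_pow_left₀ (by positivity) (by linarith) N
    calc ‖Y l w‖ ≤ C * (1 + Real.exp w.re) ^ N := h1
      _ ≤ |C| * (1 + Real.exp w.re) ^ N :=
        mul_le_mul_of_nonneg_right (le_abs_self C) (by positivity)
      _ ≤ |C| * (2 * Real.exp w.re) ^ N := mul_le_mul_of_nonneg_left h2 (abs_nonneg C)
      _ = _ := by rw [mul_pow, Real.exp_nat_mul]; ring
  choose g hg hg' using fun l => descend he (fun w hw => (hY w hw).1 l) (hp l) (hb l)
  refine ⟨e, e * N, g, he, hg, ?_⟩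
  have hall : ∀ᶠ s in 𝓝[≠] (0 : ℂ), ∀ l, Y l (-(e : ℂ) * log s) = g l s / s ^ (e * N) :=
    Filter.eventually_all.2 hg'
  have hre : ∀ᶠ s in 𝓝[≠] (0 : ℂ), r < (-(e : ℂ) * log s).re := by
    have h1 : ∀ᶠ s in 𝓝[≠] (0 : ℂ), ‖s‖ < Real.exp (-(r + 1)) := by
      have h2 : Metric.ball (0 : ℂ) (Real.exp (-(r + 1))) ∈ 𝓝[≠] (0 : ℂ) :=
        mem_nhdsWithin_of_mem_nhds (Metric.ball_mem_nhds _ (Real.exp_pos _))
      filter_upwards [h2] with s hs
      simpa using hs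
    filter_upwards [h1, self_mem_nhdsWithin] with s hs hs0
    have h3 : Real.log ‖s‖ < -(r + 1) := (Real.log_lt_iff_lt_exp (norm_pos_iff.2 hs0)).2 hs
    have h4 : (-(e : ℂ) * log s).re = -(e : ℝ) * Real.log ‖s‖ := by
      have : (-(e : ℂ)) = ((-(e : ℝ) : ℝ) : ℂ) := by push_cast; rfl
      rw [this, Complex.re_ofReal_mul, Complex.log_re]
    rw [h4]
    have h5 : (1 : ℝ) ≤ e := by exact_mod_cast he
    nlinarith
  filter_upwards [hall, hre, self_mem_nhdsWithin] with s hs hsr hs0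
  have hex : exp (-(e : ℂ) * log s) = 1 / s ^ e := by
    rw [neg_mul, Complex.exp_neg, Complex.exp_nat_mul, Complex.exp_log hs0, one_div]
  have h := hY _ hsr
  rw [hex] at h
  simp only [hs] at h
  exact ⟨h.2.1, h.2.2⟩

end Pool.Agent.Helper94.AXG
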