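import Pool.Agent.Helper94.AXG.E5D

/-! # AXG-E6 -/

namespace Pool.Agent.Helper94.AXG

open Complex Filter Topology

/-- the data of the branches at infinity -/
def Puis {k : ℕ} (c : Crv k) (e N : ℕ) (g : Fin c.M.natDegree → ℂ → ℂ) : Prop :=
  1 ≤ e ∧ (∀ l, AnalyticAt ℂ (g l) 0) ∧
    ∀ᶠ s in 𝓝[≠] (0 : ℂ), 1 / s ^ e ∉ c.S ∧ Function.Injective (fun l => g l s / s ^ N) ∧
      ∀ y, ev2 c.M (1 / s ^ e) y = 0 ↔ ∃ l, y = g l s / s ^ N

/-- AXG-E6a: `puiseux_infty`; `1/s^e` avoids the finite set `S` -/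
theorem exists_Puis {k : ℕ} (c : Crv k) : ∃ (e N : ℕ) (g : Fin c.M.natDegree → ℂ → ℂ), Puis c e N g := by
  obtain ⟨e, N, g, h1, h2, h3⟩ := puiseux_infty c.monic c.S c.hS
  refine ⟨e, N, g, h1, h2, ?_⟩
  have hp : Tendsto (fun s : ℂ => s ^ e) (𝓝[≠] 0) (𝓝[≠] 0) := by
    refine tendsto_nhdsWithin_iff.2 ⟨?_, ?_⟩
    · have h4 : Tendsto (fun s : ℂ => s ^ e) (𝓝 0) (𝓝 (0 ^ e)) :=
        (continuous_pow e).tendsto 0
      rw [zero_pow (by omega)] at h4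
      exact h4.mono_left nhdsWithin_le_nhds
    · filter_upwards [self_mem_nhdsWithin] with s hs
      exact pow_ne_zero e hs
  have hi : Tendsto (fun s : ℂ => (s ^ e)⁻¹) (𝓝[≠] 0) (Bornology.cobounded ℂ) :=
    tendsto_inv₀_nhdsNE_zero.comp hp
  have hS : ((c.S : Set ℂ))ᶜ ∈ Bornology.cobounded ℂ :=
    Bornology.isBounded_def.1 c.S.finite_toSet.isBounded
  filter_upwards [h3, hi hS] with s hs hs'
  refine ⟨?_, hs⟩
  rw [one_div]
  exact fun h => hs' h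

end Pool.Agent.Helper94.AXG
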