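import Pool.Agent.Helper94.AXG.E6C
import Pool.Agent.Helper94.AXG.C11
import Pool.Agent.Helper94.AXG.D4

/-! # AXG-E7 -/

namespace Pool.Agent.Helper94.AXG

open Complex Filter Topology

private theorem E7_U_an (z : ℂ) : AnalyticAt ℂ U z := by
  have h : Differentiable ℂ U := Complex.differentiable_one_div_Gamma
  exact h.analyticAt z

private theorem E7_X_an {k : ℕ} (c : Crv k) (j : Fin k) (z : ℂ × ℂ) (hz : z.1 ∉ c.S) :
    AnalyticAt ℂ (fun z : ℂ × ℂ => c.X j z.1 z.2) z := by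
  unfold Crv.X
  refine (ev2_analytic _ z).div ?_ (c.hD _ hz)
  exact ((c.D.differentiable).analyticAt z.1).comp (f := Prod.fst) analyticAt_fst

private theorem E7_eval_an {k : ℕ} (c : Crv k) (P : MvPolynomial (Fin k) ℂ) (z : ℂ × ℂ)
    (hz : z.1 ∉ c.S) :
    AnalyticAt ℂ (fun z : ℂ × ℂ => MvPolynomial.eval (fun j => U (c.X j z.1 z.2)) P) z := by
  simp only [MvPolynomial.eval_eq]
  refine Finset.analyticAt_fun_sum _ fun d _ => analyticAt_const.mul ?_
  refine Finset.analyticAt_fun_prod _ fun j _ => AnalyticAt.pow ?_ _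
  exact (E7_U_an _).comp (E7_X_an c j z hz)

private theorem E7_An_X {k : ℕ} (c : Crv k) {e N : ℕ} {g : Fin c.M.natDegree → ℂ → ℂ}
    (hP : Puis c e N g) (l : Fin c.M.natDegree) (j : Fin k) :
    An (fun s => c.X j (1 / s ^ e) (g l s / s ^ N)) := by
  obtain ⟨-, hg, hs⟩ := hP
  have h1 : ∀ᶠ s in 𝓝[≠] (0 : ℂ), AnalyticAt ℂ (g l) s :=
    (hg l).eventually_analyticAt.filter_mono nhdsWithin_le_nhds
  filter_upwards [h1, hs, self_mem_nhdsWithin] with s h2 h3 h4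
  have h5 : s ≠ 0 := h4
  have h6 : AnalyticAt ℂ (fun s : ℂ => ((1 / s ^ e, g l s / s ^ N) : ℂ × ℂ)) s :=
    (analyticAt_const.div (analyticAt_id.pow e) (pow_ne_zero e h5)).prod
      (h2.div (analyticAt_id.pow N) (pow_ne_zero N h5))
  exact AnalyticAt.comp (f := fun s : ℂ => ((1 / s ^ e, g l s / s ^ N) : ℂ × ℂ)) (x := s)
    (E7_X_an c j (1 / s ^ e, g l s / s ^ N) h3.1) h6

private theorem E7_Pt {k : ℕ} (c : Crv k) {e N : ℕ} {g : Fin c.M.natDegree → ℂ → ℂ}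
    (hP : Puis c e N g) (l : Fin c.M.natDegree) :
    ∀ᶠ s in 𝓝[≠] (0 : ℂ), c.Pt (1 / s ^ e) (g l s / s ^ N) := by
  filter_upwards [hP.2.2] with s hs
  exact ⟨hs.1, (hs.2.2 _).2 ⟨l, rfl⟩⟩

/-- AXG-E7a: one elimination step. `P` is a polynomial in the variables `J`, `T ⊆ J` the variables whose
functions have a pole of the maximal order `K ≥ 1` on the branch `l`. Write
`P = ∑_γ P_γ ∏_{i ∈ T} X_i^(D - γ_i)` (`D` ≥ all exponents of `P`; `P_γ` a polynomial in the variables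
`J ∖ T`). Proof. On the branch `l` let `ξ_i(s) = X_i(1/s^e, g_l(s)/s^N)`. The functions
`p_γ(s) = P_γ(U(ξ_j(s)) : j ∈ J ∖ T)` are of zero type at level `K`: for `j ∈ J ∖ T` the function `ξ_j` is
bounded or has a pole of order `< K` (`hlow`), `Zt_U`; sums and products (C1). The relation
`∑ p_γ ∏ U(ξ_i)^(D-γ_i) = 0` (index type the subtype of `T`) and `local_AL`: either all `p_γ` are `Ze`, or
there is `m ≠ 0` with the matching property, which contradicts `no_matching` (its hypothesis `H2` follows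
from `H2` here and `branch_all` with `G = M X_i - M' X_j - c`). So all `p_γ` are `Ze`, and `branch_all` (with
`G = P_γ(U(X_j))`, analytic because `U` is entire) gives the conclusion. -/
theorem elim_step {k : ℕ} (c : Crv k) {e N : ℕ} {g : Fin c.M.natDegree → ℂ → ℂ} (hP : Puis c e N g)
    (l : Fin c.M.natDegree) (J T : Finset (Fin k)) (hTJ : T ⊆ J) (K : ℕ) (hK : 1 ≤ K)
    (hT : ∀ i ∈ T, ∃ h : ℂ → ℂ, Pl K (fun s => c.X i (1 / s ^ e) (g l s / s ^ N)) h)
    (hlow : ∀ j ∈ J, j ∉ T → ∃ N' : ℕ, N' < K ∧ ∃ b : ℝ, ∀ᶠ s in 𝓝[≠] (0 : ℂ),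
      ‖c.X j (1 / s ^ e) (g l s / s ^ N)‖ ≤ b / ‖s‖ ^ N')
    (q : ℕ) (hq : 1 ≤ q) (a : Fin k → ℤ) (hcop : ∀ i ∈ J, IsCoprime (a i) (q : ℤ))
    (hdist : ∀ i ∈ J, ∀ j ∈ J, i ≠ j → ¬ (q : ℤ) ∣ a i - a j ∧ ¬ (q : ℤ) ∣ a i + a j)
    (H2 : ∀ i ∈ J, ∀ j ∈ J, ∀ (M M' : ℤ) (b : ℂ), M ≠ 0 → M' ≠ 0 →
      (∀ t y, c.Pt t y → M * c.X i t y - M' * c.X j t y = b) →
      ((M * a i - M' * a j : ℤ) : ℂ) / q = b)
    (D : ℕ) (P : (T → Fin (D + 1)) → MvPolynomial (Fin k) ℂ) (hv : ∀ γ, ((P γ).vars : Set (Fin k)) ⊆ J \ T)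
    (hrel : ∀ t y, c.Pt t y →
      ∑ γ, MvPolynomial.eval (fun j => U (c.X j t y)) (P γ) *
        ∏ i : T, U (c.X i t y) ^ (D - (γ i : ℕ)) = 0) :
    ∀ γ, ∀ t y, c.Pt t y → MvPolynomial.eval (fun j => U (c.X j t y)) (P γ) = 0 := by
  classical
  choose h hh using fun i : T => hT i.1 i.2
  have hZt : ∀ γ, Zt K (fun s => MvPolynomial.eval
      (fun j => U (c.X j (1 / s ^ e) (g l s / s ^ N))) (P γ)) := by
    intro γ
    simp only [MvPolynomial.eval_eq]
    refine Zt_sum hK _ fun d hd => Zt_mul (Zt_const hK _) (Zt_prod hK _ fun j hj => Zt_pow hK ?_ _)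
    have hj' : j ∈ J ∧ j ∉ T := by
      have h1 : j ∈ (P γ).vars := (MvPolynomial.mem_vars_iff_mem_support j).2 ⟨d, hd, hj⟩
      simpa using hv γ h1
    obtain ⟨N', hN', b, hb⟩ := hlow j hj'.1 hj'.2
    exact Zt_U hN' (E7_An_X c hP l j) hb
  have hRl : Rl (T := T) (fun i s => c.X i (1 / s ^ e) (g l s / s ^ N)) D
      (fun γ s => MvPolynomial.eval
        (fun j => U (c.X j (1 / s ^ e) (g l s / s ^ N))) (P γ)) := by
    unfold Rl
    filter_upwards [E7_Pt c hP l] with s hs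
    exact hrel _ _ hs
  have hZe : ∀ γ, Ze (fun s => MvPolynomial.eval
      (fun j => U (c.X j (1 / s ^ e) (g l s / s ^ N))) (P γ)) := by
    by_contra hne
    push Not at hne
    obtain ⟨m, hm0, hm⟩ := local_AL hK _ h hh D _ hZt hRl hne
    refine no_matching hK _ h hh m hm0 hm q hq (fun i => a i) (fun i => hcop i (hTJ i.2)) ?_ ?_
    · intro i j hij
      exact hdist i (hTJ i.2) j (hTJ j.2) (fun hc => hij (Subtype.ext hc))
    · intro i j M M' b hM hM' hb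
      refine H2 i (hTJ i.2) j (hTJ j.2) M M' b hM hM' fun t y hty => ?_
      have h1 := branch_all c hP l
        (fun z => (M : ℂ) * c.X i z.1 z.2 - (M' : ℂ) * c.X j z.1 z.2 - b)
        (fun z hz => ((analyticAt_const.mul (E7_X_an c i z hz)).sub
          (analyticAt_const.mul (E7_X_an c j z hz))).sub analyticAt_const)
        (by filter_upwards [hb] with s hs; rw [hs, sub_self]) t y hty
      exact sub_eq_zero.1 h1
  intro γ t y hty
  exact branch_all c hP l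
    (fun z => MvPolynomial.eval (fun j => U (c.X j z.1 z.2)) (P γ))
    (fun z hz => E7_eval_an c (P γ) z hz) (hZe γ) t y hty

end Pool.Agent.Helper94.AXG
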