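import Pool.Agent.Helper94.AXG.Defs

/-!
# Project AXG: curves over the `t`-line

`ev2 P t y` is the value at `(t, y)` of a polynomial in `Y` with coefficients in `ℂ[t]`. A `Crv k` is an
irreducible monic polynomial `M(t, Y)` together with `k` functions `X_j = R_j(t, Y) / D(t)` on the curve
`M = 0`, integral over `ℂ[t]` (they are roots of the monic `h_j`), and a finite set `S` outside of which `D`
does not vanish and the roots of `M(t, ·)` are simple.
-/

namespace Pool.Agent.Helper94.AXG

open Complex Filter Topology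

/-- the value at `(t, y)` -/
noncomputable def ev2 (P : Polynomial (Polynomial ℂ)) (t y : ℂ) : ℂ :=
  (P.map (Polynomial.evalRingHom t)).eval y

/-- a curve with `k` integral functions -/
structure Crv (k : ℕ) where
  /-- the equation -/
  M : Polynomial (Polynomial ℂ)
  monic : M.Monic
  irr : Irreducible M
  /-- the numerators -/
  R : Fin k → Polynomial (Polynomial ℂ)
  /-- the common denominator -/
  D : Polynomial ℂ
  /-- the exceptional values of `t` -/
  S : Finset ℂ
  hD : ∀ t, t ∉ S → D.eval t ≠ 0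
  hS : ∀ t, t ∉ S → ∀ y, ev2 M t y = 0 → ev2 (Polynomial.derivative M) t y ≠ 0
  /-- the integral equations -/
  h : Fin k → Polynomial (Polynomial ℂ)
  hmonic : ∀ j, (h j).Monic
  hh : ∀ j t, t ∉ S → ∀ y, ev2 M t y = 0 → ev2 (h j) t (ev2 (R j) t y / D.eval t) = 0

/-- the `j`-th function of the curve -/
noncomputable def Crv.X {k : ℕ} (c : Crv k) (j : Fin k) (t y : ℂ) : ℂ := ev2 (c.R j) t y / c.D.eval t

/-- `(t, y)` is a (good) point of the curve -/
def Crv.Pt {k : ℕ} (c : Crv k) (t y : ℂ) : Prop := t ∉ c.S ∧ ev2 c.M t y = 0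

/-- a finite set depending on `t ∉ S` which is locally a disjoint union of graphs of analytic functions -/
def Loc (S : Finset ℂ) (W : ℂ → Finset ℂ) : Prop :=
  ∀ t₁, t₁ ∉ S → ∃ ε : ℝ, 0 < ε ∧ ∃ (n : ℕ) (φ : Fin n → ℂ → ℂ),
    (∀ l, ∀ t ∈ Metric.ball t₁ ε, AnalyticAt ℂ (φ l) t) ∧
    ∀ t ∈ Metric.ball t₁ ε, Function.Injective (fun l => φ l t) ∧
      W t = Finset.univ.image (fun l => φ l t)

end Pool.Agent.Helper94.AXG
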