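import Pool.Agent.Helper94.AXG.FDefs

/-! # AXG-F1 -/

namespace Pool.Agent.Helper94.AXG

open MvPolynomial

/-- a polynomial which vanishes on a ball is zero -/
private theorem f1_ball {r : ℕ} {g : MvPolynomial (Fin r) ℂ} {v₀ : Fin r → ℂ} {ε : ℝ} (hε : 0 < ε)
    (h : ∀ v ∈ Metric.ball v₀ ε, eval v g = 0) : g = 0 := by
  refine funext_set (fun i => Metric.ball (v₀ i) ε) (fun i => ?_) (fun x hx => ?_)
  · exact infinite_of_mem_nhds (v₀ i) (Metric.ball_mem_nhds (v₀ i) hε)
  · rw [map_zero]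
    refine h x ?_
    rw [Metric.mem_ball, dist_pi_lt_iff hε]
    intro i
    exact Metric.mem_ball.1 (hx i (Set.mem_univ i))

/-- AXG-F1a: countably many nonzero polynomials have a common point of non-vanishing. Proof. Baire: the sets
`{v : eval v g ≠ 0}` are open, and dense (a polynomial which vanishes on a nonempty open set, hence on a
product of infinite sets, is zero: `MvPolynomial.funext_set` or induction on `r`);
`dense_iInter_of_isOpen`. -/
theorem exists_generic {r : ℕ} {B : Type} [Countable B] (g : B → MvPolynomial (Fin r) ℂ)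
    (hg : ∀ b, g b ≠ 0) : ∃ v : Fin r → ℂ, ∀ b, eval v (g b) ≠ 0 := by
  have h1 : ∀ b, IsOpen {v : Fin r → ℂ | eval v (g b) ≠ 0} := fun b =>
    isOpen_ne_fun (MvPolynomial.continuous_eval (g b)) continuous_const
  have h2 : ∀ b, Dense {v : Fin r → ℂ | eval v (g b) ≠ 0} := by
    intro b
    rw [Metric.dense_iff]
    intro v₀ ε hε
    by_contra hcon
    rw [Set.not_nonempty_iff_eq_empty] at hcon
    refine hg b (f1_ball (v₀ := v₀) hε fun v hv => ?_)
    by_contra hne
    have h3 : v ∈ Metric.ball v₀ ε ∩ {v : Fin r → ℂ | eval v (g b) ≠ 0} := ⟨hv, hne⟩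
    rw [hcon] at h3
    exact h3
  obtain ⟨v, hv⟩ := (dense_iInter_of_isOpen h1 h2).nonempty
  exact ⟨v, fun b => Set.mem_iInter.1 hv b⟩

end Pool.Agent.Helper94.AXG
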