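import Pool.Agent.Helper94.AXG.F1

/-! # AXG-F1B -/

namespace Pool.Agent.Helper94.AXG

open MvPolynomial

/-- AXG-F1b: a generic line through `p`. Proof. For every `(i, j, M, M')` in the second case of the dichotomy
choose `χ`; `χ` is monic, so the polynomial `χ(p, T)` is nonzero and has finitely many roots `c`. The
polynomials `χ(·, c) = χ.eval (C c)`, for these countably many `(i, j, M, M', c)`, are nonzero, so there is
`w` with `eval w (χ.eval (C c)) ≠ 0` for all of them; let `v = w - p`. If `χ(p + t v, c) = 0` for all `t`, then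
`t = 0` shows that `c` is one of the roots and `t = 1` gives a contradiction. -/
theorem exists_line {r k : ℕ} (A : Matrix (Fin r) (Fin k) ℤ) (I : Ideal (MvPolynomial (Fin k) ℂ))
    (hd : ∀ (i j : Fin k) (M M' : ℤ), Dich A I (lin2 i j (M : ℂ) (M' : ℂ))) (p : Fin r → ℂ) :
    ∃ v : Fin r → ℂ, ∀ (i j : Fin k) (M M' : ℤ), (∃ c : ℂ, lin2 i j (M : ℂ) (M' : ℂ) - C c ∈ I) ∨
      ∃ χ : Polynomial (MvPolynomial (Fin r) ℂ), χ.Monic ∧
        (χ.map (phi (R := ℂ) A).toRingHom).eval (lin2 i j (M : ℂ) (M' : ℂ)) ∈ I ∧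
        ∀ c : ℂ, ∃ t : ℂ, eval (fun l => p l + t * v l) (χ.eval (C c)) ≠ 0 := by
  classical
  let Q : Type := {q : Fin k × Fin k × ℤ × ℤ //
    ¬ ∃ c : ℂ, lin2 q.1 q.2.1 (q.2.2.1 : ℂ) (q.2.2.2 : ℂ) - C c ∈ I}
  have hQ : ∀ q : Q, ∃ χ : Polynomial (MvPolynomial (Fin r) ℂ), χ.Monic ∧
      (χ.map (phi (R := ℂ) A).toRingHom).eval
        (lin2 q.1.1 q.1.2.1 (q.1.2.2.1 : ℂ) (q.1.2.2.2 : ℂ)) ∈ I ∧
        ∀ c : ℂ, χ.eval (C c) ≠ 0 := fun q => (hd _ _ _ _).resolve_left q.2
  choose χ h1 h2 h3 using hQ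
  have hc : ∀ q : Q, Countable {c : ℂ // ((χ q).map (eval p)).IsRoot c} := fun q =>
    (Polynomial.finite_setOfPred_isRoot ((h1 q).map (eval p)).ne_zero).countable
  have hB : Countable (Σ q : Q, {c : ℂ // ((χ q).map (eval p)).IsRoot c}) := inferInstance
  obtain ⟨w, hw⟩ := exists_generic
    (fun b : Σ q : Q, {c : ℂ // ((χ q).map (eval p)).IsRoot c} => (χ b.1).eval (C b.2.1))
    (fun b => h3 b.1 b.2.1)
  refine ⟨fun l => w l - p l, fun i j M M' => ?_⟩
  by_cases hcase : ∃ c : ℂ, lin2 i j (M : ℂ) (M' : ℂ) - C c ∈ I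
  · exact Or.inl hcase
  · right
    let q : Q := ⟨(i, j, M, M'), hcase⟩
    refine ⟨χ q, h1 q, h2 q, fun c => ?_⟩
    by_cases hr : ((χ q).map (eval p)).IsRoot c
    · refine ⟨1, ?_⟩
      have e : (fun l => p l + 1 * (w l - p l)) = w := by
        funext l
        ring
      rw [e]
      exact hw ⟨q, c, hr⟩
    · refine ⟨0, ?_⟩
      have e : (fun l => p l + 0 * (w l - p l)) = p := by
        funext l
        ring
      rw [e]
      intro h0
      apply hr
      rw [Polynomial.IsRoot.def, Polynomial.eval_map]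
      have h4 := Polynomial.eval₂_at_apply (p := χ q) (eval p) (C c)
      rw [eval_C] at h4
      rw [h4]
      exact h0

end Pool.Agent.Helper94.AXG
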