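import Pool.Agent.Helper94.AXG.EDefs

/-!
# Project AXG: linear forms

`phi A` sends the variable `X_j`, `j < r`, to the linear form `∑_i A_{ji} X_i` in `k` variables; `sub A` is the
case `r = k`: `sub A f = f(A x)`.
-/

namespace Pool.Agent.Helper94.AXG

open MvPolynomial

/-- substitution of the linear forms with the rows of `A` -/
noncomputable def phi {r k : ℕ} {R : Type} [CommRing R] (A : Matrix (Fin r) (Fin k) ℤ) :
    MvPolynomial (Fin r) R →ₐ[R] MvPolynomial (Fin k) R :=
  aeval (fun j => ∑ i, C ((A j i : ℤ) : R) * X i)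

/-- the first `r` rows of `A` -/
def rows {r k : ℕ} (hrk : r ≤ k) (A : Matrix (Fin k) (Fin k) ℤ) : Matrix (Fin r) (Fin k) ℤ :=
  fun j i => A (Fin.castLE hrk j) i

/-- the vector `A x` -/
noncomputable def mv {r k : ℕ} (A : Matrix (Fin r) (Fin k) ℤ) (x : Fin k → ℂ) : Fin r → ℂ :=
  fun j => ∑ i, (A j i : ℂ) * x i

/-- the polynomial `M X_i - M' X_j` -/
noncomputable def lin2 {k : ℕ} {R : Type} [CommRing R] (i j : Fin k) (M M' : R) :
    MvPolynomial (Fin k) R := C M * X i - C M' * X j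

/-- the dichotomy for the element `ψ` modulo the ideal `I`: constant, or integral over the polynomials in
`A x` by an equation which no constant satisfies -/
def Dich {r k : ℕ} {R : Type} [CommRing R] (A : Matrix (Fin r) (Fin k) ℤ)
    (I : Ideal (MvPolynomial (Fin k) R)) (ψ : MvPolynomial (Fin k) R) : Prop :=
  (∃ c : R, ψ - C c ∈ I) ∨ ∃ χ : Polynomial (MvPolynomial (Fin r) R), χ.Monic ∧
    (χ.map (phi (R := R) A).toRingHom).eval ψ ∈ I ∧ ∀ c : R, χ.eval (C c) ≠ 0

/-- integrality of `ψ` modulo `I` over the polynomials in `A x` -/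
def Intg {r k : ℕ} {R : Type} [CommRing R] (A : Matrix (Fin r) (Fin k) ℤ)
    (I : Ideal (MvPolynomial (Fin k) R)) (ψ : MvPolynomial (Fin k) R) : Prop :=
  ∃ χ : Polynomial (MvPolynomial (Fin r) R), χ.Monic ∧ (χ.map (phi (R := R) A).toRingHom).eval ψ ∈ I

end Pool.Agent.Helper94.AXG
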