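import Pool.Agent.Helper94.AXG.GDefs

/-! # AXG-G1 -/

namespace Pool.Agent.Helper94.AXG

open MvPowerSeries Filter Topology

variable {ι κ : Type} [Fintype ι] [Fintype κ]

/-- AXG-G1 (routine) -/
theorem mr_add (ρ : ι → ℝ) (μ ν : ι →₀ ℕ) : mr ρ (μ + ν) = mr ρ μ * mr ρ ν := by
  unfold mr
  rw [← Finset.prod_mul_distrib]
  refine Finset.prod_congr rfl fun i _ => ?_
  rw [Finsupp.add_apply, pow_add]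

theorem mr_nonneg {ρ : ι → ℝ} (hρ : ∀ i, 0 ≤ ρ i) (ν : ι →₀ ℕ) : 0 ≤ mr ρ ν :=
  Finset.prod_nonneg fun i _ => pow_nonneg (hρ i) _

theorem mr_mono {ρ ρ' : ι → ℝ} (hρ' : ∀ i, 0 ≤ ρ' i) (h : ∀ i, ρ' i ≤ ρ i) (ν : ι →₀ ℕ) :
    mr ρ' ν ≤ mr ρ ν :=
  Finset.prod_le_prod (fun i _ => pow_nonneg (hρ' i) _) fun i _ => pow_le_pow_left₀ (hρ' i) (h i) _

theorem norm_mo (y : ι → ℂ) (ν : ι →₀ ℕ) : ‖mo y ν‖ = mr (fun i => ‖y i‖) ν := by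
  unfold mo mr
  rw [norm_prod]
  refine Finset.prod_congr rfl fun i _ => ?_
  rw [norm_pow]

private lemma g1_term {ρ ρ' : ι → ℝ} (hρ' : ∀ i, 0 ≤ ρ' i) (h : ∀ i, ρ' i ≤ ρ i)
    (f : MvPowerSeries ι ℂ) (ν : ι →₀ ℕ) :
    ‖coeff ν f‖ * mr ρ' ν ≤ ‖coeff ν f‖ * mr ρ ν :=
  mul_le_mul_of_nonneg_left (mr_mono hρ' h ν) (norm_nonneg _)

theorem Cv_mono {ρ ρ' : ι → ℝ} (hρ' : ∀ i, 0 ≤ ρ' i) (h : ∀ i, ρ' i ≤ ρ i) {f : MvPowerSeries ι ℂ}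
    (hf : Cv ρ f) : Cv ρ' f :=
  Summable.of_nonneg_of_le (fun ν => mul_nonneg (norm_nonneg _) (mr_nonneg hρ' ν))
    (fun ν => g1_term hρ' h f ν) hf

theorem nr_nonneg {ρ : ι → ℝ} (hρ : ∀ i, 0 ≤ ρ i) (f : MvPowerSeries ι ℂ) : 0 ≤ nr ρ f :=
  tsum_nonneg fun ν => mul_nonneg (norm_nonneg _) (mr_nonneg hρ ν)

theorem nr_mono {ρ ρ' : ι → ℝ} (hρ' : ∀ i, 0 ≤ ρ' i) (h : ∀ i, ρ' i ≤ ρ i) {f : MvPowerSeries ι ℂ}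
    (hf : Cv ρ f) : nr ρ' f ≤ nr ρ f :=
  Summable.tsum_le_tsum (fun ν => g1_term hρ' h f ν) (Cv_mono hρ' h hf) hf

theorem coeff_le {ρ : ι → ℝ} (hρ : ∀ i, 0 ≤ ρ i) {f : MvPowerSeries ι ℂ} (hf : Cv ρ f) (ν : ι →₀ ℕ) :
    ‖coeff ν f‖ * mr ρ ν ≤ nr ρ f :=
  Summable.le_tsum hf ν fun μ _ => mul_nonneg (norm_nonneg _) (mr_nonneg hρ μ)

end Pool.Agent.Helper94.AXG
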