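import Pool.Agent.Helper94.AXG.G1D

/-! # AXG-G10 -/

namespace Pool.Agent.Helper94.AXG

open MvPowerSeries Filter Topology

variable {p : ℕ} {κ : Type} [Fintype κ]

/-- the coefficient of `x^ν` as a power series in the first variables -/
noncomputable def slice (P : MvPowerSeries (Fin p ⊕ κ) ℂ) (ν : κ →₀ ℕ) : MvPowerSeries (Fin p) ℂ :=
  fun μ => coeff (Finsupp.sumElim μ ν) P

/-- the power series in the first variables, as one in all variables -/
noncomputable def lft (f : MvPowerSeries (Fin p) ℂ) : MvPowerSeries (Fin p ⊕ κ) ℂ :=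
  fun w => if (∀ j : κ, w (Sum.inr j) = 0) then
    coeff (Finsupp.equivFunOnFinite.symm (fun i => w (Sum.inl i))) f else 0

private theorem G10_mo (b : Fin p → ℂ) (x : κ → ℂ) (μ : Fin p →₀ ℕ) (ν : κ →₀ ℕ) :
    mo (Sum.elim b x) (Finsupp.sumElim μ ν) = mo b μ * mo x ν := by
  unfold mo
  rw [Fintype.prod_sum_type]
  rfl

private theorem G10_mr (t : ℝ) (μ : Fin p →₀ ℕ) :
    mr (fun _ : Fin p ⊕ κ => t) (Finsupp.sumElim μ 0) = mr (fun _ => t) μ := by
  unfold mr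
  rw [Fintype.prod_sum_type]
  have h : ∏ j : κ, t ^ (Finsupp.sumElim μ (0 : κ →₀ ℕ)) (Sum.inr j) = 1 :=
    Finset.prod_eq_one fun j _ => pow_zero t
  rw [h, mul_one]
  rfl

omit [Fintype κ] in
private theorem G10_inj : Function.Injective
    (fun μ : Fin p →₀ ℕ => Finsupp.sumElim μ (0 : κ →₀ ℕ)) := by
  intro μ μ' h
  ext i
  exact DFunLike.congr_fun h (Sum.inl i)

private theorem G10_lft (f : MvPowerSeries (Fin p) ℂ) (μ : Fin p →₀ ℕ) :
    coeff (Finsupp.sumElim μ (0 : κ →₀ ℕ)) (lft (κ := κ) f) = coeff μ f := by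
  change (if (∀ j : κ, (Finsupp.sumElim μ (0 : κ →₀ ℕ)) (Sum.inr j) = 0) then
    coeff (Finsupp.equivFunOnFinite.symm
      (fun i => (Finsupp.sumElim μ (0 : κ →₀ ℕ)) (Sum.inl i))) f else 0) = _
  rw [if_pos (show ∀ j : κ, (Finsupp.sumElim μ (0 : κ →₀ ℕ)) (Sum.inr j) = 0 from
    fun j => rfl)]
  congr 2
  ext i
  rfl

private theorem G10_lft0 (f : MvPowerSeries (Fin p) ℂ) {w : Fin p ⊕ κ →₀ ℕ}
    (hw : w ∉ Set.range (fun μ : Fin p →₀ ℕ => Finsupp.sumElim μ (0 : κ →₀ ℕ))) :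
    coeff w (lft (κ := κ) f) = 0 := by
  change (if (∀ j : κ, w (Sum.inr j) = 0) then
    coeff (Finsupp.equivFunOnFinite.symm (fun i => w (Sum.inl i))) f else 0) = 0
  refine if_neg fun h => hw ⟨Finsupp.equivFunOnFinite.symm (fun i => w (Sum.inl i)), ?_⟩
  ext y
  rcases y with i | j
  · rfl
  · exact (h j).symm

/-- AXG-G10b: values of slices and lifts. `ev P (b, x) = ∑_ν ev (slice P ν) b · x^ν` -/
theorem ev_slice {P : MvPowerSeries (Fin p ⊕ κ) ℂ} {t : ℝ} (ht : 0 < t) (hP : Cv (fun _ => t) P)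
    {b : Fin p → ℂ} {x : κ → ℂ} (hb : ∀ i, ‖b i‖ ≤ t) (hx : ∀ j, ‖x j‖ ≤ t) :
    Summable (fun ν => ‖ev (slice P ν) b * mo x ν‖) ∧
      ev P (Sum.elim b x) = ∑' ν, ev (slice P ν) b * mo x ν := by
  have hy : ∀ i : Fin p ⊕ κ, ‖(Sum.elim b x : Fin p ⊕ κ → ℂ) i‖ ≤ t := by
    rintro (i | j)
    · exact hb i
    · exact hx j
  have hs := ev_summable hP hy
  obtain ⟨e, he⟩ : ∃ e : (κ →₀ ℕ) × (Fin p →₀ ℕ) ≃ (Fin p ⊕ κ →₀ ℕ),
      ∀ q, e q = Finsupp.sumElim q.2 q.1 :=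
    ⟨(Equiv.prodComm _ _).trans Finsupp.sumFinsuppEquivProdFinsupp.symm, fun q => rfl⟩
  obtain ⟨g, hg⟩ : ∃ g : (κ →₀ ℕ) × (Fin p →₀ ℕ) → ℂ,
      g = fun q => coeff q.2 (slice P q.1) * mo b q.2 * mo x q.1 := ⟨_, rfl⟩
  have hge : ∀ q, coeff (e q) P * mo (Sum.elim b x) (e q) = g q := by
    intro q
    rw [he, G10_mo, hg, ← mul_assoc]
    rfl
  have hsn : Summable fun q => ‖g q‖ := by
    have h1 := (e.summable_iff (f := fun w => ‖coeff w P * mo (Sum.elim b x) w‖)).2 hs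
    refine h1.congr fun q => ?_
    change ‖coeff (e q) P * mo (Sum.elim b x) (e q)‖ = ‖g q‖
    rw [hge]
  have hsg : Summable g := hsn.of_norm
  have hin : ∀ ν, ∑' μ, g (ν, μ) = ev (slice P ν) b * mo x ν := by
    intro ν
    rw [hg]
    change ∑' μ, coeff μ (slice P ν) * mo b μ * mo x ν = _
    exact tsum_mul_right
  constructor
  · refine Summable.of_nonneg_of_le (fun ν => norm_nonneg _) (fun ν => ?_) hsn.prod
    rw [← hin ν]
    exact norm_tsum_le_tsum_norm (hsn.prod_factor ν)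
  · have h2 : ev P (Sum.elim b x) = ∑' q, g q := by
      unfold ev
      rw [← e.tsum_eq]
      exact tsum_congr hge
    rw [h2, hsg.tsum_prod]
    exact tsum_congr hin

theorem ev_lft {f : MvPowerSeries (Fin p) ℂ} {t : ℝ} (hf : Cv (fun _ => t) f) {b : Fin p → ℂ} {x : κ → ℂ} :
    Cv (fun _ => t) (lft (κ := κ) f) ∧ ev (lft f) (Sum.elim b x) = ev f b := by
  constructor
  · unfold Cv
    rw [← (G10_inj (p := p) (κ := κ)).summable_iff]
    · refine hf.congr fun μ => ?_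
      change _ = ‖coeff (Finsupp.sumElim μ (0 : κ →₀ ℕ)) (lft (κ := κ) f)‖ *
        mr (fun _ : Fin p ⊕ κ => t) (Finsupp.sumElim μ 0)
      rw [G10_lft, G10_mr]
    · intro w hw
      rw [G10_lft0 f hw, norm_zero, zero_mul]
  · unfold ev
    rw [← (G10_inj (p := p) (κ := κ)).tsum_eq]
    · refine tsum_congr fun μ => ?_
      have h : mo x (0 : κ →₀ ℕ) = 1 := Finset.prod_eq_one fun j _ => pow_zero _
      rw [G10_lft, G10_mo, h, mul_one]
    · intro w hw
      by_contra h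
      apply hw
      change coeff w (lft (κ := κ) f) * mo (Sum.elim b x) w = 0
      rw [G10_lft0 f h, zero_mul]

end Pool.Agent.Helper94.AXG
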