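import Pool.Agent.Helper94.AXG.G1A
import Pool.Agent.Helper94.AXG.G1C

/-! # AXG-G4: the division theorem -/

namespace Pool.Agent.Helper94.AXG

open MvPowerSeries Filter Topology

variable {ι : Type} [Fintype ι]


section divisionAux

variable {B : Type}

open Classical in
/-- the chosen divisor -/
private noncomputable def jj (μ : B → ι →₀ ℕ) (ν : ι →₀ ℕ) : Option B :=
  if h : ∃ b, μ b ≤ ν then some h.choose else none

omit [Fintype ι] in
private lemma jj_le {μ : B → ι →₀ ℕ} {ν : ι →₀ ℕ} {b : B} (h : jj μ ν = some b) : μ b ≤ ν := by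
  unfold jj at h
  split_ifs at h with h1
  · have h2 : h1.choose = b := by simpa using h
    rw [← h2]; exact h1.choose_spec

omit [Fintype ι] in
private lemma jj_none {μ : B → ι →₀ ℕ} {ν : ι →₀ ℕ} (h : ∃ b, μ b ≤ ν) : jj μ ν ≠ none := by
  unfold jj
  rw [dif_pos h]; simp

open Classical in
/-- the quotient part -/
private noncomputable def QQ (μ : B → ι →₀ ℕ) (b : B) (f : MvPowerSeries ι ℂ) : MvPowerSeries ι ℂ :=
  fun κ => if jj μ (κ + μ b) = some b then coeff (κ + μ b) f else 0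

open Classical in
/-- the remainder part -/
private noncomputable def RR (μ : B → ι →₀ ℕ) (f : MvPowerSeries ι ℂ) : MvPowerSeries ι ℂ :=
  fun ν => if jj μ ν = none then coeff ν f else 0

open Classical in
omit [Fintype ι] in
private lemma coeff_QQ (μ : B → ι →₀ ℕ) (b : B) (f : MvPowerSeries ι ℂ) (κ : ι →₀ ℕ) :
    coeff κ (QQ μ b f) = if jj μ (κ + μ b) = some b then coeff (κ + μ b) f else 0 := rfl

open Classical in
omit [Fintype ι] in
private lemma coeff_RR (μ : B → ι →₀ ℕ) (f : MvPowerSeries ι ℂ) (ν : ι →₀ ℕ) :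
    coeff ν (RR μ f) = if jj μ ν = none then coeff ν f else 0 := rfl

open Classical in
omit [Fintype ι] in
private lemma coeff_QQ_mul (μ : B → ι →₀ ℕ) (b : B) (f : MvPowerSeries ι ℂ) (ν : ι →₀ ℕ) :
    coeff ν (QQ μ b f * monomial (μ b) 1) = if jj μ ν = some b then coeff ν f else 0 := by
  rw [coeff_mul_monomial]
  by_cases h : μ b ≤ ν
  · rw [if_pos h, coeff_QQ, tsub_add_cancel_of_le h, mul_one]
  · rw [if_neg h, if_neg]
    intro h1
    exact h (jj_le h1)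

omit [Fintype ι] in
private lemma decomp [Fintype B] (μ : B → ι →₀ ℕ) (f : MvPowerSeries ι ℂ) :
    f = ∑ b, QQ μ b f * monomial (μ b) 1 + RR μ f := by
  classical
  ext ν
  rw [map_add, map_sum]
  simp_rw [coeff_QQ_mul]
  rw [coeff_RR]
  rcases h : jj μ ν with _ | b
  · simp
  · simp

private lemma mr_pos {ρ : ι → ℝ} (hρ : ∀ i, 0 < ρ i) (ν : ι →₀ ℕ) : 0 < mr ρ ν :=
  Finset.prod_pos fun i _ => pow_pos (hρ i) _

open Classical in
private lemma QQ_norm {ρ : ι → ℝ} (μ : B → ι →₀ ℕ) (b : B)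
    {f : MvPowerSeries ι ℂ} (hρ : ∀ i, 0 < ρ i) (hf : Cv ρ f) :
    Cv ρ (QQ μ b f) ∧ nr ρ (QQ μ b f) * mr ρ (μ b) =
      ∑' ν, (if jj μ ν = some b then ‖coeff ν f‖ * mr ρ ν else 0) := by
  have hinj : Function.Injective (fun κ : ι →₀ ℕ => κ + μ b) := fun x y h => add_right_cancel h
  have hs : Summable (fun ν => (if jj μ ν = some b then ‖coeff ν f‖ * mr ρ ν else 0)) := by
    refine Summable.of_nonneg_of_le (fun ν => ?_) (fun ν => ?_) hf
    · split_ifs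
      · exact mul_nonneg (norm_nonneg _) (mr_pos hρ ν).le
      · exact le_rfl
    · split_ifs
      · exact le_rfl
      · exact mul_nonneg (norm_nonneg _) (mr_pos hρ ν).le
  have hpt : ∀ κ : ι →₀ ℕ, (if jj μ (κ + μ b) = some b then ‖coeff (κ + μ b) f‖ * mr ρ (κ + μ b) else 0)
      = ‖coeff κ (QQ μ b f)‖ * mr ρ κ * mr ρ (μ b) := by
    intro κ
    rw [coeff_QQ]
    split_ifs
    · rw [mr_add, mul_assoc]
    · simp
  have hsupp : ∀ ν ∉ Set.range (fun κ : ι →₀ ℕ => κ + μ b),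
      (if jj μ ν = some b then ‖coeff ν f‖ * mr ρ ν else 0) = 0 := by
    intro ν hν
    rw [if_neg]
    intro h1
    exact hν ⟨ν - μ b, tsub_add_cancel_of_le (jj_le h1)⟩
  have h1 : HasSum ((fun ν => (if jj μ ν = some b then ‖coeff ν f‖ * mr ρ ν else 0)) ∘
      (fun κ : ι →₀ ℕ => κ + μ b)) (∑' ν, (if jj μ ν = some b then ‖coeff ν f‖ * mr ρ ν else 0)) :=
    (hinj.hasSum_iff hsupp).2 hs.hasSum
  have h2 : HasSum (fun κ => ‖coeff κ (QQ μ b f)‖ * mr ρ κ * mr ρ (μ b))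
      (∑' ν, (if jj μ ν = some b then ‖coeff ν f‖ * mr ρ ν else 0)) := by
    convert h1 using 1
    funext κ
    exact (hpt κ).symm
  have h3 : Cv ρ (QQ μ b f) := by
    have := h2.summable
    exact (summable_mul_right_iff (mr_pos hρ (μ b)).ne').1 this
  refine ⟨h3, ?_⟩
  rw [← h2.tsum_eq, nr, tsum_mul_right]

open Classical in
private lemma RR_norm {ρ : ι → ℝ} (μ : B → ι →₀ ℕ)
    {f : MvPowerSeries ι ℂ} (hρ : ∀ i, 0 < ρ i) (hf : Cv ρ f) :
    Cv ρ (RR μ f) ∧ nr ρ (RR μ f) =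
      ∑' ν, (if jj μ ν = none then ‖coeff ν f‖ * mr ρ ν else 0) := by
  have hpt : ∀ ν : ι →₀ ℕ, ‖coeff ν (RR μ f)‖ * mr ρ ν =
      (if jj μ ν = none then ‖coeff ν f‖ * mr ρ ν else 0) := by
    intro κ
    rw [coeff_RR]
    split_ifs
    · rfl
    · simp
  have hs : Summable (fun ν => (if jj μ ν = none then ‖coeff ν f‖ * mr ρ ν else 0)) := by
    refine Summable.of_nonneg_of_le (fun ν => ?_) (fun ν => ?_) hf
    · split_ifs
      · exact mul_nonneg (norm_nonneg _) (mr_pos hρ ν).le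
      · exact le_rfl
    · split_ifs
      · exact le_rfl
      · exact mul_nonneg (norm_nonneg _) (mr_pos hρ ν).le
  refine ⟨?_, ?_⟩
  · unfold Cv
    simp_rw [hpt]
    exact hs
  · unfold nr
    simp_rw [hpt]

private lemma norm_split [Fintype B] {ρ : ι → ℝ} (μ : B → ι →₀ ℕ)
    {f : MvPowerSeries ι ℂ} (hρ : ∀ i, 0 < ρ i) (hf : Cv ρ f) :
    ∑ b, nr ρ (QQ μ b f) * mr ρ (μ b) + nr ρ (RR μ f) = nr ρ f := by
  classical
  rw [(RR_norm μ hρ hf).2, Finset.sum_congr rfl (fun b _ => (QQ_norm μ b hρ hf).2)]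
  have hs : ∀ (p : (ι →₀ ℕ) → Prop) [DecidablePred p],
      Summable (fun ν => (if p ν then ‖coeff ν f‖ * mr ρ ν else 0)) := by
    intro p _
    refine Summable.of_nonneg_of_le (fun ν => ?_) (fun ν => ?_) hf
    · split_ifs
      · exact mul_nonneg (norm_nonneg _) (mr_pos hρ ν).le
      · exact le_rfl
    · split_ifs
      · exact le_rfl
      · exact mul_nonneg (norm_nonneg _) (mr_pos hρ ν).le
  have h5 : ∀ b, Summable (fun ν => (if jj μ ν = some b then ‖coeff ν f‖ * mr ρ ν else 0)) :=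
    fun b => hs (fun ν => jj μ ν = some b)
  have h6 : Summable (fun ν => (if jj μ ν = none then ‖coeff ν f‖ * mr ρ ν else 0)) :=
    hs (fun ν => jj μ ν = none)
  rw [← Summable.tsum_finsetSum (fun b _ => h5 b), ← Summable.tsum_add (summable_sum fun b _ => h5 b) h6]
  unfold nr
  refine tsum_congr fun ν => ?_
  rcases h : jj μ ν with _ | b
  · simp
  · simp

private lemma fatou {ρ : ι → ℝ} (hρ : ∀ i, 0 < ρ i) {F : ℕ → MvPowerSeries ι ℂ} {G : MvPowerSeries ι ℂ}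
    {M : ℝ} (hC : ∀ N, Cv ρ (F N)) (hM : ∀ N, nr ρ (F N) ≤ M)
    (hl : ∀ ν, Tendsto (fun N => coeff ν (F N)) atTop (𝓝 (coeff ν G))) : Cv ρ G ∧ nr ρ G ≤ M := by
  have hfin : ∀ s : Finset (ι →₀ ℕ), ∑ ν ∈ s, ‖coeff ν G‖ * mr ρ ν ≤ M := by
    intro s
    have h1 : Tendsto (fun N => ∑ ν ∈ s, ‖coeff ν (F N)‖ * mr ρ ν) atTop
        (𝓝 (∑ ν ∈ s, ‖coeff ν G‖ * mr ρ ν)) :=
      tendsto_finsetSum _ fun ν _ => ((hl ν).norm).mul_const _
    refine le_of_tendsto' h1 fun N => ?_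
    exact ((hC N).sum_le_tsum s (fun ν _ => mul_nonneg (norm_nonneg _) (mr_pos hρ ν).le)).trans (hM N)
  have hnn : ∀ ν, 0 ≤ ‖coeff ν G‖ * mr ρ ν := fun ν => mul_nonneg (norm_nonneg _) (mr_pos hρ ν).le
  have hs : Summable fun ν => ‖coeff ν G‖ * mr ρ ν := summable_of_sum_le hnn hfin
  exact ⟨hs, hs.tsum_le_of_sum_le hfin⟩

/-- the correction -/
private noncomputable def TT [Fintype B] (μ : B → ι →₀ ℕ) (g : B → MvPowerSeries ι ℂ)
    (f : MvPowerSeries ι ℂ) : MvPowerSeries ι ℂ :=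
  ∑ b, (C (-1) * QQ μ b f) * (g b - monomial (μ b) 1)

private lemma Cv_zero (ρ : ι → ℝ) : Cv ρ (0 : MvPowerSeries ι ℂ) ∧ nr ρ (0 : MvPowerSeries ι ℂ) = 0 := by
  constructor
  · unfold Cv; simpa using summable_zero
  · unfold nr; simp

private lemma Cv_sum {ρ : ι → ℝ} (hρ : ∀ i, 0 ≤ ρ i) {κ : Type} (s : Finset κ)
    (F : κ → MvPowerSeries ι ℂ) (h : ∀ k ∈ s, Cv ρ (F k)) :
    Cv ρ (∑ k ∈ s, F k) ∧ nr ρ (∑ k ∈ s, F k) ≤ ∑ k ∈ s, nr ρ (F k) := by
  classical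
  induction s using Finset.induction_on with
  | empty => simpa using ⟨(Cv_zero ρ).1, (Cv_zero ρ).2.le⟩
  | insert a s ha ih =>
    have h1 := ih (fun k hk => h k (Finset.mem_insert_of_mem hk))
    rw [Finset.sum_insert ha, Finset.sum_insert ha]
    have h2 := Cv_add hρ (h a (Finset.mem_insert_self _ _)) h1.1
    exact ⟨h2.1, h2.2.trans (by linarith [h1.2])⟩

private lemma TT_norm [Fintype B] {ρ : ι → ℝ} (hρ : ∀ i, 0 < ρ i) (μ : B → ι →₀ ℕ)
    (g : B → MvPowerSeries ι ℂ) {ε : ℝ} (hε0 : 0 ≤ ε)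
    (hg : ∀ b, Cv ρ (g b - monomial (μ b) 1) ∧ nr ρ (g b - monomial (μ b) 1) ≤ ε * mr ρ (μ b))
    {f : MvPowerSeries ι ℂ} (hf : Cv ρ f) : Cv ρ (TT μ g f) ∧ nr ρ (TT μ g f) ≤ ε * nr ρ f := by
  have hρ' : ∀ i, 0 ≤ ρ i := fun i => (hρ i).le
  have h1 : ∀ b, Cv ρ ((C (-1) * QQ μ b f) * (g b - monomial (μ b) 1)) ∧
      nr ρ ((C (-1) * QQ μ b f) * (g b - monomial (μ b) 1)) ≤ ε * (nr ρ (QQ μ b f) * mr ρ (μ b)) := by
    intro b
    have h2 := Cv_smul ρ (QQ_norm μ b hρ hf).1 (-1)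
    have h3 := Cv_mul hρ' h2.1 (hg b).1
    refine ⟨h3.1, h3.2.trans ?_⟩
    rw [h2.2, norm_neg, norm_one, one_mul]
    have := mul_le_mul_of_nonneg_left (hg b).2 (nr_nonneg hρ' (QQ μ b f))
    linarith
  have h4 := Cv_sum hρ' Finset.univ (fun b => (C (-1) * QQ μ b f) * (g b - monomial (μ b) 1))
    (fun b _ => (h1 b).1)
  refine ⟨h4.1, h4.2.trans ?_⟩
  calc ∑ b, nr ρ ((C (-1) * QQ μ b f) * (g b - monomial (μ b) 1))
      ≤ ∑ b, ε * (nr ρ (QQ μ b f) * mr ρ (μ b)) := Finset.sum_le_sum fun b _ => (h1 b).2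
    _ = ε * ∑ b, (nr ρ (QQ μ b f) * mr ρ (μ b)) := by rw [Finset.mul_sum]
    _ ≤ ε * nr ρ f := by
        refine mul_le_mul_of_nonneg_left ?_ hε0
        have := norm_split μ hρ hf
        have := nr_nonneg hρ' (RR μ f)
        linarith

omit [Fintype ι] in
private lemma TT_eq [Fintype B] (μ : B → ι →₀ ℕ)
    (g : B → MvPowerSeries ι ℂ) (f : MvPowerSeries ι ℂ) :
    ∑ b, QQ μ b f * g b + RR μ f = f - TT μ g f := by
  have h1 : TT μ g f = -∑ b, QQ μ b f * (g b - monomial (μ b) 1) := by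
    unfold TT
    rw [← Finset.sum_neg_distrib]
    refine Finset.sum_congr rfl fun b _ => ?_
    rw [map_neg, map_one]; ring
  rw [h1, sub_neg_eq_add]
  have h3 := decomp μ f
  have h2 : ∀ b, QQ μ b f * g b = QQ μ b f * monomial (μ b) 1 + QQ μ b f * (g b - monomial (μ b) 1) := by
    intro b; ring
  rw [Finset.sum_congr rfl (fun b _ => h2 b), Finset.sum_add_distrib]
  linear_combination -h3

omit [Fintype ι] in
private lemma TT_sub [Fintype B] (μ : B → ι →₀ ℕ)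
    (g : B → MvPowerSeries ι ℂ) (F : ℕ → MvPowerSeries ι ℂ) (hF : ∀ n, F (n + 1) = TT μ g (F n)) (N : ℕ) :
    ∑ b, QQ μ b (∑ n ∈ Finset.range N, F n) * g b + RR μ (∑ n ∈ Finset.range N, F n) = F 0 - F N := by
  classical
  have hQ : ∀ b, QQ μ b (∑ n ∈ Finset.range N, F n) = ∑ n ∈ Finset.range N, QQ μ b (F n) := by
    intro b
    ext κ
    rw [coeff_QQ, map_sum, map_sum]
    simp_rw [coeff_QQ]
    split_ifs
    · rfl
    · simp
  have hR : RR μ (∑ n ∈ Finset.range N, F n) = ∑ n ∈ Finset.range N, RR μ (F n) := by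
    ext κ
    rw [coeff_RR, map_sum, map_sum]
    simp_rw [coeff_RR]
    split_ifs
    · rfl
    · simp
  simp_rw [hQ]
  rw [hR]
  simp_rw [Finset.sum_mul]
  rw [Finset.sum_comm, ← Finset.sum_add_distrib]
  have h1 : ∀ n, ∑ b, QQ μ b (F n) * g b + RR μ (F n) = F n - F (n + 1) := by
    intro n
    rw [TT_eq, hF n]
  rw [Finset.sum_congr rfl (fun n _ => h1 n), Finset.sum_range_sub']

end divisionAux

/-- AXG-G4. Division with estimates. Proof. The convergent series `f` with `nr ρ f < ∞` form a Banach space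
(weighted `ℓ¹`; for instance transport `lp (fun _ => ℂ) 1` by `f ↦ (f_ν ρ^ν)`). For each exponent `ν`
divisible by some `μ j` (i.e. `μ j ≤ ν`) choose one such `j(ν)`; this splits every `f` into
`f = ∑_j Q_j(f) y^{μ j} + R(f)` where `Q_j(f)` collects the terms with `j(ν) = j` (divided by the monomial) and
`R(f)` the terms with no `μ j ≤ ν`; `nr f = ∑_j nr (Q_j f) ρ^{μ j} + nr (R f)`. Put
`T f = -∑_j Q_j(f) (g_j - y^{μ j})`, a bounded linear operator with `‖T‖ ≤ ε < 1`, so that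
`∑_j Q_j(f) g_j + R(f) = f - T f`. Given `f`, let `f' = ∑_n T^n f` (Neumann series), so `f' - T f' = f`,
`nr f' ≤ nr f / (1 - ε)`, and `q_j = Q_j(f')`, `r = R(f')`. -/
theorem division {B : Type} [Fintype B] {ρ : ι → ℝ} (hρ : ∀ i, 0 < ρ i) (μ : B → ι →₀ ℕ)
    (g : B → MvPowerSeries ι ℂ) {ε : ℝ} (hε0 : 0 ≤ ε) (hε : ε < 1)
    (hg : ∀ b, Cv ρ (g b - monomial (μ b) 1) ∧ nr ρ (g b - monomial (μ b) 1) ≤ ε * mr ρ (μ b))
    {f : MvPowerSeries ι ℂ} (hf : Cv ρ f) :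
    ∃ (q : B → MvPowerSeries ι ℂ) (r : MvPowerSeries ι ℂ), (∀ b, Cv ρ (q b)) ∧ Cv ρ r ∧
      f = ∑ b, q b * g b + r ∧ (∀ ν, (∃ b, μ b ≤ ν) → coeff ν r = 0) ∧
      ∑ b, nr ρ (q b) * mr ρ (μ b) + nr ρ r ≤ nr ρ f / (1 - ε) := by
  classical
  have hρ' : ∀ i, 0 ≤ ρ i := fun i => (hρ i).le
  set F : ℕ → MvPowerSeries ι ℂ := fun n => (TT μ g)^[n] f with hFdef
  have hF0 : F 0 = f := rfl
  have hFs : ∀ n, F (n + 1) = TT μ g (F n) := fun n => Function.iterate_succ_apply' _ _ _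
  have hFn : ∀ n, Cv ρ (F n) ∧ nr ρ (F n) ≤ ε ^ n * nr ρ f := by
    intro n
    induction n with
    | zero => simpa [hF0] using hf
    | succ n ih =>
      have h1 := TT_norm hρ μ g hε0 hg ih.1
      rw [hFs]
      refine ⟨h1.1, h1.2.trans ?_⟩
      rw [pow_succ']
      nlinarith [ih.2]
  have hco : ∀ n ν, ‖coeff ν (F n)‖ ≤ ε ^ n * (nr ρ f / mr ρ ν) := by
    intro n ν
    have h1 := coeff_le hρ' (hFn n).1 ν
    have h2 := mr_pos hρ ν
    rw [← mul_div_assoc, le_div_iff₀ h2]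
    exact h1.trans (hFn n).2
  have hgeo : Summable fun n : ℕ => ε ^ n := summable_geometric_of_lt_one hε0 hε
  have hsum : ∀ ν, Summable fun n => coeff ν (F n) := fun ν =>
    Summable.of_norm_bounded (hgeo.mul_right _) (fun n => hco n ν)
  set G : MvPowerSeries ι ℂ := fun ν => ∑' n, coeff ν (F n) with hG
  have hGl : ∀ ν, Tendsto (fun N => coeff ν (∑ n ∈ Finset.range N, F n)) atTop (𝓝 (coeff ν G)) := by
    intro ν
    simp_rw [map_sum]
    exact (hsum ν).hasSum.tendsto_sum_nat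
  have hpart : ∀ N, Cv ρ (∑ n ∈ Finset.range N, F n) ∧ nr ρ (∑ n ∈ Finset.range N, F n) ≤
      nr ρ f / (1 - ε) := by
    intro N
    have h1 := Cv_sum hρ' (Finset.range N) F (fun n _ => (hFn n).1)
    refine ⟨h1.1, h1.2.trans ?_⟩
    calc ∑ n ∈ Finset.range N, nr ρ (F n) ≤ ∑ n ∈ Finset.range N, ε ^ n * nr ρ f :=
          Finset.sum_le_sum fun n _ => (hFn n).2
      _ = (∑ n ∈ Finset.range N, ε ^ n) * nr ρ f := by rw [Finset.sum_mul]
      _ ≤ (1 - ε)⁻¹ * nr ρ f := by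
          refine mul_le_mul_of_nonneg_right ?_ (nr_nonneg hρ' f)
          rw [← tsum_geometric_of_lt_one hε0 hε]
          exact hgeo.sum_le_tsum _ (fun n _ => pow_nonneg hε0 n)
      _ = nr ρ f / (1 - ε) := by rw [div_eq_inv_mul]
  obtain ⟨hGC, hGn⟩ := fatou hρ (fun N => (hpart N).1) (fun N => (hpart N).2) hGl
  refine ⟨fun b => QQ μ b G, RR μ G, fun b => (QQ_norm μ b hρ hGC).1, (RR_norm μ hρ hGC).1, ?_, ?_, ?_⟩
  · ext ν
    have hL : Tendsto (fun N => coeff ν (∑ b, QQ μ b (∑ n ∈ Finset.range N, F n) * g b +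
        RR μ (∑ n ∈ Finset.range N, F n))) atTop (𝓝 (coeff ν (∑ b, QQ μ b G * g b + RR μ G))) := by
      simp_rw [map_add, map_sum _ _ Finset.univ, coeff_mul]
      refine Tendsto.add ?_ ?_
      · refine tendsto_finsetSum _ fun b _ => tendsto_finsetSum _ fun p _ => Tendsto.mul_const _ ?_
        simp_rw [coeff_QQ]
        split_ifs
        · exact hGl _
        · exact tendsto_const_nhds
      · simp_rw [coeff_RR]
        split_ifs
        · exact hGl _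
        · exact tendsto_const_nhds
    have hR : Tendsto (fun N => coeff ν (∑ b, QQ μ b (∑ n ∈ Finset.range N, F n) * g b +
        RR μ (∑ n ∈ Finset.range N, F n))) atTop (𝓝 (coeff ν f)) := by
      simp_rw [TT_sub μ g F hFs, hF0, map_sub]
      have h1 : Tendsto (fun N => coeff ν (F N)) atTop (𝓝 0) := (hsum ν).tendsto_atTop_zero
      simpa using tendsto_const_nhds.sub h1
    exact tendsto_nhds_unique hR hL
  · intro ν hν
    rw [coeff_RR, if_neg (jj_none hν)]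
  · rw [norm_split μ hρ hGC]
    exact hGn

end Pool.Agent.Helper94.AXG
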