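import Pool.Agent.Helper94.AXG.G9B
import Pool.Agent.Helper94.AXG.G4

/-! # AXG-G9C -/

namespace Pool.Agent.Helper94.AXG

open MvPowerSeries Filter Topology

variable {p : ℕ}

private theorem g9c_rad_pos (p : ℕ) (c : ℝ) (i : Fin p) : 0 < rad p c i := by
  unfold rad
  apply Real.rpow_pos_of_pos
  have h := Nat.prime_nth_prime (i : ℕ)
  exact_mod_cast h.pos

private theorem g9c_mr_pos {ρ : Fin p → ℝ} (hρ : ∀ i, 0 < ρ i) (ν : Fin p →₀ ℕ) : 0 < mr ρ ν := by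
  unfold mr
  exact Finset.prod_pos fun i _ => pow_pos (hρ i) _

private theorem g9c_neg {ρ : Fin p → ℝ} {f : MvPowerSeries (Fin p) ℂ} (hf : Cv ρ f) : Cv ρ (-f) := by
  unfold Cv at hf ⊢
  refine hf.congr fun ν => ?_
  rw [map_neg, norm_neg]

private theorem g9c_sum {I : Set (MvPowerSeries (Fin p) ℂ)} (h0 : (0 : MvPowerSeries (Fin p) ℂ) ∈ I)
    (hadd : ∀ f ∈ I, ∀ g ∈ I, f + g ∈ I) {B : Type} (t : Finset B)
    (F : B → MvPowerSeries (Fin p) ℂ) (hF : ∀ b, F b ∈ I) : ∑ b ∈ t, F b ∈ I := by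
  classical
  induction t using Finset.induction_on with
  | empty => simpa using h0
  | insert a t ha ih => rw [Finset.sum_insert ha]; exact hadd _ (hF a) _ ih

/-- AXG-G9e: standard bases. Let `I` be a set of convergent power series closed under addition and under
multiplication by convergent power series. Then there are finitely many `g_1, …, g_s ∈ I` and `c₁` such
that for all `c ≥ c₁` every `f ∈ I` with `Cv (rad p c) f` is `∑ q_j g_j` with
`nr (q_j) ≤ K nr f` (radii `rad p c`, `K` depends on `c` only).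
Proof. Let `E` be the set of the initial exponents (smallest `n`) of the nonzero elements of `I`; it is
upward closed under adding exponents (multiply by a monomial). By Dickson's lemma
(`Set.PartiallyWellOrderedOn`, `Pi.isPWO`, or that every subset of `Fin p →₀ ℕ` has finitely many minimal
elements) the finite set of minimal elements `μ_1, …, μ_s` of `E` satisfies: every element of `E` is
`≥` some `μ_j`. Choose `g_j ∈ I` with initial exponent `μ_j` and coefficient `1` there, and `c₁` by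
`init_small` for all `j`. `division` (`ε = 1/2`): `f = ∑ q_j g_j + r`; `r ∈ I`, and no exponent `≥ μ_j`
occurs in `r`; if `r ≠ 0` its initial exponent is in `E`, contradiction. So `r = 0`. -/
theorem std_basis (I : Set (MvPowerSeries (Fin p) ℂ)) (h0 : (0 : MvPowerSeries (Fin p) ℂ) ∈ I)
    (hconv : ∀ f ∈ I, ∃ c : ℝ, Cv (rad p c) f) (hadd : ∀ f ∈ I, ∀ g ∈ I, f + g ∈ I)
    (hmul : ∀ f ∈ I, ∀ g : MvPowerSeries (Fin p) ℂ, (∃ c : ℝ, Cv (rad p c) g) → g * f ∈ I) :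
    ∃ (s : ℕ) (g : Fin s → MvPowerSeries (Fin p) ℂ) (c₁ : ℝ), (∀ j, g j ∈ I) ∧
      ∀ c : ℝ, c₁ ≤ c → (∀ j, Cv (rad p c) (g j)) ∧ ∃ K : ℝ, 0 < K ∧
        ∀ f ∈ I, Cv (rad p c) f → ∃ q : Fin s → MvPowerSeries (Fin p) ℂ,
          (∀ j, Cv (rad p c) (q j) ∧ nr (rad p c) (q j) ≤ K * nr (rad p c) f) ∧ f = ∑ j, q j * g j := by
  classical
  -- initial exponents
  let E : (Fin p →₀ ℕ) → Prop := fun μ => ∃ f ∈ I, coeff μ f ≠ 0 ∧ ∀ ν, coeff ν f ≠ 0 → nn μ ≤ nn ν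
  have hfin : {μ | Minimal E μ}.Finite :=
    (setOfPred_minimal_antichain E).finite_of_partiallyWellOrderedOn (Set.isPWO_of_wellQuasiOrderedLE _)
  let M : Finset (Fin p →₀ ℕ) := hfin.toFinset
  let e := M.equivFin.symm
  have hmin : ∀ j : Fin M.card, Minimal E (e j : Fin p →₀ ℕ) := fun j => hfin.mem_toFinset.mp (e j).2
  have hE : ∀ j : Fin M.card, ∃ f ∈ I, coeff (e j : Fin p →₀ ℕ) f ≠ 0 ∧
      ∀ ν, coeff ν f ≠ 0 → nn (e j : Fin p →₀ ℕ) ≤ nn ν := fun j => (hmin j).prop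
  choose F hFI hF0 hFmin using hE
  let g : Fin M.card → MvPowerSeries (Fin p) ℂ := fun j => C (coeff (e j : Fin p →₀ ℕ) (F j))⁻¹ * F j
  have hc1 : ∀ j : Fin M.card, ∃ c₁ : ℝ, ∀ c : ℝ, c₁ ≤ c →
      Cv (rad p c) (g j - monomial (e j : Fin p →₀ ℕ) 1) ∧
        nr (rad p c) (g j - monomial (e j : Fin p →₀ ℕ) 1) ≤
          (1 / 2) * mr (rad p c) (e j : Fin p →₀ ℕ) := by
    intro j
    obtain ⟨c₀, hc₀⟩ := hconv _ (hFI j)
    obtain ⟨c₁, -, h⟩ := init_small hc₀ (hF0 j) (hFmin j)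
    exact ⟨c₁, h⟩
  choose cc hcc using hc1
  obtain ⟨c₁, hc₁⟩ := (Set.finite_range cc).bddAbove
  have hc₁' : ∀ j, cc j ≤ c₁ := fun j => hc₁ ⟨j, rfl⟩
  have hgI : ∀ j, g j ∈ I := by
    intro j
    refine hmul _ (hFI j) _ ⟨0, ?_⟩
    have h := (Cv_monomial (rad p 0) (0 : Fin p →₀ ℕ) (coeff (e j : Fin p →₀ ℕ) (F j))⁻¹).1
    exact h
  refine ⟨M.card, g, c₁, hgI, fun c hc => ?_⟩
  have hρ : ∀ i, 0 < rad p c i := g9c_rad_pos p c
  have hρ0 : ∀ i, 0 ≤ rad p c i := fun i => (hρ i).le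
  have hsm := fun j => hcc j c ((hc₁' j).trans hc)
  have hgc : ∀ j, Cv (rad p c) (g j) := by
    intro j
    have h1 := (Cv_add hρ0 (hsm j).1 (Cv_monomial (rad p c) (e j : Fin p →₀ ℕ) 1).1).1
    rwa [sub_add_cancel] at h1
  refine ⟨hgc, 1 + 2 * ∑ j, (mr (rad p c) (e j : Fin p →₀ ℕ))⁻¹, ?_, ?_⟩
  · have h1 : 0 ≤ ∑ j, (mr (rad p c) (e j : Fin p →₀ ℕ))⁻¹ :=
      Finset.sum_nonneg fun j _ => (inv_pos.mpr (g9c_mr_pos hρ _)).le
    linarith
  intro f hfI hf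
  obtain ⟨q, r, hq, hr, hfe, hr0, hle⟩ := division hρ (fun j => (e j : Fin p →₀ ℕ)) g
    (ε := 1 / 2) (by norm_num) (by norm_num) hsm hf
  have hnf : 0 ≤ nr (rad p c) f := nr_nonneg hρ0 f
  have hle2 : ∑ b, nr (rad p c) (q b) * mr (rad p c) (e b : Fin p →₀ ℕ) + nr (rad p c) r
      ≤ 2 * nr (rad p c) f := by
    refine hle.trans (le_of_eq ?_)
    rw [div_eq_iff (by norm_num)]
    ring
  refine ⟨q, fun j => ⟨hq j, ?_⟩, ?_⟩
  · have h1 : nr (rad p c) (q j) * mr (rad p c) (e j : Fin p →₀ ℕ) ≤ 2 * nr (rad p c) f := by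
      have h2 := Finset.single_le_sum
        (f := fun b => nr (rad p c) (q b) * mr (rad p c) (e b : Fin p →₀ ℕ))
        (fun b _ => mul_nonneg (nr_nonneg hρ0 _) (mr_nonneg hρ0 _)) (Finset.mem_univ j)
      have h3 := nr_nonneg hρ0 r

      linarith
    have hm := g9c_mr_pos hρ (e j : Fin p →₀ ℕ)
    have h2 : nr (rad p c) (q j) ≤ 2 * nr (rad p c) f * (mr (rad p c) (e j : Fin p →₀ ℕ))⁻¹ := by
      rw [← div_eq_mul_inv, le_div_iff₀ hm]
      exact h1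
    have h3 : (mr (rad p c) (e j : Fin p →₀ ℕ))⁻¹ ≤ ∑ j, (mr (rad p c) (e j : Fin p →₀ ℕ))⁻¹ :=
      Finset.single_le_sum (f := fun j => (mr (rad p c) (e j : Fin p →₀ ℕ))⁻¹)
        (fun j _ => (inv_pos.mpr (g9c_mr_pos hρ _)).le) (Finset.mem_univ j)
    calc nr (rad p c) (q j) ≤ 2 * nr (rad p c) f * (mr (rad p c) (e j : Fin p →₀ ℕ))⁻¹ := h2
      _ ≤ 2 * nr (rad p c) f * ∑ j, (mr (rad p c) (e j : Fin p →₀ ℕ))⁻¹ :=
          mul_le_mul_of_nonneg_left h3 (by linarith)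
      _ ≤ (1 + 2 * ∑ j, (mr (rad p c) (e j : Fin p →₀ ℕ))⁻¹) * nr (rad p c) f := by linarith
  · have hrI : r ∈ I := by
      have h1 : r = f + ∑ b, (-q b) * g b := by
        rw [hfe]
        simp only [neg_mul, Finset.sum_neg_distrib]
        ring
      rw [h1]
      exact hadd _ hfI _ (g9c_sum h0 hadd _ _ fun b => hmul _ (hgI b) _ ⟨c, g9c_neg (hq b)⟩)
    have hr00 : r = 0 := by
      by_contra hne
      have hex : ∃ ν, coeff ν r ≠ 0 := by
        by_contra hcon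
        push Not at hcon
        exact hne (MvPowerSeries.ext hcon)
      let S : Set (Fin p →₀ ℕ) := {ν | coeff ν r ≠ 0}
      have hS : S.Nonempty := hex
      obtain ⟨μ, hμS, hμmin⟩ : ∃ μ ∈ S, ∀ ν ∈ S, nn μ ≤ nn ν := by
        obtain ⟨n, hn, hnmin⟩ := WellFounded.has_min (Nat.lt_wfRel.wf) (nn '' S) (hS.image _)
        obtain ⟨μ, hμ, rfl⟩ := hn
        exact ⟨μ, hμ, fun ν hν => not_lt.mp (hnmin _ ⟨ν, hν, rfl⟩)⟩
      have hEμ : E μ := ⟨r, hrI, hμS, fun ν hν => hμmin ν hν⟩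
      obtain ⟨μ', hle', hmin'⟩ := exists_minimal_le_of_wellFoundedLT E μ hEμ
      have hmem : μ' ∈ M := hfin.mem_toFinset.mpr hmin'
      refine hμS (hr0 μ ⟨M.equivFin ⟨μ', hmem⟩, ?_⟩)
      have h2 : e (M.equivFin ⟨μ', hmem⟩) = ⟨μ', hmem⟩ := Equiv.symm_apply_apply _ _
      rw [h2]
      exact hle'
    rw [hr00, add_zero] at hfe
    exact hfe
end Pool.Agent.Helper94.AXG
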