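import Pool.Agent.Helper94.AXG.G10
import Pool.Agent.Helper94.AXG.G9C

/-! # AXG-G10B -/

namespace Pool.Agent.Helper94.AXG

open MvPowerSeries Filter Topology

variable {p : ℕ} {κ : Type} [Fintype κ]

omit [Fintype κ] in
private lemma gb_coeff_slice (P : MvPowerSeries (Fin p ⊕ κ) ℂ) (ν : κ →₀ ℕ) (μ : Fin p →₀ ℕ) :
    coeff μ (slice P ν) = coeff (Finsupp.sumElim μ ν) P := rfl

omit [Fintype κ] in
private lemma gb_elim (w : Fin p ⊕ κ →₀ ℕ) : ∃ (μ : Fin p →₀ ℕ) (ν : κ →₀ ℕ),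
    w = Finsupp.sumElim μ ν := by
  refine ⟨(Finsupp.sumFinsuppEquivProdFinsupp w).1, (Finsupp.sumFinsuppEquivProdFinsupp w).2, ?_⟩
  ext (i | j)
  · simp
  · simp

private lemma gb_ext {P Q : MvPowerSeries (Fin p ⊕ κ) ℂ} (h : ∀ ν, slice P ν = slice Q ν) :
    P = Q := by
  ext w
  obtain ⟨μ, ν, rfl⟩ := gb_elim w
  rw [← gb_coeff_slice, ← gb_coeff_slice, h]

private lemma gb_slice_sum {ι : Type} (s : Finset ι) (F : ι → MvPowerSeries (Fin p ⊕ κ) ℂ)
    (ν : κ →₀ ℕ) : slice (∑ i ∈ s, F i) ν = ∑ i ∈ s, slice (F i) ν := by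
  ext μ
  rw [gb_coeff_slice, map_sum, map_sum]
  rfl

private lemma gb_coeff_lft (f : MvPowerSeries (Fin p) ℂ) (μ : Fin p →₀ ℕ) (ν : κ →₀ ℕ) :
    coeff (Finsupp.sumElim μ ν) (lft (κ := κ) f) = if ν = 0 then coeff μ f else 0 := by
  have h1 : coeff (Finsupp.sumElim μ ν) (lft (κ := κ) f) =
      if (∀ j : κ, (Finsupp.sumElim μ ν) (Sum.inr j) = 0) then
        coeff (Finsupp.equivFunOnFinite.symm (fun i => (Finsupp.sumElim μ ν) (Sum.inl i))) f else 0 := rfl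
  rw [h1]
  have h2 : (∀ j : κ, (Finsupp.sumElim μ ν) (Sum.inr j) = 0) ↔ ν = 0 := by
    constructor
    · intro h
      ext j
      exact h j
    · rintro rfl j
      rfl
  have h3 : Finsupp.equivFunOnFinite.symm (fun i => (Finsupp.sumElim μ ν) (Sum.inl i)) = μ := by
    ext i
    rfl
  simp only [h2, h3]

private lemma gb_slice_lft_mul (f : MvPowerSeries (Fin p) ℂ) (H : MvPowerSeries (Fin p ⊕ κ) ℂ)
    (ν : κ →₀ ℕ) : slice (lft f * H) ν = f * slice H ν := by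
  classical
  ext μ
  rw [gb_coeff_slice, MvPowerSeries.coeff_mul, MvPowerSeries.coeff_mul]
  symm
  refine Finset.sum_of_injOn
    (fun q : (Fin p →₀ ℕ) × (Fin p →₀ ℕ) =>
      ((Finsupp.sumElim q.1 (0 : κ →₀ ℕ), Finsupp.sumElim q.2 ν) :
        (Fin p ⊕ κ →₀ ℕ) × (Fin p ⊕ κ →₀ ℕ))) ?_ ?_ ?_ ?_
  · rintro ⟨a, b⟩ - ⟨a', b'⟩ - h
    rw [Prod.mk.injEq] at h
    have h1 : a = a' := by
      ext i
      exact DFunLike.congr_fun h.1 (Sum.inl i)
    have h2 : b = b' := by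
      ext i
      exact DFunLike.congr_fun h.2 (Sum.inl i)
    rw [h1, h2]
  · rintro ⟨a, b⟩ hab
    rw [Finset.mem_coe, Finset.HasAntidiagonal.mem_antidiagonal] at hab ⊢
    rw [← hab]
    ext (i | j)
    · simp
    · simp
  · rintro ⟨w, w'⟩ hw hn
    obtain ⟨a, α, rfl⟩ := gb_elim w
    obtain ⟨b, β, rfl⟩ := gb_elim w'
    rw [Finset.HasAntidiagonal.mem_antidiagonal] at hw
    have h1 : a + b = μ := by
      ext i
      exact DFunLike.congr_fun hw (Sum.inl i)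
    have h2 : α + β = ν := by
      ext j
      exact DFunLike.congr_fun hw (Sum.inr j)
    rw [gb_coeff_lft]
    split_ifs with h3
    · exfalso
      apply hn
      refine ⟨(a, b), ?_, ?_⟩
      · rw [Finset.mem_coe, Finset.HasAntidiagonal.mem_antidiagonal]
        exact h1
      · rw [h3, zero_add] at h2
        rw [h3, h2]
    · rw [zero_mul]
  · rintro ⟨a, b⟩ hab
    rw [gb_coeff_lft, if_pos rfl]
    rfl

private lemma gb_mr (r : Fin p → ℝ) (s : κ → ℝ) (μ : Fin p →₀ ℕ) (ν : κ →₀ ℕ) :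
    mr (Sum.elim r s) (Finsupp.sumElim μ ν) = mr r μ * mr s ν := by
  unfold mr
  rw [Fintype.prod_sum_type]
  rfl

private lemma gb_Cv_iff {r : Fin p → ℝ} (hr : ∀ i, 0 ≤ r i) {s : ℝ} (hs : 0 < s)
    (Q : MvPowerSeries (Fin p ⊕ κ) ℂ) : Cv (Sum.elim r (fun _ => s)) Q ↔
      (∀ ν, Cv r (slice Q ν)) ∧ Summable fun ν => nr r (slice Q ν) * mr (fun _ : κ => s) ν := by
  have hsν : ∀ ν : κ →₀ ℕ, 0 < mr (fun _ : κ => s) ν := fun ν =>
    Finset.prod_pos fun j _ => pow_pos hs _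
  have h1 : Cv (Sum.elim r (fun _ => s)) Q ↔
      Summable (fun x : (κ →₀ ℕ) × (Fin p →₀ ℕ) =>
        ‖coeff x.2 (slice Q x.1)‖ * mr r x.2 * mr (fun _ : κ => s) x.1) := by
    unfold Cv
    rw [← ((Equiv.prodComm _ _).trans
      (Finsupp.sumFinsuppEquivProdFinsupp (α := Fin p) (β := κ) (γ := ℕ)).symm).summable_iff]
    refine summable_congr fun x => ?_
    have h2 : ((Equiv.prodComm _ _).trans
      (Finsupp.sumFinsuppEquivProdFinsupp (α := Fin p) (β := κ) (γ := ℕ)).symm) x =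
        Finsupp.sumElim x.2 x.1 := by
      ext (i | j)
      · simp
      · simp
    rw [Function.comp_apply, h2, gb_mr, gb_coeff_slice, mul_assoc]
  rw [h1, summable_prod_of_nonneg]
  · refine and_congr (forall_congr' fun ν => ?_) ?_
    · rw [summable_mul_right_iff (hsν ν).ne']
      rfl
    · refine summable_congr fun ν => ?_
      show ∑' y : Fin p →₀ ℕ, ‖coeff y (slice Q ν)‖ * mr r y * mr (fun _ : κ => s) ν = _
      rw [tsum_mul_right]
      rfl
  · intro x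
    exact mul_nonneg (mul_nonneg (norm_nonneg _) (mr_nonneg hr _)) (hsν _).le

private lemma gb_prime (i : Fin p) : (2 : ℝ) ≤ ((Nat.nth Nat.Prime (i : ℕ) : ℕ) : ℝ) := by
  have h1 : Nat.Prime (Nat.nth Nat.Prime (i : ℕ)) := Nat.prime_nth_prime _
  exact_mod_cast h1.two_le

private lemma gb_rad_pos (c : ℝ) (i : Fin p) : 0 < rad p c i :=
  Real.rpow_pos_of_pos (by linarith [gb_prime i]) _

private lemma gb_rad_anti {c c' : ℝ} (h : c ≤ c') (i : Fin p) : rad p c' i ≤ rad p c i :=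
  Real.rpow_le_rpow_of_exponent_le (by linarith [gb_prime i]) (by linarith)

private lemma gb_rad_small {t : ℝ} (ht : 0 < t) : ∃ c : ℝ, ∀ i, rad p c i ≤ t := by
  obtain ⟨n, hn⟩ := exists_pow_lt_of_lt_one ht (by norm_num : (1 / 2 : ℝ) < 1)
  refine ⟨n, fun i => ?_⟩
  have h1 : rad p n i = (((Nat.nth Nat.Prime (i : ℕ) : ℕ) : ℝ) ^ n)⁻¹ := by
    unfold rad
    rw [Real.rpow_neg (by linarith [gb_prime i]), Real.rpow_natCast]
  rw [h1]
  refine le_trans ?_ hn.le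
  rw [one_div, inv_pow]
  exact inv_anti₀ (by positivity) (pow_le_pow_left₀ (by norm_num) (gb_prime i) n)

private lemma gb_lower (c : ℝ) {t : ℝ} (ht : 0 < t) : ∃ t' : ℝ, 0 < t' ∧ t' ≤ t ∧
    ∀ i : Fin p, t' ≤ rad p c i := by
  have hS : 0 ≤ ∑ i : Fin p, (rad p c i)⁻¹ := Finset.sum_nonneg fun i _ =>
    inv_nonneg.2 (gb_rad_pos c i).le
  have hp : 0 < t⁻¹ + ∑ i : Fin p, (rad p c i)⁻¹ := by positivity
  refine ⟨(t⁻¹ + ∑ i : Fin p, (rad p c i)⁻¹)⁻¹, inv_pos.2 hp, ?_, fun i => ?_⟩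
  · rw [inv_le_comm₀ hp ht]
    linarith
  · rw [inv_le_comm₀ hp (gb_rad_pos c i)]
    have h1 : (rad p c i)⁻¹ ≤ ∑ i : Fin p, (rad p c i)⁻¹ :=
      Finset.single_le_sum (f := fun i => (rad p c i)⁻¹)
        (fun i _ => inv_nonneg.2 (gb_rad_pos c i).le) (Finset.mem_univ i)
    have h2 : 0 < t⁻¹ := inv_pos.2 ht
    linarith

private lemma gb_Cv_sum {ι σ : Type} [Fintype σ] {ρ : σ → ℝ} (hρ : ∀ i, 0 ≤ ρ i) (s : Finset ι)
    (F : ι → MvPowerSeries σ ℂ) (h : ∀ i ∈ s, Cv ρ (F i)) : Cv ρ (∑ i ∈ s, F i) := by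
  classical
  induction s using Finset.induction_on with
  | empty =>
    have h0 := (Cv_monomial ρ (0 : σ →₀ ℕ) (0 : ℂ)).1
    rw [map_zero] at h0
    simpa using h0
  | insert a s ha ih =>
    rw [Finset.sum_insert ha]
    exact (Cv_add hρ (h a (Finset.mem_insert_self a s))
      (ih fun i hi => h i (Finset.mem_insert_of_mem hi))).1

private lemma gb_bound {ι : Type} (s : Finset ι) (g : ι → MvPowerSeries (Fin p) ℂ)
    (h : ∀ i ∈ s, ∃ c : ℝ, Cv (rad p c) (g i)) : ∃ D : ℝ, ∀ c, D ≤ c → ∀ i ∈ s, Cv (rad p c) (g i) := by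
  classical
  induction s using Finset.induction_on with
  | empty => exact ⟨0, fun c _ i hi => absurd hi (Finset.notMem_empty i)⟩
  | insert a s ha ih =>
    obtain ⟨D, hD⟩ := ih fun i hi => h i (Finset.mem_insert_of_mem hi)
    obtain ⟨c, hc⟩ := h a (Finset.mem_insert_self a s)
    refine ⟨max c D, fun c' hc' i hi => ?_⟩
    rw [Finset.mem_insert] at hi
    rcases hi with rfl | hi
    · exact Cv_mono (fun i => (gb_rad_pos c' i).le)
        (fun i => gb_rad_anti ((le_max_left _ _).trans hc') i) hc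
    · exact hD c' ((le_max_right _ _).trans hc') i hi

/-- AXG-G10a: Bautin for power series. Proof. Let `P` converge with radius `t` (all variables), and let
`I` be the set of finite sums `∑ g_i slice P ν_i` with convergent `g_i`. `std_basis` gives `g_1, …, g_s ∈ I`,
`c₁`. Take `c ≥ c₁` with `rad p c ≤ t`. Each `slice P ν` is in `I` and
`∑_ν nr (rad p c) (slice P ν) t^{|ν|} < ∞`; write `slice P ν = ∑_j q_{ν,j} g_j` with
`nr (q_{ν,j}) ≤ K nr (slice P ν)`, and let `G̃_j = ∑_ν q_{ν,j} x^ν`, a power series in all variables, convergent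
with the radii `(rad p c, t)`. `P = ∑_j g_j G̃_j`. Finally `g_j = ∑_{ν ∈ V} b_{j,ν} slice P ν` with a finite set
`V` and convergent `b_{j,ν}` (with a common radius), so `P = ∑_{ν ∈ V} (slice P ν) (∑_j b_{j,ν} G̃_j)`. -/
theorem bautin_ps {P : MvPowerSeries (Fin p ⊕ κ) ℂ} {t : ℝ} (ht : 0 < t) (hP : Cv (fun _ => t) P) :
    ∃ (V : Finset (κ →₀ ℕ)) (G : (κ →₀ ℕ) → MvPowerSeries (Fin p ⊕ κ) ℂ) (t' : ℝ), 0 < t' ∧
      (∀ ν ∈ V, Cv (fun _ => t') (G ν)) ∧ P = ∑ ν ∈ V, lft (slice P ν) * G ν := by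
  classical
  obtain ⟨c₀, hc₀⟩ := gb_rad_small (p := p) ht
  -- the slices converge
  have hPc : ∀ c, c₀ ≤ c → (∀ ν, Cv (rad p c) (slice P ν)) ∧
      Summable fun ν => nr (rad p c) (slice P ν) * mr (fun _ : κ => t) ν := by
    intro c hc
    rw [← gb_Cv_iff (fun i => (gb_rad_pos c i).le) ht]
    refine Cv_mono ?_ ?_ hP
    · rintro (i | j)
      · exact (gb_rad_pos c i).le
      · exact ht.le
    · rintro (i | j)
      · exact (gb_rad_anti hc i).trans (hc₀ i)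
      · exact le_rfl
  -- the module
  let I : Set (MvPowerSeries (Fin p) ℂ) := {f | ∃ (V : Finset (κ →₀ ℕ))
    (b : (κ →₀ ℕ) → MvPowerSeries (Fin p) ℂ), (∀ ν ∈ V, ∃ c : ℝ, Cv (rad p c) (b ν)) ∧
      f = ∑ ν ∈ V, b ν * slice P ν}
  have hnn : ∀ c : ℝ, ∀ i : Fin p, 0 ≤ rad p c i := fun c i => (gb_rad_pos c i).le
  have hI0 : (0 : MvPowerSeries (Fin p) ℂ) ∈ I := by
    exact ⟨∅, 0, fun ν hν => absurd hν (Finset.notMem_empty ν), by rw [Finset.sum_empty]⟩
  have hI1 : ∀ f ∈ I, ∃ c : ℝ, Cv (rad p c) f := by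
    rintro f ⟨V, b, hb, rfl⟩
    obtain ⟨D, hD⟩ := gb_bound V b hb
    refine ⟨max D c₀, gb_Cv_sum (hnn _) _ _ fun ν hν => ?_⟩
    exact (Cv_mul (hnn _) (hD _ (le_max_left _ _) ν hν) ((hPc _ (le_max_right _ _)).1 ν)).1
  have hI2 : ∀ f ∈ I, ∀ g ∈ I, f + g ∈ I := by
    rintro f ⟨V, b, hb, rfl⟩ f' ⟨V', b', hb', rfl⟩
    refine ⟨V ∪ V', fun ν => (if ν ∈ V then b ν else 0) + if ν ∈ V' then b' ν else 0, ?_, ?_⟩
    · intro ν _
      have h0 : ∀ c : ℝ, Cv (rad p c) (0 : MvPowerSeries (Fin p) ℂ) := fun c => by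
        have h0 := (Cv_monomial (rad p c) (0 : Fin p →₀ ℕ) (0 : ℂ)).1
        rwa [map_zero] at h0
      have h1 : ∃ c : ℝ, Cv (rad p c) (if ν ∈ V then b ν else 0) := by
        split_ifs with h
        · exact hb ν h
        · exact ⟨0, h0 0⟩
      have h2 : ∃ c : ℝ, Cv (rad p c) (if ν ∈ V' then b' ν else 0) := by
        split_ifs with h
        · exact hb' ν h
        · exact ⟨0, h0 0⟩
      obtain ⟨c, hc⟩ := h1
      obtain ⟨c', hc'⟩ := h2
      refine ⟨max c c', (Cv_add (hnn _) ?_ ?_).1⟩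
      · exact Cv_mono (hnn _) (gb_rad_anti (le_max_left _ _)) hc
      · exact Cv_mono (hnn _) (gb_rad_anti (le_max_right _ _)) hc'
    · have h1 : ∑ ν ∈ V, b ν * slice P ν =
          ∑ ν ∈ V ∪ V', (if ν ∈ V then b ν else 0) * slice P ν := by
        simp only [ite_mul, zero_mul]
        rw [← Finset.sum_filter]
        refine Finset.sum_congr ?_ fun _ _ => rfl
        ext ν
        rw [Finset.mem_filter, Finset.mem_union]
        exact ⟨fun h => ⟨Or.inl h, h⟩, fun h => h.2⟩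
      have h2 : ∑ ν ∈ V', b' ν * slice P ν =
          ∑ ν ∈ V ∪ V', (if ν ∈ V' then b' ν else 0) * slice P ν := by
        simp only [ite_mul, zero_mul]
        rw [← Finset.sum_filter]
        refine Finset.sum_congr ?_ fun _ _ => rfl
        ext ν
        rw [Finset.mem_filter, Finset.mem_union]
        exact ⟨fun h => ⟨Or.inr h, h⟩, fun h => h.2⟩
      rw [h1, h2, ← Finset.sum_add_distrib]
      refine Finset.sum_congr rfl fun ν _ => ?_
      rw [add_mul]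
  have hI3 : ∀ f ∈ I, ∀ g : MvPowerSeries (Fin p) ℂ, (∃ c : ℝ, Cv (rad p c) g) → g * f ∈ I := by
    rintro f ⟨V, b, hb, rfl⟩ g ⟨c, hc⟩
    refine ⟨V, fun ν => g * b ν, fun ν hν => ?_, ?_⟩
    · obtain ⟨c', hc'⟩ := hb ν hν
      refine ⟨max c c', (Cv_mul (hnn _) ?_ ?_).1⟩
      · exact Cv_mono (hnn _) (gb_rad_anti (le_max_left _ _)) hc
      · exact Cv_mono (hnn _) (gb_rad_anti (le_max_right _ _)) hc'
    · rw [Finset.mul_sum]
      refine Finset.sum_congr rfl fun ν _ => ?_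
      rw [mul_assoc]
  obtain ⟨s, g, c₁, hgI, hg⟩ := std_basis I hI0 hI1 hI2 hI3
  obtain ⟨-, K, hK, hdiv⟩ := hg (max c₀ c₁) (le_max_right _ _)
  set c := max c₀ c₁ with hcdef
  obtain ⟨hsl, hsum⟩ := hPc c (le_max_left _ _)
  have hslI : ∀ ν, slice P ν ∈ I := fun ν => by
    refine ⟨{ν}, fun _ => 1, fun _ _ => ⟨0, ?_⟩, ?_⟩
    · have h1 := (Cv_monomial (rad p 0) (0 : Fin p →₀ ℕ) (1 : ℂ)).1
      exact h1
    · rw [Finset.sum_singleton, one_mul]
  choose q hq1 hq2 using fun ν => hdiv (slice P ν) (hslI ν) (hsl ν)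
  choose V b hb1 hb2 using hgI
  -- the series
  let Gt : Fin s → MvPowerSeries (Fin p ⊕ κ) ℂ := fun j w =>
    coeff (Finsupp.sumFinsuppEquivProdFinsupp w).1 (q (Finsupp.sumFinsuppEquivProdFinsupp w).2 j)
  have hGt : ∀ j ν, slice (Gt j) ν = q ν j := by
    intro j ν
    ext μ
    rw [gb_coeff_slice]
    have h1 : Finsupp.sumFinsuppEquivProdFinsupp (Finsupp.sumElim μ ν) = (μ, ν) := by
      refine Prod.ext ?_ ?_
      · ext i
        simp
      · ext i
        simp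
    show coeff (Finsupp.sumFinsuppEquivProdFinsupp (Finsupp.sumElim μ ν)).1
      (q (Finsupp.sumFinsuppEquivProdFinsupp (Finsupp.sumElim μ ν)).2 j) = _
    rw [h1]
  have hGtc : ∀ j, Cv (Sum.elim (rad p c) (fun _ => t)) (Gt j) := by
    intro j
    rw [gb_Cv_iff (hnn c) ht]
    refine ⟨fun ν => ?_, ?_⟩
    · rw [hGt]
      exact (hq1 ν j).1
    · refine Summable.of_nonneg_of_le (fun ν => ?_) (fun ν => ?_) (hsum.mul_left K)
      · exact mul_nonneg (nr_nonneg (hnn c) _) (mr_nonneg (fun _ => ht.le) _)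
      · rw [hGt, ← mul_assoc]
        exact mul_le_mul_of_nonneg_right (hq1 ν j).2 (mr_nonneg (fun _ => ht.le) _)
  -- a common radius
  have hD : ∀ j, ∃ D : ℝ, ∀ c, D ≤ c → ∀ ν ∈ V j, Cv (rad p c) (b j ν) := fun j =>
    gb_bound (V j) (b j) (hb1 j)
  choose D hD using hD
  obtain ⟨t', ht'0, ht't, ht'r⟩ := gb_lower (p := p) (c ⊔ ∑ j, |D j|) ht
  have hDle : ∀ j, D j ≤ c ⊔ ∑ j, |D j| := fun j =>
    ((le_abs_self _).trans (Finset.single_le_sum (f := fun j => |D j|)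
      (fun j _ => abs_nonneg _) (Finset.mem_univ j))).trans le_sup_right
  refine ⟨Finset.univ.biUnion V, fun ν => ∑ j, if ν ∈ V j then lft (b j ν) * Gt j else 0, t', ht'0,
    ?_, ?_⟩
  · intro ν _
    refine gb_Cv_sum (fun _ => ht'0.le) _ _ fun j _ => ?_
    split_ifs with hν
    · refine (Cv_mul (fun _ => ht'0.le) ?_ ?_).1
      · have h1 : Cv (fun _ => t') (b j ν) := Cv_mono (fun _ => ht'0.le) ht'r
          (hD j _ (hDle j) ν hν)
        exact (ev_lft (κ := κ) h1 (b := 0) (x := 0)).1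
      · refine Cv_mono (fun _ => ht'0.le) ?_ (hGtc j)
        rintro (i | i)
        · exact (ht'r i).trans (gb_rad_anti le_sup_left i)
        · exact ht't
    · have h0 := (Cv_monomial (fun _ : Fin p ⊕ κ => t') (0 : Fin p ⊕ κ →₀ ℕ) (0 : ℂ)).1
      rwa [map_zero] at h0
  · apply gb_ext
    intro ν
    rw [gb_slice_sum]
    have h1 : ∀ ν' ∈ Finset.univ.biUnion V,
        slice (lft (slice P ν') * ∑ j, if ν' ∈ V j then lft (b j ν') * Gt j else 0) ν =
          ∑ j, if ν' ∈ V j then q ν j * (b j ν' * slice P ν') else 0 := by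
      intro ν' _
      rw [gb_slice_lft_mul, gb_slice_sum, Finset.mul_sum]
      refine Finset.sum_congr rfl fun j _ => ?_
      split_ifs with h
      · rw [gb_slice_lft_mul, hGt]
        ring
      · have h2 : slice (0 : MvPowerSeries (Fin p ⊕ κ) ℂ) ν = 0 := by
          ext μ
          rw [gb_coeff_slice, map_zero, map_zero]
        rw [h2, mul_zero]
    rw [Finset.sum_congr rfl h1, Finset.sum_comm]
    rw [hq2 ν]
    refine Finset.sum_congr rfl fun j _ => ?_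
    rw [hb2 j, Finset.mul_sum, ← Finset.sum_filter]
    refine Finset.sum_congr ?_ fun _ _ => rfl
    ext ν'
    rw [Finset.mem_filter, Finset.mem_biUnion]
    exact ⟨fun h => ⟨⟨j, Finset.mem_univ j, h⟩, h⟩, fun h => h.2⟩

end Pool.Agent.Helper94.AXG
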