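import Pool.Agent.Helper94.AXG.G1B

/-! # AXG-G5B -/

namespace Pool.Agent.Helper94.AXG

open MvPowerSeries Filter Topology

variable {ι : Type} [Fintype ι]

private theorem mr_opt (ρ : Option ι → ℝ) (j : ℕ) (μ : ι →₀ ℕ) :
    mr ρ (μ.optionElim j) = ρ none ^ j * mr (fun i => ρ (some i)) μ := by
  unfold mr
  rw [Fintype.prod_option]
  simp

private theorem mo_opt (w : Option ι → ℂ) (j : ℕ) (μ : ι →₀ ℕ) :
    mo w (μ.optionElim j) = w none ^ j * mo (fun i => w (some i)) μ := by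
  unfold mo
  rw [Fintype.prod_option]
  simp

omit [Fintype ι] in
private theorem opt_inj (j : ℕ) :
    Function.Injective (fun μ : ι →₀ ℕ => (μ.optionElim j : Option ι →₀ ℕ)) := fun a b h => by
  have h1 := congrArg Finsupp.some h
  simpa using h1

/-- AXG-G5b: the coefficients of a polynomial in `z` -/
theorem zcoeff {m : ℕ} {ρ : Option ι → ℝ} (hρ : ∀ i, 0 < ρ i) {R : MvPowerSeries (Option ι) ℂ}
    (hR : Cv ρ R) (h : ∀ ν, m ≤ ν none → coeff ν R = 0) :
    ∃ Rj : Fin m → MvPowerSeries ι ℂ,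
      (∀ j, Cv (fun i => ρ (some i)) (Rj j) ∧
        nr (fun i => ρ (some i)) (Rj j) * ρ none ^ (j : ℕ) ≤ nr ρ R) ∧
      ∀ w : Option ι → ℂ, (∀ i, ‖w i‖ ≤ ρ i) →
        ev R w = ∑ j, ev (Rj j) (fun i => w (some i)) * w none ^ (j : ℕ) := by
  refine ⟨fun j => (fun μ : ι →₀ ℕ => coeff (μ.optionElim (j : ℕ)) R), fun j => ⟨?_, ?_⟩, ?_⟩
  · have h1 : Summable (fun μ : ι →₀ ℕ =>
        ‖coeff (μ.optionElim (j : ℕ)) R‖ * mr ρ (μ.optionElim (j : ℕ))) :=
      hR.comp_injective (opt_inj (j : ℕ))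
    have h2 : (fun μ : ι →₀ ℕ =>
        ‖coeff (μ.optionElim (j : ℕ)) R‖ * mr ρ (μ.optionElim (j : ℕ))) =
        fun μ : ι →₀ ℕ => ρ none ^ (j : ℕ) *
          (‖coeff (μ.optionElim (j : ℕ)) R‖ * mr (fun i => ρ (some i)) μ) := by
      funext μ
      rw [mr_opt]
      ring
    rw [h2, summable_mul_left_iff (pow_pos (hρ none) _).ne'] at h1
    exact h1
  · have h3 : nr (fun i => ρ (some i))
        ((fun μ : ι →₀ ℕ => coeff (μ.optionElim (j : ℕ)) R) : MvPowerSeries ι ℂ) *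
          ρ none ^ (j : ℕ) =
        ∑' μ : ι →₀ ℕ, ‖coeff (μ.optionElim (j : ℕ)) R‖ * mr ρ (μ.optionElim (j : ℕ)) := by
      unfold nr
      rw [← tsum_mul_right]
      refine tsum_congr fun μ => ?_
      rw [mr_opt]
      change ‖coeff (μ.optionElim (j : ℕ)) R‖ * _ * _ = _
      ring
    rw [h3]
    exact (hR.comp_injective (opt_inj (j : ℕ))).tsum_le_tsum_of_inj _ (opt_inj (j : ℕ))
      (fun ν _ => mul_nonneg (norm_nonneg _) (mr_nonneg (fun i => (hρ i).le) ν))
      (fun μ => le_rfl) hR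
  · intro w hw
    have hs : Summable (fun ν : Option ι →₀ ℕ => coeff ν R * mo w ν) :=
      (ev_summable hR hw).of_norm
    have hs2 : Summable (fun p : ℕ × (ι →₀ ℕ) =>
        coeff (p.2.optionElim p.1) R * mo w (p.2.optionElim p.1)) :=
      (Finsupp.optionEquiv.symm.summable_iff (f := fun ν : Option ι →₀ ℕ =>
        coeff ν R * mo w ν)).2 hs
    have h1 : ev R w = ∑' p : ℕ × (ι →₀ ℕ),
        coeff (p.2.optionElim p.1) R * mo w (p.2.optionElim p.1) := by
      unfold ev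
      exact (Finsupp.optionEquiv.symm.tsum_eq (fun ν : Option ι →₀ ℕ =>
        coeff ν R * mo w ν)).symm
    rw [h1, hs2.tsum_prod, tsum_eq_sum (s := Finset.range m), Finset.sum_range]
    · refine Finset.sum_congr rfl fun j _ => ?_
      unfold ev
      rw [← tsum_mul_right]
      refine tsum_congr fun μ => ?_
      rw [mo_opt]
      change _ = coeff (μ.optionElim (j : ℕ)) R * _ * _
      ring
    · intro j hj
      rw [Finset.mem_range, not_lt] at hj
      refine (tsum_congr fun μ => ?_).trans tsum_zero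
      rw [h _ (by simpa using hj), zero_mul]

end Pool.Agent.Helper94.AXG
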