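import Pool.Agent.Helper94.AXG.G5
import Pool.Agent.Helper94.AXG.G5B
import Pool.Agent.Helper94.AXG.G1D

/-! # AXG-G13 -/

namespace Pool.Agent.Helper94.AXG

open MvPowerSeries Filter Topology

variable {ι : Type} [Fintype ι]

private lemma g13_C {κ : Type} [Fintype κ] (ρ : κ → ℝ) (c : ℂ) :
    Cv ρ (C c : MvPowerSeries κ ℂ) ∧ nr ρ (C c : MvPowerSeries κ ℂ) = ‖c‖ := by
  have h := Cv_monomial ρ (0 : κ →₀ ℕ) c
  rw [monomial_zero_eq_C_apply] at h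
  refine ⟨h.1, h.2.trans ?_⟩
  unfold mr
  simp

private lemma g13_evC {κ : Type} [Fintype κ] (c : ℂ) (y : κ → ℂ) :
    ev (C c : MvPowerSeries κ ℂ) y = c := by
  have h := ev_monomial (0 : κ →₀ ℕ) c y
  rw [monomial_zero_eq_C_apply] at h
  rw [h]
  unfold mo
  simp

private lemma g13_X {κ : Type} [Fintype κ] [DecidableEq κ] (ρ : κ → ℝ) (s : κ) :
    Cv ρ (X s : MvPowerSeries κ ℂ) ∧ nr ρ (X s : MvPowerSeries κ ℂ) = ρ s := by
  have h := Cv_monomial ρ (Finsupp.single s 1) (1 : ℂ)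
  refine ⟨h.1, h.2.trans ?_⟩
  unfold mr
  rw [norm_one, one_mul, Finset.prod_eq_single s]
  · simp
  · intro b _ hb
    rw [Finsupp.single_apply, if_neg (Ne.symm hb), pow_zero]
  · intro h; exact absurd (Finset.mem_univ s) h

private lemma g13_evX {κ : Type} [Fintype κ] [DecidableEq κ] (s : κ) (y : κ → ℂ) :
    ev (X s : MvPowerSeries κ ℂ) y = y s := by
  have h := ev_monomial (Finsupp.single s 1) (1 : ℂ) y
  refine h.trans ?_
  unfold mo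
  rw [one_mul, Finset.prod_eq_single s]
  · simp
  · intro b _ hb
    rw [Finsupp.single_apply, if_neg (Ne.symm hb), pow_zero]
  · intro h; exact absurd (Finset.mem_univ s) h

private lemma g13_one {κ : Type} [Fintype κ] (ρ : κ → ℝ) :
    Cv ρ (1 : MvPowerSeries κ ℂ) ∧ nr ρ (1 : MvPowerSeries κ ℂ) = 1 := by
  have h := g13_C ρ (1 : ℂ)
  rw [map_one, norm_one] at h
  exact h

private lemma g13_evone {κ : Type} [Fintype κ] (y : κ → ℂ) :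
    ev (1 : MvPowerSeries κ ℂ) y = 1 := by
  have h := g13_evC (1 : ℂ) y
  rwa [map_one] at h

private lemma g13_pow {κ : Type} [Fintype κ] {ρ : κ → ℝ} (hρ : ∀ i, 0 ≤ ρ i)
    {f : MvPowerSeries κ ℂ} (hf : Cv ρ f) (n : ℕ) :
    Cv ρ (f ^ n) ∧ nr ρ (f ^ n) ≤ nr ρ f ^ n := by
  induction n with
  | zero =>
    rw [pow_zero, pow_zero]
    exact ⟨(g13_one ρ).1, (g13_one ρ).2.le⟩
  | succ n ih =>
    rw [pow_succ, pow_succ]
    have h := Cv_mul hρ ih.1 hf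
    exact ⟨h.1, h.2.trans (mul_le_mul_of_nonneg_right ih.2 (nr_nonneg hρ f))⟩

private lemma g13_evpow {κ : Type} [Fintype κ] {ρ : κ → ℝ} (hρ : ∀ i, 0 ≤ ρ i)
    {f : MvPowerSeries κ ℂ} (hf : Cv ρ f) {y : κ → ℂ} (hy : ∀ i, ‖y i‖ ≤ ρ i) (n : ℕ) :
    ev (f ^ n) y = ev f y ^ n := by
  induction n with
  | zero => rw [pow_zero, pow_zero, g13_evone]
  | succ n ih => rw [pow_succ, pow_succ, ev_mul (g13_pow hρ hf n).1 hf hy, ih]

private lemma g13_prod {κ : Type} [Fintype κ] {ρ : κ → ℝ} (hρ : ∀ i, 0 ≤ ρ i) {n : ℕ}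
    {f : Fin n → MvPowerSeries κ ℂ} (hf : ∀ i, Cv ρ (f i)) {B : Fin n → ℝ}
    (hB : ∀ i, nr ρ (f i) ≤ B i) {y : κ → ℂ} (hy : ∀ i, ‖y i‖ ≤ ρ i) (s : Finset (Fin n)) :
    Cv ρ (∏ i ∈ s, f i) ∧ nr ρ (∏ i ∈ s, f i) ≤ ∏ i ∈ s, B i ∧
      ev (∏ i ∈ s, f i) y = ∏ i ∈ s, ev (f i) y := by
  classical
  induction s using Finset.induction_on with
  | empty =>
    simp only [Finset.prod_empty]
    exact ⟨(g13_one ρ).1, (g13_one ρ).2.le, g13_evone y⟩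
  | insert a s ha ih =>
    rw [Finset.prod_insert ha, Finset.prod_insert ha, Finset.prod_insert ha]
    have h := Cv_mul hρ (hf a) ih.1
    refine ⟨h.1, h.2.trans ?_, ?_⟩
    · exact mul_le_mul (hB a) ih.2.1 (nr_nonneg hρ _) ((nr_nonneg hρ _).trans (hB a))
    · rw [ev_mul (hf a) ih.1 hy, ih.2.2]

/-- the linear forms -/
private noncomputable def g13_G {r : ℕ} (x₀ : Fin (r + 1) → ℂ) (c : Fin r → ℤ) (i : Fin (r + 1)) :
    MvPowerSeries (Option (ι ⊕ Fin r)) ℂ :=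
  C (x₀ i) + (Fin.snoc (fun j => X (some (Sum.inr j)) + C ((c j : ℤ) : ℂ) * X none) (X none) :
    Fin (r + 1) → MvPowerSeries (Option (ι ⊕ Fin r)) ℂ) i

private lemma g13_lin {r : ℕ} (x₀ : Fin (r + 1) → ℂ) (c : Fin r → ℤ)
    {ρ : Option (ι ⊕ Fin r) → ℝ} (hρ : ∀ i, 0 ≤ ρ i) (hρ1 : ∀ i, ρ i ≤ 1) (i : Fin (r + 1)) :
    Cv ρ (g13_G (ι := ι) x₀ c i) ∧
      nr ρ (g13_G (ι := ι) x₀ c i) ≤ 1 + ∑ i, ‖x₀ i‖ + ∑ j, ‖((c j : ℤ) : ℂ)‖ ∧
      ∀ (b : ι → ℂ) (x : Fin r → ℂ) (z : ℂ),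
        (∀ o : Option (ι ⊕ Fin r), ‖o.elim z (Sum.elim b x)‖ ≤ ρ o) →
        ev (g13_G (ι := ι) x₀ c i) (fun o => o.elim z (Sum.elim b x)) =
          x₀ i + (Fin.snoc (fun j => x j + c j * z) z : Fin (r + 1) → ℂ) i := by
  classical
  have hcs : 0 ≤ ∑ j, ‖((c j : ℤ) : ℂ)‖ := Finset.sum_nonneg fun j _ => norm_nonneg _
  have hXn := g13_X ρ (none : Option (ι ⊕ Fin r))
  have hx0 : ‖x₀ i‖ ≤ ∑ i, ‖x₀ i‖ :=
    Finset.single_le_sum (f := fun i => ‖x₀ i‖) (fun i _ => norm_nonneg _) (Finset.mem_univ i)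
  have hC := g13_C ρ (x₀ i)
  induction i using Fin.lastCases with
  | last =>
    have hG : g13_G (ι := ι) x₀ c (Fin.last r) = C (x₀ (Fin.last r)) + X none := by
      unfold g13_G
      rw [Fin.snoc_last]
    rw [hG]
    have h := Cv_add hρ hC.1 hXn.1
    refine ⟨h.1, ?_, fun b x z hw => ?_⟩
    · have h1 := h.2
      rw [hC.2, hXn.2] at h1
      have h2 := hρ1 none
      linarith
    · rw [ev_add hC.1 hXn.1 hw, g13_evC, g13_evX, Fin.snoc_last]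
      rfl
  | cast j =>
    have hG : g13_G (ι := ι) x₀ c (Fin.castSucc j) =
        C (x₀ (Fin.castSucc j)) + (X (some (Sum.inr j)) + C ((c j : ℤ) : ℂ) * X none) := by
      unfold g13_G
      rw [Fin.snoc_castSucc]
    rw [hG]
    have hXj := g13_X ρ (some (Sum.inr j) : Option (ι ⊕ Fin r))
    have hcj := g13_C ρ ((c j : ℤ) : ℂ)
    have hm := Cv_smul ρ hXn.1 ((c j : ℤ) : ℂ)
    have h0 := Cv_add hρ hXj.1 hm.1
    have h := Cv_add hρ hC.1 h0.1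
    have hcj' : ‖((c j : ℤ) : ℂ)‖ ≤ ∑ j, ‖((c j : ℤ) : ℂ)‖ :=
      Finset.single_le_sum (f := fun j => ‖((c j : ℤ) : ℂ)‖) (fun j _ => norm_nonneg _)
        (Finset.mem_univ j)
    refine ⟨h.1, ?_, fun b x z hw => ?_⟩
    · have h1 := h.2
      have h2 := h0.2
      rw [hC.2] at h1
      rw [hXj.2, hm.2, hXn.2] at h2
      have h3 := hρ1 none
      have h4 := hρ1 (some (Sum.inr j))
      have h5 : ‖((c j : ℤ) : ℂ)‖ * ρ none ≤ ‖((c j : ℤ) : ℂ)‖ * 1 :=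
        mul_le_mul_of_nonneg_left h3 (norm_nonneg _)
      linarith
    · rw [ev_add hC.1 h0.1 hw, ev_add hXj.1 hm.1 hw, ev_mul hcj.1 hXn.1 hw, g13_evC, g13_evC,
        g13_evX, g13_evX, Fin.snoc_castSucc]
      rfl

/-- AXG-G13a: remainders of the monomials. `P` is regular of order `m` in the variable `none`; the other
variables are `b : ι` and `x̄ : Fin r`. For a fixed small polyradius (all radii equal to `ρ` after shrinking
the radii of the other variables to a common `ρ`; `none` has its own radius `ρz`) and every choice of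
centre `x₀ : Fin (r+1) → ℂ` and `c : Fin r → ℤ` there is `K` such that for each `D` and `α : Fin (r+1) → Fin (D+1)`
the function `(x₀ + (x̄ + c z, z))^α` has a remainder `∑_{j < m} R_j(b, x̄) z^j` modulo `P` with norms `≤ K^(D+1)`.
Proof. `weier_ps` with `P`, `ε = min t₀ 1`; `nr` of the polynomial `(x₀ + (x̄ + c z, z))^α` is at most
`(1 + ‖x₀‖ + (1 + ‖c‖) ρ)^{(r+1) D}`; divide; `zcoeff`; the radii of the remaining variables can be
decreased to a common one (`Cv_mono`). -/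
theorem remainders {r m : ℕ} {P : MvPowerSeries (Option (ι ⊕ Fin r)) ℂ} {t₀ : ℝ} (ht₀ : 0 < t₀)
    (hP : Cv (fun _ => t₀) P) (hlow : ∀ j, j < m → coeff (Finsupp.single none j) P = 0)
    (hm : coeff (Finsupp.single none m) P ≠ 0) (x₀ : Fin (r + 1) → ℂ) (c : Fin r → ℤ) :
    ∃ (ρ K : ℝ), 0 < ρ ∧ ρ ≤ 1 ∧ 1 ≤ K ∧ ∀ (D : ℕ) (α : Fin (r + 1) → Fin (D + 1)),
      ∃ R : Fin m → MvPowerSeries (ι ⊕ Fin r) ℂ, (∀ j, Cv (fun _ => ρ) (R j) ∧
        nr (fun _ => ρ) (R j) ≤ K ^ (D + 1)) ∧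
      ∀ (b : ι → ℂ) (x : Fin r → ℂ) (z : ℂ), (∀ i, ‖b i‖ ≤ ρ) → (∀ j, ‖x j‖ ≤ ρ) → ‖z‖ ≤ ρ →
        ev P (fun o => o.elim z (Sum.elim b x)) = 0 →
        ∏ i, (x₀ i + (Fin.snoc (fun j => x j + c j * z) z : Fin (r + 1) → ℂ) i) ^ (α i : ℕ) =
          ∑ j, ev (R j) (Sum.elim b x) * z ^ (j : ℕ) := by
  classical
  obtain ⟨ρ, hρ, hdiv⟩ := weier_ps ht₀ hP hlow hm (one_pos : (0 : ℝ) < 1)
  have hρ0 : ∀ i, 0 ≤ ρ i := fun i => (hρ i).1.le
  have hP' : Cv ρ P := Cv_mono hρ0 (fun i => (hρ i).2.2) hP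
  -- the common radius
  obtain ⟨ρ₁, hρ₁, hmin⟩ : ∃ ρ₁ : ℝ, 0 < ρ₁ ∧ ∀ i, ρ₁ ≤ ρ i :=
    ⟨Finset.univ.inf' ⟨none, Finset.mem_univ _⟩ ρ,
      (Finset.lt_inf'_iff _).2 fun i _ => (hρ i).1, fun i => Finset.inf'_le _ (Finset.mem_univ i)⟩
  have hρ₁1 : ρ₁ ≤ 1 := (hmin none).trans (hρ none).2.1
  set B : ℝ := 1 + ∑ i, ‖x₀ i‖ + ∑ j, ‖((c j : ℤ) : ℂ)‖ with hB
  have hxs : 0 ≤ ∑ i, ‖x₀ i‖ := Finset.sum_nonneg fun j _ => norm_nonneg _
  have hcs : 0 ≤ ∑ j, ‖((c j : ℤ) : ℂ)‖ := Finset.sum_nonneg fun j _ => norm_nonneg _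
  have hB1 : 1 ≤ B := by rw [hB]; linarith
  have hB0 : 0 ≤ B := zero_le_one.trans hB1
  have hn0 : 0 < ρ none := (hρ none).1
  have hn1 : ρ none ≤ 1 := (hρ none).2.1
  have hnm : 0 < ρ none ^ m := pow_pos hn0 m
  have hnm1 : ρ none ^ m ≤ 1 := pow_le_one₀ hn0.le hn1
  have hBr : 1 ≤ B ^ (r + 1) := one_le_pow₀ hB1
  set K : ℝ := 2 * B ^ (r + 1) / ρ none ^ m with hK
  have hK1 : B ^ (r + 1) ≤ K := by
    rw [hK, le_div_iff₀ hnm]
    nlinarith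
  have hK2 : 2 / ρ none ^ m ≤ K := by
    rw [hK]
    exact div_le_div_of_nonneg_right (by linarith) hnm.le
  have hK0 : 1 ≤ K := hBr.trans hK1
  refine ⟨ρ₁, K, hρ₁, hρ₁1, hK0, fun D α => ?_⟩
  have hGall := fun i => g13_lin (ι := ι) x₀ c hρ0 (fun i => (hρ i).2.1) i
  have hpw : ∀ i, Cv ρ (g13_G (ι := ι) x₀ c i ^ (α i : ℕ)) := fun i =>
    (g13_pow hρ0 (hGall i).1 _).1
  have hpwn : ∀ i, nr ρ (g13_G (ι := ι) x₀ c i ^ (α i : ℕ)) ≤ B ^ D := fun i => by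
    have h1 : nr ρ (g13_G (ι := ι) x₀ c i ^ (α i : ℕ)) ≤ nr ρ (g13_G (ι := ι) x₀ c i) ^ (α i : ℕ) :=
      (g13_pow hρ0 (hGall i).1 _).2
    have h2 : nr ρ (g13_G (ι := ι) x₀ c i) ^ (α i : ℕ) ≤ B ^ (α i : ℕ) :=
      pow_le_pow_left₀ (nr_nonneg hρ0 _) (hGall i).2.1 _
    have h3 : B ^ (α i : ℕ) ≤ B ^ D := pow_le_pow_right₀ hB1 (by have := (α i).2; omega)
    exact h1.trans (h2.trans h3)
  have hF0 := fun (y : Option (ι ⊕ Fin r) → ℂ) (hy : ∀ i, ‖y i‖ ≤ ρ i) =>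
    g13_prod hρ0 hpw hpwn hy Finset.univ
  have hF := hF0 (fun _ => 0) (fun i => by rw [norm_zero]; exact hρ0 i)
  have hFn : nr ρ (∏ i, g13_G (ι := ι) x₀ c i ^ (α i : ℕ)) ≤ (B ^ (r + 1)) ^ D := by
    refine hF.2.1.trans (le_of_eq ?_)
    rw [Finset.prod_const, Finset.card_univ, Fintype.card_fin, ← pow_mul, ← pow_mul, mul_comm]
  obtain ⟨q, R, hq, hR, hFqR, hRz, hRn⟩ := hdiv _ hF.1
  obtain ⟨Rj, hRj, hRev⟩ := zcoeff (fun i => (hρ i).1) hR hRz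
  refine ⟨Rj, fun j => ⟨Cv_mono (fun _ => hρ₁.le) (fun i => hmin (some i)) (hRj j).1, ?_⟩,
    fun b x z hb hx hz hPz => ?_⟩
  · have h1 : nr (fun _ => ρ₁) (Rj j) ≤ nr (fun i => ρ (some i)) (Rj j) :=
      nr_mono (fun _ => hρ₁.le) (fun i => hmin (some i)) (hRj j).1
    have h2 := (hRj j).2
    have h3 : ρ none ^ m ≤ ρ none ^ (j : ℕ) := pow_le_pow_of_le_one hn0.le hn1 j.2.le
    have h4 : nr (fun i => ρ (some i)) (Rj j) * ρ none ^ m ≤ 2 * (B ^ (r + 1)) ^ D :=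
      (mul_le_mul_of_nonneg_left h3 (nr_nonneg (fun i => hρ0 (some i)) _)).trans
        (h2.trans (hRn.trans (mul_le_mul_of_nonneg_left hFn zero_le_two)))
    have h5 : nr (fun i => ρ (some i)) (Rj j) ≤ 2 * (B ^ (r + 1)) ^ D / ρ none ^ m := by
      rw [le_div_iff₀ hnm]; exact h4
    have h6 : 2 * (B ^ (r + 1)) ^ D / ρ none ^ m = (B ^ (r + 1)) ^ D * (2 / ρ none ^ m) := by ring
    rw [pow_succ]
    refine h1.trans (h5.trans ?_)
    rw [h6]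
    exact mul_le_mul (pow_le_pow_left₀ (zero_le_one.trans hBr) hK1 D) hK2
      (div_nonneg zero_le_two hnm.le) (pow_nonneg (zero_le_one.trans hK0) D)
  · have hw : ∀ o : Option (ι ⊕ Fin r), ‖o.elim z (Sum.elim b x)‖ ≤ ρ o := by
      intro o
      refine le_trans ?_ (hmin o)
      rcases o with _ | (i | j)
      · exact hz
      · exact hb i
      · exact hx j
    have h1 := (hF0 (fun o => o.elim z (Sum.elim b x)) hw).2.2
    have h2 : ev (∏ i, g13_G (ι := ι) x₀ c i ^ (α i : ℕ)) (fun o => o.elim z (Sum.elim b x)) =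
        ev R (fun o => o.elim z (Sum.elim b x)) := by
      rw [hFqR, ev_add (Cv_mul hρ0 hq hP').1 hR hw, ev_mul hq hP' hw, hPz, mul_zero, zero_add]
    have h3 := hRev (fun o => o.elim z (Sum.elim b x)) hw
    have h4 : ∀ i, ev (g13_G (ι := ι) x₀ c i ^ (α i : ℕ)) (fun o => o.elim z (Sum.elim b x)) =
        (x₀ i + (Fin.snoc (fun j => x j + c j * z) z : Fin (r + 1) → ℂ) i) ^ (α i : ℕ) := fun i => by
      rw [g13_evpow hρ0 (hGall i).1 hw, (hGall i).2.2 b x z hw]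
    rw [h2, h3] at h1
    rw [← Finset.prod_congr rfl fun i _ => h4 i, ← h1]
    rfl

end Pool.Agent.Helper94.AXG
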