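import Pool.Agent.Helper94.AXG.G1A

/-! # AXG-G1B -/

namespace Pool.Agent.Helper94.AXG

open MvPowerSeries Filter Topology

variable {ι κ : Type} [Fintype ι] [Fintype κ]

private theorem term_le {ρ : ι → ℝ} (f : MvPowerSeries ι ℂ) {y : ι → ℂ}
    (hy : ∀ i, ‖y i‖ ≤ ρ i) (ν : ι →₀ ℕ) :
    ‖coeff ν f * mo y ν‖ ≤ ‖coeff ν f‖ * mr ρ ν := by
  rw [norm_mul, norm_mo]
  exact mul_le_mul_of_nonneg_left (mr_mono (fun i => norm_nonneg _) hy ν) (norm_nonneg _)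

theorem ev_summable {ρ : ι → ℝ} {f : MvPowerSeries ι ℂ} (hf : Cv ρ f) {y : ι → ℂ}
    (hy : ∀ i, ‖y i‖ ≤ ρ i) : Summable fun ν => ‖coeff ν f * mo y ν‖ :=
  Summable.of_nonneg_of_le (fun _ => norm_nonneg _) (fun ν => term_le f hy ν) hf

theorem norm_ev_le {ρ : ι → ℝ} {f : MvPowerSeries ι ℂ} (hf : Cv ρ f) {y : ι → ℂ}
    (hy : ∀ i, ‖y i‖ ≤ ρ i) : ‖ev f y‖ ≤ nr ρ f := by
  have h1 := ev_summable hf hy
  exact (norm_tsum_le_tsum_norm h1).trans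
    (Summable.tsum_le_tsum (fun ν => term_le f hy ν) h1 hf)

theorem ev_add {ρ : ι → ℝ} {f g : MvPowerSeries ι ℂ} (hf : Cv ρ f) (hg : Cv ρ g) {y : ι → ℂ}
    (hy : ∀ i, ‖y i‖ ≤ ρ i) : ev (f + g) y = ev f y + ev g y := by
  have h1 : Summable fun ν => coeff ν f * mo y ν := (ev_summable hf hy).of_norm
  have h2 : Summable fun ν => coeff ν g * mo y ν := (ev_summable hg hy).of_norm
  unfold ev
  rw [← h1.tsum_add h2]
  refine tsum_congr fun ν => ?_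
  rw [map_add, add_mul]

theorem ev_monomial (μ : ι →₀ ℕ) (c : ℂ) (y : ι → ℂ) : ev (monomial μ c) y = c * mo y μ := by
  classical
  unfold ev
  rw [tsum_eq_single μ]
  · rw [coeff_monomial, if_pos rfl]
  · intro ν hν
    rw [coeff_monomial, if_neg hν, zero_mul]

end Pool.Agent.Helper94.AXG
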