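import Pool.Agent.Helper94.AXG.G1D
import Pool.Agent.Helper94.AXG.G1E
import Pool.Agent.Helper94.AXG.G1F

/-! # AXG-G2 -/

namespace Pool.Agent.Helper94.AXG

open MvPowerSeries Filter Topology

variable {ι κ : Type} [Fintype ι] [Fintype κ]

/-- two functions with convergent power series: a common radius -/
private theorem G2_common {f g : (ι → ℂ) → ℂ} (hf : CA f) (hg : CA g) :
    ∃ (P Q : MvPowerSeries ι ℂ) (t : ℝ), 0 < t ∧ Cv (fun _ => t) P ∧ Cv (fun _ => t) Q ∧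
      (∀ y : ι → ℂ, (∀ i, ‖y i‖ ≤ t) → f y = ev P y) ∧
      ∀ y : ι → ℂ, (∀ i, ‖y i‖ ≤ t) → g y = ev Q y := by
  obtain ⟨P, t, ht, hP, hf⟩ := hf
  obtain ⟨Q, s, hs, hQ, hg⟩ := hg
  have hm : 0 < min t s := lt_min ht hs
  exact ⟨P, Q, min t s, hm,
    Cv_mono (ρ := fun _ => t) (ρ' := fun _ => min t s) (fun _ => hm.le)
      (fun _ => min_le_left _ _) hP,
    Cv_mono (ρ := fun _ => s) (ρ' := fun _ => min t s) (fun _ => hm.le)
      (fun _ => min_le_right _ _) hQ,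
    fun y hy => hf y fun i => (hy i).trans (min_le_left _ _),
    fun y hy => hg y fun i => (hy i).trans (min_le_right _ _)⟩

/-- AXG-G2 (routine from G1, G1B; take the smaller radius) -/
theorem CA_congr {f g : (ι → ℂ) → ℂ} (hg : CA g) (h : ∀ᶠ y in 𝓝 (0 : ι → ℂ), f y = g y) : CA f := by
  obtain ⟨P, t, ht, hP, hg⟩ := hg
  obtain ⟨ε, hε, h⟩ := Metric.eventually_nhds_iff.1 h
  have hm : 0 < min t (ε / 2) := lt_min ht (by linarith)
  refine ⟨P, min t (ε / 2), hm, Cv_mono (ρ := fun _ => t) (ρ' := fun _ => min t (ε / 2))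
    (fun _ => hm.le) (fun _ => min_le_left _ _) hP, fun y hy => ?_⟩
  rw [h, hg y fun i => (hy i).trans (min_le_left _ _)]
  rw [dist_zero_right]
  have h1 : ‖y‖ ≤ ε / 2 :=
    (pi_norm_le_iff_of_nonneg (by linarith)).2 fun i => (hy i).trans (min_le_right _ _)
  linarith

theorem CA_const (c : ℂ) : CA (fun _ : ι → ℂ => c) := by
  refine ⟨monomial 0 c, 1, one_pos, (Cv_monomial _ 0 c).1, fun y _ => ?_⟩
  rw [ev_monomial]
  simp [mo]

theorem CA_coord (i : ι) : CA (fun y : ι → ℂ => y i) := by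
  classical
  refine ⟨monomial (Finsupp.single i 1) 1, 1, one_pos, (Cv_monomial _ _ 1).1, fun y _ => ?_⟩
  rw [ev_monomial, one_mul, mo, Finset.prod_eq_single i]
  · rw [Finsupp.single_eq_same, pow_one]
  · intro j _ hj
    rw [Finsupp.single_eq_of_ne hj, pow_zero]
  · intro h
    exact absurd (Finset.mem_univ i) h

theorem CA_add {f g : (ι → ℂ) → ℂ} (hf : CA f) (hg : CA g) : CA (fun y => f y + g y) := by
  obtain ⟨P, Q, t, ht, hP, hQ, h1, h2⟩ := G2_common hf hg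
  refine ⟨P + Q, t, ht, (Cv_add (fun _ => ht.le) hP hQ).1, fun y hy => ?_⟩
  rw [ev_add hP hQ hy, ← h1 y hy, ← h2 y hy]

theorem CA_mul {f g : (ι → ℂ) → ℂ} (hf : CA f) (hg : CA g) : CA (fun y => f y * g y) := by
  obtain ⟨P, Q, t, ht, hP, hQ, h1, h2⟩ := G2_common hf hg
  refine ⟨P * Q, t, ht, (Cv_mul (fun _ => ht.le) hP hQ).1, fun y hy => ?_⟩
  rw [ev_mul hP hQ hy, ← h1 y hy, ← h2 y hy]

end Pool.Agent.Helper94.AXG
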