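import Pool.Agent.Helper94.AXG.G2

/-! # AXG-G2B -/

namespace Pool.Agent.Helper94.AXG

open MvPowerSeries Filter Topology

variable {ι κ : Type} [Fintype ι] [Fintype κ]

theorem CA_sum {B : Type} (s : Finset B) {f : B → (ι → ℂ) → ℂ} (hf : ∀ b ∈ s, CA (f b)) :
    CA (fun y => ∑ b ∈ s, f b y) := by
  classical
  induction s using Finset.induction_on with
  | empty => simpa using CA_const (ι := ι) 0
  | insert a s ha ih =>
    have h1 := CA_add (hf a (Finset.mem_insert_self a s))
      (ih fun b hb => hf b (Finset.mem_insert_of_mem hb))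
    simpa [Finset.sum_insert ha] using h1

theorem CA_prod {B : Type} (s : Finset B) {f : B → (ι → ℂ) → ℂ} (hf : ∀ b ∈ s, CA (f b)) :
    CA (fun y => ∏ b ∈ s, f b y) := by
  classical
  induction s using Finset.induction_on with
  | empty => simpa using CA_const (ι := ι) 1
  | insert a s ha ih =>
    have h1 := CA_mul (hf a (Finset.mem_insert_self a s))
      (ih fun b hb => hf b (Finset.mem_insert_of_mem hb))
    simpa [Finset.prod_insert ha] using h1

theorem CA_pow {f : (ι → ℂ) → ℂ} (hf : CA f) (n : ℕ) : CA (fun y => f y ^ n) := by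
  induction n with
  | zero => simpa using CA_const (ι := ι) 1
  | succ n ih => simpa [pow_succ] using CA_mul ih hf

/-- continuity in a neighbourhood of `0` -/
theorem CA_continuous {f : (ι → ℂ) → ℂ} (hf : CA f) : ∀ᶠ y in 𝓝 (0 : ι → ℂ), ContinuousAt f y := by
  obtain ⟨P, t, ht, hP, hfP⟩ := hf
  have hopen : IsOpen {y : ι → ℂ | ∀ i, ‖y i‖ < t} := by
    rw [Set.ofPred_forall]
    exact isOpen_iInter_of_finite fun i =>
      isOpen_lt (continuous_norm.comp (continuous_apply i)) continuous_const
  have h0 : (0 : ι → ℂ) ∈ {y : ι → ℂ | ∀ i, ‖y i‖ < t} := by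
    intro i; simpa using ht
  filter_upwards [hopen.mem_nhds h0] with y hy
  have hy' := hopen.mem_nhds hy
  have hc : ContinuousAt (ev P) y :=
    (ev_continuousOn hP).continuousAt (Filter.mem_of_superset hy' fun z hz i => (hz i).le)
  refine hc.congr ?_
  filter_upwards [hy'] with z hz
  exact (hfP z fun i => (hz i).le).symm

end Pool.Agent.Helper94.AXG
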