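import Pool.Agent.Helper94.AXG.G2B

/-! # AXG-G3 -/

namespace Pool.Agent.Helper94.AXG

open MvPowerSeries Filter Topology

variable {ι κ : Type} [Fintype ι] [Fintype κ]

/-- convergence, bound of the norm, value at one point -/
private def G3g (ρ : κ → ℝ) (y : κ → ℂ) (f : MvPowerSeries κ ℂ) (c : ℝ) (v : ℂ) : Prop :=
  Cv ρ f ∧ nr ρ f ≤ c ∧ ev f y = v

private theorem G3g_monomial (ρ : κ → ℝ) (y : κ → ℂ) (μ : κ →₀ ℕ) (a : ℂ) :
    G3g ρ y (monomial μ a) (‖a‖ * mr ρ μ) (a * mo y μ) :=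
  ⟨(Cv_monomial ρ μ a).1, (Cv_monomial ρ μ a).2.le, ev_monomial μ a y⟩

private theorem G3g_one (ρ : κ → ℝ) (y : κ → ℂ) : G3g ρ y 1 1 1 := by
  have h := G3g_monomial ρ y 0 1
  have h1 : mr ρ 0 = 1 := by simp [mr]
  have h2 : mo y 0 = 1 := by simp [mo]
  rw [h1, h2, norm_one, one_mul, one_mul, monomial_zero_one] at h
  exact h

private theorem G3g_zero (ρ : κ → ℝ) (y : κ → ℂ) : G3g ρ y 0 0 0 := by
  have h := G3g_monomial ρ y 0 0
  rw [norm_zero, zero_mul, zero_mul, map_zero] at h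
  exact h

private theorem G3g_mul {ρ : κ → ℝ} (hρ : ∀ i, 0 ≤ ρ i) {y : κ → ℂ} (hy : ∀ i, ‖y i‖ ≤ ρ i)
    {f g : MvPowerSeries κ ℂ} {c c' : ℝ} {v v' : ℂ} (hf : G3g ρ y f c v)
    (hg : G3g ρ y g c' v') : G3g ρ y (f * g) (c * c') (v * v') :=
  ⟨(Cv_mul hρ hf.1 hg.1).1, (Cv_mul hρ hf.1 hg.1).2.trans
    (mul_le_mul hf.2.1 hg.2.1 (nr_nonneg hρ g) ((nr_nonneg hρ f).trans hf.2.1)), by
    rw [ev_mul hf.1 hg.1 hy, hf.2.2, hg.2.2]⟩

private theorem G3g_add {ρ : κ → ℝ} (hρ : ∀ i, 0 ≤ ρ i) {y : κ → ℂ} (hy : ∀ i, ‖y i‖ ≤ ρ i)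
    {f g : MvPowerSeries κ ℂ} {c c' : ℝ} {v v' : ℂ} (hf : G3g ρ y f c v)
    (hg : G3g ρ y g c' v') : G3g ρ y (f + g) (c + c') (v + v') :=
  ⟨(Cv_add hρ hf.1 hg.1).1, (Cv_add hρ hf.1 hg.1).2.trans (add_le_add hf.2.1 hg.2.1), by
    rw [ev_add hf.1 hg.1 hy, hf.2.2, hg.2.2]⟩

private theorem G3g_pow {ρ : κ → ℝ} (hρ : ∀ i, 0 ≤ ρ i) {y : κ → ℂ} (hy : ∀ i, ‖y i‖ ≤ ρ i)
    {f : MvPowerSeries κ ℂ} {c : ℝ} {v : ℂ} (hf : G3g ρ y f c v) (n : ℕ) :
    G3g ρ y (f ^ n) (c ^ n) (v ^ n) := by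
  induction n with
  | zero => rw [pow_zero, pow_zero, pow_zero]; exact G3g_one ρ y
  | succ n ih => rw [pow_succ, pow_succ, pow_succ]; exact G3g_mul hρ hy ih hf

private theorem G3g_prod {ρ : κ → ℝ} (hρ : ∀ i, 0 ≤ ρ i) {y : κ → ℂ} (hy : ∀ i, ‖y i‖ ≤ ρ i)
    {f : ι → MvPowerSeries κ ℂ} {c : ι → ℝ} {v : ι → ℂ} (hf : ∀ i, G3g ρ y (f i) (c i) (v i))
    (ν : ι →₀ ℕ) : G3g ρ y (∏ i, f i ^ ν i) (∏ i, c i ^ ν i) (∏ i, v i ^ ν i) := by
  classical
  have h : ∀ s : Finset ι,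
      G3g ρ y (∏ i ∈ s, f i ^ ν i) (∏ i ∈ s, c i ^ ν i) (∏ i ∈ s, v i ^ ν i) := by
    intro s
    induction s using Finset.induction_on with
    | empty => rw [Finset.prod_empty, Finset.prod_empty, Finset.prod_empty]; exact G3g_one ρ y
    | insert i s hi ih =>
      rw [Finset.prod_insert hi, Finset.prod_insert hi, Finset.prod_insert hi]
      exact G3g_mul hρ hy (G3g_pow hρ hy (hf i) (ν i)) ih
  exact h Finset.univ

private theorem G3g_lin {t : ℝ} (ht : 0 ≤ t) {y : κ → ℂ} (hy : ∀ i, ‖y i‖ ≤ t) (a : κ → ℂ) :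
    G3g (fun _ => t) y (∑ j, monomial (Finsupp.single j 1) (a j)) (∑ j, ‖a j‖ * t)
      (∑ j, a j * y j) := by
  classical
  have h : ∀ s : Finset κ, G3g (fun _ => t) y (∑ j ∈ s, monomial (Finsupp.single j 1) (a j))
      (∑ j ∈ s, ‖a j‖ * t) (∑ j ∈ s, a j * y j) := by
    intro s
    induction s using Finset.induction_on with
    | empty => rw [Finset.sum_empty, Finset.sum_empty, Finset.sum_empty]; exact G3g_zero _ y
    | insert i s hi ih =>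
      rw [Finset.sum_insert hi, Finset.sum_insert hi, Finset.sum_insert hi]
      refine G3g_add (fun _ => ht) hy ?_ ih
      have h1 := G3g_monomial (fun _ => t) y (Finsupp.single i 1) (a i)
      have h2 : mr (fun _ => t) (Finsupp.single i 1) = t := by
        unfold mr
        rw [Finset.prod_eq_single i]
        · rw [Finsupp.single_eq_same, pow_one]
        · intro j _ hj
          rw [Finsupp.single_eq_of_ne hj, pow_zero]
        · intro hi'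
          exact absurd (Finset.mem_univ i) hi'
      have h3 : mo y (Finsupp.single i 1) = y i := by
        unfold mo
        rw [Finset.prod_eq_single i]
        · rw [Finsupp.single_eq_same, pow_one]
        · intro j _ hj
          rw [Finsupp.single_eq_of_ne hj, pow_zero]
        · intro hi'
          exact absurd (Finset.mem_univ i) hi'
      rw [h2, h3] at h1
      exact h1
  exact h Finset.univ

/-- sums of families of power series -/
private theorem G3_family {β : Type} {ρ : κ → ℝ} (hρ : ∀ i, 0 < ρ i)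
    (G : β → MvPowerSeries κ ℂ) (hG : ∀ b, Cv ρ (G b)) (hs : Summable fun b => nr ρ (G b)) :
    ∃ P : MvPowerSeries κ ℂ, Cv ρ P ∧ ∀ y : κ → ℂ, (∀ i, ‖y i‖ ≤ ρ i) →
      ev P y = ∑' b, ev (G b) y := by
  have hmr : ∀ μ, 0 < mr ρ μ := fun μ => Finset.prod_pos fun i _ => pow_pos (hρ i) _
  have h1 : Summable fun p : β × (κ →₀ ℕ) => ‖coeff p.2 (G p.1)‖ * mr ρ p.2 := by
    rw [summable_prod_of_nonneg fun p => mul_nonneg (norm_nonneg _) (hmr _).le]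
    exact ⟨fun b => hG b, hs⟩
  have h2 : Summable fun p : (κ →₀ ℕ) × β => ‖coeff p.1 (G p.2)‖ * mr ρ p.1 :=
    (Equiv.prodComm (κ →₀ ℕ) β).summable_iff.2 h1
  have h3 := (summable_prod_of_nonneg fun p =>
    mul_nonneg (norm_nonneg _) (hmr _).le).1 h2
  have h4 : ∀ μ, Summable fun b => ‖coeff μ (G b)‖ := fun μ =>
    (summable_mul_right_iff (hmr μ).ne').1 (h3.1 μ)
  let P : MvPowerSeries κ ℂ := fun μ => ∑' b, coeff μ (G b)
  have hP : ∀ μ, coeff μ P = ∑' b, coeff μ (G b) := fun μ => rfl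
  refine ⟨P, ?_, ?_⟩
  · refine Summable.of_nonneg_of_le (fun μ => mul_nonneg (norm_nonneg _) (hmr μ).le)
      (fun μ => ?_) h3.2
    rw [hP]
    show _ ≤ ∑' b, ‖coeff μ (G b)‖ * mr ρ μ
    rw [tsum_mul_right]
    exact mul_le_mul_of_nonneg_right (norm_tsum_le_tsum_norm (h4 μ)) (hmr μ).le
  · intro y hy
    have h5 : Summable fun p : (κ →₀ ℕ) × β => coeff p.1 (G p.2) * mo y p.1 := by
      refine Summable.of_norm_bounded h2 fun p => ?_
      rw [norm_mul, norm_mo]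
      exact mul_le_mul_of_nonneg_left (mr_mono (fun i => norm_nonneg _) hy _) (norm_nonneg _)
    calc ev P y = ∑' μ, (∑' b, coeff μ (G b)) * mo y μ := rfl
      _ = ∑' μ, ∑' b, coeff μ (G b) * mo y μ := by
        congr 1
        funext μ
        rw [tsum_mul_right]
      _ = ∑' b, ∑' μ, coeff μ (G b) * mo y μ :=
        (Summable.tsum_comm' (f := fun μ b => coeff μ (G b) * mo y μ) h5
          (fun μ => h5.prod_factor μ)
          (fun b => ((Equiv.prodComm β (κ →₀ ℕ)).summable_iff.2 h5).prod_factor b)).symm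
      _ = ∑' b, ev (G b) y := rfl

/-- AXG-G3a. Proof. Let `P`, `t` be as in `CA f` and `ℓ_i` the linear forms (`i : ι`) in the variables `κ`,
as elements of `MvPowerSeries κ ℂ`: `ℓ_i = ∑_j a_{ij} X_j`. Choose `t' > 0` with
`nr t' ℓ_i = ∑_j ‖a_{ij}‖ t' ≤ t`. Put `P' = ∑_ν P_ν ∏ ℓ_i^{ν_i}`, where the coefficient at `μ` is the
finite sum over `|ν| = |μ|` (`∏ ℓ_i^{ν_i}` is homogeneous of degree `|ν|`). By `Cv_mul`
`nr t' (∏ ℓ_i^{ν_i}) ≤ t^{|ν|}`, so `∑_μ ‖P'_μ‖ t'^{|μ|} ≤ ∑_ν ‖P_ν‖ t^{|ν|}`, and the value is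
`∑_ν P_ν ∏ (ℓ_i(y))^{ν_i} = f(L y)` (interchange of absolutely convergent sums, `ev_mul`). -/
theorem CA_comp_linear {f : (ι → ℂ) → ℂ} (hf : CA f) (L : (κ → ℂ) →ₗ[ℂ] (ι → ℂ)) :
    CA (fun y => f (L y)) := by
  classical
  obtain ⟨P, t, ht, hP, hPf⟩ := hf
  obtain ⟨a, ha⟩ : ∃ a : ι → κ → ℂ, ∀ y i, L y i = ∑ j, a i j * y j := by
    refine ⟨fun i j => L (fun j' => if j = j' then 1 else 0) i, fun y i => ?_⟩
    rw [LinearMap.pi_apply_eq_sum_univ L y, Finset.sum_apply]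
    refine Finset.sum_congr rfl fun j _ => ?_
    rw [Pi.smul_apply, smul_eq_mul, mul_comm]
  obtain ⟨A, hA0, hA⟩ : ∃ A : ℝ, 0 ≤ A ∧ ∀ i, ∑ j, ‖a i j‖ ≤ A := by
    refine ⟨∑ i, ∑ j, ‖a i j‖, Finset.sum_nonneg fun i _ => Finset.sum_nonneg fun j _ =>
      norm_nonneg _, fun i => ?_⟩
    exact Finset.single_le_sum (f := fun i => ∑ j, ‖a i j‖)
      (fun i _ => Finset.sum_nonneg fun j _ => norm_nonneg _) (Finset.mem_univ i)
  obtain ⟨t', ht', hAt⟩ : ∃ t' : ℝ, 0 < t' ∧ A * t' ≤ t := by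
    refine ⟨t / (A + 1), by positivity, ?_⟩
    rw [mul_div_assoc', div_le_iff₀ (by positivity)]
    nlinarith
  have hℓ : ∀ i, ∑ j, ‖a i j‖ * t' ≤ t := fun i => by
    rw [← Finset.sum_mul]
    exact (mul_le_mul_of_nonneg_right (hA i) ht'.le).trans hAt
  have hLy : ∀ y : κ → ℂ, (∀ j, ‖y j‖ ≤ t') → ∀ i, ‖L y i‖ ≤ t := by
    intro y hy i
    rw [ha]
    refine (norm_sum_le _ _).trans (le_trans (Finset.sum_le_sum fun j _ => ?_) (hℓ i))
    rw [norm_mul]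
    exact mul_le_mul_of_nonneg_left (hy j) (norm_nonneg _)
  have hlin : ∀ y : κ → ℂ, (∀ j, ‖y j‖ ≤ t') → ∀ i, G3g (fun _ => t') y
      (∑ j, monomial (Finsupp.single j 1) (a i j)) (∑ j, ‖a i j‖ * t') (L y i) := by
    intro y hy i
    rw [ha]
    exact G3g_lin ht'.le hy (a i)
  let G : (ι →₀ ℕ) → MvPowerSeries κ ℂ := fun ν =>
    monomial 0 (coeff ν P) * ∏ i, (∑ j, monomial (Finsupp.single j 1) (a i j)) ^ ν i
  have hG : ∀ y : κ → ℂ, (∀ j, ‖y j‖ ≤ t') → ∀ ν, G3g (fun _ => t') y (G ν)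
      (‖coeff ν P‖ * mr (fun _ => t) ν) (coeff ν P * mo (L y) ν) := by
    intro y hy ν
    have h1 := G3g_monomial (fun _ => t') y 0 (coeff ν P)
    have h2 := G3g_mul (fun _ => ht'.le) hy h1 (G3g_prod (fun _ => ht'.le) hy (hlin y hy) ν)
    have e1 : mr (fun _ : κ => t') 0 = 1 := by simp [mr]
    have e2 : mo y 0 = 1 := by simp [mo]
    rw [e1, e2, mul_one, mul_one] at h2
    refine ⟨h2.1, h2.2.1.trans ?_, h2.2.2⟩
    refine mul_le_mul_of_nonneg_left ?_ (norm_nonneg _)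
    exact Finset.prod_le_prod (fun i _ => pow_nonneg (Finset.sum_nonneg fun j _ =>
      mul_nonneg (norm_nonneg _) ht'.le) _) fun i _ =>
        pow_le_pow_left₀ (Finset.sum_nonneg fun j _ => mul_nonneg (norm_nonneg _) ht'.le)
          (hℓ i) _
  have h0 : ∀ j : κ, ‖(0 : κ → ℂ) j‖ ≤ t' := fun j => by
    rw [Pi.zero_apply, norm_zero]
    exact ht'.le
  obtain ⟨Q, hQ1, hQ2⟩ := G3_family (fun _ => ht') G (fun ν => (hG 0 h0 ν).1)
    (Summable.of_nonneg_of_le (fun ν => nr_nonneg (fun _ => ht'.le) _)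
      (fun ν => (hG 0 h0 ν).2.1) hP)
  refine ⟨Q, t', ht', hQ1, fun y hy => ?_⟩
  show f (L y) = ev Q y
  rw [hQ2 y hy, hPf (L y) (hLy y hy)]
  show ∑' ν, coeff ν P * mo (L y) ν = _
  congr 1
  funext ν
  exact (hG y hy ν).2.2.symm

end Pool.Agent.Helper94.AXG
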