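import Pool.Agent.Helper94.AXG.G4
import Pool.Agent.Helper94.AXG.G1B

/-! # AXG-G5 -/

namespace Pool.Agent.Helper94.AXG

open MvPowerSeries Filter Topology

variable {ι : Type} [Fintype ι]

/-- AXG-G5a. `P` regular of order `m` in the variable `none`. Proof. Let `c ≠ 0` be the coefficient at
`z^m`. Let `ρ none = s`, `ρ (some i) = u`. `nr (P/c - z^m) ≤ ∑_{j > m} ‖P_{0,j}/c‖ s^j +
∑_{ν ≠ 0 in the other variables} ‖P_{ν,j}/c‖ u^{|ν|} s^j`. First choose `s ≤ ε` so small that the first sum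
is `≤ s^m/4`, then `u ≤ ε` so small that the second is `≤ s^m/4` (it is `≤ (u/t₀) × const`). Apply `division`
with the single element `P/c`, `μ = single none m`, `ε = 1/2`. -/
theorem weier_ps {P : MvPowerSeries (Option ι) ℂ} {t₀ : ℝ} (ht₀ : 0 < t₀) (hP : Cv (fun _ => t₀) P)
    {m : ℕ} (hlow : ∀ j, j < m → coeff (Finsupp.single none j) P = 0)
    (hm : coeff (Finsupp.single none m) P ≠ 0) {ε : ℝ} (hε : 0 < ε) :
    ∃ ρ : Option ι → ℝ, (∀ i, 0 < ρ i ∧ ρ i ≤ ε ∧ ρ i ≤ t₀) ∧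
      ∀ F : MvPowerSeries (Option ι) ℂ, Cv ρ F → ∃ q R : MvPowerSeries (Option ι) ℂ,
        Cv ρ q ∧ Cv ρ R ∧ F = q * P + R ∧ (∀ ν, m ≤ ν none → coeff ν R = 0) ∧ nr ρ R ≤ 2 * nr ρ F := by
  classical
  obtain ⟨c, hc⟩ : ∃ c, c = coeff (Finsupp.single none m) P := ⟨_, rfl⟩
  have hc0 : c ≠ 0 := by rw [hc]; exact hm
  obtain ⟨D, hD⟩ : ∃ D : MvPowerSeries (Option ι) ℂ,
      D = C c⁻¹ * P - monomial (Finsupp.single none m) 1 := ⟨_, rfl⟩
  have hDc : Cv (fun _ => t₀) D := by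
    have h1 : D = C c⁻¹ * P + monomial (Finsupp.single none m) (-1) := by
      rw [hD, sub_eq_add_neg, map_neg]
    rw [h1]
    exact (Cv_add (fun _ => ht₀.le) (Cv_smul _ hP c⁻¹).1 (Cv_monomial _ _ _).1).1
  have hco : ∀ ν, coeff ν D = c⁻¹ * coeff ν P - if ν = Finsupp.single none m then 1 else 0 := by
    intro ν
    rw [hD, map_sub, coeff_C_mul, coeff_monomial]
  obtain ⟨A, hA⟩ : ∃ A, A = nr (fun _ => t₀) D := ⟨_, rfl⟩
  have hA0 : 0 ≤ A := by rw [hA]; exact nr_nonneg (fun _ => ht₀.le) D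
  -- choice of the radius in the distinguished variable
  obtain ⟨s, hs0, hsε, hst, hsA⟩ : ∃ s : ℝ, 0 < s ∧ s ≤ ε ∧ s ≤ t₀ ∧
      s * A ≤ 1 / 2 * t₀ ^ (m + 1) := by
    refine ⟨min (min ε t₀) (t₀ ^ (m + 1) / (2 * (A + 1))), by positivity,
      (min_le_left _ _).trans (min_le_left _ _), (min_le_left _ _).trans (min_le_right _ _), ?_⟩
    have ht : 0 < t₀ ^ (m + 1) := by positivity
    calc min (min ε t₀) (t₀ ^ (m + 1) / (2 * (A + 1))) * A
        ≤ t₀ ^ (m + 1) / (2 * (A + 1)) * A :=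
          mul_le_mul_of_nonneg_right (min_le_right _ _) hA0
      _ ≤ 1 / 2 * t₀ ^ (m + 1) := by
          rw [div_mul_eq_mul_div, div_le_iff₀ (by positivity)]
          nlinarith
  obtain ⟨u, hu0, huε, hut, huA⟩ : ∃ u : ℝ, 0 < u ∧ u ≤ ε ∧ u ≤ t₀ ∧
      u * A ≤ 1 / 2 * (t₀ * s ^ m) := by
    have hsm : 0 < t₀ * s ^ m := by positivity
    refine ⟨min (min ε t₀) (t₀ * s ^ m / (2 * (A + 1))), by positivity,
      (min_le_left _ _).trans (min_le_left _ _), (min_le_left _ _).trans (min_le_right _ _), ?_⟩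
    calc min (min ε t₀) (t₀ * s ^ m / (2 * (A + 1))) * A
        ≤ t₀ * s ^ m / (2 * (A + 1)) * A :=
          mul_le_mul_of_nonneg_right (min_le_right _ _) hA0
      _ ≤ 1 / 2 * (t₀ * s ^ m) := by
          rw [div_mul_eq_mul_div, div_le_iff₀ (by positivity)]
          nlinarith
  obtain ⟨ρ, hρn, hρs⟩ : ∃ ρ : Option ι → ℝ, ρ none = s ∧ ∀ i, ρ (some i) = u :=
    ⟨fun o => o.elim s (fun _ => u), rfl, fun _ => rfl⟩
  have hρ : ∀ o, 0 < ρ o ∧ ρ o ≤ ε ∧ ρ o ≤ t₀ := by
    intro o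
    cases o with
    | none => rw [hρn]; exact ⟨hs0, hsε, hst⟩
    | some i => rw [hρs]; exact ⟨hu0, huε, hut⟩
  have hmr : ∀ ν : Option ι →₀ ℕ, mr ρ ν = s ^ ν none * u ^ ∑ i, ν (some i) := by
    intro ν
    unfold mr
    rw [Fintype.prod_option, hρn, ← Finset.prod_pow_eq_pow_sum]
    simp only [hρs]
  have hmt : ∀ ν : Option ι →₀ ℕ, mr (fun _ => t₀) ν = t₀ ^ ν none * t₀ ^ ∑ i, ν (some i) := by
    intro ν
    unfold mr
    rw [Fintype.prod_option, ← Finset.prod_pow_eq_pow_sum]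
  have hmt0 : ∀ ν : Option ι →₀ ℕ, 0 ≤ mr (fun _ => t₀) ν := mr_nonneg (fun _ => ht₀.le)
  have key : ∀ ν, ‖coeff ν D‖ * mr ρ ν ≤
      max ((s / t₀) ^ (m + 1)) (u / t₀) * (‖coeff ν D‖ * mr (fun _ => t₀) ν) := by
    intro ν
    by_cases hν : coeff ν D = 0
    · rw [hν, norm_zero, zero_mul, zero_mul, mul_zero]
    have h1 : mr ρ ν ≤ max ((s / t₀) ^ (m + 1)) (u / t₀) * mr (fun _ => t₀) ν := by
      by_cases h : ∃ i, ν (some i) ≠ 0
      · refine le_trans ?_ (mul_le_mul_of_nonneg_right (le_max_right _ _) (hmt0 ν))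
        obtain ⟨i, hi⟩ := h
        have h2 : ν (some i) ≤ ∑ i, ν (some i) :=
          Finset.single_le_sum (f := fun i => ν (some i)) (fun _ _ => Nat.zero_le _)
            (Finset.mem_univ i)
        obtain ⟨N, hN⟩ : ∃ N, ∑ i, ν (some i) = N + 1 :=
          ⟨∑ i, ν (some i) - 1, by omega⟩
        rw [hmr, hmt, hN]
        have h3 : s ^ ν none ≤ t₀ ^ ν none := pow_le_pow_left₀ hs0.le hst _
        have h4 : u ^ N ≤ t₀ ^ N := pow_le_pow_left₀ hu0.le hut _
        have h5 : u / t₀ * (t₀ ^ ν none * t₀ ^ (N + 1)) = t₀ ^ ν none * (t₀ ^ N * u) := by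
          field_simp
          ring
        rw [h5, pow_succ]
        exact mul_le_mul h3 (mul_le_mul_of_nonneg_right h4 hu0.le) (by positivity)
          (by positivity)
      · push Not at h
        refine le_trans ?_ (mul_le_mul_of_nonneg_right (le_max_left _ _) (hmt0 ν))
        have h2 : ∑ i, ν (some i) = 0 := Finset.sum_eq_zero fun i _ => h i
        have h3 : ν = Finsupp.single none (ν none) := by
          ext o
          cases o with
          | none => rw [Finsupp.single_eq_same]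
          | some i => rw [h i, Finsupp.single_apply, if_neg (by simp)]
        have h4 : m < ν none := by
          by_contra h5
          apply hν
          rw [hco]
          rcases Nat.lt_or_ge (ν none) m with h6 | h6
          · have h7 : coeff ν P = 0 := by rw [h3]; exact hlow _ h6
            rw [h7, mul_zero, zero_sub, neg_eq_zero, if_neg]
            intro h8
            rw [h8, Finsupp.single_eq_same] at h6
            omega
          · have h7 : ν = Finsupp.single none m := by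
              rw [h3]
              congr 1
              omega
            rw [if_pos h7, h7, ← hc, inv_mul_cancel₀ hc0, sub_self]
        obtain ⟨j, hj⟩ : ∃ j, ν none = m + 1 + j := ⟨ν none - (m + 1), by omega⟩
        rw [hmr, hmt, h2, pow_zero, pow_zero, mul_one, mul_one, hj]
        have h6 : s ^ j ≤ t₀ ^ j := pow_le_pow_left₀ hs0.le hst _
        have h7 : (s / t₀) ^ (m + 1) * t₀ ^ (m + 1 + j) = s ^ (m + 1) * t₀ ^ j := by
          rw [div_pow, pow_add t₀ (m + 1) j, ← mul_assoc, div_mul_cancel₀ _ (by positivity)]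
        rw [h7, pow_add]
        exact mul_le_mul_of_nonneg_left h6 (by positivity)
    calc ‖coeff ν D‖ * mr ρ ν
        ≤ ‖coeff ν D‖ * (max ((s / t₀) ^ (m + 1)) (u / t₀) * mr (fun _ => t₀) ν) :=
          mul_le_mul_of_nonneg_left h1 (norm_nonneg _)
      _ = _ := by ring
  have hDρ : Cv ρ D := Summable.of_nonneg_of_le
    (fun ν => mul_nonneg (norm_nonneg _) (mr_nonneg (fun o => (hρ o).1.le) ν)) key
    (Summable.mul_left _ hDc)
  have hDn : nr ρ D ≤ 1 / 2 * mr ρ (Finsupp.single none m) := by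
    have h1 : nr ρ D ≤ max ((s / t₀) ^ (m + 1)) (u / t₀) * A := by
      rw [hA]
      unfold nr
      rw [← tsum_mul_left]
      exact Summable.tsum_le_tsum key hDρ (Summable.mul_left _ hDc)
    have h2 : mr ρ (Finsupp.single none m) = s ^ m := by
      rw [hmr, Finsupp.single_eq_same, Finset.sum_eq_zero, pow_zero, mul_one]
      intro i _
      rw [Finsupp.single_apply, if_neg (by simp)]
    rw [h2]
    refine h1.trans ?_
    have ht : 0 < t₀ ^ (m + 1) := by positivity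
    rcases max_choice ((s / t₀) ^ (m + 1)) (u / t₀) with h3 | h3
    · rw [h3, div_pow, div_mul_eq_mul_div, div_le_iff₀ ht, pow_succ, mul_assoc, mul_comm (1 / 2),
        mul_assoc]
      exact mul_le_mul_of_nonneg_left hsA (by positivity)
    · rw [h3, div_mul_eq_mul_div, div_le_iff₀ ht₀]
      linarith
  refine ⟨ρ, hρ, fun F hF => ?_⟩
  obtain ⟨q, r, hq, hr, hF2, hr0, hn⟩ := division (fun o => (hρ o).1)
    (fun _ : Unit => Finsupp.single none m) (fun _ => C c⁻¹ * P) (ε := 1 / 2) (by norm_num)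
    (by norm_num) (fun _ => by rw [← hD]; exact ⟨hDρ, hDn⟩) hF
  refine ⟨C c⁻¹ * q (), r, (Cv_smul _ (hq ()) c⁻¹).1, hr, ?_, ?_, ?_⟩
  · rw [hF2, Fintype.sum_unique]
    change q () * (C c⁻¹ * P) + r = _
    ring
  · intro ν hν
    refine hr0 ν ⟨(), ?_⟩
    rw [Finsupp.single_le_iff]
    exact hν
  · have h1 : 0 ≤ ∑ b : Unit, nr ρ (q b) * mr ρ (Finsupp.single none m) :=
      Finset.sum_nonneg fun b _ => mul_nonneg (nr_nonneg (fun o => (hρ o).1.le) _)
        (mr_nonneg (fun o => (hρ o).1.le) _)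
    have h2 : nr ρ F / (1 - 1 / 2) = 2 * nr ρ F := by ring
    rw [h2] at hn
    linarith

end Pool.Agent.Helper94.AXG
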