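import Pool.Agent.Helper94.AXG.G6
import Pool.Agent.Helper94.AXG.G5
import Pool.Agent.Helper94.AXG.G1D

/-! # AXG-G6B -/

namespace Pool.Agent.Helper94.AXG

open Filter Topology

variable {ι : Type} [Fintype ι]

/-- the point `(y, z)` as a function on `Option ι` -/
private def g6bw (y : ι → ℂ) (z : ℂ) : Option ι → ℂ := fun o => o.elim z y

private lemma g6b_mo (z : ℂ) (ν : Option ι →₀ ℕ) :
    mo (g6bw (0 : ι → ℂ) z) ν = z ^ ν none * ∏ i, (0 : ℂ) ^ ν (some i) := by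
  unfold mo
  rw [Fintype.prod_option]
  rfl

private lemma g6b_mo_single (z : ℂ) (j : ℕ) :
    mo (g6bw (0 : ι → ℂ) z) (Finsupp.single none j) = z ^ j := by
  rw [g6b_mo, Finsupp.single_eq_same, Finset.prod_eq_one, mul_one]
  intro i _
  rw [Finsupp.single_eq_of_ne (by simp), pow_zero]

omit [Fintype ι] in
private lemma g6b_inj : Function.Injective
    (fun j : ℕ => (Finsupp.single none j : Option ι →₀ ℕ)) :=
  Finsupp.single_injective _

/-- the restriction to `y = 0` as a power series in `z` -/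
private lemma g6b_ev (P : MvPowerSeries (Option ι) ℂ) (z : ℂ) :
    ev P (g6bw (0 : ι → ℂ) z) =
      ∑' j : ℕ, MvPowerSeries.coeff (Finsupp.single none j) P * z ^ j := by
  unfold ev
  rw [← (g6b_inj (ι := ι)).tsum_eq]
  · refine tsum_congr fun j => ?_
    rw [g6b_mo_single]
  · intro ν hν
    rw [Function.mem_support, g6b_mo] at hν
    refine ⟨ν none, ?_⟩
    ext o
    cases o with
    | none => exact Finsupp.single_eq_same
    | some i =>
      change (Finsupp.single none (ν none) : Option ι →₀ ℕ) (some i) = ν (some i)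
      rw [Finsupp.single_eq_of_ne (by simp)]
      by_contra h
      apply hν
      rw [Finset.prod_eq_zero (Finset.mem_univ i) (zero_pow (Ne.symm h)), mul_zero, mul_zero]

private lemma g6b_summable {P : MvPowerSeries (Option ι) ℂ} {t : ℝ}
    (hP : Cv (fun _ => t) P) :
    Summable fun j : ℕ => ‖MvPowerSeries.coeff (Finsupp.single none j) P‖ * t ^ j := by
  have h := (show Summable _ from hP).comp_injective (g6b_inj (ι := ι))
  refine h.congr fun j => ?_
  change ‖MvPowerSeries.coeff (Finsupp.single none j) P‖ *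
    mr (fun _ : Option ι => t) (Finsupp.single none j) = _
  congr 1
  unfold mr
  rw [Fintype.prod_option, Finsupp.single_eq_same, Finset.prod_eq_one, mul_one]
  intro i _
  rw [Finsupp.single_eq_of_ne (by simp), pow_zero]

private lemma g6b_cont {a : ℕ → ℂ} {t : ℝ} (ht : 0 < t)
    (ha : Summable fun j : ℕ => ‖a j‖ * t ^ j) :
    ContinuousAt (fun z : ℂ => ∑' j, a j * z ^ j) 0 := by
  have h : ContinuousOn (fun z : ℂ => ∑' j, a j * z ^ j) (Metric.closedBall 0 t) := by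
    refine continuousOn_tsum (fun j => ?_) ha ?_
    · exact (continuous_const.mul (continuous_id.pow j)).continuousOn
    · intro j z hz
      rw [mem_closedBall_zero_iff] at hz
      rw [norm_mul, norm_pow]
      exact mul_le_mul_of_nonneg_left (pow_le_pow_left₀ (norm_nonneg z) hz j) (norm_nonneg _)
  exact h.continuousAt (Metric.closedBall_mem_nhds 0 ht)

/-- the order of a power series -/
private lemma g6b_order {a : ℕ → ℂ} {t : ℝ} (ht : 0 < t)
    (ha : Summable fun j : ℕ => ‖a j‖ * t ^ j) {m : ℕ} {u : ℂ → ℂ} (hu : ContinuousAt u 0)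
    (hu0 : u 0 ≠ 0) (h : ∀ᶠ z in 𝓝 (0 : ℂ), ∑' j, a j * z ^ j = z ^ m * u z) :
    (∀ j, j < m → a j = 0) ∧ a m ≠ 0 := by
  classical
  have hune : ∀ᶠ z in 𝓝[≠] (0 : ℂ), u z ≠ 0 :=
    (hu.eventually_ne hu0).filter_mono nhdsWithin_le_nhds
  have hne : ∃ n, a n ≠ 0 := by
    by_contra hcon
    push Not at hcon
    have h1 : ∀ᶠ z in 𝓝[≠] (0 : ℂ), False := by
      filter_upwards [h.filter_mono nhdsWithin_le_nhds, hune, self_mem_nhdsWithin] with z h2 h3 h4
      simp only [hcon, zero_mul, tsum_zero] at h2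
      exact (mul_ne_zero (pow_ne_zero m h4) h3) h2.symm
    exact h1.exists.choose_spec
  obtain ⟨n, hn, hmin⟩ : ∃ n, a n ≠ 0 ∧ ∀ j, j < n → a j = 0 :=
    ⟨Nat.find hne, Nat.find_spec hne, fun j hj => not_not.mp (Nat.find_min hne hj)⟩
  -- the series divided by `z ^ n`
  have ha' : Summable fun j : ℕ => ‖a (j + n)‖ * t ^ j := by
    have h1 := (summable_nat_add_iff n).2 ha
    have h2 := h1.mul_left (t ^ n)⁻¹
    refine h2.congr fun j => ?_
    rw [pow_add]
    have : t ^ n ≠ 0 := (pow_pos ht n).ne'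
    field_simp
  have hψ := g6b_cont ht ha'
  have hψ0 : (∑' j, a (j + n) * (0 : ℂ) ^ j) = a n := by
    rw [tsum_eq_single 0]
    · simp
    · intro j hj
      rw [zero_pow hj, mul_zero]
  have hsplit : ∀ᶠ z in 𝓝 (0 : ℂ), ∑' j, a j * z ^ j = z ^ n * ∑' j, a (j + n) * z ^ j := by
    filter_upwards [Metric.closedBall_mem_nhds (0 : ℂ) ht] with z hz
    rw [mem_closedBall_zero_iff] at hz
    have hs : Summable fun j : ℕ => a j * z ^ j := by
      refine Summable.of_norm_bounded ha fun j => ?_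
      rw [norm_mul, norm_pow]
      exact mul_le_mul_of_nonneg_left (pow_le_pow_left₀ (norm_nonneg z) hz j) (norm_nonneg _)
    rw [← hs.sum_add_tsum_nat_add n, Finset.sum_eq_zero, zero_add, ← tsum_mul_left]
    · refine tsum_congr fun j => ?_
      rw [pow_add]
      ring
    · intro j hj
      rw [hmin j (Finset.mem_range.mp hj), zero_mul]
  have hE : ∀ᶠ z in 𝓝[≠] (0 : ℂ), z ^ n * ∑' j, a (j + n) * z ^ j = z ^ m * u z := by
    filter_upwards [h.filter_mono nhdsWithin_le_nhds, hsplit.filter_mono nhdsWithin_le_nhds]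
      with z h1 h2
    rw [← h2, h1]
  have hψt : Tendsto (fun z : ℂ => ∑' j, a (j + n) * z ^ j) (𝓝[≠] 0) (𝓝 (a n)) := by
    have h1 : Tendsto (fun z : ℂ => ∑' j, a (j + n) * z ^ j) (𝓝 0)
      (𝓝 (∑' j, a (j + n) * (0 : ℂ) ^ j)) := hψ
    rw [hψ0] at h1
    exact h1.mono_left nhdsWithin_le_nhds
  have hut : Tendsto u (𝓝[≠] 0) (𝓝 (u 0)) := hu.tendsto.mono_left nhdsWithin_le_nhds
  have hz : ∀ k : ℕ, 0 < k → Tendsto (fun z : ℂ => z ^ k) (𝓝[≠] 0) (𝓝 0) := by
    intro k hk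
    have h1 : Tendsto (fun z : ℂ => z ^ k) (𝓝 0) (𝓝 (0 ^ k)) := (continuous_pow k).tendsto 0
    rw [zero_pow hk.ne'] at h1
    exact h1.mono_left nhdsWithin_le_nhds
  have hnm : n = m := by
    rcases lt_trichotomy n m with hlt | heq | hgt
    · exfalso
      obtain ⟨k, hk⟩ := Nat.exists_eq_add_of_lt hlt
      apply hn
      have h1 : Tendsto (fun z : ℂ => z ^ (k + 1) * u z) (𝓝[≠] 0) (𝓝 (0 * u 0)) :=
        (hz (k + 1) (by omega)).mul hut
      rw [zero_mul] at h1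
      refine tendsto_nhds_unique (hψt.congr' ?_) h1
      filter_upwards [hE, self_mem_nhdsWithin] with z h2 h3
      apply mul_left_cancel₀ (pow_ne_zero n h3)
      rw [h2, hk]
      ring
    · exact heq
    · exfalso
      obtain ⟨k, hk⟩ := Nat.exists_eq_add_of_lt hgt
      apply hu0
      have h1 : Tendsto (fun z : ℂ => z ^ (k + 1) * ∑' j, a (j + n) * z ^ j) (𝓝[≠] 0)
        (𝓝 (0 * a n)) := (hz (k + 1) (by omega)).mul hψt
      rw [zero_mul] at h1
      refine tendsto_nhds_unique (hut.congr' ?_) h1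
      filter_upwards [hE, self_mem_nhdsWithin] with z h2 h3
      apply mul_left_cancel₀ (pow_ne_zero m h3)
      rw [← h2]
      have h4 : z ^ n = z ^ m * z ^ (k + 1) := by rw [hk]; ring
      rw [h4, mul_assoc]
  subst hnm
  exact ⟨hmin, hn⟩

private lemma g6b_w {w : (ι → ℂ) × ℂ} {t : ℝ} (hw : w ∈ Metric.ball (0 : (ι → ℂ) × ℂ) t)
    (o : Option ι) : ‖g6bw w.1 w.2 o‖ ≤ t := by
  rw [mem_ball_zero_iff] at hw
  cases o with
  | none => exact (norm_snd_le w).trans hw.le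
  | some i => exact ((norm_le_pi_norm w.1 i).trans (norm_fst_le w)).trans hw.le

omit [Fintype ι] in
private lemma g6b_eta (w : Option ι → ℂ) : g6bw (fun i => w (some i)) (w none) = w := by
  funext o
  cases o <;> rfl

/-- AXG-G6b: Weierstrass division. Proof. `f` is given by `P` with radius `t₀` near `0`; `Reg f m` says that the
coefficients at `z^j` vanish for `j < m` and not for `j = m`. `weier_ps` (with `ε` = the radius of `F` too),
`zcoeff`, and evaluation (`ev_add`, `ev_mul`) on the polydisc of radii `ρ`. -/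
theorem weier_div {f : (ι → ℂ) → ℂ → ℂ} (hf : CAz f) {m : ℕ} (hm : Reg f m)
    {F : (ι → ℂ) → ℂ → ℂ} (hF : CAz F) :
    ∃ (R : Fin m → (ι → ℂ) → ℂ) (e : (ι → ℂ) → ℂ → ℂ), (∀ j, CA (R j)) ∧ CAz e ∧
      ∀ᶠ w in 𝓝 (0 : (ι → ℂ) × ℂ), F w.1 w.2 = e w.1 w.2 * f w.1 w.2 + ∑ j, R j w.1 * w.2 ^ (j : ℕ) := by
  obtain ⟨P, t₀, ht₀, hP, hfP⟩ := hf
  obtain ⟨Q, t₁, ht₁, hQ, hFQ⟩ := hF
  obtain ⟨u, hu, hu0, hfu⟩ := hm
  have hf0 : ∀ᶠ z in 𝓝 (0 : ℂ),
      ∑' j : ℕ, MvPowerSeries.coeff (Finsupp.single none j) P * z ^ j = z ^ m * u z := by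
    filter_upwards [hfu, Metric.closedBall_mem_nhds (0 : ℂ) ht₀] with z h1 h2
    rw [mem_closedBall_zero_iff] at h2
    rw [← h1, ← g6b_ev]
    refine (hfP (g6bw (0 : ι → ℂ) z) ?_).symm
    intro o
    cases o with
    | none => exact h2
    | some i =>
      change ‖(0 : ℂ)‖ ≤ t₀
      rw [norm_zero]
      exact ht₀.le
  obtain ⟨hlow, hm0⟩ := g6b_order ht₀ (g6b_summable hP) hu.continuousAt hu0 hf0
  obtain ⟨ρ, hρ, H⟩ := weier_ps ht₀ hP hlow hm0 ht₁
  have hρ0 : ∀ i, 0 ≤ ρ i := fun i => (hρ i).1.le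
  have hQρ : Cv ρ Q := Cv_mono hρ0 (fun i => (hρ i).2.1) hQ
  have hPρ : Cv ρ P := Cv_mono hρ0 (fun i => (hρ i).2.2) hP
  obtain ⟨q, R, hq, hR, hdiv, hRm, -⟩ := H Q hQρ
  obtain ⟨Rj, hRj1, hRj2⟩ := zcoeff (fun i => (hρ i).1) hR hRm
  obtain ⟨i₀, hi₀⟩ := Finite.exists_min ρ
  have ht : 0 < ρ i₀ := (hρ i₀).1
  refine ⟨fun j y => ev (Rj j) y, fun y z => ev q (g6bw y z), ?_, ?_, ?_⟩
  · intro j
    exact ⟨Rj j, ρ i₀, ht, Cv_mono (fun _ => ht.le) (fun i => hi₀ (some i)) (hRj1 j).1,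
      fun y _ => rfl⟩
  · refine ⟨q, ρ i₀, ht, Cv_mono (fun _ => ht.le) hi₀ hq, fun w _ => ?_⟩
    change ev q (g6bw (fun i => w (some i)) (w none)) = ev q w
    rw [g6b_eta]
  · filter_upwards [Metric.ball_mem_nhds (0 : (ι → ℂ) × ℂ) ht] with w hw
    have hwρ : ∀ o, ‖g6bw w.1 w.2 o‖ ≤ ρ o := fun o => (g6b_w hw o).trans (hi₀ o)
    have e1 : F w.1 w.2 = ev Q (g6bw w.1 w.2) :=
      hFQ (g6bw w.1 w.2) fun o => (hwρ o).trans (hρ o).2.1
    have e2 : f w.1 w.2 = ev P (g6bw w.1 w.2) :=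
      hfP (g6bw w.1 w.2) fun o => (hwρ o).trans (hρ o).2.2
    have e3 := hRj2 (g6bw w.1 w.2) hwρ
    rw [e1, e2, hdiv, ev_add (Cv_mul hρ0 hq hPρ).1 hR hwρ, ev_mul hq hPρ hwρ, e3]
    rfl

end Pool.Agent.Helper94.AXG
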