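import Pool.Agent.Helper94.AXG.G6B

/-! # AXG-G6C -/

namespace Pool.Agent.Helper94.AXG

open Filter Topology

variable {ι : Type} [Fintype ι]

/-- two functions continuous at `0` which agree at all points `z ≠ 0` near `0` agree at `0` -/
private theorem eq_at_zero {a b : ℂ → ℂ} (ha : ContinuousAt a 0) (hb : ContinuousAt b 0)
    (h : ∀ᶠ z in 𝓝 (0 : ℂ), z ≠ 0 → a z = b z) : a 0 = b 0 := by
  have h1 : Tendsto a (𝓝[≠] 0) (𝓝 (a 0)) := ha.tendsto.mono_left nhdsWithin_le_nhds
  have h2 : Tendsto b (𝓝[≠] 0) (𝓝 (b 0)) := hb.tendsto.mono_left nhdsWithin_le_nhds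
  have h3 : a =ᶠ[𝓝[≠] 0] b := by
    rw [EventuallyEq, eventually_nhdsWithin_iff]
    filter_upwards [h] with z hz hz0
    exact hz hz0
  exact tendsto_nhds_unique (h1.congr' h3) h2 |>.symm ▸ rfl

/-- a polynomial of degree `< m` which is `z ^ m` times a function continuous at `0` is zero -/
private theorem coeffs_zero {m : ℕ} (c : Fin m → ℂ) (g : ℂ → ℂ) (hg : ContinuousAt g 0)
    (h : ∀ᶠ z in 𝓝 (0 : ℂ), ∑ j, c j * z ^ (j : ℕ) = z ^ m * g z) : ∀ j, c j = 0 := by
  have key : ∀ n : ℕ, ∀ j : Fin m, (j : ℕ) = n → c j = 0 := by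
    intro n
    induction n using Nat.strong_induction_on with
    | _ n ih =>
      intro j hj
      set q : ℂ → ℂ := fun z => ∑ i : Fin m, c i * (if (i : ℕ) < n then 0 else z ^ ((i : ℕ) - n)) with hq
      have hqc : ContinuousAt q 0 := by
        refine Continuous.continuousAt ?_
        refine continuous_finsetSum _ (fun i _ => ?_)
        by_cases hi : (i : ℕ) < n
        · simp only [hi, if_true]
          exact continuous_const
        · simp only [hi, if_false]
          exact continuous_const.mul (continuous_pow _)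
      have hqs : ∀ z : ℂ, ∑ i, c i * z ^ (i : ℕ) = z ^ n * q z := by
        intro z
        rw [hq, Finset.mul_sum]
        refine Finset.sum_congr rfl (fun i _ => ?_)
        by_cases hi : (i : ℕ) < n
        · rw [ih _ hi i rfl]
          simp
        · simp only [hi, if_false]
          have : z ^ (i : ℕ) = z ^ n * z ^ ((i : ℕ) - n) := by
            rw [← pow_add]
            congr 1
            omega
          rw [this]
          ring
      have hnm : n < m := hj ▸ j.2
      have hrc : ContinuousAt (fun z : ℂ => z ^ (m - n) * g z) 0 :=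
        (continuous_pow _).continuousAt.mul hg
      have heq : q 0 = (fun z : ℂ => z ^ (m - n) * g z) 0 := by
        refine eq_at_zero hqc hrc ?_
        filter_upwards [h] with z hz hz0
        rw [hqs z] at hz
        have : z ^ m = z ^ n * z ^ (m - n) := by
          rw [← pow_add]
          congr 1
          omega
        rw [this, mul_assoc] at hz
        exact mul_left_cancel₀ (pow_ne_zero n hz0) hz
      have hr0 : (fun z : ℂ => z ^ (m - n) * g z) 0 = 0 := by
        simp only
        rw [zero_pow (by omega), zero_mul]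
      have hq0 : q 0 = c j := by
        simp only [hq]
        rw [Finset.sum_eq_single j]
        · rw [if_neg (by omega), hj, Nat.sub_self, pow_zero, mul_one]
        · intro i _ hij
          by_cases hi : (i : ℕ) < n
          · rw [if_pos hi, mul_zero]
          · have : (i : ℕ) ≠ n := fun hh => hij (Fin.ext (hh.trans hj.symm))
            rw [if_neg hi, zero_pow (by omega), mul_zero]
        · intro hh
          exact absurd (Finset.mem_univ j) hh
      rw [← hq0, heq, hr0]
  intro j
  exact key j j rfl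

/-- AXG-G6c: Weierstrass polynomial. Proof. Divide `z^m`: `z^m = e f + ∑_j R_j z^j`. At `y = 0`:
`z^m = e(0,z) z^m u(z) + ∑ R_j(0) z^j`, so `∑_j R_j(0) z^j` (degree `< m`) is divisible by `z^m`, hence
`R_j(0) = 0`, and `e(0,0) u(0) = 1`. Put `w_j = -R_j`. -/
theorem weier_prep {f : (ι → ℂ) → ℂ → ℂ} (hf : CAz f) {m : ℕ} (hm : Reg f m) :
    ∃ (W : Fin m → (ι → ℂ) → ℂ) (e : (ι → ℂ) → ℂ → ℂ), (∀ j, CA (W j)) ∧ (∀ j, W j 0 = 0) ∧ CAz e ∧
      e 0 0 ≠ 0 ∧ ∀ᶠ w in 𝓝 (0 : (ι → ℂ) × ℂ),
        w.2 ^ m + ∑ j, W j w.1 * w.2 ^ (j : ℕ) = e w.1 w.2 * f w.1 w.2 := by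
  have hF : CAz (fun (_ : ι → ℂ) (z : ℂ) => z ^ m) := by
    have h := CA_pow (CA_coord (ι := Option ι) none) m
    exact h
  obtain ⟨R, e, hR, he, hEq⟩ := weier_div hf hm hF
  obtain ⟨u, hu, hu0, hfu⟩ := hm
  -- restriction to `y = 0`
  have hc0 : Continuous (fun z : ℂ => ((0 : ι → ℂ), z)) := by fun_prop
  have hE0 : ∀ᶠ z in 𝓝 (0 : ℂ), z ^ m = e 0 z * f 0 z + ∑ j, R j 0 * z ^ (j : ℕ) := by
    have h0 : Tendsto (fun z : ℂ => ((0 : ι → ℂ), z)) (𝓝 0) (𝓝 (0 : (ι → ℂ) × ℂ)) := by
      exact hc0.tendsto' 0 0 rfl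
    exact h0.eventually hEq
  have hec : ContinuousAt (fun z : ℂ => e 0 z) 0 := by
    have h1 := (CA_continuous he).self_of_nhds
    have h2 : ContinuousAt (fun z : ℂ => (fun i : Option ι => i.elim z (fun _ => (0 : ℂ)))) 0 := by
      refine Continuous.continuousAt ?_
      refine continuous_pi (fun i => ?_)
      cases i with
      | none => exact continuous_id
      | some i => exact continuous_const
    have h3 : (fun i : Option ι => i.elim (0 : ℂ) (fun _ => (0 : ℂ))) = 0 := by
      funext i
      cases i <;> rfl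
    have h4 : ContinuousAt (fun w : Option ι → ℂ => e (fun i => w (some i)) (w none))
        ((fun z : ℂ => (fun i : Option ι => i.elim z (fun _ => (0 : ℂ)))) 0) := by
      simp only [h3]
      exact h1
    exact ContinuousAt.comp (g := fun w : Option ι → ℂ => e (fun i => w (some i)) (w none)) h4 h2
  have hgc : ContinuousAt (fun z : ℂ => 1 - e 0 z * u z) 0 :=
    continuousAt_const.sub (hec.mul hu.continuousAt)
  have hR0 : ∀ j, R j 0 = 0 := by
    refine coeffs_zero (fun j => R j 0) (fun z => 1 - e 0 z * u z) hgc ?_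
    filter_upwards [hE0, hfu] with z h1 h2
    rw [h2] at h1
    linear_combination -h1
  have he0 : e 0 0 * u 0 = 1 := by
    refine eq_at_zero (a := fun z => e 0 z * u z) (b := fun _ => 1) (hec.mul hu.continuousAt)
      continuousAt_const ?_
    filter_upwards [hE0, hfu] with z h1 h2 hz0
    rw [h2] at h1
    simp only [hR0, zero_mul, Finset.sum_const_zero, add_zero] at h1
    have h3 : z ^ m * (e 0 z * u z) = z ^ m * 1 := by linear_combination -h1
    exact mul_left_cancel₀ (pow_ne_zero m hz0) h3
  refine ⟨fun j y => -1 * R j y, e, fun j => CA_mul (CA_const (-1)) (hR j), fun j => ?_, he, ?_, ?_⟩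
  · simp only [hR0, mul_zero]
  · intro h
    rw [h, zero_mul] at he0
    exact zero_ne_one he0
  · filter_upwards [hEq] with w hw
    rw [hw]
    have : ∑ j, (-1 * R j w.1) * w.2 ^ (j : ℕ) = -∑ j, R j w.1 * w.2 ^ (j : ℕ) := by
      rw [← Finset.sum_neg_distrib]
      exact Finset.sum_congr rfl (fun j _ => by ring)
    rw [this]
    ring

end Pool.Agent.Helper94.AXG
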