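import Mathlib

/-! # AXG-G7 -/

namespace Pool.Agent.Helper94.AXG

open Filter Topology

variable {ι : Type} [Fintype ι]

/-- AXG-G7a: roots of a monic polynomial with small lower coefficients are small -/
theorem small_roots (m : ℕ) {ε : ℝ} (hε : 0 < ε) : ∃ δ : ℝ, 0 < δ ∧ ∀ (w : Fin m → ℂ) (z : ℂ),
    (∀ j, ‖w j‖ ≤ δ) → z ^ m + ∑ j, w j * z ^ (j : ℕ) = 0 → ‖z‖ < ε := by
  have hS0 : 0 ≤ ∑ j : Fin m, (ε ^ (m - (j : ℕ)))⁻¹ :=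
    Finset.sum_nonneg fun j _ => by positivity
  set S : ℝ := ∑ j : Fin m, (ε ^ (m - (j : ℕ)))⁻¹ with hS
  refine ⟨1 / (1 + S), by positivity, ?_⟩
  intro w z hw hz
  by_contra hlt
  have hr : ε ≤ ‖z‖ := not_lt.mp hlt
  have hzpos : 0 < ‖z‖ := lt_of_lt_of_le hε hr
  have hterm : ∀ j : Fin m, ‖w j * z ^ (j : ℕ)‖ ≤
      (1 / (1 + S)) * (‖z‖ ^ m * (ε ^ (m - (j : ℕ)))⁻¹) := by
    intro j
    rw [norm_mul, norm_pow]
    have h1 : ‖z‖ ^ (j : ℕ) ≤ ‖z‖ ^ m * (ε ^ (m - (j : ℕ)))⁻¹ := by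
      have hεp : 0 < ε ^ (m - (j : ℕ)) := pow_pos hε _
      rw [← div_eq_mul_inv, le_div_iff₀ hεp]
      have h2 : ‖z‖ ^ m = ‖z‖ ^ (j : ℕ) * ‖z‖ ^ (m - (j : ℕ)) := by
        rw [← pow_add, Nat.add_sub_cancel' j.2.le]
      rw [h2]
      exact mul_le_mul_of_nonneg_left (pow_le_pow_left₀ hε.le hr _) (by positivity)
    exact mul_le_mul (hw j) h1 (by positivity) (by positivity)
  have heq : z ^ m = -∑ j, w j * z ^ (j : ℕ) := eq_neg_of_add_eq_zero_left hz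
  have hle : ‖z‖ ^ m ≤ (1 / (1 + S)) * (‖z‖ ^ m * S) := by
    calc ‖z‖ ^ m = ‖z ^ m‖ := (norm_pow _ _).symm
      _ = ‖∑ j, w j * z ^ (j : ℕ)‖ := by rw [heq, norm_neg]
      _ ≤ ∑ j, ‖w j * z ^ (j : ℕ)‖ := norm_sum_le _ _
      _ ≤ ∑ j : Fin m, (1 / (1 + S)) * (‖z‖ ^ m * (ε ^ (m - (j : ℕ)))⁻¹) :=
          Finset.sum_le_sum fun j _ => hterm j
      _ = (1 / (1 + S)) * (‖z‖ ^ m * S) := by
          rw [hS, Finset.mul_sum, Finset.mul_sum]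
  have hpm : 0 < ‖z‖ ^ m := pow_pos hzpos m
  have h3 : (1 / (1 + S)) * (‖z‖ ^ m * S) < ‖z‖ ^ m := by
    have h1S : 0 < 1 + S := by linarith
    rw [one_div, inv_mul_lt_iff₀ h1S]
    nlinarith
  linarith

end Pool.Agent.Helper94.AXG
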