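import Pool.Agent.Helper94.AXG.G2B

/-! # AXG-G7B -/

namespace Pool.Agent.Helper94.AXG

open Filter Topology

variable {ι : Type} [Fintype ι]

private noncomputable def RP (m : ℕ) (r : Fin m → ℂ) : Polynomial ℂ :=
  ∑ j, Polynomial.C (r j) * Polynomial.X ^ (j : ℕ)

private noncomputable def WP (m : ℕ) (w : Fin m → ℂ) : Polynomial ℂ := Polynomial.X ^ m + RP m w

private theorem RP_coeff (m : ℕ) (r : Fin m → ℂ) (k : ℕ) :
    (RP m r).coeff k = ∑ j : Fin m, r j * (if k = (j : ℕ) then 1 else 0) := by
  unfold RP
  rw [Polynomial.finsetSum_coeff]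
  refine Finset.sum_congr rfl fun j _ => ?_
  rw [Polynomial.coeff_C_mul, Polynomial.coeff_X_pow]

private theorem RP_degree (m : ℕ) (r : Fin m → ℂ) : (RP m r).degree < m := by
  unfold RP
  refine lt_of_le_of_lt (Polynomial.degree_sum_le _ _) ?_
  refine (Finset.sup_lt_iff (WithBot.bot_lt_coe m)).2 fun j _ => ?_
  refine lt_of_le_of_lt (Polynomial.degree_C_mul_X_pow_le _ _) ?_
  exact WithBot.coe_lt_coe.2 j.2

private theorem RP_eval (m : ℕ) (r : Fin m → ℂ) (z : ℂ) :
    (RP m r).eval z = ∑ j : Fin m, r j * z ^ (j : ℕ) := by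
  unfold RP
  rw [Polynomial.eval_finsetSum]
  refine Finset.sum_congr rfl fun j _ => ?_
  rw [Polynomial.eval_mul, Polynomial.eval_C, Polynomial.eval_pow, Polynomial.eval_X]

private theorem CA_RP {κ : Type} [Fintype κ] (m : ℕ) (r : Fin m → (κ → ℂ) → ℂ)
    (hr : ∀ j, CA (r j)) (k : ℕ) : CA (fun y => (RP m (fun j => r j y)).coeff k) := by
  have h : (fun y => (RP m (fun j => r j y)).coeff k) =
      fun y => ∑ j ∈ (Finset.univ : Finset (Fin m)), r j y * (if k = (j : ℕ) then 1 else 0) := by
    funext y
    rw [RP_coeff]
  rw [h]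
  exact CA_sum _ fun j _ => CA_mul (hr j) (CA_const _)

private theorem CA_WP {κ : Type} [Fintype κ] (m : ℕ) (w : Fin m → (κ → ℂ) → ℂ)
    (hw : ∀ j, CA (w j)) (k : ℕ) : CA (fun y => (WP m (fun j => w j y)).coeff k) := by
  have h : (fun y => (WP m (fun j => w j y)).coeff k) =
      fun y => (if k = m then 1 else 0) + (RP m (fun j => w j y)).coeff k := by
    funext y
    unfold WP
    rw [Polynomial.coeff_add, Polynomial.coeff_X_pow]
  rw [h]
  exact CA_add (CA_const _) (CA_RP m w hw k)

/-- AXG-G7b: a resultant as a polynomial function of the coefficients. There is a function `Res` of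
`w : Fin m → ℂ` and `r : Fin m → ℂ` which is a polynomial in the entries (so it preserves `CA`: `hCA`) and
vanishes iff `z^m + ∑ w_j z^j` and `∑ r_j z^j` have a common root. Proof. `m = 0`: `Res = 1` (no roots).
`m ≥ 1`: `Res = Polynomial.resultant W R m (m-1)` (a determinant of a matrix whose entries are coefficients),
`W = X^m + ∑ C(w_j) X^j` monic, and `resultant_eq_prod_eval`: it is the product of the values of `R` at the
roots of `W`, so it vanishes iff some root of `W` is a root of `R`. -/
theorem exists_res (m : ℕ) : ∃ Res : (Fin m → ℂ) → (Fin m → ℂ) → ℂ,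
    (∀ w r, Res w r = 0 ↔ ∃ z : ℂ, z ^ m + ∑ j, w j * z ^ (j : ℕ) = 0 ∧ ∑ j, r j * z ^ (j : ℕ) = 0) ∧
    ∀ (κ : Type) [Fintype κ] (w r : Fin m → (κ → ℂ) → ℂ), (∀ j, CA (w j)) → (∀ j, CA (r j)) →
      CA (fun y => Res (fun j => w j y) (fun j => r j y)) := by
  rcases Nat.eq_zero_or_pos m with rfl | hm
  · refine ⟨fun _ _ => 1, fun w r => ?_, fun κ _ w r _ _ => CA_const 1⟩
    constructor
    · intro h
      exact absurd h one_ne_zero
    · rintro ⟨z, h, -⟩
      rw [pow_zero, Finset.univ_eq_empty, Finset.sum_empty, add_zero] at h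
      exact h
  · refine ⟨fun w r => (Polynomial.sylvester (WP m w) (RP m r) m (m - 1)).det, fun w r => ?_,
      fun κ _ w r hw hr => ?_⟩
    · have hmon : (WP m w).Monic := Polynomial.monic_X_pow_add (RP_degree m w)
      have hdeg : (WP m w).natDegree = m := by
        refine Polynomial.natDegree_eq_of_degree_eq_some ?_
        unfold WP
        rw [Polynomial.degree_add_eq_left_of_degree_lt, Polynomial.degree_X_pow]
        rw [Polynomial.degree_X_pow]
        exact RP_degree m w
      have hRdeg : (RP m r).natDegree ≤ m - 1 := by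
        rw [Polynomial.natDegree_le_iff_degree_le]
        rcases eq_or_ne (RP m r) 0 with h | h
        · rw [h, Polynomial.degree_zero]
          exact bot_le
        · have h1 := RP_degree m r
          rw [Polynomial.degree_eq_natDegree h] at h1 ⊢
          have h2 : (RP m r).natDegree < m := by exact_mod_cast h1
          exact_mod_cast (by omega : (RP m r).natDegree ≤ m - 1)
      have h1 := Polynomial.resultant_eq_prod_eval (WP m w) (RP m r) (m - 1) hRdeg
        (IsAlgClosed.splits _)
      rw [hdeg, hmon.leadingCoeff, one_pow, one_mul] at h1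
      unfold Polynomial.resultant at h1
      show (Polynomial.sylvester (WP m w) (RP m r) m (m - 1)).det = 0 ↔ _
      rw [h1, Multiset.prod_eq_zero_iff, Multiset.mem_map]
      constructor
      · rintro ⟨z, hz, hz2⟩
        refine ⟨z, ?_, ?_⟩
        · have h2 := (Polynomial.mem_roots'.1 hz).2
          rw [Polynomial.IsRoot.def] at h2
          unfold WP at h2
          rw [Polynomial.eval_add, RP_eval, Polynomial.eval_pow, Polynomial.eval_X] at h2
          exact h2
        · rw [RP_eval] at hz2
          exact hz2
      · rintro ⟨z, hz, hz2⟩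
        refine ⟨z, ?_, ?_⟩
        · rw [Polynomial.mem_roots hmon.ne_zero, Polynomial.IsRoot.def]
          unfold WP
          rw [Polynomial.eval_add, RP_eval, Polynomial.eval_pow, Polynomial.eval_X]
          exact hz
        · rw [RP_eval]
          exact hz2
    · have h1 : (fun y => (Polynomial.sylvester (WP m fun j => w j y) (RP m fun j => r j y)
          m (m - 1)).det) = fun y => ∑ σ ∈ (Finset.univ : Finset (Equiv.Perm (Fin (m + (m - 1))))),
          ((Equiv.Perm.sign σ : ℤ) : ℂ) * ∏ i ∈ (Finset.univ : Finset (Fin (m + (m - 1)))),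
            Polynomial.sylvester (WP m fun j => w j y) (RP m fun j => r j y) m (m - 1) (σ i) i := by
        funext y
        rw [Matrix.det_apply']
      rw [h1]
      refine CA_sum _ fun σ _ => CA_mul (CA_const _) (CA_prod _ fun i _ => ?_)
      induction i using Fin.addCases with
      | left i =>
        unfold Polynomial.sylvester
        simp only [Matrix.of_apply, Fin.addCases_left]
        split
        · exact CA_RP m r hr _
        · exact CA_const 0
      | right i =>
        unfold Polynomial.sylvester
        simp only [Matrix.of_apply, Fin.addCases_right]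
        split
        · exact CA_WP m w hw _
        · exact CA_const 0

end Pool.Agent.Helper94.AXG
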