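import Pool.Agent.Helper94.AXG.G7
import Pool.Agent.Helper94.AXG.G7B
import Pool.Agent.Helper94.AXG.G6C

/-! # AXG-G7C -/

namespace Pool.Agent.Helper94.AXG

open Filter Topology

variable {ι : Type} [Fintype ι]

private theorem G7C_cont {e : (ι → ℂ) → ℂ → ℂ} (he : CAz e) :
    ContinuousAt (fun w : (ι → ℂ) × ℂ => e w.1 w.2) 0 := by
  have h1 : ContinuousAt (fun w : Option ι → ℂ => e (fun i => w (some i)) (w none)) 0 :=
    (CA_continuous he).self_of_nhds
  let φ : (ι → ℂ) × ℂ → (Option ι → ℂ) := fun p o => Option.elim o p.2 p.1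
  have hφ : Continuous φ := by
    refine continuous_pi fun o => ?_
    cases o with
    | none => exact continuous_snd
    | some i => exact (continuous_apply i).comp continuous_fst
  have hφ0 : φ 0 = 0 := by
    funext o
    cases o with
    | none => rfl
    | some i => rfl
  have h2 : ContinuousAt (fun w : Option ι → ℂ => e (fun i => w (some i)) (w none)) (φ 0) := by
    rw [hφ0]
    exact h1
  exact h2.comp hφ.continuousAt

/-- AXG-G7c: elimination. Proof. `exists_Reg`, `weier_prep` for `f` and `weier_div` for `F` give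
`W = z^m + ∑ W_j z^j = e f`, `e(0,0) ≠ 0`, `F = e' f + ∑ R_j z^j` near `0`. Let
`N(y) = Res(W_j(y), R_j(y))`. If `f = F = 0` at a point `(y, z)` near `0` then `z` is a common root, so
`N(y) = 0`. Conversely let `ε > 0` be so small that everything holds and `e ≠ 0` for `‖y‖, ‖z‖ < ε`, and let
`y` be so small that all `W_j(y)` are `≤ δ` (G7a; `W_j(0) = 0`, continuity): if `N(y) = 0` there is a common
root `z`, `‖z‖ < ε`, so `e f = 0`, `f = 0` and `F = 0` at `(y, z)`. -/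
theorem elim_one {f F : (ι → ℂ) → ℂ → ℂ} (hf : CAz f) (hF : CAz F)
    (h0 : ¬ ∀ᶠ z in 𝓝 (0 : ℂ), f 0 z = 0) :
    ∃ N : (ι → ℂ) → ℂ, CA N ∧
      (∀ᶠ w in 𝓝 (0 : (ι → ℂ) × ℂ), f w.1 w.2 = 0 → F w.1 w.2 = 0 → N w.1 = 0) ∧
      ∀ ε : ℝ, 0 < ε → ∀ᶠ y in 𝓝 (0 : ι → ℂ), N y = 0 → ∃ z : ℂ, ‖z‖ < ε ∧ f y z = 0 ∧ F y z = 0 := by
  obtain ⟨m, hm⟩ := exists_Reg hf h0
  obtain ⟨W, e, hW, hW0, he, he0, hWe⟩ := weier_prep hf hm
  obtain ⟨R, e', hR, he', hRe⟩ := weier_div hf hm hF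
  obtain ⟨Res, hRes, hCA⟩ := exists_res m
  refine ⟨fun y => Res (fun j => W j y) (fun j => R j y), hCA ι W R hW hR, ?_, ?_⟩
  · filter_upwards [hWe, hRe] with w h1 h2 h3 h4
    rw [hRes]
    refine ⟨w.2, ?_, ?_⟩
    · rw [h1, h3, mul_zero]
    · rw [h4, h3, mul_zero, zero_add] at h2
      exact h2.symm
  · intro ε hε
    have hene : ∀ᶠ w in 𝓝 (0 : (ι → ℂ) × ℂ), e w.1 w.2 ≠ 0 := (G7C_cont he).eventually_ne he0
    obtain ⟨ε', hε', hball⟩ := Metric.eventually_nhds_iff_ball.1 (hWe.and (hRe.and hene))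
    obtain ⟨δ, hδ, hsm⟩ := small_roots m (ε := min ε ε') (lt_min hε hε')
    have hWs : ∀ᶠ y in 𝓝 (0 : ι → ℂ), ∀ j, ‖W j y‖ ≤ δ := by
      refine Filter.eventually_all.2 fun j => ?_
      have h1 : ContinuousAt (W j) 0 := (CA_continuous (hW j)).self_of_nhds
      have h2 : ContinuousAt (fun y => ‖W j y‖) 0 := h1.norm
      have h3 : ‖W j 0‖ < δ := by
        rw [hW0 j, norm_zero]
        exact hδ
      exact (h2.eventually_lt continuousAt_const h3).mono fun y hy => le_of_lt hy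
    have hys : ∀ᶠ y in 𝓝 (0 : ι → ℂ), ‖y‖ < ε' := by
      have h1 := Metric.ball_mem_nhds (0 : ι → ℂ) hε'
      filter_upwards [h1] with y hy
      rwa [Metric.mem_ball, dist_zero_right] at hy
    filter_upwards [hWs, hys] with y h1 h2 h3
    obtain ⟨z, hz1, hz2⟩ := (hRes _ _).1 h3
    have hz := hsm _ z h1 hz1
    have hz' : ‖z‖ < ε' := lt_of_lt_of_le hz (min_le_right _ _)
    obtain ⟨h4, h5, h6⟩ := hball (y, z) (by
      rw [Metric.mem_ball, dist_zero_right, Prod.norm_def]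
      exact max_lt h2 hz')
    have h7 : f y z = 0 := by
      have h8 : e y z * f y z = 0 := by
        rw [← h4]
        exact hz1
      exact (mul_eq_zero.1 h8).resolve_left h6
    refine ⟨z, lt_of_lt_of_le hz (min_le_left _ _), h7, ?_⟩
    have h8 : F y z = e' y z * f y z + ∑ j, R j y * z ^ (j : ℕ) := h5
    rw [h8, h7, mul_zero, zero_add]
    exact hz2

end Pool.Agent.Helper94.AXG
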