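import Pool.Agent.Helper94.AXG.GDefs

/-! # AXG-G9 -/

namespace Pool.Agent.Helper94.AXG

open MvPowerSeries Filter Topology

variable {p : ℕ}

/-- the number `n(ν) = ∏ p_i^{ν_i}`, `p_i` the `i`-th prime -/
noncomputable def nn (ν : Fin p →₀ ℕ) : ℕ := ∏ i : Fin p, (Nat.nth Nat.Prime (i : ℕ)) ^ ν i

/-- the radii `p_i^{-c}` -/
noncomputable def rad (p : ℕ) (c : ℝ) : Fin p → ℝ := fun i => ((Nat.nth Nat.Prime (i : ℕ) : ℕ) : ℝ) ^ (-c)

/-- AXG-G9a -/
theorem nn_add (μ ν : Fin p →₀ ℕ) : nn (μ + ν) = nn μ * nn ν := by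
  simp only [nn, Finsupp.add_apply, pow_add, Finset.prod_mul_distrib]

private theorem q_inj : Function.Injective (fun i : Fin p => Nat.nth Nat.Prime (i : ℕ)) :=
  fun _ _ h => Fin.ext (Nat.nth_injective Nat.infinite_setOfPred_prime h)

private theorem nn_fact (ν : Fin p →₀ ℕ) (j : Fin p) :
    (nn ν).factorization (Nat.nth Nat.Prime (j : ℕ)) = ν j := by
  have h1 : (nn ν).factorization =
      ∑ i : Fin p, (Nat.nth Nat.Prime (i : ℕ) ^ ν i).factorization :=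
    Nat.factorization_prod
      (fun i _ => pow_ne_zero _ (Nat.prime_nth_prime (i : ℕ)).ne_zero)
  rw [h1, Finsupp.finsetSum_apply, Finset.sum_eq_single j]
  · rw [(Nat.prime_nth_prime (j : ℕ)).factorization_pow, Finsupp.single_eq_same]
  · intro i _ hij
    rw [(Nat.prime_nth_prime (i : ℕ)).factorization_pow]
    exact Finsupp.single_eq_of_ne (fun h => hij (q_inj h).symm)
  · intro h
    exact absurd (Finset.mem_univ j) h

/-- AXG-G9b: unique factorisation -/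
theorem nn_inj : Function.Injective (nn : (Fin p →₀ ℕ) → ℕ) := by
  intro μ ν h
  ext j
  rw [← nn_fact μ j, ← nn_fact ν j, h]

theorem nn_pos (ν : Fin p →₀ ℕ) : 0 < nn ν :=
  Finset.prod_pos (fun i _ => pow_pos (Nat.prime_nth_prime (i : ℕ)).pos _)

/-- AXG-G9c -/
theorem mr_rad (c : ℝ) (ν : Fin p →₀ ℕ) : mr (rad p c) ν = (nn ν : ℝ) ^ (-c) := by
  rw [nn, mr, Nat.cast_prod, ← Real.finsetProd_rpow _ _ (fun i _ => Nat.cast_nonneg _)]
  refine Finset.prod_congr rfl (fun i _ => ?_)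
  have h0 : (0 : ℝ) ≤ ((Nat.nth Nat.Prime (i : ℕ) : ℕ) : ℝ) := Nat.cast_nonneg _
  rw [rad, Nat.cast_pow, ← Real.rpow_natCast, ← Real.rpow_natCast, ← Real.rpow_mul h0,
    ← Real.rpow_mul h0, mul_comm]

end Pool.Agent.Helper94.AXG
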