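import Pool.Agent.Helper94.AXG.G9
import Pool.Agent.Helper94.AXG.G1A

/-! # AXG-G9B -/

namespace Pool.Agent.Helper94.AXG

open MvPowerSeries Filter Topology

variable {p : ℕ}

/-- AXG-G9d: `μ` is the exponent of `f` with the smallest `n`: then for large `c` the series
`f/f_μ - y^μ` is small. Proof. `nr_{rad c} (f/f_μ - y^μ) / mr (rad c) μ =
∑_{ν ≠ μ} ‖f_ν/f_μ‖ (n(ν)/n(μ))^{-c}`, every ratio `n(ν)/n(μ)` is `> 1`, in fact `≥ 1 + 1/n(μ)`; dominated by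
its value at `c₀`; so it tends to `0` (it is `≤ (1 + 1/n(μ))^{-(c - c₀)} × (value at c₀)`). -/
theorem init_small {f : MvPowerSeries (Fin p) ℂ} {c₀ : ℝ} (hf : Cv (rad p c₀) f) {μ : Fin p →₀ ℕ}
    (hμ : coeff μ f ≠ 0) (hmin : ∀ ν, coeff ν f ≠ 0 → nn μ ≤ nn ν) :
    ∃ c₁ : ℝ, c₀ ≤ c₁ ∧ ∀ c : ℝ, c₁ ≤ c →
      Cv (rad p c) (C (coeff μ f)⁻¹ * f - monomial μ 1) ∧
        nr (rad p c) (C (coeff μ f)⁻¹ * f - monomial μ 1) ≤ (1 / 2) * mr (rad p c) μ := by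
  obtain ⟨g, hg⟩ : ∃ g, g = C (coeff μ f)⁻¹ * f - monomial μ 1 := ⟨_, rfl⟩
  rw [← hg]
  have hg0 : Cv (rad p c₀) g := by
    have e : g = C (coeff μ f)⁻¹ * f + monomial μ (-1) := by
      rw [hg, map_neg, sub_eq_add_neg]
    rw [e]
    exact (Cv_add (fun i => Real.rpow_nonneg (Nat.cast_nonneg _) _)
      (Cv_smul _ hf _).1 (Cv_monomial _ _ _).1).1
  have hcoeff : ∀ ν, coeff ν g = (coeff μ f)⁻¹ * coeff ν f - (if ν = μ then 1 else 0) := by
    intro ν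
    rw [hg, map_sub, coeff_C_mul, coeff_monomial]
  have hmu : coeff μ g = 0 := by
    rw [hcoeff, if_pos rfl, inv_mul_cancel₀ hμ, sub_self]
  have hm0 : (0 : ℝ) < nn μ := by exact_mod_cast nn_pos μ
  obtain ⟨m, hm⟩ : ∃ m : ℝ, m = nn μ := ⟨_, rfl⟩
  rw [← hm] at hm0
  obtain ⟨r, hr⟩ : ∃ r : ℝ, r = (m + 1) / m := ⟨_, rfl⟩
  have hr1 : 1 < r := by rw [hr, lt_div_iff₀ hm0]; linarith
  have hr0 : 0 < r := by linarith
  have hrm : m + 1 = r * m := by rw [hr]; field_simp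
  have key : ∀ c, c₀ ≤ c → ∀ ν, ‖coeff ν g‖ * mr (rad p c) ν ≤
      (‖coeff ν g‖ * mr (rad p c₀) ν) * (r * m) ^ (-(c - c₀)) := by
    intro c hc ν
    by_cases h0 : coeff ν g = 0
    · rw [h0, norm_zero, zero_mul, zero_mul, zero_mul]
    · have h1 : ν ≠ μ := by
        rintro rfl
        exact h0 hmu
      have h2 : coeff ν f ≠ 0 := by
        intro h3
        apply h0
        rw [hcoeff, h3, if_neg h1, mul_zero, sub_zero]
      have h3 : nn μ < nn ν :=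
        lt_of_le_of_ne (hmin ν h2) fun h => h1 (nn_inj h).symm
      have h4 : r * m ≤ (nn ν : ℝ) := by
        rw [← hrm, hm]
        exact_mod_cast h3
      have h5 : (0 : ℝ) < nn ν := by exact_mod_cast nn_pos ν
      have h6 : mr (rad p c) ν = mr (rad p c₀) ν * (nn ν : ℝ) ^ (-(c - c₀)) := by
        rw [mr_rad, mr_rad, ← Real.rpow_add h5]
        congr 1
        ring
      rw [h6, mul_assoc]
      refine mul_le_mul_of_nonneg_left ?_ (norm_nonneg _)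
      refine mul_le_mul_of_nonneg_left ?_ ?_
      · exact Real.rpow_le_rpow_of_nonpos (mul_pos hr0 hm0) h4 (by linarith)
      · rw [mr_rad]
        exact Real.rpow_nonneg h5.le _
  have hnn : ∀ c ν, 0 ≤ ‖coeff ν g‖ * mr (rad p c) ν := fun c ν =>
    mul_nonneg (norm_nonneg _) (by rw [mr_rad]; exact Real.rpow_nonneg (Nat.cast_nonneg _) _)
  have hsum : ∀ c, c₀ ≤ c → Cv (rad p c) g ∧
      nr (rad p c) g ≤ nr (rad p c₀) g * (r * m) ^ (-(c - c₀)) := by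
    intro c hc
    have h1 : Summable fun ν => (‖coeff ν g‖ * mr (rad p c₀) ν) * (r * m) ^ (-(c - c₀)) :=
      Summable.mul_right _ hg0
    have h2 : Cv (rad p c) g := Summable.of_nonneg_of_le (hnn c) (key c hc) h1
    refine ⟨h2, ?_⟩
    have h3 := Summable.tsum_le_tsum (key c hc) h2 h1
    rw [tsum_mul_right] at h3
    exact h3
  obtain ⟨n, hn⟩ := pow_unbounded_of_one_lt (2 * (nr (rad p c₀) g * m ^ c₀)) hr1
  refine ⟨c₀ + n, by
    have : (0 : ℝ) ≤ n := Nat.cast_nonneg n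
    linarith, fun c hc => ?_⟩
  have hnc : (0 : ℝ) ≤ n := Nat.cast_nonneg n
  have hc0 : c₀ ≤ c := by linarith
  obtain ⟨h1, h2⟩ := hsum c hc0
  refine ⟨h1, h2.trans ?_⟩
  rw [mr_rad, ← hm]
  have h3 : r ^ n ≤ r ^ (c - c₀) := by
    rw [← Real.rpow_natCast]
    exact Real.rpow_le_rpow_of_exponent_le hr1.le (by linarith)
  have h4 : 2 * (nr (rad p c₀) g * m ^ c₀) ≤ r ^ (c - c₀) := hn.le.trans h3
  have h5 : m ^ (-c) = m ^ (-(c - c₀)) * m ^ (-c₀) := by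
    rw [← Real.rpow_add hm0]
    congr 1
    ring
  have h6 : m ^ c₀ * m ^ (-c₀) = 1 := by
    rw [← Real.rpow_add hm0, add_neg_cancel, Real.rpow_zero]
  have h7 : r ^ (c - c₀) * r ^ (-(c - c₀)) = 1 := by
    rw [← Real.rpow_add hr0, add_neg_cancel, Real.rpow_zero]
  have p1 : 0 < r ^ (-(c - c₀)) := Real.rpow_pos_of_pos hr0 _
  have p2 : 0 < m ^ (-(c - c₀)) := Real.rpow_pos_of_pos hm0 _
  have p3 : 0 < m ^ (-c₀) := Real.rpow_pos_of_pos hm0 _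
  rw [Real.mul_rpow hr0.le hm0.le, h5]
  have h8 : 2 * nr (rad p c₀) g * r ^ (-(c - c₀)) ≤ m ^ (-c₀) := by
    calc 2 * nr (rad p c₀) g * r ^ (-(c - c₀))
        = 2 * (nr (rad p c₀) g * m ^ c₀) * (r ^ (-(c - c₀)) * m ^ (-c₀)) := by
          linear_combination (-2 * nr (rad p c₀) g * r ^ (-(c - c₀))) * h6
      _ ≤ r ^ (c - c₀) * (r ^ (-(c - c₀)) * m ^ (-c₀)) :=
          mul_le_mul_of_nonneg_right h4 (mul_nonneg p1.le p3.le)
      _ = m ^ (-c₀) := by rw [← mul_assoc, h7, one_mul]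
  calc nr (rad p c₀) g * (r ^ (-(c - c₀)) * m ^ (-(c - c₀)))
      = 1 / 2 * (m ^ (-(c - c₀)) * (2 * nr (rad p c₀) g * r ^ (-(c - c₀)))) := by ring
    _ ≤ 1 / 2 * (m ^ (-(c - c₀)) * m ^ (-c₀)) := by
        refine mul_le_mul_of_nonneg_left ?_ (by norm_num)
        exact mul_le_mul_of_nonneg_left h8 p2.le

end Pool.Agent.Helper94.AXG
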