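import Pool.Agent.Helper94.AXG.HB

/-! # AXG-H1a: the box of exponents -/

namespace Pool.Agent.Helper94.AXG

open MvPolynomial Filter Topology

/-- AXG-H1a: the coefficients outside of the box vanish. Proof. `ν i ≤ ∑ ν ≤ totalDegree F ≤ D` for
`ν` in the support (`le_totalDegree`). -/
theorem coeff_out {k D : ℕ} {R : Type} [CommRing R] {F : MvPolynomial (Fin k) R} (h : F.totalDegree ≤ D)
    {ν : Fin k →₀ ℕ} (hν : ν ∉ bx k D) : coeff ν F = 0 := by
  by_contra h1
  apply hν
  rw [mem_bx]
  intro i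
  have h2 := le_totalDegree (mem_support_iff.2 h1)
  rw [Finsupp.sum_fintype _ _ (fun _ => rfl)] at h2
  exact (Finset.single_le_sum (f := fun j => ν j) (fun _ _ => Nat.zero_le _)
    (Finset.mem_univ i)).trans (h2.trans h)

private theorem h1_coeff_box {k D : ℕ} {R : Type} [CommRing R] (c : (Fin k →₀ ℕ) → R)
    (μ : Fin k →₀ ℕ) :
    coeff μ (∑ ν ∈ bx k D, monomial ν (c ν)) = if μ ∈ bx k D then c μ else 0 := by
  classical
  rw [coeff_sum]
  simp only [coeff_monomial]
  rw [Finset.sum_ite_eq']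

/-- AXG-H1a: `F` is the sum of its monomials in the box -/
theorem expand {k D : ℕ} {R : Type} [CommRing R] {F : MvPolynomial (Fin k) R} (h : F.totalDegree ≤ D) :
    F = ∑ ν ∈ bx k D, monomial ν (coeff ν F) := by
  classical
  ext μ
  rw [h1_coeff_box]
  split_ifs with h1
  · rfl
  · exact coeff_out h h1

/-- AXG-H1a: coefficients of a sum of monomials over the box -/
theorem coeff_box {k D : ℕ} {R : Type} [CommRing R] (c : (Fin k →₀ ℕ) → R) (μ : Fin k →₀ ℕ) :
    coeff μ (∑ ν ∈ bx k D, monomial ν (c ν)) = if μ ∈ bx k D then c μ else 0 := by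
  convert h1_coeff_box c μ

/-- AXG-H1a: the degree of a sum of monomials over the box -/
theorem deg_box {k D : ℕ} {R : Type} [CommRing R] (c : (Fin k →₀ ℕ) → R) :
    (∑ ν ∈ bx k D, monomial ν (c ν) : MvPolynomial (Fin k) R).totalDegree ≤ k * D := by
  refine totalDegree_finsetSum_le fun ν hν => ?_
  refine (totalDegree_monomial_le _ _).trans ?_
  rw [Finsupp.sum_fintype _ _ (fun _ => rfl)]
  have h1 : ∀ i ∈ (Finset.univ : Finset (Fin k)), ν i ≤ D := fun i _ => mem_bx.1 hν i
  refine (Finset.sum_le_card_nsmul _ _ _ h1).trans ?_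
  rw [Finset.card_univ, Fintype.card_fin, smul_eq_mul]

end Pool.Agent.Helper94.AXG
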