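import Pool.Agent.Helper94.AXG.H1

/-! # AXG-H1b: equality of representatives -/

namespace Pool.Agent.Helper94.AXG

open MvPolynomial Filter Topology

/-- AXG-H1b: finitely many coefficients decide: if all coefficients of `F n`, `G n` agree eventually, for
every exponent separately, and the degrees are bounded, then `F n = G n` eventually
(`eventually_all_finset` over the box, `coeff_out`). -/
theorem eq_of_coeff {k D : ℕ} {F G : ℕ → MvPolynomial (Fin k) ℂ}
    (hF : ∀ᶠ n in (UF : Filter ℕ), (F n).totalDegree ≤ D)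
    (hG : ∀ᶠ n in (UF : Filter ℕ), (G n).totalDegree ≤ D)
    (h : ∀ ν, ∀ᶠ n in (UF : Filter ℕ), coeff ν (F n) = coeff ν (G n)) :
    ∀ᶠ n in (UF : Filter ℕ), F n = G n := by
  filter_upwards [hF, hG, (eventually_all_finset (bx k D)).2 (fun ν _ => h ν)] with n h1 h2 h3
  ext ν
  by_cases hν : ν ∈ bx k D
  · exact h3 ν hν
  · rw [coeff_out h1 hν, coeff_out h2 hν]

/-- AXG-H1b: change of a representative -/
theorem Rp.congr {k : ℕ} {f : MvPolynomial (Fin k) KK} {F G : ℕ → MvPolynomial (Fin k) ℂ} (h : Rp f F)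
    (e : ∀ᶠ n in (UF : Filter ℕ), F n = G n) : Rp f G := by
  obtain ⟨⟨D, hD⟩, h2⟩ := h
  refine ⟨⟨D, ?_⟩, fun ν => (h2 ν).trans (gm_eq.2 ?_)⟩
  · filter_upwards [hD, e] with n h1 h3
    rw [← h3]
    exact h1
  · filter_upwards [e] with n h3
    rw [h3]

/-- AXG-H1b: two representatives agree eventually (`eq_of_coeff`, `gm_eq`) -/
theorem Rp.eq {k : ℕ} {f : MvPolynomial (Fin k) KK} {F G : ℕ → MvPolynomial (Fin k) ℂ} (hF : Rp f F)
    (hG : Rp f G) : ∀ᶠ n in (UF : Filter ℕ), F n = G n := by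
  obtain ⟨⟨D, hD⟩, h2⟩ := hF
  obtain ⟨⟨D', hD'⟩, h2'⟩ := hG
  refine eq_of_coeff (D := max D D') ?_ ?_ fun ν => gm_eq.1 ((h2 ν).symm.trans (h2' ν))
  · filter_upwards [hD] with n h1 using h1.trans (le_max_left _ _)
  · filter_upwards [hD'] with n h1 using h1.trans (le_max_right _ _)

/-- AXG-H1b: a sequence represents only one polynomial -/
theorem Rp.uniq {k : ℕ} {f g : MvPolynomial (Fin k) KK} {F : ℕ → MvPolynomial (Fin k) ℂ} (hf : Rp f F)
    (hg : Rp g F) : f = g := by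
  ext ν
  rw [hf.2 ν, hg.2 ν]

end Pool.Agent.Helper94.AXG
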