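import Pool.Agent.Helper94.AXG.HB

/-! # AXG-H1d: representatives and sums -/

namespace Pool.Agent.Helper94.AXG

open MvPolynomial Filter Topology

variable {k : ℕ}

/-- AXG-H1d (`coeff_C`, `totalDegree_C`) -/
theorem Rp_C (c : ℕ → ℂ) : Rp (C (gm c) : MvPolynomial (Fin k) KK) (fun n => C (c n)) := by
  refine ⟨⟨0, Eventually.of_forall fun n => ?_⟩, fun ν => ?_⟩
  · rw [totalDegree_C]
  · rw [coeff_C]
    by_cases h : (0 : Fin k →₀ ℕ) = ν
    · rw [if_pos h]
      refine congrArg gm (funext fun n => ?_)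
      rw [coeff_C, if_pos h]
    · rw [if_neg h]
      refine (gm_zero.symm).trans (congrArg gm (funext fun n => ?_))
      rw [coeff_C, if_neg h]

/-- AXG-H1d -/
theorem Rp_zero : Rp (0 : MvPolynomial (Fin k) KK) (fun _ => 0) := by
  have h := Rp_C (k := k) (fun _ => 0)
  rw [gm_zero] at h
  simpa only [map_zero] using h

/-- AXG-H1d -/
theorem Rp_one : Rp (1 : MvPolynomial (Fin k) KK) (fun _ => 1) := by
  have h := Rp_C (k := k) (fun _ => 1)
  rw [gm_one] at h
  simpa only [map_one] using h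

/-- AXG-H1d -/
theorem Rp_X (i : Fin k) : Rp (X i : MvPolynomial (Fin k) KK) (fun _ => X i) := by
  refine ⟨⟨1, Eventually.of_forall fun n => ?_⟩, fun ν => ?_⟩
  · rw [totalDegree_X]
  · rw [coeff_X]
    by_cases h : Finsupp.single i 1 = ν
    · rw [if_pos h]
      refine (gm_one.symm).trans (congrArg gm (funext fun n => ?_))
      rw [coeff_X, if_pos h]
    · rw [if_neg h]
      refine (gm_zero.symm).trans (congrArg gm (funext fun n => ?_))
      rw [coeff_X, if_neg h]

/-- AXG-H1d (`coeff_add`, `totalDegree_add`) -/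
theorem Rp.add {f g : MvPolynomial (Fin k) KK} {F G : ℕ → MvPolynomial (Fin k) ℂ} (hf : Rp f F)
    (hg : Rp g G) : Rp (f + g) (fun n => F n + G n) := by
  obtain ⟨⟨D, hD⟩, hc⟩ := hf
  obtain ⟨⟨E, hE⟩, hd⟩ := hg
  refine ⟨⟨max D E, ?_⟩, fun ν => ?_⟩
  · filter_upwards [hD, hE] with n h1 h2
    exact (totalDegree_add _ _).trans (max_le_max h1 h2)
  · rw [coeff_add, hc ν, hd ν]
    refine (gm_add _ _).symm.trans (congrArg gm (funext fun n => ?_))
    rw [coeff_add]

/-- AXG-H1d -/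
theorem Rp.neg {f : MvPolynomial (Fin k) KK} {F : ℕ → MvPolynomial (Fin k) ℂ} (hf : Rp f F) :
    Rp (-f) (fun n => - F n) := by
  obtain ⟨⟨D, hD⟩, hc⟩ := hf
  refine ⟨⟨D, ?_⟩, fun ν => ?_⟩
  · filter_upwards [hD] with n h1
    rwa [totalDegree_neg]
  · rw [coeff_neg, hc ν]
    refine (gm_neg _).symm.trans (congrArg gm (funext fun n => ?_))
    rw [coeff_neg]

/-- AXG-H1d -/
theorem Rp.sub {f g : MvPolynomial (Fin k) KK} {F G : ℕ → MvPolynomial (Fin k) ℂ} (hf : Rp f F)
    (hg : Rp g G) : Rp (f - g) (fun n => F n - G n) := by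
  simpa only [sub_eq_add_neg] using hf.add hg.neg

end Pool.Agent.Helper94.AXG
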