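import Pool.Agent.Helper94.AXG.H1B

/-! # AXG-H1d: representatives and products -/

namespace Pool.Agent.Helper94.AXG

open MvPolynomial Filter Topology

variable {k : ℕ}

/-- AXG-H1d (`coeff_mul` : a finite sum over the antidiagonal, `gm_sum`, `gm_mul`; `totalDegree_mul`) -/
theorem Rp.mul {f g : MvPolynomial (Fin k) KK} {F G : ℕ → MvPolynomial (Fin k) ℂ} (hf : Rp f F)
    (hg : Rp g G) : Rp (f * g) (fun n => F n * G n) := by
  obtain ⟨⟨D, hD⟩, hf⟩ := hf
  obtain ⟨⟨E, hE⟩, hg⟩ := hg
  refine ⟨⟨D + E, ?_⟩, fun ν => ?_⟩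
  · filter_upwards [hD, hE] with n h1 h2
    exact (totalDegree_mul _ _).trans (add_le_add h1 h2)
  · have h1 : (fun n => coeff ν (F n * G n) : ℕ → ℂ) =
        fun n => ∑ x ∈ Finset.HasAntidiagonal.antidiagonal ν, coeff x.1 (F n) * coeff x.2 (G n) := by
      funext n
      rw [coeff_mul]
    rw [h1, coeff_mul]
    have h2 := gm_sum (Finset.HasAntidiagonal.antidiagonal ν) (fun x n => coeff x.1 (F n) * coeff x.2 (G n))
    refine Eq.trans ?_ h2.symm
    refine Finset.sum_congr rfl (fun x _ => ?_)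
    rw [gm_mul, hf x.1, hg x.2]

/-- AXG-H1d -/
theorem Rp.pow {f : MvPolynomial (Fin k) KK} {F : ℕ → MvPolynomial (Fin k) ℂ} (hf : Rp f F) (m : ℕ) :
    Rp (f ^ m) (fun n => F n ^ m) := by
  induction m with
  | zero =>
    simp only [pow_zero]
    exact Rp_one
  | succ m ih =>
    simp only [pow_succ]
    exact ih.mul hf

/-- AXG-H1d -/
theorem Rp_sum {ι : Type} (s : Finset ι) {f : ι → MvPolynomial (Fin k) KK}
    {F : ι → ℕ → MvPolynomial (Fin k) ℂ} (h : ∀ i ∈ s, Rp (f i) (F i)) :
    Rp (∑ i ∈ s, f i) (fun n => ∑ i ∈ s, F i n) := by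
  classical
  induction s using Finset.induction_on with
  | empty =>
    simp only [Finset.sum_empty]
    exact Rp_zero
  | insert a s ha ih =>
    simp only [Finset.sum_insert ha]
    exact (h a (Finset.mem_insert_self a s)).add
      (ih (fun i hi => h i (Finset.mem_insert_of_mem hi)))

/-- AXG-H1d -/
theorem Rp_prod {ι : Type} (s : Finset ι) {f : ι → MvPolynomial (Fin k) KK}
    {F : ι → ℕ → MvPolynomial (Fin k) ℂ} (h : ∀ i ∈ s, Rp (f i) (F i)) :
    Rp (∏ i ∈ s, f i) (fun n => ∏ i ∈ s, F i n) := by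
  classical
  induction s using Finset.induction_on with
  | empty =>
    simp only [Finset.prod_empty]
    exact Rp_one
  | insert a s ha ih =>
    simp only [Finset.prod_insert ha]
    exact (h a (Finset.mem_insert_self a s)).mul
      (ih (fun i hi => h i (Finset.mem_insert_of_mem hi)))

end Pool.Agent.Helper94.AXG
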