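import Pool.Agent.Helper94.AXG.H1A
import Pool.Agent.Helper94.AXG.H1M

/-! # AXG-H1e: representatives and substitutions -/

namespace Pool.Agent.Helper94.AXG

open MvPolynomial Filter Topology

/-- AXG-H1e: substitution. Proof. Let `D` bound the degrees of `F n` and of `f`. Eventually
`F n = ∑ ν ∈ bx r D, monomial ν (coeff ν (F n))` (`expand`), so `aeval (G · n) (F n) =
∑ ν ∈ bx r D, C (coeff ν (F n)) * ∏ j, G j n ^ ν j` (`aeval_monomial`, `Finsupp.prod_fintype`); the same for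
`f`; now `Rp_sum`, `Rp.mul`, `Rp_C`, `Rp_prod`, `Rp.pow`, `Rp.congr`. -/
theorem Rp_aeval {r k : ℕ} {f : MvPolynomial (Fin r) KK} {F : ℕ → MvPolynomial (Fin r) ℂ} (hf : Rp f F)
    {g : Fin r → MvPolynomial (Fin k) KK} {G : Fin r → ℕ → MvPolynomial (Fin k) ℂ}
    (hg : ∀ j, Rp (g j) (G j)) : Rp (aeval g f) (fun n => aeval (fun j => G j n) (F n)) := by
  have key : ∀ {R : Type} [CommRing R] (D : ℕ) (p : MvPolynomial (Fin r) R)
      (q : Fin r → MvPolynomial (Fin k) R), p.totalDegree ≤ D →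
      aeval q p = ∑ ν ∈ bx r D, C (coeff ν p) * ∏ j, q j ^ ν j := by
    intro R _ D p q hp
    conv_lhs => rw [expand hp]
    rw [map_sum]
    refine Finset.sum_congr rfl fun ν _ => ?_
    rw [aeval_monomial, Finsupp.prod_fintype _ _ (fun i => pow_zero _)]
    rfl
  obtain ⟨⟨D0, hD0⟩, hc⟩ := hf
  have hD : f.totalDegree ≤ max D0 f.totalDegree := le_max_right _ _
  rw [key (max D0 f.totalDegree) f g hD]
  have h1 : Rp (∑ ν ∈ bx r (max D0 f.totalDegree), C (coeff ν f) * ∏ j, g j ^ ν j)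
      (fun n => ∑ ν ∈ bx r (max D0 f.totalDegree), C (coeff ν (F n)) * ∏ j, G j n ^ ν j) := by
    refine Rp_sum (bx r (max D0 f.totalDegree)) (f := fun ν => C (coeff ν f) * ∏ j, g j ^ ν j)
      (F := fun ν n => C (coeff ν (F n)) * ∏ j, G j n ^ ν j) fun ν _ => ?_
    refine Rp.mul (F := fun n => C (coeff ν (F n))) (G := fun n => ∏ j, G j n ^ ν j) ?_ ?_
    · rw [hc ν]
      exact Rp_C _
    · exact Rp_prod Finset.univ (f := fun j => g j ^ ν j) (F := fun j n => G j n ^ ν j)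
        fun j _ => (hg j).pow (ν j)
  refine Rp.congr h1 ?_
  filter_upwards [hD0] with n hn
  exact (key (max D0 f.totalDegree) (F n) (fun j => G j n) (hn.trans (le_max_left _ _))).symm

end Pool.Agent.Helper94.AXG
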