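import Pool.Agent.Helper94.AXG.H1E
import Pool.Agent.Helper94.AXG.H1M

/-! # AXG-H1f: representatives of monic polynomials -/

namespace Pool.Agent.Helper94.AXG

open MvPolynomial Filter Topology

private theorem H1D_coeff {R : Type} [CommRing R] (N : ℕ) (g : ℕ → R) (i : ℕ) :
    ((Polynomial.X : Polynomial R) ^ N +
      ∑ j ∈ Finset.range N, Polynomial.C (g j) * Polynomial.X ^ j).coeff i =
      (if i = N then 1 else 0) + if i < N then g i else 0 := by
  rw [Polynomial.coeff_add, Polynomial.coeff_X_pow, Polynomial.finsetSum_coeff]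
  simp only [Polynomial.coeff_C_mul_X_pow, Finset.sum_ite_eq, Finset.mem_range]

private theorem H1D_deg {R : Type} [CommRing R] (N : ℕ) (g : ℕ → R) :
    (∑ j ∈ Finset.range N, Polynomial.C (g j) * (Polynomial.X : Polynomial R) ^ j).degree <
      (N : WithBot ℕ) := by
  rw [Polynomial.degree_lt_iff_coeff_zero]
  intro m hm
  rw [Polynomial.finsetSum_coeff]
  refine Finset.sum_eq_zero fun j hj => ?_
  rw [Polynomial.coeff_C_mul_X_pow, if_neg]
  have := Finset.mem_range.1 hj
  omega

/-- AXG-H1f: a monic polynomial has a monic representative. Proof. With representatives `G i` of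
`χ.coeff i`, `i < N = natDegree χ`: `Y n = X^N + ∑ i ∈ range N, C (G i n) * X^i`. -/
theorem exists_RpP {r : ℕ} (χ : Polynomial (MvPolynomial (Fin r) KK)) (h : χ.Monic) :
    ∃ Y, RpP χ Y ∧ ∀ n, (Y n).Monic := by
  choose G hG using fun i => exists_Rp (χ.coeff i)
  refine ⟨fun n => Polynomial.X ^ χ.natDegree +
    ∑ j ∈ Finset.range χ.natDegree, Polynomial.C (G j n) * Polynomial.X ^ j,
    ⟨⟨χ.natDegree, Eventually.of_forall fun n => ?_⟩, fun i => ?_⟩,
    fun n => Polynomial.monic_X_pow_add (H1D_deg _ _)⟩
  · rw [Polynomial.natDegree_le_iff_coeff_eq_zero]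
    intro m hm
    rw [H1D_coeff, if_neg (by omega), if_neg (by omega), add_zero]
  · simp only [H1D_coeff]
    rcases lt_trichotomy i χ.natDegree with hi | hi | hi
    · simpa only [if_neg hi.ne, if_pos hi, zero_add] using hG i
    · subst hi
      have h1 : χ.coeff χ.natDegree = 1 := h
      rw [h1]
      simpa using (Rp_one (k := r))
    · rw [Polynomial.coeff_eq_zero_of_natDegree_lt hi]
      simpa only [if_neg hi.ne', if_neg hi.not_gt, zero_add] using (Rp_zero (k := r))

end Pool.Agent.Helper94.AXG
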