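import Pool.Agent.Helper94.AXG.H1A

/-! # AXG-H1c: existence of representatives -/

namespace Pool.Agent.Helper94.AXG

open MvPolynomial Filter Topology

/-- AXG-H1c: every polynomial has a representative. Proof. Choose sequences `c ν` with `gm (c ν) = coeff ν f`,
`F n = ∑ ν ∈ bx k D, monomial ν (c ν n)`, `D = totalDegree f` (`coeff_box`, `deg_box`, `coeff_out`). -/
theorem exists_Rp {k : ℕ} (f : MvPolynomial (Fin k) KK) : ∃ F, Rp f F := by
  choose c hc using fun ν => exists_gm (coeff ν f)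
  refine ⟨fun n => ∑ ν ∈ bx k f.totalDegree, monomial ν (c ν n),
    ⟨k * f.totalDegree, Eventually.of_forall fun n => deg_box _⟩, fun ν => ?_⟩
  have h1 : (fun n => coeff ν (∑ ν ∈ bx k f.totalDegree, monomial ν (c ν n))) =
      fun n => if ν ∈ bx k f.totalDegree then c ν n else 0 := by
    funext n
    exact coeff_box (fun ν => c ν n) ν
  rw [h1]
  by_cases hν : ν ∈ bx k f.totalDegree
  · simp only [if_pos hν]
    exact (hc ν).symm
  · simp only [if_neg hν]
    rw [coeff_out le_rfl hν]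
    exact gm_zero.symm

/-- AXG-H1c: every sequence of bounded degree represents a polynomial:
`f = ∑ ν ∈ bx k D, monomial ν (gm (fun n => coeff ν (F n)))`. -/
theorem exists_of_seq {k D : ℕ} (F : ℕ → MvPolynomial (Fin k) ℂ)
    (h : ∀ᶠ n in (UF : Filter ℕ), (F n).totalDegree ≤ D) : ∃ f, Rp f F := by
  refine ⟨∑ ν ∈ bx k D, monomial ν (gm fun n => coeff ν (F n)), ⟨D, h⟩, fun ν => ?_⟩
  rw [coeff_box (fun ν => gm fun n => coeff ν (F n)) ν]
  by_cases hν : ν ∈ bx k D
  · rw [if_pos hν]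
  · rw [if_neg hν, ← gm_zero]
    refine gm_eq.2 ?_
    filter_upwards [h] with n hn
    exact (coeff_out hn hν).symm

/-- AXG-H1c: `f = 0` iff `F n = 0` eventually (`Rp.eq`, the zero sequence) -/
theorem Rp.zero_iff {k : ℕ} {f : MvPolynomial (Fin k) KK} {F : ℕ → MvPolynomial (Fin k) ℂ} (h : Rp f F) :
    f = 0 ↔ ∀ᶠ n in (UF : Filter ℕ), F n = 0 := by
  have hz : Rp (0 : MvPolynomial (Fin k) KK) (fun _ => (0 : MvPolynomial (Fin k) ℂ)) := by
    refine ⟨⟨0, Eventually.of_forall fun _ => by rw [totalDegree_zero]⟩, fun ν => ?_⟩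
    simp only [coeff_zero]
    exact gm_zero.symm
  constructor
  · rintro rfl
    exact h.eq hz
  · intro e
    exact (h.congr e).uniq hz

end Pool.Agent.Helper94.AXG
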