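import Pool.Agent.Helper94.AXG.H1F

/-! # AXG-H1f: values -/

namespace Pool.Agent.Helper94.AXG

open MvPolynomial Filter Topology

/-- AXG-H1f: the value at `ψ`. Proof. Let `N` bound the degrees. Both sides are
`∑ i ∈ range (N + 1), phi A (coeff i) * ψ ^ i` (`Polynomial.eval_map`, `Polynomial.eval₂_eq_sum_range'`),
eventually; `Rp_sum`, `Rp.mul`, `Rp_phi`, `Rp.pow`, `Rp.congr`. -/
theorem RpP.eval {r k : ℕ} (A : Matrix (Fin r) (Fin k) ℤ) {χ : Polynomial (MvPolynomial (Fin r) KK)}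
    {Y : ℕ → Polynomial (MvPolynomial (Fin r) ℂ)} (h : RpP χ Y) {ψ : MvPolynomial (Fin k) KK}
    {Ψ : ℕ → MvPolynomial (Fin k) ℂ} (hψ : Rp ψ Ψ) :
    Rp ((χ.map (phi (R := KK) A).toRingHom).eval ψ)
      (fun n => ((Y n).map (phi (R := ℂ) A).toRingHom).eval (Ψ n)) := by
  obtain ⟨N, hN⟩ := h.1
  have h1 : (χ.map (phi (R := KK) A).toRingHom).eval ψ =
      ∑ i ∈ Finset.range (max N χ.natDegree + 1), phi (R := KK) A (χ.coeff i) * ψ ^ i := by
    rw [Polynomial.eval_map, Polynomial.eval₂_eq_sum_range' _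
      (Nat.lt_succ_of_le (le_max_right N χ.natDegree)) ψ]
    rfl
  have h2 : ∀ᶠ n in (UF : Filter ℕ),
      ∑ i ∈ Finset.range (max N χ.natDegree + 1), phi (R := ℂ) A ((Y n).coeff i) * Ψ n ^ i =
        ((Y n).map (phi (R := ℂ) A).toRingHom).eval (Ψ n) := by
    filter_upwards [hN] with n hn
    rw [Polynomial.eval_map, Polynomial.eval₂_eq_sum_range' _
      (Nat.lt_succ_of_le (le_trans hn (le_max_left N χ.natDegree))) (Ψ n)]
    rfl
  rw [h1]
  exact (Rp_sum _ (fun i _ => (Rp_phi A (h.2 i)).mul (hψ.pow i))).congr h2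

/-- AXG-H1f: the value at a constant -/
theorem RpP.evalC {r : ℕ} {χ : Polynomial (MvPolynomial (Fin r) KK)}
    {Y : ℕ → Polynomial (MvPolynomial (Fin r) ℂ)} (h : RpP χ Y) (c : ℕ → ℂ) :
    Rp (χ.eval (C (gm c))) (fun n => (Y n).eval (C (c n))) := by
  obtain ⟨N, hN⟩ := h.1
  have h1 : χ.eval (C (gm c)) =
      ∑ i ∈ Finset.range (max N χ.natDegree + 1), χ.coeff i * (C (gm c)) ^ i :=
    Polynomial.eval_eq_sum_range' (Nat.lt_succ_of_le (le_max_right N χ.natDegree)) _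
  have h2 : ∀ᶠ n in (UF : Filter ℕ),
      ∑ i ∈ Finset.range (max N χ.natDegree + 1), (Y n).coeff i * (C (c n)) ^ i =
        (Y n).eval (C (c n)) := by
    filter_upwards [hN] with n hn
    exact (Polynomial.eval_eq_sum_range'
      (Nat.lt_succ_of_le (le_trans hn (le_max_left N χ.natDegree))) _).symm
  rw [h1]
  exact (Rp_sum _ (fun i _ => (h.2 i).mul ((Rp_C c).pow i))).congr h2

end Pool.Agent.Helper94.AXG
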