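import Pool.Agent.Helper94.AXG.H1E
import Pool.Agent.Helper94.AXG.H1M

/-! # AXG-H2a: the ideal of a family of finite sets -/

namespace Pool.Agent.Helper94.AXG

open MvPolynomial Filter Topology

/-- AXG-H2a: the polynomials over `KK` which vanish (at the level `n`, for almost all `n`) on `S n`.
Proof. Closed under sums and multiples: `exists_Rp`, `Rp.add`, `Rp.mul`, `Rp_zero`. -/
noncomputable def Idl {k : ℕ} (S : ℕ → Finset (Pt k)) : Ideal (MvPolynomial (Fin k) KK) where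
  carrier := {f | ∃ F, Rp f F ∧ ∀ᶠ n in (UF : Filter ℕ), ∀ P ∈ S n, eval (xp P) (F n) = 0}
  add_mem' := by
    rintro f g ⟨F, hF, h⟩ ⟨G, hG, h'⟩
    refine ⟨_, hF.add hG, ?_⟩
    filter_upwards [h, h'] with n h1 h2 P hP
    rw [map_add, h1 P hP, h2 P hP, add_zero]
  zero_mem' := ⟨_, Rp_zero, Filter.Eventually.of_forall fun n P _ => map_zero _⟩
  smul_mem' := by
    rintro g f ⟨F, hF, h⟩
    obtain ⟨G, hG⟩ := exists_Rp g
    refine ⟨_, hG.mul hF, ?_⟩
    filter_upwards [h] with n h1 P hP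
    rw [map_mul, h1 P hP, mul_zero]

/-- AXG-H2a: membership can be tested with any representative (`Rp.eq`) -/
theorem mem_Idl {k : ℕ} {S : ℕ → Finset (Pt k)} {f : MvPolynomial (Fin k) KK}
    {F : ℕ → MvPolynomial (Fin k) ℂ} (hF : Rp f F) :
    f ∈ Idl S ↔ ∀ᶠ n in (UF : Filter ℕ), ∀ P ∈ S n, eval (xp P) (F n) = 0 := by
  constructor
  · rintro ⟨G, hG, h⟩
    filter_upwards [h, hF.eq hG] with n h1 h2 P hP
    rw [h2]; exact h1 P hP
  · intro h
    exact ⟨F, hF, h⟩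

/-- AXG-H2a -/
theorem Idl_anti {k : ℕ} {S T : ℕ → Finset (Pt k)} (h : ∀ᶠ n in (UF : Filter ℕ), T n ⊆ S n) :
    Idl S ≤ Idl T := by
  rintro f ⟨F, hF, h'⟩
  refine ⟨F, hF, ?_⟩
  filter_upwards [h, h'] with n h1 h2 P hP
  exact h2 P (h1 hP)

end Pool.Agent.Helper94.AXG
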