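import Pool.Agent.Helper94.AXG.H2

/-! # AXG-H2d: a maximal ideal -/

namespace Pool.Agent.Helper94.AXG

open MvPolynomial Filter Topology

/-- AXG-H2d: a large subfamily with maximal ideal. Proof. `MvPolynomial (Fin k) KK` is noetherian
(`set_has_maximal_iff_noetherian` or `WellFoundedGT`), take `T` with `Idl T` maximal in the set of all `Idl T'`, `T'` large, `T' n ⊆ S n`
for all `n`. For large `T' ≤ T`: `Idl T ≤ Idl T'` (`Idl_anti`), so they are equal. -/
theorem exists_max {k : ℕ} (Q : ℕ → ℕ) (S : ℕ → Finset (Pt k)) (hS : Large Q S) :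
    ∃ T : ℕ → Finset (Pt k), (∀ n, T n ⊆ S n) ∧ Large Q T ∧
      ∀ T' : ℕ → Finset (Pt k), (∀ n, T' n ⊆ T n) → Large Q T' → Idl T' = Idl T := by
  have hN : IsNoetherian (MvPolynomial (Fin k) KK) (MvPolynomial (Fin k) KK) :=
    inferInstanceAs (IsNoetherianRing (MvPolynomial (Fin k) KK))
  obtain ⟨I, ⟨T, hT, hL, rfl⟩, hmax⟩ := (set_has_maximal_iff_noetherian.mpr hN)
    {I : Submodule (MvPolynomial (Fin k) KK) (MvPolynomial (Fin k) KK) |
      ∃ T : ℕ → Finset (Pt k), (∀ n, T n ⊆ S n) ∧ Large Q T ∧ Idl T = I}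
    ⟨Idl S, S, fun _ => Finset.Subset.refl _, hS, rfl⟩
  refine ⟨T, hT, hL, fun T' hT' hL' => ?_⟩
  have hle : Idl T ≤ Idl T' := Idl_anti (Filter.Eventually.of_forall hT')
  by_contra hne
  exact hmax (Idl T') ⟨T', fun n => (hT' n).trans (hT n), hL', rfl⟩
    (lt_of_le_of_ne hle (fun h => hne h.symm))

end Pool.Agent.Helper94.AXG
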