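import Pool.Agent.Helper94.AXG.HB

/-! # AXG-H4c: shears -/

namespace Pool.Agent.Helper94.AXG

open MvPolynomial Filter Topology

/-- AXG-H4c -/
theorem Em_mul {k : ℕ} (s : Fin k) (c : Fin k → ℤ) : Em s c * Em s (fun i => - c i) = 1 := by
  ext i j
  rw [Matrix.mul_apply, Matrix.one_apply]
  have h : ∀ l, Em s c i l * Em s (fun i => - c i) l j =
      (if i = l then Em s (fun i => - c i) l j else 0) +
      (if l = s then (if i < s then c i * Em s (fun i => - c i) s j else 0) else 0) := by
    intro l
    by_cases h1 : l = s
    · subst h1
      by_cases h2 : i < l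
      · simp only [Em, h2, true_and, if_true, add_mul, ite_mul, one_mul, zero_mul]
      · simp only [Em, h2, false_and, if_false, if_true, add_zero, ite_mul, one_mul, zero_mul]
    · simp only [Em, h1, and_false, if_false, add_zero, ite_mul, one_mul, zero_mul]
  rw [Finset.sum_congr rfl fun l _ => h l, Finset.sum_add_distrib, Finset.sum_ite_eq,
    Finset.sum_ite_eq', if_pos (Finset.mem_univ _), if_pos (Finset.mem_univ _)]
  simp only [Em, lt_irrefl, false_and, if_false, add_zero]
  by_cases h2 : i < s
  · by_cases h3 : j = s
    · subst h3
      simp only [h2, and_self, if_true, mul_one]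
      ring
    · rw [if_neg (show ¬ (i < s ∧ j = s) from fun h => h3 h.2), if_pos h2,
        if_neg (show ¬ s = j from fun h => h3 h.symm), mul_zero, add_zero, add_zero]
  · rw [if_neg (show ¬ (i < s ∧ j = s) from fun h => h2 h.1), if_neg h2, add_zero, add_zero]

/-- AXG-H4c: the substitution -/
theorem phi_Em_X {k : ℕ} {R : Type} [CommRing R] (s : Fin k) (c : Fin k → ℤ) (i : Fin k) :
    phi (R := R) (Em s c) (X i) = if i < s then X i + C ((c i : ℤ) : R) * X s else X i := by
  unfold phi
  rw [aeval_X]
  have h : ∀ l : Fin k, (C ((Em s c i l : ℤ) : R) * X l : MvPolynomial (Fin k) R) =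
      (if i = l then X l else 0) + (if l = s then (if i < s then C ((c i : ℤ) : R) * X s else 0)
        else 0) := by
    intro l
    by_cases h1 : l = s
    · subst h1
      by_cases h2 : i < l
      · simp only [Em, h2, true_and, if_true, if_neg h2.ne, zero_add]
      · by_cases h3 : i = l
        · subst h3
          simp only [Em, lt_irrefl, false_and, if_false, if_true, add_zero, Int.cast_one, C_1,
            one_mul]
        · simp only [Em, h2, false_and, if_false, if_true, add_zero, if_neg h3, Int.cast_zero,
            C_0, zero_mul]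
    · by_cases h3 : i = l
      · simp only [Em, h1, and_false, if_false, add_zero, if_pos h3, Int.cast_one, C_1, one_mul]
      · simp only [Em, h1, and_false, if_false, add_zero, if_neg h3, Int.cast_zero, C_0, zero_mul]
  rw [Finset.sum_congr rfl fun l _ => h l, Finset.sum_add_distrib, Finset.sum_ite_eq,
    Finset.sum_ite_eq', if_pos (Finset.mem_univ _), if_pos (Finset.mem_univ _)]
  split_ifs
  · rfl
  · rw [add_zero]

end Pool.Agent.Helper94.AXG
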