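import Pool.Agent.Helper94.AXG.H4B

/-! # AXG-H4d: the leading coefficient after a shear -/

namespace Pool.Agent.Helper94.AXG

open MvPolynomial Filter Topology

/-- the specialisation of all variables except `z_s` at zero -/
private noncomputable def rhoH {k : ℕ} (R : Type) [CommRing R] (s : Fin k) :
    MvPolynomial (Fin k) R →ₐ[R] Polynomial R :=
  aeval (fun i => if i = s then Polynomial.X else 0)

private theorem rhoH_X {k : ℕ} {R : Type} [CommRing R] (s i : Fin k) :
    rhoH R s (X i) = if i = s then Polynomial.X else 0 := by
  unfold rhoH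
  rw [aeval_X]

private theorem coeff_rhoH {k : ℕ} {R : Type} [CommRing R] (s : Fin k) (m : ℕ)
    (g : MvPolynomial (Fin k) R) :
    (rhoH R s g).coeff m = coeff (Finsupp.single s m) g := by
  classical
  induction g using MvPolynomial.induction_on' with
  | monomial ν a =>
    rw [coeff_monomial]
    unfold rhoH
    rw [aeval_monomial, Finsupp.prod_fintype _ _ (fun i => pow_zero _),
      ← Polynomial.C_eq_algebraMap, Polynomial.coeff_C_mul]
    by_cases h : ∀ i, i ≠ s → ν i = 0
    · have hν : ν = Finsupp.single s (ν s) := by
        ext i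
        by_cases hi : i = s
        · subst hi; simp
        · rw [Finsupp.single_eq_of_ne hi, h i hi]
      have hp : (∏ i : Fin k, (if i = s then (Polynomial.X : Polynomial R) else 0) ^ ν i) =
          Polynomial.X ^ ν s := by
        rw [Finset.prod_eq_single s]
        · rw [if_pos rfl]
        · intro i _ hi
          rw [h i hi, pow_zero]
        · intro hs
          exact absurd (Finset.mem_univ s) hs
      rw [hp, Polynomial.coeff_X_pow]
      by_cases hm : m = ν s
      · rw [if_pos hm, if_pos (by rw [hm]; exact hν), mul_one]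
      · rw [if_neg hm, if_neg, mul_zero]
        intro hc
        apply hm
        rw [hc, Finsupp.single_eq_same]
    · push Not at h
      obtain ⟨i, hi, hi0⟩ := h
      have hp : (∏ i : Fin k, (if i = s then (Polynomial.X : Polynomial R) else 0) ^ ν i) = 0 := by
        apply Finset.prod_eq_zero (Finset.mem_univ i)
        rw [if_neg hi, zero_pow hi0]
      rw [hp, Polynomial.coeff_zero, mul_zero, if_neg]
      intro hc
      apply hi0
      rw [hc, Finsupp.single_eq_of_ne hi]
  | add p q hp hq =>
    rw [map_add, Polynomial.coeff_add, coeff_add, hp, hq]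

private theorem rhoH_phi {k : ℕ} {R : Type} [CommRing R] (s : Fin k) (c : Fin k → ℤ)
    (f : MvPolynomial (Fin k) R) :
    rhoH R s (phi (R := R) (Em s c) f) =
      aeval (fun i => Polynomial.C (wv R s c i) * (Polynomial.X : Polynomial R)) f := by
  have h : (rhoH R s).comp (phi (R := R) (Em s c)) =
      aeval (fun i => Polynomial.C (wv R s c i) * (Polynomial.X : Polynomial R)) := by
    apply MvPolynomial.algHom_ext
    intro i
    rw [AlgHom.comp_apply, phi_Em_X, aeval_X]
    unfold wv
    by_cases hi : i < s
    · rw [if_pos hi, if_pos hi, map_add, map_mul, rhoH_X, rhoH_X, if_neg hi.ne, if_pos rfl, zero_add,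
        ← MvPolynomial.algebraMap_eq, AlgHom.commutes, Polynomial.C_eq_algebraMap]
    · rw [if_neg hi, if_neg hi, rhoH_X]
      by_cases hs : i = s
      · rw [if_pos hs, if_pos hs, map_one, one_mul]
      · rw [if_neg hs, if_neg hs, map_zero, zero_mul]
  rw [← h, AlgHom.comp_apply]

private theorem coeff_lineH {k : ℕ} {R : Type} [CommRing R] (w : Fin k → R) (m : ℕ)
    (f : MvPolynomial (Fin k) R) :
    (aeval (fun i => Polynomial.C (w i) * (Polynomial.X : Polynomial R)) f).coeff m =
      eval w (homogeneousComponent m f) := by
  classical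
  induction f using MvPolynomial.induction_on' with
  | monomial ν a =>
    rw [homogeneousComponent_of_mem (isHomogeneous_monomial a rfl), aeval_monomial,
      ← Polynomial.C_eq_algebraMap, Polynomial.coeff_C_mul]
    have hp : (ν.prod fun i e => (Polynomial.C (w i) * (Polynomial.X : Polynomial R)) ^ e) =
        Polynomial.C (ν.prod fun i e => w i ^ e) * Polynomial.X ^ ν.degree := by
      rw [Finsupp.prod_fintype _ _ (fun i => pow_zero _), Finsupp.prod_fintype _ _ (fun i => pow_zero _),
        map_prod, Finsupp.degree_eq_sum, ← Finset.prod_pow_eq_pow_sum, ← Finset.prod_mul_distrib]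
      refine Finset.prod_congr rfl fun i _ => ?_
      rw [mul_pow, map_pow]
    rw [hp, Polynomial.coeff_C_mul, Polynomial.coeff_X_pow]
    by_cases hm : m = ν.degree
    · rw [if_pos hm, if_pos hm, mul_one, eval_monomial]
    · rw [if_neg hm, if_neg hm, mul_zero, mul_zero, map_zero]
  | add p q hp hq =>
    rw [map_add, Polynomial.coeff_add, map_add, map_add, hp, hq]

/-- AXG-H4d: the coefficient of `z_s^m` in `f (E z)` is the value of the leading form of degree `m` at `wv`.
Proof. By linearity for monomials `f = a z^ν`: the coefficient of `z_s^m` in `f(E z)` is found by setting all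
variables except `z_s` equal to zero, which gives `a (t w)^ν = a w^ν t^|ν|`, `t = z_s`. Formally: the homomorphism
`ρ : R[z] → R[t]`, `z_s ↦ t`, `z_i ↦ 0` (`aeval`) satisfies `(ρ f).coeff m = coeff (single s m) f`, and
`ρ (phi (Em s c) f) = aeval (fun i => Polynomial.C (wv i) * t) f`. -/
theorem coeff_lead {k : ℕ} {R : Type} [CommRing R] (s : Fin k) (c : Fin k → ℤ) (m : ℕ)
    (f : MvPolynomial (Fin k) R) :
    coeff (Finsupp.single s m) (phi (R := R) (Em s c) f) = eval (wv R s c) (homogeneousComponent m f) := by
  rw [← coeff_rhoH, rhoH_phi, coeff_lineH]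

end Pool.Agent.Helper94.AXG
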