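import Pool.Agent.Helper94.AXG.H4C
import Pool.Agent.Helper94.AXG.H4

/-! # AXG-H4e, H4f: the new equation -/

namespace Pool.Agent.Helper94.AXG

open MvPolynomial Filter Topology

private theorem h4d_mem {k : ℕ} {R : Type} [CommRing R] {j : Fin k} {f : MvPolynomial (Fin k) R} :
    Upto j f ↔ f ∈ supported R {i : Fin k | i ≤ j} := by
  classical
  rw [mem_supported]
  constructor
  · intro h i hi
    obtain ⟨d, hd, hid⟩ := mem_vars_iff_mem_support i |>.1 (Finset.mem_coe.1 hi)
    by_contra hc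
    exact (Finsupp.mem_support_iff.1 hid) (h d (mem_support_iff.1 hd) i (not_le.1 hc))
  · intro h ν hν i hi
    by_contra hc
    have h1 : i ∈ f.vars := (mem_vars_iff_mem_support i).2 ⟨ν, mem_support_iff.2 hν, Finsupp.mem_support_iff.2 hc⟩
    exact absurd (h (Finset.mem_coe.2 h1)) (not_le.2 hi)

/-- AXG-H4e: shears with `s ≤ j` preserve this property. Proof. `Upto j f` iff `f` is in the subalgebra
`Algebra.adjoin R {X i | i ≤ j}` (or `f.vars ⊆ {i | i ≤ j}`, `MvPolynomial.mem_supported`). -/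
theorem Upto.shear {k : ℕ} {R : Type} [CommRing R] {j s : Fin k} (hs : s ≤ j) (c : Fin k → ℤ)
    {f : MvPolynomial (Fin k) R} (h : Upto j f) : Upto j (phi (R := R) (Em s c) f) := by
  rw [h4d_mem] at h ⊢
  have hle : supported R {i : Fin k | i ≤ j} ≤
      (supported R {i : Fin k | i ≤ j}).comap (phi (R := R) (Em s c)) := by
    unfold supported
    refine Algebra.adjoin_le ?_
    rintro _ ⟨i, hi, rfl⟩
    show phi (R := R) (Em s c) (X i) ∈ supported R {i : Fin k | i ≤ j}
    have hX : ∀ l : Fin k, l ≤ j → (X l : MvPolynomial (Fin k) R) ∈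
        supported R {i : Fin k | i ≤ j} := fun l hl =>
      Algebra.subset_adjoin ⟨l, hl, rfl⟩
    rw [phi_Em_X]
    split_ifs
    · refine Subalgebra.add_mem _ (hX i hi) (Subalgebra.mul_mem _ ?_ (hX s hs))
      exact Subalgebra.algebraMap_mem _ _
    · exact hX i hi
  exact hle h

/-- AXG-H4f: the new equation. Proof. The coefficient: `coeff_lead`. If `coeff ν ≠ 0`, then
`ν s ≤ |ν| ≤ totalDegree ≤ m` (`deg_phi`, `le_totalDegree`), and `ν s = m` implies `|ν| = ν s`, so
`ν = single s m`. -/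
theorem lead_new {k : ℕ} {R : Type} [CommRing R] {s : Fin k} (c : Fin k → ℤ) {m : ℕ}
    {f : MvPolynomial (Fin k) R} (hf : Upto s f) (hm : f.totalDegree ≤ m)
    (h : eval (wv R s c) (homogeneousComponent m f) ≠ 0) :
    LeadAt s m (phi (R := R) (Em s c) f) := by
  refine ⟨by rw [coeff_lead]; exact h, fun ν hν => ?_⟩
  have h1 : ∑ i, ν i ≤ m := by
    have h2 := le_totalDegree (mem_support_iff.2 hν)
    rw [Finsupp.sum_fintype _ _ (fun _ => rfl)] at h2
    exact h2.trans ((deg_phi _ _).trans hm)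
  have h3 : ν s + ∑ i ∈ Finset.univ.erase s, ν i = ∑ i, ν i :=
    Finset.add_sum_erase _ _ (Finset.mem_univ s)
  refine ⟨hf.shear le_rfl c ν hν, by omega, fun h4 => ?_⟩
  have h5 : ∑ i ∈ Finset.univ.erase s, ν i = 0 := by omega
  ext i
  by_cases hi : i = s
  · subst hi
    rw [Finsupp.single_eq_same, h4]
  · rw [Finsupp.single_eq_of_ne hi]
    exact Finset.sum_eq_zero_iff.1 h5 i (Finset.mem_erase.2 ⟨hi, Finset.mem_univ i⟩)

end Pool.Agent.Helper94.AXG
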