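import Pool.Agent.Helper94.AXG.H4D

/-! # AXG-H4g: the old equations -/

namespace Pool.Agent.Helper94.AXG

open MvPolynomial Filter Topology

/-- all monomials have degree `n` in `X j` and no variable above `j` -/
private def LkEx {k : ℕ} {R : Type} [CommRing R] (j : Fin k) (n : ℕ) (g : MvPolynomial (Fin k) R) : Prop :=
  ∀ μ, coeff μ g ≠ 0 → (∀ i, j < i → μ i = 0) ∧ μ j = n

private theorem LkEx.mul {k : ℕ} {R : Type} [CommRing R] {j : Fin k} {n n' : ℕ}
    {g g' : MvPolynomial (Fin k) R} (h : LkEx j n g) (h' : LkEx j n' g') : LkEx j (n + n') (g * g') := by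
  classical
  intro μ hμ
  rw [coeff_mul] at hμ
  obtain ⟨x, hx, hne⟩ := Finset.exists_ne_zero_of_sum_ne_zero hμ
  rw [Finset.HasAntidiagonal.mem_antidiagonal] at hx
  have h1 := h x.1 (left_ne_zero_of_mul hne)
  have h2 := h' x.2 (right_ne_zero_of_mul hne)
  constructor
  · intro i hi
    rw [← hx, Finsupp.add_apply, h1.1 i hi, h2.1 i hi]
  · rw [← hx, Finsupp.add_apply, h1.2, h2.2]

private theorem LkEx.add {k : ℕ} {R : Type} [CommRing R] {j : Fin k} {n : ℕ}
    {g g' : MvPolynomial (Fin k) R} (h : LkEx j n g) (h' : LkEx j n g') : LkEx j n (g + g') := by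
  intro μ hμ
  by_cases hg : coeff μ g = 0
  · rw [coeff_add, hg, zero_add] at hμ
    exact h' μ hμ
  · exact h μ hg

private theorem LkEx.C {k : ℕ} {R : Type} [CommRing R] (j : Fin k) (a : R) :
    LkEx j 0 (MvPolynomial.C a : MvPolynomial (Fin k) R) := by
  classical
  intro μ hμ
  rw [coeff_C] at hμ
  have : (0 : Fin k →₀ ℕ) = μ := by
    by_contra hne
    exact hμ (if_neg hne)
  rw [← this]
  exact ⟨fun _ _ => rfl, rfl⟩

private theorem LkEx.pow {k : ℕ} {R : Type} [CommRing R] {j : Fin k} {n : ℕ}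
    {g : MvPolynomial (Fin k) R} (h : LkEx j n g) (e : ℕ) : LkEx j (e * n) (g ^ e) := by
  induction e with
  | zero =>
    rw [pow_zero, Nat.zero_mul, ← C_1]
    exact LkEx.C j 1
  | succ e ih =>
    rw [pow_succ, Nat.succ_mul]
    exact ih.mul h

private theorem LkEx.prod {k : ℕ} {R : Type} [CommRing R] {j : Fin k} {ι : Type} (S : Finset ι)
    (n : ι → ℕ) (g : ι → MvPolynomial (Fin k) R) (h : ∀ i ∈ S, LkEx j (n i) (g i)) :
    LkEx j (∑ i ∈ S, n i) (∏ i ∈ S, g i) := by
  classical
  induction S using Finset.induction_on with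
  | empty =>
    rw [Finset.sum_empty, Finset.prod_empty, ← C_1]
    exact LkEx.C j 1
  | insert a S ha ih =>
    rw [Finset.sum_insert ha, Finset.prod_insert ha]
    exact (h a (Finset.mem_insert_self a S)).mul
      (ih fun i hi => h i (Finset.mem_insert_of_mem hi))

private theorem LkEx.X {k : ℕ} {R : Type} [CommRing R] {j i : Fin k} (hi : i ≤ j) :
    LkEx j (if i = j then 1 else 0) (MvPolynomial.X i : MvPolynomial (Fin k) R) := by
  classical
  intro μ hμ
  rw [coeff_X] at hμ
  have h1 : Finsupp.single i 1 = μ := by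
    by_contra hne
    exact hμ (if_neg hne)
  rw [← h1]
  constructor
  · intro l hl
    exact Finsupp.single_eq_of_ne (by rintro rfl; exact absurd hl (not_lt.2 hi))
  · rw [Finsupp.single_apply]

private theorem LkEx.phiX {k : ℕ} {R : Type} [CommRing R] {j s : Fin k} (hs : s < j) (c : Fin k → ℤ)
    {i : Fin k} (hi : i ≤ j) :
    LkEx j (if i = j then 1 else 0) (phi (R := R) (Em s c) (MvPolynomial.X i)) := by
  rw [phi_Em_X]
  by_cases h : i < s
  · rw [if_pos h]
    have hij : i ≠ j := (h.trans hs).ne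
    refine (LkEx.X hi).add ?_
    rw [if_neg hij]
    have h2 := LkEx.X (R := R) hs.le
    rw [if_neg hs.ne] at h2
    have := (LkEx.C (R := R) j ((c i : ℤ) : R)).mul h2
    exact this
  · rw [if_neg h]
    exact LkEx.X hi

private theorem lk_phi_mono {k : ℕ} {R : Type} [CommRing R] (A : Matrix (Fin k) (Fin k) ℤ)
    (ν : Fin k →₀ ℕ) (a : R) :
    phi (R := R) A (monomial ν a) = MvPolynomial.C a * ∏ i, phi (R := R) A (MvPolynomial.X i) ^ ν i := by
  rw [monomial_eq, map_mul, Finsupp.prod_fintype _ _ (fun i => pow_zero _), map_prod]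
  congr 1
  · exact (phi (R := R) A).commutes a
  · refine Finset.prod_congr rfl fun i _ => ?_
    rw [map_pow]

private theorem LkEx.phiMono {k : ℕ} {R : Type} [CommRing R] {j s : Fin k} (hs : s < j)
    (c : Fin k → ℤ) {ν : Fin k →₀ ℕ} (hν : ∀ i, j < i → ν i = 0) (a : R) :
    LkEx j (ν j) (phi (R := R) (Em s c) (monomial ν a)) := by
  classical
  rw [lk_phi_mono]
  have h1 : LkEx j (∑ i, ν i * (if i = j then 1 else 0))
      (∏ i, phi (R := R) (Em s c) (MvPolynomial.X i) ^ ν i) := by
    refine LkEx.prod _ _ _ fun i _ => ?_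
    by_cases hi : i ≤ j
    · exact (LkEx.phiX hs c hi).pow (ν i)
    · rw [hν i (not_le.1 hi), pow_zero, Nat.zero_mul, ← C_1]
      exact LkEx.C j 1
  have h2 : ∑ i, ν i * (if i = j then 1 else 0) = ν j := by
    simp
  rw [h2] at h1
  have := (LkEx.C (R := R) j a).mul h1
  rwa [Nat.zero_add] at this

/-- AXG-H4g: shears with `s < j` preserve `LeadAt j m`. Proof. `f = C a * X j ^ m + f₁`, `a ≠ 0`, where all
monomials of `f₁` have `ν j < m` and `ν i = 0` for `i > j`. The set of these `f₁` (all monomials with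
`ν j < m`, i.e. `degreeOf j < m`, and `Upto j`) is preserved by the substitution (`z_j ↦ z_j`, the other variables go
to polynomials without `z_j`), and `C a * X j ^ m` is fixed. -/
theorem lead_keep {k : ℕ} {R : Type} [CommRing R] {j s : Fin k} (hs : s < j) (c : Fin k → ℤ) {m : ℕ}
    {f : MvPolynomial (Fin k) R} (hf : LeadAt j m f) : LeadAt j m (phi (R := R) (Em s c) f) := by
  classical
  have hexp : ∀ μ, coeff μ (phi (R := R) (Em s c) f) =
      ∑ ν ∈ f.support, coeff μ (phi (R := R) (Em s c) (monomial ν (coeff ν f))) := by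
    intro μ
    conv_lhs => rw [f.as_sum, map_sum, coeff_sum]
  have htop : ∀ a : R, phi (R := R) (Em s c) (monomial (Finsupp.single j m) a) =
      monomial (Finsupp.single j m) a := by
    intro a
    rw [← C_mul_X_pow_eq_monomial, map_mul, map_pow, phi_Em_X, if_neg (not_lt.2 hs.le)]
    congr 1
    exact (phi (R := R) (Em s c)).commutes a
  have hlow : ∀ ν ∈ f.support, ∀ μ,
      coeff μ (phi (R := R) (Em s c) (monomial ν (coeff ν f))) ≠ 0 →
      (∀ i, j < i → μ i = 0) ∧ μ j = ν j := by
    intro ν hν μ hμ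
    exact LkEx.phiMono hs c (hf.2 ν (mem_support_iff.1 hν)).1 _ μ hμ
  refine ⟨?_, ?_⟩
  · rw [hexp, Finset.sum_eq_single (Finsupp.single j m)]
    · rw [htop, coeff_monomial, if_pos rfl]
      exact hf.1
    · intro ν hν hne
      by_contra h
      have h1 := hlow ν hν _ h
      rw [Finsupp.single_eq_same] at h1
      exact hne ((hf.2 ν (mem_support_iff.1 hν)).2.2 h1.2.symm)
    · intro h
      exact absurd (mem_support_iff.2 hf.1) h
  · intro μ hμ
    rw [hexp] at hμ
    obtain ⟨ν, hν, hne⟩ := Finset.exists_ne_zero_of_sum_ne_zero hμ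
    have h1 := hlow ν hν μ hne
    have h2 := hf.2 ν (mem_support_iff.1 hν)
    refine ⟨h1.1, by rw [h1.2]; exact h2.2.1, fun h => ?_⟩
    have h3 := h2.2.2 (by rw [← h1.2, h])
    rw [h3, htop, coeff_monomial] at hne
    by_contra h4
    exact hne (if_neg fun h5 => h4 h5.symm)

end Pool.Agent.Helper94.AXG
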