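import Pool.Agent.Helper94.AXG.H1

/-! # AXG-H5a, b, c: limits -/

namespace Pool.Agent.Helper94.AXG

open MvPolynomial Filter Topology

/-- AXG-H5a: bounded sequences of complex numbers converge along the ultrafilter (the closed ball is
compact: `IsCompact.ultrafilter_le_nhds` for the image ultrafilter `UF.map c`) -/
theorem exists_lim {c : ℕ → ℂ} {B : ℝ} (h : ∀ᶠ n in (UF : Filter ℕ), ‖c n‖ ≤ B) :
    ∃ z : ℂ, Tendsto c (UF : Filter ℕ) (𝓝 z) := by
  have h1 : Metric.closedBall (0 : ℂ) B ∈ UF.map c := by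
    rw [Ultrafilter.mem_map]
    filter_upwards [h] with n hn
    rw [Set.mem_preimage, mem_closedBall_zero_iff]
    exact hn
  obtain ⟨z, _, hz⟩ := (isCompact_closedBall (0 : ℂ) B).ultrafilter_le_nhds' (UF.map c) h1
  exact ⟨z, hz⟩

/-- AXG-H5b: bounded sequences of polynomials converge: `Fs = ∑ ν ∈ bx k D, monomial ν (z ν)` -/
theorem exists_Cvg {k D : ℕ} {B : ℝ} {F : ℕ → MvPolynomial (Fin k) ℂ}
    (hD : ∀ᶠ n in (UF : Filter ℕ), (F n).totalDegree ≤ D)
    (hB : ∀ᶠ n in (UF : Filter ℕ), ∀ ν, ‖coeff ν (F n)‖ ≤ B) : ∃ Fs, Cvg F Fs := by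
  classical
  have h1 : ∀ ν : Fin k →₀ ℕ, ∃ z : ℂ,
      Tendsto (fun n => coeff ν (F n)) (UF : Filter ℕ) (𝓝 z) := by
    intro ν
    exact exists_lim (B := B) (hB.mono fun n hn => hn ν)
  choose z hz using h1
  refine ⟨∑ ν ∈ bx k D, monomial ν (z ν), fun μ => ?_⟩
  rw [coeff_box]
  split_ifs with hμ
  · exact hz μ
  · refine (tendsto_const_nhds).congr' ?_
    filter_upwards [hD] with n hn
    exact (coeff_out hn hμ).symm

/-- AXG-H5c: a convergent sequence of polynomials of bounded degree is bounded: finitely many exponents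
(`bx k D`), each coefficient is eventually bounded by `‖limit‖ + 1`. -/
theorem Cvg.bdd {k D : ℕ} {F : ℕ → MvPolynomial (Fin k) ℂ} {Fs : MvPolynomial (Fin k) ℂ}
    (h : Cvg F Fs) (hD : ∀ᶠ n in (UF : Filter ℕ), (F n).totalDegree ≤ D) :
    ∃ B : ℕ, ∀ᶠ n in (UF : Filter ℕ), ∀ ν, ‖coeff ν (F n)‖ ≤ B := by
  classical
  have h1 : ∀ ν ∈ bx k D, ∀ᶠ n in (UF : Filter ℕ), ‖coeff ν (F n)‖ ≤ ‖coeff ν Fs‖ + 1 := by
    intro ν _
    have h2 := (h ν).norm
    have h3 : ∀ᶠ y in 𝓝 ‖coeff ν Fs‖, y < ‖coeff ν Fs‖ + 1 := gt_mem_nhds (by linarith)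
    filter_upwards [h2.eventually h3] with n hn
    exact hn.le
  have h2 := (Filter.eventually_all_finset (bx k D)).2 h1
  set S : ℝ := ∑ ν ∈ bx k D, (‖coeff ν Fs‖ + 1) with hS
  refine ⟨⌈S⌉₊, ?_⟩
  filter_upwards [h2, hD] with n hn hd ν
  by_cases hν : ν ∈ bx k D
  · refine (hn ν hν).trans (le_trans ?_ (Nat.le_ceil S))
    exact Finset.single_le_sum (f := fun ν => ‖coeff ν Fs‖ + 1)
      (fun μ _ => add_nonneg (norm_nonneg _) zero_le_one) hν
  · rw [coeff_out hd hν, norm_zero]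
    exact Nat.cast_nonneg _

end Pool.Agent.Helper94.AXG
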