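import Pool.Agent.Helper94.AXG.H1

/-! # AXG-H5d: limits and substitutions -/

namespace Pool.Agent.Helper94.AXG

open MvPolynomial Filter Topology

private theorem H5B_coeff {r k : ℕ} (A : Matrix (Fin r) (Fin k) ℤ) (f : MvPolynomial (Fin r) ℂ)
    (S : Finset (Fin r →₀ ℕ)) (h : ∀ ν, coeff ν f ≠ 0 → ν ∈ S) (μ : Fin k →₀ ℕ) :
    coeff μ (phi (R := ℂ) A f) = ∑ ν ∈ S, coeff ν f * coeff μ (phi (R := ℂ) A (monomial ν 1)) := by
  have h1 : f = ∑ ν ∈ S, coeff ν f • monomial ν (1 : ℂ) := by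
    conv_lhs => rw [← support_sum_monomial_coeff f]
    have h2 : ∀ ν, monomial ν (coeff ν f) = coeff ν f • monomial ν (1 : ℂ) := by
      intro ν
      rw [smul_monomial, smul_eq_mul, mul_one]
    rw [Finset.sum_congr rfl (fun ν _ => h2 ν)]
    apply Finset.sum_subset
    · intro ν hν
      exact h ν (mem_support_iff.1 hν)
    · intro ν _ hν
      rw [notMem_support_iff.1 hν, zero_smul]
  have h3 : phi (R := ℂ) A f = ∑ ν ∈ S, coeff ν f • phi (R := ℂ) A (monomial ν (1 : ℂ)) := by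
    conv_lhs => rw [h1]
    rw [map_sum]
    exact Finset.sum_congr rfl fun ν _ => map_smul _ _ _
  rw [h3, coeff_sum]
  exact Finset.sum_congr rfl fun ν _ => by rw [coeff_smul, smul_eq_mul]

private theorem H5B_box {r D : ℕ} {f : MvPolynomial (Fin r) ℂ} (h : f.totalDegree ≤ D) :
    ∀ ν, coeff ν f ≠ 0 → ν ∈ bx r D := by
  intro ν hν
  rw [mem_bx]
  intro i
  have h1 : (ν.sum fun _ e => e) ≤ f.totalDegree := le_totalDegree (mem_support_iff.2 hν)
  have h2 : ν i ≤ ν.sum fun _ e => e := by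
    rw [Finsupp.sum_fintype _ _ (fun _ => rfl)]
    exact Finset.single_le_sum (f := fun i => ν i) (fun _ _ => Nat.zero_le _) (Finset.mem_univ i)
  exact (h2.trans h1).trans h

/-- AXG-H5d: substitution is continuous. Proof. Eventually `F n = ∑ ν ∈ bx r D, monomial ν (coeff ν (F n))`,
so `coeff μ (phi A (F n)) = ∑ ν ∈ bx r D, coeff ν (F n) * coeff μ (phi A (monomial ν 1))`; the same for `Fs`
(its coefficients outside of the box vanish, as limits of `0`). `tendsto_finset_sum`. -/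
theorem Cvg.phi {r k D : ℕ} (A : Matrix (Fin r) (Fin k) ℤ) {F : ℕ → MvPolynomial (Fin r) ℂ}
    {Fs : MvPolynomial (Fin r) ℂ} (h : Cvg F Fs) (hD : ∀ᶠ n in (UF : Filter ℕ), (F n).totalDegree ≤ D) :
    Cvg (fun n => phi (R := ℂ) A (F n)) (phi (R := ℂ) A Fs) := by
  have hFs : ∀ ν, coeff ν Fs ≠ 0 → ν ∈ bx r D := by
    intro ν hν
    by_contra hn
    apply hν
    have h1 : (fun n => coeff ν (F n)) =ᶠ[(UF : Filter ℕ)] fun _ => 0 := by
      filter_upwards [hD] with n hd
      by_contra h2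
      exact hn (H5B_box hd ν h2)
    exact tendsto_nhds_unique (h ν) ((tendsto_congr' h1).2 tendsto_const_nhds)
  intro μ
  rw [H5B_coeff A Fs (bx r D) hFs μ]
  have h2 : (fun n => coeff μ (AXG.phi (R := ℂ) A (F n))) =ᶠ[(UF : Filter ℕ)]
      fun n => ∑ ν ∈ bx r D, coeff ν (F n) * coeff μ (AXG.phi (R := ℂ) A (monomial ν 1)) := by
    filter_upwards [hD] with n hd
    exact H5B_coeff A (F n) (bx r D) (H5B_box hd) μ
  refine (tendsto_congr' h2).2 ?_
  exact tendsto_finsetSum _ fun ν _ => (h ν).mul_const _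

end Pool.Agent.Helper94.AXG
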