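import Pool.Agent.Helper94.AXG.H5A
import Pool.Agent.Helper94.AXG.H5B
import Pool.Agent.Helper94.AXG.H4
import Pool.Agent.Helper94.AXG.H4E

/-! # AXG-H5e: shears preserve good sequences -/

namespace Pool.Agent.Helper94.AXG

open MvPolynomial Filter Topology

/-- AXG-H5e: `Good j` is preserved by shears with `s < j` (`deg_phi`, `Cvg.phi`, `Cvg.bdd`, `lead_keep`;
the new `D` is the maximum of the old one and of the bound of `Cvg.bdd`) -/
theorem Good.shear {k : ℕ} {j s : Fin k} (hs : s < j) (c : Fin k → ℤ)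
    {F : ℕ → MvPolynomial (Fin k) ℂ} (h : Good j F) : Good j (fun n => phi (R := ℂ) (Em s c) (F n)) := by
  obtain ⟨D, m, m', Fs, hm, hF, hC, hL⟩ := h
  have hD : ∀ᶠ n in (UF : Filter ℕ), (F n).totalDegree ≤ D := hF.mono fun n h => h.1
  have hC' : Cvg F Fs := hC
  have h1 : Cvg (fun n => phi (R := ℂ) (Em s c) (F n)) (phi (R := ℂ) (Em s c) Fs) := hC'.phi _ hD
  have hD1 : ∀ᶠ n in (UF : Filter ℕ), (phi (R := ℂ) (Em s c) (F n)).totalDegree ≤ D :=
    hD.mono fun n h => (deg_phi _ _).trans h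
  obtain ⟨B, hB⟩ := h1.bdd hD1
  refine ⟨max D B, m, m', phi (R := ℂ) (Em s c) Fs, hm, ?_, h1, lead_keep hs c hL⟩
  filter_upwards [hF, hD1, hB] with n h2 h3 h4
  refine ⟨h3.trans (le_max_left _ _), fun ν => (h4 ν).trans ?_, lead_keep hs c h2.2.2⟩
  exact_mod_cast le_max_right D B

end Pool.Agent.Helper94.AXG
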