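import Pool.Agent.Helper94.AXG.H1E
import Pool.Agent.Helper94.AXG.H1M

/-! # AXG-H5f: normalisation -/

namespace Pool.Agent.Helper94.AXG

open MvPolynomial Filter Topology

/-- AXG-H5f: normalisation. Proof. Let `G` represent `f`, `D` bound the degrees. For every `n` with `G n ≠ 0`
(almost all `n`) there is `ν n ∈ bx k D` with `‖coeff ν (G n)‖` maximal; `ν n` is constant along `UF`
(finitely many values: `Ultrafilter` pigeonhole, e.g. `Ultrafilter.finite_biUnion_mem_iff` or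
`eventually_exists_mem_iff`), say `= ν`. Put `u = (gm (fun n => coeff ν (G n)))⁻¹`, `F n = C (coeff ν (G n))⁻¹ * G n`
(`Rp.mul`, `Rp_C`). -/
theorem exists_scaled {k : ℕ} {f : MvPolynomial (Fin k) KK} (hf : f ≠ 0) :
    ∃ (u : KK) (F : ℕ → MvPolynomial (Fin k) ℂ) (ν : Fin k →₀ ℕ), u ≠ 0 ∧ Rp (C u * f) F ∧
      (∀ᶠ n in (UF : Filter ℕ), ∀ μ, ‖coeff μ (F n)‖ ≤ 1) ∧
      ∀ᶠ n in (UF : Filter ℕ), coeff ν (F n) = 1 := by
  obtain ⟨G, hG⟩ := exists_Rp f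
  obtain ⟨D, hD⟩ := hG.1
  have hne : ∀ᶠ n in (UF : Filter ℕ), G n ≠ 0 := by
    have h1 := mt hG.zero_iff.mpr hf
    rwa [← Ultrafilter.eventually_not] at h1
  have hmax : ∀ᶠ n in (UF : Filter ℕ), ∃ ν ∈ (bx k D : Set (Fin k →₀ ℕ)),
      (∀ μ, ‖coeff μ (G n)‖ ≤ ‖coeff ν (G n)‖) ∧ coeff ν (G n) ≠ 0 := by
    filter_upwards [hne, hD] with n h1 h2
    have hb : (bx k D).Nonempty := ⟨0, mem_bx.mpr fun i => Nat.zero_le _⟩
    obtain ⟨ν, hν, hm⟩ := (bx k D).exists_max_image (fun ν => ‖coeff ν (G n)‖) hb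
    have hall : ∀ μ, ‖coeff μ (G n)‖ ≤ ‖coeff ν (G n)‖ := by
      intro μ
      by_cases hμ : μ ∈ bx k D
      · exact hm μ hμ
      · rw [coeff_out h2 hμ, norm_zero]
        exact norm_nonneg _
    refine ⟨ν, hν, hall, fun h0 => h1 ?_⟩
    ext μ
    have h3 := hall μ
    rw [h0, norm_zero] at h3
    rw [coeff_zero]
    exact norm_le_zero_iff.mp h3
  obtain ⟨ν, -, hν⟩ := (Ultrafilter.eventually_exists_mem_iff (bx k D).finite_toSet).mp hmax
  have hc : gm (fun n => coeff ν (G n)) ≠ 0 := gm_ne_zero.mpr (hν.mono fun n h => h.2)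
  refine ⟨gm (fun n => (coeff ν (G n))⁻¹), fun n => C (coeff ν (G n))⁻¹ * G n, ν, ?_,
    (Rp_C _).mul hG, ?_, ?_⟩
  · rw [gm_inv]
    exact inv_ne_zero hc
  · filter_upwards [hν] with n h1 μ
    rw [coeff_C_mul, norm_mul, norm_inv]
    have h2 : 0 < ‖coeff ν (G n)‖ := norm_pos_iff.mpr h1.2
    rw [inv_mul_le_iff₀ h2, mul_one]
    exact h1.1 μ
  · filter_upwards [hν] with n h1
    rw [coeff_C_mul]
    exact inv_mul_cancel₀ h1.2

end Pool.Agent.Helper94.AXG
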