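import Pool.Agent.Helper94.AXG.HB

/-! # AXG-H5g: an integral point -/

namespace Pool.Agent.Helper94.AXG

open MvPolynomial Filter Topology

/-- the constant germs -/
private noncomputable def cH : ℂ →+* KK := gmH.comp (Pi.constRingHom ℕ ℂ)

private theorem kk_int_inj : Function.Injective (fun m : ℤ => (m : KK)) := by
  intro a b h
  have h1 : cH (a : ℂ) = cH (b : ℂ) := by
    rw [map_intCast, map_intCast]
    exact h
  have h2 : (a : ℂ) = (b : ℂ) := cH.injective h1
  exact_mod_cast h2

/-- AXG-H5g: an integral point outside of two hypersurfaces, one over `KK`, one over `ℂ`. Proof. The constant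
germs give an injective ring homomorphism `ℂ → KK`; let `h₂'` be the image of `h₂`. The product `h₁ h₂'` is not
zero, so it does not vanish on `ℤ^k` (`MvPolynomial.funext_set` with the infinite set of integers
in `KK`; `KK` has characteristic zero). -/
theorem exists_int {k : ℕ} {h₁ : MvPolynomial (Fin k) KK} {h₂ : MvPolynomial (Fin k) ℂ} (e₁ : h₁ ≠ 0)
    (e₂ : h₂ ≠ 0) : ∃ c : Fin k → ℤ, eval (fun i => ((c i : ℤ) : KK)) h₁ ≠ 0 ∧
      eval (fun i => ((c i : ℤ) : ℂ)) h₂ ≠ 0 := by
  classical
  have e₃ : map cH h₂ ≠ 0 := by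
    intro h
    exact e₂ (map_injective cH cH.injective (by rw [h, map_zero]))
  have e₄ : h₁ * map cH h₂ ≠ 0 := mul_ne_zero e₁ e₃
  by_contra hc
  push Not at hc
  apply e₄
  refine funext_set (fun _ => Set.range (fun m : ℤ => (m : KK)))
    (fun _ => Set.infinite_range_of_injective kk_int_inj) ?_
  intro x hx
  have hx' : ∀ i, ∃ m : ℤ, (m : KK) = x i := fun i => hx i (Set.mem_univ i)
  choose c hcx using hx'
  have hxe : x = fun i => ((c i : ℤ) : KK) := by
    funext i
    exact (hcx i).symm
  rw [map_zero, map_mul]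
  by_cases h0 : eval x h₁ = 0
  · rw [h0, zero_mul]
  · rw [hxe] at h0
    have h1 := hc c h0
    have h2 : eval x (map cH h₂) = cH (eval (fun i => ((c i : ℤ) : ℂ)) h₂) := by
      rw [eval_map, hxe, eval₂_eq_eval_map]
      have h3 : (fun i => ((c i : ℤ) : KK)) = fun i => cH ((c i : ℤ) : ℂ) := by
        funext i
        rw [map_intCast]
      rw [h3]
      rw [← eval₂_eq_eval_map]
      exact (eval₂_comp cH (fun i => ((c i : ℤ) : ℂ)) h₂).symm
    rw [h2, h1, map_zero, mul_zero]

end Pool.Agent.Helper94.AXG
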