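import Pool.Agent.Helper94.AXG.HB

/-! # AXG-H5h: dehomogenisation -/

namespace Pool.Agent.Helper94.AXG

open MvPolynomial Filter Topology

private noncomputable def rs {k : ℕ} (s : Fin k) (μ : Fin k →₀ ℕ) : Fin k →₀ ℕ :=
  Finsupp.equivFunOnFinite.symm (fun i => if i < s then μ i else 0)

/-- the substitution -/
private noncomputable def gs {k : ℕ} (R : Type) [CommRing R] (s : Fin k) : Fin k → MvPolynomial (Fin k) R :=
  fun i => if i < s then X i else if i = s then 1 else 0

private theorem prod_gs {k : ℕ} {R : Type} [CommRing R] {s : Fin k} {μ : Fin k →₀ ℕ}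
    (h : ∀ i, s < i → μ i = 0) : ∏ i, gs R s i ^ μ i = monomial (rs s μ) (1 : R) := by
  classical
  rw [monomial_eq, C_1, one_mul, Finsupp.prod_fintype _ _ (fun i => by simp)]
  refine Finset.prod_congr rfl (fun i _ => ?_)
  have h1 : rs s μ i = if i < s then μ i else 0 := rfl
  rw [h1]
  unfold gs
  by_cases hi : i < s
  · rw [if_pos hi, if_pos hi]
  · rw [if_neg hi, if_neg hi, pow_zero]
    by_cases hi2 : i = s
    · rw [if_pos hi2, one_pow]
    · rw [if_neg hi2]
      have h3 : s < i := lt_of_le_of_ne (not_lt.mp hi) (Ne.symm hi2)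
      rw [h i h3, pow_zero]

private theorem rs_inj {k : ℕ} {s : Fin k} {μ ν : Fin k →₀ ℕ}
    (h : ∀ i, s < i → μ i = 0) (h' : ∀ i, s < i → ν i = 0)
    (hd : μ.degree = ν.degree) (hr : rs s μ = rs s ν) : μ = ν := by
  classical
  have h1 : ∀ i, i ≠ s → μ i = ν i := by
    intro i hi
    rcases lt_or_gt_of_ne hi with hl | hl
    · have h2 := DFunLike.congr_fun hr i
      have h3 : ∀ μ : Fin k →₀ ℕ, rs s μ i = μ i := by
        intro μ
        have h4 : rs s μ i = if i < s then μ i else 0 := rfl
        rw [h4, if_pos hl]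
      rwa [h3, h3] at h2
    · rw [h i hl, h' i hl]
  have h2 : μ s = ν s := by
    rw [Finsupp.degree_eq_sum, Finsupp.degree_eq_sum] at hd
    rw [← Finset.add_sum_erase _ _ (Finset.mem_univ s), ← Finset.add_sum_erase _ _ (Finset.mem_univ s)] at hd
    rw [Finset.sum_congr rfl (fun i hi => h1 i (Finset.ne_of_mem_erase hi))] at hd
    exact Nat.add_right_cancel hd
  ext i
  by_cases hi : i = s
  · rw [hi, h2]
  · exact h1 i hi

/-- AXG-H5h: dehomogenised leading forms do not vanish identically: for `f ≠ 0` with `Upto s f` there is a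
`h ≠ 0` with `eval c h = eval (wv R s c) (homogeneousComponent (totalDegree f) f)`. Proof.
`h = aeval (fun i => if i < s then X i else if i = s then 1 else 0) (homogeneousComponent m f)`. It is not zero: the
homogeneous component has a monomial `ν` with `|ν| = m`, `ν i = 0` for `i > s`; different such `ν` give
different monomials `∏ i < s, X i ^ ν i` (as `ν s = m - ∑ i < s, ν i`), so the coefficient of the monomial of `ν` in `h` is
`coeff ν f ≠ 0`. -/
theorem exists_dehom {k : ℕ} {R : Type} [CommRing R] {s : Fin k} {f : MvPolynomial (Fin k) R}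
    (hf : f ≠ 0) (h : Upto s f) : ∃ h : MvPolynomial (Fin k) R, h ≠ 0 ∧ ∀ c : Fin k → ℤ,
      eval (fun i => ((c i : ℤ) : R)) h = eval (wv R s c) (homogeneousComponent f.totalDegree f) := by
  classical
  set P := homogeneousComponent f.totalDegree f with hP
  refine ⟨bind₁ (gs R s) P, ?_, ?_⟩
  · obtain ⟨ν, hν, hν2⟩ := Finset.exists_mem_eq_sup f.support
      (Finset.nonempty_iff_ne_empty.mpr (fun h0 => hf (support_eq_empty.mp h0)))
      (fun s : Fin k →₀ ℕ => s.sum fun _ e => e)
    have hdeg : ν.degree = f.totalDegree := by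
      unfold totalDegree
      rw [hν2]
      rfl
    have hc : ∀ μ, coeff μ P = if μ.degree = f.totalDegree then coeff μ f else 0 := by
      intro μ
      rw [hP, coeff_homogeneousComponent]
    have hPν : coeff ν P = coeff ν f := by rw [hc, if_pos hdeg]
    have hfν : coeff ν f ≠ 0 := mem_support_iff.mp hν
    have key : coeff (rs s ν) (bind₁ (gs R s) P) = coeff ν f := by
      have e1 : bind₁ (gs R s) P = ∑ μ ∈ P.support, C (coeff μ P) * ∏ i, gs R s i ^ μ i := by
        unfold bind₁
        rw [aeval_def, eval₂_eq']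
        rfl
      rw [e1, coeff_sum]
      rw [Finset.sum_eq_single ν]
      · rw [prod_gs (h ν hfν), coeff_C_mul, coeff_monomial, if_pos rfl, mul_one, hPν]
      · intro μ hμ hμν
        have hμ1 := mem_support_iff.mp hμ
        rw [hc] at hμ1
        have hμ2 : μ.degree = f.totalDegree := by
          by_contra h0
          rw [if_neg h0] at hμ1
          exact hμ1 rfl
        rw [if_pos hμ2] at hμ1
        rw [prod_gs (h μ hμ1), coeff_C_mul, coeff_monomial, if_neg, mul_zero]
        intro hr
        exact hμν (rs_inj (h μ hμ1) (h ν hfν) (hμ2.trans hdeg.symm) hr)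
      · intro h0
        exfalso
        apply h0
        rw [mem_support_iff, hPν]
        exact hfν
    intro h0
    rw [h0, coeff_zero] at key
    exact hfν key.symm
  · intro c
    rw [← coe_aeval_eq_eval, ← coe_aeval_eq_eval]
    show aeval _ (bind₁ (gs R s) P) = aeval _ P
    rw [aeval_bind₁]
    congr 2
    funext i
    unfold gs wv
    split_ifs
    · simp
    · simp
    · simp

end Pool.Agent.Helper94.AXG
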