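import Pool.Agent.Helper94.AXG.H5C
import Pool.Agent.Helper94.AXG.H5D
import Pool.Agent.Helper94.AXG.H5E
import Pool.Agent.Helper94.AXG.H5F
import Pool.Agent.Helper94.AXG.H1F

/-! # AXG-H6a: the new equation of the tower -/

namespace Pool.Agent.Helper94.AXG

open MvPolynomial Filter Topology

/-- AXG-H6a: the new equation. Proof. `exists_scaled` for `g`: `g₁ = C u * g`, `G`, `ν`; `m = totalDegree g₁`.
The sequence `G` has bounded degree and coefficients, `exists_Cvg` gives `Gs`, `coeff ν Gs = 1`, so `Gs ≠ 0`;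
`Upto s Gs` (the coefficients of `G n` outside are eventually zero), `m' = totalDegree Gs`. `exists_dehom` for
`g₁` and for `Gs`, and `exists_int`, give `c`. Eventually `(G n).totalDegree ≤ m`, `Upto s (G n)` (finitely many
exponents: `G n = ∑ ν ∈ bx ..`, and `gm_eq`), and `eval (wv ℂ s c) (homogeneousComponent m (G n)) ≠ 0`, because this sequence has
the germ `eval (wv KK s c) (homogeneousComponent m g₁) ≠ 0`; by `coeff_lead` it is easier to say this with
`coeff (single s m)` of `phi (Em s c) (G n)` and `Rp_phi`. So `lead_new` gives `LeadAt s m` for `phi (Em s c) (G n)`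
and `LeadAt s m'` for `phi (Em s c) Gs`; `Cvg.phi`, `Cvg.bdd`. `1 ≤ m` by `hc`: if `totalDegree g₁ = 0` then `g` is a
constant. -/
theorem new_good {k : ℕ} {s : Fin k} {g : MvPolynomial (Fin k) KK} (hg : g ≠ 0) (hs : Upto s g)
    (hc : ∀ c : KK, g ≠ C c) : ∃ (u : KK) (c : Fin k → ℤ) (G : ℕ → MvPolynomial (Fin k) ℂ), u ≠ 0 ∧
      Rp (phi (R := KK) (Em s c) (C u * g)) G ∧ Good s G := by
  obtain ⟨u, G, ν, hu, hRp, hbd, hν⟩ := exists_scaled hg
  obtain ⟨g₁, hg₁⟩ : ∃ g₁, g₁ = C u * g := ⟨_, rfl⟩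
  rw [← hg₁] at hRp
  have hg₁0 : g₁ ≠ 0 := by
    rw [hg₁]
    exact mul_ne_zero (by rw [Ne, MvPolynomial.C_eq_zero]; exact hu) hg
  have hs₁ : Upto s g₁ := by
    intro μ hμ
    refine hs μ (fun h0 => hμ ?_)
    rw [hg₁, coeff_C_mul, h0, mul_zero]
  obtain ⟨D₀, hD₀⟩ := hRp.1
  obtain ⟨Gs, hGs⟩ := exists_Cvg hD₀ hbd
  have hνs : coeff ν Gs = 1 := by
    refine tendsto_nhds_unique (hGs ν) ?_
    refine tendsto_const_nhds.congr' ?_
    filter_upwards [hν] with n hn
    exact hn.symm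
  have hGs0 : Gs ≠ 0 := by
    intro h0
    rw [h0, coeff_zero] at hνs
    exact zero_ne_one hνs
  have hz : ∀ μ, coeff μ g₁ = 0 → ∀ᶠ n in (UF : Filter ℕ), coeff μ (G n) = 0 := by
    intro μ hμ
    rw [hRp.2 μ] at hμ
    exact gm_eq.1 (hμ.trans gm_zero.symm)
  have hsG : ∀ᶠ n in (UF : Filter ℕ), Upto s (G n) := by
    have h1 : ∀ᶠ n in (UF : Filter ℕ), ∀ μ ∈ bx k D₀, coeff μ (G n) ≠ 0 →
        ∀ i, s < i → μ i = 0 := by
      rw [Filter.eventually_all_finset]
      intro μ _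
      by_cases hμ : coeff μ g₁ = 0
      · filter_upwards [hz μ hμ] with n hn h
        exact absurd hn h
      · exact Filter.Eventually.of_forall fun n _ => hs₁ μ hμ
    filter_upwards [h1, hD₀] with n h1 h2 μ hμ
    refine h1 μ ?_ hμ
    by_contra hb
    exact hμ (coeff_out h2 hb)
  have hsGs : Upto s Gs := by
    intro μ hμ
    by_contra hcon
    apply hμ
    have h1 : coeff μ g₁ = 0 := by
      by_contra h
      exact hcon (hs₁ μ h)
    refine tendsto_nhds_unique (hGs μ) ?_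
    refine tendsto_const_nhds.congr' ?_
    filter_upwards [hz μ h1] with n hn
    exact hn.symm
  obtain ⟨m, hm⟩ : ∃ m, m = g₁.totalDegree := ⟨_, rfl⟩
  have hdG : ∀ᶠ n in (UF : Filter ℕ), (G n).totalDegree ≤ m := by
    have h1 : ∀ᶠ n in (UF : Filter ℕ), ∀ μ ∈ bx k D₀, coeff μ (G n) ≠ 0 →
        (μ.sum fun _ e => e) ≤ m := by
      rw [Filter.eventually_all_finset]
      intro μ _
      by_cases hμ : coeff μ g₁ = 0
      · filter_upwards [hz μ hμ] with n hn h
        exact absurd hn h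
      · refine Filter.Eventually.of_forall fun n _ => ?_
        rw [hm]
        exact le_totalDegree (mem_support_iff.2 hμ)
    filter_upwards [h1, hD₀] with n h1 h2
    refine Finset.sup_le (fun μ hμ => ?_)
    have hμ' := mem_support_iff.1 hμ
    refine h1 μ ?_ hμ'
    by_contra hb
    exact hμ' (coeff_out h2 hb)
  obtain ⟨p₁, hp₁, e₁⟩ := exists_dehom hg₁0 hs₁
  obtain ⟨p₂, hp₂, e₂⟩ := exists_dehom hGs0 hsGs
  obtain ⟨c, hc₁, hc₂⟩ := exists_int hp₁ hp₂
  rw [e₁] at hc₁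
  rw [e₂] at hc₂
  rw [← hm] at hc₁
  have hRphi := Rp_phi (Em s c) hRp
  have hlead : ∀ᶠ n in (UF : Filter ℕ), LeadAt s m (phi (R := ℂ) (Em s c) (G n)) := by
    have h1 : gm (fun n => coeff (Finsupp.single s m) (phi (R := ℂ) (Em s c) (G n))) ≠ 0 := by
      have h2 := hRphi.2 (Finsupp.single s m)
      rw [coeff_lead] at h2
      rw [h2] at hc₁
      exact hc₁
    filter_upwards [gm_ne_zero.1 h1, hsG, hdG] with n h2 h3 h4
    rw [coeff_lead] at h2
    exact lead_new c h3 h4 h2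
  have hleads := lead_new c hsGs le_rfl hc₂
  have hcv := hGs.phi (Em s c) hD₀
  have hdeg : ∀ᶠ n in (UF : Filter ℕ), (phi (R := ℂ) (Em s c) (G n)).totalDegree ≤ D₀ := by
    filter_upwards [hD₀] with n hn
    exact (deg_phi _ _).trans hn
  obtain ⟨B, hB⟩ := hcv.bdd hdeg
  have hm1 : 1 ≤ m := by
    by_contra h0
    have hm0 : g₁.totalDegree = 0 := by omega
    obtain ⟨a, ha⟩ : ∃ a, g₁ = C a := ⟨_, totalDegree_eq_zero_iff_eq_C.1 hm0⟩
    apply hc (u⁻¹ * a)
    rw [C_mul, ← ha, hg₁, ← mul_assoc, ← C_mul, inv_mul_cancel₀ hu, C_1, one_mul]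
  refine ⟨u, c, fun n => phi (R := ℂ) (Em s c) (G n), hu, ?_, max D₀ B, m, Gs.totalDegree,
    phi (R := ℂ) (Em s c) Gs, hm1, ?_, hcv, hleads⟩
  · rw [← hg₁]
    exact hRphi
  · filter_upwards [hdeg, hB, hlead] with n h1 h2 h3
    refine ⟨h1.trans (le_max_left _ _), fun μ => (h2 μ).trans ?_, h3⟩
    exact_mod_cast le_max_right D₀ B

end Pool.Agent.Helper94.AXG
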