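import Pool.Agent.Helper94.AXG.H6

/-! # AXG-H6b: one step of the tower -/

namespace Pool.Agent.Helper94.AXG

open MvPolynomial Filter Topology

/-- AXG-H6b: one step. Proof. `s = ⟨r, _⟩ : Fin k`. Let `g' = rename (castLE) g` (`Upto s g'`, `g' ≠ 0`); it is not
constant: otherwise `C c ∈ I`, `c ≠ 0`. `new_good` for `g'`: `u, c, G`. New data: `A' = Em s (-c) * A`,
`B' = B * Em s c`, `f' j = phi (Em s c) (f j)` for `j > s` and `f' s = phi (Em s c) (C u * g')`, the
representatives are `phi (Em s c) (F j n)` and `G`. `phi A' (phi (Em s c) h) = phi (Em s c * A') h = phi A h` (`phi_phi`, `Em_mul`), and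
`phi A g' = phi (rows A) g ∈ I` (`phi_rename`). `Good.shear`, `Rp_phi`. (`Em_mul` with `-c` instead of `c` gives the
product in the other order.) -/
theorem Tow.step {k r : ℕ} {I : Ideal (MvPolynomial (Fin k) KK)} (hI : I ≠ ⊤)
    {A B : Matrix (Fin k) (Fin k) ℤ} {f : Fin k → MvPolynomial (Fin k) KK}
    {F : Fin k → ℕ → MvPolynomial (Fin k) ℂ} (h : Tow I (r + 1) A B f F) (hrk : r + 1 ≤ k)
    {g : MvPolynomial (Fin (r + 1)) KK} (hg : g ≠ 0) (hgI : phi (R := KK) (rows hrk A) g ∈ I) :
    ∃ A' B' f' F', Tow I r A' B' f' F' := by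
  obtain ⟨s, hs⟩ : ∃ s : Fin k, (s : ℕ) = r := ⟨⟨r, hrk⟩, rfl⟩
  have hg' : rename (Fin.castLE hrk) g ≠ 0 := by
    intro h0
    exact hg (rename_injective _ (Fin.castLE_injective hrk) (by rw [h0, map_zero]))
  have hU : Upto s (rename (Fin.castLE hrk) g) := by
    intro ν hν i hi
    obtain ⟨μ, hμ, -⟩ := coeff_rename_ne_zero _ _ _ hν
    rw [← hμ]
    refine Finsupp.mapDomain_of_notMem_range _ _ ?_
    rintro ⟨a, ha⟩
    have h1 : (a : ℕ) = (i : ℕ) := by rw [← ha]; rfl
    have h2 := a.2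
    have h3 : (s : ℕ) < (i : ℕ) := hi
    omega
  have hgA : phi (R := KK) A (rename (Fin.castLE hrk) g) ∈ I := by
    rw [phi_rename]
    exact hgI
  have hc : ∀ c : KK, rename (Fin.castLE hrk) g ≠ C c := by
    intro c h1
    have hc0 : c ≠ 0 := by
      intro h2
      rw [h2, C_0] at h1
      exact hg' h1
    rw [h1] at hgA
    have h3 : phi (R := KK) A (C c) = C c := algHom_C _ _
    rw [h3] at hgA
    exact hI (Ideal.eq_top_of_isUnit_mem _ hgA ((isUnit_iff_ne_zero.2 hc0).map C))
  obtain ⟨u, c, G, -, hG, hGs⟩ := new_good hg' hU hc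
  have hE1 : Em s c * Em s (fun i => - c i) = 1 := Em_mul s c
  have hE2 : Em s (fun i => - c i) * Em s c = 1 := by
    have h1 := Em_mul s (fun i => - c i)
    simpa only [neg_neg] using h1
  have hA : Em s c * (Em s (fun i => - c i) * A) = A := by
    rw [← Matrix.mul_assoc, hE1, Matrix.one_mul]
  classical
  refine ⟨Em s (fun i => - c i) * A, B * Em s c,
    fun j => if j = s then phi (R := KK) (Em s c) (C u * rename (Fin.castLE hrk) g)
      else phi (R := KK) (Em s c) (f j),
    fun j => if j = s then G else fun n => phi (R := ℂ) (Em s c) (F j n), ?_, ?_, ?_, ?_, ?_⟩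
  · rw [Matrix.mul_assoc, ← Matrix.mul_assoc A, h.AB, Matrix.one_mul, hE2]
  · rw [Matrix.mul_assoc, hA, h.BA]
  · intro j hj
    by_cases hjs : j = s
    · simp only [if_pos hjs]
      exact hG
    · simp only [if_neg hjs]
      refine Rp_phi _ (h.rep j ?_)
      have h1 : (j : ℕ) ≠ (s : ℕ) := fun e => hjs (Fin.ext e)
      omega
  · intro j hj
    by_cases hjs : j = s
    · simp only [if_pos hjs]
      rw [hjs]
      exact hGs
    · simp only [if_neg hjs]
      have h1 : (j : ℕ) ≠ (s : ℕ) := fun e => hjs (Fin.ext e)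
      refine Good.shear ?_ c (h.good j ?_)
      · rw [Fin.lt_def]
        omega
      · omega
  · intro j hj
    by_cases hjs : j = s
    · simp only [if_pos hjs]
      rw [phi_phi, hA, map_mul]
      exact Ideal.mul_mem_left _ _ hgA
    · simp only [if_neg hjs]
      rw [phi_phi, hA]
      refine h.mem j ?_
      have h1 : (j : ℕ) ≠ (s : ℕ) := fun e => hjs (Fin.ext e)
      omega

end Pool.Agent.Helper94.AXG
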