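import Pool.Agent.Helper94.AXG.HDefs

/-! # AXG-H7a, b: integrality modulo an ideal -/

namespace Pool.Agent.Helper94.AXG

open MvPolynomial Filter Topology

/-- AXG-H7a: integrality modulo `I` is integrality for the ring homomorphism
`MvPolynomial (Fin r) R → MvPolynomial (Fin k) R ⧸ I` (`Ideal.Quotient.eq_zero_iff_mem`, `Polynomial.eval₂`, `Polynomial.hom_eval₂`) -/
theorem intg_iff {r k : ℕ} {R : Type} [CommRing R] (A : Matrix (Fin r) (Fin k) ℤ)
    (I : Ideal (MvPolynomial (Fin k) R)) (ψ : MvPolynomial (Fin k) R) :
    Intg A I ψ ↔ ((Ideal.Quotient.mk I).comp (phi (R := R) A).toRingHom).IsIntegralElem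
      (Ideal.Quotient.mk I ψ) := by
  unfold Intg RingHom.IsIntegralElem
  refine exists_congr fun χ => and_congr_right fun _ => ?_
  rw [← Ideal.Quotient.eq_zero_iff_mem, Polynomial.eval_map, Polynomial.hom_eval₂]

/-- AXG-H7b: `RingHom.IsIntegralElem` for elements generated by finitely many integral ones: if all `X i` are
integral modulo `I`, then all `ψ` are (`MvPolynomial.induction_on`, `RingHom.IsIntegralElem.add`, `.mul`; constants
are in the image) -/
theorem intg_all {r k : ℕ} {R : Type} [CommRing R] (A : Matrix (Fin r) (Fin k) ℤ)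
    (I : Ideal (MvPolynomial (Fin k) R)) (h : ∀ i, Intg A I (X i)) (ψ : MvPolynomial (Fin k) R) :
    Intg A I ψ := by
  rw [intg_iff]
  induction ψ using MvPolynomial.induction_on with
  | C a =>
    have h1 : Ideal.Quotient.mk I (C a) =
        ((Ideal.Quotient.mk I).comp (phi (R := R) A).toRingHom) (C a) := by
      have h2 : (phi (R := R) A).toRingHom (C a) = C a := by
        show phi (R := R) A (C a) = C a
        unfold phi
        rw [aeval_C]
        rfl
      rw [RingHom.comp_apply, h2]
    rw [h1]
    exact RingHom.isIntegralElem_map _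
  | add p q hp hq =>
    rw [map_add]
    exact RingHom.IsIntegralElem.add _ hp hq
  | mul_X p i hp =>
    rw [map_mul]
    exact RingHom.IsIntegralElem.mul _ hp ((intg_iff A I (X i)).1 (h i))

end Pool.Agent.Helper94.AXG
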