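import Pool.Agent.Helper94.AXG.HDefs
import Pool.Agent.Helper94.AXG.H7C

/-! # AXG-H8a: roots of polynomials with leading powers -/

namespace Pool.Agent.Helper94.AXG

open MvPolynomial Filter Topology

/-- AXG-H8a: for given values of the other variables a polynomial of the form `LeadAt j m` has at most `m` zeros. Proof. The
polynomial `p(T) = aeval (fun i => if i = j then T else C (w i)) f` in one variable has
the coefficient `coeff (single j m) f ≠ 0` at `T^m`; `eval z f = p.eval (z j)` if `z i = w i` for all `i < j`: the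
variables `> j` do not occur in `f`. `Polynomial.card_roots'`, `natDegree p ≤ m`. -/
theorem lead_roots {k : ℕ} {j : Fin k} {m : ℕ} {f : MvPolynomial (Fin k) ℂ} (hf : LeadAt j m f)
    (w : Fin k → ℂ) : ∃ R : Finset ℂ, R.card ≤ m ∧
      ∀ z : Fin k → ℂ, (∀ i, i < j → z i = w i) → eval z f = 0 → z j ∈ R := by
  classical
  obtain ⟨a, b, ha, hb, he⟩ := lead_expand hf
  let q : Polynomial ℂ := ∑ i ∈ Finset.range m, Polynomial.C (eval w (b i)) * Polynomial.X ^ i
  let p : Polynomial ℂ := Polynomial.C a * Polynomial.X ^ m - q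
  have hq : q.degree < m := by
    refine lt_of_le_of_lt (Polynomial.degree_sum_le _ _) ?_
    refine (Finset.sup_lt_iff (WithBot.bot_lt_coe m)).2 fun i hi => ?_
    refine lt_of_le_of_lt (Polynomial.degree_C_mul_X_pow_le i _) ?_
    exact WithBot.coe_lt_coe.2 (Finset.mem_range.1 hi)
  have hp1 : p.degree ≤ m := by
    refine (Polynomial.degree_sub_le _ _).trans (max_le ?_ hq.le)
    exact Polynomial.degree_C_mul_X_pow_le m _
  have hpm : p.coeff m = a := by
    have h1 : q.coeff m = 0 := Polynomial.coeff_eq_zero_of_degree_lt hq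
    simp [p, h1]
  have hp0 : p ≠ 0 := by
    intro h
    rw [h, Polynomial.coeff_zero] at hpm
    exact ha hpm.symm
  refine ⟨p.roots.toFinset, ?_, fun z hz hzf => ?_⟩
  · refine (Multiset.toFinset_card_le _).trans ((Polynomial.card_roots' p).trans ?_)
    exact Polynomial.natDegree_le_of_degree_le hp1
  · rw [Multiset.mem_toFinset, Polynomial.mem_roots hp0, Polynomial.IsRoot.def]
    have h1 : ∀ i, eval z (b i) = eval w (b i) := by
      intro i
      rw [eval_eq, eval_eq]
      refine Finset.sum_congr rfl fun d hd => ?_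
      congr 1
      refine Finset.prod_congr rfl fun l hl => ?_
      rw [hz l ?_]
      by_contra h2
      exact (Finsupp.mem_support_iff.1 hl) (hb i d (mem_support_iff.1 hd) l (not_lt.1 h2))
    have h2 := congrArg (eval z) he
    rw [map_add, hzf, zero_add, map_mul, map_pow, eval_C, eval_X, map_sum] at h2
    have h3 : Polynomial.eval (z j) p = a * z j ^ m -
        ∑ i ∈ Finset.range m, eval w (b i) * z j ^ i := by
      simp [p, q, Polynomial.eval_finsetSum]
    rw [h3, h2, sub_eq_zero]
    refine Finset.sum_congr rfl fun i _ => ?_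
    rw [map_mul, map_pow, eval_X, h1]

end Pool.Agent.Helper94.AXG
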