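import Pool.Agent.Helper94.AXG.H1G
import Pool.Agent.Helper94.AXG.H1D

/-! # AXG-H9b, c: transfer -/

namespace Pool.Agent.Helper94.AXG

open MvPolynomial Filter Topology

variable {k l : ℕ}

/-- AXG-H9b: membership is transferred: `h = ∑ i, a i * g i` (`Ideal.mem_span_range_iff_exists_fun`), representatives `Ai` of
`a i`; eventually `H n = ∑ i, Ai n * L i n` (`Rp.eq`, `Rp_sum`). -/
theorem mem_IdL {g : Fin l → MvPolynomial (Fin k) KK} {L : Fin l → ℕ → MvPolynomial (Fin k) ℂ}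
    (hg : ∀ i, Rp (g i) (L i)) {h : MvPolynomial (Fin k) KK} {H : ℕ → MvPolynomial (Fin k) ℂ}
    (hH : Rp h H) (hm : h ∈ Ideal.span (Set.range g)) :
    ∀ᶠ n in (UF : Filter ℕ), H n ∈ IdL L n := by
  obtain ⟨a, ha⟩ := (Ideal.mem_span_range_iff_exists_fun).mp hm
  choose Ai hAi using fun i => exists_Rp (a i)
  have h1 : Rp h (fun n => ∑ i, Ai i n * L i n) := by
    rw [← ha]
    exact Rp_sum Finset.univ (fun i _ => (hAi i).mul (hg i))
  filter_upwards [hH.eq h1] with n hn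
  rw [hn]
  exact Ideal.sum_mem _ fun i _ => Ideal.mul_mem_left _ _ (Ideal.subset_span ⟨i, rfl⟩)

/-- AXG-H9c: transfer of integrality (`exists_RpP`, `RpP.eval`, `mem_IdL`) -/
theorem intg_transfer {r : ℕ} (A : Matrix (Fin r) (Fin k) ℤ) {g : Fin l → MvPolynomial (Fin k) KK}
    {L : Fin l → ℕ → MvPolynomial (Fin k) ℂ} (hg : ∀ i, Rp (g i) (L i))
    {ψ : MvPolynomial (Fin k) KK} {Ψ : ℕ → MvPolynomial (Fin k) ℂ} (hψ : Rp ψ Ψ)
    (h : Intg A (Ideal.span (Set.range g)) ψ) :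
    ∀ᶠ n in (UF : Filter ℕ), Intg A (IdL L n) (Ψ n) := by
  obtain ⟨χ, hχ, hm⟩ := h
  obtain ⟨Y, hY, hYm⟩ := exists_RpP χ hχ
  filter_upwards [mem_IdL hg (RpP.eval A hY hψ) hm] with n hn
  exact ⟨Y n, hYm n, hn⟩

end Pool.Agent.Helper94.AXG
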