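import Pool.Agent.Helper94.AXG.H9

/-! # AXG-H9d: transfer of the dichotomy -/

namespace Pool.Agent.Helper94.AXG

open MvPolynomial Filter Topology

variable {k l : ℕ}

/-- AXG-H9d: transfer of the dichotomy for one element. Proof. First case: `ψ - C c ∈ I`, `c = gm c'`
(`exists_gm`), `Rp.sub`, `Rp_C`, `mem_IdL`. Second case: `exists_RpP`, `RpP.eval`, `mem_IdL`; and eventually
`(Y n).eval (C c) ≠ 0` for all `c : ℂ`: otherwise (ultrafilter) eventually there is `c n` with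
`(Y n).eval (C (c n)) = 0`, and `RpP.evalC`, `Rp.zero_iff` give `χ.eval (C (gm c)) = 0`. -/
theorem dich_transfer {r : ℕ} (A : Matrix (Fin r) (Fin k) ℤ) {g : Fin l → MvPolynomial (Fin k) KK}
    {L : Fin l → ℕ → MvPolynomial (Fin k) ℂ} (hg : ∀ i, Rp (g i) (L i))
    {ψ : MvPolynomial (Fin k) KK} {Ψ : ℕ → MvPolynomial (Fin k) ℂ} (hψ : Rp ψ Ψ)
    (h : Dich A (Ideal.span (Set.range g)) ψ) :
    ∀ᶠ n in (UF : Filter ℕ), Dich A (IdL L n) (Ψ n) := by
  rcases h with ⟨c, hc⟩ | ⟨χ, hχ, hm, hne⟩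
  · obtain ⟨c', rfl⟩ := exists_gm c
    have h1 := hψ.sub (Rp_C (k := k) c')
    filter_upwards [mem_IdL hg h1 hc] with n hn
    exact Or.inl ⟨c' n, hn⟩
  · obtain ⟨Y, hY, hYm⟩ := exists_RpP χ hχ
    have h1 := hY.eval A hψ
    have h2 : ∀ᶠ n in (UF : Filter ℕ), ∀ c : ℂ, (Y n).eval (C c) ≠ 0 := by
      classical
      by_contra h3
      have h4 : ∀ᶠ n in (UF : Filter ℕ), ¬ ∀ c : ℂ, (Y n).eval (C c) ≠ 0 :=
        Ultrafilter.eventually_not.mpr h3
      let c : ℕ → ℂ := fun n => if h : ∃ c : ℂ, (Y n).eval (C c) = 0 then h.choose else 0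
      refine hne (gm c) ((Rp.zero_iff (hY.evalC c)).mpr ?_)
      filter_upwards [h4] with n hn
      have h5 : ∃ c : ℂ, (Y n).eval (C c) = 0 := by
        by_contra h6
        exact hn fun c hc => h6 ⟨c, hc⟩
      simp only [c]
      rw [dif_pos h5]
      exact h5.choose_spec
    filter_upwards [mem_IdL hg h1 hm, h2] with n h3 h4
    exact Or.inr ⟨Y n, hYm n, h3, h4⟩

end Pool.Agent.Helper94.AXG
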