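import Pool.Agent.Helper94.AXG.HDefs

/-! # definitions of block H -/

namespace Pool.Agent.Helper94.AXG

open MvPolynomial Filter Topology

/-- the germ of a sequence -/
noncomputable abbrev gm (c : ℕ → ℂ) : KK := (c : Germ (UF : Filter ℕ) ℂ)

theorem gm_eq {c d : ℕ → ℂ} : gm c = gm d ↔ ∀ᶠ n in (UF : Filter ℕ), c n = d n := Germ.coe_eq

theorem exists_gm (x : KK) : ∃ c, gm c = x := by
  induction x using Germ.inductionOn with
  | h f => exact ⟨f, rfl⟩

theorem gm_add (c d : ℕ → ℂ) : gm (fun n => c n + d n) = gm c + gm d := rfl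
theorem gm_sub (c d : ℕ → ℂ) : gm (fun n => c n - d n) = gm c - gm d := rfl
theorem gm_neg (c : ℕ → ℂ) : gm (fun n => - c n) = - gm c := rfl
theorem gm_mul (c d : ℕ → ℂ) : gm (fun n => c n * d n) = gm c * gm d := rfl
theorem gm_inv (c : ℕ → ℂ) : gm (fun n => (c n)⁻¹) = (gm c)⁻¹ := rfl
theorem gm_zero : gm (fun _ => 0) = 0 := rfl
theorem gm_one : gm (fun _ => 1) = 1 := rfl
theorem gm_int (m : ℤ) : gm (fun _ => (m : ℂ)) = (m : KK) := rfl

/-- the ring homomorphism -/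
noncomputable def gmH : (ℕ → ℂ) →+* KK := Germ.coeRingHom (UF : Filter ℕ)

theorem gmH_apply (c : ℕ → ℂ) : gmH c = gm c := rfl

theorem gm_sum {ι : Type} (s : Finset ι) (c : ι → ℕ → ℂ) :
    gm (fun n => ∑ i ∈ s, c i n) = ∑ i ∈ s, gm (c i) := by
  have h := map_sum gmH c s
  rw [gmH_apply] at h
  rw [← Finset.sum_congr rfl (fun i _ => gmH_apply (c i)), ← h]
  congr 1
  funext n
  rw [Finset.sum_apply]

theorem gm_pow (c : ℕ → ℂ) (m : ℕ) : gm (fun n => c n ^ m) = gm c ^ m := rfl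

/-- a germ is `≠ 0` iff the sequence is eventually `≠ 0` (ultrafilter) -/
theorem gm_ne_zero {c : ℕ → ℂ} : gm c ≠ 0 ↔ ∀ᶠ n in (UF : Filter ℕ), c n ≠ 0 := by
  rw [← gm_zero, Ne, gm_eq, ← Ultrafilter.eventually_not]

/-- the box of exponents with entries `≤ D` -/
noncomputable def bx (k D : ℕ) : Finset (Fin k →₀ ℕ) :=
  Finset.Iic (Finsupp.equivFunOnFinite.symm (fun _ : Fin k => D))

theorem mem_bx {k D : ℕ} {ν : Fin k →₀ ℕ} : ν ∈ bx k D ↔ ∀ i, ν i ≤ D := by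
  unfold bx
  rw [Finset.mem_Iic, Finsupp.le_def]
  rfl

/-- `X` represents `χ`: bounded degree, and the coefficients of `X` represent those of `χ` -/
def RpP {r : ℕ} (χ : Polynomial (MvPolynomial (Fin r) KK))
    (Y : ℕ → Polynomial (MvPolynomial (Fin r) ℂ)) : Prop :=
  (∃ N : ℕ, ∀ᶠ n in (UF : Filter ℕ), (Y n).natDegree ≤ N) ∧
    ∀ i, Rp (χ.coeff i) (fun n => (Y n).coeff i)

/-- the matrix of the shear `z_i ↦ z_i + c_i z_s` (`i < s`), the other variables are fixed -/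
def Em {k : ℕ} (s : Fin k) (c : Fin k → ℤ) : Matrix (Fin k) (Fin k) ℤ :=
  fun i j => (if i = j then 1 else 0) + if i < s ∧ j = s then c i else 0

/-- the vector `(c_0, …, c_{s-1}, 1, 0, …, 0)` -/
def wv {k : ℕ} (R : Type) [CommRing R] (s : Fin k) (c : Fin k → ℤ) : Fin k → R :=
  fun i => if i < s then ((c i : ℤ) : R) else if i = s then 1 else 0

/-- only the variables with index `≤ j` occur -/
def Upto {k : ℕ} {R : Type} [CommRing R] (j : Fin k) (f : MvPolynomial (Fin k) R) : Prop :=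
  ∀ ν, coeff ν f ≠ 0 → ∀ i, j < i → ν i = 0

/-- coefficientwise convergence along `UF` -/
def Cvg {k : ℕ} (F : ℕ → MvPolynomial (Fin k) ℂ) (Fs : MvPolynomial (Fin k) ℂ) : Prop :=
  ∀ ν, Tendsto (fun n => coeff ν (F n)) (UF : Filter ℕ) (𝓝 (coeff ν Fs))

/-- equations in `z = A x` for the variables `z_j`, `j ≥ r` -/
structure Tow {k : ℕ} (I : Ideal (MvPolynomial (Fin k) KK)) (r : ℕ) (A B : Matrix (Fin k) (Fin k) ℤ)
    (f : Fin k → MvPolynomial (Fin k) KK) (F : Fin k → ℕ → MvPolynomial (Fin k) ℂ) : Prop where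
  AB : A * B = 1
  BA : B * A = 1
  rep : ∀ j : Fin k, r ≤ (j : ℕ) → Rp (f j) (F j)
  good : ∀ j : Fin k, r ≤ (j : ℕ) → Good j (F j)
  mem : ∀ j : Fin k, r ≤ (j : ℕ) → phi (R := KK) A (f j) ∈ I

end Pool.Agent.Helper94.AXG
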