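import Pool.Agent.Helper94.AXG.FDefs

/-!
# Project AXG: sequences of polynomials and the ultraproduct

`UF` is a fixed non principal ultrafilter on `ℕ`, `KK` the ultrapower of `ℂ`. A polynomial over `KK` is
represented by a sequence of complex polynomials of bounded degree (`Rp`).
-/

namespace Pool.Agent.Helper94.AXG

open MvPolynomial Filter Topology

/-- the ultrafilter -/
noncomputable abbrev UF : Ultrafilter ℕ := hyperfilter ℕ

/-- the ultrapower of `ℂ`, a field -/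
abbrev KK : Type := Germ (UF : Filter ℕ) ℂ

/-- points `(q, a)` -/
abbrev Pt (k : ℕ) : Type := ℕ × (Fin k → ℕ)

/-- the point `a / q` -/
noncomputable def xp {k : ℕ} (P : Pt k) : Fin k → ℂ := fun i => (P.2 i : ℂ) / (P.1 : ℂ)

/-- `F` represents `f`: bounded degree and all coefficients of `f` are the germs of those of `F` -/
def Rp {k : ℕ} (f : MvPolynomial (Fin k) KK) (F : ℕ → MvPolynomial (Fin k) ℂ) : Prop :=
  (∃ D : ℕ, ∀ᶠ n in (UF : Filter ℕ), (F n).totalDegree ≤ D) ∧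
    ∀ ν, coeff ν f = ((fun n => coeff ν (F n) : ℕ → ℂ) : KK)

/-- a family with at least `Q^c` elements for some `c > 0` -/
def Large {k : ℕ} (Q : ℕ → ℕ) (S : ℕ → Finset (Pt k)) : Prop :=
  ∃ c : ℝ, 0 < c ∧ ∀ᶠ n in (UF : Filter ℕ), (Q n : ℝ) ^ c ≤ (S n).card

/-- `f` is a polynomial in the variables with index `≤ j`, of degree `m` in the variable `j`, and the only
monomial of degree `m` in the variable `j` is its power -/
def LeadAt {k : ℕ} {R : Type} [CommRing R] (j : Fin k) (m : ℕ) (f : MvPolynomial (Fin k) R) : Prop :=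
  coeff (Finsupp.single j m) f ≠ 0 ∧ ∀ ν, coeff ν f ≠ 0 →
    (∀ i, j < i → ν i = 0) ∧ ν j ≤ m ∧ (ν j = m → ν = Finsupp.single j m)

/-- a sequence of polynomials of bounded degree, of the form `LeadAt` with a fixed `m ≥ 1`, with
bounded coefficients which converge to those of a polynomial which is of the form `LeadAt` too (with a
possibly smaller `m'`) -/
def Good {k : ℕ} (j : Fin k) (F : ℕ → MvPolynomial (Fin k) ℂ) : Prop :=
  ∃ (D m m' : ℕ) (Fs : MvPolynomial (Fin k) ℂ), 1 ≤ m ∧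
    (∀ᶠ n in (UF : Filter ℕ), (F n).totalDegree ≤ D ∧ (∀ ν, ‖coeff ν (F n)‖ ≤ D) ∧ LeadAt j m (F n)) ∧
    (∀ ν, Tendsto (fun n => coeff ν (F n)) (UF : Filter ℕ) (𝓝 (coeff ν Fs))) ∧ LeadAt j m' Fs

/-- the ideal at the level `n` -/
noncomputable def IdL {k l : ℕ} (L : Fin l → ℕ → MvPolynomial (Fin k) ℂ) (n : ℕ) : Ideal (MvPolynomial (Fin k) ℂ) :=
  Ideal.span (Set.range fun i => L i n)

/-- the output of the algebraic part -/
structure Alg {k : ℕ} (Q : ℕ → ℕ) (S : ℕ → Finset (Pt k)) (r : ℕ) (hrk : r ≤ k)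
    (A B : Matrix (Fin k) (Fin k) ℤ) (F : Fin k → ℕ → MvPolynomial (Fin k) ℂ) (l : ℕ)
    (L : Fin l → ℕ → MvPolynomial (Fin k) ℂ) : Prop where
  large : Large Q S
  r_pos : 1 ≤ r
  AB : A * B = 1
  BA : B * A = 1
  good : ∀ j : Fin k, r ≤ (j : ℕ) → Good j (F j)
  mem : ∀ j : Fin k, r ≤ (j : ℕ) → ∀ᶠ n in (UF : Filter ℕ), phi (R := ℂ) A (F j n) ∈ IdL L n
  Lbd : ∃ D : ℕ, ∀ᶠ n in (UF : Filter ℕ), ∀ i, (L i n).totalDegree ≤ D ∧ ∀ ν, ‖coeff ν (L i n)‖ ≤ 1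
  Lvan : ∀ᶠ n in (UF : Filter ℕ), ∀ i, ∀ P ∈ S n, eval (xp P) (L i n) = 0
  intg : ∀ᶠ n in (UF : Filter ℕ), ∀ i, Intg (rows hrk A) (IdL L n) (X i)
  dich : ∀ᶠ n in (UF : Filter ℕ), ∀ (i j : Fin k) (M M' : ℤ),
    Dich (rows hrk A) (IdL L n) (lin2 i j (M : ℂ) (M' : ℂ))
  maxi : ∀ T : ℕ → Finset (Pt k), (∀ n, T n ⊆ S n) → Large Q T →
    ∀ (D : ℕ) (G : ℕ → MvPolynomial (Fin r) ℤ),
      (∀ᶠ n in (UF : Filter ℕ), G n ≠ 0 ∧ (G n).totalDegree ≤ D) →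
      ¬ ∀ᶠ n in (UF : Filter ℕ), ∀ P ∈ T n, aeval (mv (rows hrk A) (xp P)) (G n) = 0

end Pool.Agent.Helper94.AXG
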