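import Mathlib

/-!
# Project AXG: relations between `π` and values of the Gamma function
-/

namespace Pool.Agent.Helper94.AXG

open MvPolynomial

/-- the numbers `π` (index `none`) and `Γ(a/q)`, `a ∈ J` -/
noncomputable def vals (q : ℕ) (J : Finset ℕ) : Option J → ℂ :=
  fun o => o.elim (Real.pi : ℂ) (fun a => Complex.Gamma (((a : ℕ) : ℂ) / (q : ℂ)))

/-- `π` and the `Γ(a/q)`, `a ∈ J`, satisfy a polynomial relation over `ℤ` of total degree `≤ d` and with
coefficients of absolute value `≤ H`, not all `0` -/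
def Dep (d H q : ℕ) (J : Finset ℕ) : Prop :=
  ∃ P : MvPolynomial (Option J) ℤ, P ≠ 0 ∧ P.totalDegree ≤ d ∧ (∀ ν, |coeff ν P| ≤ (H : ℤ)) ∧
    aeval (vals q J) P = 0

/-- `J` consists of integers `1 ≤ a < q` prime to `q`, no two of which (equal or not) have sum `q` -/
def Res (q : ℕ) (J : Finset ℕ) : Prop :=
  (∀ a ∈ J, 1 ≤ a ∧ a < q ∧ Nat.Coprime a q) ∧ ∀ a ∈ J, ∀ b ∈ J, a + b ≠ q

end Pool.Agent.Helper94.AXG
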