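import Pool.Agent.Helper94.AXG.ZDefs
import Pool.Agent.Helper94.AXG.YDefs

/-!
# Project AXG, block Y: definitions

Polynomials over `ℤ` in the variables `Option σ`; the variable `none` stands for `π`.
-/

namespace Pool.Agent.Helper94.AXG

open MvPolynomial

/-- the numbers `π` (index `none`) and `Γ(a_i / q)` -/
noncomputable def vl {σ : Type} (q : ℕ) (a : σ → ℕ) : Option σ → ℂ :=
  fun o => o.elim (Real.pi : ℂ) (fun i => Complex.Gamma ((a i : ℂ) / (q : ℂ)))

/-- the polynomial `P(π, X)` -/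
noncomputable def piSub {σ : Type} (P : MvPolynomial (Option σ) ℤ) : MvPolynomial σ ℂ :=
  aeval (fun o : Option σ => (o.elim (C (Real.pi : ℂ)) X : MvPolynomial σ ℂ)) P

/-- nonzero polynomials of total degree `≤ d` and height `≤ H` -/
def Sm {σ : Type} (d H : ℕ) (P : MvPolynomial σ ℤ) : Prop :=
  P ≠ 0 ∧ P.totalDegree ≤ d ∧ ∀ ν, |coeff ν P| ≤ (H : ℤ)

open Classical in
/-- the part of an exponent in the variables of `I` -/
noncomputable def inn {σ : Type} (I : Finset σ) (ν : Option σ →₀ ℕ) : Option σ →₀ ℕ :=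
  ν.filter (fun o => ∃ i ∈ I, o = some i)

open Classical in
/-- the part of an exponent in the variables outside of `I` (with `none`) -/
noncomputable def outt {σ : Type} (I : Finset σ) (ν : Option σ →₀ ℕ) : Option σ →₀ ℕ :=
  ν.filter (fun o => ¬ ∃ i ∈ I, o = some i)

open Classical in
/-- the coefficient of the monomial `μ` in the variables of `I`, a polynomial in the other variables -/
noncomputable def cpart {σ : Type} (I : Finset σ) (μ : Option σ →₀ ℕ)
    (P : MvPolynomial (Option σ) ℤ) : MvPolynomial (Option σ) ℤ :=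
  ∑ ν ∈ P.support.filter (fun ν => inn I ν = μ), monomial (outt I ν) (coeff ν P)

/-- the pairs (level, minimal dependent set of cardinality `k`) -/
def MinSet (k d H Q : ℕ) : Set (ℕ × Finset ℕ) :=
  {x : ℕ × Finset ℕ | 1 ≤ x.1 ∧ x.1 ≤ Q ∧ x.2.card = k ∧ Res x.1 x.2 ∧ Dep d H x.1 x.2 ∧
      ∀ J', J' ⊂ x.2 → ¬ Dep d H x.1 J'}

end Pool.Agent.Helper94.AXG
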