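import Mathlib

/-! # AXG-Y8B: diagonal lemma -/

namespace Pool.Agent.Helper94.AXG

open Filter Topology

/-- AXG-Y8c. Proof. Let `m Q` be the largest `m ≤ Q` with `m = 0` or `A m ≤ Q^(1/m)` (`Nat.findGreatest`). For
every fixed `m ≥ 1` the condition holds for all large `Q` (`Q^(1/m) → ∞`), so `m Q ≥ m` for all large `Q`. -/
theorem exists_diag (A : ℕ → ℝ) : ∃ m : ℕ → ℕ, Tendsto m atTop atTop ∧
    ∀ᶠ Q : ℕ in atTop, 1 ≤ m Q ∧ A (m Q) ≤ (Q : ℝ) ^ ((m Q : ℝ)⁻¹) := by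
  classical
  set P : ℕ → ℕ → Prop := fun Q m => m = 0 ∨ A m ≤ (Q : ℝ) ^ ((m : ℝ)⁻¹) with hP
  have key : ∀ M : ℕ, 1 ≤ M → ∀ᶠ Q : ℕ in atTop, M ≤ Nat.findGreatest (P Q) Q := by
    intro M hM
    have h1 : Tendsto (fun Q : ℕ => (Q : ℝ) ^ ((M : ℝ)⁻¹)) atTop atTop :=
      (tendsto_rpow_atTop (by positivity)).comp tendsto_natCast_atTop_atTop
    filter_upwards [h1.eventually_ge_atTop (A M), eventually_ge_atTop M] with Q hQ hQM
    exact Nat.le_findGreatest hQM (Or.inr hQ)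
  refine ⟨fun Q => Nat.findGreatest (P Q) Q, ?_, ?_⟩
  · rw [tendsto_atTop]
    intro M
    filter_upwards [key (M + 1) (by omega)] with Q hQ
    omega
  · filter_upwards [key 1 le_rfl] with Q hQ
    refine ⟨hQ, ?_⟩
    have h2 : P Q (Nat.findGreatest (P Q) Q) :=
      Nat.findGreatest_spec (P := P Q) (Nat.zero_le Q) (Or.inl rfl)
    rcases h2 with h2 | h2
    · omega
    · exact h2

end Pool.Agent.Helper94.AXG
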