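import Pool.Agent.Helper94.AXG.Y9A

/-! # AXG-Y9B: levels -/

namespace Pool.Agent.Helper94.AXG

open MvPolynomial Filter Topology

/-- AXG-Y9b: levels. Proof. Let `J` be dependent with `card J ≤ k`. Choose a dependent subset `J' ⊆ J` of
smallest cardinality `j ≤ k` (for instance `Nat.find`, or well-foundedness of `⊂` on finite sets);
then `(q, J')` is in the set of `count_minimal` for `j` (`Res` passes to subsets). So the set of the `q` is
contained in the union over `j ≤ k` of the images under `Prod.fst` of these finite sets, and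
`ncard ≤ ∑_{j ≤ k} C_j H^{B_j} Q^ε ≤ (∑ |C_j|) H^{∑ B_j} Q^ε`. -/
theorem count_levels (k d : ℕ) {ε : ℝ} (hε : 0 < ε) : ∃ (C : ℝ) (B : ℕ), ∀ Q H : ℕ, 1 ≤ Q → 1 ≤ H →
    ({q : ℕ | 1 ≤ q ∧ q ≤ Q ∧ ∃ J : Finset ℕ, J.card ≤ k ∧ Res q J ∧ Dep d H q J}.ncard : ℝ) ≤
      C * (H : ℝ) ^ B * (Q : ℝ) ^ ε := by
  classical
  choose C B hCB using fun j => count_minimal j d hε
  refine ⟨∑ j ∈ Finset.range (k + 1), |C j|, ∑ j ∈ Finset.range (k + 1), B j, ?_⟩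
  intro Q H hQ hH
  let S : ℕ → Finset (ℕ × Finset ℕ) := fun j => (hCB j Q H hQ hH).1.toFinset
  let T : Finset ℕ := (Finset.range (k + 1)).biUnion fun j => (S j).image Prod.fst
  have hsub : {q : ℕ | 1 ≤ q ∧ q ≤ Q ∧ ∃ J : Finset ℕ, J.card ≤ k ∧ Res q J ∧ Dep d H q J} ⊆
      (T : Set ℕ) := by
    rintro q ⟨h1, h2, J, hJk, hR, hD⟩
    have hne : (J.powerset.filter fun J' => Dep d H q J').Nonempty :=
      ⟨J, Finset.mem_filter.2 ⟨Finset.mem_powerset_self J, hD⟩⟩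
    obtain ⟨J', hJ', hmin⟩ := Finset.exists_min_image _ Finset.card hne
    rw [Finset.mem_filter, Finset.mem_powerset] at hJ'
    have hR' : Res q J' := ⟨fun a ha => hR.1 a (hJ'.1 ha),
      fun a ha b hb => hR.2 a (hJ'.1 ha) b (hJ'.1 hb)⟩
    have hcard : J'.card ≤ k := (Finset.card_le_card hJ'.1).trans hJk
    refine Finset.mem_coe.2 (Finset.mem_biUnion.2 ⟨J'.card, Finset.mem_range.2 (by omega),
      Finset.mem_image.2 ⟨(q, J'), ?_, rfl⟩⟩)
    refine (hCB J'.card Q H hQ hH).1.mem_toFinset.2 ⟨h1, h2, rfl, hR', hJ'.2, ?_⟩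
    intro J'' hss hD''
    have h3 := hmin J'' (Finset.mem_filter.2
      ⟨Finset.mem_powerset.2 (hss.1.trans hJ'.1), hD''⟩)
    exact absurd (Finset.card_lt_card hss) (not_lt.2 h3)
  have hle : {q : ℕ | 1 ≤ q ∧ q ≤ Q ∧ ∃ J : Finset ℕ, J.card ≤ k ∧ Res q J ∧
      Dep d H q J}.ncard ≤ T.card := by
    have h := Set.ncard_le_ncard hsub T.finite_toSet
    rwa [Set.ncard_coe_finset] at h
  have hT : T.card ≤ ∑ j ∈ Finset.range (k + 1), (S j).card :=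
    Finset.card_biUnion_le.trans (Finset.sum_le_sum fun j _ => Finset.card_image_le)
  have hH1 : (1 : ℝ) ≤ H := by exact_mod_cast hH
  have hQ0 : (0 : ℝ) ≤ (Q : ℝ) ^ ε := Real.rpow_nonneg (Nat.cast_nonneg Q) ε
  have hSj : ∀ j ∈ Finset.range (k + 1), ((S j).card : ℝ) ≤
      |C j| * (H : ℝ) ^ (∑ i ∈ Finset.range (k + 1), B i) * (Q : ℝ) ^ ε := by
    intro j hj
    have h1 := (hCB j Q H hQ hH).2
    rw [Set.ncard_eq_toFinset_card _ (hCB j Q H hQ hH).1] at h1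
    have h2 : B j ≤ ∑ i ∈ Finset.range (k + 1), B i :=
      Finset.single_le_sum (fun i _ => Nat.zero_le (B i)) hj
    calc ((S j).card : ℝ) ≤ C j * (H : ℝ) ^ (B j) * (Q : ℝ) ^ ε := h1
      _ ≤ |C j| * (H : ℝ) ^ (B j) * (Q : ℝ) ^ ε := by
        gcongr
        exact le_abs_self _
      _ ≤ |C j| * (H : ℝ) ^ (∑ i ∈ Finset.range (k + 1), B i) * (Q : ℝ) ^ ε := by
        gcongr
  calc ({q : ℕ | 1 ≤ q ∧ q ≤ Q ∧ ∃ J : Finset ℕ, J.card ≤ k ∧ Res q J ∧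
        Dep d H q J}.ncard : ℝ) ≤ ∑ j ∈ Finset.range (k + 1), ((S j).card : ℝ) := by
        exact_mod_cast hle.trans hT
    _ ≤ ∑ j ∈ Finset.range (k + 1),
        |C j| * (H : ℝ) ^ (∑ i ∈ Finset.range (k + 1), B i) * (Q : ℝ) ^ ε :=
        Finset.sum_le_sum hSj
    _ = (∑ j ∈ Finset.range (k + 1), |C j|) *
        (H : ℝ) ^ (∑ i ∈ Finset.range (k + 1), B i) * (Q : ℝ) ^ ε := by
        rw [Finset.sum_mul, Finset.sum_mul]

end Pool.Agent.Helper94.AXG
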