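import Pool.Agent.Helper94.AXG.Y9B
import Pool.Agent.Helper94.AXG.Y8B

/-! # AXG-Y9C: diagonal form -/

namespace Pool.Agent.Helper94.AXG

open MvPolynomial Filter Topology

/-- AXG-Y9c: diagonal form. Proof. For `n ≥ 1` let `C_n, B_n` be the constants of `count_levels n n` with
`ε = 1/n`, `A n = |C_n| n^{B_n}` (choose them with `Classical.choose`; any value for `n = 0`), and let `m` be the
function of `exists_diag A`. For all large `Q` the number is at most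
`C_m m^{B_m} Q^(1/m) ≤ A (m Q) Q^(1/m) ≤ Q^(2/m)` with `m = m Q`, and `2/(m Q) ≤ ε` for all large `Q`. So it is
`≤ Q^ε` for `Q ≥ Q₀`, and `≤ Q ≤ Q₀ ≤ Q₀ Q^ε` for `1 ≤ Q < Q₀` (the set is contained in `[1, Q]`). -/
theorem count_diag : ∃ m : ℕ → ℕ, Tendsto m atTop atTop ∧ ∀ ε : ℝ, 0 < ε → ∃ C : ℝ, ∀ Q : ℕ, 1 ≤ Q →
    ({q : ℕ | 1 ≤ q ∧ q ≤ Q ∧ ∃ J : Finset ℕ, J.card ≤ m Q ∧ Res q J ∧ Dep (m Q) (m Q) q J}.ncard : ℝ) ≤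
      C * (Q : ℝ) ^ ε := by
  have h0 : ∀ n : ℕ, ∃ (C : ℝ) (B : ℕ), 1 ≤ n → ∀ Q H : ℕ, 1 ≤ Q → 1 ≤ H →
      ({q : ℕ | 1 ≤ q ∧ q ≤ Q ∧ ∃ J : Finset ℕ, J.card ≤ n ∧ Res q J ∧ Dep n H q J}.ncard : ℝ) ≤
        C * (H : ℝ) ^ B * (Q : ℝ) ^ ((n : ℝ)⁻¹) := by
    intro n
    by_cases hn : 1 ≤ n
    · have hn' : (0 : ℝ) < (n : ℝ)⁻¹ := by
        have : (0 : ℝ) < n := by exact_mod_cast hn
        positivity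
      obtain ⟨C, B, h⟩ := count_levels n n hn'
      exact ⟨C, B, fun _ => h⟩
    · exact ⟨0, 0, fun h => absurd h hn⟩
  choose Cf Bf hf using h0
  obtain ⟨m, hm, hev⟩ := exists_diag (fun n => |Cf n| * (n : ℝ) ^ Bf n)
  refine ⟨m, hm, fun ε hε => ?_⟩
  have hev2 : ∀ᶠ Q : ℕ in atTop, ⌈2 / ε⌉₊ ≤ m Q := hm.eventually_ge_atTop _
  obtain ⟨Q₀, hQ₀⟩ := (hev.and hev2).exists_forall_of_atTop
  refine ⟨(Q₀ : ℝ) + 1, fun Q hQ => ?_⟩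
  have hQ1 : (1 : ℝ) ≤ Q := by exact_mod_cast hQ
  have hQe : (1 : ℝ) ≤ (Q : ℝ) ^ ε := Real.one_le_rpow hQ1 hε.le
  have hQ00 : (0 : ℝ) ≤ Q₀ := Nat.cast_nonneg _
  by_cases hc : Q₀ ≤ Q
  · obtain ⟨⟨h1, h2⟩, h3⟩ := hQ₀ Q hc
    have hmpos : (0 : ℝ) < (m Q : ℝ) := by exact_mod_cast h1
    have hQp : (0 : ℝ) ≤ (Q : ℝ) ^ ((m Q : ℝ)⁻¹) := Real.rpow_nonneg (by linarith) _
    have hmp : (0 : ℝ) ≤ (m Q : ℝ) ^ Bf (m Q) := by positivity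
    have hexp : (m Q : ℝ)⁻¹ + (m Q : ℝ)⁻¹ ≤ ε := by
      have h4 : 2 / ε ≤ (m Q : ℝ) := (Nat.le_ceil _).trans (by exact_mod_cast h3)
      have h5 : 2 ≤ (m Q : ℝ) * ε := by
        rw [div_le_iff₀ hε] at h4
        exact h4
      have h6 : (m Q : ℝ)⁻¹ + (m Q : ℝ)⁻¹ = 2 / (m Q : ℝ) := by ring
      rw [h6, div_le_iff₀ hmpos]
      linarith
    calc ({q : ℕ | 1 ≤ q ∧ q ≤ Q ∧ ∃ J : Finset ℕ, J.card ≤ m Q ∧ Res q J ∧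
          Dep (m Q) (m Q) q J}.ncard : ℝ)
        ≤ Cf (m Q) * (m Q : ℝ) ^ Bf (m Q) * (Q : ℝ) ^ ((m Q : ℝ)⁻¹) := hf (m Q) h1 Q (m Q) hQ h1
      _ ≤ |Cf (m Q)| * (m Q : ℝ) ^ Bf (m Q) * (Q : ℝ) ^ ((m Q : ℝ)⁻¹) :=
          mul_le_mul_of_nonneg_right (mul_le_mul_of_nonneg_right (le_abs_self _) hmp) hQp
      _ ≤ (Q : ℝ) ^ ((m Q : ℝ)⁻¹) * (Q : ℝ) ^ ((m Q : ℝ)⁻¹) :=
          mul_le_mul_of_nonneg_right h2 hQp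
      _ = (Q : ℝ) ^ ((m Q : ℝ)⁻¹ + (m Q : ℝ)⁻¹) := by
          rw [← Real.rpow_add (by linarith)]
      _ ≤ (Q : ℝ) ^ ε := Real.rpow_le_rpow_of_exponent_le hQ1 hexp
      _ ≤ ((Q₀ : ℝ) + 1) * (Q : ℝ) ^ ε := by nlinarith
  · have hsub : {q : ℕ | 1 ≤ q ∧ q ≤ Q ∧ ∃ J : Finset ℕ, J.card ≤ m Q ∧ Res q J ∧
        Dep (m Q) (m Q) q J} ⊆ ((Finset.Icc 1 Q : Finset ℕ) : Set ℕ) := by
      rintro q ⟨h1, h2, -⟩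
      simp only [Finset.coe_Icc, Set.mem_Icc]
      exact ⟨h1, h2⟩
    have hcard := Set.ncard_le_ncard hsub (Finset.finite_toSet _)
    rw [Set.ncard_coe_finset, Nat.card_Icc] at hcard
    have h2 : ({q : ℕ | 1 ≤ q ∧ q ≤ Q ∧ ∃ J : Finset ℕ, J.card ≤ m Q ∧ Res q J ∧
        Dep (m Q) (m Q) q J}.ncard : ℝ) ≤ (Q₀ : ℝ) := by
      have : {q : ℕ | 1 ≤ q ∧ q ≤ Q ∧ ∃ J : Finset ℕ, J.card ≤ m Q ∧ Res q J ∧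
        Dep (m Q) (m Q) q J}.ncard ≤ Q₀ := by omega
      exact_mod_cast this
    nlinarith

end Pool.Agent.Helper94.AXG
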