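import Pool.Agent.Helper94.AXG.Y9A
import Pool.Agent.Helper94.AXG.Y9B
import Pool.Agent.Helper94.AXG.Y9C

/-! # AXG-Y9: the counting theorems `count_minimal`, `count_levels`, `count_diag` -/
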