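import Pool.Agent.Helper94.AXG.Y8

/-! # AXG-Y9A: minimal dependent sets -/

namespace Pool.Agent.Helper94.AXG

open MvPolynomial Filter Topology

/-- AXG-Y9a: minimal dependent sets. Proof. The set is `MinSet k d H Q` (`Iff.rfl`). For `k = 0` use
`minSet_zero` (`C = 0`). For `k ≥ 1`, `count_pos`: `B = (d + 1)^(k + 1)`, `(2H + 1)^B ≤ (3H)^B = 3^B H^B`, so the
constant `3^B C` works. -/
theorem count_minimal (k d : ℕ) {ε : ℝ} (hε : 0 < ε) : ∃ (C : ℝ) (B : ℕ), ∀ Q H : ℕ, 1 ≤ Q → 1 ≤ H →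
    {x : ℕ × Finset ℕ | 1 ≤ x.1 ∧ x.1 ≤ Q ∧ x.2.card = k ∧ Res x.1 x.2 ∧ Dep d H x.1 x.2 ∧
      ∀ J', J' ⊂ x.2 → ¬ Dep d H x.1 J'}.Finite ∧
    ({x : ℕ × Finset ℕ | 1 ≤ x.1 ∧ x.1 ≤ Q ∧ x.2.card = k ∧ Res x.1 x.2 ∧ Dep d H x.1 x.2 ∧
      ∀ J', J' ⊂ x.2 → ¬ Dep d H x.1 J'}.ncard : ℝ) ≤ C * (H : ℝ) ^ B * (Q : ℝ) ^ ε := by
  rcases Nat.eq_zero_or_pos k with rfl | hk
  · refine ⟨0, 0, fun Q H _ _ => ?_⟩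
    change (MinSet 0 d H Q).Finite ∧
      ((MinSet 0 d H Q).ncard : ℝ) ≤ 0 * (H : ℝ) ^ 0 * (Q : ℝ) ^ ε
    rw [minSet_zero]
    exact ⟨Set.finite_empty, by simp⟩
  · obtain ⟨C, hC, h⟩ := count_pos hk d hε
    refine ⟨3 ^ ((d + 1) ^ (k + 1)) * C, (d + 1) ^ (k + 1), fun Q H hQ hH => ?_⟩
    obtain ⟨h1, h2⟩ := h Q H hQ
    refine ⟨h1, h2.trans ?_⟩
    have h3 : ((2 * H + 1 : ℕ) : ℝ) ≤ 3 * (H : ℝ) := by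
      have : (1 : ℝ) ≤ (H : ℝ) := by exact_mod_cast hH
      push_cast
      linarith
    have h4 : ((2 * H + 1 : ℕ) : ℝ) ^ ((d + 1) ^ (k + 1)) ≤ (3 * (H : ℝ)) ^ ((d + 1) ^ (k + 1)) :=
      pow_le_pow_left₀ (by positivity) h3 _
    have h5 : 0 ≤ C * (Q : ℝ) ^ ε := by positivity
    calc ((2 * H + 1 : ℕ) : ℝ) ^ ((d + 1) ^ (k + 1)) * (C * (Q : ℝ) ^ ε)
        ≤ (3 * (H : ℝ)) ^ ((d + 1) ^ (k + 1)) * (C * (Q : ℝ) ^ ε) :=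
          mul_le_mul_of_nonneg_right h4 h5
      _ = 3 ^ ((d + 1) ^ (k + 1)) * C * (H : ℝ) ^ ((d + 1) ^ (k + 1)) * (Q : ℝ) ^ ε := by
          rw [mul_pow]
          ring

end Pool.Agent.Helper94.AXG
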