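import Pool.Agent.Helper94.AXG.ZDefs

/-! # AXG-Z1 -/

namespace Pool.Agent.Helper94.AXG

open Filter Topology

/-- AXG-Z1a: a subfamily with a fixed proportion is large. Proof. `Q^c ≤ C card (T n)`, and
`C ≤ Q^(c/2)` for large `n` (`UF ≤ atTop`), so `Q^(c/2) ≤ card (T n)`. -/
theorem Large_of_mul {k : ℕ} {Q : ℕ → ℕ} (hQ : Tendsto Q atTop atTop) {S T : ℕ → Finset (Pt k)}
    (hS : Large Q S) (C : ℕ) (h : ∀ᶠ n in (UF : Filter ℕ), (S n).card ≤ C * (T n).card) : Large Q T := by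
  obtain ⟨c, hc, hS⟩ := hS
  have h1 : Tendsto (fun n => ((Q n : ℕ) : ℝ) ^ (c / 2)) (UF : Filter ℕ) atTop :=
    ((tendsto_rpow_atTop (half_pos hc)).comp (tendsto_natCast_atTop_atTop.comp hQ)).mono_left
      Nat.hyperfilter_le_atTop
  refine ⟨c / 2, half_pos hc, ?_⟩
  filter_upwards [hS, h, h1.eventually_ge_atTop (C : ℝ), h1.eventually_gt_atTop 0] with n h2 h3 h4 h5
  have h6 : ((Q n : ℕ) : ℝ) ^ c = ((Q n : ℕ) : ℝ) ^ (c / 2) * ((Q n : ℕ) : ℝ) ^ (c / 2) := by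
    have h7 : (0 : ℝ) < ((Q n : ℕ) : ℝ) := by
      rcases Nat.eq_zero_or_pos (Q n) with h8 | h8
      · rw [h8, Nat.cast_zero, Real.zero_rpow (half_pos hc).ne'] at h5
        exact absurd h5 (lt_irrefl _)
      · exact_mod_cast h8
    rw [← Real.rpow_add h7, add_halves]
  have h9 : ((S n).card : ℝ) ≤ C * ((T n).card : ℝ) := by exact_mod_cast h3
  have h10 : ((Q n : ℕ) : ℝ) ^ (c / 2) * ((Q n : ℕ) : ℝ) ^ (c / 2) ≤
      ((Q n : ℕ) : ℝ) ^ (c / 2) * ((T n).card : ℝ) := by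
    rw [← h6]
    exact (h2.trans h9).trans (mul_le_mul_of_nonneg_right h4 (Nat.cast_nonneg _))
  exact le_of_mul_le_mul_left h10 h5

end Pool.Agent.Helper94.AXG
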