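import Pool.Agent.Helper94.AXG.ZDefs

/-! # AXG-Z10 -/

namespace Pool.Agent.Helper94.AXG

open MvPolynomial Filter Topology

/-- the reversed polynomial -/
noncomputable def rv {k : ℕ} (d : ℕ) (P : MvPolynomial (Fin k) ℂ) : MvPolynomial (Fin k) ℂ :=
  ∑ ν : Fin k → Fin (d + 1), C (cf d P ν) * ∏ i, X i ^ (d - (ν i : ℕ))

/-- AXG-Z10a -/
theorem eval_rv {k d : ℕ} (P : MvPolynomial (Fin k) ℂ) (x : Fin k → ℂ) :
    eval (fun i => U (x i)) (rv d P) = gam (cf d P) x := by
  unfold rv gam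
  rw [map_sum]
  refine Finset.sum_congr rfl (fun ν _ => ?_)
  rw [map_mul, eval_C, map_prod]
  congr 1
  refine Finset.prod_congr rfl (fun i _ => ?_)
  rw [map_pow, eval_X]

private lemma Z10_ex_apply {k D : ℕ} (ν : Fin k → Fin (D + 1)) (i : Fin k) :
    ex ν i = (ν i : ℕ) := rfl

private lemma Z10_eval {k d : ℕ} {P : MvPolynomial (Fin k) ℂ} (hP : P.totalDegree ≤ d)
    (y : Fin k → ℂ) : eval y P = ∑ ν : Fin k → Fin (d + 1), cf d P ν * ∏ i, y i ^ (ν i : ℕ) := by
  rw [eval_eq']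
  have hle : ∀ m ∈ P.support, ∀ i, m i ≤ d := by
    intro m hm i
    refine le_trans ?_ (le_trans (le_totalDegree hm) hP)
    rw [Finsupp.sum]
    by_cases hi : i ∈ m.support
    · exact Finset.single_le_sum (f := fun j => m j) (fun _ _ => Nat.zero_le _) hi
    · rw [Finsupp.notMem_support_iff.mp hi]; exact Nat.zero_le _
  have hinj : Function.Injective (fun ν : Fin k → Fin (d + 1) => ex ν) := by
    intro ν μ h
    funext i
    apply Fin.ext
    have := DFunLike.congr_fun h i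
    simpa [Z10_ex_apply] using this
  have hsub : P.support ⊆ Finset.univ.image (fun ν : Fin k → Fin (d + 1) => ex ν) := by
    intro m hm
    rw [Finset.mem_image]
    refine ⟨fun i => ⟨m i, Nat.lt_succ_of_le (hle m hm i)⟩, Finset.mem_univ _, ?_⟩
    ext i
    rfl
  rw [Finset.sum_subset hsub, Finset.sum_image (fun a _ b _ h => hinj h)]
  · refine Finset.sum_congr rfl (fun ν _ => ?_)
    rfl
  · intro m _ hm
    rw [notMem_support_iff.mp hm, zero_mul]

/-- AXG-Z10b: `∑ u_ν ∏ U^(d-ν) = ∏ U^d ∑ u_ν ∏ Γ^ν` -/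
theorem gam_zero {k d : ℕ} {P : MvPolynomial (Fin k) ℂ} (hP : P.totalDegree ≤ d) {x : Fin k → ℂ}
    (hx : ∀ i, Complex.Gamma (x i) ≠ 0) (h : eval (fun i => Complex.Gamma (x i)) P = 0) :
    gam (cf d P) x = 0 := by
  have hU : ∀ i, U (x i) * Complex.Gamma (x i) = 1 := by
    intro i
    unfold U
    exact inv_mul_cancel₀ (hx i)
  rw [Z10_eval hP] at h
  have : gam (cf d P) x = (∏ i, U (x i) ^ d) *
      ∑ ν : Fin k → Fin (d + 1), cf d P ν * ∏ i, Complex.Gamma (x i) ^ (ν i : ℕ) := by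
    unfold gam
    rw [Finset.mul_sum]
    refine Finset.sum_congr rfl (fun ν _ => ?_)
    rw [mul_left_comm, ← Finset.prod_mul_distrib]
    congr 1
    refine Finset.prod_congr rfl (fun i _ => ?_)
    have hν : (ν i : ℕ) ≤ d := Nat.lt_succ_iff.mp (ν i).2
    have h1 : U (x i) ^ d = U (x i) ^ (d - (ν i : ℕ)) * U (x i) ^ (ν i : ℕ) := by
      rw [← pow_add, Nat.sub_add_cancel hν]
    rw [h1, mul_assoc, ← mul_pow, hU, one_pow, mul_one]
  rw [this, h, mul_zero]

end Pool.Agent.Helper94.AXG
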