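import Pool.Agent.Helper94.AXG.Z10

/-! # AXG-Z10B -/

namespace Pool.Agent.Helper94.AXG

open MvPolynomial Filter Topology

private lemma Z10B_ev {k : ℕ} (w : Fin k → ℂ) (f : Fin k → MvPolynomial (Fin k) ℂ)
    (P : MvPolynomial (Fin k) ℂ) : eval w (aeval f P) = eval (fun i => eval w (f i)) P := by
  induction P using MvPolynomial.induction_on with
  | C a => simp
  | add p q hp hq => rw [map_add, map_add, map_add, hp, hq]
  | mul_X p i hp => rw [map_mul, map_mul, map_mul, hp, aeval_X, eval_X]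

private lemma Z10B_eval {k d : ℕ} {P : MvPolynomial (Fin k) ℂ} (hP : P.totalDegree ≤ d)
    (y : Fin k → ℂ) : eval y P = ∑ ν : Fin k → Fin (d + 1), cf d P ν * ∏ i, y i ^ (ν i : ℕ) := by
  rw [eval_eq']
  have hle : ∀ m ∈ P.support, ∀ i, m i ≤ d := by
    intro m hm i
    refine le_trans ?_ (le_trans (le_totalDegree hm) hP)
    rw [Finsupp.sum]
    by_cases hi : i ∈ m.support
    · exact Finset.single_le_sum (f := fun j => m j) (fun _ _ => Nat.zero_le _) hi
    · rw [Finsupp.notMem_support_iff.mp hi]; exact Nat.zero_le _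
  have hinj : Function.Injective (fun ν : Fin k → Fin (d + 1) => ex ν) := by
    intro ν μ h
    funext i
    apply Fin.ext
    have := DFunLike.congr_fun h i
    exact this
  have hsub : P.support ⊆ Finset.univ.image (fun ν : Fin k → Fin (d + 1) => ex ν) := by
    intro m hm
    rw [Finset.mem_image]
    refine ⟨fun i => ⟨m i, Nat.lt_succ_of_le (hle m hm i)⟩, Finset.mem_univ _, ?_⟩
    ext i
    rfl
  rw [Finset.sum_subset hsub, Finset.sum_image (fun a _ b _ h => hinj h)]
  · refine Finset.sum_congr rfl (fun ν _ => ?_)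
    rfl
  · intro m _ hm
    rw [notMem_support_iff.mp hm, zero_mul]

private lemma Z10B_rv {k d : ℕ} {P : MvPolynomial (Fin k) ℂ} (hP : P.totalDegree ≤ d)
    {z : Fin k → ℂ} (hz : ∀ i, z i ≠ 0) (h : eval (fun i => (z i)⁻¹) (rv d P) = 0) :
    eval z P = 0 := by
  rw [Z10B_eval hP]
  unfold rv at h
  rw [map_sum] at h
  have h2 := congrArg (fun t => (∏ i, z i ^ d) * t) h
  simp only [mul_zero, Finset.mul_sum] at h2
  rw [← h2]
  refine Finset.sum_congr rfl (fun ν _ => ?_)
  rw [map_mul, eval_C, map_prod, mul_left_comm, ← Finset.prod_mul_distrib]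
  congr 1
  refine Finset.prod_congr rfl (fun i _ => ?_)
  rw [map_pow, eval_X]
  have hν : (ν i : ℕ) ≤ d := Nat.lt_succ_iff.mp (ν i).2
  have h1 : z i ^ d = z i ^ (ν i : ℕ) * z i ^ (d - (ν i : ℕ)) := by
    rw [← pow_add, Nat.add_sub_cancel' hν]
  rw [h1, mul_assoc, ← mul_pow, mul_inv_cancel₀ (hz i), one_pow, mul_one]

/-- AXG-Z10c. Proof. It is enough that `spec y J P` vanishes at all `w` with `w i ≠ 0` for all `i` (infinite
sets, `MvPolynomial.funext_set` or similar). Its value at `w` is `∑_ν c_ν ∏_{i ∈ J} w_i^{ν_i} ∏_{i ∉ J} y_i^{ν_i}`,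
and this is `∏_{i ∈ J} w_i^d ∏_{i ∉ J} y_i^d` times the value of the polynomial of the hypothesis at
`w⁻¹`. -/
theorem spec_rv {k d : ℕ} {P : MvPolynomial (Fin k) ℂ} (hP : P.totalDegree ≤ d) {y : Fin k → ℂ}
    (hy : ∀ i, y i ≠ 0) (J : Finset (Fin k))
    (h : aeval (fun i => if i ∈ J then (X i : MvPolynomial (Fin k) ℂ) else C (y i)⁻¹) (rv d P) = 0) :
    spec y J P = 0 := by
  unfold spec
  refine MvPolynomial.funext_set (fun _ => ({0}ᶜ : Set ℂ))
    (fun _ => (Set.finite_singleton 0).infinite_compl) ?_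
  intro w hw
  have hw0 : ∀ i, w i ≠ 0 := fun i => hw i (Set.mem_univ i)
  rw [Z10B_ev, map_zero]
  refine Z10B_rv hP ?_ ?_
  · intro i
    by_cases hi : i ∈ J
    · simpa [hi] using hw0 i
    · simpa [hi] using hy i
  · have h1 := congrArg (eval (fun i => (w i)⁻¹)) h
    rw [Z10B_ev, map_zero] at h1
    rw [← h1]
    congr 1
    congr 1
    funext i
    by_cases hi : i ∈ J
    · simp [hi]
    · simp [hi]

end Pool.Agent.Helper94.AXG
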