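import Pool.Agent.Helper94.AXG.Z10B
import Pool.Agent.Helper94.AXG.F4

/-! # AXG-Z11B -/

namespace Pool.Agent.Helper94.AXG

open MvPolynomial Filter Topology

/-- AXG-Z11c: the contradiction at one level. Proof. `level_final` with `P := rv d P` (`eval_rv`),
`q = x.1`, `a i = x.2 i`: `hcop` and `hdist` from `Adm x` (`0 < |a_i - a_j| < q`, `0 < a_i + a_j < 2 q`,
`≠ q`), `hpt` by `hpt`. It gives a nonempty `J`; `spec_rv` with `y = Gv x` (`U = Γ⁻¹`, `Γ(a/q) ≠ 0`)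
gives `spec (Gv x) J P = 0`, against `Zr P x`. -/
theorem level_contra {k r d : ℕ} (hr : 1 ≤ r) (A : Matrix (Fin r) (Fin k) ℤ)
    (I : Ideal (MvPolynomial (Fin k) ℂ)) (hint : ∀ i, Intg A I (X i))
    (hd : ∀ (i j : Fin k) (M M' : ℤ), Dich A I (lin2 i j (M : ℂ) (M' : ℂ)))
    {P : MvPolynomial (Fin k) ℂ} (hP : P.totalDegree ≤ d)
    {Δ : Set (Fin r → ℂ)} (hΔ : IsOpen Δ) (hne : Δ.Nonempty)
    (hpts : ∀ z ∈ Δ, ∃ x : Fin k → ℂ, mv A x = z ∧ (∀ f ∈ I, eval x f = 0) ∧ gam (cf d P) x = 0)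
    {x : Pt k} (hx : Adm x) (hz : Zr P x) (hpt : ∀ f ∈ I, eval (xp x) f = 0) : False := by
  classical
  obtain ⟨hq, ha, hne2, hsum⟩ := hx
  have hcop : ∀ i, IsCoprime ((x.2 i : ℕ) : ℤ) ((x.1 : ℕ) : ℤ) := fun i =>
    Nat.isCoprime_iff_coprime.2 (ha i).2.2
  have hdist : ∀ i j, i ≠ j → ¬ ((x.1 : ℕ) : ℤ) ∣ ((x.2 i : ℕ) : ℤ) - ((x.2 j : ℕ) : ℤ) ∧
      ¬ ((x.1 : ℕ) : ℤ) ∣ ((x.2 i : ℕ) : ℤ) + ((x.2 j : ℕ) : ℤ) := by
    intro i j hij
    have h1 := ha i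
    have h2 := ha j
    have h3 := hne2 i j hij
    have h4 := hsum i j
    constructor
    · intro h
      have h5 := Int.eq_zero_of_abs_lt_dvd h (by rw [abs_lt]; constructor <;> omega)
      omega
    · rintro ⟨c, hc⟩
      have hq0 : (0 : ℤ) < ((x.1 : ℕ) : ℤ) := by exact_mod_cast hq
      have h5 : 0 < c := by
        by_contra h5
        have h6 : ((x.1 : ℕ) : ℤ) * c ≤ 0 := mul_nonpos_of_nonneg_of_nonpos hq0.le (by omega)
        omega
      have h6 : c < 2 := by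
        by_contra h6
        have h7 : ((x.1 : ℕ) : ℤ) * 2 ≤ ((x.1 : ℕ) : ℤ) * c :=
          mul_le_mul_of_nonneg_left (by omega) hq0.le
        omega
      have h7 : c = 1 := by omega
      rw [h7, mul_one] at hc
      omega
  have hcast : (fun i => (((x.2 i : ℕ) : ℤ) : ℂ) / ((x.1 : ℕ) : ℂ)) = xp x := by
    funext i
    unfold xp
    rw [Int.cast_natCast]
  obtain ⟨J, hJ, hJz⟩ := level_final hr A I hint hd hΔ hne (rv d P)
    (fun z hz' => by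
      obtain ⟨y, h1, h2, h3⟩ := hpts z hz'
      exact ⟨y, h1, h2, by rw [eval_rv]; exact h3⟩)
    x.1 hq (fun i => ((x.2 i : ℕ) : ℤ)) hcop hdist
    (fun f hf => by rw [hcast]; exact hpt f hf)
  have hy : ∀ i, Gv x i ≠ 0 := by
    intro i
    unfold Gv
    refine Complex.Gamma_ne_zero_of_re_pos ?_
    have h1 : ((x.2 i : ℂ) / (x.1 : ℂ)) = (((x.2 i : ℝ) / (x.1 : ℝ) : ℝ) : ℂ) := by
      push_cast
      ring
    rw [h1, Complex.ofReal_re]
    have h2 : (0 : ℝ) < x.2 i := by exact_mod_cast (ha i).1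
    have h3 : (0 : ℝ) < x.1 := by exact_mod_cast hq
    exact div_pos h2 h3
  refine hz.2 J hJ (spec_rv hP hy J ?_)
  rw [← hJz]
  congr 2

end Pool.Agent.Helper94.AXG
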