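import Pool.Agent.Helper94.AXG.ZDefs

/-! # AXG-Z1B -/

namespace Pool.Agent.Helper94.AXG

open Filter Topology

private theorem Z1B_norm {k : ℕ} (x : Pt k) (h : ∀ i, x.2 i ≤ x.1) (i : Fin k) : ‖xp x i‖ ≤ 1 := by
  change ‖(x.2 i : ℂ) / (x.1 : ℂ)‖ ≤ 1
  rw [norm_div, Complex.norm_natCast, Complex.norm_natCast]
  exact div_le_one_of_le₀ (by exact_mod_cast h i) (Nat.cast_nonneg _)

private theorem Z1B_tendsto {Q : ℕ → ℕ} (hQ : Tendsto Q atTop atTop) {c : ℝ} (hc : 0 < c) :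
    Tendsto (fun n => (Q n : ℝ) ^ c) (UF : Filter ℕ) atTop := by
  have h1 : (UF : Filter ℕ) ≤ atTop := Nat.hyperfilter_le_atTop
  exact (tendsto_rpow_atTop hc).comp (tendsto_natCast_atTop_atTop.comp (hQ.mono_left h1))

/-- AXG-Z1b: concentration near a point, with one exponent `c`. Proof. Let `Q^c₀ ≤ card (S n)` and `c = c₀/2`.
All `xp P` are in the compact set `K = {x : ∀ i, ‖x i‖ ≤ 1}`. If the statement fails then every `x₀ ∈ K` has an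
`ε(x₀) > 0` such that for UF-many `n` at most `Q^c` points of `S n` are in the open polydisc of radius
`ε(x₀)` around `x₀` (take for `T n` the set of these points; an ultrafilter decides). Finitely many, `m`, of
these polydiscs cover `K`, so `card (S n) ≤ m Q^(c₀/2)` for UF-many `n`, a contradiction as `Q n → ∞`. -/
theorem concentration {k : ℕ} {Q : ℕ → ℕ} (hQ : Tendsto Q atTop atTop) {S : ℕ → Finset (Pt k)}
    (hS : Large Q S) (hb : ∀ n, ∀ x ∈ S n, ∀ i, x.2 i ≤ x.1) :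
    ∃ (x₀ : Fin k → ℂ) (c : ℝ), 0 < c ∧ ∀ ε : ℝ, 0 < ε → ∃ T : ℕ → Finset (Pt k), (∀ n, T n ⊆ S n) ∧
      (∀ᶠ n in (UF : Filter ℕ), (Q n : ℝ) ^ c ≤ (T n).card) ∧
      ∀ n, ∀ x ∈ T n, ∀ i, ‖xp x i - x₀ i‖ < ε := by
  classical
  obtain ⟨c₀, hc₀, hS⟩ := hS
  by_contra hcon
  push Not at hcon
  have hc : 0 < c₀ / 2 := by linarith
  -- the radii
  have h1 : ∀ x₀ : Fin k → ℂ, ∃ ε : ℝ, 0 < ε ∧ ∀ᶠ n in (UF : Filter ℕ),
      (((S n).filter fun x => ∀ i, ‖xp x i - x₀ i‖ < ε).card : ℝ) < (Q n : ℝ) ^ (c₀ / 2) := by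
    intro x₀
    obtain ⟨ε, hε, h⟩ := hcon x₀ (c₀ / 2) hc
    refine ⟨ε, hε, ?_⟩
    have h2 : ¬ ∀ᶠ n in (UF : Filter ℕ), (Q n : ℝ) ^ (c₀ / 2) ≤
        (((S n).filter fun x => ∀ i, ‖xp x i - x₀ i‖ < ε).card : ℝ) := by
      intro h3
      obtain ⟨n, x, hx, i, hi⟩ := h (fun n => (S n).filter fun x => ∀ i, ‖xp x i - x₀ i‖ < ε)
        (fun n => Finset.filter_subset _ _) h3
      exact absurd ((Finset.mem_filter.1 hx).2 i) (not_lt.2 hi)
    have h4 := Ultrafilter.eventually_not.2 h2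
    filter_upwards [h4] with n hn
    exact not_le.1 hn
  choose ε hε hlt using h1
  -- the finite cover
  have hK : IsCompact (Metric.closedBall (0 : Fin k → ℂ) 1) := isCompact_closedBall 0 1
  obtain ⟨t, -, ht⟩ := hK.elim_nhds_subcover (fun x₀ => Metric.ball x₀ (ε x₀))
    (fun x₀ _ => Metric.ball_mem_nhds x₀ (hε x₀))
  have hcard : ∀ n, (S n).card ≤
      ∑ x₀ ∈ t, ((S n).filter fun x => ∀ i, ‖xp x i - x₀ i‖ < ε x₀).card := by
    intro n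
    refine le_trans (Finset.card_le_card ?_) Finset.card_biUnion_le
    intro x hx
    have h2 : xp x ∈ Metric.closedBall (0 : Fin k → ℂ) 1 := by
      rw [mem_closedBall_zero_iff]
      exact (pi_norm_le_iff_of_nonneg zero_le_one).2 (Z1B_norm x (hb n x hx))
    obtain ⟨x₀, hx₀, h3⟩ := Set.mem_iUnion₂.1 (ht h2)
    refine Finset.mem_biUnion.2 ⟨x₀, hx₀, Finset.mem_filter.2 ⟨hx, fun i => ?_⟩⟩
    have h4 := (dist_pi_lt_iff (hε x₀)).1 (Metric.mem_ball.1 h3) i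
    rwa [dist_eq_norm] at h4
  have hall : ∀ᶠ n in (UF : Filter ℕ), ∀ x₀ ∈ t,
      (((S n).filter fun x => ∀ i, ‖xp x i - x₀ i‖ < ε x₀).card : ℝ) < (Q n : ℝ) ^ (c₀ / 2) :=
    (Filter.eventually_all_finset t).2 fun x₀ _ => hlt x₀
  have hbig : ∀ᶠ n in (UF : Filter ℕ), (t.card : ℝ) < (Q n : ℝ) ^ (c₀ / 2) :=
    (Z1B_tendsto hQ hc).eventually_gt_atTop _
  obtain ⟨n, hn1, hn2, hn3⟩ := (hS.and (hall.and hbig)).exists
  have h5 : (0 : ℝ) < (Q n : ℝ) ^ (c₀ / 2) := lt_of_le_of_lt (Nat.cast_nonneg _) hn3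
  have h6 : ((S n).card : ℝ) ≤ t.card * (Q n : ℝ) ^ (c₀ / 2) := by
    have h7 : ((S n).card : ℝ) ≤
        ∑ x₀ ∈ t, (((S n).filter fun x => ∀ i, ‖xp x i - x₀ i‖ < ε x₀).card : ℝ) := by
      exact_mod_cast hcard n
    refine h7.trans ((Finset.sum_le_sum fun x₀ hx₀ => (hn2 x₀ hx₀).le).trans ?_)
    rw [Finset.sum_const, nsmul_eq_mul]
  have h8 : (Q n : ℝ) ^ c₀ = (Q n : ℝ) ^ (c₀ / 2) * (Q n : ℝ) ^ (c₀ / 2) := by
    rcases Nat.eq_zero_or_pos (Q n) with h0 | h0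
    · rw [h0, Nat.cast_zero, Real.zero_rpow hc.ne'] at h5
      exact absurd h5 (lt_irrefl _)
    · rw [← Real.rpow_add (Nat.cast_pos.2 h0), add_halves]
  have h9 := hn1.trans h6
  rw [h8] at h9
  exact absurd (le_of_mul_le_mul_right h9 h5) (not_le.2 hn3)

end Pool.Agent.Helper94.AXG
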