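import Pool.Agent.Helper94.AXG.ZDefs

/-! # AXG-Z2: small cubes -/

namespace Pool.Agent.Helper94.AXG

open Filter Topology

private lemma Z2_real {k r : ℕ} (A : Matrix (Fin r) (Fin k) ℤ) (x : Pt k) (i : Fin r) :
    (mv A (xp x) i).im = 0 := by
  unfold mv xp
  rw [Complex.im_sum]
  refine Finset.sum_eq_zero fun j _ => ?_
  have h : ((A i j : ℤ) : ℂ) * ((x.2 j : ℂ) / (x.1 : ℂ)) =
      (((A i j : ℝ) * ((x.2 j : ℝ) / (x.1 : ℝ)) : ℝ) : ℂ) := by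
    push_cast
    ring
  rw [h, Complex.ofReal_im]

private lemma Z2_one {k r : ℕ} (q : ℕ) (S : Finset (Pt k)) (A : Matrix (Fin r) (Fin k) ℤ)
    (z₀ : Fin r → ℂ) {t δ : ℝ} (ht : 0 < t) (hpt : ∀ x ∈ S, ∀ i, ‖mv A (xp x) i - z₀ i‖ ≤ t)
    (hδ : 0 < δ) : ∃ (T : Finset (Pt k)) (p : Fin r → ℂ), T ⊆ S ∧ (∀ i, ‖p i‖ ≤ t) ∧
      (∀ x ∈ T, ∀ i, ‖mv A (xp x) i - z₀ i - p i‖ ≤ (q : ℝ) ^ (-δ)) ∧
      (1 ≤ q → (S.card : ℝ) ≤ (2 * t * (q : ℝ) ^ δ + 3) ^ r * T.card) := by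
  classical
  by_cases hq : 1 ≤ q
  swap
  · refine ⟨∅, 0, Finset.empty_subset _, fun i => ?_, fun x hx => ?_, fun h => absurd h hq⟩
    · rw [Pi.zero_apply, norm_zero]
      exact ht.le
    · exact absurd hx (Finset.notMem_empty x)
  have hq' : (1 : ℝ) ≤ q := by exact_mod_cast hq
  have hM : 1 ≤ (q : ℝ) ^ δ := Real.one_le_rpow hq' hδ.le
  have hM0 : 0 < (q : ℝ) ^ δ := lt_of_lt_of_le one_pos hM
  have hneg : (q : ℝ) ^ (-δ) = ((q : ℝ) ^ δ)⁻¹ := Real.rpow_neg (by linarith) δ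
  rw [hneg]
  generalize (q : ℝ) ^ δ = M at hM hM0
  have hre : ∀ x ∈ S, ∀ i, |(mv A (xp x) i - z₀ i).re| ≤ t := fun x hx i =>
    (Complex.abs_re_le_norm _).trans (hpt x hx i)
  have hf : ∀ x ∈ S, (fun i => ⌊(mv A (xp x) i - z₀ i).re * M⌋ : Fin r → ℤ) ∈
      Fintype.piFinset (fun _ : Fin r => Finset.Icc ⌊-(t * M)⌋ ⌊t * M⌋) := by
    intro x hx
    rw [Fintype.mem_piFinset]
    intro i
    rw [Finset.mem_Icc]
    have h1 := abs_le.1 (hre x hx i)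
    constructor
    · apply Int.floor_le_floor
      have := mul_le_mul_of_nonneg_right h1.1 hM0.le
      linarith
    · apply Int.floor_le_floor
      exact mul_le_mul_of_nonneg_right h1.2 hM0.le
  have hne : (Fintype.piFinset (fun _ : Fin r => Finset.Icc ⌊-(t * M)⌋ ⌊t * M⌋)).Nonempty := by
    refine ⟨fun _ => ⌊-(t * M)⌋, ?_⟩
    rw [Fintype.mem_piFinset]
    intro i
    rw [Finset.mem_Icc]
    refine ⟨le_rfl, Int.floor_le_floor ?_⟩
    have := mul_pos ht hM0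
    linarith
  have hcard : ((Fintype.piFinset (fun _ : Fin r => Finset.Icc ⌊-(t * M)⌋ ⌊t * M⌋)).card : ℝ) ≤
      (2 * t * M + 3) ^ r := by
    rw [Fintype.card_piFinset_const, Nat.cast_pow]
    apply pow_le_pow_left₀ (Nat.cast_nonneg _)
    rw [Int.card_Icc]
    have h1 : (0 : ℤ) ≤ ⌊t * M⌋ + 1 - ⌊-(t * M)⌋ := by
      have h2 : ⌊-(t * M)⌋ ≤ ⌊t * M⌋ := Int.floor_le_floor (by
        have := mul_pos ht hM0
        linarith)
      omega
    have h2 : (((⌊t * M⌋ + 1 - ⌊-(t * M)⌋).toNat : ℕ) : ℝ) =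
        ((⌊t * M⌋ + 1 - ⌊-(t * M)⌋ : ℤ) : ℝ) := by
      rw [← Int.cast_natCast, Int.toNat_of_nonneg h1]
    rw [h2]
    push_cast
    have h3 := Int.floor_le (t * M)
    have h4 := Int.lt_floor_add_one (-(t * M))
    linarith
  have hpos : (0 : ℝ) < (Fintype.piFinset (fun _ : Fin r =>
      Finset.Icc ⌊-(t * M)⌋ ⌊t * M⌋)).card := by
    exact_mod_cast hne.card_pos
  obtain ⟨y, -, hy⟩ := Finset.exists_le_card_fiber_of_nsmul_le_card_of_maps_to hf hne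
    (b := (S.card : ℝ) / (Fintype.piFinset (fun _ : Fin r =>
      Finset.Icc ⌊-(t * M)⌋ ⌊t * M⌋)).card) (by
      rw [nsmul_eq_mul, mul_div_cancel₀ _ hpos.ne'])
  have hS : (S.card : ℝ) ≤ (2 * t * M + 3) ^ r *
      ((S.filter fun x => (fun i => ⌊(mv A (xp x) i - z₀ i).re * M⌋ : Fin r → ℤ) = y).card : ℝ) := by
    rw [div_le_iff₀ hpos] at hy
    refine hy.trans ?_
    rw [mul_comm]
    exact mul_le_mul_of_nonneg_right hcard (Nat.cast_nonneg _)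
  rcases (S.filter fun x => (fun i => ⌊(mv A (xp x) i - z₀ i).re * M⌋ :
      Fin r → ℤ) = y).eq_empty_or_nonempty with hT | ⟨xs, hxs⟩
  · refine ⟨_, 0, Finset.filter_subset _ _, fun i => ?_, fun x hx => ?_, fun _ => hS⟩
    · rw [Pi.zero_apply, norm_zero]
      exact ht.le
    · rw [hT] at hx
      exact absurd hx (Finset.notMem_empty x)
  · refine ⟨_, fun i => mv A (xp xs) i - z₀ i, Finset.filter_subset _ _, fun i => ?_,
      fun x hx i => ?_, fun _ => hS⟩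
    · exact hpt xs (Finset.mem_filter.1 hxs).1 i
    · have h1 := (Finset.mem_filter.1 hxs).2
      have h2 := (Finset.mem_filter.1 hx).2
      have h3 : ⌊(mv A (xp x) i - z₀ i).re * M⌋ = ⌊(mv A (xp xs) i - z₀ i).re * M⌋ := by
        have h4 := congrFun (h2.trans h1.symm) i
        exact h4
      have h5 := Int.abs_sub_lt_one_of_floor_eq_floor h3
      have h6 : mv A (xp x) i - z₀ i - (mv A (xp xs) i - z₀ i) =
          (((mv A (xp x) i - z₀ i).re - (mv A (xp xs) i - z₀ i).re : ℝ) : ℂ) := by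
        apply Complex.ext
        · rw [Complex.ofReal_re, Complex.sub_re]
        · rw [Complex.ofReal_im]
          simp only [Complex.sub_im]
          rw [Z2_real, Z2_real]
          ring
      rw [h6, Complex.norm_real, Real.norm_eq_abs, ← one_div, le_div_iff₀ hM0]
      rw [← sub_mul, abs_mul, abs_of_pos hM0] at h5
      exact h5.le

/-- AXG-Z2: many points in a small cube. Proof. The vectors `v_x = mv A (xp x)` are real. For `Q = Q n ≥ 1` map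
`x ∈ S n` to `(⌊Re (v_x i - z₀ i) Q^δ⌋)_i`; the values are in the product of `r` intervals with at most
`2 t Q^δ + 3` integers, so one fibre has at least `card (S n) / (2 t Q^δ + 3)^r` elements
(`Finset.exists_le_card_fiber_of_mul_le_card_of_maps_to`); this is `≥ Q^c'` for large `n`, `0 < c' < c - r δ`.
Let `T n` be this fibre, `x*` an element of it and `p n = v_{x*} - z₀` (if `S n` is empty or `Q n = 0` then
`T n = ∅`, `p n = 0`). For `x ∈ T n`: `v_x i - v_{x*} i` is real and `< Q^(-δ)` in absolute value. -/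
theorem cubes {k r : ℕ} {Q : ℕ → ℕ} (hQ : Tendsto Q atTop atTop) (S : ℕ → Finset (Pt k)) {c : ℝ}
    (hS : ∀ᶠ n in (UF : Filter ℕ), (Q n : ℝ) ^ c ≤ (S n).card) (A : Matrix (Fin r) (Fin k) ℤ)
    (z₀ : Fin r → ℂ) {t δ : ℝ} (ht : 0 < t) (hpt : ∀ n, ∀ x ∈ S n, ∀ i, ‖mv A (xp x) i - z₀ i‖ ≤ t)
    (hδ : 0 < δ) (hc : r * δ < c) :
    ∃ (T : ℕ → Finset (Pt k)) (p : ℕ → Fin r → ℂ), (∀ n, T n ⊆ S n) ∧ Large Q T ∧
      (∀ n i, ‖p n i‖ ≤ t) ∧
      ∀ n, ∀ x ∈ T n, ∀ i, ‖mv A (xp x) i - z₀ i - p n i‖ ≤ (Q n : ℝ) ^ (-δ) := by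
  choose T p h1 h2 h3 h4 using fun n => Z2_one (Q n) (S n) A z₀ ht (hpt n) hδ
  refine ⟨T, p, h1, ⟨(c - r * δ) / 2, by linarith, ?_⟩, h2, h3⟩
  have hc' : 0 < (c - r * δ) / 2 := by linarith
  have hUF : (UF : Filter ℕ) ≤ atTop := by
    have := Filter.hyperfilter_le_cofinite (α := ℕ)
    rwa [Nat.cofinite_eq_atTop] at this
  have e1 : ∀ᶠ n in (UF : Filter ℕ), 1 ≤ Q n := hUF (hQ.eventually_ge_atTop 1)
  have e2 : ∀ᶠ n in (UF : Filter ℕ), (2 * t + 3) ^ r ≤ (Q n : ℝ) ^ ((c - r * δ) / 2) :=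
    hUF (((tendsto_rpow_atTop hc').comp (tendsto_natCast_atTop_atTop.comp hQ)).eventually_ge_atTop
      ((2 * t + 3) ^ r))
  filter_upwards [hS, e1, e2] with n a1 a2 a3
  have hq : (1 : ℝ) ≤ Q n := by exact_mod_cast a2
  have hq0 : (0 : ℝ) < Q n := by linarith
  have b1 := h4 n a2
  have b2 : (2 * t * (Q n : ℝ) ^ δ + 3) ^ r ≤ (2 * t + 3) ^ r * (Q n : ℝ) ^ (r * δ) := by
    have b3 : (Q n : ℝ) ^ (r * δ) = ((Q n : ℝ) ^ δ) ^ r := by
      rw [mul_comm, Real.rpow_mul hq0.le, Real.rpow_natCast]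
    rw [b3, ← mul_pow]
    have hM : 1 ≤ (Q n : ℝ) ^ δ := Real.one_le_rpow hq hδ.le
    apply pow_le_pow_left₀
    · positivity
    · nlinarith
  have b4 : (Q n : ℝ) ^ c = (Q n : ℝ) ^ ((c - r * δ) / 2) * (Q n : ℝ) ^ ((c - r * δ) / 2) *
      (Q n : ℝ) ^ (r * δ) := by
    rw [← Real.rpow_add hq0, ← Real.rpow_add hq0]
    congr 1
    ring
  have b5 : 0 < (Q n : ℝ) ^ ((c - r * δ) / 2) := Real.rpow_pos_of_pos hq0 _
  have b6 : 0 < (Q n : ℝ) ^ (r * δ) := Real.rpow_pos_of_pos hq0 _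
  have b7 : (Q n : ℝ) ^ ((c - r * δ) / 2) * (Q n : ℝ) ^ ((c - r * δ) / 2) *
      (Q n : ℝ) ^ (r * δ) ≤ (Q n : ℝ) ^ ((c - r * δ) / 2) * (Q n : ℝ) ^ (r * δ) * (T n).card := by
    rw [← b4]
    refine (a1.trans b1).trans ?_
    apply mul_le_mul_of_nonneg_right _ (Nat.cast_nonneg _)
    exact b2.trans (mul_le_mul_of_nonneg_right a3 b6.le)
  have b8 : (Q n : ℝ) ^ ((c - r * δ) / 2) * (Q n : ℝ) ^ (r * δ) *
      (Q n : ℝ) ^ ((c - r * δ) / 2) ≤
      (Q n : ℝ) ^ ((c - r * δ) / 2) * (Q n : ℝ) ^ (r * δ) * (T n).card := by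
    calc _ = (Q n : ℝ) ^ ((c - r * δ) / 2) * (Q n : ℝ) ^ ((c - r * δ) / 2) *
        (Q n : ℝ) ^ (r * δ) := by ring
      _ ≤ _ := b7
  exact le_of_mul_le_mul_left b8 (mul_pos b5 b6)

end Pool.Agent.Helper94.AXG
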