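import Pool.Agent.Helper94.AXG.ZDefs
import Pool.Agent.Helper94.AXG.G3B

/-! # AXG-Z4 -/

namespace Pool.Agent.Helper94.AXG

open Filter Topology

/-- AXG-Z4a: `fF` is a polynomial in the parameters and in `z`: closure properties `CA_const`, `CA_coord`,
`CA_add`, `CA_mul`, `CA_sum`, `CA_prod`, `CA_pow` -/
theorem CA2_fF {D d l : ℕ} (r n : ℕ) (bs : Par (r + n) D d l → ℂ) (z₀ : Fin (r + n) → ℂ) (j : ℕ) :
    CA2 (fF r n bs z₀ j) := by
  classical
  unfold CA2
  by_cases hj : r + j < r + n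
  · have h1 : (fun w : Par (r + n) D d l ⊕ Fin (r + j + 1) → ℂ =>
        fF r n bs z₀ j (fun i => w (Sum.inl i)) (fun i => w (Sum.inr i))) =
        fun w => ∑ ν : Fin (r + n) → Fin (D + 1),
          (bs (Sum.inl (⟨r + j, hj⟩, ν)) + w (Sum.inl (Sum.inl (⟨r + j, hj⟩, ν)))) *
          ∏ i : Fin (r + n), (z₀ i + if h : (i : ℕ) < r + j + 1 then w (Sum.inr ⟨i, h⟩) else 0) ^
            (ν i : ℕ) := by
      funext w
      unfold fF
      rw [dif_pos hj]
      rfl
    rw [h1]
    refine CA_sum Finset.univ fun ν _ => CA_mul (CA_add (CA_const _) (CA_coord _)) ?_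
    refine CA_prod Finset.univ fun i _ => CA_pow (CA_add (CA_const _) ?_) _
    by_cases h : (i : ℕ) < r + j + 1
    · have h2 : (fun w : Par (r + n) D d l ⊕ Fin (r + j + 1) → ℂ =>
          (if h : (i : ℕ) < r + j + 1 then w (Sum.inr ⟨i, h⟩) else 0)) =
          fun w => w (Sum.inr ⟨i, h⟩) := by
        funext w
        rw [dif_pos h]
      rw [h2]
      exact CA_coord _
    · have h2 : (fun w : Par (r + n) D d l ⊕ Fin (r + j + 1) → ℂ =>
          (if h : (i : ℕ) < r + j + 1 then w (Sum.inr ⟨i, h⟩) else 0)) = fun _ => 0 := by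
        funext w
        rw [dif_neg h]
      rw [h2]
      exact CA_const _
  · have h1 : (fun w : Par (r + n) D d l ⊕ Fin (r + j + 1) → ℂ =>
        fF r n bs z₀ j (fun i => w (Sum.inl i)) (fun i => w (Sum.inr i))) = fun _ => 0 := by
      funext w
      unfold fF
      rw [dif_neg hj]
    rw [h1]
    exact CA_const _

end Pool.Agent.Helper94.AXG
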