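import Pool.Agent.Helper94.AXG.ZDefs
import Pool.Agent.Helper94.AXG.G3B

/-! # AXG-Z4B -/

namespace Pool.Agent.Helper94.AXG

open Filter Topology

private theorem Z4B_U (z : ℂ) : AnalyticAt ℂ (fun w => U (z + w)) 0 := by
  have h : Differentiable ℂ U := Complex.differentiable_one_div_Gamma
  have h2 : Differentiable ℂ (fun w => U (z + w)) := h.comp (by fun_prop)
  exact h2.analyticAt 0

/-- the linear form `w ↦ (B z) i` -/
private noncomputable def Z4B_L {ι : Type} {k : ℕ} (B : Matrix (Fin k) (Fin k) ℤ) (i : Fin k) :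
    ((ι ⊕ Fin k) → ℂ) →ₗ[ℂ] ℂ :=
  ∑ j, (B i j : ℂ) • LinearMap.proj (Sum.inr j)

private theorem Z4B_L_apply {ι : Type} {k : ℕ} (B : Matrix (Fin k) (Fin k) ℤ) (i : Fin k)
    (w : (ι ⊕ Fin k) → ℂ) : Z4B_L B i w = mv B (fun j => w (Sum.inr j)) i := by
  simp [Z4B_L, mv, LinearMap.sum_apply]

private theorem Z4B_mv {ι : Type} [Fintype ι] {k : ℕ} (B : Matrix (Fin k) (Fin k) ℤ) (i : Fin k)
    (x : ℂ) : CA (fun w : (ι ⊕ Fin k) → ℂ => x + mv B (fun j => w (Sum.inr j)) i) := by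
  have hx : AnalyticAt ℂ (fun w : ℂ => x + w) 0 := by fun_prop
  have h := CA_comp_form hx (Z4B_L (ι := ι) B i)
  simpa only [Z4B_L_apply] using h

private theorem Z4B_Umv {ι : Type} [Fintype ι] {k : ℕ} (B : Matrix (Fin k) (Fin k) ℤ) (i : Fin k)
    (x : ℂ) : CA (fun w : (ι ⊕ Fin k) → ℂ => U (x + mv B (fun j => w (Sum.inr j)) i)) := by
  have h := CA_comp_form (Z4B_U x) (Z4B_L (ι := ι) B i)
  simpa only [Z4B_L_apply] using h

/-- AXG-Z4b: the same for `gF`; `z ↦ U (x₀ i + (B z) i)` is `CA` by `CA_comp_form` for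
`g w = U (x₀ i + w)`, which is analytic at `0` (`Complex.differentiable_one_div_Gamma`) -/
theorem CA2_gF {k D d l : ℕ} (bs : Par k D d l → ℂ) (x₀ : Fin k → ℂ) (B : Matrix (Fin k) (Fin k) ℤ)
    (a : ℕ) : CA2 (gF bs x₀ B a) := by
  unfold CA2 gF gam pol
  refine CA_add ?_ ?_
  · refine CA_sum _ fun ν _ => CA_mul (CA_add (CA_const _) (CA_coord _)) ?_
    exact CA_prod _ fun i _ => CA_pow (Z4B_Umv B i (x₀ i)) _
  · refine CA_sum _ fun s _ => CA_mul (CA_const _) ?_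
    refine CA_sum _ fun ν _ => CA_mul (CA_add (CA_const _) (CA_coord _)) ?_
    exact CA_prod _ fun i _ => CA_pow (Z4B_mv B i (x₀ i)) _

end Pool.Agent.Helper94.AXG
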