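import Pool.Agent.Helper94.AXG.ZDefs

/-! # AXG-Z5: values -/

namespace Pool.Agent.Helper94.AXG

open MvPolynomial Filter Topology

/-- AXG-Z5a (routine: a polynomial of total degree `≤ D` is the sum over the exponents with entries `≤ D`) -/
theorem pol_cf {k D : ℕ} {F : MvPolynomial (Fin k) ℂ} (hF : F.totalDegree ≤ D) (x : Fin k → ℂ) :
    pol (cf D F) x = eval x F := by
  classical
  have hinj : Function.Injective (ex : (Fin k → Fin (D + 1)) → (Fin k →₀ ℕ)) := by
    intro a b hab
    funext i
    have := DFunLike.congr_fun hab i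
    simp only [ex, Finsupp.equivFunOnFinite_symm_apply_apply] at this
    exact Fin.ext this
  have hsub : F.support ⊆ Finset.univ.image (ex : (Fin k → Fin (D + 1)) → (Fin k →₀ ℕ)) := by
    intro d hd
    have hle : ∀ i, d i < D + 1 := by
      intro i
      have h1 : d i ≤ d.degree := Finsupp.le_degree i d
      have h2 : d.degree ≤ F.totalDegree := by
        have := le_totalDegree hd
        simpa [Finsupp.degree, Finsupp.sum] using this
      omega
    refine Finset.mem_image.mpr ⟨fun i => ⟨d i, hle i⟩, Finset.mem_univ _, ?_⟩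
    ext i
    simp [ex]
  rw [eval_eq', Finset.sum_subset hsub, Finset.sum_image (fun a _ b _ h => hinj h)]
  · unfold pol cf
    refine Finset.sum_congr rfl fun ν _ => ?_
    congr 1
  · intro d _ hd
    rw [notMem_support_iff.mp hd, zero_mul]

/-- AXG-Z5b: a polynomial in the variables `≤ j` -/
theorem eval_LeadAt {k : ℕ} {j : Fin k} {m : ℕ} {F : MvPolynomial (Fin k) ℂ} (h : LeadAt j m F)
    {x y : Fin k → ℂ} (hxy : ∀ i, i ≤ j → x i = y i) : eval x F = eval y F := by
  rw [eval_eq', eval_eq']
  refine Finset.sum_congr rfl fun d hd => ?_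
  have h1 := (h.2 d (mem_support_iff.mp hd)).1
  congr 1
  refine Finset.prod_congr rfl fun i _ => ?_
  rcases le_or_gt i j with hi | hi
  · rw [hxy i hi]
  · rw [h1 i hi, pow_zero, pow_zero]

/-- AXG-Z5c: linear algebra of `mv` -/
theorem mv_add {r k : ℕ} (A : Matrix (Fin r) (Fin k) ℤ) (x y : Fin k → ℂ) (i : Fin r) :
    mv A (fun j => x j + y j) i = mv A x i + mv A y i := by
  simp only [mv, mul_add, Finset.sum_add_distrib]

theorem mv_mv {k : ℕ} {A B : Matrix (Fin k) (Fin k) ℤ} (h : B * A = 1) (x : Fin k → ℂ) :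
    mv B (mv A x) = x := by
  funext i
  have h1 : ∀ l, ∑ j, (B i j : ℂ) * (A j l : ℂ) = if i = l then 1 else 0 := by
    intro l
    have h2 := congrFun (congrFun h i) l
    rw [Matrix.mul_apply, Matrix.one_apply] at h2
    have h3 : ((∑ j, B i j * A j l : ℤ) : ℂ) = ((if i = l then 1 else 0 : ℤ) : ℂ) := by rw [h2]
    push_cast at h3
    rw [h3]
  calc mv B (mv A x) i = ∑ j, (B i j : ℂ) * ∑ l, (A j l : ℂ) * x l := rfl
    _ = ∑ j, ∑ l, (B i j : ℂ) * (A j l : ℂ) * x l := by
        refine Finset.sum_congr rfl fun j _ => ?_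
        rw [Finset.mul_sum]
        refine Finset.sum_congr rfl fun l _ => ?_
        ring
    _ = ∑ l, (∑ j, (B i j : ℂ) * (A j l : ℂ)) * x l := by
        rw [Finset.sum_comm]
        refine Finset.sum_congr rfl fun l _ => ?_
        rw [Finset.sum_mul]
    _ = ∑ l, (if i = l then 1 else 0) * x l := by
        refine Finset.sum_congr rfl fun l _ => ?_
        rw [h1 l]
    _ = x i := by simp

theorem mv_rows {r k : ℕ} (hrk : r ≤ k) (A : Matrix (Fin k) (Fin k) ℤ) (x : Fin k → ℂ) (i : Fin r) :
    mv (rows hrk A) x i = mv A x (Fin.castLE hrk i) := rfl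

end Pool.Agent.Helper94.AXG
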