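import Pool.Agent.Helper94.AXG.ZDefs

/-! # AXG-Z8 -/

namespace Pool.Agent.Helper94.AXG

open MvPolynomial

private noncomputable def upz {k : ℕ} (j : Fin k) (a : Fin k → ℂ) (f : MvPolynomial (Fin k) ℂ) :
    Polynomial ℂ :=
  ∑ ν ∈ f.support, Polynomial.C (coeff ν f * ∏ i ∈ Finset.univ.erase j, a i ^ ν i) * Polynomial.X ^ (ν j)

private theorem upz_eval {k : ℕ} (j : Fin k) (a y : Fin k → ℂ) (f : MvPolynomial (Fin k) ℂ)
    (h : ∀ i, i < j → y i = a i) (hf : ∀ ν, coeff ν f ≠ 0 → ∀ i, j < i → ν i = 0) :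
    (upz j a f).eval (y j) = eval y f := by
  rw [eval_eq', upz, Polynomial.eval_finsetSum]
  refine Finset.sum_congr rfl fun ν hν => ?_
  rw [Polynomial.eval_mul, Polynomial.eval_C, Polynomial.eval_pow, Polynomial.eval_X,
    ← Finset.mul_prod_erase Finset.univ (fun i => y i ^ ν i) (Finset.mem_univ j)]
  have : ∏ i ∈ Finset.univ.erase j, a i ^ ν i = ∏ i ∈ Finset.univ.erase j, y i ^ ν i := by
    refine Finset.prod_congr rfl fun i hi => ?_
    rcases lt_trichotomy i j with h1 | h1 | h1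
    · rw [h i h1]
    · exact absurd h1 (Finset.ne_of_mem_erase hi)
    · rw [hf ν (mem_support_iff.mp hν) i h1, pow_zero, pow_zero]
  rw [this]
  ring

private theorem upz_natDegree {k : ℕ} (j : Fin k) (m : ℕ) (a : Fin k → ℂ) (f : MvPolynomial (Fin k) ℂ)
    (hf : LeadAt j m f) : (upz j a f).natDegree ≤ m := by
  rw [upz]
  refine Polynomial.natDegree_sum_le_of_forall_le _ _ fun ν hν => ?_
  exact (Polynomial.natDegree_C_mul_X_pow_le _ _).trans (hf.2 ν (mem_support_iff.mp hν)).2.1

private theorem upz_ne_zero {k : ℕ} (j : Fin k) (m : ℕ) (a : Fin k → ℂ) (f : MvPolynomial (Fin k) ℂ)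
    (hf : LeadAt j m f) : upz j a f ≠ 0 := by
  intro h0
  have h1 : (upz j a f).coeff m = coeff (Finsupp.single j m) f := by
    rw [upz, Polynomial.finsetSum_coeff]
    rw [Finset.sum_eq_single (Finsupp.single j m)]
    · rw [Polynomial.coeff_C_mul_X_pow, Finsupp.single_eq_same, if_pos rfl]
      rw [Finset.prod_eq_one, mul_one]
      intro i hi
      rw [Finsupp.single_eq_of_ne (Finset.ne_of_mem_erase hi), pow_zero]
    · intro ν hν hne
      rw [Polynomial.coeff_C_mul_X_pow, if_neg]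
      intro h2
      exact hne ((hf.2 ν (mem_support_iff.mp hν)).2.2 h2.symm)
    · intro h2
      exact absurd (mem_support_iff.mpr hf.1) h2
  rw [h0, Polynomial.coeff_zero] at h1
  exact hf.1 h1.symm

private theorem tower_step {k : ℕ} (f : Fin k → MvPolynomial (Fin k) ℂ) (m : Fin k → ℕ)
    (W : Finset (Fin k → ℂ)) (s : ℕ) (hs : s < k) (hf : LeadAt ⟨s, hs⟩ (m ⟨s, hs⟩) (f ⟨s, hs⟩))
    (hW : ∀ y ∈ W, eval y (f ⟨s, hs⟩) = 0) :
    (W.image (fun y (i : Fin k) => if (i : ℕ) < s + 1 then y i else 0)).card ≤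
      m ⟨s, hs⟩ * (W.image (fun y (i : Fin k) => if (i : ℕ) < s then y i else 0)).card := by
  classical
  set g : (Fin k → ℂ) → (Fin k → ℂ) := fun y i => if (i : ℕ) < s then y i else 0 with hg
  set W1 := W.image (fun y (i : Fin k) => if (i : ℕ) < s + 1 then y i else 0) with hW1
  have him : W.image g = W1.image g := by
    rw [hW1, Finset.image_image]
    refine Finset.image_congr fun y _ => ?_
    funext i
    simp only [hg, Function.comp]
    by_cases h : (i : ℕ) < s
    · rw [if_pos h, if_pos h, if_pos (by omega)]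
    · rw [if_neg h, if_neg h]
  rw [him]
  refine Finset.card_le_mul_card_image W1 (m ⟨s, hs⟩) fun a ha => ?_
  have hinj : Set.InjOn (fun y : Fin k → ℂ => y ⟨s, hs⟩) (W1.filter fun x => g x = a : Finset _) := by
    intro y hy y' hy' he
    rw [Finset.mem_coe, Finset.mem_filter] at hy hy'
    obtain ⟨w, -, hw⟩ := Finset.mem_image.mp hy.1
    obtain ⟨w', -, hw'⟩ := Finset.mem_image.mp hy'.1
    funext i
    rcases lt_trichotomy (i : ℕ) s with h | h | h
    · have h1 := congrFun (hy.2.trans hy'.2.symm) i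
      simp only [hg, if_pos h] at h1
      exact h1
    · have : i = ⟨s, hs⟩ := Fin.ext h
      rw [this]
      exact he
    · rw [← hw, ← hw']
      simp only
      rw [if_neg (by omega), if_neg (by omega)]
  rw [← Finset.card_image_of_injOn hinj]
  have hsub : (W1.filter fun x => g x = a).image (fun y : Fin k → ℂ => y ⟨s, hs⟩) ⊆
      (upz ⟨s, hs⟩ a (f ⟨s, hs⟩)).roots.toFinset := by
    intro t ht
    obtain ⟨y, hy, rfl⟩ := Finset.mem_image.mp ht
    rw [Finset.mem_filter] at hy
    obtain ⟨w, hw0, hw⟩ := Finset.mem_image.mp hy.1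
    rw [Multiset.mem_toFinset, Polynomial.mem_roots (upz_ne_zero _ _ _ _ hf), Polynomial.IsRoot.def]
    have h1 : y ⟨s, hs⟩ = w ⟨s, hs⟩ := by
      rw [← hw]
      simp
    rw [h1, upz_eval]
    · exact hW w hw0
    · intro i hi
      have h2 := congrFun hy.2 i
      have h3 : (i : ℕ) < s := hi
      simp only [hg, if_pos h3] at h2
      rw [← h2, ← hw]
      simp only
      rw [if_pos (by omega)]
    · intro ν hν i hi
      exact (hf.2 ν hν).1 i hi
  calc _ ≤ (upz ⟨s, hs⟩ a (f ⟨s, hs⟩)).roots.toFinset.card := Finset.card_le_card hsub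
    _ ≤ Multiset.card (upz ⟨s, hs⟩ a (f ⟨s, hs⟩)).roots := Multiset.toFinset_card_le _
    _ ≤ (upz ⟨s, hs⟩ a (f ⟨s, hs⟩)).natDegree := Polynomial.card_roots' _
    _ ≤ _ := upz_natDegree _ _ _ _ hf

private theorem tower_ind {k r : ℕ} (hrk : r ≤ k) (f : Fin k → MvPolynomial (Fin k) ℂ) (m : Fin k → ℕ)
    (hf : ∀ j : Fin k, r ≤ (j : ℕ) → LeadAt j (m j) (f j)) (z' : Fin r → ℂ) (W : Finset (Fin k → ℂ))
    (hW : ∀ y ∈ W, (∀ i : Fin r, y (Fin.castLE hrk i) = z' i) ∧
      ∀ j : Fin k, r ≤ (j : ℕ) → eval y (f j) = 0) (t : ℕ) (ht : r + t ≤ k) :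
    (W.image (fun y (i : Fin k) => if (i : ℕ) < r + t then y i else 0)).card ≤
      ∏ j ∈ Finset.univ.filter (fun j : Fin k => r ≤ (j : ℕ) ∧ (j : ℕ) < r + t), m j := by
  classical
  induction t with
  | zero =>
    have hem : Finset.univ.filter (fun j : Fin k => r ≤ (j : ℕ) ∧ (j : ℕ) < r + 0) = ∅ := by
      refine Finset.filter_eq_empty_iff.mpr fun j _ h => ?_
      omega
    rw [hem, Finset.prod_empty, Finset.card_le_one]
    intro a ha b hb
    obtain ⟨y, hy, rfl⟩ := Finset.mem_image.mp ha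
    obtain ⟨y', hy', rfl⟩ := Finset.mem_image.mp hb
    funext i
    by_cases h : (i : ℕ) < r + 0
    · rw [if_pos h, if_pos h]
      have h1 := (hW y hy).1 ⟨i, h⟩
      have h2 := (hW y' hy').1 ⟨i, h⟩
      have h3 : Fin.castLE hrk ⟨i, h⟩ = i := Fin.ext rfl
      rw [h3] at h1 h2
      rw [h1, h2]
    · rw [if_neg h, if_neg h]
  | succ t ih =>
    have hs : r + t < k := by omega
    have h1 := tower_step f m W (r + t) hs (hf ⟨r + t, hs⟩ (Nat.le_add_right r t))
      (fun y hy => (hW y hy).2 ⟨r + t, hs⟩ (Nat.le_add_right r t))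
    have h2 := ih (by omega)
    have hset : Finset.univ.filter (fun j : Fin k => r ≤ (j : ℕ) ∧ (j : ℕ) < r + (t + 1)) =
        insert ⟨r + t, hs⟩ (Finset.univ.filter (fun j : Fin k => r ≤ (j : ℕ) ∧ (j : ℕ) < r + t)) := by
      ext j
      simp only [Finset.mem_filter, Finset.mem_univ, true_and, Finset.mem_insert, Fin.ext_iff]
      omega
    rw [hset, Finset.prod_insert]
    · refine le_trans ?_ (Nat.mul_le_mul_left _ h2)
      exact h1
    · simp

/-- AXG-Z8a: the tower of roots over one point (same as in block H; prove it here by induction). Proof.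
Induction on the number of the indices `j ≥ r`: for given coordinates `< j` the coordinate `j` is a root
of a polynomial in one variable of degree `m j` with nonzero leading coefficient (`LeadAt`). E.g. count the
set of restrictions to the coordinates `< s`, `s = r, …, k`, by induction on `s`. -/
theorem tower_count {k r : ℕ} (hrk : r ≤ k) (f : Fin k → MvPolynomial (Fin k) ℂ) (m : Fin k → ℕ)
    (hf : ∀ j : Fin k, r ≤ (j : ℕ) → LeadAt j (m j) (f j)) (z' : Fin r → ℂ) (W : Finset (Fin k → ℂ))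
    (hW : ∀ y ∈ W, (∀ i : Fin r, y (Fin.castLE hrk i) = z' i) ∧
      ∀ j : Fin k, r ≤ (j : ℕ) → eval y (f j) = 0) :
    W.card ≤ ∏ j ∈ Finset.univ.filter (fun j : Fin k => r ≤ (j : ℕ)), m j := by
  classical
  obtain ⟨t, ht⟩ : ∃ t, k = r + t := ⟨k - r, by omega⟩
  have h := tower_ind hrk f m hf z' W hW t (by omega)
  have h1 : (fun (y : Fin k → ℂ) (i : Fin k) => if (i : ℕ) < r + t then y i else 0) = id := by
    funext y i
    rw [if_pos (by omega)]
    rfl
  have h2 : Finset.univ.filter (fun j : Fin k => r ≤ (j : ℕ) ∧ (j : ℕ) < r + t) =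
      Finset.univ.filter (fun j : Fin k => r ≤ (j : ℕ)) := by
    ext j
    simp only [Finset.mem_filter, Finset.mem_univ, true_and]
    omega
  rw [h1, h2, Finset.image_id] at h
  exact h

end Pool.Agent.Helper94.AXG
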