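import Pool.Agent.Helper94.AXG.Z1B
import Pool.Agent.Helper94.AXG.Z3
import Pool.Agent.Helper94.AXG.Z6
import Pool.Agent.Helper94.AXG.Z7
import Pool.Agent.Helper94.AXG.Z8B

/-! # AXG-Z9: points over an open set -/

namespace Pool.Agent.Helper94.AXG

open MvPolynomial Filter Topology

private lemma eval_phi_z9 {r k : ℕ} (A : Matrix (Fin r) (Fin k) ℤ) (f : MvPolynomial (Fin r) ℂ)
    (x : Fin k → ℂ) : eval x (phi (R := ℂ) A f) = eval (mv A x) f := by
  unfold phi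
  induction f using MvPolynomial.induction_on with
  | C a => simp
  | add p q hp hq => simp only [map_add, hp, hq]
  | mul_X p i hp =>
    rw [map_mul, map_mul, hp, map_mul, aeval_X, eval_X]
    simp [mv]

/-- AXG-Z9. Proof. `h.mem` and `h.Lvan` give `hFv` of `tower_a`: `phi A (F j i)` is in the ideal of the
`L s i`, so it vanishes at `xp x`, and `eval x (phi A f) = eval (mv A x) f`. `concentration` gives `x₀`, `c`;
`param_seq` gives `D, m, bs`. Let `A₀ = l ∏ m_j + 1`. For every `a < A₀`: `tower_a` gives `N, e, ρ`, and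
`case_A` (with `b` the parameter differences) gives `ρ₀`; let `ρ'` be the minimum of all `ρ`, `ρ₀`
(`a < A₀`, finitely many). For UF-many `i`, for all `a < A₀` and `‖z'‖ < ρ'`: `N (b i) z' = 0`, so there is `y` as in
`tower_a`. `pigeon` (with `z' := mv (rows A) x₀ + z'`, `G y = gam (cf d (P i)) (mv B y)`) gives `y` with
`G y = 0` and `eval (mv B y) (L s i) = 0`; `x = mv B y`, `mv (rows A) x = y` on `Fin r` (`mv_mv` with
`A * B = 1`, `mv_rows`). `Δ` is the open polydisc of radius `ρ'` around `mv (rows A) x₀`. -/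
theorem over_open {r n : ℕ} {Q : ℕ → ℕ} (hQ : Tendsto Q atTop atTop) {S : ℕ → Finset (Pt (r + n))}
    {A B : Matrix (Fin (r + n)) (Fin (r + n)) ℤ} {F : Fin (r + n) → ℕ → MvPolynomial (Fin (r + n)) ℂ}
    {l : ℕ} {L : Fin l → ℕ → MvPolynomial (Fin (r + n)) ℂ}
    (h : Alg Q S r (Nat.le_add_right r n) A B F l L)
    (hS : ∀ i, ∀ x ∈ S i, 1 ≤ x.1 ∧ x.1 ≤ Q i ∧ ∀ j, x.2 j ≤ x.1) (d : ℕ)
    (P : ℕ → MvPolynomial (Fin (r + n)) ℂ) (hP : ∀ i, ∀ ν, ‖coeff ν (P i)‖ ≤ 1)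
    (hvan : ∀ i, ∀ x ∈ S i, gam (cf d (P i)) (xp x) = 0) :
    ∀ᶠ i in (UF : Filter ℕ), ∃ Δ : Set (Fin r → ℂ), IsOpen Δ ∧ Δ.Nonempty ∧ ∀ z ∈ Δ,
      ∃ x : Fin (r + n) → ℂ, mv (rows (Nat.le_add_right r n) A) x = z ∧
        (∀ f ∈ IdL L i, eval x f = 0) ∧ gam (cf d (P i)) x = 0 := by
  classical
  have hId : ∀ (i : ℕ) (x : Fin (r + n) → ℂ), (∀ s, eval x (L s i) = 0) → ∀ f ∈ IdL L i, eval x f = 0 := by
    intro i x hx f hf
    have h1 : IdL L i ≤ RingHom.ker (eval x) := by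
      unfold IdL
      rw [Ideal.span_le]
      rintro _ ⟨s, rfl⟩
      exact hx s
    exact h1 hf
  obtain ⟨x₀, c, hc, hconc⟩ := concentration hQ h.large (fun n x hx i => (hS n x hx).2.2 i)
  obtain ⟨D, m, bs, hFD, hlim, hb⟩ := param_seq h d P hP
  have hmem : ∀ᶠ i in (UF : Filter ℕ), ∀ j : Fin (r + n), r ≤ (j : ℕ) →
      phi (R := ℂ) A (F j i) ∈ IdL L i := by
    rw [eventually_all]
    intro j
    by_cases hj : r ≤ (j : ℕ)
    · filter_upwards [h.mem j hj] with i hi _ using hi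
    · exact Eventually.of_forall fun i hi => absurd hi hj
  have hFv : ∀ᶠ i in (UF : Filter ℕ), ∀ x ∈ S i, (∀ j : Fin (r + n), r ≤ (j : ℕ) →
      eval (mv A (xp x)) (F j i) = 0) ∧ (∀ s, eval (xp x) (L s i) = 0) ∧
        gam (cf d (P i)) (xp x) = 0 := by
    filter_upwards [hmem, h.Lvan] with i hi hL x hx
    have hL' : ∀ s, eval (xp x) (L s i) = 0 := fun s => hL s x hx
    refine ⟨fun j hj => ?_, hL', hvan i x hx⟩
    have h2 := hId i (xp x) hL' _ (hi j hj)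
    rwa [eval_phi_z9] at h2
  set A₀ : ℕ := l * ∏ j ∈ Finset.univ.filter (fun j : Fin (r + n) => r ≤ (j : ℕ)), m j + 1 with hA₀
  have hstep : ∀ a : ℕ, ∃ ρ : ℝ, 0 < ρ ∧ ∀ ρ' : ℝ, 0 < ρ' → ρ' ≤ ρ → ∀ᶠ i in (UF : Filter ℕ),
      ∀ z' : Fin r → ℂ, (∀ j, ‖z' j‖ < ρ') → ∃ y : Fin (r + n) → ℂ,
            (∀ j : Fin r, y (Fin.castLE (Nat.le_add_right r n) j) =
              mv (rows (Nat.le_add_right r n) A) x₀ j + z' j) ∧
            (∀ j : Fin (r + n), r ≤ (j : ℕ) → eval y (F j i) = 0) ∧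
            gam (cf d (P i)) (mv B y) +
              ∑ s : Fin l, (a : ℂ) ^ ((s : ℕ) + 1) * eval (mv B y) (L s i) = 0 := by
    intro a
    obtain ⟨N, e, ρ, hN, he, hρ, hv, hy⟩ := tower_a h.BA hFD hlim hb hFv x₀ a
    obtain ⟨ρ₀, hρ₀, hz⟩ := case_A hQ h (fun n x hx => ⟨(hS n x hx).1, (hS n x hx).2.1⟩) x₀ hc hconc N hN
      (fun i w => par D d (fun j => if r ≤ (j : ℕ) then F j i else 0) (fun s => L s i) (P i) w - bs w)
      hb he hv
    refine ⟨min ρ ρ₀, lt_min hρ hρ₀, fun ρ' hρ' hle => ?_⟩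
    filter_upwards [hy, hz ρ' hρ' (hle.trans (min_le_right _ _))] with i h1 h2 z' hz'
    exact h1 z' (fun j => (hz' j).trans_le (hle.trans (min_le_left _ _))) (h2 z' hz')
  choose ρa hρa hρb using hstep
  have hne : (Finset.range A₀).Nonempty := ⟨0, Finset.mem_range.2 (Nat.succ_pos _)⟩
  set ρ' : ℝ := (Finset.range A₀).inf' hne ρa with hρ'
  have hρ'0 : 0 < ρ' := by
    rw [hρ', Finset.lt_inf'_iff]
    exact fun a _ => hρa a
  have hall : ∀ᶠ i in (UF : Filter ℕ), ∀ a ∈ Finset.range A₀,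
      ∀ z' : Fin r → ℂ, (∀ j, ‖z' j‖ < ρ') → ∃ y : Fin (r + n) → ℂ,
            (∀ j : Fin r, y (Fin.castLE (Nat.le_add_right r n) j) =
              mv (rows (Nat.le_add_right r n) A) x₀ j + z' j) ∧
            (∀ j : Fin (r + n), r ≤ (j : ℕ) → eval y (F j i) = 0) ∧
            gam (cf d (P i)) (mv B y) +
              ∑ s : Fin l, (a : ℂ) ^ ((s : ℕ) + 1) * eval (mv B y) (L s i) = 0 := by
    rw [Filter.eventually_all_finset]
    intro a ha
    exact hρb a ρ' hρ'0 (Finset.inf'_le _ ha)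
  filter_upwards [hall, hFD] with i hi hD
  refine ⟨{z | ∀ j, ‖z j - mv (rows (Nat.le_add_right r n) A) x₀ j‖ < ρ'}, ?_,
    ⟨mv (rows (Nat.le_add_right r n) A) x₀, fun j => by simpa using hρ'0⟩, ?_⟩
  · have h3 : {z : Fin r → ℂ | ∀ j, ‖z j - mv (rows (Nat.le_add_right r n) A) x₀ j‖ < ρ'} =
        ⋂ j, {z : Fin r → ℂ | ‖z j - mv (rows (Nat.le_add_right r n) A) x₀ j‖ < ρ'} := by
      ext z; simp
    rw [h3]
    exact isOpen_iInter_of_finite fun j => isOpen_lt (by fun_prop) continuous_const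
  · intro z hz
    obtain ⟨y, hy1, _, hy3, hy4⟩ := pigeon (Nat.le_add_right r n) B (fun j => F j i) m
      (fun j hj => (hD.1 j hj).2) (fun s => L s i) (fun y => gam (cf d (P i)) (mv B y)) A₀
      (Nat.lt_succ_self _) z (fun a ha => by
        obtain ⟨y, h4, h5, h6⟩ := hi a (Finset.mem_range.2 ha)
          (fun j => z j - mv (rows (Nat.le_add_right r n) A) x₀ j) hz
        exact ⟨y, fun j => by rw [h4 j]; ring, h5, h6⟩)
    refine ⟨mv B y, ?_, hId i _ hy4, hy3⟩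
    funext j
    rw [mv_rows, mv_mv h.AB]
    exact hy1 j

end Pool.Agent.Helper94.AXG
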